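import Mathlib

/-!
A Selberg majorant on the integers (self-contained copy of the sieve part of `LC/Sieve.lean`
and of the progression count of `LC/UB.lean`, so that only Mathlib is imported).
-/

set_option autoImplicit false

namespace Pool.Agent.P.MP_a1177c_nt.EK

open Finset Filter

namespace BTAux

open scoped Classical

/-- primes not dividing `r` -/
def IsP (r p : ℕ) : Prop := p.Prime ∧ ¬ p ∣ r

lemma prod_dvd_iff {T : Finset ℕ} (hT : ∀ p ∈ T, p.Prime) (a : ℤ) :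
    ((∏ p ∈ T, p : ℕ) : ℤ) ∣ a ↔ ∀ p ∈ T, (p : ℤ) ∣ a := by
  simp only [Int.natCast_dvd]
  exact ⟨fun h p hp => (dvd_prod_of_mem (fun p => p) hp).trans h,
    fun h => Finset.prod_primes_dvd _ (fun p hp => (hT p hp).prime) h⟩

lemma prod_pos' {T : Finset ℕ} (hT : ∀ p ∈ T, p.Prime) : 0 < ∏ p ∈ T, p :=
  Finset.prod_pos fun p hp => (hT p hp).pos

lemma two_pow_card_le {T : Finset ℕ} (hT : ∀ p ∈ T, p.Prime) : 2 ^ T.card ≤ ∏ p ∈ T, p :=
  Finset.pow_card_le_prod T (fun p => p) 2 fun p hp => (hT p hp).two_le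

lemma prod_mono {T W : Finset ℕ} (hW : ∀ p ∈ W, p.Prime) (h : T ⊆ W) :
    ∏ p ∈ T, p ≤ ∏ p ∈ W, p :=
  Finset.prod_le_prod_of_subset_of_one_le' h fun p hp _ => (hW p hp).pos

/-- indicator of divisibility -/
noncomputable def X (p : ℕ) (a : ℤ) : ℝ := if (p : ℤ) ∣ a then 1 else 0

/-- model density -/
noncomputable def hh (p : ℕ) : ℝ := (p : ℝ)⁻¹

lemma hh_nonneg (p : ℕ) : 0 ≤ hh p := by unfold hh; positivity

lemma hh_le_one (p : ℕ) : hh p ≤ 1 := Nat.cast_inv_le_one _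

/-- sets of primes not dividing `r` with product at most `z` -/
noncomputable def J (z r : ℕ) : Finset (Finset ℕ) :=
  ((Icc 1 z).filter (IsP r)).powerset.filter fun S => ∏ p ∈ S, p ≤ z

lemma mem_J {z r : ℕ} {S : Finset ℕ} : S ∈ J z r ↔ (∀ p ∈ S, IsP r p) ∧ ∏ p ∈ S, p ≤ z := by
  simp only [J, mem_filter, mem_powerset]
  constructor
  · rintro ⟨h, h'⟩
    exact ⟨fun p hp => (mem_filter.1 (h hp)).2, h'⟩
  · rintro ⟨h, h'⟩
    refine ⟨fun p hp => mem_filter.2 ⟨mem_Icc.2 ⟨(h p hp).1.pos, ?_⟩, h p hp⟩, h'⟩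
    have := prod_mono (fun p hp => (h p hp).1) (singleton_subset_iff.2 hp)
    rw [prod_singleton] at this
    exact this.trans h'

lemma card_J_le (z r : ℕ) : (J z r).card ≤ z := by
  have h : (J z r).card ≤ (Icc 1 z).card := by
    refine card_le_card_of_injOn (fun S => ∏ p ∈ S, p) (fun S hS => ?_) (fun S hS S' hS' e => ?_)
    · obtain ⟨h1, h2⟩ := mem_J.1 hS
      exact mem_coe.2 (mem_Icc.2 ⟨prod_pos' fun p hp => (h1 p hp).1, h2⟩)
    · have h1 := Nat.primeFactors_prod fun p hp => ((mem_J.1 hS).1 p hp).1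
      have h2 := Nat.primeFactors_prod fun p hp => ((mem_J.1 hS').1 p hp).1
      rw [← h1, ← h2]
      exact congrArg Nat.primeFactors e
  simpa using h

noncomputable def phi (S : Finset ℕ) (a : ℤ) : ℝ := ∏ p ∈ S, (hh p - X p a)

noncomputable def Js (z r : ℕ) : ℝ := ∑ S ∈ J z r, ∏ p ∈ S, hh p

noncomputable def nu (z r : ℕ) (a : ℤ) : ℝ := (∑ S ∈ J z r, phi S a) ^ 2 / Js z r ^ 2

lemma nu_nonneg (z r : ℕ) (a : ℤ) : 0 ≤ nu z r a := by unfold nu; positivity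

lemma one_le_Js {z : ℕ} (r : ℕ) (hz : 1 ≤ z) : 1 ≤ Js z r := by
  have h : (∅ : Finset ℕ) ∈ J z r := mem_J.2 ⟨by simp, by simpa using hz⟩
  have := single_le_sum (f := fun S : Finset ℕ => ∏ p ∈ S, hh p)
    (fun S _ => prod_nonneg fun p _ => hh_nonneg p) h
  rwa [prod_empty] at this

lemma nu_rough {z : ℕ} (r : ℕ) (hz : 1 ≤ z) {a : ℤ}
    (ha : ∀ p : ℕ, p.Prime → p ≤ z → ¬ (p : ℤ) ∣ a) : nu z r a = 1 := by
  have h : ∑ S ∈ J z r, phi S a = Js z r := by
    refine sum_congr rfl fun S hS => prod_congr rfl fun p hp => ?_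
    obtain ⟨h1, h2⟩ := mem_J.1 hS
    have h3 := prod_mono (fun p hp => (h1 p hp).1) (singleton_subset_iff.2 hp)
    rw [prod_singleton] at h3
    simp [X, ha p (h1 p hp).1 (h3.trans h2)]
  have := one_le_Js r hz
  rw [nu, h, div_self (by positivity)]

lemma prod_X {T : Finset ℕ} (hT : ∀ p ∈ T, p.Prime) (a : ℤ) :
    ∏ p ∈ T, X p a = if ((∏ p ∈ T, p : ℕ) : ℤ) ∣ a then 1 else 0 := by
  simp only [X, prod_ite_zero, prod_const_one, prod_dvd_iff hT]

lemma prod_hh (T : Finset ℕ) : ∏ p ∈ T, hh p = ((∏ p ∈ T, p : ℕ) : ℝ)⁻¹ := by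
  simp only [hh, Nat.cast_prod, prod_inv_distrib]

/-- expansion of a product of affine functions of the indicators -/
lemma sum_prod_expand {ι : Type} (s : Finset ι) (n : ι → ℤ) (f : ι → ℂ) (m : ℂ) (R : ℝ)
    (W : Finset ℕ) (hW : ∀ p ∈ W, p.Prime) (e c : ℕ → ℝ) (he : ∀ p, |e p| ≤ 1)
    (hc : ∀ p, |c p| ≤ 1)
    (hR : ∀ T ⊆ W, ‖∑ a ∈ s.filter (fun a => ((∏ p ∈ T, p : ℕ) : ℤ) ∣ n a), f a -
      m / (∏ p ∈ T, p : ℕ)‖ ≤ R) :
    ‖∑ a ∈ s, ((∏ p ∈ W, (e p * X p (n a) + c p) : ℝ) : ℂ) * f a -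
      m * ((∏ p ∈ W, (e p * hh p + c p) : ℝ) : ℂ)‖ ≤ 2 ^ W.card * R := by
  have h1 : ∑ a ∈ s, ((∏ p ∈ W, (e p * X p (n a) + c p) : ℝ) : ℂ) * f a -
      m * ((∏ p ∈ W, (e p * hh p + c p) : ℝ) : ℂ) =
      ∑ T ∈ W.powerset, (((∏ p ∈ T, e p) * ∏ p ∈ W \ T, c p : ℝ) : ℂ) *
        (∑ a ∈ s.filter (fun a => ((∏ p ∈ T, p : ℕ) : ℤ) ∣ n a), f a -
          m / (∏ p ∈ T, p : ℕ)) := by
    simp only [prod_add, Complex.ofReal_sum, sum_mul, mul_sum, mul_sub, sum_sub_distrib]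
    congr 1
    · rw [sum_comm]
      refine sum_congr rfl fun T hT => ?_
      have hT' : ∀ p ∈ T, p.Prime := fun p hp => hW p (mem_powerset.1 hT hp)
      rw [sum_filter]
      refine sum_congr rfl fun a _ => ?_
      rw [prod_mul_distrib, prod_X hT']
      split_ifs <;> simp
    · refine sum_congr rfl fun T _ => ?_
      rw [prod_mul_distrib, prod_hh, Complex.ofReal_mul, Complex.ofReal_mul, Complex.ofReal_mul,
        Complex.ofReal_inv, Complex.ofReal_natCast]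
      ring
  rw [h1]
  refine (norm_sum_le _ _).trans ?_
  have h2 : ∀ T ∈ W.powerset, ‖(((∏ p ∈ T, e p) * ∏ p ∈ W \ T, c p : ℝ) : ℂ) *
      (∑ a ∈ s.filter (fun a => ((∏ p ∈ T, p : ℕ) : ℤ) ∣ n a), f a -
        m / (∏ p ∈ T, p : ℕ))‖ ≤ R := by
    intro T hT
    rw [norm_mul, Complex.norm_real, Real.norm_eq_abs, abs_mul, abs_prod, abs_prod]
    have h3 : ∏ p ∈ T, |e p| ≤ 1 := prod_le_one (fun p _ => abs_nonneg _) fun p _ => he p
    have h4 : ∏ p ∈ W \ T, |c p| ≤ 1 := prod_le_one (fun p _ => abs_nonneg _) fun p _ => hc p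
    have h5 : 0 ≤ ∏ p ∈ W \ T, |c p| := prod_nonneg fun p _ => abs_nonneg _
    calc _ ≤ 1 * 1 * R := by
          have := hR T (mem_powerset.1 hT)
          gcongr
      _ = R := by ring
  refine (sum_le_card_nsmul _ _ _ h2).trans ?_
  rw [card_powerset, nsmul_eq_mul]
  push_cast
  exact le_rfl

lemma phi_mul (S S' : Finset ℕ) (a : ℤ) : phi S a * phi S' a =
    ∏ p ∈ S ∪ S', ((if p ∈ S ∩ S' then 1 - 2 * hh p else -1) * X p a +
      (if p ∈ S ∩ S' then hh p ^ 2 else hh p)) := by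
  have h1 : phi S a = ∏ p ∈ S ∪ S', if p ∈ S then hh p - X p a else 1 := by
    rw [prod_ite_mem, union_inter_cancel_left, phi]
  have h2 : phi S' a = ∏ p ∈ S ∪ S', if p ∈ S' then hh p - X p a else 1 := by
    rw [prod_ite_mem, union_inter_cancel_right, phi]
  rw [h1, h2, ← prod_mul_distrib]
  refine prod_congr rfl fun p hp => ?_
  by_cases h : p ∈ S <;> by_cases h' : p ∈ S'
  · simp only [h, h', mem_inter, and_self, if_true, X]
    split_ifs <;> ring
  · simp only [h, h', mem_inter, and_false, if_true, if_false]; ring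
  · simp only [h, h', mem_inter, false_and, if_true, if_false]; ring
  · simp [h, h'] at hp

lemma model_mean (S S' : Finset ℕ) :
    ∏ p ∈ S ∪ S', ((if p ∈ S ∩ S' then 1 - 2 * hh p else -1) * hh p +
      (if p ∈ S ∩ S' then hh p ^ 2 else hh p)) =
      if S = S' then ∏ p ∈ S, hh p * (1 - hh p) else 0 := by
  split_ifs with h
  · subst h
    rw [union_self, inter_self]
    refine prod_congr rfl fun p hp => ?_
    simp only [hp, if_true]; ring
  · have : ∃ p ∈ S ∪ S', p ∉ S ∩ S' := by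
      by_contra hc
      push Not at hc
      refine h (Subset.antisymm (fun p hp => ?_) (fun p hp => ?_))
      · exact (mem_inter.1 (hc p (mem_union_left _ hp))).2
      · exact (mem_inter.1 (hc p (mem_union_right _ hp))).1
    obtain ⟨p, hp, hp'⟩ := this
    refine prod_eq_zero hp ?_
    simp only [hp', if_false]; ring

/-- the mean of the majorant in the model -/
noncomputable def mm (z r : ℕ) : ℝ := (∑ S ∈ J z r, ∏ p ∈ S, hh p * (1 - hh p)) / Js z r ^ 2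

lemma mm_nonneg (z r : ℕ) : 0 ≤ mm z r :=
  div_nonneg (sum_nonneg fun _ _ => prod_nonneg fun p _ =>
    mul_nonneg (hh_nonneg p) (sub_nonneg.2 (hh_le_one p))) (sq_nonneg _)

lemma mm_le {z : ℕ} (r : ℕ) (hz : 1 ≤ z) : mm z r ≤ 1 / Js z r := by
  have h := one_le_Js r hz
  have h1 : ∑ S ∈ J z r, ∏ p ∈ S, hh p * (1 - hh p) ≤ Js z r := by
    refine sum_le_sum fun S _ => prod_le_prod (fun p _ =>
      mul_nonneg (hh_nonneg p) (sub_nonneg.2 (hh_le_one p))) fun p _ => ?_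
    nlinarith [hh_nonneg p]
  rw [mm, div_le_div_iff₀ (by positivity) (by positivity)]
  nlinarith

lemma nu_sum {z : ℕ} (r : ℕ) (hz : 1 ≤ z) {ι : Type} (s : Finset ι) (n : ι → ℤ) (f : ι → ℂ)
    (m : ℂ) {R : ℝ} (hR0 : 0 ≤ R)
    (hR : ∀ d : ℕ, 0 < d → d ≤ z ^ 2 → d.Coprime r →
      ‖∑ a ∈ s.filter (fun a => (d : ℤ) ∣ n a), f a - m / d‖ ≤ R) :
    ‖∑ a ∈ s, (nu z r (n a) : ℂ) * f a - m * mm z r‖ ≤ (z : ℝ) ^ 4 * R := by
  have hJ := one_le_Js r hz
  have key : ∀ S ∈ J z r, ∀ S' ∈ J z r,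
      ‖∑ a ∈ s, ((phi S (n a) * phi S' (n a) : ℝ) : ℂ) * f a -
      m * ((if S = S' then ∏ p ∈ S, hh p * (1 - hh p) else 0 : ℝ) : ℂ)‖ ≤ (z : ℝ) ^ 2 * R := by
    intro S hS S' hS'
    obtain ⟨h1, h2⟩ := mem_J.1 hS
    obtain ⟨h1', h2'⟩ := mem_J.1 hS'
    have hW : ∀ p ∈ S ∪ S', IsP r p := fun p hp => (mem_union.1 hp).elim (h1 p) (h1' p)
    have hW' : ∀ p ∈ S ∪ S', p.Prime := fun p hp => (hW p hp).1
    have hN : ∏ p ∈ S ∪ S', p ≤ z ^ 2 := by
      have h3 := prod_union_inter (s₁ := S) (s₂ := S') (f := fun p : ℕ => p)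
      have h4 : 1 ≤ ∏ p ∈ S ∩ S', p :=
        Finset.one_le_prod' fun p hp => (h1 p (mem_inter.1 hp).1).1.pos
      calc _ ≤ (∏ p ∈ S ∪ S', p) * ∏ p ∈ S ∩ S', p := Nat.le_mul_of_pos_right _ h4
        _ ≤ z * z := by rw [h3]; exact Nat.mul_le_mul h2 h2'
        _ = z ^ 2 := (sq z).symm
    simp only [phi_mul, ← model_mean]
    refine (sum_prod_expand s n f m R (S ∪ S') hW' _ _ (fun p => ?_) (fun p => ?_)
      (fun T hT => hR _ (prod_pos' fun p hp => hW' p (hT hp)) ?_ ?_)).trans ?_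
    · have := hh_nonneg p
      have := hh_le_one p
      split_ifs
      · rw [abs_le]; constructor <;> linarith
      · simp
    · have := hh_nonneg p
      have := hh_le_one p
      split_ifs
      · rw [abs_le]; constructor <;> nlinarith
      · rw [abs_le]; constructor <;> linarith
    · exact (prod_mono hW' hT).trans hN
    · exact Nat.Coprime.prod_left fun p hp =>
        (Nat.Prime.coprime_iff_not_dvd (hW' p (hT hp))).2 (hW p (hT hp)).2
    · have : (2 : ℝ) ^ (S ∪ S').card ≤ (z : ℝ) ^ 2 := by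
        exact_mod_cast (two_pow_card_le hW').trans hN
      gcongr
  have h1 : ∑ a ∈ s, (nu z r (n a) : ℂ) * f a - m * mm z r =
      (∑ S ∈ J z r, ∑ S' ∈ J z r, (∑ a ∈ s, ((phi S (n a) * phi S' (n a) : ℝ) : ℂ) * f a -
        m * ((if S = S' then ∏ p ∈ S, hh p * (1 - hh p) else 0 : ℝ) : ℂ))) /
          ((Js z r ^ 2 : ℝ) : ℂ) := by
    simp only [sum_sub_distrib, sub_div]
    congr 1
    · have e : ∀ a, (nu z r (n a) : ℂ) * f a = (∑ S ∈ J z r, ∑ S' ∈ J z r,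
          ((phi S (n a) * phi S' (n a) : ℝ) : ℂ) * f a) / ((Js z r ^ 2 : ℝ) : ℂ) := fun a => by
        rw [nu, sq (∑ S ∈ J z r, phi S (n a)), sum_mul_sum, Complex.ofReal_div,
          div_mul_eq_mul_div]
        simp only [Complex.ofReal_sum, sum_mul]
      simp only [e]
      rw [← sum_div, sum_comm]
      congr 1
      exact sum_congr rfl fun S _ => sum_comm
    · simp only [← mul_sum, ← Complex.ofReal_sum, mm, Complex.ofReal_div, mul_div_assoc]
      congr 3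
      refine sum_congr rfl fun S hS => ?_
      rw [sum_ite_eq, if_pos hS]
  rw [h1, norm_div, Complex.norm_real, Real.norm_eq_abs, abs_of_nonneg (sq_nonneg _)]
  have hc : ((J z r).card : ℝ) ≤ z := by exact_mod_cast card_J_le z r
  have h2 : ‖∑ S ∈ J z r, ∑ S' ∈ J z r, (∑ a ∈ s, ((phi S (n a) * phi S' (n a) : ℝ) : ℂ) * f a -
        m * ((if S = S' then ∏ p ∈ S, hh p * (1 - hh p) else 0 : ℝ) : ℂ))‖ ≤
      (z : ℝ) ^ 4 * R := by
    refine (norm_sum_le _ _).trans ((sum_le_card_nsmul _ _ (z * ((z : ℝ) ^ 2 * R))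
      fun S hS => ?_).trans ?_)
    · refine (norm_sum_le _ _).trans ((sum_le_card_nsmul _ _ _ (key S hS)).trans ?_)
      rw [nsmul_eq_mul]
      gcongr
    · rw [nsmul_eq_mul]
      calc _ ≤ z * (z * ((z : ℝ) ^ 2 * R)) := by gcongr
        _ = _ := by ring
  exact le_trans (div_le_self (norm_nonneg _) (one_le_pow₀ hJ)) h2

/-! ### the totient ratio -/

lemma ratio_eq {n : ℕ} (hn : n ≠ 0) :
    (n : ℝ) / n.totient = ∏ p ∈ n.primeFactors, (1 - (p : ℝ)⁻¹)⁻¹ := by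
  have h := Nat.totient_eq_mul_prod_factors n
  have h' : (n.totient : ℝ) = n * ∏ p ∈ n.primeFactors, (1 - (p : ℝ)⁻¹) := by
    have := congrArg (fun x : ℚ => (x : ℝ)) h
    simpa using this
  have h0 : (n : ℝ) ≠ 0 := by exact_mod_cast hn
  rw [h', prod_inv_distrib, ← div_div, div_self h0, one_div]

lemma inv_one_sub {p : ℕ} (hp : p.Prime) : (1 - (p : ℝ)⁻¹)⁻¹ = p / (p - 1) := by
  have h : (2 : ℝ) ≤ p := by exact_mod_cast hp.two_le
  have h1 : (p : ℝ) - 1 ≠ 0 := by linarith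
  have h2 : (p : ℝ) ≠ 0 := by linarith
  field_simp

lemma sum_inv_sq_le (z : ℕ) : ∑ g ∈ Icc 1 z, ((g : ℝ) ^ 2)⁻¹ ≤ 2 := by
  have h := sum_Ioo_inv_sq_le (α := ℝ) 0 (z + 1)
  have e : Ioo 0 (z + 1) = Icc 1 z := by ext x; simp only [mem_Ioo, mem_Icc]; omega
  rw [e] at h
  simpa using h

lemma sum_inv_le {z r : ℕ} (hr : 0 < r) :
    ∑ a ∈ Icc 1 z, (a : ℝ)⁻¹ ≤ 2 * ((r : ℝ) / r.totient) * Js z r := by
  let F : ℕ × Finset ℕ × Finset ℕ → ℕ := fun q => q.1 ^ 2 * ((∏ p ∈ q.2.1, p) * ∏ p ∈ q.2.2, p)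
  have hsub : Icc 1 z ⊆ (Icc 1 z ×ˢ r.primeFactors.powerset ×ˢ J z r).image F := by
    intro a ha
    obtain ⟨h0, hz⟩ := mem_Icc.1 ha
    obtain ⟨b, g, hb, hg, rfl, hsq⟩ := Nat.sq_mul_squarefree_of_pos h0
    have hbp := Nat.prod_primeFactors_of_squarefree hsq
    have hsplit := prod_filter_mul_prod_filter_not b.primeFactors (fun p => p ∣ r) (fun p => p)
    refine mem_image.2 ⟨(g, b.primeFactors.filter (fun p => p ∣ r),
      b.primeFactors.filter (fun p => ¬ p ∣ r)), ?_, ?_⟩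
    · simp only [mem_product, mem_powerset]
      refine ⟨mem_Icc.2 ⟨hg, ?_⟩, fun p hp => ?_, mem_J.2 ⟨fun p hp => ?_, ?_⟩⟩
      · calc g ≤ g ^ 2 := Nat.le_self_pow (by norm_num) _
          _ ≤ _ := Nat.le_mul_of_pos_right _ hb
          _ ≤ z := hz
      · obtain ⟨h1, h2⟩ := mem_filter.1 hp
        exact Nat.mem_primeFactors.2 ⟨Nat.prime_of_mem_primeFactors h1, h2, hr.ne'⟩
      · obtain ⟨h1, h2⟩ := mem_filter.1 hp
        exact ⟨Nat.prime_of_mem_primeFactors h1, h2⟩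
      · calc _ ≤ ∏ p ∈ b.primeFactors, p :=
              prod_mono (fun p hp => Nat.prime_of_mem_primeFactors hp) (filter_subset _ _)
          _ = b := hbp
          _ ≤ g ^ 2 * b := Nat.le_mul_of_pos_left _ (by positivity)
          _ ≤ z := hz
    · simp only [F]
      rw [hsplit, hbp]
  refine (sum_le_sum_of_subset_of_nonneg hsub fun _ _ _ => by positivity).trans ?_
  refine (sum_image_le_of_nonneg fun _ _ => by positivity).trans ?_
  have h1 : ∑ q ∈ Icc 1 z ×ˢ r.primeFactors.powerset ×ˢ J z r, ((F q : ℕ) : ℝ)⁻¹ =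
      (∑ g ∈ Icc 1 z, ((g : ℝ) ^ 2)⁻¹) *
        ((∑ D ∈ r.primeFactors.powerset, ∏ p ∈ D, hh p) * Js z r) := by
    rw [Js, sum_mul_sum r.primeFactors.powerset, ← sum_product', sum_mul_sum, sum_product]
    refine sum_congr rfl fun g _ => sum_congr rfl fun q _ => ?_
    simp only [F, prod_hh]
    rw [Nat.cast_mul, Nat.cast_mul, Nat.cast_pow, mul_inv, mul_inv]
  rw [h1, ← prod_one_add]
  have h2 : ∏ p ∈ r.primeFactors, (1 + hh p) ≤ (r : ℝ) / r.totient := by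
    rw [ratio_eq hr.ne']
    refine prod_le_prod (fun p _ => by linarith [hh_nonneg p]) fun p hp => ?_
    have hp' := Nat.prime_of_mem_primeFactors hp
    have h : (2 : ℝ) ≤ p := by exact_mod_cast hp'.two_le
    rw [inv_one_sub hp', hh, le_div_iff₀ (by linarith)]
    have : (p : ℝ)⁻¹ * p = 1 := inv_mul_cancel₀ (by linarith)
    have h3 : 0 ≤ (p : ℝ)⁻¹ := by positivity
    nlinarith
  have h3 : 0 ≤ Js z r := sum_nonneg fun S _ => prod_nonneg fun p _ => hh_nonneg p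
  have h4 : 0 ≤ ∏ p ∈ r.primeFactors, (1 + hh p) :=
    prod_nonneg fun p _ => by linarith [hh_nonneg p]
  calc _ ≤ 2 * (((r : ℝ) / r.totient) * Js z r) := by
        have := sum_inv_sq_le z
        gcongr
    _ = _ := by ring

lemma log_le_Js {z r : ℕ} (hz : 1 ≤ z) (hr : 0 < r) :
    Real.log z ≤ 2 * ((r : ℝ) / r.totient) * Js z r := by
  refine le_trans ?_ (sum_inv_le hr)
  have := log_add_one_le_harmonic z
  rw [harmonic_eq_sum_Icc] at this
  push_cast at this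
  have h0 : (0 : ℝ) < z := by exact_mod_cast hz
  exact (Real.log_le_log h0 (by linarith)).trans this

theorem selberg_int : ∃ C : ℝ, 0 < C ∧ ∀ z r : ℕ, 2 ≤ z → 0 < r → ∃ (ν : ℤ → ℝ) (μ : ℝ),
    (∀ n, 0 ≤ ν n) ∧ (∀ n : ℤ, (∀ p : ℕ, p.Prime → p ≤ z → ¬ (p : ℤ) ∣ n) → ν n = 1) ∧
    0 ≤ μ ∧ μ ≤ C * ((r : ℝ) / r.totient) / Real.log z ∧
    ∀ (ι : Type) (s : Finset ι) (n : ι → ℤ) (f : ι → ℂ) (M : ℂ) (R : ℝ), 0 ≤ R →
      (∀ d : ℕ, 0 < d → d ≤ z ^ 2 → d.Coprime r →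
        ‖∑ i ∈ s.filter (fun i => (d : ℤ) ∣ n i), f i - M / d‖ ≤ R) →
      ‖∑ i ∈ s, (ν (n i) : ℂ) * f i - M * μ‖ ≤ (z : ℝ) ^ 6 * R := by
  refine ⟨2, two_pos, fun z r hz hr => ?_⟩
  have hz1 : 1 ≤ z := by omega
  have hz2 : (2 : ℝ) ≤ z := by exact_mod_cast hz
  refine ⟨nu z r, mm z r, nu_nonneg z r, fun n hn => nu_rough r hz1 hn, mm_nonneg z r, ?_,
    fun ι s n f M R hR0 hR => ?_⟩
  · refine (mm_le r hz1).trans ?_
    have h1 := one_le_Js r hz1
    have h2 : 0 < Real.log z := Real.log_pos (by linarith)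
    rw [div_le_div_iff₀ (by linarith) h2, one_mul]
    exact log_le_Js hz1 hr
  · refine (nu_sum r hz1 s n f M hR0 fun d h1 h2 h3 => ?_).trans ?_
    · convert hR d h1 h2 h3
    · have : (z : ℝ) ^ 4 ≤ (z : ℝ) ^ 6 := pow_le_pow_right₀ (by linarith) (by norm_num)
      gcongr

lemma periodic_sum {f : ℕ → ℝ} {d : ℕ} (hd : 0 < d) (hp : ∀ j, f (d + j) = f j)
    (h0 : ∀ j, 0 ≤ f j) (l : ℕ) :
    |∑ j ∈ range l, f j - l / d * ∑ j ∈ range d, f j| ≤ ∑ j ∈ range d, f j := by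
  have d0 : (0 : ℝ) < d := by exact_mod_cast hd
  have S0 : 0 ≤ ∑ j ∈ range d, f j := sum_nonneg fun j _ => h0 j
  induction l using Nat.strong_induction_on with
  | _ l ih =>
    rcases lt_or_ge l d with h | h
    · have a1 : ∑ j ∈ range l, f j ≤ ∑ j ∈ range d, f j :=
        sum_le_sum_of_subset_of_nonneg (range_mono h.le) fun j _ _ => h0 j
      have a2 : 0 ≤ ∑ j ∈ range l, f j := sum_nonneg fun j _ => h0 j
      have a3 : (l : ℝ) / d ≤ 1 := (div_le_one d0).2 (by exact_mod_cast h.le)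
      have a4 : (0 : ℝ) ≤ l / d := by positivity
      rw [abs_le]
      constructor <;> nlinarith
    · obtain ⟨k, rfl⟩ := Nat.exists_eq_add_of_le h
      have := ih k (by omega)
      rw [sum_range_add]
      simp only [hp]
      convert this using 2
      push_cast
      field_simp
      ring

lemma sum_range_zmod (d : ℕ) [NeZero d] (g : ZMod d → ℝ) :
    ∑ j ∈ range d, g j = ∑ x, g x := by
  refine sum_bij' (fun j _ => (j : ZMod d)) (fun x _ => x.val) (fun _ _ => mem_univ _)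
    (fun x _ => mem_range.2 (ZMod.val_lt x)) (fun j hj => ZMod.val_cast_of_lt (mem_range.1 hj))
    (fun x _ => ZMod.natCast_zmod_val x) fun _ _ => rfl

lemma ap_sum (d : ℕ) [NeZero d] (g : ZMod d → ℝ) (hg : ∀ x, 0 ≤ g x) (n r : ℤ)
    (hr : d.Coprime r.natAbs) (l : ℕ) :
    |∑ j ∈ range l, g ((n + j * r : ℤ) : ZMod d) - l / d * ∑ x, g x| ≤ ∑ x, g x := by
  have hu : IsUnit (r : ZMod d) := by
    rw [ZMod.coe_int_isUnit_iff_isCoprime, Int.isCoprime_iff_gcd_eq_one]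
    exact hr
  obtain ⟨u, hu⟩ := hu
  have e : ∑ j ∈ range d, g ((n + j * r : ℤ) : ZMod d) = ∑ x, g x := by
    have := sum_range_zmod d fun x => g (n + x * u)
    rw [← Equiv.sum_comp ((Units.mulRight u).trans (Equiv.addLeft (n : ZMod d))) g]
    refine Eq.trans ?_ this
    refine sum_congr rfl fun j _ => ?_
    rw [hu]
    push_cast
    rfl
  rw [← e]
  refine periodic_sum (f := fun j => g ((n + j * r : ℤ) : ZMod d)) (NeZero.pos d) (fun j => ?_)
    (fun j => hg _) l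
  congr 1
  push_cast
  simp

lemma count_dvd {d : ℕ} (hd : 0 < d) (n r : ℤ) (hr : d.Coprime r.natAbs) (l : ℕ) :
    |(((range l).filter fun j : ℕ => (d : ℤ) ∣ n + j * r).card : ℝ) - l / d| ≤ 1 := by
  have : NeZero d := ⟨hd.ne'⟩
  have := ap_sum d (fun x => if x = 0 then 1 else 0) (fun x => by split_ifs <;> norm_num) n r hr l
  simp only [ZMod.intCast_zmod_eq_zero_iff_dvd] at this
  simpa using this

end BTAux

end Pool.Agent.P.MP_a1177c_nt.EK
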