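import Pool.Agent.P.MP_a1177c_nt.EK.Defs

set_option autoImplicit false

namespace Pool.Agent.P.MP_a1177c_nt.EK

open Finset Filter
open scoped Classical

open MeasureTheory Set Topology in
theorem abel_continuous {k : ℝ → ℝ} (hk : Ker k) : Continuous (abel k) := by
  obtain ⟨hc, R, hR⟩ := hk
  rw [continuous_iff_continuousAt]
  intro u₀
  obtain ⟨C, hC⟩ := (isCompact_Icc (a := u₀ - 1) (b := R)).exists_bound_of_continuousOn
    hc.continuousOn
  set T : ℝ := |R - u₀| + 2 with hT
  refine continuousAt_of_dominated (bound := (Set.Icc (-T) T).indicator fun _ => max C 0)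
    ?_ ?_ ?_ ?_
  · exact Eventually.of_forall fun u =>
      (hc.comp (by fun_prop : Continuous fun ξ : ℝ => u + ξ ^ 2)).aestronglyMeasurable
  · filter_upwards [Ioi_mem_nhds (by linarith : u₀ - 1 < u₀)] with u hu
    refine Eventually.of_forall fun ξ => ?_
    have hu' : u₀ - 1 < u := hu
    by_cases h : R < u + ξ ^ 2
    · rw [hR _ h, norm_zero]
      exact Set.indicator_nonneg (fun _ _ => le_max_right _ _) _
    · have h' : u + ξ ^ 2 ≤ R := not_lt.1 h
      have h1 := le_abs_self (R - u₀)
      have h2 := abs_nonneg (R - u₀)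
      have hξ : ξ ∈ Set.Icc (-T) T := by
        constructor
        · by_contra h3
          have h4 : ξ < -T := not_le.1 h3
          nlinarith
        · by_contra h3
          have h4 : T < ξ := not_le.1 h3
          nlinarith
      rw [Set.indicator_of_mem hξ]
      exact (hC _ ⟨by nlinarith [sq_nonneg ξ], h'⟩).trans (le_max_left _ _)
  · exact (integrable_indicator_iff measurableSet_Icc).2
      (integrableOn_const (by simp [Real.volume_Icc]))
  · exact Eventually.of_forall fun ξ =>
      (hc.comp (by fun_prop : Continuous fun u : ℝ => u + ξ ^ 2)).continuousAt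

theorem abel_ker {k : ℝ → ℝ} (hk : Ker k) : Ker (abel k) := by
  refine ⟨abel_continuous hk, ?_⟩
  obtain ⟨-, R, hR⟩ := hk
  refine ⟨R, fun u hu => ?_⟩
  have : ∀ ξ : ℝ, k (u + ξ ^ 2) = 0 := fun ξ => hR _ (by nlinarith [sq_nonneg ξ])
  simp [abel, this]

open MeasureTheory Set Topology in
theorem abel_abel {G G' : ℝ → ℝ} (hd : ∀ v, HasDerivAt G (G' v) v) (hG : ∃ R, ∀ u, R < u → G u = 0)
    (hG' : Ker G') (v : ℝ) : abel (abel G') v = -(Real.pi * G v) := by
  obtain ⟨hc, R, hR⟩ := hG'
  obtain ⟨R', hR'⟩ := hG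
  set T : ℝ := |R - v| + 1 with hT
  have h1 := le_abs_self (R - v)
  have h2 := abs_nonneg (R - v)
  have hF : Integrable (fun p : ℝ × ℝ => G' (v + p.1 ^ 2 + p.2 ^ 2)) (volume.prod volume) := by
    refine Continuous.integrable_of_hasCompactSupport (hc.comp (by fun_prop)) ?_
    refine HasCompactSupport.intro (isCompact_closedBall (0 : ℝ × ℝ) T) fun p hp => hR _ ?_
    rw [mem_closedBall_zero_iff, Prod.norm_def, not_le, lt_max_iff, Real.norm_eq_abs,
      Real.norm_eq_abs] at hp
    rcases hp with hp | hp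
    · have := sq_abs p.1
      nlinarith [sq_nonneg p.2]
    · have := sq_abs p.2
      nlinarith [sq_nonneg p.1]
  have e1 : abel (abel G') v = ∫ p : ℝ × ℝ, G' (v + p.1 ^ 2 + p.2 ^ 2) := by
    rw [show (volume : Measure (ℝ × ℝ)) = volume.prod volume from rfl, integral_prod _ hF]
    rfl
  have e2 : (∫ p in polarCoord.target, p.1 • G' (v + (polarCoord.symm p).1 ^ 2 +
      (polarCoord.symm p).2 ^ 2)) =
      (∫ r in Set.Ioi (0 : ℝ), r * G' (v + r ^ 2)) * ∫ _ in Set.Ioo (-Real.pi) Real.pi, (1 : ℝ) := by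
    rw [← setIntegral_prod_mul]
    congr with p : 1
    simp only [polarCoord_symm_apply, smul_eq_mul, mul_one]
    congr 2
    have := Real.cos_sq_add_sin_sq p.2
    linear_combination p.1 ^ 2 * this
  have e3 : ∫ r in Set.Ioi (0 : ℝ), r * G' (v + r ^ 2) = 0 - G (v + 0 ^ 2) / 2 := by
    have hder : ∀ r : ℝ, HasDerivAt (fun r : ℝ => G (v + r ^ 2) / 2) (r * G' (v + r ^ 2)) r := by
      intro r
      have h3 : HasDerivAt (fun r : ℝ => v + r ^ 2) (2 * r) r := by
        simpa using (hasDerivAt_pow 2 r).const_add v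
      have h4 := ((hd (v + r ^ 2)).comp r h3).div_const 2
      rw [show G' (v + r ^ 2) * (2 * r) / 2 = r * G' (v + r ^ 2) by ring] at h4
      exact h4
    refine integral_Ioi_of_hasDerivAt_of_tendsto (f := fun r : ℝ => G (v + r ^ 2) / 2)
      (hder 0).continuousAt.continuousWithinAt (fun r _ => hder r) ?_ ?_
    · refine Integrable.integrableOn ?_
      refine Continuous.integrable_of_hasCompactSupport
        (continuous_id.mul (hc.comp (by fun_prop))) ?_
      refine HasCompactSupport.intro (isCompact_closedBall (0 : ℝ) T) fun r hr => ?_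
      rw [mem_closedBall_zero_iff, not_le, Real.norm_eq_abs] at hr
      have := sq_abs r
      rw [hR _ (by nlinarith), mul_zero]
    · refine tendsto_const_nhds.congr' ?_
      filter_upwards [eventually_gt_atTop (|R' - v| + 1)] with r hr
      have h4 := le_abs_self (R' - v)
      have h5 := abs_nonneg (R' - v)
      rw [hR' _ (by nlinarith), zero_div]
  rw [e1, ← integral_comp_polarCoord_symm, e2, e3]
  have hpi := Real.pi_pos
  simp only [integral_const, MeasurableSet.univ, measureReal_restrict_apply, Set.univ_inter,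
    Real.volume_real_Ioo, smul_eq_mul, mul_one]
  rw [max_eq_left (by linarith)]
  ring_nf

theorem abel_inj {k : ℝ → ℝ} (hk : Ker k) (h : ∀ v, 1 ≤ v → abel k v = 0) :
    ∀ u, 1 ≤ u → k u = 0 := by
  obtain ⟨R, hR⟩ := hk.2
  have hd : ∀ v, HasDerivAt (fun u => ∫ t in R..u, k t) (k v) v := fun v =>
    (hk.1.integral_hasStrictDerivAt R v).hasDerivAt
  have hz : ∃ R', ∀ u, R' < u → ∫ t in R..u, k t = 0 := by
    refine ⟨R, fun u hu => ?_⟩
    rw [intervalIntegral.integral_of_le hu.le]
    exact MeasureTheory.setIntegral_eq_zero_of_forall_eq_zero fun t ht => hR t ht.1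
  have h0 : ∀ u, 1 ≤ u → ∫ t in R..u, k t = 0 := by
    intro u hu
    have h1 := abel_abel hd hz hk u
    have h2 : abel (abel k) u = 0 := by
      have : ∀ ξ : ℝ, abel k (u + ξ ^ 2) = 0 := fun ξ => h _ (by nlinarith [sq_nonneg ξ])
      rw [abel]
      simp [this]
    rw [h2] at h1
    have hpi := Real.pi_pos
    have h3 : Real.pi * ∫ t in R..u, k t = 0 := by linarith
    exact (mul_eq_zero.1 h3).resolve_left hpi.ne'
  intro u hu
  have h1 : HasDerivWithinAt (fun u => ∫ t in R..u, k t) 0 (Set.Ici u) u :=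
    (hasDerivWithinAt_const u (Set.Ici u) (0 : ℝ)).congr
      (fun y hy => h0 y (hu.trans hy)) (h0 u hu)
  exact (uniqueDiffWithinAt_Ici u).eq_deriv _ (hd u).hasDerivWithinAt h1

theorem abel_inv {G G' : ℝ → ℝ} (hd : ∀ v, HasDerivAt G (G' v) v) (hG : Ker G) (hG' : Ker G') :
    Ker (fun u => -(1 / Real.pi) * abel G' u) ∧
      ∀ v, abel (fun u => -(1 / Real.pi) * abel G' u) v = G v := by
  obtain ⟨hc, R, hR⟩ := abel_ker hG'
  refine ⟨⟨continuous_const.mul hc, R, fun u hu => by simp [hR u hu]⟩, fun v => ?_⟩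
  have h1 := abel_abel hd hG.2 hG' v
  have h2 : abel (fun u => -(1 / Real.pi) * abel G' u) v =
      -(1 / Real.pi) * abel (abel G') v := by
    rw [abel, MeasureTheory.integral_const_mul]
    rfl
  have hpi := Real.pi_pos.ne'
  rw [h2, h1]
  field_simp

end Pool.Agent.P.MP_a1177c_nt.EK
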