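import Pool.Agent.P.MP_a1177c_nt.EK.Defs
import Pool.Agent.P.MP_a1177c_nt.EK.BTAux

set_option autoImplicit false

namespace Pool.Agent.P.MP_a1177c_nt.EK

open Finset Filter
open scoped Classical

namespace BTAux

lemma exists_level {P : ℕ} (hP : 2 ^ 32 ≤ P) : ∃ z : ℕ, 2 ≤ z ∧ z ≤ P ∧
    Real.log (2 * P) ≤ 65 * Real.log z ∧ (z : ℝ) ^ 16 ≤ √P := by
  obtain ⟨z, z1, z2⟩ : ∃ z : ℕ, z ^ 32 ≤ P ∧ P < (z + 1) ^ 32 :=
    ⟨Nat.nthRoot 32 P, Nat.pow_nthRoot_le (Or.inl (by norm_num)),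
      Nat.lt_pow_nthRoot_add_one (by norm_num) P⟩
  have z3 : 2 ≤ z := by
    have := lt_of_pow_lt_pow_left₀ 32 (Nat.zero_le _) (hP.trans_lt z2)
    omega
  have b1 : z ≤ P := (Nat.le_self_pow (by norm_num) z).trans z1
  clear hP
  have z5 : z + 1 ≤ z ^ 2 := by
    clear z1 z2
    nlinarith
  have z4 : 2 * P ≤ z ^ 65 := by
    calc 2 * P ≤ z * (z + 1) ^ 32 := Nat.mul_le_mul z3 z2.le
      _ ≤ z * (z ^ 2) ^ 32 := Nat.mul_le_mul_left _ (Nat.pow_le_pow_left z5 _)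
      _ = z ^ 65 := by ring
  refine ⟨z, z3, b1, ?_, Real.le_sqrt_of_sq_le ?_⟩
  · have P0 : (0 : ℝ) < P := Nat.cast_pos.2 (lt_of_lt_of_le two_pos (z3.trans b1))
    have : Real.log (2 * P) ≤ Real.log ((z : ℝ) ^ 65) :=
      Real.log_le_log (mul_pos two_pos P0) (by exact_mod_cast z4)
    rwa [Real.log_pow] at this
  · rw [← pow_mul]
    exact_mod_cast z1

/-- The members of a progression below `M` are parametrised by `j < M / k + 1`. -/
lemma card_le_sum (M k r : ℕ) (Q : ℕ → Prop) (g : ℤ → ℝ) (g0 : ∀ n, 0 ≤ g n)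
    (g1 : ∀ p : ℕ, Q p → 1 ≤ g p) :
    (#{p ∈ range (M + 1) | Q p ∧ p ≡ r [MOD k]} : ℝ) ≤
      ∑ j ∈ range (M / k + 1), g (((r % k : ℕ) : ℤ) + j * (k : ℤ)) := by
  set S := {p ∈ range (M + 1) | Q p ∧ p ≡ r [MOD k]} with hS
  have key : ∀ p ∈ S, r % k + p / k * k = p := by
    intro p hp
    have h := (mem_filter.1 hp).2.2
    unfold Nat.ModEq at h
    rw [← h]
    exact Nat.mod_add_div' p k
  have inj : Set.InjOn (fun p => p / k) (S : Set ℕ) := by
    intro p hp q hq e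
    have h1 := key p hp
    have h2 := key q hq
    simp only at e
    rw [← h1, ← h2, e]
  calc (#S : ℝ) = ∑ p ∈ S, (1 : ℝ) := by simp
    _ ≤ ∑ p ∈ S, g (((r % k : ℕ) : ℤ) + ((p / k : ℕ) : ℤ) * (k : ℤ)) := by
        refine sum_le_sum fun p hp => ?_
        have e : ((r % k : ℕ) : ℤ) + ((p / k : ℕ) : ℤ) * (k : ℤ) = (p : ℤ) := by
          exact_mod_cast key p hp
        rw [e]
        exact g1 p (mem_filter.1 hp).2.1
    _ = ∑ j ∈ S.image (fun p => p / k), g (((r % k : ℕ) : ℤ) + j * (k : ℤ)) :=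
        (sum_image (f := fun j : ℕ => g (((r % k : ℕ) : ℤ) + j * (k : ℤ))) inj).symm
    _ ≤ _ := by
        refine sum_le_sum_of_subset_of_nonneg (fun j hj => ?_) fun j _ _ => g0 _
        obtain ⟨p, hp, rfl⟩ := mem_image.1 hj
        have h := mem_range.1 (mem_filter.1 hp).1
        exact mem_range.2 (Nat.lt_succ_of_le (Nat.div_le_div_right (by omega)))

end BTAux

open BTAux in
theorem brun_titchmarsh : ∃ C : ℝ, ∀ N : ℝ, 2 ≤ N → ∀ k r : ℕ, 0 < k → (k : ℝ) ^ 2 ≤ N →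
    (#{p ∈ range (⌊2 * N⌋₊ + 1) | Nat.Prime p ∧ N < ((p : ℕ) : ℝ) ∧ p ≡ r [MOD k]} : ℝ) ≤
      C * N / (k.totient * Real.log N) := by
  obtain ⟨C, C0, hC⟩ := selberg_int
  refine ⟨65 * (3 * C + 2), fun N hN k r hk hkN => ?_⟩
  have k1 : (1 : ℝ) ≤ k := by exact_mod_cast hk
  have N0 : 0 < N := by linarith
  have lN : 0 < Real.log N := Real.log_pos (by linarith)
  have f0 : (0 : ℝ) < k.totient := by exact_mod_cast Nat.totient_pos.2 hk
  have fk : (k.totient : ℝ) ≤ k := by exact_mod_cast Nat.totient_le k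
  have kN : (k : ℝ) ≤ N := by nlinarith
  have eS : {p ∈ range (⌊2 * N⌋₊ + 1) | Nat.Prime p ∧ N < ((p : ℕ) : ℝ) ∧ p ≡ r [MOD k]} =
      {p ∈ range (⌊2 * N⌋₊ + 1) | (Nat.Prime p ∧ N < ((p : ℕ) : ℝ)) ∧ p ≡ r [MOD k]} := by
    refine filter_congr fun p _ => and_assoc.symm
  rw [eS]
  set l := ⌊2 * N⌋₊ / k + 1 with hl
  have l3 : (l : ℝ) * k ≤ 3 * N := by
    have h1 : ((⌊2 * N⌋₊ / k : ℕ) : ℝ) * k ≤ 2 * N := by
      have : ((⌊2 * N⌋₊ / k * k : ℕ) : ℝ) ≤ (⌊2 * N⌋₊ : ℝ) := by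
        exact_mod_cast Nat.div_mul_le_self _ _
      push_cast at this
      exact this.trans (Nat.floor_le (by linarith))
    rw [hl]
    push_cast
    linarith
  have l0 : (0 : ℝ) ≤ l := by positivity
  rw [le_div_iff₀ (by positivity)]
  rcases lt_or_ge ⌊N⌋₊ (2 ^ 32) with hP | hP
  · have h := card_le_sum ⌊2 * N⌋₊ k r (fun p => Nat.Prime p ∧ N < ((p : ℕ) : ℝ))
      (fun _ => 1) (fun _ => zero_le_one) (fun _ _ => le_rfl)
    rw [sum_const, card_range, nsmul_eq_mul, mul_one] at h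
    have h1 : N ≤ 2 ^ 32 := by
      have := Nat.lt_floor_add_one N
      have h2 : ((⌊N⌋₊ + 1 : ℕ) : ℝ) ≤ ((2 ^ 32 : ℕ) : ℝ) := by exact_mod_cast hP
      push_cast at h2
      linarith
    have h2 : Real.log N ≤ 32 := by
      have := Real.log_le_log N0 h1
      rw [Real.log_pow] at this
      have h3 := Real.log_le_sub_one_of_pos (show (0 : ℝ) < 2 by norm_num)
      push_cast at this
      linarith
    refine le_trans (mul_le_mul (le_of_eq_of_le (by congr) h)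
      (mul_le_mul fk h2 lN.le (by linarith)) (by positivity) l0) ?_
    nlinarith
  · obtain ⟨z, z3, b1, l1, l2⟩ := exists_level hP
    have P1 : (1 : ℝ) ≤ ⌊N⌋₊ := by
      have : 1 ≤ ⌊N⌋₊ := by omega
      exact_mod_cast this
    clear hP
    have PN : (⌊N⌋₊ : ℝ) ≤ N := Nat.floor_le N0.le
    have zr : (2 : ℝ) ≤ z := by exact_mod_cast z3
    have lz : 0 < Real.log z := Real.log_pos (by linarith)
    have lNz : Real.log N ≤ 65 * Real.log z := by
      refine le_trans (Real.log_le_log N0 ?_) l1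
      have := Nat.lt_floor_add_one N
      linarith
    obtain ⟨ν, μ, n0, n1, m0, m1, hν⟩ := hC z k z3 hk
    have a1 := hν ℕ (range l) (fun j => ((r % k : ℕ) : ℤ) + j * (k : ℤ)) (fun _ => 1) l 1
      zero_le_one fun d d0 _ dr => by
        have := count_dvd d0 ((r % k : ℕ) : ℤ) (k : ℤ) (by simpa using dr) l
        rw [← Real.norm_eq_abs, ← Complex.norm_real] at this
        simpa using this
    have a2 : ∑ j ∈ range l, ν (((r % k : ℕ) : ℤ) + j * (k : ℤ)) ≤ l * μ + z ^ 6 := by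
      have e : (∑ j ∈ range l, (ν (((r % k : ℕ) : ℤ) + j * (k : ℤ)) : ℂ) * 1 - (l : ℂ) * μ) =
          ((∑ j ∈ range l, ν (((r % k : ℕ) : ℤ) + j * (k : ℤ)) - l * μ : ℝ) : ℂ) := by
        push_cast; simp
      rw [e, Complex.norm_real, Real.norm_eq_abs, mul_one] at a1
      linarith [(abs_le.1 a1).2]
    have h := card_le_sum ⌊2 * N⌋₊ k r (fun p => Nat.Prime p ∧ N < ((p : ℕ) : ℝ)) ν n0
      fun p hp => by
        rw [n1]
        intro q hq qz hd
        have e := (Nat.prime_dvd_prime_iff_eq hq hp.1).1 (Int.natCast_dvd_natCast.1 hd)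
        have b2 : (⌊N⌋₊ : ℝ) < p := PN.trans_lt hp.2
        have b3 : ⌊N⌋₊ < p := by exact_mod_cast b2
        omega
    have a4 : μ * (k.totient * Real.log z) ≤ C * k := by
      rw [le_div_iff₀ lz, ← mul_div_assoc, le_div_iff₀ f0] at m1
      linarith
    have a5 : (z : ℝ) ^ 6 * (k.totient * Real.log z) ≤ N := by
      have h1 := Real.log_le_sub_one_of_pos (show (0 : ℝ) < z by linarith)
      have h2 : (z : ℝ) ^ 6 * Real.log z ≤ √N := by
        refine le_trans ?_ (l2.trans (Real.sqrt_le_sqrt PN))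
        calc (z : ℝ) ^ 6 * Real.log z ≤ (z : ℝ) ^ 6 * z := by gcongr; linarith
          _ = (z : ℝ) ^ 7 := by ring
          _ ≤ (z : ℝ) ^ 16 := pow_le_pow_right₀ (by linarith) (by norm_num)
      have h3 : (k.totient : ℝ) ≤ √N := fk.trans (Real.le_sqrt_of_sq_le hkN)
      calc (z : ℝ) ^ 6 * (k.totient * Real.log z) = k.totient * ((z : ℝ) ^ 6 * Real.log z) := by
            ring
        _ ≤ √N * √N := by gcongr
        _ = N := Real.mul_self_sqrt N0.le
    have a6 : l * (μ * (k.totient * Real.log z)) ≤ C * (3 * N) := by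
      calc l * (μ * (k.totient * Real.log z)) ≤ l * (C * k) := by gcongr
        _ = C * (l * k) := by ring
        _ ≤ C * (3 * N) := by gcongr
    have a7 : (k.totient : ℝ) * Real.log N ≤ 65 * (k.totient * Real.log z) := by nlinarith
    refine le_trans (mul_le_mul (le_of_eq_of_le (by congr) (h.trans a2)) a7 (by positivity)
      (by positivity)) ?_
    nlinarith

end Pool.Agent.P.MP_a1177c_nt.EK
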