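import Pool.Agent.P.MP_a1177c_nt.EK.Defs

set_option autoImplicit false

namespace Pool.Agent.P.MP_a1177c_nt.EK

open Finset Filter
open scoped Classical

/-! ### Summing along an injection -/

theorem Count_finite {α β : Type} (S : Set α) (T : Finset β) (φ : α → β)
    (hmap : ∀ a ∈ S, φ a ∈ T) (hinj : ∀ a ∈ S, ∀ b ∈ S, φ a = φ b → a = b) :
    S.Finite ∧ S.ncard ≤ #T := by
  have hfin : S.Finite :=
    Set.Finite.of_injOn (t := (T : Set β)) (fun a ha => hmap a ha) hinj T.finite_toSet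
  refine ⟨hfin, ?_⟩
  have := Set.ncard_le_ncard_of_injOn φ (t := (T : Set β)) (fun a ha => hmap a ha) hinj
    T.finite_toSet
  simpa using this

theorem Count_tsum_le {α β : Type} (f : α → ℝ) (T : Finset β) (φ : α → β) (g : β → ℝ)
    (hg : ∀ t, 0 ≤ g t) (hmap : ∀ a, f a ≠ 0 → φ a ∈ T ∧ f a ≤ g (φ a))
    (hinj : ∀ a b, f a ≠ 0 → f b ≠ 0 → φ a = φ b → a = b) :
    ∑' a, f a ≤ ∑ t ∈ T, g t := by
  have hfin : (Function.support f).Finite :=
    (Count_finite (Function.support f) T φ (fun a ha => (hmap a ha).1)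
      (fun a ha b hb => hinj a b ha hb)).1
  rw [tsum_eq_sum (s := hfin.toFinset) (fun a ha => by simpa using ha)]
  calc ∑ a ∈ hfin.toFinset, f a ≤ ∑ a ∈ hfin.toFinset, g (φ a) :=
        sum_le_sum fun a ha => (hmap a (by simpa using ha)).2
    _ = ∑ t ∈ hfin.toFinset.image φ, g t := by
        rw [sum_image]
        intro a ha b hb h
        exact hinj a b (by simpa using ha) (by simpa using hb) h
    _ ≤ ∑ t ∈ T, g t := by
        refine sum_le_sum_of_subset_of_nonneg ?_ fun t _ _ => hg t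
        intro t ht
        obtain ⟨a, ha, rfl⟩ := mem_image.1 ht
        exact (hmap a (by simpa using ha)).1

/-! ### Matrices -/

theorem Count_det (h : SL) : h 0 0 * h 1 1 - h 0 1 * h 1 0 = 1 := by
  have := h.det_coe
  rwa [Matrix.det_fin_two] at this

theorem Count_ext {g h : SL} (h1 : g 0 0 = h 0 0) (h2 : g 0 1 = h 0 1) (h3 : g 1 0 = h 1 0)
    (h4 : g 1 1 = h 1 1) : g = h := by
  ext i j
  fin_cases i <;> fin_cases j <;> assumption

theorem Count_key {a c b d b' d' e : ℤ} (he : e * e = 1) (h1 : a * d - b * c = e)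
    (h2 : a * d' - b' * c = e) (ha : a ≠ 0) (hk : b / |a| = b' / |a|) : b = b' ∧ d = d' := by
  have hd : a ∣ b - b' := ⟨e * (d * (b - b') - b * (d - d')), by
    linear_combination (-(b - b')) * e * h1 + e * b * (h1 - h2) - (b - b') * he⟩
  have hm : b % |a| = b' % |a| := by
    rw [Int.emod_eq_emod_iff_emod_sub_eq_zero]
    exact Int.emod_eq_zero_of_dvd ((abs_dvd _ _).2 hd)
  have hb : b = b' := by
    rw [← Int.mul_ediv_add_emod b |a|, ← Int.mul_ediv_add_emod b' |a|, hk, hm]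
  refine ⟨hb, ?_⟩
  subst hb
  exact mul_left_cancel₀ ha (by linarith)

/-- The code of `(a, c, b)` when `|c| ≤ |a|`. -/
def Count_code (a c b : ℤ) : ℤ × ℤ := (a, b / |a| * (2 * |a| + 1) + (c + |a|))

theorem Count_code_inj {a c b d a' c' b' d' e : ℤ} (he : e * e = 1) (h1 : a * d - b * c = e)
    (h2 : a' * d' - b' * c' = e) (hc : |c| ≤ |a|) (hc' : |c'| ≤ |a'|)
    (h : Count_code a c b = Count_code a' c' b') : a = a' ∧ b = b' ∧ c = c' ∧ d = d' := by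
  obtain ⟨rfl, h⟩ := Prod.mk.inj h
  have ha : a ≠ 0 := by
    rintro rfl
    have : c = 0 := by simpa using hc
    simp [this] at h1
    simp [← h1] at he
  obtain ⟨l1, l2⟩ := abs_le.1 hc
  obtain ⟨l3, l4⟩ := abs_le.1 hc'
  have hm : 0 ≤ |a| := abs_nonneg a
  have hk : b / |a| = b' / |a| := by
    rcases lt_trichotomy (b / |a|) (b' / |a|) with hlt | heq | hlt
    · nlinarith
    · exact heq
    · nlinarith
  have hcc : c = c' := by rw [hk] at h; linarith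
  subst hcc
  obtain ⟨e1, e2⟩ := Count_key he h1 h2 ha hk
  exact ⟨rfl, e1, rfl, e2⟩

theorem Count_code_mem {a c b p q : ℤ} (ha : a ≠ 0) (hc : |c| ≤ |a|) (hp : |a| ≤ p)
    (hq : |b| ≤ q) :
    Count_code a c b ∈ Icc (-p) p ×ˢ Icc (-(3 * q + 5 * p)) (3 * q + 5 * p) := by
  have hm : 0 < |a| := abs_pos.2 ha
  obtain ⟨l1, l2⟩ := abs_le.1 hc
  obtain ⟨l3, l4⟩ := abs_le.1 hq
  have e := Int.mul_ediv_add_emod b |a|
  have e1 := Int.emod_nonneg b hm.ne'
  have e2 := Int.emod_lt_of_pos b hm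
  simp only [Count_code, mem_product, mem_Icc]
  refine ⟨abs_le.1 hp, ?_, ?_⟩
  · rcases le_total 0 (b / |a|) with hk | hk <;> nlinarith
  · rcases le_total 0 (b / |a|) with hk | hk <;> nlinarith

theorem Count_abs_le {x y : ℤ} {P : ℝ} (h : (x : ℝ) ^ 2 + (y : ℝ) ^ 2 ≤ P) :
    |x| ≤ (⌊√P⌋₊ : ℤ) ∧ |y| ≤ (⌊√P⌋₊ : ℤ) := by
  have key : ∀ z : ℤ, (z : ℝ) ^ 2 ≤ P → |z| ≤ (⌊√P⌋₊ : ℤ) := by
    intro z hz
    have h1 : ((z.natAbs : ℕ) : ℝ) ≤ √P := by
      rw [Nat.cast_natAbs, Int.cast_abs]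
      exact Real.abs_le_sqrt hz
    have := Nat.le_floor h1
    rw [Int.abs_eq_natAbs]
    exact_mod_cast this
  exact ⟨key x (by nlinarith [sq_nonneg (y : ℝ)]), key y (by nlinarith [sq_nonneg (x : ℝ)])⟩

theorem count_box : ∃ C : ℝ, ∀ P Q : ℝ, 1 ≤ P → 1 ≤ Q →
    {h : SL | qA h ≤ P ∧ qC h ≤ Q}.Finite ∧
      (({h : SL | qA h ≤ P ∧ qC h ≤ Q}.ncard : ℕ) : ℝ) ≤ C * (P + √(P * Q)) := by
  refine ⟨66, fun P Q hP hQ => ?_⟩
  set p : ℤ := (⌊√P⌋₊ : ℤ) with hp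
  set q : ℤ := (⌊√Q⌋₊ : ℤ) with hq
  have := Count_finite {h : SL | qA h ≤ P ∧ qC h ≤ Q}
    ((univ : Finset Bool) ×ˢ (Icc (-p) p ×ˢ Icc (-(3 * q + 5 * p)) (3 * q + 5 * p)))
    (fun h => if |h 1 0| ≤ |h 0 0| then (true, Count_code (h 0 0) (h 1 0) (h 0 1))
      else (false, Count_code (h 1 0) (h 0 0) (h 1 1))) ?_ ?_
  · refine ⟨this.1, ?_⟩
    have h2 := this.2
    have hp0 : 0 ≤ p := by positivity
    have hq0 : 0 ≤ q := by positivity
    have h3 : (({h : SL | qA h ≤ P ∧ qC h ≤ Q}.ncard : ℕ) : ℤ) ≤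
        2 * ((2 * p + 1) * (6 * q + 10 * p + 1)) := by
      refine (Int.ofNat_le.2 h2).trans (le_of_eq ?_)
      simp only [card_product, card_univ, Fintype.card_bool, Int.card_Icc]
      push_cast
      rw [Int.toNat_of_nonneg (by omega), Int.toNat_of_nonneg (by omega)]
      ring
    have h4 : (({h : SL | qA h ≤ P ∧ qC h ≤ Q}.ncard : ℕ) : ℝ) ≤
        2 * ((2 * (p : ℝ) + 1) * (6 * q + 10 * p + 1)) := by exact_mod_cast h3
    have hpP : (p : ℝ) ≤ √P := by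
      rw [hp]; push_cast; exact Nat.floor_le (Real.sqrt_nonneg _)
    have hqQ : (q : ℝ) ≤ √Q := by
      rw [hq]; push_cast; exact Nat.floor_le (Real.sqrt_nonneg _)
    have h1P : 1 ≤ √P := Real.one_le_sqrt.2 hP
    have h1Q : 1 ≤ √Q := Real.one_le_sqrt.2 hQ
    have hPP : √P * √P = P := Real.mul_self_sqrt (by linarith)
    have hp0' : (0 : ℝ) ≤ p := by exact_mod_cast hp0
    have hq0' : (0 : ℝ) ≤ q := by exact_mod_cast hq0
    rw [Real.sqrt_mul (by linarith)]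
    have h5 : (2 * (p : ℝ) + 1) * (6 * q + 10 * p + 1) ≤ (3 * √P) * (6 * √Q + 11 * √P) :=
      mul_le_mul (by linarith) (by linarith) (by positivity) (by positivity)
    nlinarith [mul_nonneg (Real.sqrt_nonneg P) (Real.sqrt_nonneg Q)]
  · rintro h ⟨h1, h2⟩
    obtain ⟨a1, a2⟩ := Count_abs_le h1
    obtain ⟨a3, a4⟩ := Count_abs_le h2
    have hd := Count_det h
    split_ifs with hc
    · refine mem_product.2 ⟨mem_univ _, Count_code_mem ?_ hc a1 a3⟩
      intro h0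
      have : h 1 0 = 0 := by simpa [h0] using hc
      simp [this, h0] at hd
    · refine mem_product.2 ⟨mem_univ _, Count_code_mem ?_ (not_le.1 hc).le a2 a4⟩
      intro h0
      simp [h0] at hc
  · intro g _ h _ e
    have hg := Count_det g
    have hh := Count_det h
    split_ifs at e with c1 c2 c2
    · obtain ⟨e1, e2, e3, e4⟩ := Count_code_inj (by norm_num) hg hh c1 c2 (Prod.mk.inj e).2
      exact Count_ext e1 e2 e3 e4
    · simp at e
    · simp at e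
    · obtain ⟨e1, e2, e3, e4⟩ := Count_code_inj (e := -1) (d := g 0 1) (d' := h 0 1)
        (by norm_num) (by linarith) (by linarith) (not_le.1 c1).le (not_le.1 c2).le
        (Prod.mk.inj e).2
      exact Count_ext e3 e4 e1 e2

/-! ### The weight -/

theorem Count_one_le_uy {y : ℝ} (hy : 0 < y) (γ : SL) : 1 ≤ uy y γ := by
  have hd : (γ 0 0 : ℝ) * γ 1 1 - γ 0 1 * γ 1 0 = 1 := by exact_mod_cast Count_det γ
  have e : (γ 0 1 : ℝ) ^ 2 / y ^ 2 + (γ 1 0 : ℝ) ^ 2 * y ^ 2 + 2 * (γ 0 1 * γ 1 0) =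
      (γ 0 1 / y + γ 1 0 * y) ^ 2 := by
    field_simp
    ring
  unfold uy
  nlinarith [sq_nonneg ((γ 0 0 : ℝ) - γ 1 1), sq_nonneg ((γ 0 1 : ℝ) / y + γ 1 0 * y)]

theorem Count_wt_nonneg (y Y : ℝ) (γ : SL) : 0 ≤ wt y Y γ := by
  unfold wt
  split_ifs <;> positivity

theorem Count_wt_le_one {y : ℝ} (hy : 0 < y) (Y : ℝ) (γ : SL) : wt y Y γ ≤ 1 := by
  unfold wt
  split_ifs
  · exact (div_le_one (Real.sqrt_pos.2 (by linarith [Count_one_le_uy hy γ]))).2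
      (Real.one_le_sqrt.2 (Count_one_le_uy hy γ))
  · norm_num

theorem Count_wt_ne {y Y : ℝ} {γ : SL} (h : wt y Y γ ≠ 0) : uy y γ ≤ Y := by
  by_contra hc
  exact h (if_neg hc)

theorem Count_uy_bound {y T : ℝ} (hy : 0 < y) {γ : SL} (h : uy y γ ≤ T) :
    (γ 0 0 : ℝ) ^ 2 ≤ 2 * T ∧ (γ 1 1 : ℝ) ^ 2 ≤ 2 * T ∧ (γ 0 1 : ℝ) ^ 2 ≤ 2 * T * y ^ 2 ∧
      (γ 1 0 : ℝ) ^ 2 * y ^ 2 ≤ 2 * T := by
  unfold uy at h
  have h1 := sq_nonneg (γ 0 0 : ℝ)
  have h2 := sq_nonneg (γ 1 1 : ℝ)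
  have h3 : 0 ≤ (γ 0 1 : ℝ) ^ 2 / y ^ 2 := by positivity
  have h4 : 0 ≤ (γ 1 0 : ℝ) ^ 2 * y ^ 2 := by positivity
  refine ⟨by linarith, by linarith, ?_, by linarith⟩
  rw [← div_le_iff₀ (by positivity)]
  linarith

theorem wt_finite {y : ℝ} (hy : 0 < y) (Y : ℝ) : (Function.support (wt y Y)).Finite := by
  obtain ⟨C, hC⟩ := count_box
  refine (hC (max 1 (2 * Y + 2 * Y / y ^ 2)) (max 1 (2 * Y * y ^ 2 + 2 * Y)) (le_max_left _ _)
    (le_max_left _ _)).1.subset fun γ hγ => ?_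
  obtain ⟨h1, h2, h3, h4⟩ := Count_uy_bound hy (Count_wt_ne hγ)
  rw [← le_div_iff₀ (by positivity)] at h4
  exact ⟨le_max_of_le_right (by unfold qA; linarith), le_max_of_le_right (by unfold qC; linarith)⟩

theorem Count_dyadic {α : Type} (S : Finset α) (u : α → ℝ) (B : ℝ) (hu : ∀ a ∈ S, 1 ≤ u a)
    (hB : ∀ T, 1 ≤ T → (#{a ∈ S | u a ≤ T} : ℝ) ≤ B * T) (K : ℕ) :
    ∑ a ∈ S with u a ≤ 4 ^ K, 1 / √(u a) ≤ 4 * B * 2 ^ K := by
  have hB0 : 0 ≤ B := by
    have := hB 1 le_rfl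
    have h0 : (0 : ℝ) ≤ #{a ∈ S | u a ≤ 1} := by positivity
    linarith
  induction K with
  | zero =>
    have h1 : ∑ a ∈ S with u a ≤ 4 ^ 0, 1 / √(u a) ≤ #{a ∈ S | u a ≤ 4 ^ 0} • (1 : ℝ) := by
      refine sum_le_card_nsmul _ _ _ fun a ha => ?_
      have := hu a (mem_filter.1 ha).1
      exact (div_le_one (Real.sqrt_pos.2 (by linarith))).2 (Real.one_le_sqrt.2 this)
    have h2 := hB (4 ^ 0) (by norm_num)
    simp only [nsmul_eq_mul, pow_zero, mul_one] at *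
    linarith
  | succ K ih =>
    rw [← sum_filter_add_sum_filter_not _ (fun a => u a ≤ 4 ^ K)]
    have h4 : (4 : ℝ) ^ K ≤ 4 ^ (K + 1) := pow_le_pow_right₀ (by norm_num) (Nat.le_succ K)
    have e1 : ({a ∈ S | u a ≤ 4 ^ (K + 1)}.filter fun a => u a ≤ 4 ^ K) =
        {a ∈ S | u a ≤ 4 ^ K} := by
      ext a
      simp only [mem_filter]
      exact ⟨fun h => ⟨h.1.1, h.2⟩, fun h => ⟨⟨h.1, h.2.trans h4⟩, h.2⟩⟩
    rw [e1]
    have h1 : ∑ a ∈ {a ∈ S | u a ≤ 4 ^ (K + 1)} with ¬ u a ≤ 4 ^ K, 1 / √(u a) ≤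
        #({a ∈ S | u a ≤ 4 ^ (K + 1)}.filter fun a => ¬ u a ≤ 4 ^ K) • (1 / (2 : ℝ) ^ K) := by
      refine sum_le_card_nsmul _ _ _ fun a ha => ?_
      have h5 := not_le.1 (mem_filter.1 ha).2
      refine one_div_le_one_div_of_le (by positivity) (Real.le_sqrt_of_sq_le ?_)
      rw [← pow_mul, mul_comm, pow_mul]
      norm_num
      exact h5.le
    have h2 : (#({a ∈ S | u a ≤ 4 ^ (K + 1)}.filter fun a => ¬ u a ≤ 4 ^ K) : ℝ) ≤
        B * 4 ^ (K + 1) :=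
      le_trans (Nat.cast_le.2 (card_filter_le _ _)) (hB _ (one_le_pow₀ (by norm_num)))
    rw [nsmul_eq_mul] at h1
    have h3 : B * 4 ^ (K + 1) * (1 / (2 : ℝ) ^ K) = 4 * B * 2 ^ K := by
      rw [show (4 : ℝ) ^ (K + 1) = 2 ^ K * 2 ^ K * 4 by rw [← mul_pow, pow_succ]; norm_num]
      field_simp
    have h6 := mul_le_mul_of_nonneg_right h2 (show 0 ≤ 1 / (2 : ℝ) ^ K by positivity)
    rw [pow_succ (2 : ℝ)]
    linarith

theorem sum_wt : ∃ C : ℝ, ∀ y Y : ℝ, 1 ≤ y → 1 ≤ Y → ∑' γ, wt y Y γ ≤ C * y ^ 2 * √Y := by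
  obtain ⟨C, hC⟩ := count_box
  refine ⟨8 * (8 * |C|), fun y Y hy hY => ?_⟩
  have hy0 : 0 < y := by linarith
  have hy2 : 1 ≤ y ^ 2 := one_le_pow₀ hy
  have hfin := wt_finite hy0 Y
  obtain ⟨K, hK1, hK2⟩ := exists_nat_pow_near hY (show (1 : ℝ) < 4 by norm_num)
  have key := Count_dyadic hfin.toFinset (uy y) (8 * |C| * y ^ 2)
    (fun a _ => Count_one_le_uy hy0 a) ?_ (K + 1)
  · rw [tsum_eq_sum (s := hfin.toFinset) (fun a ha => by simpa using ha)]
    rw [filter_true_of_mem fun a ha =>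
      (Count_wt_ne (by simpa using ha)).trans hK2.le] at key
    have e : ∑ a ∈ hfin.toFinset, wt y Y a = ∑ a ∈ hfin.toFinset, 1 / √(uy y a) :=
      sum_congr rfl fun a ha => if_pos (Count_wt_ne (by simpa using ha))
    have h2 : (2 : ℝ) ^ K ≤ √Y := by
      refine Real.le_sqrt_of_sq_le ?_
      rw [← pow_mul, mul_comm, pow_mul]
      norm_num
      exact hK1
    rw [e]
    refine key.trans ?_
    have := mul_le_mul_of_nonneg_left h2 (show 0 ≤ 8 * (8 * |C|) * y ^ 2 by positivity)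
    rw [pow_succ (2 : ℝ)]
    linarith
  · intro T hT
    have hP : 1 ≤ 4 * T * y ^ 2 := by nlinarith
    obtain ⟨f, hf⟩ := hC _ _ hP hP
    rw [Real.sqrt_mul_self (by linarith)] at hf
    have h1 : #{a ∈ hfin.toFinset | uy y a ≤ T} ≤
        {h : SL | qA h ≤ 4 * T * y ^ 2 ∧ qC h ≤ 4 * T * y ^ 2}.ncard := by
      rw [← Set.ncard_coe_finset]
      refine Set.ncard_le_ncard (fun γ hγ => ?_) f
      obtain ⟨h1, h2, h3, h4⟩ := Count_uy_bound hy0 (mem_filter.1 (mem_coe.1 hγ)).2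
      have h5 : T ≤ T * y ^ 2 := by nlinarith
      have h6 : (γ 1 0 : ℝ) ^ 2 ≤ (γ 1 0 : ℝ) ^ 2 * y ^ 2 := by nlinarith [sq_nonneg (γ 1 0 : ℝ)]
      exact ⟨by unfold qA; linarith, by unfold qC; linarith⟩
    have h2 : (#{a ∈ hfin.toFinset | uy y a ≤ T} : ℝ) ≤
        ({h : SL | qA h ≤ 4 * T * y ^ 2 ∧ qC h ≤ 4 * T * y ^ 2}.ncard : ℕ) := by
      exact_mod_cast h1
    have h3 := mul_le_mul_of_nonneg_right (le_abs_self C)
      (show 0 ≤ 4 * T * y ^ 2 + 4 * T * y ^ 2 by linarith)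
    linarith

theorem Count_trace {t w b : ℤ} (hb : b ≠ 0) (h : w ^ 2 = (t ^ 2 - 4) * b ^ 2) :
    (t = 2 ∨ t = -2) ∧ w = 0 := by
  have hd : b ∣ w := (Int.pow_dvd_pow_iff (n := 2) (by norm_num)).1 ⟨t ^ 2 - 4, by linarith⟩
  obtain ⟨s, rfl⟩ := hd
  have hs : s ^ 2 = t ^ 2 - 4 :=
    mul_right_cancel₀ (pow_ne_zero 2 hb) (by linarith)
  have h1 : |s| ^ 2 = |t| ^ 2 - 4 := by rwa [sq_abs, sq_abs]
  have h2 := abs_nonneg s
  have h3 := abs_nonneg t
  have h4 : |s| + 1 ≤ |t| := by nlinarith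
  have h5 : |s| = 0 := by
    rcases h4.eq_or_lt with h6 | h6
    · rw [← h6] at h1
      have : 2 * |s| = 3 := by linarith
      omega
    · have : |s| + 2 ≤ |t| := by omega
      nlinarith
  have h6 : s = 0 := abs_eq_zero.1 h5
  subst h6
  refine ⟨?_, by simp⟩
  have : (t - 2) * (t + 2) = 0 := by linarith
  rcases mul_eq_zero.1 this with h7 | h7
  · left; linarith
  · right; linarith

theorem Count_par {γ : SL} {x b : ℤ} (hb : b ≠ 0) (h : Qg γ x b = 0) :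
    (γ 0 0 + γ 1 1 = 2 ∨ γ 0 0 + γ 1 1 = -2) ∧ 2 * γ 1 0 * x + (γ 1 1 - γ 0 0) * b = 0 := by
  refine Count_trace hb ?_
  unfold Qg at h
  linear_combination 4 * γ 1 0 * h - 4 * b ^ 2 * Count_det γ

theorem Count_harm (n : ℕ) : ∑ i ∈ range n, 1 / ((i : ℝ) + 1) ≤ 1 + Real.log n := by
  have := harmonic_le_one_add_log n
  simpa [harmonic] using this

theorem Count_ind_ne {p : Prop} {x : ℝ} (h : ind p * x ≠ 0) : p ∧ x ≠ 0 ∧ ind p * x = x := by
  by_cases hp : p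
  · simpa [ind, hp] using h
  · simp [ind, hp] at h

theorem sum_wt_par : ∃ C : ℝ, ∀ y Y : ℝ, 1 ≤ y → 1 ≤ Y → ∀ x b : ℤ, b ≠ 0 →
    ∑' γ : SL, ind (Qg γ x b = 0) * wt y Y γ ≤ C * y * (1 + Real.log (y * Y)) := by
  refine ⟨48, fun y Y hy hY x b hb => ?_⟩
  have hy0 : 0 < y := by linarith
  have hy2 : 1 ≤ y ^ 2 := one_le_pow₀ hy
  refine (Count_tsum_le _ ((({2, -2} : Finset ℤ) ×ˢ (univ : Finset Bool)) ×ˢ range (⌊2 * Y⌋₊ + 1))
    (fun γ => ((γ 0 0 + γ 1 1, decide (0 ≤ γ 1 0)), (γ 1 0).natAbs))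
    (fun t => 4 * (1 / ((t.2 : ℝ) + 1))) (fun t => by positivity) ?_ ?_).trans ?_
  · intro γ hγ
    obtain ⟨h1, h2, h3⟩ := Count_ind_ne hγ
    have h4 := Count_wt_ne h2
    obtain ⟨-, -, -, h5⟩ := Count_uy_bound hy0 h4
    have h6 : (γ 1 0 : ℝ) ^ 2 ≤ (γ 1 0 : ℝ) ^ 2 * y ^ 2 := by nlinarith [sq_nonneg (γ 1 0 : ℝ)]
    have e : (((γ 1 0).natAbs : ℕ) : ℝ) = |(γ 1 0 : ℝ)| := by rw [Nat.cast_natAbs, Int.cast_abs]
    have h7 : |(γ 1 0 : ℝ)| ^ 2 = (γ 1 0 : ℝ) ^ 2 := sq_abs _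
    have h8 := abs_nonneg (γ 1 0 : ℝ)
    constructor
    · simp only [mem_product, mem_insert, mem_singleton, mem_univ, and_true, mem_range]
      refine ⟨(Count_par hb h1).1, Nat.lt_succ_of_le (Nat.le_floor ?_)⟩
      rw [e]
      nlinarith
    · rw [h3, e, wt, if_pos h4, mul_one_div, div_le_div_iff₀
        (Real.sqrt_pos.2 (by linarith [Count_one_le_uy hy0 γ])) (by positivity)]
      have h9 : (|(γ 1 0 : ℝ)| + 1) / 4 ≤ √(uy y γ) := by
        refine Real.le_sqrt_of_sq_le ?_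
        obtain ⟨-, -, -, h10⟩ := Count_uy_bound hy0 (le_refl (uy y γ))
        nlinarith [Count_one_le_uy hy0 γ, sq_nonneg (|(γ 1 0 : ℝ)| - 1)]
      linarith
  · intro g h hg hh e
    obtain ⟨g1, -, -⟩ := Count_ind_ne hg
    obtain ⟨h1, -, -⟩ := Count_ind_ne hh
    simp only [Prod.mk.injEq, decide_eq_decide] at e
    obtain ⟨⟨e1, e2⟩, e3⟩ := e
    have e4 : g 1 0 = h 1 0 := by omega
    have g2 := (Count_par hb g1).2
    have h2 := (Count_par hb h1).2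
    have e5 : g 1 1 - g 0 0 = h 1 1 - h 0 0 :=
      mul_right_cancel₀ hb (by rw [e4] at g2; linarith)
    have e6 : g 0 1 = h 0 1 := by
      unfold Qg at g1 h1
      rw [e4, e5] at g1
      exact mul_right_cancel₀ (pow_ne_zero 2 hb) (by linarith)
    exact Count_ext (by omega) e6 e4 (by omega)
  · rw [sum_product]
    simp only [sum_const, card_product, card_univ, Fintype.card_bool, ← mul_sum]
    rw [card_pair (by norm_num)]
    have h1 := Count_harm (⌊2 * Y⌋₊ + 1)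
    have h2 : ((⌊2 * Y⌋₊ + 1 : ℕ) : ℝ) ≤ 3 * (y * Y) := by
      push_cast
      have := Nat.floor_le (show 0 ≤ 2 * Y by linarith)
      nlinarith
    have h3 := Real.log_le_log (by positivity) h2
    rw [Real.log_mul (by norm_num) (by positivity)] at h3
    have h4 := Real.log_le_sub_one_of_pos (show (0 : ℝ) < 3 by norm_num)
    have h5 := Real.log_nonneg (show 1 ≤ y * Y by nlinarith)
    simp only [nsmul_eq_mul]
    push_cast at *
    nlinarith

theorem sum_wt_xi (Y : ℝ) : ∑' γ : SL, ind (xiN γ = 0) * wt 1 Y γ ≤ 4 := by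
  have key : ∀ γ : SL, xiN γ = 0 → γ 0 0 = γ 1 1 ∧ γ 0 1 = -γ 1 0 := by
    intro γ h
    unfold xiN at h
    constructor <;> nlinarith [sq_nonneg (γ 0 0 - γ 1 1), sq_nonneg (γ 0 1 + γ 1 0)]
  refine (Count_tsum_le _ ({(1, 0), (-1, 0), (0, 1), (0, -1)} : Finset (ℤ × ℤ))
    (fun γ => (γ 0 0, γ 1 0)) (fun _ => 1) (fun t => by positivity) ?_ ?_).trans ?_
  · intro γ hγ
    obtain ⟨h1, -, h3⟩ := Count_ind_ne hγ
    refine ⟨?_, by rw [h3]; exact Count_wt_le_one one_pos _ _⟩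
    obtain ⟨k1, k2⟩ := key γ h1
    have hd := Count_det γ
    rw [← k1, k2] at hd
    generalize γ 0 0 = a at hd
    generalize γ 1 0 = c at hd
    have a1 : -1 ≤ a := by nlinarith [sq_nonneg c]
    have a2 : a ≤ 1 := by nlinarith [sq_nonneg c]
    have c1 : -1 ≤ c := by nlinarith [sq_nonneg a]
    have c2 : c ≤ 1 := by nlinarith [sq_nonneg a]
    interval_cases a <;> interval_cases c <;> simp_all
  · intro g h hg hh e
    obtain ⟨g1, g2⟩ := key g (Count_ind_ne hg).1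
    obtain ⟨h1, h2⟩ := key h (Count_ind_ne hh).1
    obtain ⟨e1, e2⟩ := Prod.mk.inj e
    exact Count_ext e1 (by omega) e2 (by omega)
  · rw [sum_const, nsmul_eq_mul, mul_one]
    exact_mod_cast card_le_four

/-! ### Divisor bounds -/

theorem Count_prod_le (B : ℕ) (K : ℝ) (hK : 1 ≤ K) (s : Finset ℕ) (f g : ℕ → ℝ)
    (hf : ∀ p ∈ s, 0 ≤ f p) (hg : ∀ p ∈ s, 0 ≤ g p) (h1 : ∀ p ∈ s, f p ≤ K * g p)
    (h2 : ∀ p ∈ s, B ≤ p → f p ≤ g p) : ∏ p ∈ s, f p ≤ K ^ B * ∏ p ∈ s, g p := by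
  calc ∏ p ∈ s, f p ≤ ∏ p ∈ s, ((if p < B then K else 1) * g p) := by
        refine prod_le_prod hf fun p hp => ?_
        split_ifs with h
        · exact h1 p hp
        · simpa using h2 p hp (not_lt.1 h)
    _ = K ^ #{p ∈ s | p < B} * ∏ p ∈ s, g p := by
        rw [prod_mul_distrib, prod_ite]
        simp
    _ ≤ _ := by
        refine mul_le_mul_of_nonneg_right (pow_le_pow_right₀ hK ?_) (prod_nonneg hg)
        calc #{p ∈ s | p < B} ≤ #(range B) :=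
              card_le_card fun p hp => mem_range.2 (mem_filter.1 hp).2
          _ = B := card_range B

theorem Count_large (k δ : ℝ) (hδ : 0 < δ) : ∃ B : ℕ, ∀ p : ℕ, B ≤ p → k ≤ (p : ℝ) ^ δ :=
  eventually_atTop.1
    (((tendsto_rpow_atTop hδ).comp tendsto_natCast_atTop_atTop).eventually_ge_atTop k)

theorem card_divisors_le (δ : ℝ) (hδ : 0 < δ) :
    ∃ C : ℝ, ∀ n : ℕ, (#n.divisors : ℝ) ≤ C * (n : ℝ) ^ δ := by
  obtain ⟨B, hB⟩ := Count_large 2 δ hδ
  have hl : 0 < δ * Real.log 2 := mul_pos hδ (Real.log_pos one_lt_two)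
  have hK : 1 ≤ 1 + 1 / (δ * Real.log 2) := le_add_of_nonneg_right (by positivity)
  refine ⟨(1 + 1 / (δ * Real.log 2)) ^ B, fun n => ?_⟩
  rcases eq_or_ne n 0 with rfl | hn
  · simp only [Nat.divisors_zero, card_empty, Nat.cast_zero]
    positivity
  have e : (n : ℝ) ^ δ = ∏ p ∈ n.primeFactors, ((p : ℝ) ^ δ) ^ n.factorization p := by
    conv_lhs => rw [← Nat.prod_factorization_pow_eq_self hn, Finsupp.prod, Nat.support_factorization]
    push_cast
    rw [← Real.finsetProd_rpow _ _ (fun p _ => by positivity)]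
    refine prod_congr rfl fun p _ => ?_
    rw [← Real.rpow_natCast, ← Real.rpow_natCast, ← Real.rpow_mul (by positivity),
      ← Real.rpow_mul (by positivity), mul_comm]
  rw [Nat.card_divisors hn, e]
  push_cast
  refine Count_prod_le B _ hK _ _ _ (fun p _ => by positivity) (fun p _ => by positivity) ?_ ?_
  · intro p hp
    have h2 : (2 : ℝ) ≤ p := by exact_mod_cast (Nat.prime_of_mem_primeFactors hp).two_le
    generalize n.factorization p = a
    have h3 : ((2 : ℝ) ^ δ) ^ a ≤ ((p : ℝ) ^ δ) ^ a :=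
      pow_le_pow_left₀ (by positivity) (Real.rpow_le_rpow (by norm_num) h2 hδ.le) a
    have h4 : δ * Real.log 2 * a + 1 ≤ ((2 : ℝ) ^ δ) ^ a := by
      rw [Real.rpow_def_of_pos two_pos, ← Real.exp_nat_mul]
      have := Real.add_one_le_exp (a * (Real.log 2 * δ))
      linarith
    have h5 : (a : ℝ) + 1 ≤ (1 + 1 / (δ * Real.log 2)) * (δ * Real.log 2 * a + 1) := by
      have e2 : (1 + 1 / (δ * Real.log 2)) * (δ * Real.log 2 * a + 1) =
          a + 1 + (δ * Real.log 2 * a + 1 / (δ * Real.log 2)) := by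
        field_simp
        ring
      rw [e2]
      exact le_add_of_nonneg_right (by positivity)
    exact h5.trans (mul_le_mul_of_nonneg_left (h4.trans h3) (by positivity))
  · intro p _ hp
    generalize n.factorization p = a
    have h3 : (a : ℝ) + 1 ≤ 2 ^ a := by exact_mod_cast Nat.lt_two_pow_self
    exact h3.trans (pow_le_pow_left₀ (by norm_num) (hB p hp) a)

theorem pow_omega_le (k δ : ℝ) (hk : 0 ≤ k) (hδ : 0 < δ) :
    ∃ C : ℝ, ∀ n : ℕ, n ≠ 0 → k ^ #n.primeFactors ≤ C * (n : ℝ) ^ δ := by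
  obtain ⟨B, hB⟩ := Count_large k δ hδ
  refine ⟨(max 1 k) ^ B, fun n hn => ?_⟩
  rw [← prod_const]
  refine (Count_prod_le B _ (le_max_left 1 k) _ _ (fun p => (p : ℝ) ^ δ) (fun _ _ => hk)
    (fun p _ => by positivity) ?_ fun p _ hp => hB p hp).trans ?_
  · intro p hp
    have h2 : (1 : ℝ) ≤ p := by exact_mod_cast (Nat.prime_of_mem_primeFactors hp).one_le
    exact (le_max_right 1 k).trans
      (le_mul_of_one_le_right (by positivity) (Real.one_le_rpow h2 hδ.le))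
  · refine mul_le_mul_of_nonneg_left ?_ (by positivity)
    rw [Real.finsetProd_rpow _ _ (fun p _ => by positivity)]
    refine Real.rpow_le_rpow (by positivity) ?_ hδ.le
    rw [← Nat.cast_prod]
    exact Nat.cast_le.2 (Nat.le_of_dvd (Nat.pos_of_ne_zero hn) (Nat.prod_primeFactors_dvd n))

theorem Count_mult (N e : ℕ) (he : 1 ≤ e) :
    ∑ m ∈ Icc 1 N, (if e ∣ m then 1 / (m : ℝ) else 0) ≤ (∑ i ∈ Icc 1 N, 1 / (i : ℝ)) / e := by
  rw [← sum_filter, sum_div]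
  calc ∑ m ∈ Icc 1 N with e ∣ m, 1 / (m : ℝ)
      ≤ ∑ m ∈ (Icc 1 N).image (· * e), 1 / (m : ℝ) := by
        refine sum_le_sum_of_subset_of_nonneg ?_ fun _ _ _ => by positivity
        intro m hm
        obtain ⟨h1, i, rfl⟩ := mem_filter.1 hm
        obtain ⟨h2, h3⟩ := mem_Icc.1 h1
        refine mem_image.2 ⟨i, mem_Icc.2 ⟨?_, ?_⟩, mul_comm _ _⟩
        · exact Nat.pos_of_mul_pos_left h2
        · nlinarith
    _ = _ := by
        rw [sum_image fun a _ b _ h => Nat.eq_of_mul_eq_mul_right he h]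
        refine sum_congr rfl fun i _ => ?_
        push_cast
        rw [div_div]

theorem sum_gcd_le (N : ℕ) : ∑ m ∈ Icc 1 N, ∑ m' ∈ Icc 1 N, (m.gcd m' : ℝ) / (m * m') ≤
    (1 + Real.log N) ^ 3 := by
  set H : ℝ := ∑ i ∈ Icc 1 N, 1 / (i : ℝ) with hH
  have hH0 : 0 ≤ H := sum_nonneg fun _ _ => by positivity
  have hH1 : H ≤ 1 + Real.log N := by
    have := harmonic_le_one_add_log N
    rw [harmonic_eq_sum_Icc] at this
    simpa [hH] using this
  calc ∑ m ∈ Icc 1 N, ∑ m' ∈ Icc 1 N, (m.gcd m' : ℝ) / (m * m')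
      ≤ ∑ m ∈ Icc 1 N, ∑ m' ∈ Icc 1 N, ∑ e ∈ Icc 1 N, (e : ℝ) *
          ((if e ∣ m then 1 / (m : ℝ) else 0) * (if e ∣ m' then 1 / (m' : ℝ) else 0)) := by
        refine sum_le_sum fun m hm => sum_le_sum fun m' _ => ?_
        obtain ⟨h1, h2⟩ := mem_Icc.1 hm
        have hg : m.gcd m' ∈ Icc 1 N :=
          mem_Icc.2 ⟨Nat.gcd_pos_of_pos_left _ h1, (Nat.gcd_le_left _ h1).trans h2⟩
        refine le_trans (le_of_eq ?_) (single_le_sum (f := fun e : ℕ => (e : ℝ) *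
          ((if e ∣ m then 1 / (m : ℝ) else 0) * (if e ∣ m' then 1 / (m' : ℝ) else 0)))
          (fun e _ => by positivity) hg)
        simp only [if_pos (Nat.gcd_dvd_left m m'), if_pos (Nat.gcd_dvd_right m m')]
        ring
    _ = ∑ e ∈ Icc 1 N, (e : ℝ) * (∑ m ∈ Icc 1 N, (if e ∣ m then 1 / (m : ℝ) else 0)) ^ 2 := by
        simp only [sq, sum_mul_sum]
        simp only [mul_sum]
        conv_rhs => rw [sum_comm]
        exact sum_congr rfl fun m _ => sum_comm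
    _ ≤ ∑ e ∈ Icc 1 N, 1 / (e : ℝ) * H ^ 2 := by
        refine sum_le_sum fun e he => ?_
        have h1 := (mem_Icc.1 he).1
        have h2 : (0 : ℝ) < e := by exact_mod_cast h1
        have h3 := pow_le_pow_left₀ (sum_nonneg fun _ _ => by positivity) (Count_mult N e h1) 2
        refine (mul_le_mul_of_nonneg_left h3 h2.le).trans (le_of_eq ?_)
        rw [← hH]
        field_simp
    _ = H ^ 3 := by rw [← sum_mul, ← hH]; ring
    _ ≤ _ := pow_le_pow_left₀ hH0 hH1 3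

end Pool.Agent.P.MP_a1177c_nt.EK
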