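import Pool.Agent.P.MP_a1177c_nt.EK.BT
import Pool.Agent.P.MP_a1177c_nt.EK.Count
import Pool.Agent.Lib.PNT.Main

set_option autoImplicit false

namespace Pool.Agent.P.MP_a1177c_nt.EK

open Finset Filter Topology
open scoped Classical

/-- The primes `≡ 1 (W)` in `(N, 2N]`. -/
noncomputable def baS (W : ℕ) (N : ℝ) : Finset ℕ :=
  {p ∈ range (⌊2 * N⌋₊ + 1) | Nat.Prime p ∧ N < ((p : ℕ) : ℝ) ∧ p ≡ 1 [MOD W]}

theorem ba_mem {W : ℕ} {N : ℝ} (hN : 0 ≤ N) {p : ℕ} :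
    p ∈ baS W N ↔ p.Prime ∧ N < p ∧ (p : ℝ) ≤ 2 * N ∧ p ≡ 1 [MOD W] := by
  rw [baS, mem_filter, mem_range, Nat.lt_succ_iff, Nat.le_floor_iff (by linarith)]
  tauto

theorem ba_sum {W q : ℕ} {N : ℝ} (hN : 0 ≤ N) (hq : 0 < q) {Pi : Finset GaussianInt}
    (h : Fam W q N Pi) (f : ℕ → ℝ) : ∑ ϖ ∈ Pi, f (nrm ϖ) = ∑ p ∈ baS W N, f (q * p) := by
  refine sum_bij (fun ϖ _ => nrm ϖ / q) (fun ϖ hϖ => ?_) (fun ϖ hϖ ϖ' hϖ' e => ?_)
    (fun p hp => ?_) fun ϖ hϖ => ?_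
  · obtain ⟨p, h1, h2, h3, h4, h5⟩ := h.mem ϖ hϖ
    rw [h5, Nat.mul_div_cancel_left _ hq]
    exact (ba_mem hN).2 ⟨h1, h2, h3, h4⟩
  · obtain ⟨p, -, -, -, -, h5⟩ := h.mem ϖ hϖ
    obtain ⟨p', -, -, -, -, h5'⟩ := h.mem ϖ' hϖ'
    rw [h5, h5', Nat.mul_div_cancel_left _ hq, Nat.mul_div_cancel_left _ hq] at e
    exact h.inj ϖ hϖ ϖ' hϖ' (by rw [h5, h5', e])
  · obtain ⟨h1, h2, h3, h4⟩ := (ba_mem hN).1 hp
    obtain ⟨ϖ, hϖ, h5⟩ := h.surj p h1 h2 h3 h4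
    exact ⟨ϖ, hϖ, by rw [h5, Nat.mul_div_cancel_left _ hq]⟩
  · obtain ⟨p, -, -, -, -, h5⟩ := h.mem ϖ hϖ
    rw [h5, Nat.mul_div_cancel_left _ hq]

theorem ba_card {W : ℕ} (hW : 0 < W) : ∀ᶠ N : ℝ in atTop,
    N / (2 * W.totient * Real.log N) ≤ #(baS W N) ∧ (#(baS W N) : ℝ) ≤ 2 * N := by
  haveI : NeZero W := ⟨hW.ne'⟩
  have hφ : (0 : ℝ) < W.totient := by exact_mod_cast Nat.totient_pos.2 hW
  have ht := Pool.Agent.Lib.PNT.thetaAP_tendsto (q := W) (a := 1) isUnit_one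
  have h1 := ht.eventually (gt_mem_nhds (show ((W.totient : ℝ))⁻¹ < 9 / 8 * (W.totient : ℝ)⁻¹ by
    linarith [inv_pos.2 hφ]))
  have h2 := (ht.comp (tendsto_id.const_mul_atTop two_pos)).eventually (lt_mem_nhds
    (show 15 / 16 * (W.totient : ℝ)⁻¹ < ((W.totient : ℝ))⁻¹ by linarith [inv_pos.2 hφ]))
  filter_upwards [h1, h2, eventually_ge_atTop 4] with N h1 h2 hN
  have hN0 : 0 < N := by linarith
  have hl : 0 < Real.log N := Real.log_pos (by linarith)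
  constructor
  · have e : Pool.Agent.Lib.PNT.thetaAP (1 : ZMod W) (2 * N) =
        Pool.Agent.Lib.PNT.thetaAP (1 : ZMod W) N + ∑ p ∈ baS W N, Real.log p := by
      unfold Pool.Agent.Lib.PNT.thetaAP
      rw [← sum_union]
      · refine sum_congr (Finset.ext fun p => ?_) fun _ _ => rfl
        have h3 : ((p : ZMod W) = 1) ↔ p ≡ 1 [MOD W] := by
          rw [← ZMod.natCast_eq_natCast_iff, Nat.cast_one]
        simp only [mem_union, mem_filter, mem_Icc, ba_mem hN0.le, h3,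
          Nat.le_floor_iff hN0.le, Nat.le_floor_iff (by linarith : 0 ≤ 2 * N)]
        constructor
        · rintro ⟨⟨a, b⟩, c, d⟩
          rcases le_or_gt (p : ℝ) N with h | h
          exacts [.inl ⟨⟨a, h⟩, c, d⟩, .inr ⟨c, h, b, d⟩]
        · rintro (⟨⟨a, b⟩, c, d⟩ | ⟨a, b, c, d⟩)
          exacts [⟨⟨a, by linarith⟩, c, d⟩, ⟨⟨a.pos, c⟩, a, d⟩]
      · refine disjoint_left.2 fun p hp hp' => ?_
        have h3 := (Nat.le_floor_iff hN0.le).1 (mem_Icc.1 (mem_filter.1 hp).1).2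
        exact absurd ((ba_mem hN0.le).1 hp').2.1 (not_lt.2 h3)
    have h3 : ∑ p ∈ baS W N, Real.log p ≤ #(baS W N) * (3 / 2 * Real.log N) := by
      rw [← nsmul_eq_mul]
      refine sum_le_card_nsmul _ _ _ fun p hp => ?_
      obtain ⟨a, b, c, -⟩ := (ba_mem hN0.le).1 hp
      have h4 : Real.log p ≤ Real.log (2 * N) := Real.log_le_log (by linarith) c
      have h5 : Real.log 4 ≤ Real.log N := Real.log_le_log (by norm_num) hN
      rw [Real.log_mul two_ne_zero hN0.ne'] at h4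
      rw [show (4 : ℝ) = 2 ^ 2 by norm_num, Real.log_pow] at h5
      push_cast at h5
      linarith
    simp only [Function.comp, id] at h2
    rw [div_lt_iff₀ hN0] at h1
    rw [lt_div_iff₀ (by linarith), e] at h2
    rw [div_le_iff₀ (by positivity)]
    have h4 : 3 / 4 * (N * (W.totient : ℝ)⁻¹) ≤ #(baS W N) * (3 / 2 * Real.log N) := by linarith
    have h5 := mul_le_mul_of_nonneg_right h4 hφ.le
    rw [mul_assoc, mul_assoc, inv_mul_cancel₀ hφ.ne'] at h5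
    linarith
  · have h3 : baS W N ⊆ Ioc 0 ⌊2 * N⌋₊ := fun p hp =>
      mem_Ioc.2 ⟨((ba_mem hN0.le).1 hp).1.pos, Nat.lt_succ_iff.1 (mem_range.1 (mem_filter.1 hp).1)⟩
    have h4 := card_le_card h3
    rw [Nat.card_Ioc, Nat.sub_zero] at h4
    exact (Nat.cast_le.2 h4).trans (Nat.floor_le (by linarith))

theorem fam_card {W : ℕ} (hW : 0 < W) : ∀ᶠ N : ℝ in atTop, ∀ q : ℕ, 0 < q → ∀ Pi, Fam W q N Pi →
    N / (2 * W.totient * Real.log N) ≤ #Pi ∧ (#Pi : ℝ) ≤ 2 * N := by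
  filter_upwards [ba_card hW, eventually_ge_atTop 0] with N h hN q hq Pi hPi
  have := ba_sum hN hq hPi fun _ => 1
  simp only [sum_const, nsmul_eq_mul, mul_one] at this
  rwa [this]

theorem ba_roots (m c : Fin 3 → ℤ) (B : ℕ) {p : ℕ} (hp : p.Prime) (hc : ∀ k, ¬ (p : ℤ) ∣ c k) :
    #{r ∈ range p | (p : ℤ) ∣ Dv m c ((B * r : ℕ))} ≤ 6 := by
  haveI := Fact.mk hp
  let f : Polynomial (ZMod p) := ∏ k, (Polynomial.C (((m k * B : ℤ) : ZMod p) ^ 2) *
    Polynomial.X ^ 2 + Polynomial.C ((c k : ZMod p) ^ 2))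
  have hev : ∀ r : ℕ, f.eval (r : ZMod p) = ((Dv m c ((B * r : ℕ)) : ℤ) : ZMod p) := fun r => by
    simp only [f, Dv, Polynomial.eval_prod, Polynomial.eval_add, Polynomial.eval_mul,
      Polynomial.eval_C, Polynomial.eval_pow, Polynomial.eval_X]
    push_cast
    exact prod_congr rfl fun k _ => by ring
  have hf0 : f ≠ 0 := fun h => by
    have h1 := hev 0
    rw [h, Polynomial.eval_zero, eq_comm, Dv] at h1
    push_cast at h1
    obtain ⟨k, -, hk⟩ := prod_eq_zero_iff.1 h1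
    exact hc k ((ZMod.intCast_zmod_eq_zero_iff_dvd _ _).1 (by simpa using hk))
  have hd : f.natDegree ≤ 6 := (Polynomial.natDegree_prod_le _ _).trans
    ((sum_le_card_nsmul _ _ 2 fun k _ => by compute_degree).trans (by simp))
  refine le_trans (card_le_card_of_injOn (t := f.roots.toFinset) (fun r => (r : ZMod p))
    (fun r hr => ?_) fun r hr s hs e => ?_)
    ((Multiset.toFinset_card_le _).trans ((Polynomial.card_roots' f).trans hd))
  · rw [mem_coe, mem_filter] at hr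
    rw [mem_coe, Multiset.mem_toFinset, Polynomial.mem_roots hf0, Polynomial.IsRoot, hev]
    exact (ZMod.intCast_zmod_eq_zero_iff_dvd _ _).2 hr.2
  · rw [mem_coe, mem_filter, mem_range] at hr hs
    exact Nat.ModEq.eq_of_lt_of_lt ((ZMod.natCast_eq_natCast_iff _ _ _).1 e) hr.1 hs.1

theorem ba_dvd_mod (m c : Fin 3 → ℤ) (B r p : ℕ) (h : (p : ℤ) ∣ Dv m c ((B * r : ℕ))) :
    (p : ℤ) ∣ Dv m c ((B * (r % p) : ℕ)) := by
  rw [← ZMod.intCast_zmod_eq_zero_iff_dvd] at h ⊢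
  simpa [Dv] using h

theorem ba_modEq {W a b : ℕ} (T : Finset ℕ) (hT : ∀ p ∈ T, p.Prime ∧ ¬ p ∣ W)
    (h : a ≡ b [MOD W]) (h' : ∀ p ∈ T, a ≡ b [MOD p]) : a ≡ b [MOD W * ∏ p ∈ T, p] := by
  induction T using Finset.induction_on with
  | empty => simpa using h
  | insert p T hp ih =>
    have h1 := hT p (mem_insert_self _ _)
    rw [prod_insert hp, mul_comm p, ← mul_assoc]
    refine (Nat.modEq_and_modEq_iff_modEq_mul (Nat.Coprime.mul_left
      ((Nat.Prime.coprime_iff_not_dvd h1.1).2 h1.2).symm (Nat.Coprime.prod_left fun r hr => ?_))).1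
      ⟨ih (fun r hr => hT r (mem_insert_of_mem hr)) fun r hr => h' r (mem_insert_of_mem hr),
        h' p (mem_insert_self _ _)⟩
    exact (Nat.coprime_primes (hT r (mem_insert_of_mem hr)).1 h1.1).2 fun e => hp (e ▸ hr)

theorem ba_totient (W : ℕ) (T : Finset ℕ) (hT : ∀ p ∈ T, p.Prime) :
    (W.totient : ℝ) * ∏ p ∈ T, ((p : ℝ) / 2) ≤ (W * ∏ p ∈ T, p).totient := by
  induction T using Finset.induction_on with
  | empty => simp
  | insert p T hp ih =>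
    have h1 := hT p (mem_insert_self _ _)
    have h2 : (p : ℝ) / 2 ≤ p.totient := by
      have : (2 : ℝ) ≤ p := by exact_mod_cast h1.two_le
      rw [Nat.totient_prime h1, Nat.cast_pred h1.pos]
      linarith
    rw [prod_insert hp, prod_insert hp, mul_comm p, ← mul_assoc W, mul_comm ((p : ℝ) / 2),
      ← mul_assoc]
    refine le_trans ?_ (Nat.cast_le.2 (Nat.totient_super_multiplicative _ _))
    rw [Nat.cast_mul]
    exact mul_le_mul (ih fun r hr => hT r (mem_insert_of_mem hr)) h2 (by positivity)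
      (Nat.cast_nonneg _)

theorem ba_count {C N : ℝ} (hC : 0 ≤ C) (hN : 2 ≤ N)
    (hBT : ∀ k r : ℕ, 0 < k → (k : ℝ) ^ 2 ≤ N →
      (#{p ∈ range (⌊2 * N⌋₊ + 1) | Nat.Prime p ∧ N < ((p : ℕ) : ℝ) ∧ p ≡ r [MOD k]} : ℝ) ≤
        C * N / (k.totient * Real.log N))
    (m c : Fin 3 → ℤ) (B : ℕ) {W : ℕ} (hW : 0 < W) (T : Finset ℕ)
    (hT : ∀ p ∈ T, p.Prime ∧ ¬ p ∣ W) (hc : ∀ p ∈ T, ∀ k, ¬ (p : ℤ) ∣ c k)
    (hk : ((W * ∏ p ∈ T, p : ℕ) : ℝ) ^ 2 ≤ N) :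
    (#{r ∈ baS W N | ∀ p ∈ T, (p : ℤ) ∣ Dv m c ((B * r : ℕ))} : ℝ) ≤
      C * N / (W.totient * Real.log N) * ∏ p ∈ T, (12 / p : ℝ) := by
  have hφ : (0 : ℝ) < W.totient := by exact_mod_cast Nat.totient_pos.2 hW
  have hl : 0 < Real.log N := Real.log_pos (by linarith)
  have hp0 : ∀ p ∈ T, (0 : ℝ) < p := fun p hp => by exact_mod_cast (hT p hp).1.pos
  have hP : 0 < ∏ p ∈ T, ((p : ℝ) / 2) := prod_pos fun p hp => half_pos (hp0 p hp)
  set R := Fintype.piFinset fun p : T =>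
    {r ∈ range (p : ℕ) | ((p : ℕ) : ℤ) ∣ Dv m c ((B * r : ℕ))} with hR
  have hRc : (#R : ℝ) ≤ ∏ _p ∈ T, (6 : ℝ) := by
    rw [hR, Fintype.card_piFinset, ← prod_coe_sort T, Nat.cast_prod]
    exact prod_le_prod (fun _ _ => Nat.cast_nonneg _) fun p _ => by
      exact_mod_cast ba_roots m c B (hT p p.2).1 (hc p p.2)
  rw [card_eq_sum_card_fiberwise (t := R) (f := fun r (p : T) => r % (p : ℕ)) fun r hr => by
    rw [mem_coe, mem_filter] at hr
    exact Fintype.mem_piFinset.2 fun p => mem_filter.2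
      ⟨mem_range.2 (Nat.mod_lt _ (hT p p.2).1.pos), ba_dvd_mod m c B r p (hr.2 p p.2)⟩,
    Nat.cast_sum]
  refine (sum_le_card_nsmul _ _ (C * N / (W.totient * (∏ p ∈ T, ((p : ℝ) / 2)) * Real.log N))
    fun t _ => ?_).trans ?_
  · rcases Finset.eq_empty_or_nonempty {a ∈ {r ∈ baS W N | ∀ p ∈ T,
        (p : ℤ) ∣ Dv m c ((B * r : ℕ))} | (fun p : T => a % (p : ℕ)) = t} with h | ⟨r, hr⟩
    · rw [h, card_empty, Nat.cast_zero]
      positivity
    · refine le_trans (Nat.cast_le.2 (card_le_card fun s hs => ?_)) ((hBT _ r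
        (Nat.mul_pos hW (prod_pos fun p hp => (hT p hp).1.pos)) hk).trans ?_)
      · simp only [baS, mem_filter] at hr hs ⊢
        exact ⟨hs.1.1.1, hs.1.1.2.1, hs.1.1.2.2.1, ba_modEq T hT
          (hs.1.1.2.2.2.trans hr.1.1.2.2.2.symm) fun p hp =>
            congrFun (hs.2.trans hr.2.symm) ⟨p, hp⟩⟩
      · have := ba_totient W T fun p hp => (hT p hp).1
        gcongr
  · rw [nsmul_eq_mul]
    refine (mul_le_mul_of_nonneg_right hRc (by positivity)).trans (le_of_eq ?_)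
    rw [show ∏ p ∈ T, (12 / p : ℝ) = (∏ _p ∈ T, (6 : ℝ)) / ∏ p ∈ T, ((p : ℝ) / 2) by
      rw [← prod_div_distrib]
      exact prod_congr rfl fun p hp => by field_simp; norm_num]
    field_simp

theorem ba_small {C N C₁ : ℝ} (hC : 0 ≤ C) (hC₁ : 0 ≤ C₁) (hN : 2 ≤ N)
    (hBT : ∀ k r : ℕ, 0 < k → (k : ℝ) ^ 2 ≤ N →
      (#{p ∈ range (⌊2 * N⌋₊ + 1) | Nat.Prime p ∧ N < ((p : ℕ) : ℝ) ∧ p ≡ r [MOD k]} : ℝ) ≤
        C * N / (k.totient * Real.log N))
    (m c : Fin 3 → ℤ) (B : ℕ) {W D : ℕ} (hW : 0 < W) (hD : D ≠ 0) (P : Finset ℕ)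
    (hP : ∀ p ∈ P, p.Prime ∧ ¬ p ∣ W) (hPD : ∀ p ∈ P, D < p) (hc : ∀ p ∈ P, ∀ k, ¬ (p : ℤ) ∣ c k)
    (hk : ((W * ∏ p ∈ P, p : ℕ) : ℝ) ^ 2 ≤ N)
    (hS : N / (2 * W.totient * Real.log N) ≤ #(baS W N)) :
    ∑ r ∈ baS W N, ∏ p ∈ P with ((p : ℕ) : ℤ) ∣ Dv m c ((B * r : ℕ)), (1 + C₁ / p) ≤
      (1 + 2 * C * (Real.exp (12 * C₁ * (D : ℝ)⁻¹) - 1)) * #(baS W N) := by
  have e1 : ∀ r : ℕ, ∏ p ∈ P with ((p : ℕ) : ℤ) ∣ Dv m c ((B * r : ℕ)), (1 + C₁ / p) =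
      ∑ T ∈ P.powerset, if ∀ p ∈ T, (p : ℤ) ∣ Dv m c ((B * r : ℕ)) then ∏ p ∈ T, C₁ / p else 0 := by
    intro r
    rw [prod_one_add, eq_comm, ← sum_filter]
    refine sum_congr (Finset.ext fun T => ?_) fun _ _ => rfl
    simp only [mem_powerset, mem_filter, subset_iff]
    exact ⟨fun h p hp => ⟨h.1 hp, h.2 p hp⟩,
      fun h => ⟨fun p hp => (h hp).1, fun p hp => (h hp).2⟩⟩
  have h0 : (∅ : Finset ℕ) ∈ P.powerset := empty_mem_powerset P
  have h1 : ∑ T ∈ P.powerset.erase ∅, ∏ p ∈ T, (12 * C₁ * ((p : ℝ) ^ 2)⁻¹) ≤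
      Real.exp (12 * C₁ * (D : ℝ)⁻¹) - 1 := by
    have h2 := Real.prod_one_add_le_exp_sum P (f := fun p => 12 * C₁ * ((p : ℝ) ^ 2)⁻¹)
      fun p => by positivity
    rw [prod_one_add, ← add_sum_erase _ _ h0, prod_empty, ← mul_sum] at h2
    have h3 : ∑ p ∈ P, ((p : ℝ) ^ 2)⁻¹ ≤ (D : ℝ)⁻¹ := by
      have h4 := sum_Ioc_inv_sq_le_sub (α := ℝ) hD (le_max_left D (P.sup id))
      refine (sum_le_sum_of_subset_of_nonneg (fun p hp => mem_Ioc.2 ⟨hPD p hp,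
        le_max_of_le_right (le_sup (f := id) hp)⟩) fun _ _ _ => by positivity).trans (h4.trans ?_)
      exact sub_le_self _ (by positivity)
    have h4 := Real.exp_le_exp.2 (mul_le_mul_of_nonneg_left h3 (by positivity : 0 ≤ 12 * C₁))
    linarith
  simp only [e1]
  rw [sum_comm, ← add_sum_erase _ _ h0, add_mul, one_mul]
  refine add_le_add (by simp) ?_
  refine le_trans (sum_le_sum fun T hT => ?_) ((le_of_eq (mul_sum _ _ (2 * C * #(baS W N))).symm).trans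
    ((mul_le_mul_of_nonneg_left h1 (by positivity)).trans (le_of_eq (by ring))))
  have hTP := mem_powerset.1 (mem_of_mem_erase hT)
  have h2 := ba_count hC hN hBT m c B hW T (fun p hp => hP p (hTP hp)) (fun p hp => hc p (hTP hp))
    (le_trans (pow_le_pow_left₀ (Nat.cast_nonneg _) (Nat.cast_le.2 (Nat.mul_le_mul_left _
      (prod_le_prod_of_subset_of_one_le' hTP fun p hp _ => (hP p hp).1.pos))) 2) hk)
  rw [← sum_filter, sum_const, nsmul_eq_mul]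
  refine (mul_le_mul_of_nonneg_right h2 (prod_nonneg fun p _ => by positivity)).trans ?_
  rw [mul_assoc, ← prod_mul_distrib]
  refine mul_le_mul ?_ (le_of_eq (prod_congr rfl fun p _ => by ring))
    (prod_nonneg fun p _ => by positivity) (by positivity)
  refine le_trans (le_of_eq ?_) (mul_le_mul_of_nonneg_left hS (by positivity : 0 ≤ 2 * C))
  ring

theorem ba_large {C₁ z : ℝ} (hC₁ : 0 ≤ C₁) (hz : 1 < z) {F : ℤ} (hF : F ≠ 0) (P : Finset ℕ)
    (hP : ∀ p ∈ P, p.Prime ∧ z ≤ p ∧ (p : ℤ) ∣ F) :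
    ∏ p ∈ P, (1 + C₁ / p) ≤ Real.exp (C₁ * Real.log F / (z * Real.log z)) := by
  have hl := Real.log_pos hz
  have h1 : ∏ p ∈ P, p ≤ F.natAbs := Nat.le_of_dvd (Int.natAbs_pos.2 hF)
    ((prod_dvd_prod_of_subset _ _ _ fun p hp => Nat.mem_primeFactors.2 ⟨(hP p hp).1,
      Int.natCast_dvd.1 (hP p hp).2.2, Int.natAbs_ne_zero.2 hF⟩).trans
        (Nat.prod_primeFactors_dvd _))
  have h2 : z ^ #P ≤ |(F : ℝ)| := by
    rw [← prod_const, ← Int.cast_abs, ← Nat.cast_natAbs]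
    refine le_trans ?_ (Nat.cast_le.2 h1)
    rw [Nat.cast_prod]
    exact prod_le_prod (fun _ _ => by linarith) fun p hp => (hP p hp).2.1
  have h3 := Real.log_le_log (by positivity) h2
  rw [Real.log_pow, Real.log_abs] at h3
  refine (Real.prod_one_add_le_exp_sum P fun p => by positivity).trans (Real.exp_le_exp.2 ?_)
  refine (sum_le_card_nsmul _ _ (C₁ / z) fun p hp => by
    have := (hP p hp).2.1
    gcongr).trans ?_
  rw [nsmul_eq_mul, le_div_iff₀ (by positivity)]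
  refine le_trans (le_of_eq ?_) (mul_le_mul_of_nonneg_left h3 hC₁)
  field_simp

theorem ba_Dv_pos (m c : Fin 3 → ℤ) (hc : ∀ k, c k ≠ 0) (x : ℤ) : 0 < Dv m c x :=
  prod_pos fun k _ => add_pos_of_nonneg_of_pos (sq_nonneg _) (sq_pos_of_ne_zero (hc k))

theorem ba_Dv_le (m c : Fin 3 → ℤ) (q : ℕ) : ∀ᶠ X : ℝ in atTop, ∀ x : ℕ, (x : ℝ) ≤ q * (2 * X ^ 2) →
    ((Dv m c x : ℤ) : ℝ) ≤ X ^ 15 := by
  have h : ∀ k, ∀ᶠ X : ℝ in atTop, (m k * q * 2 : ℝ) ^ 2 + (c k : ℝ) ^ 2 ≤ X := fun k =>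
    eventually_ge_atTop _
  filter_upwards [eventually_all.2 h, eventually_ge_atTop 1] with X h hX x hx
  rw [Dv, show X ^ 15 = ∏ _k : Fin 3, X ^ 5 by simp [← pow_mul]]
  push_cast
  refine prod_le_prod (fun k _ => by positivity) fun k _ => ?_
  have h1 : (x : ℝ) ^ 2 ≤ (q * (2 * X ^ 2)) ^ 2 := by gcongr
  have h2 : 1 ≤ X ^ 4 := one_le_pow₀ hX
  have h3 := mul_le_mul_of_nonneg_left h1 (sq_nonneg (m k : ℝ))
  have h4 := mul_le_mul_of_nonneg_left h2 (sq_nonneg (c k : ℝ))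
  have h5 := mul_le_mul_of_nonneg_right (h k) (by positivity : 0 ≤ X ^ 4)
  nlinarith

theorem beta_avg (C₁ η : ℝ) (hC : 0 ≤ C₁) (hη : 0 < η) : ∃ D : ℕ, ∀ (m c : Fin 3 → ℤ) (W q : ℕ),
    (∀ k, c k ≠ 0) → 0 < W → 0 < q → (∀ p : ℕ, p.Prime → p ≤ D → p ∣ W) →
    (∀ p : ℕ, p.Prime → ∀ k, (p : ℤ) ∣ c k → p ∣ W) → ∀ ε : ℝ, 0 < ε →
    ∀ᶠ X : ℝ in atTop, ∀ N : ℝ, X ^ ε ≤ N → N ≤ X → ∀ Pi, Fam W q N Pi →
      ∀ P : Finset ℕ, (∀ p ∈ P, p.Prime ∧ ¬ p ∣ W) → ∀ A : ℕ, (A : ℝ) ≤ X →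
        ∑ ϖ ∈ Pi, ∏ p ∈ P with ((p : ℕ) : ℤ) ∣ Dv m c ((nrm ϖ * A : ℕ)), (1 + C₁ / p) ≤
          (1 + η) * #Pi := by
  obtain ⟨C', hC'⟩ := brun_titchmarsh
  set C := max C' 0 with hCdef
  have hC0 : 0 ≤ C := le_max_right _ _
  have hD : Tendsto (fun D : ℕ => 2 * C * (Real.exp (12 * C₁ * (D : ℝ)⁻¹) - 1)) atTop
      (𝓝 (2 * C * (Real.exp (12 * C₁ * 0) - 1))) :=
    (((Real.continuous_exp.tendsto _).comp
      (tendsto_inv_atTop_nhds_zero_nat.const_mul _)).sub_const 1).const_mul _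
  rw [mul_zero, Real.exp_zero, sub_self, mul_zero] at hD
  obtain ⟨D, hD1, hD2⟩ := ((hD.eventually (gt_mem_nhds (half_pos hη))).and
    (eventually_ne_atTop 0)).exists
  refine ⟨D, fun m c W q hc hW hq hDW hcW ε hε => ?_⟩
  have hη' : 0 < Real.log ((1 + η) / (1 + η / 2)) :=
    Real.log_pos ((one_lt_div (by linarith)).2 (by linarith))
  have hz : Tendsto (fun X : ℝ => ε / 8 * Real.log X) atTop atTop :=
    Real.tendsto_log_atTop.const_mul_atTop (by positivity)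
  have hXε := tendsto_rpow_atTop hε
  obtain ⟨N₀, hN₀⟩ := eventually_atTop.1 ((ba_card hW).and (eventually_ge_atTop 2))
  filter_upwards [ba_Dv_le m c q, hz.eventually (eventually_gt_atTop 1),
    (Real.tendsto_log_atTop.comp hz).eventually (eventually_ge_atTop
      (C₁ * 15 / (ε / 8 * Real.log ((1 + η) / (1 + η / 2))))),
    hXε.eventually (eventually_ge_atTop N₀), eventually_gt_atTop 1,
    (tendsto_rpow_atTop (half_pos hε)).eventually (eventually_ge_atTop ((W : ℝ) ^ 2))]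
    with X h1 h2 h3 h4 hX h5 N hN1 hN2 Pi hPi P hP A hA
  obtain ⟨⟨hS, -⟩, hN⟩ := hN₀ N (h4.trans hN1)
  have hN0 : 0 ≤ N := by linarith
  set z := ε / 8 * Real.log X with hzdef
  have hlX : 0 < Real.log X := Real.log_pos hX
  have hlz : 0 < Real.log z := Real.log_pos h2
  have e1 := ba_sum hN0 hq hPi fun _ => 1
  simp only [sum_const, nsmul_eq_mul, mul_one] at e1
  rw [ba_sum hN0 hq hPi fun n => ∏ p ∈ P with ((p : ℕ) : ℤ) ∣ Dv m c ((n * A : ℕ)), (1 + C₁ / p),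
    e1]
  have h6 := ba_small hC0 hC hN (fun k r hk hk' => (hC' N hN k r hk hk').trans (by
      have := Real.log_nonneg (by linarith : 1 ≤ N)
      gcongr
      exact le_max_left _ _)) m c (q * A) hW hD2 (P.filter fun p : ℕ => (p : ℝ) ≤ z)
    (fun p hp => hP p (mem_filter.1 hp).1)
    (fun p hp => not_le.1 fun h => (hP p (mem_filter.1 hp).1).2
      (hDW p (hP p (mem_filter.1 hp).1).1 h))
    (fun p hp k h => (hP p (mem_filter.1 hp).1).2 (hcW p (hP p (mem_filter.1 hp).1).1 k h))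
    (by
      have h7 : ∏ p ∈ P.filter fun p : ℕ => (p : ℝ) ≤ z, p ≤ 4 ^ ⌊z⌋₊ :=
        (prod_le_prod_of_subset_of_one_le' (fun p hp => mem_filter.2 ⟨mem_range.2
          (Nat.lt_succ_of_le (Nat.le_floor (mem_filter.1 hp).2)), (hP p (mem_filter.1 hp).1).1⟩)
          fun p hp _ => (mem_filter.1 hp).2.pos).trans (primorial_le_four_pow _)
      have h8 : ((4 : ℝ) ^ ⌊z⌋₊) ^ 2 ≤ X ^ (ε / 2) := by
        have h9 : (4 : ℝ) ≤ Real.exp 2 := by
          have := Real.add_one_le_exp 1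
          rw [show (2 : ℝ) = 1 + 1 by norm_num, Real.exp_add]
          nlinarith
        refine (pow_le_pow_left₀ (by positivity) (pow_le_pow_left₀ (by norm_num) h9 _) 2).trans ?_
        rw [Real.rpow_def_of_pos (by linarith), ← Real.exp_nat_mul, ← Real.exp_nat_mul,
          Real.exp_le_exp]
        have := Nat.floor_le (by linarith : 0 ≤ z)
        push_cast
        nlinarith
      have h9 : ((∏ p ∈ P.filter fun p : ℕ => (p : ℝ) ≤ z, p : ℕ) : ℝ) ≤ (4 : ℝ) ^ ⌊z⌋₊ := by exact_mod_cast h7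
      rw [Nat.cast_mul, mul_pow]
      refine le_trans (mul_le_mul h5 ((pow_le_pow_left₀ (Nat.cast_nonneg _) h9 2).trans h8)
        (by positivity) (by positivity)) ?_
      rwa [← Real.rpow_add (by linarith), add_halves]) hS
  refine le_trans (sum_le_sum (g := fun r => (1 + η) / (1 + η / 2) *
    ∏ p ∈ (P.filter fun p : ℕ => (p : ℝ) ≤ z) with ((p : ℕ) : ℤ) ∣ Dv m c ((q * A * r : ℕ)), (1 + C₁ / p)) fun r hr => ?_) ?_
  · rw [mul_right_comm, ← prod_filter_mul_prod_filter_not _ fun p : ℕ => (p : ℝ) ≤ z, mul_comm,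
      filter_comm fun p : ℕ => (p : ℝ) ≤ z]
    refine mul_le_mul_of_nonneg_right ?_ (prod_nonneg fun p _ => by positivity)
    have h7 := ba_Dv_pos m c hc (q * A * r : ℕ)
    refine (ba_large hC h2 h7.ne' _ fun p hp => ?_).trans ?_
    · simp only [mem_filter] at hp
      exact ⟨(hP p hp.1.1).1, (not_le.1 hp.2).le, hp.1.2⟩
    · rw [← Real.le_log_iff_exp_le (by positivity), div_le_iff₀ (by positivity)]
      have h8 := Real.log_le_log (by exact_mod_cast h7) (h1 (q * A * r) (by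
        have := ((ba_mem hN0).1 hr).2.2.1
        push_cast
        rw [mul_assoc]
        refine mul_le_mul_of_nonneg_left ?_ q.cast_nonneg
        nlinarith [mul_le_mul hA (this.trans (by linarith : 2 * N ≤ 2 * X)) r.cast_nonneg
          (by linarith)]))
      rw [Real.log_pow] at h8
      simp only [Function.comp] at h3
      rw [div_le_iff₀ (by positivity)] at h3
      have h9 := mul_le_mul_of_nonneg_left h8 hC
      have h10 := mul_le_mul_of_nonneg_right h3 hlX.le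
      rw [Nat.cast_ofNat] at h9
      rw [hzdef] at *
      linarith
  · rw [← mul_sum]
    refine (mul_le_mul_of_nonneg_left (h6.trans (mul_le_mul_of_nonneg_right
      (by linarith : _ ≤ 1 + η / 2) (Nat.cast_nonneg _))) (by positivity)).trans (le_of_eq ?_)
    field_simp

end Pool.Agent.P.MP_a1177c_nt.EK
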