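import Pool.Agent.P.MP_a1177c_nt.EK.Defs
import Pool.Agent.P.MP_a1177c_nt.Sign.Hyper
import Pool.Agent.P.MP_a1177c_nt.Sign.Primes

set_option autoImplicit false

namespace Pool.Agent.P.MP_a1177c_nt.EK

open Finset Filter
open scoped Classical
open Pool.Agent.P.MP_a1177c_nt.Sign

lemma box_quasi (φ : ℤ → ℂ) (ζ : ℂ) (M l : ℕ) (x : ℤ) (hφ : ∀ a, ‖φ a‖ ≤ 1)
    (h : ∀ a, φ (a + M) = ζ * φ a) : ‖ζ - 1‖ * ‖∑ a ∈ Ico x (x + l), φ a‖ ≤ 2 * M := by
  have key : ∀ l : ℕ, (ζ - 1) * ∑ a ∈ Ico x (x + l), φ a =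
      ∑ j ∈ range M, φ (x + l + j) - ∑ j ∈ range M, φ (x + j) := by
    intro l
    induction l with
    | zero => simp
    | succ l ih =>
      have e : Ico x (x + (l + 1 : ℕ)) = insert (x + l) (Ico x (x + l)) := by
        ext a; simp only [mem_Ico, mem_insert]; push_cast; omega
      rw [e, sum_insert (by simp), mul_add, ih]
      have h1 := sum_range_succ (fun j : ℕ => φ (x + l + j)) M
      have h2 := sum_range_succ' (fun j : ℕ => φ (x + l + j)) M
      have h3 : ∑ j ∈ range M, φ (x + (l + 1 : ℕ) + j) =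
          ∑ j ∈ range M, φ (x + l + (j + 1 : ℕ)) :=
        sum_congr rfl fun j _ => by congr 1; push_cast; ring
      rw [h1, h] at h2
      simp only [Nat.cast_zero, add_zero] at h2
      rw [h3]
      linear_combination h2
  have hb : ∀ y : ℤ, ‖∑ j ∈ range M, φ (y + j)‖ ≤ M := fun y =>
    (norm_sum_le _ _).trans ((sum_le_card_nsmul _ _ 1 fun j _ => hφ _).trans (by simp))
  rw [← norm_mul, key]
  refine (norm_sub_le _ _).trans ?_
  linarith [hb (x + l), hb x]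

variable {u : ℕ} [NeZero u]

lemma box_norm_char (s : ZMod u) : ‖ZMod.stdAddChar s‖ = 1 := by
  rw [ZMod.stdAddChar_apply]; exact Circle.norm_coe _

/-- The majorant of the Fourier transform of an interval, with the gcd factor. -/
noncomputable def boxG (u v : ℕ) : ℝ :=
  if v = 0 then 0 else u / 2 * (1 / (v : ℝ) + 1 / (u - v : ℝ)) * Nat.gcd v u

lemma boxG_nonneg (t : ZMod u) : 0 ≤ boxG u t.val := by
  have hv : (t.val : ℝ) < u := by exact_mod_cast ZMod.val_lt t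
  have : (0 : ℝ) < u - t.val := by linarith
  unfold boxG
  split_ifs
  · exact le_rfl
  · positivity

lemma sum_boxG : ∑ t : ZMod u, boxG u t.val ≤ u * (#u.divisors * (1 + Real.log u)) := by
  calc ∑ t : ZMod u, boxG u t.val = ∑ v ∈ Ico 1 u, boxG u v := by
        rw [sum_zmod_eq_range, range_eq_Ico, Finset.sum_eq_sum_Ico_succ_bot (NeZero.pos u)]
        simp [boxG]
    _ = u / 2 * (∑ v ∈ Ico 1 u, (Nat.gcd v u : ℝ) / v +
          ∑ v ∈ Ico 1 u, (Nat.gcd v u : ℝ) / (u - v : ℝ)) := by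
        rw [← Finset.sum_add_distrib, Finset.mul_sum]
        refine Finset.sum_congr rfl fun v hv => ?_
        have : v ≠ 0 := by have := (mem_Ico.1 hv).1; omega
        simp only [boxG, if_neg this]
        ring
    _ = u * ∑ v ∈ Ico 1 u, (Nat.gcd v u : ℝ) / v := by
        have : ∑ v ∈ Ico 1 u, (Nat.gcd v u : ℝ) / (u - v : ℝ) =
            ∑ v ∈ Ico 1 u, (Nat.gcd v u : ℝ) / v := by
          refine Finset.sum_bij' (fun v _ => u - v) (fun v _ => u - v) ?_ ?_ ?_ ?_ ?_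
          · intro v hv; simp only [mem_Ico] at hv ⊢; omega
          · intro v hv; simp only [mem_Ico] at hv ⊢; omega
          · intro v hv; simp only [mem_Ico] at hv; omega
          · intro v hv; simp only [mem_Ico] at hv; omega
          · intro v hv
            simp only [mem_Ico] at hv
            rw [Nat.gcd_self_sub_left hv.2.le, Nat.cast_sub hv.2.le]
        rw [this]; ring
    _ ≤ _ := by gcongr; exact sum_gcd_div_le

/-- Fourier transform of a residue class in an interval. -/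
noncomputable def boxF (M : ℕ) (a₀ x : ℤ) (l : ℕ) (h : ZMod u) : ℂ :=
  ∑ a ∈ Ico x (x + l) with a ≡ a₀ [ZMOD M], ZMod.stdAddChar (h * (a : ZMod u))

lemma boxF_le (M : ℕ) (a₀ x : ℤ) (l : ℕ) (h : ZMod u) : ‖boxF M a₀ x l h‖ ≤ l := by
  refine (norm_sum_le _ _).trans ((sum_le_card_nsmul _ _ 1 fun j _ =>
    (box_norm_char _).le).trans ?_)
  rw [nsmul_eq_mul, mul_one]
  have := card_filter_le (Ico x (x + l)) fun a => a ≡ a₀ [ZMOD M]
  rw [Int.card_Ico] at this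
  exact_mod_cast this.trans (by omega)

lemma boxF_mul_le (M : ℕ) (a₀ x : ℤ) (l : ℕ) (h : ZMod u) (hh : h * M ≠ 0) :
    ‖boxF M a₀ x l h‖ * Kc (h * (M : ZMod u)) ≤ M * boxG u (h * (M : ZMod u)).val := by
  set t := h * (M : ZMod u) with ht
  have hu : (0 : ℝ) < u := by exact_mod_cast NeZero.pos u
  have hv : (t.val : ℝ) < u := by exact_mod_cast ZMod.val_lt t
  have hv1 : t.val ≠ 0 := fun h0 => hh ((ZMod.val_eq_zero t).1 h0)
  have hv0 : (0 : ℝ) < t.val := by exact_mod_cast Nat.pos_of_ne_zero hv1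
  have hv2 : (0 : ℝ) < u - t.val := by linarith
  have hm : 0 < min (t.val : ℝ) (u - t.val) := lt_min hv0 hv2
  have h1 := norm_char_sub_one t
  have h2 := box_quasi (fun a => if a ≡ a₀ [ZMOD M] then ZMod.stdAddChar (h * (a : ZMod u)) else 0)
    (ZMod.stdAddChar t) M l x (fun a => by
      split_ifs
      · exact (box_norm_char _).le
      · simp) fun a => by
      have e : a + M ≡ a₀ [ZMOD M] ↔ a ≡ a₀ [ZMOD M] := by
        unfold Int.ModEq; rw [Int.add_emod_right]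
      simp only [e]
      split_ifs
      · rw [← AddChar.map_add_eq_mul, ht]; congr 1; push_cast; ring
      · simp
  rw [← sum_filter] at h2
  have h3 : ‖boxF M a₀ x l h‖ ≤ M * (u / 2 * (1 / min (t.val : ℝ) (u - t.val))) := by
    have h4 := (mul_le_mul_of_nonneg_right h1 (norm_nonneg (boxF M a₀ x l h))).trans h2
    rw [show (M : ℝ) * (u / 2 * (1 / min (t.val : ℝ) (u - t.val))) =
      2 * M / (4 * min (t.val : ℝ) (u - t.val) / u) by field_simp; norm_num,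
      le_div_iff₀ (by positivity), mul_comm]
    exact h4
  have h5 : 1 / min (t.val : ℝ) (u - t.val) ≤ 1 / (t.val : ℝ) + 1 / (u - t.val : ℝ) := by
    rcases le_total (t.val : ℝ) (u - t.val) with h | h
    · rw [min_eq_left h]; exact le_add_of_nonneg_right (by positivity)
    · rw [min_eq_right h]; exact le_add_of_nonneg_left (by positivity)
  have h6 : (Kc t : ℝ) ≤ Nat.gcd t.val u := by exact_mod_cast Kc_le_gcd t
  rw [boxG, if_neg hv1, ← mul_assoc]
  refine mul_le_mul (h3.trans ?_) h6 (Nat.cast_nonneg _) (by positivity)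
  gcongr

lemma box_sum_A (M : ℕ) (hM : 0 < M) (a₀ x : ℤ) {l : ℕ} (hl : l ≤ u) :
    ∑ h : ZMod u, ‖boxF M a₀ x l h‖ ≤ 2 * M ^ 2 * (u * (#u.divisors * (1 + Real.log u))) := by
  have hu : (1 : ℝ) ≤ u := by exact_mod_cast NeZero.pos u
  have hM1 : (1 : ℝ) ≤ M := by exact_mod_cast hM
  have hτ : (1 : ℝ) ≤ #u.divisors := by
    exact_mod_cast Finset.card_pos.2 ⟨1, Nat.one_mem_divisors.2 (NeZero.ne u)⟩
  have hL : (1 : ℝ) ≤ 1 + Real.log u := by linarith [Real.log_nonneg hu]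
  set g : ZMod u → ℝ := fun t => (if t = 0 then (u : ℝ) else 0) + M * boxG u t.val with hg
  have hg0 : ∀ t, 0 ≤ g t := fun t => by
    have := boxG_nonneg t
    simp only [hg]; split_ifs <;> positivity
  have h1 : ∀ h : ZMod u, ‖boxF M a₀ x l h‖ ≤ g (h * M) := by
    intro h
    by_cases hh : h * M = 0
    · have := boxG_nonneg (h * (M : ZMod u))
      simp only [hg, if_pos hh]
      refine (boxF_le M a₀ x l h).trans (le_add_of_le_of_nonneg (by exact_mod_cast hl) ?_)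
      positivity
    · simp only [hg, if_neg hh, zero_add]
      refine le_trans (le_mul_of_one_le_right (norm_nonneg _) ?_) (boxF_mul_le M a₀ x l h hh)
      exact_mod_cast one_le_Kc _
  have h2 : (Kc (M : ZMod u) : ℝ) ≤ M := by
    have := Kc_le_gcd (M : ZMod u)
    rw [ZMod.val_natCast, ← Nat.gcd_rec] at this
    exact_mod_cast this.trans (Nat.gcd_le_right _ hM)
  calc ∑ h : ZMod u, ‖boxF M a₀ x l h‖ ≤ ∑ h : ZMod u, g (h * M) := sum_le_sum fun h _ => h1 h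
    _ = ∑ t : ZMod u, ∑ h : ZMod u with h * M = t, g (h * M) :=
        (sum_fiberwise _ _ _).symm
    _ ≤ ∑ t : ZMod u, M * g t := by
        refine sum_le_sum fun t _ => ?_
        rw [sum_congr rfl fun h hh => by rw [(mem_filter.1 hh).2], sum_const, nsmul_eq_mul]
        refine mul_le_mul_of_nonneg_right (le_trans ?_ h2) (hg0 t)
        simp only [mul_comm _ (M : ZMod u)]
        exact_mod_cast card_fiber_le (M : ZMod u) t
    _ = M * (u + M * ∑ t : ZMod u, boxG u t.val) := by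
        rw [← mul_sum, sum_add_distrib, ← mul_sum]; simp
    _ ≤ M * (M * (u * (#u.divisors * (1 + Real.log u))) +
          M * (u * (#u.divisors * (1 + Real.log u)))) := by
        gcongr
        · exact le_trans (le_mul_of_one_le_right (by linarith)
            (one_le_mul_of_one_le_of_one_le hτ hL)) (le_mul_of_one_le_left (by positivity) hM1)
        · exact sum_boxG
    _ = _ := by ring

lemma box_sum_B (x : ℤ) (l : ℕ) :
    ∑ k ∈ (univ : Finset (ZMod u)).erase 0, ‖boxF 1 0 x l k‖ * Kc k ≤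
      u * (#u.divisors * (1 + Real.log u)) := by
  refine le_trans (sum_le_sum fun k hk => ?_) ((sum_le_sum_of_subset_of_nonneg (erase_subset _ _)
    fun k _ _ => boxG_nonneg k).trans sum_boxG)
  have := boxF_mul_le 1 0 x l k (by simpa using (mem_erase.1 hk).1)
  simpa using this

lemma box_err (M : ℕ) (hM : 0 < M) (ε : (ZMod u)ˣ) (a₀ a₁ d₁ : ℤ) {l₁ : ℕ} (l₂ : ℕ) (hl : l₁ ≤ u)
    {S : ℝ} (hS0 : 0 ≤ S) (hS : 2 * (u : ℝ) ^ 3 * (#u.divisors : ℝ) ^ 3 ≤ S ^ 4) :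
    |(u : ℝ) ^ 2 * #{p ∈ Ico a₁ (a₁ + l₁) ×ˢ Ico d₁ (d₁ + l₂) |
          p.1 ≡ a₀ [ZMOD M] ∧ (p.1 : ZMod u) * p.2 = ε} -
        l₂ * u * #{a ∈ Ico a₁ (a₁ + l₁) | a ≡ a₀ [ZMOD M] ∧ IsUnit (a : ZMod u)}| ≤
      2 * M ^ 2 * S * (u * (#u.divisors * (1 + Real.log u))) ^ 2 := by
  set W : ℝ := u * (#u.divisors * (1 + Real.log u)) with hW
  have h1 : (u : ℂ) ^ 2 * #{p ∈ Ico a₁ (a₁ + l₁) ×ˢ Ico d₁ (d₁ + l₂) |
      p.1 ≡ a₀ [ZMOD M] ∧ (p.1 : ZMod u) * p.2 = ε} =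
      ∑ k : ZMod u, ∑ h : ZMod u,
        boxF M a₀ a₁ l₁ h * boxF 1 0 d₁ l₂ k * Kl (-h) (-(k * ε.val)) := by
    have e : {p ∈ Ico a₁ (a₁ + l₁) ×ˢ Ico d₁ (d₁ + l₂) |
        p.1 ≡ a₀ [ZMOD M] ∧ (p.1 : ZMod u) * p.2 = ε} =
        {p ∈ {a ∈ Ico a₁ (a₁ + l₁) | a ≡ a₀ [ZMOD M]} ×ˢ
          {a ∈ Ico d₁ (d₁ + l₂) | a ≡ 0 [ZMOD (1 : ℕ)]} | (p.1 : ZMod u) * p.2 = ε} := by
      ext p
      simp only [mem_filter, mem_product, Nat.cast_one, Int.modEq_one, and_true]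
      tauto
    rw [e, mul_comm, ← nsmul_eq_mul, ← sum_const, sum_filter, Finset.sum_comm]
    simp only [ind_eq]
    rw [Finset.sum_comm]
    refine Finset.sum_congr rfl fun h _ => ?_
    rw [Finset.sum_comm]
    refine Finset.sum_congr rfl fun k _ => ?_
    rw [← Finset.sum_mul, boxF, boxF, Finset.sum_mul_sum, Finset.sum_product]
  have h2 : ∑ h : ZMod u, boxF M a₀ a₁ l₁ h * boxF 1 0 d₁ l₂ (0 : ZMod u) *
      Kl (-h) (-(0 * ε.val)) =
      l₂ * u * #{a ∈ Ico a₁ (a₁ + l₁) | a ≡ a₀ [ZMOD M] ∧ IsUnit (a : ZMod u)} := by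
    have e0 : boxF 1 0 d₁ l₂ (0 : ZMod u) = l₂ := by simp [boxF, Int.modEq_one]
    have e1 : ∀ a : ZMod u, ∑ h : ZMod u, ZMod.stdAddChar (h * a) * Kl (-h) (-(0 * ε.val)) =
        if IsUnit a then (u : ℂ) else 0 := by
      intro a
      have e2 : ∑ h : ZMod u, ZMod.stdAddChar (h * a) * Kl (-h) (-(0 * ε.val)) =
          ∑ x : (ZMod u)ˣ, ∑ h : ZMod u, ZMod.stdAddChar (h * (a - x.val)) := by
        rw [Finset.sum_comm]
        refine sum_congr rfl fun h _ => ?_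
        rw [Kl, mul_sum]
        refine sum_congr rfl fun x _ => ?_
        rw [← AddChar.map_add_eq_mul]; congr 1; ring
      rw [e2]
      simp only [sum_char, sub_eq_zero]
      split_ifs with ha
      · obtain ⟨x, rfl⟩ := ha
        simp [Units.val_inj]
      · exact sum_eq_zero fun x _ => if_neg fun h => ha ⟨x, h.symm⟩
    calc _ = l₂ * ∑ a ∈ Ico a₁ (a₁ + l₁) with a ≡ a₀ [ZMOD M], ∑ h : ZMod u,
          ZMod.stdAddChar (h * (a : ZMod u)) * Kl (-h) (-(0 * ε.val)) := by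
          rw [Finset.sum_comm, mul_sum]
          refine sum_congr rfl fun h _ => ?_
          rw [e0, ← sum_mul, boxF]; ring
      _ = _ := by
          simp only [e1]
          rw [← sum_filter, filter_filter, sum_const, nsmul_eq_mul]; ring
  rw [← Finset.add_sum_erase _ _ (mem_univ (0 : ZMod u)), h2] at h1
  rw [← Real.norm_eq_abs, ← Complex.norm_real]
  push_cast
  rw [h1, add_sub_cancel_left]
  have hA := box_sum_A (u := u) M hM a₀ a₁ hl
  have hB := box_sum_B (u := u) d₁ l₂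
  calc _ ≤ ∑ k ∈ (univ : Finset (ZMod u)).erase 0,
        ‖boxF 1 0 d₁ l₂ k‖ * Kc k * S * (2 * M ^ 2 * W) := by
        refine (norm_sum_le _ _).trans (sum_le_sum fun k _ => (norm_sum_le _ _).trans ?_)
        refine le_trans ?_ (mul_le_mul_of_nonneg_left hA (by positivity))
        rw [mul_sum]
        refine sum_le_sum fun h _ => ?_
        rw [norm_mul, norm_mul, Kl_symm]
        have h4 : (Kc (-(k * ε.val)) : ℝ) ≤ Kc k := by
          have := Kc_le_mul (-(k * ε.val)) (-(ε⁻¹).val)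
          rw [neg_mul_neg, mul_assoc, ε.mul_inv, mul_one] at this
          exact_mod_cast this
        calc _ ≤ ‖boxF M a₀ a₁ l₁ h‖ * ‖boxF 1 0 d₁ l₂ k‖ * (S * Kc k) := by
              gcongr
              exact (norm_Kl_le hS0 hS _ _).trans (by gcongr)
          _ = _ := by ring
    _ = (∑ k ∈ (univ : Finset (ZMod u)).erase 0, ‖boxF 1 0 d₁ l₂ k‖ * Kc k) * S *
          (2 * M ^ 2 * W) := by rw [sum_mul, sum_mul]
    _ ≤ W * S * (2 * M ^ 2 * W) := by
        have hW0 : 0 ≤ W := le_trans (sum_nonneg fun k _ => by positivity) hB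
        gcongr
    _ = _ := by ring

theorem box_count (M : ℕ) (hM : 0 < M) : ∃ C : ℝ, ∀ u : ℕ, 0 < u → M ∣ u →
    ∀ e a₀ a₁ d₁ : ℤ, IsCoprime e (u : ℤ) → ∀ l₁ l₂ : ℕ, l₁ ≤ u → l₂ ≤ u →
    |(#{p ∈ Ico a₁ (a₁ + l₁) ×ˢ Ico d₁ (d₁ + l₂) |
          p.1 ≡ a₀ [ZMOD M] ∧ p.1 * p.2 ≡ e [ZMOD u]} : ℝ) -
        l₂ / u * #{a ∈ Ico a₁ (a₁ + l₁) | a ≡ a₀ [ZMOD M] ∧ IsCoprime a (u : ℤ)}| ≤
      C * (u : ℝ) ^ (4 / 5 : ℝ) := by
  obtain ⟨D, hD⟩ := divisor_bound 100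
  refine ⟨4 * M ^ 2 * ((D : ℝ) ^ (1 / 100 : ℝ)) ^ 3 * 101 ^ 2,
    fun u hu _ e a₀ a₁ d₁ he l₁ l₂ h₁ _ => ?_⟩
  have : NeZero u := ⟨hu.ne'⟩
  have hu1 : (1 : ℝ) ≤ u := by exact_mod_cast hu
  have hu0 : (0 : ℝ) < u := by linarith
  obtain ⟨ε, hε⟩ := (ZMod.coe_int_isUnit_iff_isCoprime e u).2 he.symm
  set w : ℝ := (u : ℝ) ^ (1 / 100 : ℝ) with hw
  have hw1 : 1 ≤ w := Real.one_le_rpow hu1 (by norm_num)
  have hwk : ∀ k : ℕ, w ^ k = (u : ℝ) ^ (k / 100 : ℝ) := fun k => by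
    rw [hw, ← Real.rpow_natCast, ← Real.rpow_mul hu0.le]; congr 1; ring
  have hw100 : w ^ 100 = u := by rw [hwk]; norm_num
  have hτ1 : (1 : ℝ) ≤ #u.divisors := by
    exact_mod_cast Finset.card_pos.2 ⟨1, Nat.one_mem_divisors.2 hu.ne'⟩
  have hτ : (#u.divisors : ℝ) ≤ (D : ℝ) ^ (1 / 100 : ℝ) * w := by
    refine le_of_pow_le_pow_left₀ (n := 100) (by norm_num) (by positivity) ?_
    rw [mul_pow, hw100, ← Real.rpow_natCast ((D : ℝ) ^ _), ← Real.rpow_mul (Nat.cast_nonneg _)]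
    norm_num
    exact_mod_cast hD u hu.ne'
  have hL : 1 + Real.log u ≤ 101 * w := by
    have h2 := Real.log_le_sub_one_of_pos (show 0 < w by linarith)
    rw [← hw100, Real.log_pow]
    push_cast
    linarith
  have hL0 : 0 ≤ 1 + Real.log u := by linarith [Real.log_nonneg hu1]
  have h3 := box_err M hM ε a₀ a₁ d₁ l₂ h₁ (S := 2 * w ^ 75 * #u.divisors) (by positivity) (by
    calc 2 * (u : ℝ) ^ 3 * (#u.divisors : ℝ) ^ 3
        ≤ 16 * (u : ℝ) ^ 3 * (#u.divisors : ℝ) ^ 4 := by gcongr <;> norm_num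
      _ = _ := by rw [← hw100]; ring)
  have e1 : ∀ p : ℤ × ℤ, (p.1 : ZMod u) * p.2 = ε ↔ p.1 * p.2 ≡ e [ZMOD u] := fun p => by
    rw [hε, ← ZMod.intCast_eq_intCast_iff]; push_cast; rfl
  have e2 : ∀ a : ℤ, IsUnit (a : ZMod u) ↔ IsCoprime a (u : ℤ) := fun a => by
    rw [ZMod.coe_int_isUnit_iff_isCoprime, isCoprime_comm]
  simp only [e1, e2] at h3
  have e3 : ∀ N α : ℝ, N - l₂ / u * α = ((u : ℝ) ^ 2 * N - l₂ * u * α) / u ^ 2 := fun N α => by
    field_simp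
  rw [e3, abs_div,
    abs_of_pos (pow_pos hu0 2), div_le_iff₀ (pow_pos hu0 2)]
  refine h3.trans ?_
  calc _ = 4 * M ^ 2 * w ^ 75 * (#u.divisors : ℝ) ^ 3 * (1 + Real.log u) ^ 2 * u ^ 2 := by ring
    _ ≤ 4 * M ^ 2 * w ^ 75 * ((D : ℝ) ^ (1 / 100 : ℝ) * w) ^ 3 * (101 * w) ^ 2 * u ^ 2 := by
        gcongr
    _ = 4 * M ^ 2 * ((D : ℝ) ^ (1 / 100 : ℝ)) ^ 3 * 101 ^ 2 * w ^ 80 * u ^ 2 := by ring
    _ = _ := by rw [hwk]; norm_num

end Pool.Agent.P.MP_a1177c_nt.EK
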