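import Pool.Agent.P.MP_a1177c_nt.EK.BracketAux

set_option autoImplicit false

namespace Pool.Agent.P.MP_a1177c_nt.EK

open Finset Filter
open scoped Classical

/-- The moduli of the independent local conditions. -/
def bracketMod (n W : ℕ) (τ : Fin 3 → GaussianInt) : Option (Option (Fin 3)) ⊕ ℕ → ℕ
  | .inl none => n
  | .inl (some none) => W
  | .inl (some (some j)) => nrm (τ j)
  | .inr p => p

/-- The independent local conditions. -/
def bracketFun (u v : ℤ → ℝ) (w : Fin 3 → ℤ → ℝ) (g : ℕ → ℤ → ℝ) :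
    Option (Option (Fin 3)) ⊕ ℕ → ℤ → ℝ
  | .inl none => u
  | .inl (some none) => v
  | .inl (some (some j)) => w j
  | .inr p => g p

theorem bracket_crt (n W : ℕ) (τ : Fin 3 → GaussianInt) (P : Finset ℕ) (hP : ∀ p ∈ P, p.Prime)
    (hnW : n.Coprime W) (hnτ : ∀ j, n.Coprime (nrm (τ j))) (hτW : ∀ j, (nrm (τ j)).Coprime W)
    (hττ : ∀ j k, j ≠ k → (nrm (τ j)).Coprime (nrm (τ k)))
    (hPn : ∀ p ∈ P, ¬ p ∣ n) (hPW : ∀ p ∈ P, ¬ p ∣ W) (hPτ : ∀ p ∈ P, ∀ j, ¬ p ∣ nrm (τ j))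
    {M : ℕ} (hM : 0 < M) (hn : n ∣ M) (hW : W ∣ M) (hτ : ∀ j, nrm (τ j) ∣ M)
    (hPM : ∀ p ∈ P, p ∣ M) (u v : ℤ → ℝ) (w : Fin 3 → ℤ → ℝ) (g : ℕ → ℤ → ℝ)
    (hu : ∀ t t', t ≡ t' [ZMOD n] → u t = u t') (hv : ∀ t t', t ≡ t' [ZMOD W] → v t = v t')
    (hw : ∀ j t t', t ≡ t' [ZMOD (nrm (τ j) : ℕ)] → w j t = w j t')
    (hg : ∀ p ∈ P, ∀ t t', t ≡ t' [ZMOD p] → g p t = g p t') :
    (∑ t ∈ range M, (u t * v t * ∏ j, w j t) * ∏ p ∈ P, g p t) / M =
      ((∑ t ∈ range M, u t) / M * ((∑ t ∈ range M, v t) / M) *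
        ∏ j, (∑ t ∈ range M, w j t) / M) * ∏ p ∈ P, (∑ t ∈ range M, g p t) / M := by
  have := crt₁ ((univ : Finset (Option (Option (Fin 3)))).disjSum P) (bracketMod n W τ) ?_
    (bracketFun u v w g) ?_ hM ?_
  · simp only [prod_disjSum, Fintype.prod_option, bracketFun] at this
    simp only [mul_assoc] at this ⊢
    exact this
  · rintro ((_ | _ | j) | p) hi ((_ | _ | k) | p') hj hne <;>
      simp only [bracketMod, inl_mem_disjSum, inr_mem_disjSum, mem_univ, ne_eq,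
        not_true_eq_false, Sum.inl.injEq, Sum.inr.injEq, Option.some.injEq] at hi hj hne ⊢
    all_goals first
      | exact hnW
      | exact hnW.symm
      | exact hnτ _
      | exact (hnτ _).symm
      | exact hτW _
      | exact (hτW _).symm
      | exact hττ _ _ hne
      | exact ((hP _ hj).coprime_iff_not_dvd.mpr (hPn _ hj)).symm
      | exact ((hP _ hj).coprime_iff_not_dvd.mpr (hPW _ hj)).symm
      | exact ((hP _ hj).coprime_iff_not_dvd.mpr (hPτ _ hj _)).symm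
      | exact (hP _ hi).coprime_iff_not_dvd.mpr (hPn _ hi)
      | exact (hP _ hi).coprime_iff_not_dvd.mpr (hPW _ hi)
      | exact (hP _ hi).coprime_iff_not_dvd.mpr (hPτ _ hi _)
      | exact (Nat.coprime_primes (hP _ hi) (hP _ hj)).mpr hne
  · rintro ((_ | _ | j) | p) hi
    · exact hu
    · exact hv
    · exact hw j
    · exact hg p (inr_mem_disjSum.mp hi)
  · rintro ((_ | _ | j) | p) hi
    · exact hn
    · exact hW
    · exact hτ j
    · exact hPM p (inr_mem_disjSum.mp hi)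

theorem bracket_beta_mono (P : Finset ℕ) {C C' : ℝ} (hC : 0 ≤ C) (h : 64 * C ≤ C') (m : ℤ) :
    ∏ p ∈ P, (1 + 64 * if (p : ℤ) ∣ m then C / p else C / (p : ℝ) ^ 2) ≤ beta P C' m := by
  unfold beta
  refine prod_le_prod (fun p _ => ?_) (fun p _ => ?_)
  · split_ifs <;> positivity
  · split_ifs
    · rw [← mul_div_assoc]; gcongr
    · rw [← mul_div_assoc]; gcongr

theorem bracket_one_le_beta (P : Finset ℕ) {C : ℝ} (hC : 0 ≤ C) (m : ℤ) : 1 ≤ beta P C m := by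
  unfold beta
  refine le_trans (le_of_eq (prod_const_one (s := P)).symm)
    (prod_le_prod (fun _ _ => zero_le_one) fun p _ => ?_)
  have : 0 ≤ if (p : ℤ) ∣ m then C / p else C / (p : ℝ) ^ 2 := by split_ifs <;> positivity
  linarith

theorem bracket : ∃ C₁ : ℝ, 0 ≤ C₁ ∧ ∀ (d : Geo) (W₀ W q₀ : ℕ) (q : Fin 3 → ℕ) (ε η X : ℝ)
    (P : Finset ℕ) (Pi₀ : Finset GaussianInt) (Pi : Fin 3 → Finset GaussianInt),
    d.Ok W₀ W → 1 ≤ X → Fams W q₀ q ε η X P Pi₀ Pi → ∀ χ : ℕ → ℝ, (∀ n, 0 ≤ χ n) →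
    ∀ M : ℕ, 0 < M → W ∣ M → (∀ p ∈ P, p ∣ M) → (∀ ϖ ∈ Pi₀, nrm ϖ ∣ M) →
    (∀ j, ∀ ϖ ∈ Pi j, nrm ϖ ∣ M) → ∀ ϖ ∈ Pi₀, ∀ (h : SL) (μ : GaussianInt),
    act h 1 0 = d.G₀ * μ → (nrm μ).Coprime W₀ →
      nrm ϖ * avT M (innr d W₀ (Rx X) P Pi χ ϖ) h ≤
        χ (nrm (act h 1 0)) *
          avT W (fun h => ∏ j, ind (good (d.G j) W₀ (act h (d.a j * nrm ϖ) (d.b j)))) h *
          (∏ j, sI (Pi j)) *
          (Qf P (Rx X) (nrm μ) + errW P (Rx X) C₁ d.m d.c (nrm d.G₀) (nrm ϖ) (nrm μ)) ∧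
      ((nrm μ).Coprime (nrm ϖ) → (∀ j, ∀ ϖ' ∈ Pi j, (nrm μ).Coprime (nrm ϖ')) →
        χ (nrm (act h 1 0)) *
          avT W (fun h => ∏ j, ind (good (d.G j) W₀ (act h (d.a j * nrm ϖ) (d.b j)))) h *
          (∏ j, sI (Pi j)) *
          (Qf P (Rx X) (nrm μ) - errW P (Rx X) C₁ d.m d.c (nrm d.G₀) (nrm ϖ) (nrm μ)) ≤
        nrm ϖ * avT M (innr d W₀ (Rx X) P Pi χ ϖ) h) := by
  obtain ⟨C, hC0, hC⟩ := local_law
  refine ⟨max (119 ^ 2) (64 * C), le_max_of_le_left (by norm_num), ?_⟩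
  intro d W₀ W q₀ q ε η X P Pi₀ Pi hd hX hF χ hχ M hM hWM hPM hPi₀ hPi ϖ hϖ h μ hμ hμW
  set C₁ : ℝ := max (119 ^ 2) (64 * C) with hC₁
  have hC₁0 : 0 ≤ C₁ := le_max_of_le_left (by norm_num)
  set R := Rx X with hRdef
  have hR : 1 ≤ R := Real.one_le_rpow hX (by norm_num)
  set n := nrm ϖ with hn
  set k := nrm μ with hk
  obtain ⟨Ex, -, -, hP⟩ := hF.good
  have hPp : ∀ p ∈ P, p.Prime := fun p hp => ((hP p).mp hp).1
  have hP4 : ∀ p ∈ P, p % 4 = 1 := fun p hp => ((hP p).mp hp).2.1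
  have hPW : ∀ p ∈ P, ¬ p ∣ W := fun p hp => ((hP p).mp hp).2.2.2.1
  have hW₀ : W₀ ∣ W := (Dvd.intro _ rfl).trans (hd.dvd 0)
  have hA : nrm (act h 1 0) = nrm d.G₀ * k := by rw [hμ, bracket_nrm_mul]
  have hn0 : 0 < n := Nat.pos_of_dvd_of_pos (hPi₀ ϖ hϖ) hM
  have hn0' : (0 : ℝ) < n := by exact_mod_cast hn0
  have copG : ∀ m : ℕ, m.Coprime W → (nrm d.G₀).Coprime m := fun m hm =>
    Nat.coprime_of_dvd fun p hp h1 h2 =>
      hp.one_lt.ne' (Nat.eq_one_of_dvd_coprimes hm h2 ((hd.bad_G p hp h1).trans hW₀))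
  have copb : ∀ (j : Fin 3) (m : ℕ), m.Coprime W → IsCoprime (d.b j) (m : ℤ) := by
    intro j m hm
    rw [Int.isCoprime_iff_gcd_eq_one, Int.gcd_eq_natAbs, Int.natAbs_natCast]
    exact Nat.coprime_of_dvd fun p hp h1 h2 =>
      hp.one_lt.ne' (Nat.eq_one_of_dvd_coprimes hm h2
        ((hd.bad_b p hp j (Int.natCast_dvd.mpr h1)).trans hW₀))
  -- the pieces
  set u : ℤ → ℝ := fun t => ind (star ϖ ∣ act (h * nT t) 0 1) with hu
  set V : SL → ℝ := fun h => ∏ j, ind (good (d.G j) W₀ (act h (d.a j * n) (d.b j))) with hV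
  set w : (Fin 3 → GaussianInt) → Fin 3 → ℤ → ℝ :=
    fun τ j t => ind (τ j ∣ act (h * nT t) (d.a j * n) (d.b j)) with hw
  set N : ℕ → Fin 3 → ℕ := fun t j => nrm (act (h * nT t) (d.a j * n) (d.b j)) with hN
  set f₀ : (Fin 3 → GaussianInt) → ℕ → ℝ :=
    fun τ t => u t * V (h * nT t) * ∏ j, w τ j t with hf₀
  have hVlev : Lev W V := good_lev d hd n
  have hV0 : ∀ g, 0 ≤ V g := fun g => prod_nonneg fun _ _ => bracket_ind_nonneg _
  have hf0 : ∀ τ t, 0 ≤ f₀ τ t := fun τ t =>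
    mul_nonneg (mul_nonneg (bracket_ind_nonneg _) (hV0 _))
      (prod_nonneg fun _ _ => bracket_ind_nonneg _)
  have hwq : ∀ N' : Fin 3 → ℕ, wq P R (nrm (act h 1 0)) N' = wq P R k N' := by
    intro N'
    have : ∀ a, La P R a (nrm (act h 1 0)) = La P R a k := fun a =>
      bracket_La_congr P R a fun p hp => by
        rw [hA]
        exact ⟨fun H => ((hPp p hp).dvd_mul.mp H).resolve_left
          fun H' => hPW p hp ((hd.bad_G p (hPp p hp) H').trans hW₀), fun H => H.mul_left _⟩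
    simp only [wq, this]
  have hexp : avT M (innr d W₀ R P Pi χ ϖ) h = χ (nrm (act h 1 0)) *
      ∑ τ ∈ Fintype.piFinset Pi, (∑ t ∈ range M, f₀ τ t * wq P R k (N t)) / M := by
    rw [← sum_div, sum_comm, avT, ← mul_div_assoc, mul_sum]
    congr 1
    refine sum_congr rfl fun t _ => ?_
    have hg : good d.G₀ W₀ (act h 1 0) := ⟨μ, hμ, hμW⟩
    simp only [innr, bracket_act_one, hwq, prod_mul_distrib, bracket_nu]
    rw [prod_univ_sum, ← sum_mul]
    simp only [hf₀, ← mul_sum]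
    rw [ind, ind, if_pos hg]
    simp only [hu, hV, hw, hN, ind]
    ring
  -- independence
  have hcrt : ∀ τ ∈ Fintype.piFinset Pi, ∀ (P' : Finset ℕ), P' ⊆ P → ∀ g : ℕ → ℤ → ℝ,
      (∀ p ∈ P', ∀ t t', t ≡ t' [ZMOD p] → g p t = g p t') →
      (∑ t ∈ range M, f₀ τ t * ∏ p ∈ P', g p t) / M =
        ((∑ t ∈ range M, u t) / M * ((∑ t ∈ range M, V (h * nT t)) / M) *
          ∏ j, (∑ t ∈ range M, w τ j t) / M) * ∏ p ∈ P', (∑ t ∈ range M, g p t) / M := by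
    intro τ hτ P' hP' g hg
    have hτ' : ∀ j, τ j ∈ Pi j := Fintype.mem_piFinset.mp hτ
    refine bracket_crt n W τ P' (fun p hp => hPp p (hP' hp)) (hF.copW₀ ϖ hϖ)
      (fun j => hF.cop₀ ϖ hϖ j _ (hτ' j)) (fun j => hF.copW j _ (hτ' j))
      (fun j k hjk => hF.cop j k hjk _ (hτ' j) _ (hτ' k))
      (fun p hp => hF.copP₀ p (hP' hp) ϖ hϖ) (fun p hp => hPW p (hP' hp))
      (fun p hp j => hF.copP p (hP' hp) j _ (hτ' j)) hM (hPi₀ ϖ hϖ) hWM
      (fun j => hPi j _ (hτ' j)) (fun p hp => hPM p (hP' hp)) u (fun t => V (h * nT t)) (w τ) g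
      ?_ (fun t t' ht => bracket_per_lev hVlev h ht) ?_ hg
    · intro t t' ht
      have := bracket_per_dvd (star ϖ) h 0 1 (t := t) (t' := t') (by rw [bracket_nrm_star]; exact ht)
      simp only [hu, this]
    · intro j t t' ht
      simp only [hw, bracket_per_dvd (τ j) h _ _ ht]
  have hE : ∀ τ ∈ Fintype.piFinset Pi, (∑ t ∈ range M, f₀ τ t) / M =
      (∑ t ∈ range M, u t) / M * avT W V h * ∏ j, (∑ t ∈ range M, w τ j t) / M := by
    intro τ hτ
    have := hcrt τ hτ ∅ (empty_subset _) (fun _ _ => 1) (by simp)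
    simp only [prod_empty, mul_one] at this
    rw [this, ← avT_eq hVlev hM hd.W_pos hWM dvd_rfl h]
    rfl
  set err := errW P R C₁ d.m d.c (nrm d.G₀) n k with herr
  have hβ := bracket_one_le_beta P hC₁0
    ((nrm d.G₀ * k : ℕ) * Dv d.m d.c ((n * (nrm d.G₀ * k) : ℕ)))
  have hL := bracket_Lstar_nonneg P R k
  have hH : 0 ≤ Hs P R ^ 3 := pow_nonneg (bracket_Hs_nonneg P R) 3
  have herr0 : 0 ≤ err := by
    rw [herr, errW]
    have := sub_nonneg.mpr hβ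
    positivity
  have hmod : ∀ τ ∈ Fintype.piFinset Pi,
      |(∑ t ∈ range M, f₀ τ t * wq P R k (N t)) / M - (∑ t ∈ range M, f₀ τ t) / M * Qf P R k| ≤
        (∑ t ∈ range M, f₀ τ t) / M * err := by
    intro τ hτ
    refine (bracket_model M P (fun p hp => (hPp p hp).two_le) hR k N (f₀ τ) (hf0 τ) ?_
      (fun p => if (p : ℤ) ∣ (nrm (act h 1 0) : ℤ) * Dv d.m d.c ((n * nrm (act h 1 0) : ℕ))
        then C / p else C / (p : ℝ) ^ 2) ?_ (sub_nonneg.mpr hβ) ?_).trans ?_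
    · intro f
      have h1 := hcrt τ hτ P subset_rfl
        (fun p t => f p fun j => p ∣ nrm (act (h * nT t) (d.a j * n) (d.b j))) ?_
      · have h2 := hcrt τ hτ ∅ (empty_subset _) (fun _ _ => 1) (by simp)
        simp only [prod_empty, mul_one] at h2
        rw [card_range, h2]
        exact h1
      · intro p _ t t' ht
        congr 1
        funext j
        exact propext (bracket_per_nrm p h _ _ ht)
    · intro p hp
      exact hC d p (hPp p hp) (hP4 p hp)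
        (fun j H => hPW p hp ((hd.bad_b p (hPp p hp) j H).trans hW₀))
        (fun j H => hPW p hp ((hd.bad_m p (hPp p hp) j H).trans hW₀)) n
        (hF.copP₀ p hp ϖ hϖ) h M hM (hPM p hp)
    · rw [hA]
      exact sub_le_sub_right (bracket_beta_mono P hC0 (le_max_right _ _) _) 1
    · refine mul_le_mul_of_nonneg_left ?_
        (div_nonneg (sum_nonneg fun t _ => hf0 τ t) (Nat.cast_nonneg _))
      rw [herr, errW]
      have := sub_nonneg.mpr hβ
      gcongr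
      exact le_max_left _ _
  -- the forced laws
  have hprim : IsCoprime (star ϖ).re (star ϖ).im := by
    obtain ⟨N₀, -, -, hf⟩ := hF.fam₀
    simpa using (hf.prim ϖ hϖ).neg_right
  have hu' := forced_law (star ϖ) hprim 0 1 isCoprime_one_left h hM
    (by rw [bracket_nrm_star]; exact hPi₀ ϖ hϖ)
  rw [bracket_nrm_star] at hu'
  have hw' : ∀ τ ∈ Fintype.piFinset Pi, ∀ j,
      (∑ t ∈ range M, w τ j t) / M ≤ 1 / nrm (τ j) ∧
      ((nrm (act h 1 0)).Coprime (nrm (τ j)) → (∑ t ∈ range M, w τ j t) / M = 1 / nrm (τ j)) := by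
    intro τ hτ j
    have hτ' : τ j ∈ Pi j := Fintype.mem_piFinset.mp hτ j
    obtain ⟨N₀, -, -, hf⟩ := hF.fam j
    exact forced_law (τ j) (hf.prim _ hτ') (d.a j * n) (d.b j) (copb j _ (hF.copW j _ hτ')) h hM
      (hPi j _ hτ')
  have hδ0 : 0 ≤ avT W V h := div_nonneg (sum_nonneg fun _ _ => hV0 _) (Nat.cast_nonneg _)
  have hsI : ∏ j, sI (Pi j) = ∑ τ ∈ Fintype.piFinset Pi, ∏ j, (1 / nrm (τ j) : ℝ) := by
    simp only [sI]
    rw [prod_univ_sum]
  have hQ := bracket_Qf_nonneg P R k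
  constructor
  · rw [hexp, hsI, mul_left_comm, mul_assoc (χ _), mul_assoc (χ _)]
    refine mul_le_mul_of_nonneg_left ?_ (hχ _)
    rw [mul_sum, mul_sum, sum_mul]
    refine sum_le_sum fun τ hτ => ?_
    have h1 := (abs_le.mp (hmod τ hτ)).2
    have h2 : (∑ t ∈ range M, f₀ τ t) / M ≤ 1 / n * avT W V h * ∏ j, (1 / nrm (τ j) : ℝ) := by
      rw [hE τ hτ]
      have h3 : ∏ j, (∑ t ∈ range M, w τ j t) / M ≤ ∏ j, (1 / nrm (τ j) : ℝ) :=
        prod_le_prod (fun j _ => div_nonneg (sum_nonneg fun _ _ => bracket_ind_nonneg _)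
          (Nat.cast_nonneg _)) fun j _ => (hw' τ hτ j).1
      have h4 : 0 ≤ ∏ j, (∑ t ∈ range M, w τ j t) / M :=
        prod_nonneg fun j _ => div_nonneg (sum_nonneg fun _ _ => bracket_ind_nonneg _)
          (Nat.cast_nonneg _)
      exact mul_le_mul (mul_le_mul_of_nonneg_right hu'.1 hδ0) h3 h4 (by positivity)
    have h5 := mul_le_mul_of_nonneg_right h2 (add_nonneg hQ herr0)
    calc (n : ℝ) * ((∑ t ∈ range M, f₀ τ t * wq P R k (N t)) / M)
        ≤ n * (1 / n * avT W V h * (∏ j, (1 / nrm (τ j) : ℝ)) * (Qf P R k + err)) :=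
          mul_le_mul_of_nonneg_left (by linarith) hn0'.le
      _ = _ := by field_simp
  · intro hc hc'
    rw [hexp, hsI, mul_left_comm, mul_assoc (χ _), mul_assoc (χ _)]
    refine mul_le_mul_of_nonneg_left ?_ (hχ _)
    rw [mul_sum, mul_sum, sum_mul]
    refine sum_le_sum fun τ hτ => ?_
    have hτ' : ∀ j, τ j ∈ Pi j := Fintype.mem_piFinset.mp hτ
    have h1 := (abs_le.mp (hmod τ hτ)).1
    have h2 : (∑ t ∈ range M, f₀ τ t) / M = 1 / n * avT W V h * ∏ j, (1 / nrm (τ j) : ℝ) := by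
      rw [hE τ hτ]
      congr 1
      · congr 1
        refine hu'.2 ?_
        rw [hA]
        exact Nat.Coprime.mul_left (copG _ (hF.copW₀ ϖ hϖ)) hc
      · refine prod_congr rfl fun j _ => (hw' τ hτ j).2 ?_
        rw [hA]
        exact Nat.Coprime.mul_left (copG _ (hF.copW j _ (hτ' j))) (hc' j _ (hτ' j))
    rw [h2] at h1
    calc avT W V h * (∏ j, (1 / nrm (τ j) : ℝ)) * (Qf P R k - err)
        = n * (1 / n * avT W V h * (∏ j, (1 / nrm (τ j) : ℝ)) * (Qf P R k - err)) := by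
          field_simp
      _ ≤ _ := mul_le_mul_of_nonneg_left (by linarith) hn0'.le

end Pool.Agent.P.MP_a1177c_nt.EK
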