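import Pool.Agent.P.MP_a1177c_nt.EK.Defs

set_option autoImplicit false

namespace Pool.Agent.P.MP_a1177c_nt.EK

open Finset Filter
open scoped Classical

theorem crt_shift_nat {M : ℕ} (F : ℤ → ℝ) (hF : ∀ t t', t ≡ t' [ZMOD M] → F t = F t') (c : ℕ) :
    ∑ t ∈ range M, F (t + c) = ∑ t ∈ range M, F t := by
  induction c with
  | zero => simp
  | succ c ih =>
    have h1 := Finset.sum_range_succ (fun t : ℕ => F (t + c)) M
    have h2 := Finset.sum_range_succ' (fun t : ℕ => F (t + c)) M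
    have h3 : F ((M : ℤ) + c) = F (((0 : ℕ) : ℤ) + c) := by
      apply hF
      refine Int.ModEq.add_right _ ?_
      simpa using (Int.modEq_zero_iff_dvd.2 (dvd_refl (M : ℤ)))
    have h4 : ∑ t ∈ range M, F (t + ((c + 1 : ℕ) : ℤ)) =
        ∑ t ∈ range M, F (((t + 1 : ℕ) : ℤ) + c) := by
      refine Finset.sum_congr rfl fun t _ => ?_
      congr 1
      push_cast
      ring
    rw [h4, ← ih]
    linarith

theorem crt_shift {M : ℕ} (hM0 : 0 < M) (F : ℤ → ℝ)
    (hF : ∀ t t', t ≡ t' [ZMOD M] → F t = F t') (c : ℤ) :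
    ∑ t ∈ range M, F (t + c) = ∑ t ∈ range M, F t := by
  rw [← crt_shift_nat F hF (c % M).toNat]
  refine Finset.sum_congr rfl fun t _ => hF _ _ (Int.ModEq.add_left _ ?_)
  have hM : (M : ℤ) ≠ 0 := by exact_mod_cast hM0.ne'
  rw [Int.toNat_of_nonneg (Int.emod_nonneg _ hM)]
  exact (Int.mod_modEq c M).symm

theorem crt_two {M a b : ℕ} (hM0 : 0 < M) (hab : a.Coprime b) (f g : ℤ → ℝ)
    (hfa : ∀ t t', t ≡ t' [ZMOD a] → f t = f t') (hgb : ∀ t t', t ≡ t' [ZMOD b] → g t = g t')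
    (hfM : ∀ t t', t ≡ t' [ZMOD M] → f t = f t') (hgM : ∀ t t', t ≡ t' [ZMOD M] → g t = g t') :
    (∑ t ∈ range M, f t * g t) / M =
      (∑ t ∈ range M, f t) / M * ((∑ t ∈ range M, g t) / M) := by
  obtain ⟨u, v, huv⟩ : IsCoprime (a : ℤ) (b : ℤ) := Nat.isCoprime_iff_coprime.2 hab
  have key : ∀ c : ℤ, ∑ t ∈ range M, f (t + c) * g t = ∑ t ∈ range M, f t * g t := by
    intro c
    rw [← crt_shift hM0 (fun t => f t * g t)
      (fun t t' h => by rw [hfM t t' h, hgM t t' h]) (c * (v * b))]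
    refine Finset.sum_congr rfl fun t _ => ?_
    have e1 : f (t + c) = f (t + c * (v * b)) := by
      apply hfa
      refine Int.ModEq.add_left _ ?_
      refine (Int.modEq_iff_dvd.2 ⟨-(c * u), ?_⟩)
      linear_combination c * huv
    have e2 : g t = g (t + c * (v * b)) := by
      apply hgb
      exact Int.modEq_iff_dvd.2 ⟨c * v, by ring⟩
    rw [e1, e2]
  have h1 : ∑ c ∈ range M, ∑ t ∈ range M, f (t + (c : ℤ)) * g t =
      M * ∑ t ∈ range M, f t * g t := by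
    simp [key]
  have h2 : ∑ c ∈ range M, ∑ t ∈ range M, f (t + (c : ℤ)) * g t =
      (∑ t ∈ range M, f t) * ∑ t ∈ range M, g t := by
    rw [Finset.sum_comm, Finset.mul_sum]
    refine Finset.sum_congr rfl fun t _ => ?_
    rw [← Finset.sum_mul, ← crt_shift hM0 f hfM t]
    congr 1
    exact Finset.sum_congr rfl fun c _ => by rw [add_comm]
  have hM : (M : ℝ) ≠ 0 := by exact_mod_cast hM0.ne'
  field_simp
  linarith

theorem crt₁ {I : Type} (s : Finset I) (m : I → ℕ)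
    (hm : ∀ i ∈ s, ∀ j ∈ s, i ≠ j → (m i).Coprime (m j)) (f : I → ℤ → ℝ)
    (hf : ∀ i ∈ s, ∀ t t', t ≡ t' [ZMOD m i] → f i t = f i t') {M : ℕ} (hM0 : 0 < M)
    (hM : ∀ i ∈ s, m i ∣ M) :
    (∑ t ∈ range M, ∏ i ∈ s, f i t) / M = ∏ i ∈ s, (∑ t ∈ range M, f i t) / M := by
  induction s using Finset.induction_on with
  | empty =>
    have hM' : (M : ℝ) ≠ 0 := by exact_mod_cast hM0.ne'
    simp [hM']
  | insert a s ha ih =>
    have ih' := ih (fun i hi j hj => hm i (mem_insert_of_mem hi) j (mem_insert_of_mem hj))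
      (fun i hi => hf i (mem_insert_of_mem hi)) (fun i hi => hM i (mem_insert_of_mem hi))
    simp only [Finset.prod_insert ha]
    rw [← ih']
    refine crt_two (a := m a) (b := ∏ i ∈ s, m i) hM0 ?_ (f a) (fun t => ∏ i ∈ s, f i t)
      (hf a (mem_insert_self a s)) ?_ ?_ ?_
    · exact Nat.Coprime.prod_right fun i hi =>
        hm a (mem_insert_self a s) i (mem_insert_of_mem hi) (by rintro rfl; exact ha hi)
    · intro t t' h
      refine Finset.prod_congr rfl fun i hi => hf i (mem_insert_of_mem hi) t t' (h.of_dvd ?_)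
      exact_mod_cast Finset.dvd_prod_of_mem m hi
    · intro t t' h
      refine hf a (mem_insert_self a s) t t' (h.of_dvd ?_)
      exact_mod_cast hM a (mem_insert_self a s)
    · intro t t' h
      refine Finset.prod_congr rfl fun i hi => hf i (mem_insert_of_mem hi) t t' (h.of_dvd ?_)
      exact_mod_cast hM i (mem_insert_of_mem hi)

theorem crt₂ {I : Type} (s : Finset I) (m : I → ℕ)
    (hm : ∀ i ∈ s, ∀ j ∈ s, i ≠ j → (m i).Coprime (m j)) (f : I → ℤ → ℤ → ℝ)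
    (hf : ∀ i ∈ s, ∀ t t' u u', t ≡ t' [ZMOD m i] → u ≡ u' [ZMOD m i] → f i t u = f i t' u')
    {M : ℕ} (hM0 : 0 < M) (hM : ∀ i ∈ s, m i ∣ M) :
    (∑ v ∈ range M ×ˢ range M, ∏ i ∈ s, f i v.1 v.2) / (M : ℝ) ^ 2 =
      ∏ i ∈ s, (∑ v ∈ range M ×ˢ range M, f i v.1 v.2) / (M : ℝ) ^ 2 := by
  have e : ∀ F : ℤ → ℤ → ℝ, (∑ v ∈ range M ×ˢ range M, F v.1 v.2) / (M : ℝ) ^ 2 =
      (∑ t ∈ range M, (∑ u ∈ range M, F t u) / M) / M := by
    intro F
    rw [Finset.sum_product, ← Finset.sum_div, div_div, sq]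
  have h1 : ∀ t : ℤ, (∑ u ∈ range M, ∏ i ∈ s, f i t u) / M =
      ∏ i ∈ s, (∑ u ∈ range M, f i t u) / M := fun t =>
    crt₁ s m hm (fun i u => f i t u)
      (fun i hi u u' h => hf i hi t t u u' (Int.ModEq.refl t) h) hM0 hM
  have h2 := crt₁ s m hm (fun i t => (∑ u ∈ range M, f i t u) / M)
    (fun i hi t t' h => by
      have : ∑ u ∈ range M, f i t u = ∑ u ∈ range M, f i t' u :=
        Finset.sum_congr rfl fun u _ => hf i hi t t' u u h (Int.ModEq.refl _)
      rw [this]) hM0 hM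
  rw [e (fun t u => ∏ i ∈ s, f i t u)]
  simp only [h1]
  rw [h2]
  exact Finset.prod_congr rfl fun i _ => (e (f i)).symm

theorem avg_mul₁ {m M : ℕ} (hM0 : 0 < M) (hM : m ∣ M) (f : ℤ → ℝ)
    (hf : ∀ t t', t ≡ t' [ZMOD m] → f t = f t') :
    (∑ t ∈ range M, f t) / M = (∑ t ∈ range m, f t) / m := by
  obtain ⟨k, rfl⟩ := hM
  have hm : (m : ℝ) ≠ 0 := by
    have : m ≠ 0 := by rintro rfl; simp at hM0
    exact_mod_cast this
  have hk : (k : ℝ) ≠ 0 := by
    have : k ≠ 0 := by rintro rfl; simp at hM0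
    exact_mod_cast this
  have key : ∀ k : ℕ, ∑ t ∈ range (m * k), f t = k * ∑ t ∈ range m, f t := by
    intro k
    induction k with
    | zero => simp
    | succ k ih =>
      rw [Nat.mul_succ, Finset.sum_range_add, ih]
      have : ∑ t ∈ range m, f ((m * k + t : ℕ) : ℤ) = ∑ t ∈ range m, f t := by
        refine Finset.sum_congr rfl fun t _ => hf _ _ ?_
        refine (Int.modEq_iff_dvd.2 ⟨-k, ?_⟩)
        push_cast
        ring
      rw [this]
      push_cast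
      ring
  rw [key]
  push_cast
  field_simp

theorem avg_mul₂ {m M : ℕ} (hM0 : 0 < M) (hM : m ∣ M) (f : ℤ → ℤ → ℝ)
    (hf : ∀ t t' u u', t ≡ t' [ZMOD m] → u ≡ u' [ZMOD m] → f t u = f t' u') :
    (∑ v ∈ range M ×ˢ range M, f v.1 v.2) / (M : ℝ) ^ 2 =
      (∑ v ∈ range m ×ˢ range m, f v.1 v.2) / (m : ℝ) ^ 2 := by
  have e : ∀ N : ℕ, (∑ v ∈ range N ×ˢ range N, f v.1 v.2) / (N : ℝ) ^ 2 =
      (∑ t ∈ range N, (∑ u ∈ range N, f t u) / N) / N := by
    intro N
    rw [Finset.sum_product, ← Finset.sum_div, div_div, sq]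
  have h1 : ∀ t : ℤ, (∑ u ∈ range M, f t u) / M = (∑ u ∈ range m, f t u) / m := fun t =>
    avg_mul₁ hM0 hM (f t) fun u u' h => hf t t u u' (Int.ModEq.refl t) h
  rw [e M, e m]
  simp only [h1]
  exact avg_mul₁ hM0 hM (fun t => (∑ u ∈ range m, f t u) / m) fun t t' h => by
    have : ∑ u ∈ range m, f t u = ∑ u ∈ range m, f t' u :=
      Finset.sum_congr rfl fun u _ => hf t t' u u h (Int.ModEq.refl _)
    rw [this]

end Pool.Agent.P.MP_a1177c_nt.EK
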