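import Pool.Agent.P.MP_a1177c_nt.EK.Cset

set_option autoImplicit false

namespace Pool.Agent.P.MP_a1177c_nt.EK

open Finset Filter
open scoped Classical

theorem delta_act (h : SL) (x y : ℤ) :
    act h x y = (x : GaussianInt) * act h 1 0 + (y : GaussianInt) * act h 0 1 := by
  ext <;> simp [act] <;> ring

theorem delta_nrm_mul (x y : GaussianInt) : nrm (x * y) = nrm x * nrm y := by
  simp [nrm, Zsqrtd.norm_mul, Int.natAbs_mul]

theorem delta_nrm_star (x : GaussianInt) : nrm (star x) = nrm x := by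
  simp [nrm, Zsqrtd.norm_conj]

theorem delta_nrm_int (x : GaussianInt) : (nrm x : ℤ) = x.re ^ 2 + x.im ^ 2 := by
  rw [nrm, Int.natAbs_of_nonneg (GaussianInt.norm_nonneg x), Zsqrtd.norm_def]; ring

theorem delta_nrm_cast (x : GaussianInt) : (nrm x : GaussianInt) = x * star x := by
  rw [← Zsqrtd.norm_eq_mul_conj, nrm, ← Int.cast_natCast,
    Int.natAbs_of_nonneg (GaussianInt.norm_nonneg x)]

theorem delta_nrm_nat (u : ℕ) : nrm (u : GaussianInt) = u * u := by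
  have := delta_nrm_int (u : GaussianInt)
  simp only [Zsqrtd.re_natCast, Zsqrtd.im_natCast] at this
  zify; rw [this]; ring

theorem delta_nrm_modEq {M : ℕ} {x y : GaussianInt} (h : (M : GaussianInt) ∣ x - y) :
    nrm x ≡ nrm y [MOD M] := by
  obtain ⟨w, hw⟩ := h
  rw [Nat.modEq_iff_dvd, delta_nrm_int, delta_nrm_int, eq_add_of_sub_eq hw]
  refine ⟨-(M * w.re ^ 2 + 2 * w.re * y.re + M * w.im ^ 2 + 2 * w.im * y.im), ?_⟩
  simp
  ring

theorem delta_cast_dvd {M a b : ℕ} (h : a ≡ b [MOD M]) :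
    (M : GaussianInt) ∣ (a : GaussianInt) - b := by
  obtain ⟨c, hc⟩ := (Nat.modEq_iff_dvd.1 h.symm)
  refine ⟨c, ?_⟩
  exact_mod_cast congrArg (Int.cast : ℤ → GaussianInt) hc

theorem delta_cop {M a b : ℕ} (h : a ≡ b [MOD M]) (hb : b.Coprime M) : a.Coprime M := by
  rw [Nat.Coprime, h.gcd_eq]; exact hb

theorem delta_good_per {G : GaussianInt} {W₀ W : ℕ} (hW : W₀ * nrm G ∣ W) {x y : GaussianInt}
    (h : (W : GaussianInt) ∣ x - y) (hy : good G W₀ y) : good G W₀ x := by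
  obtain ⟨μ, rfl, hμ⟩ := hy
  obtain ⟨w, hw⟩ := h
  obtain ⟨c, rfl⟩ := hW
  refine ⟨μ + W₀ * (star G * c * w), ?_, delta_cop (delta_nrm_modEq ⟨star G * c * w, by ring⟩) hμ⟩
  rw [eq_add_of_sub_eq hw]
  push_cast
  rw [delta_nrm_cast]
  ring

theorem delta_good_mul {G : GaussianInt} {W₀ : ℕ} {z x : GaussianInt} (hz : (nrm z).Coprime W₀)
    (hx : good G W₀ x) : good G W₀ (z * x) := by
  obtain ⟨μ, rfl, hμ⟩ := hx
  exact ⟨z * μ, by ring, by rw [delta_nrm_mul]; exact Nat.Coprime.mul_left hz hμ⟩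

theorem delta_good_iff {G : GaussianInt} {W₀ W : ℕ} (hW : W₀ * nrm G ∣ W) {x y : GaussianInt}
    (h : (W : GaussianInt) ∣ x - y) : good G W₀ x ↔ good G W₀ y :=
  ⟨delta_good_per hW (dvd_sub_comm.1 h), delta_good_per hW h⟩

theorem delta_good_unit {G : GaussianInt} {W₀ W : ℕ} (hW : W₀ * nrm G ∣ W) {z : GaussianInt}
    (hz : nrm z ≡ 1 [MOD W]) (x : GaussianInt) : good G W₀ (z * x) ↔ good G W₀ x := by
  have hc : (nrm z).Coprime W₀ :=
    (delta_cop hz (Nat.coprime_one_left W)).coprime_dvd_right ((dvd_mul_right _ _).trans hW)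
  refine ⟨fun h => ?_, delta_good_mul hc⟩
  have h1 := delta_good_mul (z := star z) (by rwa [delta_nrm_star]) h
  refine delta_good_per hW ?_ h1
  have h2 := delta_cast_dvd hz.symm
  rw [delta_nrm_cast] at h2
  have e : x - star z * (z * x) = (((1 : ℕ) : GaussianInt) - z * star z) * x := by
    push_cast; ring
  rw [e]
  exact h2.mul_right x

theorem delta_shift {W : ℕ} (s : ℤ) : ∀ f : ℤ → ℝ, (∀ t, f (t + W) = f t) →
    ∑ t ∈ range W, f (t + s) = ∑ t ∈ range W, f t := by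
  have one : ∀ f : ℤ → ℝ, (∀ t, f (t + W) = f t) →
      ∑ t ∈ range W, f (t + 1) = ∑ t ∈ range W, f t := by
    intro f hf
    have h1 := Finset.sum_range_succ (fun t : ℕ => f t) W
    have h2 := Finset.sum_range_succ' (fun t : ℕ => f t) W
    have h3 := hf 0
    push_cast at h2
    rw [zero_add] at h3
    linarith
  induction s using Int.induction_on with
  | zero => intro f _; simp
  | succ i ih =>
    intro f hf
    rw [← ih f hf, ← one (fun t => f (t + i)) fun t => by rw [add_right_comm, hf]]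
    exact Finset.sum_congr rfl fun t _ => by congr 1; ring
  | pred i ih =>
    intro f hf
    rw [← ih f hf, ← one (fun t => f (t + (-i - 1))) fun t => by rw [add_right_comm, hf]]
    exact Finset.sum_congr rfl fun t _ => by congr 1; ring

/-- The condition modulo `W` as a function of the two columns. -/
noncomputable def deltaF (d : Geo) (W₀ : ℕ) (n : ℤ) (ν v : GaussianInt) : ℝ :=
  ∏ j, ind (good (d.G j) W₀ (((d.a j * n : ℤ) : GaussianInt) * ν + (d.b j : GaussianInt) * v))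

/-- Its average over the shifts of the second column. -/
noncomputable def deltaD (d : Geo) (W₀ W : ℕ) (n : ℤ) (ν v : GaussianInt) : ℝ :=
  (∑ t ∈ range W, deltaF d W₀ n ν (v + ((t : ℤ) : GaussianInt) * ν)) / W

def deltaDet (ν v : GaussianInt) : ℤ := ν.re * v.im - ν.im * v.re

theorem deltaF_nonneg (d : Geo) (W₀ : ℕ) (n : ℤ) (ν v : GaussianInt) : 0 ≤ deltaF d W₀ n ν v :=
  Finset.prod_nonneg fun j _ => by unfold ind; split_ifs <;> norm_num

theorem deltaF_le (d : Geo) (W₀ : ℕ) (n : ℤ) (ν v : GaussianInt) : deltaF d W₀ n ν v ≤ 1 :=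
  Finset.prod_le_one (fun j _ => by unfold ind; split_ifs <;> norm_num)
    fun j _ => by unfold ind; split_ifs <;> norm_num

theorem deltaF_per {d : Geo} {W₀ W : ℕ} (hd : d.Ok W₀ W) {n n' : ℤ} (hn : (W : ℤ) ∣ n - n')
    {ν ν' v v' : GaussianInt} (h1 : (W : GaussianInt) ∣ ν - ν') (h2 : (W : GaussianInt) ∣ v - v') :
    deltaF d W₀ n ν v = deltaF d W₀ n' ν' v' := by
  refine Finset.prod_congr rfl fun j _ => ?_
  rw [delta_good_iff (hd.dvd j)]
  obtain ⟨c, hc⟩ := hn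
  obtain ⟨w, hw⟩ := h1
  obtain ⟨u, hu⟩ := h2
  rw [eq_add_of_sub_eq hc, eq_add_of_sub_eq hw, eq_add_of_sub_eq hu]
  refine ⟨d.a j * (c * (W * w + ν') + n' * w) + d.b j * u, ?_⟩
  push_cast
  ring

theorem deltaF_unit {d : Geo} {W₀ W : ℕ} (hd : d.Ok W₀ W) (n : ℤ) {z : GaussianInt}
    (hz : nrm z ≡ 1 [MOD W]) (ν v : GaussianInt) :
    deltaF d W₀ n (z * ν) (z * v) = deltaF d W₀ n ν v := by
  refine Finset.prod_congr rfl fun j _ => ?_
  rw [← delta_good_unit (hd.dvd j) hz (_ * ν + _ * v)]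
  congr 2
  ring

theorem deltaD_per {d : Geo} {W₀ W : ℕ} (hd : d.Ok W₀ W) {n n' : ℤ} (hn : (W : ℤ) ∣ n - n')
    {ν ν' v v' : GaussianInt} (h1 : (W : GaussianInt) ∣ ν - ν') (h2 : (W : GaussianInt) ∣ v - v') :
    deltaD d W₀ W n ν v = deltaD d W₀ W n' ν' v' := by
  unfold deltaD
  congr 1
  refine Finset.sum_congr rfl fun t _ => deltaF_per hd hn h1 ?_
  have e : v + ((t : ℤ) : GaussianInt) * ν - (v' + ((t : ℤ) : GaussianInt) * ν') =
      (v - v') + ((t : ℤ) : GaussianInt) * (ν - ν') := by ring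
  rw [e]
  exact h2.add (h1.mul_left _)

theorem deltaD_unit {d : Geo} {W₀ W : ℕ} (hd : d.Ok W₀ W) (n : ℤ) {z : GaussianInt}
    (hz : nrm z ≡ 1 [MOD W]) (ν v : GaussianInt) :
    deltaD d W₀ W n (z * ν) (z * v) = deltaD d W₀ W n ν v := by
  unfold deltaD
  congr 1
  refine Finset.sum_congr rfl fun t _ => ?_
  rw [← deltaF_unit hd n hz ν]
  congr 1
  ring

theorem deltaD_shift {d : Geo} {W₀ W : ℕ} (hd : d.Ok W₀ W) (n : ℤ) (ν v : GaussianInt) (s : ℤ) :
    deltaD d W₀ W n ν (v + (s : GaussianInt) * ν) = deltaD d W₀ W n ν v := by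
  unfold deltaD
  congr 1
  rw [← delta_shift s (fun t => deltaF d W₀ n ν (v + (t : GaussianInt) * ν)) fun t =>
    deltaF_per hd (by simp) (by simp) ⟨ν, by push_cast; ring⟩]
  refine Finset.sum_congr rfl fun t _ => ?_
  congr 1
  push_cast
  ring

theorem deltaD_snd {d : Geo} {W₀ W : ℕ} (hd : d.Ok W₀ W) (n : ℤ) {ν v v' : GaussianInt}
    (h1 : (W : ℤ) ∣ deltaDet ν v - 1) (h2 : (W : ℤ) ∣ deltaDet ν v' - 1) :
    deltaD d W₀ W n ν v' = deltaD d W₀ W n ν v := by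
  rw [← deltaD_shift hd n ν v (deltaDet v' v)]
  refine deltaD_per hd (by simp) (by simp) ?_
  obtain ⟨c, hc⟩ := h1
  obtain ⟨c', hc'⟩ := h2
  refine ⟨c' * v - c * v', ?_⟩
  unfold deltaDet at *
  ext
  · simp
    linear_combination (-v'.re) * hc + v.re * hc'
  · simp
    linear_combination (-v'.im) * hc + v.im * hc'

theorem deltaDet_mul (z ν v : GaussianInt) :
    deltaDet (z * ν) (z * v) = nrm z * deltaDet ν v := by
  rw [delta_nrm_int]
  simp [deltaDet]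
  ring

theorem deltaDet_per {W : ℕ} {ν ν' : GaussianInt} (h : (W : GaussianInt) ∣ ν - ν')
    (v : GaussianInt) : (W : ℤ) ∣ deltaDet ν v - deltaDet ν' v := by
  obtain ⟨w, hw⟩ := h
  rw [eq_add_of_sub_eq hw]
  refine ⟨deltaDet w v, ?_⟩
  simp [deltaDet]
  ring

theorem delta_inv {W k : ℕ} (hW : 0 < W) (hk : k.Coprime W) : ∃ u : ℕ, k * u ≡ 1 [MOD W] := by
  obtain ⟨u, hu⟩ := Nat.exists_mul_mod_eq_of_coprime 1 hk hW.ne'
  first
    | exact ⟨u, hu⟩
    | exact ⟨u, hu.2⟩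

/-- The average only depends on the norm. -/
theorem deltaD_norm {d : Geo} {W₀ W : ℕ} (hd : d.Ok W₀ W) (n : ℤ) {μ μ' v v' : GaussianInt}
    (hc : (nrm μ).Coprime W) (he : nrm μ' ≡ nrm μ [MOD W])
    (h1 : (W : ℤ) ∣ deltaDet (d.G₀ * μ) v - 1) (h2 : (W : ℤ) ∣ deltaDet (d.G₀ * μ') v' - 1) :
    deltaD d W₀ W n (d.G₀ * μ') v' = deltaD d W₀ W n (d.G₀ * μ) v := by
  obtain ⟨u, hu⟩ := delta_inv hd.W_pos hc
  set z : GaussianInt := μ' * star μ * u with hz
  have hz1 : nrm z ≡ 1 [MOD W] := by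
    rw [hz, delta_nrm_mul, delta_nrm_mul, delta_nrm_star, delta_nrm_nat]
    have h3 := ((he.mul_right u).trans hu).mul hu
    rw [mul_one] at h3
    convert h3 using 1
    ring
  have hz2 : (W : GaussianInt) ∣ z * (d.G₀ * μ) - d.G₀ * μ' := by
    have h3 := delta_cast_dvd hu
    push_cast at h3
    rw [delta_nrm_cast] at h3
    have e : z * (d.G₀ * μ) - d.G₀ * μ' = (μ * star μ * u - 1) * (d.G₀ * μ') := by
      rw [hz]; ring
    rw [e]
    exact h3.mul_right _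
  rw [← deltaD_unit hd n hz1 (d.G₀ * μ) v, deltaD_per hd (n' := n) (by simp) hz2 (v' := z * v)
    (by simp)]
  refine deltaD_snd hd n ?_ h2
  have h3 := deltaDet_per hz2 (z * v)
  rw [deltaDet_mul] at h3
  have h4 : (W : ℤ) ∣ (nrm z : ℤ) - 1 := by
    simpa using Nat.modEq_iff_dvd.1 hz1.symm
  have e : deltaDet (d.G₀ * μ') (z * v) - 1 =
      (((nrm z : ℤ) - 1) * deltaDet (d.G₀ * μ) v + (deltaDet (d.G₀ * μ) v - 1)) -
        ((nrm z : ℤ) * deltaDet (d.G₀ * μ) v - deltaDet (d.G₀ * μ') (z * v)) := by ring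
  rw [e]
  exact ((h4.mul_right _).add h1).sub h3

theorem delta_det (h : SL) : deltaDet (act h 1 0) (act h 0 1) = 1 := by
  have := h.det_coe
  rw [Matrix.det_fin_two] at this
  simp [deltaDet, act]
  linarith

theorem delta_avT (d : Geo) (W₀ W : ℕ) (n : ℤ) (h : SL) :
    avT W (fun h => ∏ j, ind (good (d.G j) W₀ (act h (d.a j * n) (d.b j)))) h =
      deltaD d W₀ W n (act h 1 0) (act h 0 1) := by
  unfold avT deltaD deltaF
  congr 1
  refine Finset.sum_congr rfl fun t _ => Finset.prod_congr rfl fun j _ => ?_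
  rw [act_nT, delta_act]
  congr 2
  push_cast
  ring

theorem delta_copW {d : Geo} {W₀ W : ℕ} (hd : d.Ok W₀ W) {k : ℕ} (hk : k.Coprime W₀) :
    k.Coprime W :=
  Nat.Coprime.symm <| Nat.coprime_of_dvd fun p hp h1 h2 =>
    hp.one_lt.ne' (Nat.eq_one_of_dvd_coprimes hk h2 (hd.rad p hp h1))

theorem delta (d : Geo) {W₀ W : ℕ} (hd : d.Ok W₀ W) (n₀ : ℕ) (ϖ₀ : GaussianInt)
    (h₀ : nrm ϖ₀ ≡ n₀ [MOD W]) (hc : n₀.Coprime W) :
    ∃ δ, Del W δ ∧ (∃ μ, 1 / (W : ℝ) ≤ δ (nrm μ)) ∧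
      ∀ (h : SL) (n : ℕ) (μ : GaussianInt), n ≡ n₀ [MOD W] → act h 1 0 = d.G₀ * μ →
        (nrm μ).Coprime W₀ →
        avT W (fun h => ∏ j, ind (good (d.G j) W₀ (act h (d.a j * n) (d.b j)))) h =
          δ (nrm μ) := by
  have hW : (0 : ℝ) < W := by exact_mod_cast hd.W_pos
  set Q : ℕ → GaussianInt × GaussianInt → Prop := fun r x =>
    (nrm x.1).Coprime W ∧ nrm x.1 % W = r ∧ (W : ℤ) ∣ deltaDet (d.G₀ * x.1) x.2 - 1 with hQ
  set e : ℕ → ℝ := fun r =>
    if h : ∃ x, Q r x then deltaD d W₀ W n₀ (d.G₀ * h.choose.1) h.choose.2 else 0 with he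
  have key : ∀ μ v : GaussianInt, (nrm μ).Coprime W → (W : ℤ) ∣ deltaDet (d.G₀ * μ) v - 1 →
      e (nrm μ % W) = deltaD d W₀ W n₀ (d.G₀ * μ) v := by
    intro μ v h1 h2
    have h3 : ∃ x, Q (nrm μ % W) x := ⟨(μ, v), h1, rfl, h2⟩
    simp only [he]
    rw [dif_pos h3]
    exact deltaD_norm hd _ h1 h3.choose_spec.2.1 h2 h3.choose_spec.2.2
  refine ⟨fun k => e (k % W), ⟨fun k => ?_, fun k => ?_, fun k m h => ?_, fun k h => ?_⟩, ?_, ?_⟩
  · simp only [he]
    split_ifs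
    · exact div_nonneg (Finset.sum_nonneg fun t _ => deltaF_nonneg _ _ _ _ _) hW.le
    · exact le_rfl
  · simp only [he]
    split_ifs
    · unfold deltaD
      rw [div_le_one hW]
      simpa using Finset.sum_le_card_nsmul (range W) _ 1 fun t _ => deltaF_le d W₀ n₀ _ _
    · exact zero_le_one
  · have : k % W = m % W := h
    simp only [this]
  · simp only [he] at h
    split_ifs at h with h1
    · obtain ⟨x, h2, h3, -⟩ := h1
      exact delta_cop h3.symm h2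
    · exact absurd rfl h
  · obtain ⟨g, ⟨μ₀, hμ₀, hμ₁⟩, hg⟩ := hd.sol
    obtain ⟨u, hu⟩ := delta_inv hd.W_pos hc
    have hϖ : (nrm ϖ₀).Coprime W := delta_cop h₀ hc
    have hu1 : u.Coprime W :=
      Nat.Coprime.coprime_mul_left (delta_cop hu (Nat.coprime_one_left W))
    refine ⟨star ϖ₀ * μ₀ * u, ?_⟩
    have h1 : (nrm (star ϖ₀ * μ₀ * u)).Coprime W := by
      rw [delta_nrm_mul, delta_nrm_mul, delta_nrm_star, delta_nrm_nat]
      exact (hϖ.mul_left (delta_copW hd hμ₁)).mul_left (hu1.mul_left hu1)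
    have h2 : (W : ℤ) ∣ deltaDet (d.G₀ * (star ϖ₀ * μ₀ * u)) (star ϖ₀ * act g 0 1) - 1 := by
      have e1 : d.G₀ * (star ϖ₀ * μ₀ * u) = star ϖ₀ * (u * act g 1 0) := by rw [hμ₀]; ring
      have e2 : deltaDet (u * act g 1 0) (act g 0 1) = u := by
        have := delta_det g
        simp only [deltaDet] at this ⊢
        simp
        linear_combination (u : ℤ) * this
      rw [e1, deltaDet_mul, delta_nrm_star, e2]
      simpa using Nat.modEq_iff_dvd.1 ((h₀.mul_right u).trans hu).symm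
    show 1 / (W : ℝ) ≤ e (nrm (star ϖ₀ * μ₀ * u) % W)
    rw [key _ _ h1 h2]
    unfold deltaD
    refine div_le_div_of_nonneg_right ?_ hW.le
    refine le_trans ?_ (Finset.single_le_sum (fun t _ => deltaF_nonneg _ _ _ _ _)
      (mem_range.2 hd.W_pos))
    refine (Finset.prod_eq_one fun j _ => ?_).ge
    unfold ind
    rw [if_pos]
    have hW₀ : W₀ ∣ W := (dvd_mul_right _ _).trans (hd.dvd j)
    refine delta_good_per (hd.dvd j) ?_ (delta_good_mul (z := star ϖ₀)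
      (by rw [delta_nrm_star]; exact hϖ.coprime_dvd_right hW₀) (hg j))
    obtain ⟨c, hc⟩ := delta_cast_dvd hu
    rw [delta_act g (d.a j), hμ₀]
    refine ⟨c * (d.a j * (star ϖ₀ * d.G₀ * μ₀)), ?_⟩
    push_cast at hc ⊢
    linear_combination (d.a j * (star ϖ₀ * d.G₀ * μ₀) : GaussianInt) * hc
  · intro h n μ hn hμ hμ'
    show _ = e (nrm μ % W)
    rw [key μ (act h 0 1) (delta_copW hd hμ') (by rw [← hμ, delta_det]; simp), delta_avT, hμ]
    exact deltaD_per hd (Nat.modEq_iff_dvd.1 hn.symm) (by simp) (by simp)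

theorem good_lev (d : Geo) {W₀ W : ℕ} (hd : d.Ok W₀ W) (n : ℤ) :
    Lev W fun h => ∏ j, ind (good (d.G j) W₀ (act h (d.a j * n) (d.b j))) := by
  intro h γ hγ
  refine Finset.prod_congr rfl fun j _ => ?_
  rw [delta_good_iff (hd.dvd j)]
  obtain ⟨h1, h2, h3, h4⟩ := CongruenceSubgroup.Gamma_mem.1 hγ
  have k1 : (W : ℤ) ∣ γ 0 0 - 1 := by
    rw [← ZMod.intCast_zmod_eq_zero_iff_dvd]; push_cast; rw [h1, sub_self]
  have k2 : (W : ℤ) ∣ γ 0 1 := by rwa [← ZMod.intCast_zmod_eq_zero_iff_dvd]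
  have k3 : (W : ℤ) ∣ γ 1 0 := by rwa [← ZMod.intCast_zmod_eq_zero_iff_dvd]
  have k4 : (W : ℤ) ∣ γ 1 1 - 1 := by
    rw [← ZMod.intCast_zmod_eq_zero_iff_dvd]; push_cast; rw [h4, sub_self]
  obtain ⟨c1, e1⟩ := k1
  obtain ⟨c2, e2⟩ := k2
  obtain ⟨c3, e3⟩ := k3
  obtain ⟨c4, e4⟩ := k4
  refine ⟨act h (c1 * (d.a j * n) + c2 * d.b j) (c3 * (d.a j * n) + c4 * d.b j), ?_⟩
  ext
  · simp [act, Matrix.mul_apply, Fin.sum_univ_two]
    linear_combination h 0 0 * (d.a j * n) * e1 + h 0 0 * d.b j * e2 +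
      h 0 1 * (d.a j * n) * e3 + h 0 1 * d.b j * e4
  · simp [act, Matrix.mul_apply, Fin.sum_univ_two]
    linear_combination h 1 0 * (d.a j * n) * e1 + h 1 0 * d.b j * e2 +
      h 1 1 * (d.a j * n) * e3 + h 1 1 * d.b j * e4

theorem good_congr (d : Geo) {W₀ W : ℕ} (hd : d.Ok W₀ W) {n n' : ℤ} (hn : n ≡ n' [ZMOD W])
    (h : SL) (j : Fin 3) : good (d.G j) W₀ (act h (d.a j * n) (d.b j)) ↔
      good (d.G j) W₀ (act h (d.a j * n') (d.b j)) := by
  refine delta_good_iff (hd.dvd j) ?_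
  obtain ⟨c, hc⟩ := hn.symm.dvd
  rw [delta_act h (d.a j * n), delta_act h (d.a j * n'), eq_add_of_sub_eq hc]
  refine ⟨d.a j * c * act h 1 0, ?_⟩
  push_cast
  ring

end Pool.Agent.P.MP_a1177c_nt.EK
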