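import Pool.Agent.P.MP_a1177c_nt.EK.Defs

set_option autoImplicit false

namespace Pool.Agent.P.MP_a1177c_nt.EK

open Finset Filter
open scoped Classical

/-- A sum over an initial segment, written as a plain recursion. -/
def numericsLoop (f : ℕ → ℕ) (n : ℕ) : ℕ := Nat.rec 0 (fun j acc => acc + f j) n

theorem numericsLoop_eq (f : ℕ → ℕ) (n : ℕ) : numericsLoop f n = ∑ j ∈ range n, f j := by
  induction n with
  | zero => rfl
  | succ n ih =>
    rw [sum_range_succ, ← ih]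
    rfl

/-- The cell condition as a Boolean. -/
def numericsIn (i j : ℕ) : Bool :=
  Nat.ble 1 i && Nat.ble (i + 1) j && Nat.ble (i + 1 + 2 * (j + 1)) 582

theorem numerics_sum_cells (f : ℕ → ℕ → ℕ) :
    ∑ c ∈ cells, f c.1 c.2 =
      numericsLoop (fun i => numericsLoop (fun j => bif numericsIn i j then f i j else 0) 291)
        194 := by
  rw [numericsLoop_eq, cells, sum_filter, sum_product]
  symm
  refine sum_subset_zero_on_sdiff (range_subset_range.mpr (by norm_num)) ?_ ?_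
  · intro i hi
    have hi' : 194 ≤ i := by
      have := (mem_sdiff.mp hi).2
      rw [mem_range] at this
      omega
    refine sum_eq_zero fun j _ => if_neg ?_
    simp only
    omega
  intro i _
  rw [numericsLoop_eq]
  refine sum_subset_zero_on_sdiff (range_subset_range.mpr (by norm_num)) ?_ ?_
  · intro j hj
    have hj' : 291 ≤ j := by
      have := (mem_sdiff.mp hj).2
      rw [mem_range] at this
      omega
    refine if_neg ?_
    simp only
    omega
  intro j _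
  by_cases h : 1 ≤ i ∧ i < j ∧ i + 1 + 2 * (j + 1) ≤ 582
  · have hb : numericsIn i j = true := by
      simp only [numericsIn, Bool.and_eq_true, Nat.ble_eq]
      omega
    rw [if_pos h, hb]
    rfl
  · have hb : numericsIn i j = false := by
      rw [Bool.eq_false_iff]
      intro hb
      simp only [numericsIn, Bool.and_eq_true, Nat.ble_eq] at hb
      omega
    rw [if_neg h, hb]
    rfl

/-- The step function with given steps. -/
def numericsPhi (t₀ t₁ t₂ t₃ k : ℕ) : ℕ :=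
  t₀ * min 12 k + t₁ * min 12 (k - 12) + t₂ * min 12 (k - 24) + t₃ * min 12 (k - 36)

def numericsG (i j : ℕ) (t : ℕ × ℕ × ℕ × ℕ) : ℕ :=
  (numericsPhi t.1 t.2.1 t.2.2.1 t.2.2.2 i + numericsPhi t.1 t.2.1 t.2.2.1 t.2.2.2 j -
    numericsPhi t.1 t.2.1 t.2.2.1 t.2.2.2 (i + 1 + j)) ^ 2

def numericsT (α : Fin 3 → Fin 4) : ℕ × ℕ × ℕ × ℕ := (F3 0 α, F3 1 α, F3 2 α, F3 3 α)

theorem numerics_PhiN (α : Fin 3 → Fin 4) (k : ℕ) :
    PhiN α k = numericsPhi (F3 0 α) (F3 1 α) (F3 2 α) (F3 3 α) k := by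
  rw [PhiN, Fin.sum_univ_four]
  rfl

theorem numerics_classes :
    (univ : Finset (Fin 3 → Fin 4)).val.map numericsT =
      Multiset.replicate 1 (10, 7, 4, 2) + Multiset.replicate 3 (7, 4, 2, 0) +
        Multiset.replicate 6 (4, 2, 0, 0) + Multiset.replicate 9 (2, 0, 0, 0) +
        Multiset.replicate 1 (2, 1, 0, 0) + Multiset.replicate 44 (0, 0, 0, 0) := by
  decide +kernel

theorem numerics_sum_classes (G : ℕ × ℕ × ℕ × ℕ → ℕ) :
    ∑ α : Fin 3 → Fin 4, G (numericsT α) =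
      G (10, 7, 4, 2) + 3 * G (7, 4, 2, 0) + 6 * G (4, 2, 0, 0) + 9 * G (2, 0, 0, 0) +
        G (2, 1, 0, 0) + 44 * G (0, 0, 0, 0) := by
  have h : ∑ α : Fin 3 → Fin 4, G (numericsT α) =
      (((univ : Finset (Fin 3 → Fin 4)).val.map numericsT).map G).sum := by
    rw [Multiset.map_map]
    rfl
  rw [h, numerics_classes]
  simp only [Multiset.map_add, Multiset.sum_add, Multiset.map_replicate, Multiset.sum_replicate,
    smul_eq_mul, one_mul]

/-- Closed form of `Vsq`. -/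
def numericsV (i j : ℕ) : ℕ :=
  numericsG i j (10, 7, 4, 2) + 3 * numericsG i j (7, 4, 2, 0) + 6 * numericsG i j (4, 2, 0, 0) +
    9 * numericsG i j (2, 0, 0, 0) + numericsG i j (2, 1, 0, 0)

theorem numerics_Vsq (c : ℕ × ℕ) : Vsq c = numericsV c.1 c.2 := by
  have h : Vsq c = ∑ α : Fin 3 → Fin 4, numericsG c.1 c.2 (numericsT α) := by
    rw [Vsq]
    refine sum_congr rfl fun α _ => ?_
    rw [numerics_PhiN, numerics_PhiN, numerics_PhiN]
    rfl
  rw [h, numerics_sum_classes, numericsV]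
  simp [numericsG, numericsPhi]

/-- The denominator of `wc`. -/
def numericsD (i j : ℕ) : ℕ := (2 * i + 1) * (2 * j + 1) * (584 - i - j)

theorem numerics_wc (i j : ℕ) (h4 : i + j < 584) :
    0 < numericsD i j ∧ wc (i, j) = 4 / (numericsD i j : ℝ) := by
  have h5 : ((584 - i - j : ℕ) : ℝ) = 584 - (i : ℝ) - j := by
    rw [Nat.cast_sub (by omega), Nat.cast_sub (by omega)]
    norm_num
  refine ⟨Nat.mul_pos (Nat.mul_pos (by omega) (by omega)) (by omega), ?_⟩
  have h6 : (0 : ℝ) < 584 - (i : ℝ) - j := by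
    rw [← h5]
    exact_mod_cast (by omega : 0 < 584 - i - j)
  rw [wc, numericsD, Nat.cast_mul, Nat.cast_mul, h5]
  push_cast
  have h7 : (0 : ℝ) < 2 * (i : ℝ) + 1 := by positivity
  have h8 : (0 : ℝ) < 2 * (j : ℝ) + 1 := by positivity
  field_simp
  norm_num

theorem numerics_filter (s : Finset (ℕ × ℕ)) :
    ∀ c ∈ s.filter fun c => 1 ≤ c.1 ∧ c.1 < c.2 ∧ c.1 + 1 + 2 * (c.2 + 1) ≤ 582,
      c.1 + c.2 < 584 := by
  intro c hc
  have h := (mem_filter.mp hc).2
  omega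

theorem numerics_cells : ∀ c ∈ cells, c.1 + c.2 < 584 :=
  numerics_filter (range 582 ×ˢ range 582)

/-- The block sums `min 12 (k - 12 a)` combined over the three arguments. -/
def numericsM (k s : ℕ) : ℕ := Nat.sub (Nat.sub k s) (Nat.sub k (Nat.add s 12))

theorem numericsM_eq (k s : ℕ) : numericsM k s = min 12 (k - s) := by
  simp only [numericsM, Nat.sub_eq, Nat.add_eq]
  omega

/-- A faster form of the square attached to one class. -/
def numericsH (u v w : ℕ) : ℕ := Nat.mul (Nat.sub (Nat.add u v) w) (Nat.sub (Nat.add u v) w)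

/-- A faster form of `numericsV` in terms of the block sums. -/
def numericsW (a₀ a₁ a₂ a₃ b₀ b₁ b₂ b₃ c₀ c₁ c₂ c₃ : ℕ) : ℕ :=
  numericsH (10 * a₀ + 7 * a₁ + 4 * a₂ + 2 * a₃) (10 * b₀ + 7 * b₁ + 4 * b₂ + 2 * b₃)
      (10 * c₀ + 7 * c₁ + 4 * c₂ + 2 * c₃) +
    3 * numericsH (7 * a₀ + 4 * a₁ + 2 * a₂) (7 * b₀ + 4 * b₁ + 2 * b₂)
      (7 * c₀ + 4 * c₁ + 2 * c₂) +
    6 * numericsH (4 * a₀ + 2 * a₁) (4 * b₀ + 2 * b₁) (4 * c₀ + 2 * c₁) +
    9 * numericsH (2 * a₀) (2 * b₀) (2 * c₀) +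
    numericsH (2 * a₀ + a₁) (2 * b₀ + b₁) (2 * c₀ + c₁)

theorem numericsV_eq (i j : ℕ) : numericsV i j =
    numericsW (numericsM i 0) (numericsM i 12) (numericsM i 24) (numericsM i 36)
      (numericsM j 0) (numericsM j 12) (numericsM j 24) (numericsM j 36)
      (numericsM (i + 1 + j) 0) (numericsM (i + 1 + j) 12) (numericsM (i + 1 + j) 24)
      (numericsM (i + 1 + j) 36) := by
  simp only [numericsV, numericsW, numericsG, numericsH, numericsPhi, numericsM_eq, Nat.sub_eq,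
    Nat.add_eq, Nat.mul_eq, Nat.sub_zero, zero_mul, add_zero, one_mul, sq]

theorem numerics_low_nat :
    1660000000 ≤ ∑ c ∈ cells, numericsV c.1 c.2 * 4000000 / numericsD c.1 c.2 := by
  rw [numerics_sum_cells fun i j => numericsV i j * 4000000 / numericsD i j]
  simp only [numericsV_eq]
  decide +kernel

theorem numerics_up_nat :
    ∑ c ∈ cells, (4000000 / numericsD c.1 c.2 + 1) ≤ 100000000 := by
  rw [numerics_sum_cells fun i j => 4000000 / numericsD i j + 1]
  decide +kernel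

theorem numerics_low_gen (s : Finset (ℕ × ℕ)) (hs : ∀ c ∈ s, c.1 + c.2 < 584)
    (h : 1660000000 ≤ ∑ c ∈ s, numericsV c.1 c.2 * 4000000 / numericsD c.1 c.2) :
    (1660 : ℝ) ≤ ∑ c ∈ s, (Vsq c : ℝ) * wc c := by
  have h1 : ((1660000000 : ℕ) : ℝ) ≤
      ∑ c ∈ s, ((numericsV c.1 c.2 * 4000000 / numericsD c.1 c.2 : ℕ) : ℝ) := by
    rw [← Nat.cast_sum]
    exact Nat.cast_le.mpr h
  have h2 : ∑ c ∈ s, ((numericsV c.1 c.2 * 4000000 / numericsD c.1 c.2 : ℕ) : ℝ) ≤
      ∑ c ∈ s, 1000000 * ((Vsq c : ℝ) * wc c) := by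
    refine sum_le_sum fun c hc => ?_
    obtain ⟨-, hw⟩ := numerics_wc c.1 c.2 (hs c hc)
    rw [hw, numerics_Vsq]
    refine Nat.cast_div_le.trans (le_of_eq ?_)
    push_cast
    ring
  rw [← mul_sum] at h2
  have h6 : ((1660000000 : ℕ) : ℝ) = 1000000 * 1660 := by norm_num
  rw [h6] at h1
  linarith

theorem numerics_up_gen (s : Finset (ℕ × ℕ)) (hs : ∀ c ∈ s, c.1 + c.2 < 584)
    (h : ∑ c ∈ s, (4000000 / numericsD c.1 c.2 + 1) ≤ 100000000) :
    ∑ c ∈ s, wc c ≤ 100 := by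
  have h1 : ∑ c ∈ s, ((4000000 / numericsD c.1 c.2 + 1 : ℕ) : ℝ) ≤
      ((100000000 : ℕ) : ℝ) := by
    rw [← Nat.cast_sum]
    exact Nat.cast_le.mpr h
  have h2 : ∑ c ∈ s, 1000000 * wc c ≤
      ∑ c ∈ s, ((4000000 / numericsD c.1 c.2 + 1 : ℕ) : ℝ) := by
    refine sum_le_sum fun c hc => ?_
    obtain ⟨hD, hw⟩ := numerics_wc c.1 c.2 (hs c hc)
    have hD' : (0 : ℝ) < numericsD c.1 c.2 := by exact_mod_cast hD
    have h3 : 4000000 < (4000000 / numericsD c.1 c.2 + 1) * numericsD c.1 c.2 := by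
      have := Nat.lt_div_mul_add (a := 4000000) hD
      rw [add_mul, one_mul]
      exact this
    have h4 : ((4000000 : ℕ) : ℝ) <
        ((4000000 / numericsD c.1 c.2 + 1 : ℕ) : ℝ) * numericsD c.1 c.2 := by
      rw [← Nat.cast_mul]
      exact Nat.cast_lt.mpr h3
    rw [hw, ← mul_div_assoc, div_le_iff₀ hD']
    have h5 : ((4000000 : ℕ) : ℝ) = 1000000 * 4 := by norm_num
    rw [← h5]
    exact h4.le
  rw [← mul_sum] at h2
  have h6 : ((100000000 : ℕ) : ℝ) = 1000000 * 100 := by norm_num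
  rw [h6] at h1
  linarith

theorem numerics : (1660 : ℝ) ≤ ∑ c ∈ cells, (Vsq c : ℝ) * wc c :=
  numerics_low_gen cells numerics_cells numerics_low_nat

theorem numerics_up : ∑ c ∈ cells, wc c ≤ 100 :=
  numerics_up_gen cells numerics_cells numerics_up_nat

theorem sum_F3_sq : ∑ α : Fin 3 → Fin 4, ∑ a, F3 a α ^ 2 = 537 := by
  decide +kernel

theorem sum_F3 : ∑ α : Fin 3 → Fin 4, ∑ a, F3 a α = 119 := by
  decide +kernel

theorem F3_level : ∀ (a : Fin 4) (α : Fin 3 → Fin 4), F3 a α ≠ 0 →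
    ∑ j, ((α j : ℕ) + 1) ≤ 6 := by
  decide +kernel

theorem F3_anti : ∀ (α : Fin 3 → Fin 4) (a b : Fin 4), a ≤ b → F3 b α ≤ F3 a α := by
  decide +kernel

end Pool.Agent.P.MP_a1177c_nt.EK
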