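import Pool.Agent.P.MP_a1177c_nt.EK.Local
import Pool.Agent.P.MP_a1177c_nt.EK.Crt
import Pool.Agent.P.MP_a1177c_nt.EK.Delta
import Pool.Agent.P.MP_a1177c_nt.EK.Numerics

set_option autoImplicit false

namespace Pool.Agent.P.MP_a1177c_nt.EK

open Finset Filter
open scoped Classical

theorem bracket_nrm_mul (z w : GaussianInt) : nrm (z * w) = nrm z * nrm w := by
  simp [nrm, Zsqrtd.norm_mul, Int.natAbs_mul]

theorem bracket_nrm_star (z : GaussianInt) : nrm (star z) = nrm z := by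
  simp [nrm, Zsqrtd.norm_conj]

theorem bracket_nrm_cast (z : GaussianInt) : (nrm z : ℤ) = z.re ^ 2 + z.im ^ 2 := by
  have h : (nrm z : ℤ) = z.norm := Int.natAbs_of_nonneg (GaussianInt.norm_nonneg z)
  rw [h, Zsqrtd.norm_def]; ring

theorem bracket_dvd_nrm (z : GaussianInt) : z ∣ (((nrm z : ℕ) : ℤ) : GaussianInt) := by
  have h : (nrm z : ℤ) = z.norm := Int.natAbs_of_nonneg (GaussianInt.norm_nonneg z)
  rw [h, Zsqrtd.norm_eq_mul_conj]
  exact Dvd.intro _ rfl

theorem bracket_act_sub (h : SL) (x b t t' : ℤ) :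
    act (h * nT t) x b = act (h * nT t') x b + (((t - t') * b : ℤ) : GaussianInt) * act h 1 0 := by
  rw [act_nT, act_nT]
  ext <;> simp [act] <;> ring

theorem bracket_act_one (h : SL) (t : ℤ) : act (h * nT t) 1 0 = act h 1 0 := by
  rw [act_nT]; simp

theorem bracket_per_dvd (τ : GaussianInt) (h : SL) (x b : ℤ) {t t' : ℤ}
    (ht : t ≡ t' [ZMOD (nrm τ : ℕ)]) :
    τ ∣ act (h * nT t) x b ↔ τ ∣ act (h * nT t') x b := by
  rw [bracket_act_sub h x b t t']
  have h1 : τ ∣ (((t - t') * b : ℤ) : GaussianInt) * act h 1 0 := by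
    obtain ⟨k, hk⟩ := ht.symm.dvd
    rw [hk]
    push_cast
    have := bracket_dvd_nrm τ
    push_cast at this
    exact ((this.mul_right _).mul_right _).mul_right _
  exact ⟨fun H => (dvd_add_left h1).mp H, fun H => H.add h1⟩

theorem bracket_per_nrm (p : ℕ) (h : SL) (x b : ℤ) {t t' : ℤ} (ht : t ≡ t' [ZMOD p]) :
    p ∣ nrm (act (h * nT t) x b) ↔ p ∣ nrm (act (h * nT t') x b) := by
  rw [bracket_act_sub h x b t t', ← Int.natCast_dvd_natCast, ← Int.natCast_dvd_natCast,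
    bracket_nrm_cast, bracket_nrm_cast]
  obtain ⟨k, hk⟩ := ht.symm.dvd
  rw [hk]
  set z := act (h * nT t') x b
  set w := act h 1 0
  have e : (z + (((p : ℤ) * k * b : ℤ) : GaussianInt) * w).re ^ 2 +
      (z + (((p : ℤ) * k * b : ℤ) : GaussianInt) * w).im ^ 2 =
      z.re ^ 2 + z.im ^ 2 + (p : ℤ) * (k * b * (2 * (z.re * w.re + z.im * w.im) +
        p * k * b * (w.re ^ 2 + w.im ^ 2))) := by
    simp only [Zsqrtd.re_add, Zsqrtd.im_add, Zsqrtd.re_mul, Zsqrtd.im_mul, Zsqrtd.re_intCast,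
      Zsqrtd.im_intCast]
    ring
  rw [e]
  exact dvd_add_left (Dvd.intro _ rfl)

theorem bracket_per_lev {W : ℕ} {F : SL → ℝ} (hF : Lev W F) (h : SL) {t t' : ℤ}
    (ht : t ≡ t' [ZMOD W]) : F (h * nT t) = F (h * nT t') := by
  have e : t = t' + (t - t') := by ring
  rw [e, nT_add, ← mul_assoc]
  apply hF
  have := CongruenceSubgroup.ModularGroup_T_pow_mem_Gamma (W : ℤ) (t - t') ht.symm.dvd
  simpa [nT] using this

theorem bracket_ind_nonneg (p : Prop) : 0 ≤ ind p := by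
  unfold ind; split_ifs <;> norm_num

theorem bracket_nu (Pi : Finset GaussianInt) (z : GaussianInt) :
    nu Pi z = ∑ ϖ ∈ Pi, ind (ϖ ∣ z) := by
  unfold nu ind
  rw [Finset.card_filter]
  push_cast
  rfl

theorem bracket_La_congr (P : Finset ℕ) (R : ℝ) (a : Fin 4) {n k : ℕ}
    (h : ∀ p ∈ P, p ∣ n ↔ p ∣ k) : La P R a n = La P R a k := by
  unfold La Lam
  refine sum_congr rfl fun S hS => ?_
  congr 1
  refine prod_congr rfl fun p hp => ?_
  have := h p (mem_powerset.mp hS hp)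
  by_cases hk : p ∣ k
  · rw [if_pos hk, if_pos (this.mpr hk)]
  · rw [if_neg hk, if_neg (fun H => hk (this.mp H))]

theorem bracket_hS_nonneg (S : Finset ℕ) : 0 ≤ hS S :=
  prod_nonneg fun p _ => by positivity

theorem bracket_Ha_nonneg (P : Finset ℕ) (R : ℝ) (a : Fin 4) : 0 ≤ Ha P R a :=
  sum_nonneg fun S _ => mul_nonneg (bracket_ind_nonneg _) (bracket_hS_nonneg S)

theorem bracket_Hs_nonneg (P : Finset ℕ) (R : ℝ) : 0 ≤ Hs P R :=
  sum_nonneg fun S _ => bracket_hS_nonneg S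

theorem bracket_Qf_nonneg (P : Finset ℕ) (R : ℝ) (k : ℕ) : 0 ≤ Qf P R k :=
  sum_nonneg fun _ _ => mul_nonneg (prod_nonneg fun _ _ => bracket_Ha_nonneg _ _ _) (sq_nonneg _)

theorem bracket_Lstar_nonneg (P : Finset ℕ) (R : ℝ) (k : ℕ) : 0 ≤ Lstar P R k :=
  sum_nonneg fun _ _ => sq_nonneg _

/-- The coefficient of `α` in the sieve sum. -/
noncomputable def bracketC (P : Finset ℕ) (R : ℝ) (k : ℕ) (α : Fin 3 → Fin 4) : ℝ :=
  ∑ a, (F3 a α : ℝ) * La P R a k

theorem bracket_wq (P : Finset ℕ) (R : ℝ) (k : ℕ) (n : Fin 3 → ℕ) :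
    wq P R k n = ∑ α, ∑ α', bracketC P R k α * bracketC P R k α' *
      ∏ j, La P R (α j) (n j) * La P R (α' j) (n j) := by
  have e : (∑ a, ∑ α : Fin 3 → Fin 4, (F3 a α : ℝ) * La P R a k * ∏ j, La P R (α j) (n j)) =
      ∑ α, bracketC P R k α * ∏ j, La P R (α j) (n j) := by
    rw [sum_comm]
    refine sum_congr rfl fun α _ => ?_
    rw [bracketC, sum_mul]
  rw [wq, e, sq, sum_mul_sum]
  refine sum_congr rfl fun α _ => sum_congr rfl fun α' _ => ?_
  rw [prod_mul_distrib]; ring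

theorem bracket_Qf (P : Finset ℕ) {R : ℝ} (hR : 1 ≤ R) (k : ℕ) :
    ∑ α, ∑ α', bracketC P R k α * bracketC P R k α' *
      ∏ j, ∑ S ∈ P.powerset, cell R (α j) S * cell R (α' j) S * hS S = Qf P R k := by
  unfold Qf
  refine sum_congr rfl fun α _ => ?_
  rw [sum_eq_single α]
  · simp only [cell_orth P hR, ind, if_true, one_mul]
    rw [bracketC]; ring
  · intro α' _ hne
    obtain ⟨j, hj⟩ := Function.ne_iff.mp hne
    rw [prod_eq_zero (mem_univ j), mul_zero]
    rw [cell_orth P hR, ind, if_neg (Ne.symm hj), zero_mul]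
  · simp

theorem bracket_C_sq (P : Finset ℕ) (R : ℝ) (k : ℕ) :
    (∑ α, |bracketC P R k α|) ^ 2 ≤ 119 ^ 2 * Lstar P R k := by
  have h1 : ∀ a, |La P R a k| ≤ √(Lstar P R k) := fun a =>
    Real.abs_le_sqrt (single_le_sum (f := fun a => La P R a k ^ 2) (fun _ _ => sq_nonneg _)
      (mem_univ a))
  have h2 : ∑ α, |bracketC P R k α| ≤ 119 * √(Lstar P R k) := by
    have h3 : ((∑ α : Fin 3 → Fin 4, ∑ a, F3 a α : ℕ) : ℝ) = 119 := by rw [sum_F3]; norm_num
    rw [← h3]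
    push_cast
    rw [sum_mul]
    refine sum_le_sum fun α _ => ?_
    rw [sum_mul]
    refine (abs_sum_le_sum_abs _ _).trans (sum_le_sum fun a _ => ?_)
    rw [abs_mul, abs_of_nonneg (Nat.cast_nonneg _)]
    exact mul_le_mul_of_nonneg_left (h1 a) (Nat.cast_nonneg _)
  calc (∑ α, |bracketC P R k α|) ^ 2 ≤ (119 * √(Lstar P R k)) ^ 2 :=
        pow_le_pow_left₀ (sum_nonneg fun _ _ => abs_nonneg _) h2 2
    _ = 119 ^ 2 * Lstar P R k := by
        rw [mul_pow, Real.sq_sqrt (bracket_Lstar_nonneg P R k)]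

/-- The model estimate for the whole square. -/
theorem bracket_model (M : ℕ) (P : Finset ℕ) (hP : ∀ p ∈ P, 2 ≤ p) {R : ℝ} (hR : 1 ≤ R)
    (k : ℕ) (N : ℕ → Fin 3 → ℕ) (f₀ : ℕ → ℝ) (hf : ∀ t, 0 ≤ f₀ t)
    (hind : ∀ f : ℕ → (Fin 3 → Prop) → ℝ,
      (∑ t ∈ range M, f₀ t * ∏ p ∈ P, f p fun j => p ∣ N t j) / #(range M) =
        (∑ t ∈ range M, f₀ t) / #(range M) *
          ∏ p ∈ P, (∑ t ∈ range M, f p fun j => p ∣ N t j) / #(range M))
    (κ : ℕ → ℝ) (hκ : ∀ p ∈ P,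
      ∑ ω, |1 * ((#{t ∈ range M | (fun j => p ∣ N t j) = ω} : ℝ) / #(range M)) - indLaw p ω| ≤ κ p)
    {B : ℝ} (hB0 : 0 ≤ B) (hB : ∏ p ∈ P, (1 + 64 * κ p) - 1 ≤ B) :
    |(∑ t ∈ range M, f₀ t * wq P R k (N t)) / M - (∑ t ∈ range M, f₀ t) / M * Qf P R k| ≤
      (∑ t ∈ range M, f₀ t) / M * (119 ^ 2 * B * Lstar P R k * Hs P R ^ 3) := by
  set E : ℝ := (∑ t ∈ range M, f₀ t) / M with hE
  have hE0 : 0 ≤ E := div_nonneg (sum_nonneg fun t _ => hf t) (Nat.cast_nonneg _)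
  have hH : 0 ≤ Hs P R ^ 3 := pow_nonneg (bracket_Hs_nonneg P R) 3
  have key : ∀ α α' : Fin 3 → Fin 4,
      |(∑ t ∈ range M, f₀ t * ∏ j, La P R (α j) (N t j) * La P R (α' j) (N t j)) / M -
        E * ∏ j, ∑ S ∈ P.powerset, cell R (α j) S * cell R (α' j) S * hS S| ≤
      E * (B * Hs P R ^ 3) := by
    intro α α'
    have := model (range M) P hP (fun p j t => p ∣ N t j) f₀ hf (fun _ _ => 1) hind κ
      (fun p hp => le_of_eq_of_le (by congr; exact Subsingleton.elim _ _) (hκ p hp)) R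
      (fun j => cell R (α j)) (fun j => cell R (α' j)) (fun j S => cell_bound hR _ S)
      (fun j S => cell_bound hR _ S)
    simp only [prod_const_one, mul_one, card_range, Fintype.card_fin] at this
    refine le_trans (le_of_eq ?_) (this.trans ?_)
    · rfl
    · refine mul_le_mul_of_nonneg_left (mul_le_mul_of_nonneg_right ?_ hH) hE0
      have e : (4 : ℝ) ^ 3 = 64 := by norm_num
      rw [e]; exact hB
  have e1 : (∑ t ∈ range M, f₀ t * wq P R k (N t)) / M - E * Qf P R k =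
      ∑ α, ∑ α', bracketC P R k α * bracketC P R k α' *
        ((∑ t ∈ range M, f₀ t * ∏ j, La P R (α j) (N t j) * La P R (α' j) (N t j)) / M -
          E * ∏ j, ∑ S ∈ P.powerset, cell R (α j) S * cell R (α' j) S * hS S) := by
    rw [← bracket_Qf P hR k]
    simp only [bracket_wq, mul_sub, sum_sub_distrib]
    congr 1
    · simp only [mul_sum, sum_div, mul_div_assoc']
      rw [sum_comm]
      refine sum_congr rfl fun α _ => ?_
      rw [sum_comm]
      refine sum_congr rfl fun α' _ => sum_congr rfl fun t _ => ?_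
      ring
    · simp only [mul_sum]
      refine sum_congr rfl fun α _ => sum_congr rfl fun α' _ => ?_
      ring
  rw [e1]
  calc _ ≤ ∑ α, ∑ α', |bracketC P R k α| * |bracketC P R k α'| * (E * (B * Hs P R ^ 3)) := by
        refine (abs_sum_le_sum_abs _ _).trans (sum_le_sum fun α _ => ?_)
        refine (abs_sum_le_sum_abs _ _).trans (sum_le_sum fun α' _ => ?_)
        rw [abs_mul, abs_mul]
        exact mul_le_mul_of_nonneg_left (key α α') (by positivity)
    _ = (∑ α, |bracketC P R k α|) ^ 2 * (E * (B * Hs P R ^ 3)) := by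
        rw [sq, sum_mul_sum, sum_mul]
        refine sum_congr rfl fun α _ => ?_
        rw [sum_mul]
    _ ≤ 119 ^ 2 * Lstar P R k * (E * (B * Hs P R ^ 3)) :=
        mul_le_mul_of_nonneg_right (bracket_C_sq P R k) (by positivity)
    _ = _ := by ring

end Pool.Agent.P.MP_a1177c_nt.EK
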