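import Pool.Agent.P.MP_a1177c_nt.EK.Defs
import Pool.Agent.P.MP_a1177c_nt.EK.Abel

set_option autoImplicit false

namespace Pool.Agent.P.MP_a1177c_nt.EK

open Finset Filter
open scoped Classical

theorem conv_iy_coe {y : ℝ} (hy : 0 < y) : ((iy y : UpperHalfPlane) : ℂ) = ⟨0, y⟩ := by
  simp [iy, hy]

theorem conv_iy_re {y : ℝ} (hy : 0 < y) : (iy y).re = 0 := by
  simp [iy, hy]

theorem conv_iy_im {y : ℝ} (hy : 0 < y) : (iy y).im = y := by
  simp [iy, hy]

theorem conv_det (h : SL) : (h 0 0 : ℝ) * h 1 1 - h 0 1 * h 1 0 = 1 := by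
  have := h.det_coe
  rw [Matrix.det_fin_two] at this
  exact_mod_cast this

theorem conv_N_pos {y : ℝ} (hy : 0 < y) (h : SL) :
    0 < (h 1 0 : ℝ) ^ 2 * y ^ 2 + (h 1 1 : ℝ) ^ 2 := by
  have hd := conv_det h
  by_cases h1 : (h 1 1 : ℝ) = 0
  · have h2 : (h 1 0 : ℝ) ≠ 0 := by
      intro h2
      rw [h1, h2] at hd
      simp at hd
    positivity
  · positivity

theorem conv_smul_re {y : ℝ} (hy : 0 < y) (h : SL) :
    (h • iy y).re = ((h 0 0 : ℝ) * h 1 0 * y ^ 2 + h 0 1 * h 1 1) /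
      ((h 1 0 : ℝ) ^ 2 * y ^ 2 + (h 1 1 : ℝ) ^ 2) := by
  have hN := conv_N_pos hy h
  rw [← UpperHalfPlane.coe_re, UpperHalfPlane.coe_specialLinearGroup_apply, conv_iy_coe hy,
    Complex.div_re]
  simp [Complex.normSq_apply]
  have e : (h 1 1 : ℝ) * h 1 1 + h 1 0 * y * (h 1 0 * y) =
      (h 1 0 : ℝ) ^ 2 * y ^ 2 + (h 1 1 : ℝ) ^ 2 := by ring
  rw [e]
  field_simp
  ring

theorem conv_smul_im {y : ℝ} (hy : 0 < y) (h : SL) :
    (h • iy y).im = y / ((h 1 0 : ℝ) ^ 2 * y ^ 2 + (h 1 1 : ℝ) ^ 2) := by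
  have hN := conv_N_pos hy h
  have hd := conv_det h
  rw [← UpperHalfPlane.coe_im, UpperHalfPlane.coe_specialLinearGroup_apply, conv_iy_coe hy,
    Complex.div_im]
  simp [Complex.normSq_apply]
  have e : (h 1 1 : ℝ) * h 1 1 + h 1 0 * y * (h 1 0 * y) =
      (h 1 0 : ℝ) ^ 2 * y ^ 2 + (h 1 1 : ℝ) ^ 2 := by ring
  rw [e, ← sub_div]
  congr 1
  linear_combination y * hd

theorem ch_Uy {y : ℝ} (hy : 0 < y) (h : SL) : ch (iy 1) (h • iy y) = Uy y h := by
  have hN := conv_N_pos hy h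
  have hd := conv_det h
  unfold ch Uy qA qC
  rw [UpperHalfPlane.cosh_dist', conv_smul_re hy, conv_smul_im hy, conv_iy_re one_pos,
    conv_iy_im one_pos]
  field_simp
  linear_combination (-(y ^ 2) * ((h 0 0 : ℝ) * h 1 1 - h 0 1 * h 1 0 + 1)) * hd

theorem ch_uy {y : ℝ} (hy : 0 < y) (γ : SL) : ch (iy y) (γ • iy y) = uy y γ := by
  have hN := conv_N_pos hy γ
  have hd := conv_det γ
  unfold ch uy
  rw [UpperHalfPlane.cosh_dist', conv_smul_re hy, conv_smul_im hy, conv_iy_re hy,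
    conv_iy_im hy]
  field_simp
  linear_combination (-(y ^ 2) * ((γ 0 0 : ℝ) * γ 1 1 - γ 0 1 * γ 1 0 + 1)) * hd

/-- Horocyclic coordinates. -/
noncomputable def convPt (x t : ℝ) : UpperHalfPlane := ⟨⟨x, Real.exp t⟩, Real.exp_pos t⟩

theorem convPt_re (x t : ℝ) : (convPt x t).re = x := rfl

theorem convPt_im (x t : ℝ) : (convPt x t).im = Real.exp t := rfl

theorem convPt_coe (x t : ℝ) : ((convPt x t : UpperHalfPlane) : ℂ) = ⟨x, Real.exp t⟩ := rfl

theorem convPt_zero : convPt 0 0 = UpperHalfPlane.I := by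
  ext
  apply Complex.ext <;> simp [convPt_coe]

theorem convPt_self (z : UpperHalfPlane) : convPt z.re (Real.log z.im) = z := by
  ext
  apply Complex.ext
  · rfl
  · simp [convPt_coe, Real.exp_log z.im_pos]

/-- The coordinates as a homeomorphism. -/
noncomputable def convH : ℝ × ℝ ≃ₜ UpperHalfPlane where
  toFun p := convPt p.1 p.2
  invFun z := (z.re, Real.log z.im)
  left_inv p := by simp [convPt_re, convPt_im]
  right_inv z := convPt_self z
  continuous_toFun := by
    refine UpperHalfPlane.isEmbedding_coe.continuous_iff.2 ?_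
    have : (UpperHalfPlane.coe ∘ fun p : ℝ × ℝ => convPt p.1 p.2) =
        fun p : ℝ × ℝ => (p.1 : ℂ) + (Real.exp p.2 : ℝ) * Complex.I := by
      ext p
      apply Complex.ext <;> simp [convPt_coe, -Complex.ofReal_exp]
    rw [this]
    fun_prop
  continuous_invFun :=
    UpperHalfPlane.continuous_re.prodMk
      (UpperHalfPlane.continuous_im.log fun z => z.im_pos.ne')

theorem convH_apply (p : ℝ × ℝ) : convH p = convPt p.1 p.2 := rfl

theorem conv_ch_pt (x t x' t' : ℝ) :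
    ch (convPt x t) (convPt x' t') =
      Real.cosh (t - t') + (x - x') ^ 2 / (2 * Real.exp t * Real.exp t') := by
  unfold ch
  rw [UpperHalfPlane.cosh_dist', convPt_re, convPt_re, convPt_im, convPt_im, Real.cosh_eq,
    Real.exp_neg, Real.exp_sub]
  have h1 := Real.exp_pos t
  have h2 := Real.exp_pos t'
  field_simp
  ring

theorem conv_ch_comm (z w : UpperHalfPlane) : ch z w = ch w z := by
  unfold ch
  rw [dist_comm]

theorem conv_ch_cont : Continuous fun p : UpperHalfPlane × UpperHalfPlane => ch p.1 p.2 :=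
  Real.continuous_cosh.comp continuous_dist

open MeasureTheory in
theorem conv_line (k : ℝ → ℝ) (x t t' : ℝ) :
    ∫ x', k (ch (convPt x t) (convPt x' t')) =
      √(2 * Real.exp t * Real.exp t') * abel k (Real.cosh (t - t')) := by
  have hpos : 0 < 2 * Real.exp t * Real.exp t' := by positivity
  set c := √(2 * Real.exp t * Real.exp t') with hc
  have hc0 : 0 < c := Real.sqrt_pos.2 hpos
  have hc2 : c ^ 2 = 2 * Real.exp t * Real.exp t' := Real.sq_sqrt hpos.le
  have e : ∀ x', k (ch (convPt x t) (convPt x' t')) =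
      (fun u => (fun ξ => k (Real.cosh (t - t') + ξ ^ 2)) (u / c)) (x' - x) := by
    intro x'
    simp only [conv_ch_pt, div_pow, hc2]
    congr 3
    ring
  simp_rw [e]
  rw [integral_sub_right_eq_self
    (fun u => (fun ξ => k (Real.cosh (t - t') + ξ ^ 2)) (u / c)) x,
    Measure.integral_comp_div (fun ξ => k (Real.cosh (t - t') + ξ ^ 2)) c, abs_of_pos hc0,
    smul_eq_mul]
  rfl

open MeasureTheory in
theorem conv_integral (F : UpperHalfPlane → ℝ) :
    ∫ ζ, F ζ = ∫ p : ℝ × ℝ, Real.exp (-p.2) * F (convPt p.1 p.2) := by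
  set G : ℂ → ℝ := fun z => (1 / z.im) ^ 2 * F (UpperHalfPlane.ofComplex z) with hG
  have e1 : ∫ ζ, F ζ = ∫ ζ : UpperHalfPlane, G ζ ∂(volume.comap UpperHalfPlane.coe) := by
    rw [UpperHalfPlane.volume_def, integral_withDensity_eq_integral_smul]
    · refine integral_congr_ae (Eventually.of_forall fun ζ => ?_)
      simp [hG, NNReal.smul_def]
    · refine Continuous.measurable ?_
      refine .pow (.div₀ continuous_const ?_ ?_) _
      · exact UpperHalfPlane.continuous_im.subtype_mk _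
      · exact fun x => NNReal.ne_iff.mp x.im_ne_zero
  have e2 : ∫ ζ : UpperHalfPlane, G ζ ∂(volume.comap UpperHalfPlane.coe) =
      ∫ z in Set.range UpperHalfPlane.coe, G z := by
    rw [← UpperHalfPlane.measurableEmbedding_coe.map_comap,
      UpperHalfPlane.measurableEmbedding_coe.integral_map]
  set f : ℝ × ℝ → ℝ × ℝ := fun p => (p.1, Real.exp p.2) with hf
  have e3 : ∫ z in Set.range UpperHalfPlane.coe, G z =
      ∫ p in f '' Set.univ, G (Complex.measurableEquivRealProd.symm p) := by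
    rw [← (Complex.volume_preserving_equiv_real_prod.symm).setIntegral_preimage_emb
      Complex.measurableEquivRealProd.symm.measurableEmbedding]
    congr 2
    ext p
    simp only [Set.mem_preimage, Set.mem_range, Set.image_univ, hf]
    constructor
    · rintro ⟨z, hz⟩
      refine ⟨(z.re, Real.log z.im), ?_⟩
      have h1 := congrArg Complex.re hz
      have h2 := congrArg Complex.im hz
      simp only [Real.exp_log z.im_pos]
      exact Prod.ext h1 h2
    · rintro ⟨q, rfl⟩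
      exact ⟨convPt q.1 q.2, rfl⟩
  set f' : ℝ × ℝ → (ℝ × ℝ →L[ℝ] ℝ × ℝ) := fun p =>
    (Matrix.toLin (.finTwoProd ℝ) (.finTwoProd ℝ)
      !![1, 0; 0, Real.exp p.2]).toContinuousLinearMap with hf'
  have hder : ∀ p, HasFDerivAt f (f' p) p := by
    intro p
    simp only [hf', hf]
    rw [Matrix.toLin_finTwoProd_toContinuousLinearMap]
    convert! HasFDerivAt.prodMk (𝕜 := ℝ) hasFDerivAt_fst
      ((Real.hasDerivAt_exp p.2).comp_hasFDerivAt p hasFDerivAt_snd) using 2 <;> simp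
  have hdet : ∀ p, (f' p).det = Real.exp p.2 := by
    intro p
    simp only [hf', LinearMap.det_toContinuousLinearMap, LinearMap.det_toLin,
      Matrix.det_fin_two_of]
    ring
  have hinj : Set.InjOn f Set.univ := by
    intro p _ q _ h
    simp only [hf, Prod.mk.injEq, Real.exp_eq_exp] at h
    exact Prod.ext h.1 h.2
  rw [e1, e2, e3, integral_image_eq_integral_abs_det_fderiv_smul volume MeasurableSet.univ
    (fun p _ => (hder p).hasFDerivWithinAt) hinj, Measure.restrict_univ]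
  refine integral_congr_ae (Eventually.of_forall fun p => ?_)
  have h1 : Complex.measurableEquivRealProd.symm (f p) = (convPt p.1 p.2 : ℂ) := rfl
  simp only [hdet, h1, hG, UpperHalfPlane.ofComplex_apply, UpperHalfPlane.coe_im, convPt_im,
    smul_eq_mul, abs_of_pos (Real.exp_pos p.2), Real.exp_neg]
  have := Real.exp_pos p.2
  field_simp

/-- Rotations about `i`. -/
def convRot (c s : ℝ) (h : c ^ 2 + s ^ 2 = 1) : Matrix.SpecialLinearGroup (Fin 2) ℝ :=
  ⟨!![c, s; -s, c], by rw [Matrix.det_fin_two_of]; linear_combination h⟩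

theorem convRot_coe (c s : ℝ) (h : c ^ 2 + s ^ 2 = 1) (z : UpperHalfPlane) :
    ((convRot c s h • z : UpperHalfPlane) : ℂ) = (c * z + s) / (-s * z + c) := by
  rw [UpperHalfPlane.coe_specialLinearGroup_apply]
  simp [convRot]

theorem convRot_I (c s : ℝ) (h : c ^ 2 + s ^ 2 = 1) :
    convRot c s h • UpperHalfPlane.I = UpperHalfPlane.I := by
  ext
  rw [convRot_coe, UpperHalfPlane.coe_I]
  have hne : (-(s : ℂ) * Complex.I + c) ≠ 0 := by
    intro h0
    have h1 := congrArg Complex.re h0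
    have h2 := congrArg Complex.im h0
    simp at h1 h2
    rw [h1, h2] at h
    simp at h
  rw [div_eq_iff hne]
  linear_combination (s : ℂ) * Complex.I_sq

theorem convRot_flip (t : ℝ) : convRot 0 1 (by norm_num) • convPt 0 t = convPt 0 (-t) := by
  ext
  rw [convRot_coe, convPt_coe, convPt_coe]
  have := Real.exp_pos t
  apply Complex.ext
  · simp [Complex.div_re]
  · simp [Complex.div_im, Complex.normSq_apply, Real.exp_neg]
    field_simp

theorem conv_dist_I (t : ℝ) : dist UpperHalfPlane.I (convPt 0 t) = |t| := by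
  rw [← convPt_zero, UpperHalfPlane.dist_of_re_eq (z := convPt 0 0) (w := convPt 0 t) rfl, convPt_im, convPt_im, Real.log_exp,
    Real.log_exp, Real.dist_eq, zero_sub, abs_neg]

theorem conv_rotate (w : UpperHalfPlane) : ∃ g : Matrix.SpecialLinearGroup (Fin 2) ℝ,
    g • UpperHalfPlane.I = UpperHalfPlane.I ∧ (g • w).re = 0 := by
  set f : ℝ → ℝ := fun θ => Real.cos θ * Real.sin θ * (1 - w.re ^ 2 - w.im ^ 2) +
    (Real.cos θ ^ 2 - Real.sin θ ^ 2) * w.re with hf
  have hc : Continuous f := by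
    simp only [hf]
    fun_prop
  have h0 : (0 : ℝ) ∈ Set.uIcc (f 0) (f (Real.pi / 2)) := by
    have e0 : f 0 = w.re := by simp [hf]
    have e1 : f (Real.pi / 2) = -w.re := by simp [hf]
    rw [e0, e1, Set.mem_uIcc]
    rcases le_total 0 w.re with h | h
    · right
      constructor <;> linarith
    · left
      constructor <;> linarith
  obtain ⟨θ, -, hθ⟩ := intermediate_value_uIcc hc.continuousOn h0
  refine ⟨convRot (Real.cos θ) (Real.sin θ) (Real.cos_sq_add_sin_sq θ), convRot_I _ _ _, ?_⟩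
  rw [← UpperHalfPlane.coe_re, convRot_coe, Complex.div_re, ← add_div]
  refine div_eq_zero_iff.2 (Or.inl ?_)
  simp only [hf] at hθ
  simp [-Complex.ofReal_cos, -Complex.ofReal_sin]
  linear_combination hθ

theorem conv_two_point (z w : UpperHalfPlane) : ∃ g : Matrix.SpecialLinearGroup (Fin 2) ℝ,
    g • z = UpperHalfPlane.I ∧ g • w = convPt 0 (dist z w) := by
  obtain ⟨g₁, hg₁⟩ :=
    MulAction.exists_smul_eq (Matrix.SpecialLinearGroup (Fin 2) ℝ) z UpperHalfPlane.I
  obtain ⟨g₂, hg₂, hre⟩ := conv_rotate (g₁ • w)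
  set t := Real.log (g₂ • g₁ • w).im with ht
  have hw : g₂ • g₁ • w = convPt 0 t := by
    rw [← convPt_self (g₂ • g₁ • w), hre]
  have hd : dist z w = |t| := by
    rw [← conv_dist_I, ← hw, ← hg₂, ← hg₁, dist_smul, dist_smul]
  rcases le_total 0 t with h | h
  · refine ⟨g₂ * g₁, by rw [mul_smul, hg₁, hg₂], ?_⟩
    rw [mul_smul, hw, hd, abs_of_nonneg h]
  · refine ⟨convRot 0 1 (by norm_num) * (g₂ * g₁), ?_, ?_⟩
    · rw [mul_smul, mul_smul, hg₁, hg₂, convRot_I]
    · rw [mul_smul, mul_smul, hw, convRot_flip, hd, abs_of_nonpos h]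

theorem conv_far {k : ℝ → ℝ} (hk : Ker k) :
    ∃ R : ℝ, ∀ z w : UpperHalfPlane, R < dist z w → k (ch z w) = 0 := by
  obtain ⟨R, hR⟩ := hk.2
  refine ⟨R, fun z w h => hR _ ?_⟩
  have h1 : dist z w ≤ Real.sinh (dist z w) := Real.self_le_sinh_iff.2 dist_nonneg
  have h2 := Real.sinh_lt_cosh (dist z w)
  unfold ch
  linarith

open MeasureTheory in
theorem conv_invariant (k₁ k₂ : ℝ → ℝ) (g : Matrix.SpecialLinearGroup (Fin 2) ℝ)
    (z w : UpperHalfPlane) :
    ∫ ζ : UpperHalfPlane, k₁ (ch (g • z) ζ) * k₂ (ch ζ (g • w)) =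
      ∫ ζ : UpperHalfPlane, k₁ (ch z ζ) * k₂ (ch ζ w) := by
  rw [← integral_smul_eq_self (μ := (volume : Measure UpperHalfPlane))
    (fun ζ : UpperHalfPlane => k₁ (ch (g • z) ζ) * k₂ (ch ζ (g • w)))
    (g := Matrix.SpecialLinearGroup.mapGL ℝ g)]
  refine integral_congr_ae (Eventually.of_forall fun ζ => ?_)
  have e : Matrix.SpecialLinearGroup.mapGL ℝ g • ζ = g • ζ := rfl
  simp only [e, ch, dist_smul]

/-- The convolution seen from `i`. -/
noncomputable def convD (k₁ k₂ : ℝ → ℝ) (w : UpperHalfPlane) : ℝ :=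
  ∫ ζ : UpperHalfPlane, k₁ (ch UpperHalfPlane.I ζ) * k₂ (ch ζ w)

theorem conv_ch_cont' {X : Type} [TopologicalSpace X] {f g : X → UpperHalfPlane}
    (hf : Continuous f) (hg : Continuous g) : Continuous fun x => ch (f x) (g x) :=
  Real.continuous_cosh.comp (hf.dist hg)

theorem convPt_cont {X : Type} [TopologicalSpace X] {f g : X → ℝ}
    (hf : Continuous f) (hg : Continuous g) : Continuous fun x => convPt (f x) (g x) :=
  convH.continuous.comp (hf.prodMk hg)

open MeasureTheory in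
theorem convD_cont {k₁ k₂ : ℝ → ℝ} (h₁ : Ker k₁) (h₂ : Ker k₂) : Continuous (convD k₁ k₂) := by
  obtain ⟨R₁, hR₁⟩ := conv_far h₁
  have hFc : Continuous fun p : UpperHalfPlane × UpperHalfPlane =>
      k₁ (ch UpperHalfPlane.I p.2) * k₂ (ch p.2 p.1) :=
    (h₁.1.comp (conv_ch_cont' continuous_const continuous_snd)).mul
      (h₂.1.comp (conv_ch_cont' continuous_snd continuous_fst))
  have e : convD k₁ k₂ = fun w => ∫ ζ in Metric.closedBall UpperHalfPlane.I R₁,
      k₁ (ch UpperHalfPlane.I ζ) * k₂ (ch ζ w) := by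
    funext w
    refine (setIntegral_eq_integral_of_forall_compl_eq_zero fun ζ hζ => ?_).symm
    rw [Metric.mem_closedBall', not_le] at hζ
    rw [hR₁ _ _ hζ, zero_mul]
  rw [e]
  exact continuous_parametric_integral_of_continuous
    (f := fun w ζ => k₁ (ch UpperHalfPlane.I ζ) * k₂ (ch ζ w)) hFc (isCompact_closedBall _ _)

theorem conv_far₂ {k₁ k₂ : ℝ → ℝ} {R₁ R₂ : ℝ}
    (hR₁ : ∀ z w : UpperHalfPlane, R₁ < dist z w → k₁ (ch z w) = 0)
    (hR₂ : ∀ z w : UpperHalfPlane, R₂ < dist z w → k₂ (ch z w) = 0) (w ζ : UpperHalfPlane)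
    (hw : R₁ + R₂ < dist UpperHalfPlane.I w) :
    k₁ (ch UpperHalfPlane.I ζ) * k₂ (ch ζ w) = 0 := by
  by_cases h : R₁ < dist UpperHalfPlane.I ζ
  · rw [hR₁ _ _ h, zero_mul]
  · have := dist_triangle UpperHalfPlane.I ζ w
    rw [hR₂ ζ w (by linarith [not_lt.1 h]), mul_zero]

/-- The kernel of the convolution. -/
noncomputable def convK (k₁ k₂ : ℝ → ℝ) (v : ℝ) : ℝ :=
  convD k₁ k₂ (convPt 0 (Real.arcosh (max v 1)))

open MeasureTheory in
theorem convK_spec (k₁ k₂ : ℝ → ℝ) (z w : UpperHalfPlane) :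
    ∫ ζ : UpperHalfPlane, k₁ (ch z ζ) * k₂ (ch ζ w) = convK k₁ k₂ (ch z w) := by
  obtain ⟨g, hz, hw⟩ := conv_two_point z w
  have e : Real.arcosh (max (ch z w) 1) = dist z w := by
    unfold ch
    rw [max_eq_left (Real.one_le_cosh _), Real.arcosh_cosh dist_nonneg]
  rw [← conv_invariant k₁ k₂ g z w, hz, hw, convK, e, convD]

theorem convK_ker {k₁ k₂ : ℝ → ℝ} (h₁ : Ker k₁) (h₂ : Ker k₂) : Ker (convK k₁ k₂) := by
  obtain ⟨R₁, hR₁⟩ := conv_far h₁
  obtain ⟨R₂, hR₂⟩ := conv_far h₂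
  constructor
  · have h1 : Continuous fun v : ℝ => Real.arcosh (max v 1) :=
      Real.continuousOn_arcosh.comp_continuous (by fun_prop) fun v => le_max_right v 1
    exact (convD_cont h₁ h₂).comp (convPt_cont continuous_const h1)
  · refine ⟨Real.cosh (R₁ + R₂), fun u hu => ?_⟩
    have hu1 : 1 ≤ u := (Real.one_le_cosh _).trans hu.le
    have hlt : R₁ + R₂ < dist UpperHalfPlane.I (convPt 0 (Real.arcosh (max u 1))) := by
      rw [conv_dist_I, max_eq_left hu1]
      have : Real.cosh (R₁ + R₂) < Real.cosh (Real.arcosh u) := by rwa [Real.cosh_arcosh hu1]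
      exact (le_abs_self _).trans_lt (Real.cosh_lt_cosh.1 this)
    unfold convK convD
    simp only [conv_far₂ hR₁ hR₂ _ _ hlt, MeasureTheory.integral_zero]

theorem conv_compact (R : ℝ) :
    IsCompact {p : ℝ × ℝ | dist UpperHalfPlane.I (convPt p.1 p.2) ≤ R} := by
  have h := convH.isCompact_preimage.2 (isCompact_closedBall UpperHalfPlane.I R)
  convert h using 1
  ext p
  rw [Set.mem_preimage, Metric.mem_closedBall', convH_apply, Set.mem_ofPred_eq]

open MeasureTheory in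
theorem conv_int₁ {k₁ k₂ : ℝ → ℝ} (h₁ : Ker k₁) (h₂ : Ker k₂) (r : ℝ) :
    Integrable (fun p : ℝ × UpperHalfPlane =>
      k₁ (ch UpperHalfPlane.I p.2) * k₂ (ch p.2 (convPt p.1 r))) (volume.prod volume) := by
  obtain ⟨R₁, hR₁⟩ := conv_far h₁
  obtain ⟨R₂, hR₂⟩ := conv_far h₂
  refine Continuous.integrable_of_hasCompactSupport
    ((h₁.1.comp (conv_ch_cont' continuous_const continuous_snd)).mul
      (h₂.1.comp (conv_ch_cont' continuous_snd (convPt_cont continuous_fst continuous_const)))) ?_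
  refine HasCompactSupport.intro (((conv_compact (R₁ + R₂)).image continuous_fst).prod
    (isCompact_closedBall UpperHalfPlane.I R₁)) fun p hp => ?_
  rw [Set.mem_prod, not_and_or] at hp
  rcases hp with hp | hp
  · exact conv_far₂ hR₁ hR₂ _ _ (not_le.1 fun h => hp ⟨(p.1, r), h, rfl⟩)
  · rw [Metric.mem_closedBall', not_le] at hp
    rw [hR₁ _ _ hp, zero_mul]

open MeasureTheory in
theorem conv_int₂ {k₁ φ : ℝ → ℝ} (h₁ : Ker k₁) (hφ : Continuous φ) :
    Integrable (fun p : ℝ × ℝ => k₁ (ch UpperHalfPlane.I (convPt p.1 p.2)) * φ p.2)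
      (volume.prod volume) := by
  obtain ⟨R₁, hR₁⟩ := conv_far h₁
  refine Continuous.integrable_of_hasCompactSupport
    ((h₁.1.comp (conv_ch_cont' continuous_const
      (convPt_cont continuous_fst continuous_snd))).mul (hφ.comp continuous_snd)) ?_
  refine HasCompactSupport.intro (conv_compact R₁) fun p hp => ?_
  rw [Set.mem_ofPred_eq, not_le] at hp
  rw [hR₁ _ _ hp, zero_mul]

open MeasureTheory in
theorem convK_abel {k₁ k₂ : ℝ → ℝ} (h₁ : Ker k₁) (h₂ : Ker k₂) (r : ℝ) :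
    abel (convK k₁ k₂) (Real.cosh r) =
      √2 * ∫ ρ : ℝ, abel k₁ (Real.cosh ρ) * abel k₂ (Real.cosh (r - ρ)) := by
  have ha₂ : Continuous (abel k₂) := abel_continuous h₂
  obtain ⟨φ, hφ⟩ : ∃ φ : ℝ → ℝ, φ = fun t =>
    Real.exp (-t) * (√(2 * Real.exp t * Real.exp r) * abel k₂ (Real.cosh (t - r))) := ⟨_, rfl⟩
  have hφc : Continuous φ := by
    rw [hφ]
    fun_prop
  have e1 : √(2 * Real.exp 0 * Real.exp r) * abel (convK k₁ k₂) (Real.cosh (0 - r)) =
      ∫ x, ∫ ζ : UpperHalfPlane, k₁ (ch UpperHalfPlane.I ζ) * k₂ (ch ζ (convPt x r)) := by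
    rw [← conv_line (convK k₁ k₂) 0 0 r, convPt_zero]
    simp_rw [convK_spec]
  have e2 : ∫ ζ : UpperHalfPlane, ∫ x, k₁ (ch UpperHalfPlane.I ζ) * k₂ (ch ζ (convPt x r)) =
      ∫ p : ℝ × ℝ, k₁ (ch UpperHalfPlane.I (convPt p.1 p.2)) * φ p.2 := by
    rw [conv_integral]
    refine integral_congr_ae (Eventually.of_forall fun p => ?_)
    simp only [hφ]
    rw [integral_const_mul, conv_line]
    ring
  have e3 : ∫ p : ℝ × ℝ, k₁ (ch UpperHalfPlane.I (convPt p.1 p.2)) * φ p.2 =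
      ∫ t, 2 * √(Real.exp r) * (abel k₁ (Real.cosh t) * abel k₂ (Real.cosh (r - t))) := by
    rw [show (volume : Measure (ℝ × ℝ)) = volume.prod volume from rfl,
      integral_prod_symm _ (conv_int₂ h₁ hφc)]
    refine integral_congr_ae (Eventually.of_forall fun t => ?_)
    simp only [hφ]
    rw [integral_mul_const, ← convPt_zero, conv_line, zero_sub, Real.cosh_neg,
      ← neg_sub r t, Real.cosh_neg, Real.exp_zero, mul_one]
    have hp := Real.exp_pos t
    have e : √(2 * Real.exp t) * √(2 * Real.exp t * Real.exp r) =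
        2 * Real.exp t * √(Real.exp r) := by
      rw [Real.sqrt_mul (by positivity : 0 ≤ 2 * Real.exp t), ← mul_assoc,
        Real.mul_self_sqrt (by positivity)]
    have e' : Real.exp (-t) * Real.exp t = 1 := by rw [← Real.exp_add]; simp
    linear_combination (Real.exp (-t) * abel k₁ (Real.cosh t) * abel k₂ (Real.cosh (r - t))) * e +
      (2 * √(Real.exp r) * abel k₁ (Real.cosh t) * abel k₂ (Real.cosh (r - t))) * e'
  rw [integral_integral_swap (f := fun (x : ℝ) (ζ : UpperHalfPlane) =>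
      k₁ (ch UpperHalfPlane.I ζ) * k₂ (ch ζ (convPt x r))) (conv_int₁ h₁ h₂ r), e2, e3,
    integral_const_mul, zero_sub, Real.cosh_neg,
    Real.exp_zero, mul_one, Real.sqrt_mul (by norm_num : (0 : ℝ) ≤ 2)] at e1
  have hs : 0 < √(Real.exp r) := Real.sqrt_pos.2 (Real.exp_pos r)
  have h2 : √2 * √2 = (2 : ℝ) := Real.mul_self_sqrt (by norm_num)
  have h3 : (0 : ℝ) < √2 := by positivity
  apply mul_left_cancel₀ (mul_pos h3 hs).ne'
  rw [e1]
  linear_combination (-(√(Real.exp r)) *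
    ∫ ρ : ℝ, abel k₁ (Real.cosh ρ) * abel k₂ (Real.cosh (r - ρ))) * h2

theorem conv_radial {k₁ k₂ : ℝ → ℝ} (h₁ : Ker k₁) (h₂ : Ker k₂) :
    ∃ k, Ker k ∧ (∀ z w, ∫ ζ : UpperHalfPlane, k₁ (ch z ζ) * k₂ (ch ζ w) = k (ch z w)) ∧
      ∀ r : ℝ, abel k (Real.cosh r) =
        √2 * ∫ ρ : ℝ, abel k₁ (Real.cosh ρ) * abel k₂ (Real.cosh (r - ρ)) :=
  ⟨convK k₁ k₂, convK_ker h₁ h₂, convK_spec k₁ k₂, convK_abel h₁ h₂⟩

end Pool.Agent.P.MP_a1177c_nt.EK
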