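import Pool.Agent.P.MP_a1177c_nt.EK.Defs

set_option autoImplicit false

namespace Pool.Agent.P.MP_a1177c_nt.EK

open Finset Filter
open scoped Classical

theorem model_sum_prod {J : Type} [Fintype J] (F : J → Prop → ℝ) :
    ∑ ω : J → Prop, ∏ j, F j (ω j) = ∏ j, (F j True + F j False) := by
  have h := Finset.prod_univ_sum (fun _ : J => (univ : Finset Prop)) F
  rw [Fintype.piFinset_univ] at h
  rw [← h]
  refine prod_congr rfl fun j _ => ?_
  rw [Fintype.univ_Prop, sum_pair (by simp)]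

theorem model_abs_split {α : Type} [DecidableEq α] (s : Finset α) (a : α) (D : α → ℝ) :
    ∑ x ∈ s, |D x| ≤ |∑ x ∈ s, D x| + 2 * ∑ x ∈ s.erase a, |D x| := by
  by_cases ha : a ∈ s
  · rw [← add_sum_erase s _ ha, ← add_sum_erase s D ha]
    have h1 : |∑ x ∈ s.erase a, D x| ≤ ∑ x ∈ s.erase a, |D x| := abs_sum_le_sum_abs _ _
    have h2 : |D a| ≤ |D a + ∑ x ∈ s.erase a, D x| + |∑ x ∈ s.erase a, D x| := by
      have := abs_sub (D a + ∑ x ∈ s.erase a, D x) (∑ x ∈ s.erase a, D x)
      simpa using this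
    linarith
  · rw [erase_eq_of_notMem ha]
    have h1 : 0 ≤ ∑ x ∈ s, |D x| := sum_nonneg fun _ _ => abs_nonneg _
    have h2 := abs_nonneg (∑ x ∈ s, D x)
    linarith

theorem model_union_le {α β : Type} (s : Finset α) (t : Finset β) (F : β → Finset α)
    (D : α → ℝ) (hD : ∀ x, 0 ≤ D x) (hs : ∀ x ∈ s, ∃ b ∈ t, x ∈ F b) :
    ∑ x ∈ s, D x ≤ ∑ b ∈ t, ∑ x ∈ F b, D x := by
  have h0 : ∀ x, ∀ b ∈ t, (0 : ℝ) ≤ if x ∈ F b then D x else 0 := fun x b _ => by
    split_ifs
    · exact hD x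
    · exact le_rfl
  calc ∑ x ∈ s, D x ≤ ∑ x ∈ s, ∑ b ∈ t, if x ∈ F b then D x else 0 := by
        refine sum_le_sum fun x hx => ?_
        obtain ⟨b, hb, hr⟩ := hs x hx
        have := single_le_sum (f := fun b => if x ∈ F b then D x else 0) (h0 x) hb
        simpa [hr] using this
    _ ≤ _ := by
        rw [sum_comm]
        refine sum_le_sum fun b _ => ?_
        rw [← sum_filter]
        exact sum_le_sum_of_subset_of_nonneg (fun x hx => (mem_filter.1 hx).2) fun x _ _ => hD x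

theorem model_g_le (p : ℕ) : (0 : ℝ) ≤ 2 / (p + 2) ∧ (2 / (p + 2) : ℝ) ≤ 1 := by
  have hp : (0 : ℝ) ≤ p := Nat.cast_nonneg p
  refine ⟨by positivity, ?_⟩
  rw [div_le_one (by positivity)]
  linarith

theorem model_ind_nonneg {J : Type} [Fintype J] (p : ℕ) (ω : J → Prop) : 0 ≤ indLaw p ω := by
  refine prod_nonneg fun j _ => ?_
  have := model_g_le p
  split_ifs <;> linarith [this.1, this.2]

theorem model_ind_marg {J : Type} [Fintype J] (p : ℕ) (A : Finset J) :
    ∑ ω : J → Prop with (∀ j ∈ A, ω j), indLaw p ω = (2 / (p + 2) : ℝ) ^ #A := by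
  have h := model_sum_prod (fun (j : J) (b : Prop) =>
    if b then (2 / (p + 2) : ℝ) else if j ∈ A then 0 else 1 - 2 / (p + 2))
  simp only [if_true, if_false] at h
  have h2 : ∏ j : J, ((2 / (p + 2) : ℝ) + if j ∈ A then (0 : ℝ) else 1 - 2 / (p + 2)) =
      (2 / (p + 2) : ℝ) ^ #A := by
    rw [← prod_const, ← prod_subset (subset_univ A)]
    · exact prod_congr rfl fun j hj => by simp [hj]
    · intro j _ hj
      simp [hj]
  rw [← h2, ← h, sum_filter]
  refine sum_congr rfl fun ω _ => ?_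
  split_ifs with hA
  · refine prod_congr rfl fun j _ => ?_
    by_cases hj : ω j
    · simp [hj]
    · have : j ∉ A := fun h => hj (hA j h)
      simp [hj, this]
  · push Not at hA
    obtain ⟨j, hj, hω⟩ := hA
    exact (prod_eq_zero (mem_univ j) (by simp [hj, hω])).symm

theorem tv_of_marg {J : Type} [Fintype J] (p : ℕ) (L : (J → Prop) → ℝ) (hL : ∀ ω, 0 ≤ L ω)
    (h1 : ∑ ω, L ω = 1) {δ : ℝ} (hj : ∀ j, |∑ ω with ω j, L ω - 2 / (p + 2)| ≤ δ)
    (hjk : ∀ j k, j ≠ k → ∑ ω with ω j ∧ ω k, L ω ≤ δ) (hg : (2 / (p + 2) : ℝ) ^ 2 ≤ δ) :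
    ∑ ω, |L ω - indLaw p ω| ≤ 8 * (Fintype.card J + 1) ^ 2 * δ := by
  have hδ : 0 ≤ δ := le_trans (sq_nonneg _) hg
  have q0 : ∑ ω : J → Prop, indLaw p ω = 1 := by
    simpa using model_ind_marg p (∅ : Finset J)
  have q1 : ∀ j, ∑ ω : J → Prop with ω j, indLaw p ω = 2 / (p + 2) := fun j => by
    simpa using model_ind_marg p ({j} : Finset J)
  have q2 : ∀ j k, j ≠ k → ∑ ω : J → Prop with ω j ∧ ω k, indLaw p ω ≤ δ := fun j k hjk => by
    have := model_ind_marg p ({j, k} : Finset J)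
    rw [card_pair hjk] at this
    refine le_trans (le_of_eq ?_) hg
    simpa using this
  have hn : (0 : ℝ) ≤ Fintype.card J := Nat.cast_nonneg _
  have step : ∀ j, ∑ ω : J → Prop with ω j, |L ω - indLaw p ω| ≤ δ + 4 * Fintype.card J * δ := by
    intro j
    refine (model_abs_split _ (fun k => k = j) _).trans ?_
    have e1 : |∑ ω : J → Prop with ω j, (L ω - indLaw p ω)| ≤ δ := by
      rw [sum_sub_distrib, q1]
      exact hj j
    have e2 : ∑ ω ∈ (univ.filter fun ω : J → Prop => ω j).erase (fun k => k = j),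
        |L ω - indLaw p ω| ≤ ∑ k ∈ univ.erase j, ∑ ω : J → Prop with ω j ∧ ω k,
          |L ω - indLaw p ω| := by
      refine model_union_le _ _ (fun k => univ.filter fun ω : J → Prop => ω j ∧ ω k)
        (fun ω => |L ω - indLaw p ω|) (fun _ => abs_nonneg _) ?_
      intro ω hω
      rw [mem_erase, mem_filter] at hω
      by_contra hc
      refine hω.1 (funext fun k => propext ⟨fun hk => ?_, fun hk => hk ▸ hω.2.2⟩)
      by_contra hkj
      exact hc ⟨k, mem_erase.2 ⟨hkj, mem_univ _⟩, mem_filter.2 ⟨mem_univ _, hω.2.2, hk⟩⟩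
    have e3 : ∑ k ∈ univ.erase j, ∑ ω : J → Prop with ω j ∧ ω k, |L ω - indLaw p ω| ≤
        ∑ _k ∈ univ.erase j, 2 * δ := by
      refine sum_le_sum fun k hk => ?_
      have hkj : j ≠ k := (mem_erase.1 hk).1.symm
      calc ∑ ω : J → Prop with ω j ∧ ω k, |L ω - indLaw p ω|
          ≤ ∑ ω : J → Prop with ω j ∧ ω k, (L ω + indLaw p ω) := by
            refine sum_le_sum fun ω _ => ?_
            have a1 := hL ω
            have a2 := model_ind_nonneg p ω
            rw [abs_le]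
            constructor <;> linarith
        _ ≤ 2 * δ := by
            rw [sum_add_distrib]
            linarith [hjk j k hkj, q2 j k hkj]
    have e4 : ∑ _k ∈ univ.erase j, 2 * δ ≤ Fintype.card J * (2 * δ) := by
      rw [sum_const, nsmul_eq_mul]
      refine mul_le_mul_of_nonneg_right ?_ (by positivity)
      exact_mod_cast card_le_univ _
    linarith
  refine (model_abs_split _ (fun _ => False) _).trans ?_
  have f1 : |∑ ω : J → Prop, (L ω - indLaw p ω)| = 0 := by
    rw [sum_sub_distrib, q0, h1]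
    simp
  have f2 : ∑ ω ∈ (univ : Finset (J → Prop)).erase (fun _ => False), |L ω - indLaw p ω| ≤
      ∑ j, ∑ ω : J → Prop with ω j, |L ω - indLaw p ω| := by
    refine model_union_le _ _ (fun j => univ.filter fun ω : J → Prop => ω j)
      (fun ω => |L ω - indLaw p ω|) (fun _ => abs_nonneg _) ?_
    intro ω hω
    by_contra hc
    exact (mem_erase.1 hω).1 (funext fun k => propext
      ⟨fun hk => hc ⟨k, mem_univ _, mem_filter.2 ⟨mem_univ _, hk⟩⟩, False.elim⟩)
  have f3 : ∑ j, ∑ ω : J → Prop with ω j, |L ω - indLaw p ω| ≤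
      Fintype.card J * (δ + 4 * Fintype.card J * δ) := by
    refine (sum_le_sum fun j _ => step j).trans (le_of_eq ?_)
    rw [sum_const, nsmul_eq_mul, card_univ]
  have f4 : 0 ≤ (Fintype.card J : ℝ) * δ := mul_nonneg hn hδ
  nlinarith

/-- The local factor of the sieve sum. -/
noncomputable def modelPhi (p : ℕ) (b : Prop) : ℝ := if b then -1 else 2 / p

/-- Coefficients after fixing the state at the prime `q`. -/
noncomputable def modelSh {J : Type} (q : ℕ) (ω : J → Prop) (y : J → Finset ℕ → ℝ) :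
    J → Finset ℕ → ℝ :=
  fun j S => y j S + modelPhi q (ω j) * y j (insert q S)

/-- The diagonal form. -/
noncomputable def modelMain {J : Type} [Fintype J] (U : Finset ℕ) (y y' : J → Finset ℕ → ℝ) : ℝ :=
  ∏ j, ∑ S ∈ U.powerset, y j S * y' j S * hS S

/-- The primes of the list follow the law `ν`, those of `U` the independent law. -/
noncomputable def modelT {J : Type} [Fintype J] (ν : ℕ → (J → Prop) → ℝ) (U : Finset ℕ) :
    List ℕ → (J → Finset ℕ → ℝ) → (J → Finset ℕ → ℝ) → ℝ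
  | [], y, y' => modelMain U y y'
  | q :: l, y, y' => ∑ ω, ν q ω * modelT ν U l (modelSh q ω y) (modelSh q ω y')

theorem model_sh_comm {J : Type} (q r : ℕ) (ω ω' : J → Prop) (y : J → Finset ℕ → ℝ) :
    modelSh r ω' (modelSh q ω y) = modelSh q ω (modelSh r ω' y) := by
  funext j S
  simp only [modelSh]
  rw [insert_comm q r S]
  ring

theorem model_lam_insert {P : Finset ℕ} {q : ℕ} (hq : q ∉ P) (y : Finset ℕ → ℝ) (Z : ℕ → Prop) :
    Lam (insert q P) y Z = Lam P (fun S => y S + modelPhi q (Z q) * y (insert q S)) Z := by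
  simp only [Lam]
  rw [sum_powerset_insert hq, ← sum_add_distrib]
  refine sum_congr rfl fun S hS => ?_
  have : q ∉ S := fun h => hq (mem_powerset.1 hS h)
  rw [prod_insert this]
  simp only [modelPhi]
  ring

theorem model_main_insert {J : Type} [Fintype J] {U : Finset ℕ} {q : ℕ} (hq : q ∉ U) (h2 : 2 ≤ q)
    (y y' : J → Finset ℕ → ℝ) :
    ∑ ω, indLaw q ω * modelMain U (modelSh q ω y) (modelSh q ω y') =
      modelMain (insert q U) y y' := by
  have h := model_sum_prod (fun (j : J) (b : Prop) =>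
    (if b then (2 / (q + 2) : ℝ) else 1 - 2 / (q + 2)) *
      ∑ S ∈ U.powerset, (y j S + modelPhi q b * y j (insert q S)) *
        (y' j S + modelPhi q b * y' j (insert q S)) * hS S)
  have hq0 : (0 : ℝ) < q := by exact_mod_cast (by omega : 0 < q)
  refine Eq.trans ?_ (h.trans ?_)
  · refine sum_congr rfl fun ω _ => ?_
    simp only [indLaw, modelMain, modelSh]
    rw [← prod_mul_distrib]
  · refine prod_congr rfl fun j _ => ?_
    rw [sum_powerset_insert hq, ← sum_add_distrib, mul_sum, mul_sum, ← sum_add_distrib]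
    refine sum_congr rfl fun S hS => ?_
    have hqS : q ∉ S := fun h => hq (mem_powerset.1 hS h)
    have e : EK.hS (insert q S) = 2 / q * EK.hS S := prod_insert hqS
    rw [e]
    simp only [modelPhi, if_true, if_false]
    field_simp
    ring

theorem model_T_insert {J : Type} [Fintype J] (ν : ℕ → (J → Prop) → ℝ) {U : Finset ℕ} {q : ℕ}
    (hq : q ∉ U) (h2 : 2 ≤ q) (l : List ℕ) : ∀ y y' : J → Finset ℕ → ℝ,
    ∑ ω, indLaw q ω * modelT ν U l (modelSh q ω y) (modelSh q ω y') =
      modelT ν (insert q U) l y y' := by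
  induction l with
  | nil => exact fun y y' => model_main_insert hq h2 y y'
  | cons r l ih =>
    intro y y'
    simp only [modelT, mul_sum]
    rw [sum_comm]
    refine sum_congr rfl fun ω' _ => ?_
    rw [← ih, mul_sum]
    refine sum_congr rfl fun ω _ => ?_
    rw [model_sh_comm q r ω ω' y, model_sh_comm q r ω ω' y']
    ring

theorem model_hS_nonneg (S : Finset ℕ) : 0 ≤ hS S := prod_nonneg fun _ _ => by positivity

theorem model_pr_nonneg (S : Finset ℕ) : 0 ≤ pr S := prod_nonneg fun _ _ => Nat.cast_nonneg _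

theorem model_Hs_nonneg (P : Finset ℕ) (z : ℝ) : 0 ≤ Hs P z :=
  sum_nonneg fun S _ => model_hS_nonneg S

theorem model_main_le {J : Type} [Fintype J] {U P : Finset ℕ} (hU : U ⊆ P) {z B : ℝ} (hB : 0 ≤ B)
    {y y' : J → Finset ℕ → ℝ} (hy : ∀ j S, |y j S| ≤ B ∧ (y j S ≠ 0 → pr S ≤ z))
    (hy' : ∀ j S, |y' j S| ≤ B ∧ (y' j S ≠ 0 → pr S ≤ z)) :
    |modelMain U y y'| ≤ (B ^ 2 * Hs P z) ^ Fintype.card J := by
  rw [modelMain, abs_prod, ← card_univ, ← prod_const]
  refine prod_le_prod (fun _ _ => abs_nonneg _) fun j _ => ?_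
  refine (abs_sum_le_sum_abs _ _).trans ?_
  have h0 : ∀ S, 0 ≤ B ^ 2 * if pr S ≤ z then hS S else 0 := fun S => by
    refine mul_nonneg (sq_nonneg _) ?_
    split_ifs
    · exact model_hS_nonneg S
    · exact le_rfl
  rw [Hs, sum_filter, mul_sum]
  refine le_trans (sum_le_sum fun S _ => ?_)
    (sum_le_sum_of_subset_of_nonneg (powerset_mono.2 hU) fun S _ _ => h0 S)
  by_cases h : y j S = 0
  · simpa [h] using h0 S
  · rw [if_pos ((hy j S).2 h), abs_mul, abs_mul, abs_of_nonneg (model_hS_nonneg S), sq]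
    refine mul_le_mul_of_nonneg_right ?_ (model_hS_nonneg S)
    exact mul_le_mul (hy j S).1 (hy' j S).1 (abs_nonneg _) hB

theorem model_sh_bound {J : Type} {q : ℕ} (h2 : 2 ≤ q) (ω : J → Prop) {z B : ℝ}
    {y : J → Finset ℕ → ℝ} (hy : ∀ j S, |y j S| ≤ B ∧ (y j S ≠ 0 → pr S ≤ z)) (j : J)
    (S : Finset ℕ) : |modelSh q ω y j S| ≤ 2 * B ∧ (modelSh q ω y j S ≠ 0 → pr S ≤ z) := by
  have hq : (2 : ℝ) ≤ q := by exact_mod_cast h2
  constructor
  · have hφ : |modelPhi q (ω j)| ≤ 1 := by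
      unfold modelPhi
      split_ifs
      · simp
      · rw [abs_of_nonneg (by positivity), div_le_one (by linarith)]
        exact hq
    have a1 := (hy j S).1
    have a2 := (hy j (insert q S)).1
    have a3 : |modelPhi q (ω j) * y j (insert q S)| ≤ B := by
      rw [abs_mul]
      nlinarith [abs_nonneg (y j (insert q S)), abs_nonneg (modelPhi q (ω j))]
    have := abs_add_le (y j S) (modelPhi q (ω j) * y j (insert q S))
    simp only [modelSh]
    linarith
  · intro h
    by_cases h0 : y j S = 0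
    · have h1 : y j (insert q S) ≠ 0 := fun h1 => h (by simp [modelSh, h0, h1])
      refine le_trans ?_ ((hy j _).2 h1)
      by_cases hS : q ∈ S
      · rw [insert_eq_of_mem hS]
      · have e : pr (insert q S) = q * pr S := prod_insert hS
        rw [e]
        nlinarith [model_pr_nonneg S]
    · exact (hy j S).2 h0

theorem model_T_bound {J : Type} [Fintype J] (ν : ℕ → (J → Prop) → ℝ) (P : Finset ℕ)
    (hP : ∀ p ∈ P, 2 ≤ p) (κ : ℕ → ℝ) (hκ : ∀ p ∈ P, ∑ ω, |ν p ω - indLaw p ω| ≤ κ p) (z : ℝ)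
    (l : List ℕ) : l.Nodup → (∀ p ∈ l, p ∈ P) → ∀ U : Finset ℕ, U ⊆ P → (∀ p ∈ l, p ∉ U) →
    ∀ B : ℝ, 0 ≤ B → ∀ y y' : J → Finset ℕ → ℝ,
    (∀ j S, |y j S| ≤ B ∧ (y j S ≠ 0 → pr S ≤ z)) → (∀ j S, |y' j S| ≤ B ∧ (y' j S ≠ 0 → pr S ≤ z)) →
    |modelT ν U l y y' - modelMain (l.toFinset ∪ U) y y'| ≤
      (∏ p ∈ l.toFinset, (1 + 4 ^ Fintype.card J * κ p) - 1) *
        (B ^ 2 * Hs P z) ^ Fintype.card J := by
  induction l with
  | nil =>
    intro _ _ U _ _ B _ y y' _ _
    simp [modelT]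
  | cons q l ih =>
    intro hnd hl U hU hlU B hB y y' hy hy'
    obtain ⟨hql, hnd⟩ := List.nodup_cons.1 hnd
    have hqP : q ∈ P := hl q (List.mem_cons_self ..)
    have hqU : q ∉ U := hlU q (List.mem_cons_self ..)
    have hl' : ∀ p ∈ l, p ∈ P := fun p hp => hl p (List.mem_cons_of_mem _ hp)
    have hlU' : ∀ p ∈ l, p ∉ U := fun p hp => hlU p (List.mem_cons_of_mem _ hp)
    have h2 := hP q hqP
    have e1 : modelT ν U (q :: l) y y' = modelT ν (insert q U) l y y' +
        ∑ ω, (ν q ω - indLaw q ω) * modelT ν U l (modelSh q ω y) (modelSh q ω y') := by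
      rw [← model_T_insert ν hqU h2, ← sum_add_distrib]
      simp only [modelT]
      exact sum_congr rfl fun ω _ => by ring
    have e2 : (q :: l).toFinset ∪ U = l.toFinset ∪ insert q U := by
      rw [List.toFinset_cons, insert_union, union_insert]
    have i1 := ih hnd hl' (insert q U) (insert_subset hqP hU)
      (fun p hp h => by
        rcases mem_insert.1 h with h | h
        · exact hql (h ▸ hp)
        · exact hlU' p hp h) B hB y y' hy hy'
    set A := ∏ p ∈ l.toFinset, (1 + 4 ^ Fintype.card J * κ p) with hA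
    set H := (B ^ 2 * Hs P z) ^ Fintype.card J with hH
    have hH0 : 0 ≤ H := pow_nonneg (mul_nonneg (sq_nonneg _) (model_Hs_nonneg P z)) _
    have hsub : l.toFinset ∪ U ⊆ P :=
      union_subset (fun p hp => hl' p (List.mem_toFinset.1 hp)) hU
    have e3 : ((2 * B) ^ 2 * Hs P z) ^ Fintype.card J = 4 ^ Fintype.card J * H := by
      rw [hH, ← mul_pow]
      congr 1
      ring
    have i2 : ∀ ω, |modelT ν U l (modelSh q ω y) (modelSh q ω y')| ≤
        A * (4 ^ Fintype.card J * H) := by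
      intro ω
      have a1 := ih hnd hl' U hU hlU' (2 * B) (by positivity) _ _
        (model_sh_bound h2 ω hy) (model_sh_bound h2 ω hy')
      have a2 := model_main_le hsub (by positivity : 0 ≤ 2 * B)
        (model_sh_bound h2 ω hy) (model_sh_bound h2 ω hy')
      rw [e3] at a1 a2
      have a3 := abs_sub_abs_le_abs_sub (modelT ν U l (modelSh q ω y) (modelSh q ω y'))
        (modelMain (l.toFinset ∪ U) (modelSh q ω y) (modelSh q ω y'))
      linarith
    have hA0 : 0 ≤ A * (4 ^ Fintype.card J * H) :=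
      le_trans (abs_nonneg _) (i2 fun _ => False)
    have i3 : |∑ ω, (ν q ω - indLaw q ω) * modelT ν U l (modelSh q ω y) (modelSh q ω y')| ≤
        κ q * (A * (4 ^ Fintype.card J * H)) := by
      refine (abs_sum_le_sum_abs _ _).trans ?_
      refine le_trans ?_ (mul_le_mul_of_nonneg_right (hκ q hqP) hA0)
      rw [sum_mul]
      refine sum_le_sum fun ω _ => ?_
      rw [abs_mul]
      exact mul_le_mul_of_nonneg_left (i2 ω) (abs_nonneg _)
    rw [e1, e2, List.toFinset_cons, prod_insert (fun h => hql (List.mem_toFinset.1 h)), ← hA]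
    have i4 := abs_add_le (modelT ν (insert q U) l y y' - modelMain (l.toFinset ∪ insert q U) y y')
      (∑ ω, (ν q ω - indLaw q ω) * modelT ν U l (modelSh q ω y) (modelSh q ω y'))
    rw [add_sub_right_comm]
    linarith

theorem model_link {Ω J : Type} [Fintype J] (s : Finset Ω) (Z : ℕ → J → Ω → Prop)
    (w ν : ℕ → (J → Prop) → ℝ) (l : List ℕ) : l.Nodup → ∀ (f₀ : Ω → ℝ) (m : ℝ),
    (∀ f : ℕ → (J → Prop) → ℝ,
      ∑ x ∈ s, f₀ x * ∏ p ∈ l.toFinset, (w p (fun j => Z p j x) * f p fun j => Z p j x) =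
        m * ∏ p ∈ l.toFinset, ∑ ω, ν p ω * f p ω) →
    ∀ y y' : J → Finset ℕ → ℝ,
      ∑ x ∈ s, f₀ x * (∏ p ∈ l.toFinset, w p fun j => Z p j x) *
          ∏ j, Lam l.toFinset (y j) (fun p => Z p j x) * Lam l.toFinset (y' j) (fun p => Z p j x) =
        m * modelT ν ∅ l y y' := by
  induction l with
  | nil =>
    intro _ f₀ m h y y'
    have h0 := h fun _ _ => 1
    simp only [List.toFinset_nil, prod_empty, mul_one] at h0
    simp [Lam, modelT, modelMain, hS, ← h0, sum_mul]
  | cons q l ih =>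
    intro hnd f₀ m h y y'
    obtain ⟨hql, hnd⟩ := List.nodup_cons.1 hnd
    have hq : q ∉ l.toFinset := fun h => hql (List.mem_toFinset.1 h)
    have key : ∀ ω, ∑ x ∈ s, (f₀ x * (w q (fun j => Z q j x) * ind ((fun j => Z q j x) = ω))) *
        (∏ p ∈ l.toFinset, w p fun j => Z p j x) *
          ∏ j, Lam l.toFinset (modelSh q ω y j) (fun p => Z p j x) *
            Lam l.toFinset (modelSh q ω y' j) (fun p => Z p j x) =
        (m * ν q ω) * modelT ν ∅ l (modelSh q ω y) (modelSh q ω y') := by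
      intro ω
      refine ih hnd _ _ (fun f => ?_) _ _
      have h1 := h (Function.update f q fun ω' => ind (ω' = ω))
      rw [List.toFinset_cons, prod_insert hq] at h1
      simp only [prod_insert hq, Function.update_self] at h1
      have h2 : ∑ ω', ν q ω' * ind (ω' = ω) = ν q ω := by simp [ind]
      have h3 : ∀ p ∈ l.toFinset, Function.update f q (fun ω' => ind (ω' = ω)) p = f p :=
        fun p hp => Function.update_of_ne (fun e : p = q => hq (e ▸ hp)) _ _
      rw [h2, prod_congr rfl fun p hp => by rw [h3 p hp], ← mul_assoc] at h1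
      rw [← h1]
      refine sum_congr rfl fun x _ => ?_
      rw [mul_assoc, prod_congr rfl fun p hp => by rw [← h3 p hp]]
    simp only [modelT, mul_sum, ← mul_assoc]
    rw [← sum_congr rfl fun ω _ => key ω, sum_comm]
    refine sum_congr rfl fun x _ => ?_
    rw [sum_eq_single (fun j => Z q j x)]
    · rw [List.toFinset_cons, prod_insert hq]
      simp only [model_lam_insert hq, ind, if_true, mul_one, mul_assoc]
      rfl
    · intro ω _ hω
      simp [ind, hω.symm]
    · simp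

theorem model {Ω J : Type} [Fintype J] (s : Finset Ω) (P : Finset ℕ) (hP : ∀ p ∈ P, 2 ≤ p)
    (Z : ℕ → J → Ω → Prop) (f₀ : Ω → ℝ) (hf : ∀ x, 0 ≤ f₀ x) (w : ℕ → (J → Prop) → ℝ)
    (hind : ∀ f : ℕ → (J → Prop) → ℝ,
      (∑ x ∈ s, f₀ x * ∏ p ∈ P, f p fun j => Z p j x) / #s =
        (∑ x ∈ s, f₀ x) / #s * ∏ p ∈ P, (∑ x ∈ s, f p fun j => Z p j x) / #s)
    (κ : ℕ → ℝ) (hκ : ∀ p ∈ P,
      ∑ ω, |w p ω * ((#{x ∈ s | (fun j => Z p j x) = ω} : ℝ) / #s) - indLaw p ω| ≤ κ p)
    (z : ℝ) (y y' : J → Finset ℕ → ℝ) (hy : ∀ j S, |y j S| ≤ 1 ∧ (y j S ≠ 0 → pr S ≤ z))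
    (hy' : ∀ j S, |y' j S| ≤ 1 ∧ (y' j S ≠ 0 → pr S ≤ z)) :
    |(∑ x ∈ s, f₀ x * (∏ p ∈ P, w p fun j => Z p j x) *
          ∏ j, Lam P (y j) (fun p => Z p j x) * Lam P (y' j) fun p => Z p j x) / #s -
        (∑ x ∈ s, f₀ x) / #s * ∏ j, ∑ S ∈ P.powerset, y j S * y' j S * hS S| ≤
      (∑ x ∈ s, f₀ x) / #s *
        ((∏ p ∈ P, (1 + 4 ^ Fintype.card J * κ p) - 1) * Hs P z ^ Fintype.card J) := by
  set ν : ℕ → (J → Prop) → ℝ :=
    fun p ω => w p ω * ((#{x ∈ s | (fun j => Z p j x) = ω} : ℝ) / #s) with hν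
  have hm : 0 ≤ (∑ x ∈ s, f₀ x) / #s :=
    div_nonneg (sum_nonneg fun x _ => hf x) (Nat.cast_nonneg _)
  have h1 := model_link s Z w ν P.toList P.nodup_toList (fun x => f₀ x / #s)
    ((∑ x ∈ s, f₀ x) / #s) (fun f => by
      rw [Finset.toList_toFinset]
      have h := hind fun p ω => w p ω * f p ω
      rw [sum_div] at h
      refine Eq.trans (sum_congr rfl fun x _ => by ring) (h.trans ?_)
      congr 1
      refine prod_congr rfl fun p _ => ?_
      rw [← sum_fiberwise s (fun x j => Z p j x), sum_div]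
      refine sum_congr rfl fun ω _ => ?_
      rw [sum_congr rfl (g := fun _ => w p ω * f p ω)
        fun x hx => by rw [(mem_filter.1 hx).2], sum_const, nsmul_eq_mul]
      simp only [hν]
      ring) y y'
  have h2 := model_T_bound ν P hP κ hκ z P.toList P.nodup_toList
    (fun p hp => mem_toList.1 hp) ∅ (empty_subset _) (fun p _ => notMem_empty p) 1 zero_le_one
    y y' hy hy'
  rw [Finset.toList_toFinset] at h1 h2
  rw [union_empty, one_pow, one_mul] at h2
  have h3 : (∑ x ∈ s, f₀ x * (∏ p ∈ P, w p fun j => Z p j x) *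
      ∏ j, Lam P (y j) (fun p => Z p j x) * Lam P (y' j) fun p => Z p j x) / #s =
      (∑ x ∈ s, f₀ x) / #s * modelT ν ∅ P.toList y y' := by
    rw [← h1, sum_div]
    exact sum_congr rfl fun x _ => by ring
  rw [h3, ← mul_sub, abs_mul, abs_of_nonneg hm]
  exact mul_le_mul_of_nonneg_left h2 hm

theorem cell_orth (P : Finset ℕ) {R : ℝ} (hR : 1 ≤ R) (a b : Fin 4) :
    ∑ S ∈ P.powerset, cell R a S * cell R b S * hS S = ind (a = b) * Ha P R a := by
  have key : ∀ a b : Fin 4, a < b → ∀ S, cell R a S * cell R b S = 0 := by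
    intro a b hab S
    simp only [cell, ind]
    split_ifs with h1 h2
    · exfalso
      have hb : b ≠ 0 := fun h => by simp [h] at hab
      have h3 := h2.1.resolve_left hb
      have h4 : ((a : ℕ) : ℝ) + 1 ≤ ((b : ℕ) : ℝ) := by exact_mod_cast hab
      have h5 : R ^ ((((a : ℕ) : ℝ) + 1) / 6) ≤ R ^ (((b : ℕ) : ℝ) / 6) :=
        Real.rpow_le_rpow_of_exponent_le hR (by linarith)
      linarith [h1.2]
    all_goals simp
  rcases lt_trichotomy a b with h | h | h
  · simp [key a b h, ind, h.ne]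
  · subst h
    simp only [ind, if_true, one_mul, Ha]
    refine sum_congr rfl fun S _ => ?_
    simp only [cell, ind]
    split_ifs <;> simp
  · have : ∀ S, cell R a S * cell R b S = 0 := fun S => by rw [mul_comm, key b a h]
    simp [this, ind, h.ne']

theorem cell_bound {R : ℝ} (hR : 1 ≤ R) (a : Fin 4) (S : Finset ℕ) :
    |cell R a S| ≤ 1 ∧ (cell R a S ≠ 0 → pr S ≤ R) := by
  simp only [cell, ind]
  split_ifs with h
  · refine ⟨by simp, fun _ => h.2.trans ?_⟩
    have h4 : ((a : ℕ) : ℝ) ≤ 3 := by exact_mod_cast Nat.le_of_lt_succ a.2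
    calc R ^ ((((a : ℕ) : ℝ) + 1) / 6) ≤ R ^ (1 : ℝ) :=
          Real.rpow_le_rpow_of_exponent_le hR (by linarith)
      _ = R := Real.rpow_one R
  · simp

end Pool.Agent.P.MP_a1177c_nt.EK
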