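import Pool.Agent.P.MP_a1177c_nt.EK.Expand
import Pool.Agent.P.MP_a1177c_nt.EK.Count
import Pool.Agent.P.MP_a1177c_nt.EK.Model

set_option autoImplicit false

namespace Pool.Agent.P.MP_a1177c_nt.EK

open Finset Filter
open scoped Classical

theorem crude_one_le_beta (P : Finset ℕ) {C : ℝ} (hC : 0 ≤ C) (N : ℤ) : 1 ≤ beta P C N := by
  unfold beta
  refine le_of_eq_of_le (Finset.prod_const_one (s := P)).symm
    (Finset.prod_le_prod (fun _ _ => zero_le_one) fun p _ => ?_)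
  have : (0 : ℝ) ≤ if (p : ℤ) ∣ N then C / p else C / (p : ℝ) ^ 2 := by
    split_ifs <;> positivity
  linarith

theorem crude_beta_le (P : Finset ℕ) (hP : ∀ p ∈ P, p.Prime) {C : ℝ} (hC : 0 ≤ C) {N : ℤ}
    (hN : N ≠ 0) : beta P C N ≤ (1 + C) ^ #N.natAbs.primeFactors *
      Real.exp (C * ∑' n : ℕ, 1 / (n : ℝ) ^ 2) := by
  have hs : Summable fun n : ℕ => 1 / (n : ℝ) ^ 2 := Real.summable_one_div_nat_pow.mpr one_lt_two
  have h1 : beta P C N ≤ ∏ p ∈ P, ((if (p : ℤ) ∣ N then 1 + C else 1) *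
      Real.exp (C * (1 / (p : ℝ) ^ 2))) := by
    unfold beta
    refine Finset.prod_le_prod (fun p _ => ?_) fun p hp => ?_
    · split_ifs <;> positivity
    · have hp1 : (1 : ℝ) ≤ p := by exact_mod_cast (hP p hp).one_le
      have he : 1 + C * (1 / (p : ℝ) ^ 2) ≤ Real.exp (C * (1 / (p : ℝ) ^ 2)) := by
        have := Real.add_one_le_exp (C * (1 / (p : ℝ) ^ 2))
        linarith
      have h0 : 0 ≤ C * (1 / (p : ℝ) ^ 2) := by positivity
      split_ifs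
      · have : C / p ≤ C := div_le_self hC hp1
        nlinarith
      · rw [one_mul, div_eq_mul_one_div]
        exact he
  refine h1.trans ?_
  rw [Finset.prod_mul_distrib, ← Real.exp_sum, ← Finset.mul_sum]
  refine mul_le_mul ?_ (Real.exp_le_exp.mpr (mul_le_mul_of_nonneg_left
    (hs.sum_le_tsum P fun _ _ => by positivity) hC)) (by positivity) (by positivity)
  rw [← Finset.prod_filter, Finset.prod_const]
  refine pow_le_pow_right₀ (by linarith) (Finset.card_le_card fun p hp => ?_)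
  rw [Finset.mem_filter] at hp
  rw [Nat.mem_primeFactors]
  exact ⟨hP p hp.1, Int.natCast_dvd.mp hp.2, Int.natAbs_ne_zero.mpr hN⟩

theorem crude_hS_nonneg (S : Finset ℕ) : 0 ≤ hS S := by
  unfold hS
  exact Finset.prod_nonneg fun _ _ => by positivity

theorem crude_Hs_nonneg (P : Finset ℕ) (z : ℝ) : 0 ≤ Hs P z :=
  Finset.sum_nonneg fun S _ => crude_hS_nonneg S

theorem crude_Ha (P : Finset ℕ) {R : ℝ} (hR : 1 ≤ R) (a : Fin 4) :
    0 ≤ Ha P R a ∧ Ha P R a ≤ Hs P R := by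
  have h0 : ∀ S, 0 ≤ cell R a S := fun S => by
    unfold cell ind
    split_ifs <;> norm_num
  refine ⟨Finset.sum_nonneg fun S _ => mul_nonneg (h0 S) (crude_hS_nonneg S), ?_⟩
  unfold Ha Hs
  rw [Finset.sum_filter]
  refine Finset.sum_le_sum fun S _ => ?_
  have hb := cell_bound hR a S
  split_ifs with h
  · have := (abs_le.mp hb.1).2
    have := crude_hS_nonneg S
    nlinarith
  · have : cell R a S = 0 := by
      by_contra hne
      exact h (hb.2 hne)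
    simp [this]

theorem crude_F3_le (a : Fin 4) (α : Fin 3 → Fin 4) : (F3 a α : ℝ) ≤ 10 := by
  have : F3 a α ≤ 10 := by
    unfold F3 tab
    split_ifs <;> omega
  exact_mod_cast this

theorem crude_Qf_le (P : Finset ℕ) {R : ℝ} (hR : 1 ≤ R) (k : ℕ) {B : ℝ}
    (hB : ∀ a, |La P R a k| ≤ B) : Qf P R k ≤ 102400 * (B ^ 2 * Hs P R ^ 3) := by
  have hB0 : 0 ≤ B := (abs_nonneg _).trans (hB 0)
  have h : ∀ α : Fin 3 → Fin 4, (∏ j, Ha P R (α j)) * (∑ a, (F3 a α : ℝ) * La P R a k) ^ 2 ≤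
      Hs P R ^ 3 * (40 * B) ^ 2 := by
    intro α
    have h1 : ∏ j, Ha P R (α j) ≤ Hs P R ^ 3 := by
      calc ∏ j, Ha P R (α j) ≤ ∏ _j : Fin 3, Hs P R :=
            Finset.prod_le_prod (fun j _ => (crude_Ha P hR _).1) fun j _ => (crude_Ha P hR _).2
        _ = Hs P R ^ 3 := by simp
    have h2 : |∑ a, (F3 a α : ℝ) * La P R a k| ≤ 40 * B := by
      calc |∑ a, (F3 a α : ℝ) * La P R a k| ≤ ∑ a, |(F3 a α : ℝ) * La P R a k| :=
            Finset.abs_sum_le_sum_abs _ _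
        _ ≤ ∑ _a : Fin 4, 10 * B := Finset.sum_le_sum fun a _ => by
            rw [abs_mul, abs_of_nonneg (Nat.cast_nonneg _)]
            exact mul_le_mul (crude_F3_le a α) (hB a) (abs_nonneg _) (by norm_num)
        _ = 40 * B := by simp; ring
    have h3 : (∑ a, (F3 a α : ℝ) * La P R a k) ^ 2 ≤ (40 * B) ^ 2 := by
      rw [← sq_abs]
      exact pow_le_pow_left₀ (abs_nonneg _) h2 2
    exact mul_le_mul h1 h3 (sq_nonneg _) (pow_nonneg (crude_Hs_nonneg P R) 3)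
  calc Qf P R k ≤ ∑ _α : Fin 3 → Fin 4, Hs P R ^ 3 * (40 * B) ^ 2 :=
        Finset.sum_le_sum fun α _ => h α
    _ = 102400 * (B ^ 2 * Hs P R ^ 3) := by simp; ring

theorem crude_Lstar (P : Finset ℕ) (R : ℝ) (k : ℕ) {B : ℝ} (hB : ∀ a, |La P R a k| ≤ B) :
    0 ≤ Lstar P R k ∧ Lstar P R k ≤ 4 * B ^ 2 := by
  refine ⟨Finset.sum_nonneg fun _ _ => sq_nonneg _, ?_⟩
  calc Lstar P R k ≤ ∑ _a : Fin 4, B ^ 2 := Finset.sum_le_sum fun a _ => by
        rw [← sq_abs]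
        exact pow_le_pow_left₀ (abs_nonneg _) (hB a) 2
    _ = 4 * B ^ 2 := by simp

theorem crude_N (m c : Fin 3 → ℤ) (hc : ∀ k, c k ≠ 0) (G : ℕ) (hG : 0 < G) {X : ℝ} (hX : 1 ≤ X)
    {n k : ℕ} (hn : (n : ℝ) ≤ X) (hk : (k : ℝ) ≤ X) (hk0 : k ≠ 0) :
    ((G * k : ℕ) * Dv m c ((n * (G * k) : ℕ)) : ℤ) ≠ 0 ∧
      ((((G * k : ℕ) * Dv m c ((n * (G * k) : ℕ)) : ℤ).natAbs : ℕ) : ℝ) ≤
        (G * ∏ j, (((m j : ℝ) * G) ^ 2 + (c j : ℝ) ^ 2)) * X ^ 13 := by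
  have hD : 0 < Dv m c ((n * (G * k) : ℕ)) := by
    unfold Dv
    exact Finset.prod_pos fun j _ => by
      have := hc j
      positivity
  have hGk : (0 : ℤ) < (G * k : ℕ) := by
    exact_mod_cast Nat.mul_pos hG (Nat.pos_of_ne_zero hk0)
  refine ⟨(mul_pos hGk hD).ne', ?_⟩
  rw [← Int.cast_natCast, Int.natCast_natAbs, abs_of_pos (mul_pos hGk hD)]
  have h1 : ((Dv m c ((n * (G * k) : ℕ)) : ℤ) : ℝ) ≤
      ∏ j, ((((m j : ℝ) * G) ^ 2 + (c j : ℝ) ^ 2) * X ^ 4) := by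
    unfold Dv
    push_cast
    refine Finset.prod_le_prod (fun j _ => by positivity) fun j _ => ?_
    have hX4 : 1 ≤ X ^ 4 := one_le_pow₀ hX
    have hnk : ((n : ℝ) * k) ^ 2 ≤ X ^ 4 := by
      have : (n : ℝ) * k ≤ X * X := mul_le_mul hn hk (Nat.cast_nonneg _) (by linarith)
      calc ((n : ℝ) * k) ^ 2 ≤ (X * X) ^ 2 := pow_le_pow_left₀ (by positivity) this 2
        _ = X ^ 4 := by ring
    have e : ((m j : ℝ) * (n * (G * k))) ^ 2 = ((m j : ℝ) * G) ^ 2 * ((n : ℝ) * k) ^ 2 := by ring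
    rw [e, add_mul]
    refine add_le_add (mul_le_mul_of_nonneg_left hnk (sq_nonneg _)) ?_
    exact le_mul_of_one_le_right (sq_nonneg _) hX4
  rw [Finset.prod_mul_distrib] at h1
  have h2 : ∏ _j : Fin 3, X ^ 4 = X ^ 12 := by simp; ring
  rw [h2] at h1
  rw [Int.cast_mul]
  have h3 : (((G * k : ℕ) : ℤ) : ℝ) ≤ G * X := by
    push_cast
    exact mul_le_mul_of_nonneg_left hk (Nat.cast_nonneg _)
  calc (((G * k : ℕ) : ℤ) : ℝ) * ((Dv m c ((n * (G * k) : ℕ)) : ℤ) : ℝ)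
      ≤ (G * X) * ((∏ j, (((m j : ℝ) * G) ^ 2 + (c j : ℝ) ^ 2)) * X ^ 12) :=
        mul_le_mul h3 h1 (by exact_mod_cast hD.le) (by positivity)
    _ = _ := by ring

theorem crude (C₁ δ : ℝ) (hC : 0 ≤ C₁) (hδ : 0 < δ) (m c : Fin 3 → ℤ) (hc : ∀ k, c k ≠ 0)
    (G : ℕ) (hG : 0 < G) : ∀ᶠ X : ℝ in atTop, ∀ P : Finset ℕ, (∀ p ∈ P, p.Prime) →
    ∀ R : ℝ, 1 ≤ R → R ≤ X → ∀ n k : ℕ, (n : ℝ) ≤ X → (k : ℝ) ≤ X → k ≠ 0 →
      0 ≤ errW P R C₁ m c G n k ∧ Qf P R k + errW P R C₁ m c G n k ≤ X ^ δ := by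
  set η : ℝ := δ / 26 with hη
  have hη0 : 0 < η := by positivity
  obtain ⟨C₂, hC₂⟩ := pow_omega_le (1 + C₁) η (by linarith) hη0
  obtain ⟨C₃, hC₃⟩ := pow_omega_le 2 η (by norm_num) hη0
  have hC₂0 : 0 ≤ C₂ := by
    have := hC₂ 1 one_ne_zero
    simp at this
    linarith
  have hC₃0 : 0 ≤ C₃ := by
    have := hC₃ 1 one_ne_zero
    simp at this
    linarith
  set K : ℝ := G * ∏ j, (((m j : ℝ) * G) ^ 2 + (c j : ℝ) ^ 2) with hK
  have hK0 : 0 ≤ K := by positivity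
  set A : ℝ := C₂ * K ^ η * Real.exp (C₁ * ∑' n : ℕ, 1 / (n : ℝ) ^ 2) with hA
  have hA0 : 0 ≤ A := by positivity
  set D : ℝ := 1 + 1 / η with hD
  have hD0 : 0 ≤ D := by positivity
  filter_upwards [(tendsto_rpow_atTop hη0).eventually_ge_atTop
    ((102400 + 4 * C₁ * A) * C₃ ^ 2 * D ^ 10)] with X hXu P hP R hR hRX n k hn hk hk0
  have hX : 1 ≤ X := hR.trans hRX
  have hX0 : 0 ≤ X := by linarith
  set u : ℝ := X ^ η with hu
  have hu1 : 1 ≤ u := Real.one_le_rpow hX hη0.le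
  have hH0 := crude_Hs_nonneg P R
  have hH : Hs P R ≤ (D * u) ^ 2 := by
    refine (Hs_le P hP hR).trans (pow_le_pow_left₀ ?_ ?_ 2)
    · have := Real.log_nonneg hR
      linarith
    · have h1 : Real.log R ≤ Real.log X := Real.log_le_log (by linarith) hRX
      have h2 : Real.log X ≤ X ^ η / η := Real.log_le_rpow_div hX0 hη0
      have h3 : D * u = u + u / η := by rw [hD]; ring
      rw [h3]
      linarith
  have hLa : ∀ a, |La P R a k| ≤ C₃ * u * Hs P R := fun a => by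
    refine (abs_lam_le P hP (cell_bound hR a) hk0).trans (mul_le_mul_of_nonneg_right ?_ hH0)
    exact (hC₃ k hk0).trans (mul_le_mul_of_nonneg_left
      (Real.rpow_le_rpow (Nat.cast_nonneg _) hk hη0.le) hC₃0)
  obtain ⟨hN0, hN⟩ := crude_N m c hc G hG hX hn hk hk0
  have hβ1 := crude_one_le_beta P hC ((G * k : ℕ) * Dv m c ((n * (G * k) : ℕ)))
  have hβ : beta P C₁ ((G * k : ℕ) * Dv m c ((n * (G * k) : ℕ))) ≤ A * u ^ 13 := by
    refine (crude_beta_le P hP hC hN0).trans ?_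
    have h1 := hC₂ _ (Int.natAbs_ne_zero.mpr hN0)
    have h2 := Real.rpow_le_rpow (Nat.cast_nonneg _) hN hη0.le
    have h3 : (K * X ^ 13) ^ η = K ^ η * u ^ 13 := by
      rw [Real.mul_rpow hK0 (by positivity), hu, ← Real.rpow_natCast, ← Real.rpow_natCast,
        ← Real.rpow_mul hX0, ← Real.rpow_mul hX0, mul_comm η]
    rw [h3] at h2
    calc _ ≤ C₂ * (K ^ η * u ^ 13) * Real.exp (C₁ * ∑' n : ℕ, 1 / (n : ℝ) ^ 2) :=
          mul_le_mul_of_nonneg_right (h1.trans (mul_le_mul_of_nonneg_left h2 hC₂0)) (by positivity)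
      _ = A * u ^ 13 := by rw [hA]; ring
  obtain ⟨hL0, hL⟩ := crude_Lstar P R k hLa
  have hQ := crude_Qf_le P hR k hLa
  have herr0 : 0 ≤ errW P R C₁ m c G n k := by
    unfold errW
    exact mul_nonneg (mul_nonneg (mul_nonneg hC (by linarith)) hL0) (pow_nonneg hH0 3)
  refine ⟨herr0, ?_⟩
  set T : ℝ := (C₃ * u * Hs P R) ^ 2 * Hs P R ^ 3 with hT
  have hT0 : 0 ≤ T := by positivity
  have hu13 : 1 ≤ u ^ 13 := one_le_pow₀ hu1
  have herr : errW P R C₁ m c G n k ≤ 4 * C₁ * A * u ^ 13 * T := by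
    unfold errW
    calc _ ≤ C₁ * (A * u ^ 13) * (4 * (C₃ * u * Hs P R) ^ 2) * Hs P R ^ 3 := by
          refine mul_le_mul_of_nonneg_right (mul_le_mul (mul_le_mul_of_nonneg_left (by linarith) hC)
            hL hL0 (by positivity)) (pow_nonneg hH0 3)
      _ = _ := by rw [hT]; ring
  have hTle : T ≤ C₃ ^ 2 * D ^ 10 * u ^ 12 := by
    have h5 : Hs P R ^ 5 ≤ ((D * u) ^ 2) ^ 5 := pow_le_pow_left₀ hH0 hH 5
    calc T = C₃ ^ 2 * u ^ 2 * Hs P R ^ 5 := by rw [hT]; ring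
      _ ≤ C₃ ^ 2 * u ^ 2 * ((D * u) ^ 2) ^ 5 := mul_le_mul_of_nonneg_left h5 (by positivity)
      _ = _ := by ring
  have hfin : X ^ δ = u ^ 26 := by
    rw [hu, ← Real.rpow_natCast, ← Real.rpow_mul hX0, hη]
    congr 1
    push_cast
    ring
  have hQ' : Qf P R k ≤ 102400 * u ^ 13 * T := by
    refine hQ.trans ?_
    have : T ≤ u ^ 13 * T := le_mul_of_one_le_left hT0 hu13
    linarith
  calc Qf P R k + errW P R C₁ m c G n k ≤ (102400 + 4 * C₁ * A) * u ^ 13 * T := by linarith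
    _ ≤ (102400 + 4 * C₁ * A) * u ^ 13 * (C₃ ^ 2 * D ^ 10 * u ^ 12) :=
        mul_le_mul_of_nonneg_left hTle (by positivity)
    _ = (102400 + 4 * C₁ * A) * C₃ ^ 2 * D ^ 10 * u ^ 25 := by ring
    _ ≤ u * u ^ 25 := mul_le_mul_of_nonneg_right hXu (by positivity)
    _ = X ^ δ := by rw [hfin]; ring

end Pool.Agent.P.MP_a1177c_nt.EK
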