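import Pool.Agent.P.MP_a1177c_nt.EK.Defs

set_option autoImplicit false

namespace Pool.Agent.P.MP_a1177c_nt.EK

open Finset Filter
open scoped Classical

variable {J : Type} {q : J → ℕ} {ι x y : J → ℤ}

theorem cset_mul_apply (a b : SL) (i j : Fin 2) :
    (a * b) i j = a i 0 * b 0 j + a i 1 * b 1 j := by
  change (a.1 * b.1) i j = _
  rw [Matrix.mul_apply, Fin.sum_univ_two]

theorem cset_det (a : SL) : a 0 0 * a 1 1 - a 0 1 * a 1 0 = 1 := by
  have h := a.det_coe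
  rw [Matrix.det_fin_two] at h
  exact h

theorem cset_inv00 (a : SL) : a⁻¹ 0 0 = a 1 1 := by
  rw [Matrix.SpecialLinearGroup.SL2_inv_expl]; rfl

theorem cset_inv01 (a : SL) : a⁻¹ 0 1 = - a 0 1 := by
  rw [Matrix.SpecialLinearGroup.SL2_inv_expl]; rfl

theorem cset_inv10 (a : SL) : a⁻¹ 1 0 = - a 1 0 := by
  rw [Matrix.SpecialLinearGroup.SL2_inv_expl]; rfl

theorem cset_inv11 (a : SL) : a⁻¹ 1 1 = a 0 0 := by
  rw [Matrix.SpecialLinearGroup.SL2_inv_expl]; rfl

theorem cset_nT00 (t : ℤ) : nT t 0 0 = 1 := by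
  change (ModularGroup.T ^ t).1 0 0 = 1
  rw [ModularGroup.coe_T_zpow]; rfl

theorem cset_nT01 (t : ℤ) : nT t 0 1 = t := by
  change (ModularGroup.T ^ t).1 0 1 = t
  rw [ModularGroup.coe_T_zpow]; rfl

theorem cset_nT10 (t : ℤ) : nT t 1 0 = 0 := by
  change (ModularGroup.T ^ t).1 1 0 = 0
  rw [ModularGroup.coe_T_zpow]; rfl

theorem cset_nT11 (t : ℤ) : nT t 1 1 = 1 := by
  change (ModularGroup.T ^ t).1 1 1 = 1
  rw [ModularGroup.coe_T_zpow]; rfl

theorem nT_add (s t : ℤ) : nT (s + t) = nT s * nT t := by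
  unfold nT
  exact zpow_add _ _ _

theorem act_nT (h : SL) (t a b : ℤ) : act (h * nT t) a b = act h (a + t * b) b := by
  unfold act
  simp only [cset_mul_apply, cset_nT00, cset_nT01, cset_nT10, cset_nT11]
  congr 1 <;> ring

theorem cset_shift (h : SL) (t : ℤ) :
    h * nT t ∈ Cset q ι x y ↔ h ∈ Cset q ι (fun j => x j + t * y j) y := by
  simp only [Cset, Set.mem_ofPred_eq, act_nT]

theorem cset_ell_act (i : ℤ) (h : SL) (a b : ℤ) :
    ell i (act h a b) = (h 0 0 * a + h 0 1 * b) + i * (h 1 0 * a + h 1 1 * b) := rfl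

theorem cset_cos (hι : ∀ j, (q j : ℤ) ∣ ι j ^ 2 + 1) (hy : ∀ j, IsCoprime (y j) (q j : ℤ)) :
    Cos (Cset q ι x y) := by
  intro a ha b hb c hc j
  obtain ⟨ka, hka⟩ := ha j
  obtain ⟨kb, hkb⟩ := hb j
  obtain ⟨kc, hkc⟩ := hc j
  rw [cset_ell_act] at hka hkb hkc
  have hb1 := cset_det b
  apply (hy j).symm.dvd_of_dvd_mul_left
  rw [cset_ell_act]
  simp only [cset_mul_apply, cset_inv00, cset_inv01, cset_inv10, cset_inv11]
  set X := x j
  set Y := y j
  set I := ι j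
  set Q : ℤ := (q j : ℤ)
  -- `u = b⁻¹ c v`
  set c1 := c 0 0 * X + c 0 1 * Y with hc1
  set c2 := c 1 0 * X + c 1 1 * Y with hc2
  set b1 := b 0 0 * X + b 0 1 * Y with hb1'
  set b2 := b 1 0 * X + b 1 1 * Y with hb2
  refine ⟨(- b 1 0 * c1 + b 0 0 * c2) * ka - (a 0 0 + I * a 1 0) * (kb * c2 - kc * b2), ?_⟩
  have e1 : b1 = Q * kb - I * b2 := by linarith
  have e2 : c1 = Q * kc - I * c2 := by linarith
  have e3 : X * (- b 1 0 * c1 + b 0 0 * c2) - Y * (b 1 1 * c1 - b 0 1 * c2) =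
      Q * (kb * c2 - kc * b2) := by
    have : X * (- b 1 0 * c1 + b 0 0 * c2) - Y * (b 1 1 * c1 - b 0 1 * c2) = b1 * c2 - b2 * c1 := by
      rw [hb1', hb2]; ring
    rw [this, e1, e2]; ring
  have e4 : Y * (((a 0 0 * b 1 1 + a 0 1 * -b 1 0) * c 0 0 + (a 0 0 * -b 0 1 + a 0 1 * b 0 0) * c 1 0) * X +
        ((a 0 0 * b 1 1 + a 0 1 * -b 1 0) * c 0 1 + (a 0 0 * -b 0 1 + a 0 1 * b 0 0) * c 1 1) * Y +
      I * (((a 1 0 * b 1 1 + a 1 1 * -b 1 0) * c 0 0 + (a 1 0 * -b 0 1 + a 1 1 * b 0 0) * c 1 0) * X +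
        ((a 1 0 * b 1 1 + a 1 1 * -b 1 0) * c 0 1 + (a 1 0 * -b 0 1 + a 1 1 * b 0 0) * c 1 1) * Y)) =
      (- b 1 0 * c1 + b 0 0 * c2) * (a 0 0 * X + a 0 1 * Y + I * (a 1 0 * X + a 1 1 * Y)) -
        (a 0 0 + I * a 1 0) *
          (X * (- b 1 0 * c1 + b 0 0 * c2) - Y * (b 1 1 * c1 - b 0 1 * c2)) := by
    rw [hc1, hc2]; ring
  rw [e4, e3, hka]; ring

theorem cset_gamma_dvd {M : ℕ} {γ : SL} (hγ : γ ∈ CongruenceSubgroup.Gamma M) :
    (M : ℤ) ∣ γ 0 0 - 1 ∧ (M : ℤ) ∣ γ 0 1 ∧ (M : ℤ) ∣ γ 1 0 ∧ (M : ℤ) ∣ γ 1 1 - 1 := by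
  rw [CongruenceSubgroup.Gamma_mem] at hγ
  obtain ⟨h1, h2, h3, h4⟩ := hγ
  refine ⟨?_, ?_, ?_, ?_⟩
  · rw [← ZMod.intCast_zmod_eq_zero_iff_dvd]; push_cast; rw [h1]; ring
  · rw [← ZMod.intCast_zmod_eq_zero_iff_dvd]; exact h2
  · rw [← ZMod.intCast_zmod_eq_zero_iff_dvd]; exact h3
  · rw [← ZMod.intCast_zmod_eq_zero_iff_dvd]; push_cast; rw [h4]; ring

theorem cset_mem_gamma {M : ℕ} {γ : SL} (h1 : (M : ℤ) ∣ γ 0 0 - 1) (h2 : (M : ℤ) ∣ γ 0 1)
    (h3 : (M : ℤ) ∣ γ 1 0) (h4 : (M : ℤ) ∣ γ 1 1 - 1) : γ ∈ CongruenceSubgroup.Gamma M := by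
  rw [CongruenceSubgroup.Gamma_mem]
  rw [← ZMod.intCast_zmod_eq_zero_iff_dvd] at h1 h2 h3 h4
  push_cast at h1 h4
  exact ⟨sub_eq_zero.mp h1, h2, h3, sub_eq_zero.mp h4⟩

theorem cset_lev {M : ℕ} (hM : ∀ j, q j ∣ M) : Lev M fun h => ind (h ∈ Cset q ι x y) := by
  intro h γ hγ
  obtain ⟨h1, h2, h3, h4⟩ := cset_gamma_dvd hγ
  have key : ∀ j, (q j : ℤ) ∣ ell (ι j) (act (h * γ) (x j) (y j)) - ell (ι j) (act h (x j) (y j)) := by
    intro j
    have hq : (q j : ℤ) ∣ (M : ℤ) := Int.natCast_dvd_natCast.mpr (hM j)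
    refine hq.trans ?_
    obtain ⟨k1, e1⟩ := h1
    obtain ⟨k2, e2⟩ := h2
    obtain ⟨k3, e3⟩ := h3
    obtain ⟨k4, e4⟩ := h4
    have e1' : γ 0 0 = 1 + M * k1 := by linarith
    have e4' : γ 1 1 = 1 + M * k4 := by linarith
    simp only [cset_ell_act, cset_mul_apply, e1', e2, e3, e4']
    exact ⟨(h 0 0 + ι j * h 1 0) * (k1 * x j + k2 * y j) +
      (h 0 1 + ι j * h 1 1) * (k3 * x j + k4 * y j), by ring⟩
  have : (h * γ ∈ Cset q ι x y) ↔ (h ∈ Cset q ι x y) := by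
    refine forall_congr' fun j => ?_
    exact (dvd_iff_dvd_of_dvd_sub (key j))
  simp only [this]

theorem cset_left (hι : ∀ j, (q j : ℤ) ∣ ι j ^ 2 + 1) (hy : ∀ j, IsCoprime (y j) (q j : ℤ))
    {a b : SL} (ha : a ∈ Cset q ι x y) (hb : b ∈ Cset q ι x y) (j : J) :
    (q j : ℤ) ∣ xiN (a * b⁻¹) := by
  have ha' := ha j
  have hb' := hb j
  have hι' := hι j
  have hy' := hy j
  rw [cset_ell_act] at ha' hb'
  have hb1 := cset_det b
  rw [← ZMod.intCast_zmod_eq_zero_iff_dvd] at ha' hb' hι' ⊢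
  have hu : IsUnit ((y j : ℤ) : ZMod (q j)) := by
    obtain ⟨u, v, huv⟩ := hy'
    have := congrArg (Int.cast : ℤ → ZMod (q j)) huv
    push_cast at this
    rw [ZMod.natCast_self, mul_zero, add_zero] at this
    exact IsUnit.of_mul_eq_one_right _ this
  have hb2 := congrArg (Int.cast : ℤ → ZMod (q j)) hb1
  unfold xiN
  simp only [cset_mul_apply, cset_inv00, cset_inv01, cset_inv10, cset_inv11]
  push_cast at ha' hb' hι' hb2 ⊢
  set X : ZMod (q j) := ((x j : ℤ) : ZMod (q j))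
  set Y : ZMod (q j) := ((y j : ℤ) : ZMod (q j))
  set I : ZMod (q j) := ((ι j : ℤ) : ZMod (q j))
  set a1 : ZMod (q j) := ((a 0 0 : ℤ) : ZMod (q j))
  set a2 : ZMod (q j) := ((a 0 1 : ℤ) : ZMod (q j))
  set a3 : ZMod (q j) := ((a 1 0 : ℤ) : ZMod (q j))
  set a4 : ZMod (q j) := ((a 1 1 : ℤ) : ZMod (q j))
  set b1 : ZMod (q j) := ((b 0 0 : ℤ) : ZMod (q j))
  set b2 : ZMod (q j) := ((b 0 1 : ℤ) : ZMod (q j))
  set b3 : ZMod (q j) := ((b 1 0 : ℤ) : ZMod (q j))
  set b4 : ZMod (q j) := ((b 1 1 : ℤ) : ZMod (q j))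
  -- the form `ℓ ∘ a` is proportional to `ℓ ∘ b`
  have e : (a1 + I * a3) * (b2 + I * b4) - (a2 + I * a4) * (b1 + I * b3) = 0 := by
    apply hu.mul_left_cancel
    linear_combination (a1 + I * a3) * hb' - (b1 + I * b3) * ha'
  have e2 : (a1 * -b2 + a2 * b1 + (a3 * b4 + a4 * -b3)) =
      I * (a1 * b4 + a2 * -b3 - (a3 * -b2 + a4 * b1)) := by
    linear_combination (-1 : ZMod (q j)) * e + (a3 * b4 - a4 * b3) * hι'
  rw [e2]
  linear_combination (a1 * b4 + a2 * -b3 - (a3 * -b2 + a4 * b1)) ^ 2 * hι'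

theorem cset_right (hι : ∀ j, (q j : ℤ) ∣ ι j ^ 2 + 1) (hy : ∀ j, IsCoprime (y j) (q j : ℤ))
    {a b : SL} (ha : a ∈ Cset q ι x y) (hb : b ∈ Cset q ι x y) (j : J) :
    (q j : ℤ) ∣ Qg (a⁻¹ * b) (x j) (y j) := by
  obtain ⟨ka, hka⟩ := ha j
  obtain ⟨kb, hkb⟩ := hb j
  rw [cset_ell_act] at hka hkb
  unfold Qg
  simp only [cset_mul_apply, cset_inv00, cset_inv01, cset_inv10, cset_inv11]
  refine ⟨ka * (b 1 0 * x j + b 1 1 * y j) - kb * (a 1 0 * x j + a 1 1 * y j), ?_⟩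
  linear_combination (b 1 0 * x j + b 1 1 * y j) * hka - (a 1 0 * x j + a 1 1 * y j) * hkb

theorem cset_unique (hy : ∀ j, IsCoprime (y j) (q j : ℤ)) {h : SL} {t t' : ℤ}
    (ht : h * nT t ∈ Cset q ι x y) (ht' : h * nT t' ∈ Cset q ι x y) (j : J) :
    (q j : ℤ) ∣ t - t' := by
  obtain ⟨k, hk⟩ := ht j
  obtain ⟨k', hk'⟩ := ht' j
  rw [act_nT, cset_ell_act] at hk hk'
  have hd := cset_det h
  apply (hy j).symm.dvd_of_dvd_mul_left
  apply (hy j).symm.dvd_of_dvd_mul_left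
  refine ⟨(k - k') * (y j * h 1 1 + h 1 0 * (x j + t * y j)) - (t - t') * y j * h 1 0 * k, ?_⟩
  linear_combination (y j * h 1 1 + h 1 0 * (x j + t * y j) - (t - t') * y j * h 1 0) * hk -
    (y j * h 1 1 + h 1 0 * (x j + t * y j)) * hk' - (t - t') * y j ^ 2 * hd

theorem cset_ind_nonneg (p : Prop) : 0 ≤ ind p := by
  unfold ind; split_ifs <;> norm_num

theorem cset_avT [Fintype J] (hy : ∀ j, IsCoprime (y j) (q j : ℤ)) {M : ℕ} (hM0 : 0 < M)
    (hM : ∀ j, q j ∣ M) (h : SL) :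
    avT M (fun h => ind (h ∈ Cset q ι x y)) h ≤ 1 / (univ.lcm q : ℕ) := by
  set L : ℕ := univ.lcm q with hL
  have hLM : L ∣ M := Finset.lcm_dvd fun j _ => hM j
  obtain ⟨k, hk⟩ := hLM
  have hL0 : 0 < L := Nat.pos_of_mul_pos_right (hk ▸ hM0)
  have hcard : #{t ∈ range M | h * nT (t : ℕ) ∈ Cset q ι x y} ≤ k := by
    rw [← card_range k]
    apply card_le_card_of_injOn (fun t => t / L)
    · intro t ht
      simp only [coe_filter, mem_range, Set.mem_ofPred_eq] at ht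
      simp only [coe_range, Set.mem_Iio]
      rw [Nat.div_lt_iff_lt_mul hL0]
      rw [mul_comm, ← hk]; exact ht.1
    · intro t ht t' ht' e
      simp only [coe_filter, mem_range, Set.mem_ofPred_eq] at ht ht'
      have hd : (L : ℤ) ∣ (t : ℤ) - t' := by
        rw [Int.natCast_dvd]
        exact Finset.lcm_dvd fun j _ => Int.natCast_dvd.mp (cset_unique hy ht.2 ht'.2 j)
      have hm : t' ≡ t [MOD L] := (Nat.modEq_iff_dvd).mpr hd
      have e1 := Nat.div_add_mod t L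
      have e2 := Nat.div_add_mod t' L
      simp only at e
      unfold Nat.ModEq at hm
      rw [← e1, ← e2, e, hm]
  have hsum : ∑ t ∈ range M, ind (h * nT (t : ℕ) ∈ Cset q ι x y) =
      (#{t ∈ range M | h * nT (t : ℕ) ∈ Cset q ι x y} : ℝ) := by
    unfold ind
    rw [Finset.sum_boole]
  unfold avT
  rw [hsum]
  have hM' : (0 : ℝ) < M := by exact_mod_cast hM0
  have hL' : (0 : ℝ) < L := by exact_mod_cast hL0
  rw [div_le_div_iff₀ hM' hL', one_mul]
  have : ((#{t ∈ range M | h * nT (t : ℕ) ∈ Cset q ι x y} : ℕ) : ℝ) ≤ k := by exact_mod_cast hcard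
  calc _ ≤ (k : ℝ) * L := by gcongr
    _ = M := by rw [hk]; push_cast; ring

theorem Lev.mono {M M' : ℕ} {F : SL → ℝ} (hF : Lev M F) (h : M ∣ M') : Lev M' F := by
  intro g γ hγ
  obtain ⟨h1, h2, h3, h4⟩ := cset_gamma_dvd hγ
  have hq : (M : ℤ) ∣ (M' : ℤ) := Int.natCast_dvd_natCast.mpr h
  exact hF g γ (cset_mem_gamma (hq.trans h1) (hq.trans h2) (hq.trans h3) (hq.trans h4))

theorem cset_nT_mem {m : ℕ} {t : ℤ} (h : (m : ℤ) ∣ t) : nT t ∈ CongruenceSubgroup.Gamma m := by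
  apply cset_mem_gamma
  · rw [cset_nT00]; simp
  · rw [cset_nT01]; exact h
  · rw [cset_nT10]; simp
  · rw [cset_nT11]; simp

theorem cset_lev_per {m : ℕ} {F : SL → ℝ} (hF : Lev m F) (h : SL) (s : ℤ) {t : ℤ}
    (ht : (m : ℤ) ∣ t) : F (h * nT (s + t)) = F (h * nT s) := by
  rw [nT_add, ← mul_assoc]
  exact hF _ _ (cset_nT_mem ht)

/-- Sum of a periodic function over several periods. -/
theorem cset_sum_per {f : ℤ → ℝ} {m : ℕ} (hf : ∀ s t : ℤ, (m : ℤ) ∣ t → f (s + t) = f s)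
    (k r : ℕ) : ∑ t ∈ range (m * k + r), f t = k * ∑ t ∈ range m, f t + ∑ t ∈ range r, f t := by
  induction k with
  | zero => simp
  | succ k ih =>
    have e : m * (k + 1) + r = m + (m * k + r) := by ring
    rw [e, sum_range_add]
    have : ∑ t ∈ range (m * k + r), f ((m + t : ℕ) : ℤ) = ∑ t ∈ range (m * k + r), f t := by
      refine sum_congr rfl fun t _ => ?_
      push_cast
      rw [add_comm]
      exact hf _ _ dvd_rfl
    rw [this, ih]
    push_cast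
    ring

/-- The sum over a period does not depend on the starting point. -/
theorem cset_sum_shift {f : ℤ → ℝ} {m : ℕ} (hf : ∀ s : ℤ, f (s + m) = f s) (s : ℤ) :
    ∑ t ∈ range m, f (s + t) = ∑ t ∈ range m, f t := by
  have step : ∀ s : ℤ, ∑ t ∈ range m, f (s + 1 + t) = ∑ t ∈ range m, f (s + t) := by
    intro s
    have e1 := sum_range_succ (fun t : ℕ => f (s + t)) m
    have e2 := sum_range_succ' (fun t : ℕ => f (s + t)) m
    have e3 : ∑ t ∈ range m, f (s + ((t + 1 : ℕ) : ℤ)) = ∑ t ∈ range m, f (s + 1 + t) := by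
      refine sum_congr rfl fun t _ => ?_
      push_cast
      congr 1
      ring
    rw [e3] at e2
    rw [hf s] at e1
    simp only [Nat.cast_zero, add_zero] at e2
    linarith
  induction s using Int.induction_on with
  | zero => simp
  | succ n ih => rw [step, ih]
  | pred n ih =>
    rw [← step]
    simpa using ih

theorem avT_eq {m M M' : ℕ} {F : SL → ℝ} (hF : Lev m F) (hM0 : 0 < M) (hM0' : 0 < M')
    (hM : m ∣ M) (hM' : m ∣ M') (h : SL) : avT M F h = avT M' F h := by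
  have key : ∀ N : ℕ, 0 < N → m ∣ N → avT N F h = avT m F h := by
    rintro N hN ⟨k, rfl⟩
    have hm : (0 : ℝ) < m := by exact_mod_cast Nat.pos_of_mul_pos_right hN
    have hk : (0 : ℝ) < k := by exact_mod_cast Nat.pos_of_mul_pos_left hN
    have := cset_sum_per (f := fun t => F (h * nT t)) (m := m)
      (fun s t ht => cset_lev_per hF h s ht) k 0
    simp only [add_zero, range_zero, sum_empty] at this
    unfold avT
    rw [this]
    push_cast
    field_simp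
  rw [key M hM0 hM, key M' hM0' hM']

theorem avT_shift {m M : ℕ} {F : SL → ℝ} (hF : Lev m F) (hM : m ∣ M) (h : SL) (s : ℤ) :
    avT M F (h * nT s) = avT M F h := by
  unfold avT
  congr 1
  have := cset_sum_shift (f := fun t => F (h * nT t)) (m := M)
    (fun s => cset_lev_per hF h s (Int.natCast_dvd_natCast.mpr hM)) s
  rw [← this]
  refine sum_congr rfl fun t _ => ?_
  rw [nT_add, mul_assoc]

theorem cset_lev_out {M : ℕ} {F : SL → ℝ} (hF : Lev M F) (g : SL) :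
    F (QuotientGroup.mk g : SL ⧸ CongruenceSubgroup.Gamma M).out = F g := by
  obtain ⟨γ, hγ⟩ := QuotientGroup.mk_out_eq_mul (CongruenceSubgroup.Gamma M) g
  rw [hγ]
  exact hF g γ γ.2

theorem mean_right {M : ℕ} (hM : 0 < M) {F : SL → ℝ} (hF : Lev M F) (g : SL) :
    mean M (fun h => F (h * g)) = mean M F := by
  have := CongruenceSubgroup.Gamma_normal M
  unfold mean
  congr 1
  rw [← finsum_comp_equiv (Equiv.mulRight (QuotientGroup.mk g : SL ⧸ CongruenceSubgroup.Gamma M))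
    (f := fun q : SL ⧸ CongruenceSubgroup.Gamma M => F q.out)]
  refine finsum_congr fun c => ?_
  change F (c.out * g) = _
  rw [← cset_lev_out hF (c.out * g)]
  simp

theorem cset_lev_right {M : ℕ} {F : SL → ℝ} (hF : Lev M F) (g : SL) :
    Lev M fun h => F (h * g) := by
  intro h γ hγ
  have : h * γ * g = h * g * (g⁻¹ * γ * g⁻¹⁻¹) := by group
  simp only [this]
  exact hF _ _ ((CongruenceSubgroup.Gamma_normal M).conj_mem γ hγ g⁻¹)

theorem cset_lev_avT {m : ℕ} (M : ℕ) {F : SL → ℝ} (hF : Lev m F) : Lev m (avT M F) := by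
  intro h γ hγ
  unfold avT
  congr 1
  exact sum_congr rfl fun t _ => cset_lev_right hF (nT t) h γ hγ

theorem cset_finite {M : ℕ} (hM : 0 < M) : Finite (SL ⧸ CongruenceSubgroup.Gamma M) := by
  have : NeZero M := ⟨hM.ne'⟩
  infer_instance

theorem cset_mean_sum {M : ℕ} (hM : 0 < M) {α : Type} (s : Finset α) (F : α → SL → ℝ) :
    mean M (fun h => ∑ i ∈ s, F i h) = ∑ i ∈ s, mean M (F i) := by
  have := cset_finite hM
  have := Fintype.ofFinite (SL ⧸ CongruenceSubgroup.Gamma M)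
  unfold mean
  simp only [finsum_eq_sum_of_fintype]
  rw [sum_comm, sum_div]

theorem cset_mean_add {M : ℕ} (hM : 0 < M) (F G : SL → ℝ) :
    mean M (fun h => F h + G h) = mean M F + mean M G := by
  have := cset_finite hM
  have := Fintype.ofFinite (SL ⧸ CongruenceSubgroup.Gamma M)
  unfold mean
  simp only [finsum_eq_sum_of_fintype]
  rw [sum_add_distrib, add_div]

theorem cset_mean_mul {M : ℕ} (hM : 0 < M) (c : ℝ) (F : SL → ℝ) :
    mean M (fun h => c * F h) = c * mean M F := by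
  have := cset_finite hM
  have := Fintype.ofFinite (SL ⧸ CongruenceSubgroup.Gamma M)
  unfold mean
  simp only [finsum_eq_sum_of_fintype]
  rw [← mul_sum, mul_div_assoc]

theorem cset_mean_mono {M : ℕ} (hM : 0 < M) {F G : SL → ℝ} (h : ∀ g, F g ≤ G g) :
    mean M F ≤ mean M G := by
  have := cset_finite hM
  have := Fintype.ofFinite (SL ⧸ CongruenceSubgroup.Gamma M)
  unfold mean
  simp only [finsum_eq_sum_of_fintype]
  exact div_le_div_of_nonneg_right (sum_le_sum fun c _ => h _) (Nat.cast_nonneg _)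

theorem cset_mean_const {M : ℕ} (hM : 0 < M) (c : ℝ) : mean M (fun _ => c) = c := by
  have := cset_finite hM
  have := Fintype.ofFinite (SL ⧸ CongruenceSubgroup.Gamma M)
  unfold mean
  simp only [finsum_eq_sum_of_fintype]
  have : (0 : ℝ) < Nat.card (SL ⧸ CongruenceSubgroup.Gamma M) := by exact_mod_cast Nat.card_pos
  rw [sum_const, card_univ, ← Nat.card_eq_fintype_card, nsmul_eq_mul]
  field_simp

theorem cset_abs_mean {M : ℕ} (hM : 0 < M) (F : SL → ℝ) :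
    |mean M F| ≤ mean M fun h => |F h| := by
  rw [abs_le]
  constructor
  · have := cset_mean_mono hM (F := fun h => (-1) * |F h|) (G := F)
      (fun g => by simpa using neg_abs_le (F g))
    rw [cset_mean_mul hM] at this
    linarith
  · exact cset_mean_mono hM fun g => le_abs_self _

theorem cset_mean_avT {M : ℕ} (hM : 0 < M) {F : SL → ℝ} (hF : Lev M F) :
    mean M (avT M F) = mean M F := by
  have hM' : (0 : ℝ) < M := by exact_mod_cast hM
  have : avT M F = fun h => (1 / M : ℝ) * ∑ t ∈ range M, F (h * nT t) := by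
    funext h
    unfold avT
    ring
  rw [this, cset_mean_mul hM, cset_mean_sum hM]
  simp only [mean_right hM hF, sum_const, card_range, nsmul_eq_mul]
  field_simp

theorem main_term {m₁ m₂ M : ℕ} (hM : 0 < M) (h₁ : m₁ ∣ M) (h₂ : m₂ ∣ M) {c₁ c₂ : SL → ℝ}
    (hc₁ : ∀ h, 0 ≤ c₁ h) (hc₂ : ∀ h, 0 ≤ c₂ h) (l₁ : Lev m₁ c₁) (l₂ : Lev m₂ c₂) {μ₁ μ₂ : ℝ}
    (b₁ : ∀ h, avT M c₁ h ≤ μ₁) (b₂ : ∀ h, avT M c₂ h ≤ μ₂) (s : ℤ) (T : ℕ) :
    |∑ t ∈ range T, mean M fun h =>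
        (c₁ (h * nT s) - avT M c₁ h) * (c₂ (h * nT t) - avT M c₂ h)| ≤
      4 * (m₁.gcd m₂ : ℕ) * μ₁ * μ₂ := by
  have hM' : (0 : ℝ) < M := by exact_mod_cast hM
  set ψ : ℤ → ℝ := fun t => mean M fun h =>
    (c₁ (h * nT s) - avT M c₁ h) * (c₂ (h * nT t) - avT M c₂ h) with hψ
  have L₁ : Lev M c₁ := l₁.mono h₁
  have L₂ : Lev M c₂ := l₂.mono h₂
  have p₂ : ∀ t u : ℤ, (m₂ : ℤ) ∣ u → ψ (t + u) = ψ t := by
    intro t u hu
    simp only [hψ, cset_lev_per l₂ _ t hu]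
  have p₁ : ∀ t u : ℤ, (m₁ : ℤ) ∣ u → ψ (t + u) = ψ t := by
    intro t u hu
    have hl : Lev M fun h => (c₁ (h * nT s) - avT M c₁ h) * (c₂ (h * nT t) - avT M c₂ h) := by
      intro h γ hγ
      have e1 : c₁ (h * γ * nT s) = c₁ (h * nT s) := cset_lev_right L₁ (nT s) h γ hγ
      have e2 : c₂ (h * γ * nT t) = c₂ (h * nT t) := cset_lev_right L₂ (nT t) h γ hγ
      simp only
      rw [e1, e2, cset_lev_avT M L₁ h γ hγ, cset_lev_avT M L₂ h γ hγ]
    simp only [hψ]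
    rw [← mean_right hM hl (nT u)]
    congr 1
    funext h
    rw [avT_shift l₁ h₁, avT_shift l₂ h₂, mul_assoc h, mul_assoc h, ← nT_add, ← nT_add,
      add_comm u s, add_comm u t, cset_lev_per l₁ h s hu]
  set G := m₁.gcd m₂ with hG
  have pG : ∀ t u : ℤ, (G : ℤ) ∣ u → ψ (t + u) = ψ t := by
    rintro t u ⟨k, rfl⟩
    rw [hG, Nat.gcd_eq_gcd_ab, add_mul, ← add_assoc, p₂ _ _ (by
      rw [mul_assoc]; exact dvd_mul_right _ _), p₁ _ _ (by rw [mul_assoc]; exact dvd_mul_right _ _)]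
  obtain ⟨k, hk⟩ : G ∣ M := (Nat.gcd_dvd_left m₁ m₂).trans h₁
  have hG0 : 0 < G := Nat.pos_of_mul_pos_right (hk ▸ hM)
  have hk0 : (0 : ℝ) < k := by exact_mod_cast Nat.pos_of_mul_pos_left (hk ▸ hM)
  have hG0' : (0 : ℝ) < G := by exact_mod_cast hG0
  have sum0 : ∑ t ∈ range M, ψ t = 0 := by
    simp only [hψ]
    rw [← cset_mean_sum hM]
    have : (fun h => ∑ t ∈ range M,
        (c₁ (h * nT s) - avT M c₁ h) * (c₂ (h * nT (t : ℕ)) - avT M c₂ h)) = fun _ => 0 := by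
      funext h
      rw [← mul_sum, sum_sub_distrib, sum_const, card_range, nsmul_eq_mul]
      have : (M : ℝ) * avT M c₂ h = ∑ t ∈ range M, c₂ (h * nT (t : ℕ)) := by
        unfold avT
        field_simp
      rw [this, sub_self, mul_zero]
    rw [this, cset_mean_const hM]
  have sumG : ∑ t ∈ range G, ψ t = 0 := by
    have := cset_sum_per pG k 0
    simp only [add_zero, range_zero, sum_empty] at this
    rw [← hk, sum0] at this
    exact (mul_eq_zero.mp this.symm).resolve_left hk0.ne'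
  have a₁ : ∀ h, 0 ≤ avT M c₁ h := fun h =>
    div_nonneg (sum_nonneg fun t _ => hc₁ _) hM'.le
  have a₂ : ∀ h, 0 ≤ avT M c₂ h := fun h =>
    div_nonneg (sum_nonneg fun t _ => hc₂ _) hM'.le
  have hμ₂ : 0 ≤ μ₂ := (a₂ 1).trans (b₂ 1)
  have absM : ∑ t ∈ range M, |ψ t| ≤ M * (4 * μ₁ * μ₂) := by
    calc ∑ t ∈ range M, |ψ t| ≤ ∑ t ∈ range M, mean M fun h =>
          |(c₁ (h * nT s) - avT M c₁ h) * (c₂ (h * nT (t : ℕ)) - avT M c₂ h)| :=
          sum_le_sum fun t _ => cset_abs_mean hM _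
      _ = mean M fun h => ∑ t ∈ range M,
          |(c₁ (h * nT s) - avT M c₁ h) * (c₂ (h * nT (t : ℕ)) - avT M c₂ h)| :=
          (cset_mean_sum hM _ _).symm
      _ ≤ mean M fun h => (2 * M * μ₂) * (c₁ (h * nT s) + avT M c₁ h) := by
          refine cset_mean_mono hM fun h => ?_
          have e1 : |c₁ (h * nT s) - avT M c₁ h| ≤ c₁ (h * nT s) + avT M c₁ h := by
            rw [abs_le]; constructor <;> linarith [hc₁ (h * nT s), a₁ h]
          have e2 : ∑ t ∈ range M, |c₂ (h * nT (t : ℕ)) - avT M c₂ h| ≤ 2 * M * μ₂ := by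
            calc _ ≤ ∑ t ∈ range M, (c₂ (h * nT (t : ℕ)) + avT M c₂ h) := by
                  refine sum_le_sum fun t _ => ?_
                  rw [abs_le]; constructor <;> linarith [hc₂ (h * nT (t : ℕ)), a₂ h]
              _ = 2 * M * avT M c₂ h := by
                  rw [sum_add_distrib, sum_const, card_range, nsmul_eq_mul]
                  have : ∑ t ∈ range M, c₂ (h * nT (t : ℕ)) = (M : ℝ) * avT M c₂ h := by
                    unfold avT
                    field_simp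
                  rw [this]; ring
              _ ≤ 2 * M * μ₂ := by gcongr; exact b₂ h
          simp only [abs_mul]
          rw [← mul_sum, mul_comm]
          exact mul_le_mul e2 e1 (abs_nonneg _) (by positivity)
      _ = (2 * M * μ₂) * (2 * mean M (avT M c₁)) := by
          rw [cset_mean_mul hM, cset_mean_add hM, mean_right hM L₁, cset_mean_avT hM L₁]
          ring
      _ ≤ (2 * M * μ₂) * (2 * μ₁) := by
          have : mean M (avT M c₁) ≤ μ₁ := by
            have := cset_mean_mono hM (F := avT M c₁) (G := fun _ => μ₁) b₁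
            rwa [cset_mean_const hM] at this
          gcongr
      _ = M * (4 * μ₁ * μ₂) := by ring
  have absG : ∑ t ∈ range G, |ψ t| ≤ G * (4 * μ₁ * μ₂) := by
    have := cset_sum_per (f := fun t => |ψ t|) (m := G) (fun t u hu => by simp only [pG t u hu]) k 0
    simp only [add_zero, range_zero, sum_empty] at this
    rw [← hk] at this
    rw [this, hk] at absM
    push_cast at absM
    have e : (G : ℝ) * k * (4 * μ₁ * μ₂) = k * (G * (4 * μ₁ * μ₂)) := by ring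
    rw [e] at absM
    exact le_of_mul_le_mul_left absM hk0
  have eT := cset_sum_per pG (T / G) (T % G)
  rw [Nat.div_add_mod, sumG, mul_zero, zero_add] at eT
  change |∑ t ∈ range T, ψ t| ≤ _
  rw [eT]
  calc _ ≤ ∑ t ∈ range (T % G), |ψ t| := abs_sum_le_sum_abs _ _
    _ ≤ ∑ t ∈ range G, |ψ t| :=
        sum_le_sum_of_subset_of_nonneg (range_subset_range.mpr (Nat.mod_lt T hG0).le)
          fun _ _ _ => abs_nonneg _
    _ ≤ G * (4 * μ₁ * μ₂) := absG
    _ = _ := by ring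

end Pool.Agent.P.MP_a1177c_nt.EK
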