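import Mathlib

/-!
Shared definitions for the result that `n ^ 2 + 1` has exactly `K` prime factors
for many `n`, for every even `K ≥ 12`.
-/

set_option autoImplicit false

namespace Pool.Agent.P.MP_a1177c_nt.EK

open Finset
open scoped Classical

noncomputable section

/-! ### The modular group -/

abbrev SL := Matrix.SpecialLinearGroup (Fin 2) ℤ

/-- The matrix `!![1, t; 0, 1]`. -/
def nT (t : ℤ) : SL := ModularGroup.T ^ t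

/-- The vector `h (x, y)ᵀ`, read as a Gaussian integer. -/
def act (h : SL) (x y : ℤ) : GaussianInt := ⟨h 0 0 * x + h 0 1 * y, h 1 0 * x + h 1 1 * y⟩

def nrm (z : GaussianInt) : ℕ := z.norm.natAbs

def qA (h : SL) : ℝ := (h 0 0 : ℝ) ^ 2 + (h 1 0 : ℝ) ^ 2
def qB (h : SL) : ℝ := (h 0 0 : ℝ) * h 0 1 + (h 1 0 : ℝ) * h 1 1
def qC (h : SL) : ℝ := (h 0 1 : ℝ) ^ 2 + (h 1 1 : ℝ) ^ 2

/-- `cosh` of the hyperbolic distance from `i` to `h • (i y)`. -/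
def Uy (y : ℝ) (h : SL) : ℝ := (y * qA h + qC h / y) / 2

/-- `cosh` of the hyperbolic distance from `i y` to `γ • (i y)`. -/
def uy (y : ℝ) (γ : SL) : ℝ :=
  ((γ 0 0 : ℝ) ^ 2 + (γ 1 1 : ℝ) ^ 2 + (γ 0 1 : ℝ) ^ 2 / y ^ 2 + (γ 1 0 : ℝ) ^ 2 * y ^ 2) / 2

def wt (y Y : ℝ) (γ : SL) : ℝ := if uy y γ ≤ Y then 1 / √(uy y γ) else 0

/-- Indicator of a proposition. -/
def ind (p : Prop) : ℝ := if p then 1 else 0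

/-- `F` only depends on the class modulo `M`. -/
def Lev (M : ℕ) (F : SL → ℝ) : Prop :=
  ∀ h γ : SL, γ ∈ CongruenceSubgroup.Gamma M → F (h * γ) = F h

/-- Average over the classes modulo `M`. -/
def mean (M : ℕ) (F : SL → ℝ) : ℝ :=
  (∑ᶠ q : SL ⧸ CongruenceSubgroup.Gamma M, F q.out) /
    Nat.card (SL ⧸ CongruenceSubgroup.Gamma M)

/-- `C` is empty or a coset of a subgroup. -/
def Cos (C : Set SL) : Prop := ∀ a ∈ C, ∀ b ∈ C, ∀ c ∈ C, a * b⁻¹ * c ∈ C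

/-- Average over the shifts of the second column. -/
def avT (M : ℕ) (F : SL → ℝ) (h : SL) : ℝ := (∑ t ∈ range M, F (h * nT t)) / M

/-- The linear form attached to a square root `ι` of `-1`. -/
def ell (ι : ℤ) (z : GaussianInt) : ℤ := z.re + ι * z.im

/-- The matrices sending each vector `(x j, y j)` into the ideal given by `(q j, ι j)`. -/
def Cset {J : Type} (q : J → ℕ) (ι x y : J → ℤ) : Set SL :=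
  {h | ∀ j, (q j : ℤ) ∣ ell (ι j) (act h (x j) (y j))}

def xiN (γ : SL) : ℤ := (γ 0 0 - γ 1 1) ^ 2 + (γ 0 1 + γ 1 0) ^ 2

/-- The determinant of `(x, y)` and `γ (x, y)`. -/
def Qg (γ : SL) (x y : ℤ) : ℤ := γ 1 0 * x ^ 2 + (γ 1 1 - γ 0 0) * x * y - γ 0 1 * y ^ 2

/-- The spectral inequality for the kernel `ω` with constant `E`. -/
def Spec (ω : ℝ → ℝ) (E y Y : ℝ) : Prop :=
  ∀ M : ℕ, 0 < M → ∀ C : Set SL, Cos C → Lev M (fun h => ind (h ∈ C)) →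
    ∀ Pa Pb : SL → Prop, (∀ a ∈ C, ∀ b ∈ C, Pa (a * b⁻¹)) → (∀ a ∈ C, ∀ b ∈ C, Pb (a⁻¹ * b)) →
      |∑' h : SL, ω (Uy y h) * (ind (h ∈ C) - mean M fun h => ind (h ∈ C))| ≤
        E * √(∑' γ : SL, ind (Pa γ) * wt 1 Y γ) * √(∑' γ : SL, ind (Pb γ) * wt y Y γ)

/-- A finite family of systems of congruence conditions. -/
structure Par {J T : Type} [Fintype J] (j₀ : J) (β : J → ℤ) (X n₁ mu : ℝ) (𝒯 : Finset T)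
    (q : T → J → ℕ) (ι : T → J → ℤ) : Prop where
  pos : ∀ τ ∈ 𝒯, ∀ j, 0 < q τ j
  root : ∀ τ ∈ 𝒯, ∀ j, (q τ j : ℤ) ∣ ι τ j ^ 2 + 1
  cop : ∀ τ ∈ 𝒯, ∀ j, IsCoprime (β j) (q τ j : ℤ)
  prod : ∀ τ ∈ 𝒯, ∏ j, (q τ j : ℝ) ≤ X
  le : ∀ τ ∈ 𝒯, (q τ j₀ : ℝ) ≤ n₁
  fib : ∀ r : J → ℕ, (#{τ ∈ 𝒯 | q τ = r} : ℝ) ≤ mu

/-! ### Radial kernels -/

/-- The point `i y` of the upper half plane. -/
def iy (y : ℝ) : UpperHalfPlane := if h : 0 < y then ⟨⟨0, y⟩, h⟩ else UpperHalfPlane.I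

def ch (z w : UpperHalfPlane) : ℝ := Real.cosh (dist z w)

def abel (k : ℝ → ℝ) (v : ℝ) : ℝ := ∫ ξ : ℝ, k (v + ξ ^ 2)

/-- Continuous kernels vanishing for large argument. -/
def Ker (k : ℝ → ℝ) : Prop := Continuous k ∧ ∃ R : ℝ, ∀ u, R < u → k u = 0

/-- A positive semidefinite symmetric kernel. -/
def Psd {I : Type} (B : I → I → ℝ) : Prop :=
  (∀ i j, B i j = B j i) ∧ ∀ (s : Finset I) (c : I → ℝ), 0 ≤ ∑ i ∈ s, ∑ j ∈ s, c i * c j * B i j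

/-- Gram kernel of two cosine families. -/
def gram (A B C : ℤ → ℝ) : ℤ ⊕ ℤ → ℤ ⊕ ℤ → ℝ
  | .inl n, .inl m => (A (n + m) + A (n - m)) / 2
  | .inl n, .inr m => (C (n + m) + C (n - m)) / 2
  | .inr n, .inl m => (C (n + m) + C (n - m)) / 2
  | .inr n, .inr m => (B (n + m) + B (n - m)) / 2

/-! ### Sieve weights -/

def pr (S : Finset ℕ) : ℝ := ∏ p ∈ S, (p : ℝ)

def hS (S : Finset ℕ) : ℝ := ∏ p ∈ S, (2 / p : ℝ)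

/-- Selberg sieve sum in diagonal form; `Z p` says that `p` divides the sifted number. -/
def Lam (P : Finset ℕ) (y : Finset ℕ → ℝ) (Z : ℕ → Prop) : ℝ :=
  ∑ S ∈ P.powerset, y S * ∏ p ∈ S, if Z p then (-1 : ℝ) else 2 / p

def Hs (P : Finset ℕ) (z : ℝ) : ℝ := ∑ S ∈ P.powerset with pr S ≤ z, hS S

def cell (R : ℝ) (a : Fin 4) (S : Finset ℕ) : ℝ :=
  ind ((a = 0 ∨ R ^ (((a : ℕ) : ℝ) / 6) < pr S) ∧ pr S ≤ R ^ ((((a : ℕ) : ℝ) + 1) / 6))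

def La (P : Finset ℕ) (R : ℝ) (a : Fin 4) (n : ℕ) : ℝ := Lam P (cell R a) fun p => p ∣ n

def Ha (P : Finset ℕ) (R : ℝ) (a : Fin 4) : ℝ := ∑ S ∈ P.powerset, cell R a S * hS S

/-- Independent local law. -/
def indLaw {J : Type} [Fintype J] (p : ℕ) (ω : J → Prop) : ℝ :=
  ∏ j, if ω j then (2 / (p + 2) : ℝ) else 1 - 2 / (p + 2)

def tab (s q : ℕ) : ℕ :=
  if s = 0 ∧ q = 0 then 10 else if s = 1 ∧ q = 1 then 7 else if s = 2 ∧ q = 4 then 4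
  else if s = 3 ∧ q = 9 then 2 else if s = 2 ∧ q = 2 then 4 else if s = 3 ∧ q = 5 then 2
  else if s = 3 ∧ q = 3 then 2 else if s = 4 ∧ q = 4 then 1 else 0

def F4 (α : Fin 4 → Fin 4) : ℕ := tab (∑ j, (α j : ℕ)) (∑ j, (α j : ℕ) ^ 2)

def F3 (a : Fin 4) (α : Fin 3 → Fin 4) : ℕ :=
  tab (a + ∑ j, (α j : ℕ)) ((a : ℕ) ^ 2 + ∑ j, (α j : ℕ) ^ 2)

def dW (W : ℕ) : ℝ :=
  (#{v ∈ range W ×ˢ range W | (v.1 ^ 2 + v.2 ^ 2).Coprime W} : ℝ) / (W : ℝ) ^ 2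

def Hstar (W : ℕ) (R : ℝ) : ℝ := Real.pi / 4 * dW W * Real.log R

/-- The set of sieving primes. -/
def Good (W : ℕ) (R η : ℝ) (P : Finset ℕ) : Prop :=
  ∃ Ex : Finset ℕ, ∑ p ∈ Ex, (1 / p : ℝ) ≤ η ∧ (∀ p ∈ Ex, (p : ℝ) ≤ R ^ (1 / 72 : ℝ)) ∧
    ∀ p, p ∈ P ↔ p.Prime ∧ p % 4 = 1 ∧ (p : ℝ) ≤ R ∧ ¬ p ∣ W ∧ p ∉ Ex

def E3 (R : ℝ) (n : ℕ) : Prop :=
  ∃ p₁ p₂ p₃ : ℕ, p₁.Prime ∧ p₂.Prime ∧ p₃.Prime ∧ p₁ % 4 = 1 ∧ p₂ % 4 = 1 ∧ p₃ % 4 = 1 ∧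
    R ^ (1 / 72 : ℝ) < p₁ ∧ p₁ < p₂ ∧ p₂ < p₃ ∧ R < p₃ ∧ n = p₁ * p₂ * p₃

def Qf (P : Finset ℕ) (R : ℝ) (n : ℕ) : ℝ :=
  ∑ α : Fin 3 → Fin 4, (∏ j, Ha P R (α j)) * (∑ a, (F3 a α : ℝ) * La P R a n) ^ 2

def Q0 (W : ℕ) (R : ℝ) : ℝ := 537 * (Hstar W R / 6) ^ 4

def Lstar (P : Finset ℕ) (R : ℝ) (n : ℕ) : ℝ := ∑ a, La P R a n ^ 2

def beta (P : Finset ℕ) (C : ℝ) (m : ℤ) : ℝ :=
  ∏ p ∈ P, (1 + if (p : ℤ) ∣ m then C / p else C / (p : ℝ) ^ 2)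

def Dv (m c : Fin 3 → ℤ) (x : ℤ) : ℤ := ∏ k, ((m k * x) ^ 2 + c k ^ 2)

/-- Admissible radial weights. -/
structure Wt (c₀ C₀ : ℝ) (ψ : ℝ → ℝ) : Prop where
  pos : 0 < c₀
  nonneg : ∀ x, 0 ≤ ψ x
  le : ∀ x, ψ x ≤ C₀
  lip : ∀ x y, |ψ x - ψ y| ≤ C₀ * |x - y|
  supp : ∀ x, ψ x ≠ 0 → c₀ ≤ x ∧ x ≤ C₀
  int_pos : 0 < ∫ x, ψ x

/-- Functions of the class modulo `W` supported on units. -/
structure Del (W : ℕ) (δ : ℕ → ℝ) : Prop where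
  nonneg : ∀ n, 0 ≤ δ n
  le : ∀ n, δ n ≤ 1
  per : ∀ n m, n ≡ m [MOD W] → δ n = δ m
  supp : ∀ n, δ n ≠ 0 → n.Coprime W

def SQ (ψ : ℝ → ℝ) (y : ℝ) (δ Θ : ℕ → ℝ) : ℝ :=
  ∑' μ : GaussianInt, δ (nrm μ) * ψ (nrm μ / y) * Θ (nrm μ)

def kap (W : ℕ) (δ : ℕ → ℝ) : ℝ :=
  (∑ v ∈ range W ×ˢ range W, δ (v.1 ^ 2 + v.2 ^ 2)) / (W : ℝ) ^ 2

/-- The function with steps `F3 a α` on the blocks of length 12, summed up to `k`. -/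
def PhiN (α : Fin 3 → Fin 4) (k : ℕ) : ℕ := ∑ a : Fin 4, F3 a α * min 12 (k - 12 * a)

def cells : Finset (ℕ × ℕ) :=
  {c ∈ range 582 ×ˢ range 582 | 1 ≤ c.1 ∧ c.1 < c.2 ∧ c.1 + 1 + 2 * (c.2 + 1) ≤ 582}

def cl (a : Fin 4) (s : ℝ) : ℝ := max 0 (min (1 / 6) (s - ((a : ℕ) : ℝ) / 6))

def wc (c : ℕ × ℕ) : ℝ :=
  2 / (2 * (c.1 : ℝ) + 1) * (2 / (2 * (c.2 : ℝ) + 1)) / (584 - (c.1 : ℝ) - c.2)

def Vsq (c : ℕ × ℕ) : ℕ :=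
  ∑ α : Fin 3 → Fin 4, (PhiN α c.1 + PhiN α c.2 - PhiN α (c.1 + 1 + c.2)) ^ 2

/-! ### The forms -/

def good (G : GaussianInt) (W₀ : ℕ) (z : GaussianInt) : Prop :=
  ∃ μ, z = G * μ ∧ (nrm μ).Coprime W₀

def nu (Pi : Finset GaussianInt) (z : GaussianInt) : ℝ := #{ϖ ∈ Pi | ϖ ∣ z}

def sI (Pi : Finset GaussianInt) : ℝ := ∑ ϖ ∈ Pi, (1 / nrm ϖ : ℝ)

/-- One primitive Gaussian integer of norm `q p` for each prime `p ≡ 1 (W)` in `(N, 2N]`. -/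
structure Fam (W q : ℕ) (N : ℝ) (Pi : Finset GaussianInt) : Prop where
  prim : ∀ ϖ ∈ Pi, IsCoprime ϖ.re ϖ.im
  mem : ∀ ϖ ∈ Pi, ∃ p : ℕ, p.Prime ∧ N < p ∧ (p : ℝ) ≤ 2 * N ∧ p ≡ 1 [MOD W] ∧ nrm ϖ = q * p
  inj : ∀ ϖ ∈ Pi, ∀ ϖ' ∈ Pi, nrm ϖ = nrm ϖ' → ϖ = ϖ'
  surj : ∀ p : ℕ, p.Prime → N < p → (p : ℝ) ≤ 2 * N → p ≡ 1 [MOD W] → ∃ ϖ ∈ Pi, nrm ϖ = q * p

/-- One distinguished form `(1, 0)` and three further forms `(a j, b j)`. -/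
structure Geo where
  a : Fin 3 → ℤ
  b : Fin 3 → ℤ
  G₀ : GaussianInt
  G : Fin 3 → GaussianInt

def Geo.m (d : Geo) (k : Fin 3) : ℤ := d.a k * d.b (k + 1) - d.a (k + 1) * d.b k

def Geo.c (d : Geo) (k : Fin 3) : ℤ := 2 * d.b k * d.b (k + 1)

structure Geo.Ok (d : Geo) (W₀ W : ℕ) : Prop where
  b_ne : ∀ j, d.b j ≠ 0
  m_ne : ∀ k, d.m k ≠ 0
  G₀_ne : d.G₀ ≠ 0
  G_ne : ∀ j, d.G j ≠ 0
  W_pos : 0 < W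
  four : 4 ∣ W
  dvd : ∀ j, W₀ * nrm (d.G j) ∣ W
  rad : ∀ p : ℕ, p.Prime → p ∣ W → p ∣ W₀
  bad_b : ∀ p : ℕ, p.Prime → ∀ j, (p : ℤ) ∣ d.b j → p ∣ W₀
  bad_m : ∀ p : ℕ, p.Prime → ∀ k, (p : ℤ) ∣ d.m k → p ∣ W₀
  bad_G : ∀ p : ℕ, p.Prime → p ∣ nrm d.G₀ → p ∣ W₀
  sol : ∃ g : SL, good d.G₀ W₀ (act g 1 0) ∧ ∀ j, good (d.G j) W₀ (act g (d.a j) (d.b j))

def Rx (X : ℝ) : ℝ := X ^ (10 / 81 : ℝ)

/-- Sieving primes and families of forced divisors. -/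
structure Fams (W q₀ : ℕ) (q : Fin 3 → ℕ) (ε η X : ℝ) (P : Finset ℕ)
    (Pi₀ : Finset GaussianInt) (Pi : Fin 3 → Finset GaussianInt) : Prop where
  good : Good W (Rx X) η P
  fam₀ : ∃ N, X ^ ε ≤ N ∧ N ≤ 8 * X ^ ε ∧ Fam W q₀ N Pi₀
  fam : ∀ j, ∃ N, X ^ ε ≤ N ∧ N ≤ 8 * X ^ ε ∧ Fam W (q j) N (Pi j)
  copW₀ : ∀ ϖ ∈ Pi₀, (nrm ϖ).Coprime W
  copW : ∀ j, ∀ ϖ ∈ Pi j, (nrm ϖ).Coprime W
  cop₀ : ∀ ϖ ∈ Pi₀, ∀ j, ∀ ϖ' ∈ Pi j, (nrm ϖ).Coprime (nrm ϖ')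
  cop : ∀ j k, j ≠ k → ∀ ϖ ∈ Pi j, ∀ ϖ' ∈ Pi k, (nrm ϖ).Coprime (nrm ϖ')
  copP₀ : ∀ p ∈ P, ∀ ϖ ∈ Pi₀, ¬ p ∣ nrm ϖ
  copP : ∀ p ∈ P, ∀ j, ∀ ϖ ∈ Pi j, ¬ p ∣ nrm ϖ

/-- Admissible weights on quadratic forms. -/
structure Wt3 (c₀ C₀ : ℝ) (Φ : ℝ → ℝ → ℝ → ℝ) : Prop where
  pos : 0 < c₀
  nonneg : ∀ x y z, 0 ≤ Φ x y z
  le : ∀ x y z, Φ x y z ≤ 1
  lip : ∀ x y z x' y' z', |Φ x y z - Φ x' y' z'| ≤ C₀ * (|x - x'| + |y - y'| + |z - z'|)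
  supp : ∀ x y z, Φ x y z ≠ 0 → c₀ ≤ x ∧ x ≤ C₀ ∧ |y| ≤ C₀ ∧ |z| ≤ C₀
  cone : ∃ x y, 0 < Φ x y (y ^ 2 / x)

/-- The square of the sieve sum for four numbers. -/
def wq (P : Finset ℕ) (R : ℝ) (n₀ : ℕ) (n : Fin 3 → ℕ) : ℝ :=
  (∑ a, ∑ α : Fin 3 → Fin 4, (F3 a α : ℝ) * La P R a n₀ * ∏ j, La P R (α j) (n j)) ^ 2

/-- The sieve sum seen from the distinguished form. -/
def Sview (d : Geo) (W₀ : ℕ) (Φ : ℝ → ℝ → ℝ → ℝ) (X : ℝ) (P : Finset ℕ)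
    (Pi₀ : Finset GaussianInt) (Pi : Fin 3 → Finset GaussianInt) (χ : ℕ → ℝ) : ℝ :=
  ∑' g : SL, Φ (qA g / X) (qB g / X) (qC g / X) * ind (good d.G₀ W₀ (act g 1 0)) *
    (∑ ϖ ∈ Pi₀, ind (ϖ ∣ act g 1 0) * χ (nrm (act g 1 0) / nrm ϖ)) *
    (∏ j, ind (good (d.G j) W₀ (act g (d.a j) (d.b j))) * nu (Pi j) (act g (d.a j) (d.b j))) *
    wq P (Rx X) (nrm (act g 1 0)) fun j => nrm (act g (d.a j) (d.b j))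

/-- The summand after removing the forced divisor `ϖ` from the first column. -/
def innr (d : Geo) (W₀ : ℕ) (R : ℝ) (P : Finset ℕ) (Pi : Fin 3 → Finset GaussianInt)
    (χ : ℕ → ℝ) (ϖ : GaussianInt) (h : SL) : ℝ :=
  ind (star ϖ ∣ act h 0 1) * ind (good d.G₀ W₀ (act h 1 0)) * χ (nrm (act h 1 0)) *
    (∏ j, ind (good (d.G j) W₀ (act h (d.a j * nrm ϖ) (d.b j))) *
      nu (Pi j) (act h (d.a j * nrm ϖ) (d.b j))) *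
    wq P R (nrm (act h 1 0)) fun j => nrm (act h (d.a j * nrm ϖ) (d.b j))

def phiT (Φ : ℝ → ℝ → ℝ → ℝ) (X n : ℝ) (h : SL) : ℝ :=
  Φ (n * qA h / X) (qB h / X) (qC h / (n * X))

def chiE (G : ℕ) (R : ℝ) (m : ℕ) : ℝ := ind (∃ e, E3 R e ∧ m = G * e)

/-- The error weight in the local model. -/
def errW (P : Finset ℕ) (R C : ℝ) (m c : Fin 3 → ℤ) (G n k : ℕ) : ℝ :=
  C * (beta P C ((G * k : ℕ) * Dv m c ((n * (G * k) : ℕ))) - 1) * Lstar P R k * Hs P R ^ 3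

/-! ### The four forms -/

def vx : Fin 4 → ℤ := ![1, 0, 1, 194]
def vy : Fin 4 → ℤ := ![0, 1, 1, 169]
def GG : Fin 4 → GaussianInt := ![⟨5, 12⟩, ⟨5, 13⟩, ⟨3, -4⟩, ⟨107, 899⟩]
def LL (g : SL) (j : Fin 4) : GaussianInt := act g (vx j) (vy j)

def tent (s : ℝ) : ℝ := max 0 (1 - |s - 2|)

def Phi0 (x y z : ℝ) : ℝ := tent x * tent y * tent z

def base (W₀ : ℕ) (X : ℝ) (P : Finset ℕ) (g : SL) : ℝ :=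
  Phi0 (qA g / X) (qB g / X) (qC g / X) * (∏ j, ind (good (GG j) W₀ (LL g j))) *
    (∑ α : Fin 4 → Fin 4, (F4 α : ℝ) * ∏ j, La P (Rx X) (α j) (nrm (LL g j))) ^ 2

def S1 (W₀ : ℕ) (X : ℝ) (P : Finset ℕ) (Pi : Fin 4 → Finset GaussianInt) : ℝ :=
  ∑' g : SL, base W₀ X P g * ∏ j, nu (Pi j) (LL g j)

def S2 (W₀ : ℕ) (X : ℝ) (P : Finset ℕ) (Pi : Fin 4 → Finset GaussianInt) (i : Fin 4) : ℝ :=
  ∑' g : SL, base W₀ X P g *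
    (∑ ϖ ∈ Pi i, ind (ϖ ∣ LL g i) * chiE (nrm (GG i)) (Rx X) (nrm (LL g i) / nrm ϖ)) *
    ∏ j : Fin 3, nu (Pi (i.succAbove j)) (LL g (i.succAbove j))

end

end Pool.Agent.P.MP_a1177c_nt.EK
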