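import Pool.Agent.P.MP_a1177c_nt.EK.Defs

set_option autoImplicit false

namespace Pool.Agent.P.MP_a1177c_nt.EK

open Finset Filter
open scoped Classical

theorem dW_pos {W : ℕ} (hW : 0 < W) : 0 < dW W := by
  refine div_pos (Nat.cast_pos.2 (card_pos.2 ⟨(1 % W, 0), mem_filter.2
    ⟨mem_product.2 ⟨mem_range.2 (Nat.mod_lt _ hW), mem_range.2 hW⟩, ?_⟩⟩)) (by positivity)
  simp [Nat.Coprime, ← Nat.gcd_rec]

theorem dW_le {W : ℕ} (hW : 0 < W) : dW W ≤ 1 := by
  refine (div_le_one (by positivity)).2 ?_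
  exact_mod_cast (card_filter_le _ _).trans (by simp [sq])

lemma dens_le {W : ℕ} [NeZero W] {x y c : ZMod W} (hc : (x ^ 2 + y ^ 2) * c = 1) (b : ZMod W) :
    #{v : ZMod W × ZMod W | v.1 ^ 2 + v.2 ^ 2 = b} ≤
      #{v : ZMod W × ZMod W | v.1 ^ 2 + v.2 ^ 2 = (x ^ 2 + y ^ 2) * b} := by
  refine card_le_card_of_injOn (fun v => (x * v.1 - y * v.2, x * v.2 + y * v.1)) (fun v hv => ?_)
    fun v _ w _ h => ?_
  · simp only [coe_filter, mem_univ, true_and, Set.mem_ofPred_eq] at hv ⊢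
    rw [← hv]
    ring
  · have h1 : x * v.1 - y * v.2 = x * w.1 - y * w.2 := congrArg Prod.fst h
    have h2 : x * v.2 + y * v.1 = x * w.2 + y * w.1 := congrArg Prod.snd h
    refine Prod.ext ?_ ?_
    · linear_combination c * x * h1 + c * y * h2 - (v.1 - w.1) * hc
    · linear_combination c * x * h2 - c * y * h1 - (v.2 - w.2) * hc

lemma dens_card {W : ℕ} [NeZero W] (h4 : 4 ∣ W) {a : ℕ} (ha : a < W) (hc : a.Coprime W)
    (h1 : a % 4 = 1) : #{v ∈ range W ×ˢ range W | (v.1 ^ 2 + v.2 ^ 2) % W = a} =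
      #{v : ZMod W × ZMod W | v.1 ^ 2 + v.2 ^ 2 = 1} := by
  have e1 : #{v ∈ range W ×ˢ range W | (v.1 ^ 2 + v.2 ^ 2) % W = a} =
      #{v : ZMod W × ZMod W | v.1 ^ 2 + v.2 ^ 2 = a} := by
    refine card_nbij' (fun v => ((v.1 : ZMod W), (v.2 : ZMod W))) (fun v => (v.1.val, v.2.val))
      (fun v hv => ?_) (fun v hv => ?_) (fun v hv => ?_) fun v _ => by simp
    · simp only [coe_filter, mem_univ, true_and, Set.mem_ofPred_eq] at hv ⊢
      rw [← hv.2]
      simp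
    · simp only [coe_filter, mem_univ, true_and, Set.mem_ofPred_eq, mem_product, mem_range,
        ZMod.val_lt] at hv ⊢
      rw [← Nat.mod_eq_of_lt ha]
      refine (ZMod.natCast_eq_natCast_iff' _ _ _).1 ?_
      simpa using hv
    · simp only [coe_filter, Set.mem_ofPred_eq, mem_product, mem_range] at hv
      simp [ZMod.val_natCast, Nat.mod_eq_of_lt hv.1.1, Nat.mod_eq_of_lt hv.1.2]
  obtain ⟨p, -, hp, hpa⟩ := Nat.forall_exists_prime_gt_and_modEq 0 (NeZero.ne W) hc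
  have := Fact.mk hp
  have hp4 : p % 4 = 1 := h1 ▸ hpa.of_dvd h4
  obtain ⟨x, y, hxy⟩ := Nat.Prime.sq_add_sq (p := p) (by omega)
  have e2 : (x : ZMod W) ^ 2 + (y : ZMod W) ^ 2 = a := by
    rw [← (ZMod.natCast_eq_natCast_iff _ _ _).2 hpa, ← hxy]
    simp
  obtain ⟨c, hc'⟩ := ((ZMod.isUnit_iff_coprime a W).2 hc).exists_right_inv
  rw [e1]
  refine le_antisymm ?_ ?_
  · have e3 : ((x : ZMod W) * c) ^ 2 + ((y : ZMod W) * c) ^ 2 = c := by
      linear_combination c ^ 2 * e2 + c * hc'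
    have := dens_le (x := (x : ZMod W) * c) (y := (y : ZMod W) * c) (c := a) (by rw [e3, mul_comm, hc']) a
    rwa [e3, mul_comm, hc'] at this
  · have := dens_le (x := x) (y := y) (c := c) (by rw [e2, hc']) 1
    rwa [e2, mul_one] at this

lemma dens_sum {W : ℕ} [NeZero W] (h4 : 4 ∣ W) {f : ℕ → ℝ} (hper : ∀ n m, n ≡ m [MOD W] → f n = f m)
    (hs : ∀ n, f n ≠ 0 → n.Coprime W) :
    ∑ v ∈ range W ×ˢ range W, f (v.1 ^ 2 + v.2 ^ 2) =
      #{v : ZMod W × ZMod W | v.1 ^ 2 + v.2 ^ 2 = 1} *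
        ∑ a ∈ range W with a.Coprime W ∧ a % 4 = 1, f a := by
  have hW : 0 < W := Nat.pos_of_ne_zero (NeZero.ne W)
  have key : ∀ v : ℕ × ℕ, f (v.1 ^ 2 + v.2 ^ 2) = ∑ a ∈ range W with a.Coprime W ∧ a % 4 = 1,
      if (v.1 ^ 2 + v.2 ^ 2) % W = a then f a else 0 := by
    intro v
    rw [sum_ite_eq]
    split_ifs with h
    · exact hper _ _ (Nat.mod_modEq _ _).symm
    by_contra h0
    have hc := hs _ h0
    refine h (mem_filter.2 ⟨mem_range.2 (Nat.mod_lt _ hW), ?_, ?_⟩)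
    · rwa [Nat.Coprime, ← Nat.gcd_rec, Nat.gcd_comm]
    · rw [Nat.mod_mod_of_dvd _ h4]
      have h2 : (v.1 ^ 2 + v.2 ^ 2) % 2 = 1 :=
        Nat.odd_iff.1 (Nat.coprime_two_right.1 (hc.coprime_dvd_right (Dvd.dvd.trans ⟨2, rfl⟩ h4)))
      have h3 : ∀ t : ℕ, t ^ 2 % 4 = 0 ∨ t ^ 2 % 4 = 1 := fun t => by
        have : t % 4 = 0 ∨ t % 4 = 1 ∨ t % 4 = 2 ∨ t % 4 = 3 := by omega
        rcases this with h | h | h | h <;> simp [Nat.pow_mod, h]
      have h5 := h3 v.1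
      have h6 := h3 v.2
      omega
  simp only [key]
  rw [sum_comm, mul_sum]
  refine sum_congr rfl fun a ha => ?_
  have ha' := mem_filter.1 ha
  rw [← sum_filter, sum_const, nsmul_eq_mul, dens_card h4 (mem_range.1 ha'.1) ha'.2.1 ha'.2.2]

lemma dens_totient {W : ℕ} (h4 : 4 ∣ W) :
    W.totient = 2 * #{a ∈ range W | a.Coprime W ∧ a % 4 = 1} := by
  have e1 : #{a ∈ range W | a.Coprime W ∧ a % 4 = 1} =
      #{a ∈ range W | a.Coprime W ∧ a % 4 = 3} := by
    refine card_nbij' (fun a => W - a) (fun a => W - a) (fun a ha => ?_) (fun a ha => ?_)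
      (fun a ha => ?_) fun a ha => ?_ <;>
      simp only [coe_filter, Set.mem_ofPred_eq, mem_range] at ha ⊢
    · exact ⟨by omega, (Nat.coprime_self_sub_left ha.1.le).2 ha.2.1, by omega⟩
    · exact ⟨by omega, (Nat.coprime_self_sub_left ha.1.le).2 ha.2.1, by omega⟩
    · omega
    · omega
  rw [two_mul]
  nth_rewrite 2 [e1]
  rw [← card_union_of_disjoint (disjoint_filter.2 fun a _ h1 h2 => by omega), ← filter_or,
    Nat.totient_eq_card_coprime]
  refine congrArg card (filter_congr fun a _ => ⟨fun h => ?_, fun h => ?_⟩)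
  · have h2 : a % 2 = 1 :=
      Nat.odd_iff.1 (Nat.coprime_two_left.1 (h.coprime_dvd_left (Dvd.dvd.trans ⟨2, rfl⟩ h4)))
    have h3 : a % 4 = 1 ∨ a % 4 = 3 := by omega
    exact h3.imp (And.intro h.symm) (And.intro h.symm)
  · exact (h.elim And.left And.left).symm

theorem kap_eq {W : ℕ} (hW : 0 < W) (h4 : 4 ∣ W) {δ : ℕ → ℝ} (hδ : Del W δ) :
    kap W δ = 2 * dW W / W.totient * ∑ a ∈ range W with a.Coprime W ∧ a % 4 = 1, δ a := by
  have : NeZero W := ⟨hW.ne'⟩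
  have e1 := dens_sum h4 (f := fun n => if n.Coprime W then 1 else 0)
    (fun n m h => by simp only [Nat.Coprime, h.gcd_eq]) fun n h => by simpa using h
  rw [sum_boole, sum_congr rfl fun a ha => if_pos (mem_filter.1 ha).2.1, sum_const, nsmul_eq_mul,
    mul_one] at e1
  have e2 : (0 : ℝ) < W.totient := Nat.cast_pos.2 (Nat.totient_pos.2 hW)
  have e3 := congrArg (Nat.cast : ℕ → ℝ) (dens_totient h4)
  rw [Nat.cast_mul, Nat.cast_two] at e3
  unfold kap dW
  rw [dens_sum h4 hδ.per hδ.supp, e1]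
  rw [e3] at e2 ⊢
  have e4 := (pos_of_mul_pos_right e2 zero_le_two).ne'
  field_simp

lemma dens_nrm (μ : GaussianInt) : (nrm μ : ℤ) = μ.norm :=
  Int.natAbs_of_nonneg (GaussianInt.norm_nonneg μ)

theorem kap_ge {W : ℕ} (hW : 0 < W) {δ : ℕ → ℝ} (hδ : Del W δ) (μ : GaussianInt) :
    δ (nrm μ) / (W : ℝ) ^ 2 ≤ kap W δ := by
  have : NeZero W := ⟨hW.ne'⟩
  refine div_le_div_of_nonneg_right (le_trans (le_of_eq (hδ.per _ _ ?_)) (single_le_sum
    (f := fun v : ℕ × ℕ => δ (v.1 ^ 2 + v.2 ^ 2)) (fun _ _ => hδ.nonneg _)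
    (a := ((μ.re : ZMod W).val, (μ.im : ZMod W).val))
    (mem_product.2 ⟨mem_range.2 (ZMod.val_lt _), mem_range.2 (ZMod.val_lt _)⟩))) (by positivity)
  refine (ZMod.natCast_eq_natCast_iff _ _ _).1 ?_
  rw [← Int.cast_natCast, dens_nrm, Zsqrtd.norm_def]
  simp [sq]

lemma dens_nrm_mul (a b : GaussianInt) : nrm (a * b) = nrm a * nrm b := by
  simp [nrm, Zsqrtd.norm_mul, Int.natAbs_mul]

lemma dens_nrm_star (a : GaussianInt) : nrm (star a) = nrm a := by
  simp [nrm]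

lemma dens_step {p n : ℕ} (hp : p.Prime) (h4 : p % 4 = 1) (hn : ¬ p ∣ n)
    (hf : {μ : GaussianInt | nrm μ = n}.Finite) :
    {μ : GaussianInt | nrm μ = p * n}.ncard = 2 * {μ : GaussianInt | nrm μ = n}.ncard := by
  have := Fact.mk hp
  obtain ⟨x, y, hxy⟩ := Nat.Prime.sq_add_sq (p := p) (by omega)
  set π : GaussianInt := ⟨x, y⟩ with hπ
  have h1 : nrm π = p := by
    have : (nrm π : ℤ) = p := by
      rw [dens_nrm, ← hxy, Zsqrtd.norm_def]
      simp [hπ, sq]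
    exact_mod_cast this
  have h1' : nrm (star π) = p := by rw [dens_nrm_star, h1]
  have hdvd : ∀ ν, π ∣ ν → p ∣ nrm ν := by
    rintro _ ⟨c, rfl⟩
    rw [dens_nrm_mul, h1]
    exact dvd_mul_right _ _
  have hprime : Prime π := by
    refine Irreducible.prime ⟨fun h => hp.ne_one (h1 ▸ Zsqrtd.norm_eq_one_iff.2 h), ?_⟩
    intro a b hab
    have e := (Nat.irreducible_iff_nat_prime p).2 hp |>.isUnit_or_isUnit
      (show p = nrm a * nrm b by rw [← dens_nrm_mul, ← hab, h1])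
    exact e.imp (fun h => Zsqrtd.norm_eq_one_iff.1 (Nat.isUnit_iff.1 h))
      fun h => Zsqrtd.norm_eq_one_iff.1 (Nat.isUnit_iff.1 h)
  have h0 : π ≠ 0 := hprime.ne_zero
  have hcancel : ∀ ϖ ν, nrm ϖ = p → (nrm (ϖ * ν) = p * n ↔ nrm ν = n) := fun ϖ ν h => by
    rw [dens_nrm_mul, h, Nat.mul_right_inj hp.ne_zero]
  have e1 : {μ : GaussianInt | nrm μ = p * n} = (fun ν => π * ν) '' {μ | nrm μ = n} ∪
      (fun ν => star π * ν) '' {μ | nrm μ = n} := by
    ext μ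
    constructor
    · intro hμ
      have e2 : π ∣ μ * star μ := by
        rw [← Zsqrtd.norm_eq_mul_conj, ← dens_nrm, show nrm μ = p * n from hμ, ← h1, Nat.cast_mul,
          dens_nrm, Int.cast_mul, Zsqrtd.norm_eq_mul_conj, mul_assoc]
        exact dvd_mul_right _ _
      rcases hprime.dvd_or_dvd e2 with ⟨ν, rfl⟩ | ⟨ν, h⟩
      · exact Or.inl ⟨ν, (hcancel _ _ h1).1 hμ, rfl⟩
      · have e3 : μ = star π * star ν := by rw [← star_mul', ← h, star_star]
        subst e3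
        exact Or.inr ⟨star ν, (hcancel _ _ h1').1 hμ, rfl⟩
    · rintro (⟨ν, h, rfl⟩ | ⟨ν, h, rfl⟩)
      exacts [(hcancel _ _ h1).2 h, (hcancel _ _ h1').2 h]
  rw [e1, Set.ncard_union_eq _ (hf.image _) (hf.image _),
    Set.ncard_image_of_injective _ (mul_right_injective₀ h0),
    Set.ncard_image_of_injective _ (mul_right_injective₀ (star_ne_zero.2 h0)), two_mul]
  rw [Set.disjoint_left]
  rintro _ ⟨ν, -, rfl⟩ ⟨ν', h', e⟩
  rcases hprime.dvd_or_dvd (Dvd.intro ν e.symm) with h | h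
  · have hp2 : ¬ p ∣ 2 := fun h2 => by
      have := Nat.le_of_dvd two_pos h2
      have := hp.two_le
      omega
    have key : ∀ (t : ℕ) (ν : GaussianInt), π ∣ ν → ν.norm = (2 * t) ^ 2 → p * p ∣ t ^ 2 := by
      intro t ν h1 h2
      have e1 := hdvd ν h1
      have e2 : nrm ν = (2 * t) ^ 2 := by
        have : (nrm ν : ℤ) = ((2 * t) ^ 2 : ℕ) := by
          rw [dens_nrm, h2]
          simp
        exact_mod_cast this
      have e3 := ((Nat.Prime.dvd_mul hp).1 (hp.dvd_of_dvd_pow (e2 ▸ e1))).resolve_left hp2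
      rw [sq]
      exact mul_dvd_mul e3 e3
    have f1 := key x _ (dvd_add (dvd_refl π) h) (by simp [hπ, Zsqrtd.norm_def]; ring)
    have f2 := key y _ (dvd_sub (dvd_refl π) h) (by simp [hπ, Zsqrtd.norm_def]; ring)
    have f3 := Nat.le_of_dvd hp.pos (hxy ▸ dvd_add f1 f2)
    have := hp.two_le
    nlinarith
  · exact hn ((show nrm ν' = n from h') ▸ hdvd _ h)

theorem ncard_nrm_eq (S : Finset ℕ) (hS : ∀ p ∈ S, p.Prime ∧ p % 4 = 1) :
    {μ : GaussianInt | nrm μ = ∏ p ∈ S, p}.ncard = 4 * 2 ^ #S := by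
  induction S using Finset.induction_on with
  | empty =>
    have : {μ : GaussianInt | nrm μ = ∏ p ∈ (∅ : Finset ℕ), p} =
        (({⟨1, 0⟩, ⟨-1, 0⟩, ⟨0, 1⟩, ⟨0, -1⟩} : Finset GaussianInt) : Set GaussianInt) := by
      ext ⟨x, y⟩
      simp only [prod_empty, Set.mem_ofPred_eq, coe_insert, coe_singleton, Set.mem_insert_iff,
        Set.mem_singleton_iff, Zsqrtd.mk.injEq]
      rw [← Nat.cast_inj (R := ℤ), dens_nrm, Zsqrtd.norm_def]
      constructor
      · intro h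
        simp only [Nat.cast_one] at h
        have hx : -1 ≤ x ∧ x ≤ 1 := by constructor <;> nlinarith [sq_nonneg y]
        have hy : -1 ≤ y ∧ y ≤ 1 := by constructor <;> nlinarith [sq_nonneg x]
        obtain ⟨h1, h2⟩ := hx
        obtain ⟨h3, h4⟩ := hy
        interval_cases x <;> interval_cases y <;> simp_all
      · rintro (⟨rfl, rfl⟩ | ⟨rfl, rfl⟩ | ⟨rfl, rfl⟩ | ⟨rfl, rfl⟩) <;> simp
    rw [this, Set.ncard_coe_finset]
    decide
  | insert p S hp ih =>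
    have ih' := ih fun q hq => hS q (mem_insert_of_mem hq)
    have h1 := hS p (mem_insert_self _ _)
    rw [prod_insert hp, dens_step h1.1 h1.2 _ (Set.finite_of_ncard_ne_zero (by rw [ih']; positivity)),
      ih', card_insert_of_notMem hp]
    · ring
    · intro h
      obtain ⟨q, hq, e⟩ := (Prime.dvd_finsetProd_iff h1.1.prime _).1 h
      exact hp ((Nat.prime_dvd_prime_iff_eq h1.1 (hS q (mem_insert_of_mem hq)).1).1 e ▸ hq)

end Pool.Agent.P.MP_a1177c_nt.EK
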