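import Pool.Agent.P.MP_a1177c_nt.EK.DispAux2

/-! The dispersion estimate with explicit parameters. -/

set_option autoImplicit false

namespace Pool.Agent.P.MP_a1177c_nt.EK

open Finset Filter
open scoped Classical

lemma disp_par_mono {J T : Type} [Fintype J] {j₀ : J} {β : J → ℤ} {X n₁ n₂ mu : ℝ}
    {𝒯 𝒯' : Finset T} {q : T → J → ℕ} {ι : T → J → ℤ} (h : Par j₀ β X n₁ mu 𝒯 q ι)
    (hs : 𝒯' ⊆ 𝒯) (hn : n₁ ≤ n₂) : Par j₀ β X n₂ mu 𝒯' q ι where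
  pos τ hτ := h.pos τ (hs hτ)
  root τ hτ := h.root τ (hs hτ)
  cop τ hτ := h.cop τ (hs hτ)
  prod τ hτ := h.prod τ (hs hτ)
  le τ hτ := (h.le τ (hs hτ)).trans hn
  fib r := by
    refine le_trans ?_ (h.fib r)
    exact_mod_cast Finset.card_le_card (Finset.filter_subset_filter _ hs)

lemma disp_avg {L : ℕ} (hL : 0 < L) {S e : ℝ} (f : ℕ → ℝ) (h : ∀ s ∈ range L, |S - f s| ≤ e) :
    |S - (∑ s ∈ range L, f s) / L| ≤ e := by
  have hL' : (0 : ℝ) < L := by exact_mod_cast hL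
  have e1 : S - (∑ s ∈ range L, f s) / L = (∑ s ∈ range L, (S - f s)) / L := by
    rw [Finset.sum_sub_distrib, Finset.sum_const, Finset.card_range, nsmul_eq_mul]
    field_simp
  rw [e1, abs_div, abs_of_pos hL', div_le_iff₀ hL']
  refine (Finset.abs_sum_le_sum_abs _ _).trans ((Finset.sum_le_sum h).trans ?_)
  rw [Finset.sum_const, Finset.card_range, nsmul_eq_mul, mul_comm]

lemma disp_swap {T : Type} (𝒯 : Finset T) (D : Finset SL) {L : ℕ} (hL : 0 < L) (ρ : T → ℝ)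
    (w : T → SL → ℝ) (c : T → ℕ → SL → ℝ) (av : T → SL → ℝ) :
    (∑ s ∈ range L, ∑ τ ∈ 𝒯, ρ τ * ∑ h ∈ D, w τ h * (c τ s h - av τ h)) / L =
      ∑ τ ∈ 𝒯, ρ τ * ∑ h ∈ D, w τ h * ((∑ s ∈ range L, c τ s h) / L - av τ h) := by
  have hL' : (L : ℝ) ≠ 0 := by exact_mod_cast hL.ne'
  rw [Finset.sum_comm, Finset.sum_div]
  refine Finset.sum_congr rfl fun τ _ => ?_
  rw [← Finset.mul_sum, mul_div_assoc, Finset.sum_comm, Finset.sum_div]
  congr 1
  refine Finset.sum_congr rfl fun h _ => ?_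
  rw [← Finset.mul_sum, Finset.sum_sub_distrib, Finset.sum_const, Finset.card_range, nsmul_eq_mul]
  field_simp

lemma disp_main {J T : Type} [Fintype J] {j₀ : J} {α β : J → ℤ} {X t G Y E C' mu : ℝ}
    {Φ : ℝ → ℝ → ℝ → ℝ} {𝒯 : Finset T} {q : T → J → ℕ} {ι : T → J → ℤ} (ρ : T → ℝ)
    (a : GaussianInt → ℝ) (V : Set SL) {W M : ℕ} {ω : ℝ → ℝ} (D : Finset SL)
    (ht : 2 ≤ t) (hX : t ^ 8000 ≤ X) (hW : 0 < W) (hWt : (W : ℝ) ≤ t)
    (hQ : (Nat.card (SL ⧸ CongruenceSubgroup.Gamma W) : ℝ) ≤ t) (hC't : C' ≤ t)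
    (hpar : Par j₀ β X (C' * t ^ 1000) mu 𝒯 q ι)
    (hcnt : ∀ 𝒯' ⊆ 𝒯, DispCnt j₀ α β X t G Y 𝒯' q ι)
    (hlow : ∀ τ ∈ 𝒯, t ^ 1000 ≤ q τ j₀) (hρ : ∀ τ ∈ 𝒯, |ρ τ| ≤ t)
    (ha : ∀ ν, (nrm ν : ℝ) ≤ X → |a ν| ≤ t) (hV : Lev W fun h => ind (h ∈ V))
    (hM : 0 < M) (hWM : W ∣ M) (hqM : ∀ τ ∈ 𝒯, ∀ j, q τ j ∣ M)
    (hG : 0 ≤ G) (hE0 : 0 ≤ E) (hE : E * G ≤ X / t ^ 3996) (hω0 : ∀ u, 0 ≤ ω u)
    (hfin : (Function.support fun h => ω (Uy (t ^ 1000) h)).Finite)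
    (hΩ : ∑' h, ω (Uy (t ^ 1000) h) ≤ t ^ 6 * X) (hspec : Spec ω E (t ^ 1000) Y)
    (hω1 : ∀ u, 1 ≤ u → u ≤ t * X → 1 ≤ ω u)
    (hDmem : ∀ h ∈ D, qA h ≤ t * X / t ^ 1000 ∧ qC h ≤ t * t ^ 1000 * X)
    (hD : (#D : ℝ) ≤ t ^ 3 * X) (hΦ : ∀ x y z, |Φ x y z| ≤ 1)
    (hloc : ∀ n n₀ : ℝ, t ^ 1000 ≤ n → n ≤ C' * t ^ 1000 → n - t ^ 800 ≤ n₀ → n₀ ≤ n →
      ∀ s : ℕ, (s : ℝ) ≤ t ^ 800 → ∀ h : SL, (phiT Φ X n (h * nT s) ≠ 0 ∨ phiT Φ X n₀ h ≠ 0) →
        h ∈ D ∧ |phiT Φ X n (h * nT s) - phiT Φ X n₀ h| ≤ t / t ^ 200) :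
    |∑ τ ∈ 𝒯, ρ τ * ∑' h : SL, a (act h 1 0) * phiT Φ X (q τ j₀) h *
        (ind (h ∈ V ∧ h ∈ Cset (q τ) (ι τ) (fun j => α j * q τ j₀) β) -
          avT M (fun h => ind (h ∈ V ∧ h ∈ Cset (q τ) (ι τ) (fun j => α j * q τ j₀) β)) h)| ≤
      X / t ^ 50 := by
  have h0 : 0 < t := by linarith
  have h1 : 1 ≤ t := by linarith
  have hy : 0 < t ^ 1000 := pow_pos h0 _
  have hl : 0 < t ^ 800 := pow_pos h0 _
  obtain ⟨hL0, hL1, -⟩ := disp_floor ht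
  have hX1 : 1 ≤ X := by simpa using disp_pow_le ht hX (k := 0) (by norm_num)
  have hX0 : 0 < X := by linarith
  set L : ℕ := ⌊t ^ 800⌋₊ with hLdef
  set C : T → Set SL := fun τ => Cset (q τ) (ι τ) (fun j => α j * q τ j₀) β with hC
  set c : T → SL → ℝ := fun τ h => ind (h ∈ V ∧ h ∈ C τ) with hc
  set k : T → ℕ := fun τ => ⌊(q τ j₀ : ℝ) / t ^ 800⌋₊ with hk
  have hk1 : ∀ τ, t ^ 800 * (k τ : ℝ) ≤ q τ j₀ := fun τ => by
    have := Nat.floor_le (div_nonneg (Nat.cast_nonneg (q τ j₀) : (0 : ℝ) ≤ _) hl.le)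
    rw [le_div_iff₀ hl] at this
    rw [mul_comm]; exact this
  have hk2 : ∀ τ, (q τ j₀ : ℝ) - t ^ 800 ≤ t ^ 800 * (k τ : ℝ) := fun τ => by
    have := (Nat.lt_floor_add_one ((q τ j₀ : ℝ) / t ^ 800)).le
    rw [div_le_iff₀ hl, add_mul, one_mul, mul_comm] at this
    exact sub_le_iff_le_add.2 this
  have hloc' : ∀ τ ∈ 𝒯, ∀ s : ℕ, (s : ℝ) ≤ t ^ 800 → ∀ h : SL,
      (phiT Φ X (q τ j₀) (h * nT s) ≠ 0 ∨ phiT Φ X (t ^ 800 * (k τ : ℝ)) h ≠ 0) →
        h ∈ D ∧ |phiT Φ X (q τ j₀) (h * nT s) - phiT Φ X (t ^ 800 * (k τ : ℝ)) h| ≤ t / t ^ 200 :=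
    fun τ hτ => hloc _ _ (hlow τ hτ) (hpar.le τ hτ) (hk2 τ) (hk1 τ)
  have hsL : ∀ s ∈ range L, (s : ℝ) ≤ t ^ 800 := fun s hs =>
    le_trans (by exact_mod_cast (Finset.mem_range.1 hs).le) hL1
  have hlev : ∀ τ ∈ 𝒯, Lev M (c τ) := fun τ hτ =>
    disp_lev_and (hV.mono hWM) (cset_lev (hqM τ hτ))
  have haD : ∀ h ∈ D, |a (act h 1 0)| ≤ t := fun h hh => by
    refine ha _ ?_
    rw [disp_nrm]
    refine (hDmem h hh).1.trans ?_
    rw [div_le_iff₀ hy, mul_comm]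
    exact mul_le_mul_of_nonneg_left (by simpa using pow_le_pow_right₀ h1 (by norm_num : 1 ≤ 1000))
      hX0.le
  -- reindexing
  have stepA : ∀ s ∈ range L, ∀ τ ∈ 𝒯,
      ∑' h : SL, a (act h 1 0) * phiT Φ X (q τ j₀) h * (c τ h - avT M (c τ) h) =
        ∑ h ∈ D, a (act h 1 0) * phiT Φ X (q τ j₀) (h * nT s) *
          (c τ (h * nT s) - avT M (c τ) h) := by
    intro s hs τ hτ
    rw [← (Equiv.mulRight (nT s)).tsum_eq]
    simp only [Equiv.coe_mulRight, disp_act_col, avT_shift (hlev τ hτ) dvd_rfl]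
    refine tsum_eq_sum fun h hh => ?_
    have : phiT Φ X (q τ j₀) (h * nT s) = 0 := by
      by_contra hne
      exact hh (hloc' τ hτ s (hsL s hs) h (Or.inl hne)).1
    rw [this, mul_zero, zero_mul]
  -- localisation error
  have stepB : ∀ s ∈ range L,
      |∑ τ ∈ 𝒯, ρ τ * ∑' h : SL, a (act h 1 0) * phiT Φ X (q τ j₀) h * (c τ h - avT M (c τ) h) -
        ∑ τ ∈ 𝒯, ρ τ * ∑ h ∈ D, (a (act h 1 0) * phiT Φ X (t ^ 800 * (k τ : ℝ)) h) *
          (c τ (h * nT s) - avT M (c τ) h)| ≤ X / t ^ 190 := by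
    intro s hs
    rw [Finset.sum_congr rfl fun τ hτ => by rw [stepA s hs τ hτ], ← Finset.sum_sub_distrib]
    refine (Finset.abs_sum_le_sum_abs _ _).trans ?_
    have hterm : ∀ τ ∈ 𝒯, |ρ τ * ∑ h ∈ D, a (act h 1 0) * phiT Φ X (q τ j₀) (h * nT s) *
          (c τ (h * nT s) - avT M (c τ) h) -
        ρ τ * ∑ h ∈ D, (a (act h 1 0) * phiT Φ X (t ^ 800 * (k τ : ℝ)) h) *
          (c τ (h * nT s) - avT M (c τ) h)| ≤
        ∑ h ∈ D, t * (t * (t / t ^ 200) *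
          (ind (h * nT s ∈ C τ) + 1 / (univ.lcm (q τ) : ℕ))) := by
      intro τ hτ
      rw [← mul_sub, ← Finset.sum_sub_distrib, abs_mul, ← Finset.mul_sum]
      refine mul_le_mul (hρ τ hτ) ((Finset.abs_sum_le_sum_abs _ _).trans
        (Finset.sum_le_sum fun h hh => ?_)) (abs_nonneg _) h0.le
      rw [← sub_mul, ← mul_sub, abs_mul, abs_mul]
      have b1 : |phiT Φ X (q τ j₀) (h * nT s) - phiT Φ X (t ^ 800 * (k τ : ℝ)) h| ≤
          t / t ^ 200 := by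
        by_cases hne : phiT Φ X (q τ j₀) (h * nT s) ≠ 0 ∨ phiT Φ X (t ^ 800 * (k τ : ℝ)) h ≠ 0
        · exact (hloc' τ hτ s (hsL s hs) h hne).2
        · push Not at hne
          rw [hne.1, hne.2, sub_zero, abs_zero]
          exact div_nonneg h0.le (pow_pos h0 _).le
      have b2 : |c τ (h * nT s) - avT M (c τ) h| ≤
          ind (h * nT s ∈ C τ) + 1 / (univ.lcm (q τ) : ℕ) := by
        have c1 : 0 ≤ c τ (h * nT s) := disp_ind_nonneg _
        have c2 : c τ (h * nT s) ≤ ind (h * nT s ∈ C τ) := disp_ind_mono fun hh => hh.2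
        have c3 : 0 ≤ avT M (c τ) h := disp_avT_nonneg M (fun _ => disp_ind_nonneg _) h
        have c4 : avT M (c τ) h ≤ 1 / (univ.lcm (q τ) : ℕ) :=
          (disp_avT_mono M (fun h => disp_ind_mono fun hh => hh.2) h).trans
            (cset_avT (hpar.cop τ hτ) hM (hqM τ hτ) h)
        rw [abs_le]
        constructor <;> linarith
      exact mul_le_mul (mul_le_mul (haD h hh) b1 (abs_nonneg _) h0.le) b2 (abs_nonneg _)
        (mul_nonneg h0.le (div_nonneg h0.le (pow_pos h0 _).le))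
    refine (Finset.sum_le_sum hterm).trans ?_
    rw [Finset.sum_comm]
    have hin : ∀ h ∈ D, ∑ τ ∈ 𝒯, t * (t * (t / t ^ 200) *
          (ind (h * nT s ∈ C τ) + 1 / (univ.lcm (q τ) : ℕ))) ≤ t ^ 6 / t ^ 200 := by
      intro h hh
      rw [← Finset.mul_sum, ← Finset.mul_sum, Finset.sum_add_distrib]
      obtain ⟨d1, d2⟩ := hDmem h hh
      have hXX : X ≤ X ^ 2 := by nlinarith
      have d3 : qA h ≤ X := by
        refine d1.trans ?_
        rw [div_le_iff₀ hy, mul_comm]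
        exact mul_le_mul_of_nonneg_left
          (by simpa using pow_le_pow_right₀ h1 (by norm_num : 1 ≤ 1000)) hX0.le
      have d4 : qC (h * nT s) ≤ X ^ 2 := by
        refine (disp_qC_le h s).trans ?_
        have f1 : ((s : ℤ) : ℝ) ^ 2 * qA h ≤ t ^ 1600 * X := by
          refine mul_le_mul ?_ d3 (disp_qA_nonneg h) (pow_pos h0 _).le
          rw [Int.cast_natCast, show t ^ 1600 = (t ^ 800) ^ 2 by ring]
          exact pow_le_pow_left₀ (Nat.cast_nonneg _) (hsL s hs) 2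
        have f2 : qC h ≤ t ^ 1600 * X := by
          refine d2.trans (mul_le_mul_of_nonneg_right ?_ hX0.le)
          rw [← pow_succ']
          exact pow_le_pow_right₀ h1 (by norm_num)
        have f3 : 4 * t ^ 1600 ≤ X := by
          refine le_trans ?_ (disp_pow_le ht hX (k := 1602) (by norm_num))
          have g1 : (4 : ℝ) ≤ t ^ 2 := by have := disp_two_pow ht 2; norm_num at this; exact this
          rw [show t ^ 1602 = t ^ 2 * t ^ 1600 by ring]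
          exact mul_le_mul_of_nonneg_right g1 (pow_pos h0 _).le
        have f4 : 4 * t ^ 1600 * X ≤ X * X := mul_le_mul_of_nonneg_right f3 hX0.le
        calc 2 * (qC h + ((s : ℤ) : ℝ) ^ 2 * qA h) ≤ 2 * (t ^ 1600 * X + t ^ 1600 * X) := by
              gcongr
          _ = 4 * t ^ 1600 * X := by ring
          _ ≤ X * X := f4
          _ = X ^ 2 := by ring
      have e1 : ∑ τ ∈ 𝒯, ind (h * nT s ∈ C τ) ≤ t ^ 2 := by
        have := (hcnt 𝒯 Subset.rfl).a (h * nT s) (by rw [disp_qA]; exact d3.trans hXX) d4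
        refine le_trans (le_of_eq ?_) this
        simp only [ind, hC]
        rw [Finset.sum_boole]
      have e2 := (hcnt 𝒯 Subset.rfl).b1
      have e3 : ∑ τ ∈ 𝒯, ind (h * nT s ∈ C τ) + ∑ τ ∈ 𝒯, (1 / (univ.lcm (q τ) : ℕ) : ℝ) ≤
          t ^ 3 := by
        have : t ^ 2 + t ^ 2 ≤ t ^ 3 := by nlinarith [sq_nonneg t]
        linarith
      calc _ ≤ t * (t * (t / t ^ 200) * t ^ 3) :=
            mul_le_mul_of_nonneg_left (mul_le_mul_of_nonneg_left e3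
              (mul_nonneg h0.le (div_nonneg h0.le (pow_pos h0 _).le))) h0.le
        _ = t ^ 6 / t ^ 200 := by ring
    refine (Finset.sum_le_sum hin).trans ?_
    rw [Finset.sum_const, nsmul_eq_mul]
    calc (#D : ℝ) * (t ^ 6 / t ^ 200) ≤ t ^ 3 * X * (t ^ 6 / t ^ 200) :=
          mul_le_mul_of_nonneg_right hD (div_nonneg (pow_pos h0 _).le (pow_pos h0 _).le)
      _ = X * (t ^ 9 / t ^ 200) := by ring
      _ ≤ X * (t ^ 0 / t ^ 190) := mul_le_mul_of_nonneg_left (disp_pw h1 (by norm_num)) hX0.le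
      _ = X / t ^ 190 := by ring
  have stepB' := disp_avg hL0 _ stepB
  rw [disp_swap 𝒯 D hL0 ρ (fun τ h => a (act h 1 0) * phiT Φ X (t ^ 800 * (k τ : ℝ)) h)
    (fun τ s h => c τ (h * nT s)) (fun τ h => avT M (c τ) h)] at stepB'
  -- the pieces
  have stepC : |∑ τ ∈ 𝒯, ρ τ * ∑ h ∈ D, (a (act h 1 0) * phiT Φ X (t ^ 800 * (k τ : ℝ)) h) *
      ((∑ s ∈ range L, c τ (h * nT s)) / L - avT M (c τ) h)| ≤ X / t ^ 186 := by
    have hmaps : ∀ τ ∈ 𝒯, k τ ∈ range (⌊t ^ 201⌋₊ + 1) := by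
      intro τ hτ
      rw [Finset.mem_range, Nat.lt_succ_iff]
      refine Nat.floor_le_floor ?_
      rw [div_le_iff₀ hl]
      refine (hpar.le τ hτ).trans ?_
      rw [show t ^ 201 * t ^ 800 = t * t ^ 1000 by ring]
      exact mul_le_mul_of_nonneg_right hC't hy.le
    rw [← Finset.sum_fiberwise_of_maps_to hmaps]
    refine (Finset.abs_sum_le_sum_abs _ _).trans ?_
    have hB0 : 0 ≤ X / t ^ 389 := div_nonneg hX0.le (pow_pos h0 _).le
    have hpc : ∀ i ∈ range (⌊t ^ 201⌋₊ + 1),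
        |∑ τ ∈ 𝒯 with k τ = i, ρ τ * ∑ h ∈ D,
          (a (act h 1 0) * phiT Φ X (t ^ 800 * (k τ : ℝ)) h) *
            ((∑ s ∈ range L, c τ (h * nT s)) / L - avT M (c τ) h)| ≤ t * (X / t ^ 389) := by
      intro i _
      rcases ({τ ∈ 𝒯 | k τ = i}).eq_empty_or_nonempty with he | ⟨τ₀, hτ₀⟩
      · rw [he, Finset.sum_empty, abs_zero]
        exact mul_nonneg h0.le hB0
      obtain ⟨hτ₀, hi⟩ := Finset.mem_filter.1 hτ₀
      have hsub : {τ ∈ 𝒯 | k τ = i} ⊆ 𝒯 := Finset.filter_subset _ _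
      have hbD : ∀ h, a (act h 1 0) * phiT Φ X (t ^ 800 * (i : ℝ)) h ≠ 0 → h ∈ D := by
        intro h hne
        refine (hloc' τ₀ hτ₀ 0 (by simpa using hl.le) h (Or.inr ?_)).1
        rw [hi]
        exact right_ne_zero_of_mul hne
      have e : ∑ τ ∈ 𝒯 with k τ = i, ρ τ * ∑ h ∈ D,
          (a (act h 1 0) * phiT Φ X (t ^ 800 * (k τ : ℝ)) h) *
            ((∑ s ∈ range L, c τ (h * nT s)) / L - avT M (c τ) h) =
          ∑ h ∈ D, (a (act h 1 0) * phiT Φ X (t ^ 800 * (i : ℝ)) h) *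
            ∑ τ ∈ 𝒯 with k τ = i, ρ τ *
              ((∑ s ∈ range L, c τ (h * nT s)) / L - avT M (c τ) h) := by
        simp only [Finset.mul_sum]
        rw [Finset.sum_comm]
        refine Finset.sum_congr rfl fun h _ => Finset.sum_congr rfl fun τ hτ => ?_
        rw [(Finset.mem_filter.1 hτ).2]
        ring
      rw [e]
      refine (disp_classes {τ ∈ 𝒯 | k τ = i} C ρ _ D hW M L hV hB0 fun U hU hUl => ?_).trans
        (mul_le_mul_of_nonneg_right hQ hB0)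
      refine disp_piece ρ _ D ht hX hW hWt (disp_par_mono hpar hsub le_rfl) (hcnt _ hsub)
        (fun τ hτ => hρ τ (hsub hτ)) hM hWM (fun τ hτ => hqM τ (hsub hτ)) hG hE0 hE hω0 hfin hΩ
        hspec (fun h hne => ?_) hbD (fun h hh => ?_) hD U hU hUl
      · obtain ⟨d1, d2⟩ := hDmem h (hbD h hne)
        refine hω1 _ (disp_one_le_Uy hy h) ?_
        unfold Uy
        rw [le_div_iff₀ hy] at d1
        have d3 : qC h / t ^ 1000 ≤ t * X := by
          rw [div_le_iff₀ hy]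
          refine d2.trans (le_of_eq ?_)
          ring
        rw [mul_comm] at d1
        linarith
      · rw [abs_mul]
        calc _ ≤ t * 1 := mul_le_mul (haD h hh) (hΦ _ _ _) (abs_nonneg _) h0.le
          _ = t := mul_one t
    refine (Finset.sum_le_sum hpc).trans ?_
    rw [Finset.sum_const, nsmul_eq_mul, Finset.card_range]
    have g1 : ((⌊t ^ 201⌋₊ + 1 : ℕ) : ℝ) ≤ t ^ 202 := by
      have g2 : (⌊t ^ 201⌋₊ : ℝ) ≤ t ^ 201 := Nat.floor_le (pow_pos h0 _).le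
      have g3 : (1 : ℝ) ≤ t ^ 201 := one_le_pow₀ h1
      have g4 : 2 * t ^ 201 ≤ t * t ^ 201 := mul_le_mul_of_nonneg_right ht (pow_pos h0 _).le
      rw [Nat.cast_add, Nat.cast_one, pow_succ' t 201]
      linarith
    calc _ ≤ t ^ 202 * (t * (X / t ^ 389)) :=
          mul_le_mul_of_nonneg_right g1 (mul_nonneg h0.le hB0)
      _ = X / t ^ 186 := by field_simp
  have fin1 : X / t ^ 190 + X / t ^ 186 ≤ X / t ^ 50 := by
    have g1 : X / t ^ 190 ≤ X / t ^ 51 :=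
      div_le_div_of_nonneg_left hX0.le (pow_pos h0 _) (pow_le_pow_right₀ h1 (by norm_num))
    have g2 : X / t ^ 186 ≤ X / t ^ 51 :=
      div_le_div_of_nonneg_left hX0.le (pow_pos h0 _) (pow_le_pow_right₀ h1 (by norm_num))
    have g3 : X / t ^ 50 = t * (X / t ^ 51) := by field_simp
    have g4 : 2 * (X / t ^ 51) ≤ t * (X / t ^ 51) :=
      mul_le_mul_of_nonneg_right ht (div_nonneg hX0.le (pow_pos h0 _).le)
    linarith
  have fin2 := abs_sub_abs_le_abs_sub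
    (∑ τ ∈ 𝒯, ρ τ * ∑' h : SL, a (act h 1 0) * phiT Φ X (q τ j₀) h * (c τ h - avT M (c τ) h))
    (∑ τ ∈ 𝒯, ρ τ * ∑ h ∈ D, (a (act h 1 0) * phiT Φ X (t ^ 800 * (k τ : ℝ)) h) *
      ((∑ s ∈ range L, c τ (h * nT s)) / L - avT M (c τ) h))
  change |∑ τ ∈ 𝒯, ρ τ * ∑' h : SL, a (act h 1 0) * phiT Φ X (q τ j₀) h *
    (c τ h - avT M (c τ) h)| ≤ _
  linarith

end Pool.Agent.P.MP_a1177c_nt.EK
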