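import Pool.Agent.P.MP_a1177c_nt.EK.Cset

set_option autoImplicit false

namespace Pool.Agent.P.MP_a1177c_nt.EK

open Finset Filter
open scoped Classical

lemma dispCore_ind_nonneg (p : Prop) : 0 ≤ ind p := by
  unfold ind; split_ifs <;> norm_num

lemma dispCore_ind_and (p q : Prop) : ind (p ∧ q) = ind p * ind q := by
  unfold ind; by_cases hp : p <;> by_cases hq : q <;> simp [hp, hq]

lemma dispCore_wt_nonneg (y Y : ℝ) (γ : SL) : 0 ≤ wt y Y γ := by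
  unfold wt; split_ifs <;> positivity

lemma dispCore_mean_sum {I : Type} {M : ℕ} (hM : 0 < M) (s : Finset I) (a : I → ℝ)
    (F : I → SL → ℝ) :
    mean M (fun h => ∑ i ∈ s, a i * F i h) = ∑ i ∈ s, a i * mean M (F i) := by
  haveI : NeZero M := ⟨hM.ne'⟩
  haveI : Finite (SL ⧸ CongruenceSubgroup.Gamma M) := Subgroup.finite_quotient_of_finiteIndex
  letI := Fintype.ofFinite (SL ⧸ CongruenceSubgroup.Gamma M)
  unfold mean
  simp only [finsum_eq_sum_of_fintype]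
  rw [sum_comm, sum_div]
  refine sum_congr rfl fun i _ => ?_
  rw [← mul_sum, mul_div_assoc]

/-- Intersections of shifted cosets satisfy the hypotheses of the spectral inequality. -/
lemma dispCore_spec {ω : ℝ → ℝ} {E y Y : ℝ} (hspec : Spec ω E y Y) {M : ℕ} (hM : 0 < M)
    {C C' : Set SL} (hC : Cos C) (hC' : Cos C') (hl : Lev M fun h => ind (h ∈ C))
    (hl' : Lev M fun h => ind (h ∈ C')) (g g' : SL) {Pa Pa' Pb Pb' : SL → Prop}
    (hPa : ∀ a ∈ C, ∀ a' ∈ C, Pa (a * a'⁻¹)) (hPa' : ∀ a ∈ C', ∀ a' ∈ C', Pa' (a * a'⁻¹))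
    (hPb : ∀ a a' : SL, a * g ∈ C → a' * g ∈ C → Pb (a⁻¹ * a'))
    (hPb' : ∀ a a' : SL, a * g' ∈ C' → a' * g' ∈ C' → Pb' (a⁻¹ * a')) :
    |∑' h : SL, ω (Uy y h) * (ind (h * g ∈ C) * ind (h * g' ∈ C') -
        mean M fun h => ind (h * g ∈ C) * ind (h * g' ∈ C'))| ≤
      E * √(∑' γ : SL, ind (Pa γ ∧ Pa' γ) * wt 1 Y γ) *
        √(∑' γ : SL, ind (Pb γ ∧ Pb' γ) * wt y Y γ) := by
  have key : ∀ {D : Set SL}, (Lev M fun h => ind (h ∈ D)) → ∀ (k h γ : SL),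
      γ ∈ CongruenceSubgroup.Gamma M → ind (h * γ * k ∈ D) = ind (h * k ∈ D) := by
    intro D hD k h γ hγ
    have h1 : k⁻¹ * γ * k⁻¹⁻¹ ∈ CongruenceSubgroup.Gamma M :=
      (CongruenceSubgroup.Gamma_normal M).conj_mem γ hγ k⁻¹
    have h2 := hD (h * k) _ h1
    have h3 : h * k * (k⁻¹ * γ * k⁻¹⁻¹) = h * γ * k := by group
    rw [h3] at h2
    exact h2
  have h := hspec M hM {h | h * g ∈ C ∧ h * g' ∈ C'}
    (fun a ha b hb c hc => by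
      constructor
      · have := hC _ ha.1 _ hb.1 _ hc.1
        rwa [show a * g * (b * g)⁻¹ * (c * g) = a * b⁻¹ * c * g by group] at this
      · have := hC' _ ha.2 _ hb.2 _ hc.2
        rwa [show a * g' * (b * g')⁻¹ * (c * g') = a * b⁻¹ * c * g' by group] at this)
    (fun h γ hγ => by
      show ind (h * γ * g ∈ C ∧ h * γ * g' ∈ C') = ind (h * g ∈ C ∧ h * g' ∈ C')
      rw [dispCore_ind_and, dispCore_ind_and, key hl g h γ hγ, key hl' g' h γ hγ])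
    (fun γ => Pa γ ∧ Pa' γ) (fun γ => Pb γ ∧ Pb' γ)
    (fun a ha b hb => by
      constructor
      · have := hPa _ ha.1 _ hb.1
        rwa [show a * g * (b * g)⁻¹ = a * b⁻¹ by group] at this
      · have := hPa' _ ha.2 _ hb.2
        rwa [show a * g' * (b * g')⁻¹ = a * b⁻¹ by group] at this)
    (fun a ha b hb => ⟨hPb _ _ ha.1 hb.1, hPb' _ _ ha.2 hb.2⟩)
  simp only [Set.mem_setOf_eq, dispCore_ind_and] at h ⊢
  exact h

lemma dispCore_trunc {a N : ℕ} (h : a ≤ N) (c : ℝ) (f : ℕ → ℝ) :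
    ∑ σ ∈ range N, (if σ < a then c else 0) * f σ = c * ∑ σ ∈ range a, f σ := by
  rw [mul_sum]
  symm
  refine (sum_subset_zero_on_sdiff (range_mono h) (fun x hx => ?_) (fun x hx => ?_))
  · rw [Finset.mem_sdiff, mem_range, mem_range] at hx
    rw [if_neg hx.2, zero_mul]
  · rw [if_pos (mem_range.1 hx)]

theorem disp_core {T : Type} (𝒯 : Finset T) (C : T → Set SL) (m : T → ℕ) (μ ρ : T → ℝ)
    (Pa : T → SL → Prop) (Pb : T → ℕ → SL → Prop) {M L S₀ : ℕ} (hM : 0 < M) (hL : 0 < L)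
    (hLS : L ≤ S₀) {ω : ℝ → ℝ} {E y Y r Na Nb : ℝ} (hy : 0 < y) (hE : 0 ≤ E)
    (hω : ∀ u, 0 ≤ ω u) (hfin : (Function.support fun h => ω (Uy y h)).Finite)
    (hwt₁ : (Function.support (wt 1 Y)).Finite) (hwt : (Function.support (wt y Y)).Finite)
    (hspec : Spec ω E y Y) (b : SL → ℝ) (hb : ∀ h, b h ≠ 0 → 1 ≤ ω (Uy y h))
    (hcos : ∀ τ ∈ 𝒯, Cos (C τ)) (hlev : ∀ τ ∈ 𝒯, Lev (m τ) fun h => ind (h ∈ C τ))
    (hm : ∀ τ ∈ 𝒯, m τ ∣ M ∧ m τ ≤ S₀)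
    (hμ : ∀ τ ∈ 𝒯, ∀ h, avT M (fun h => ind (h ∈ C τ)) h ≤ μ τ) (hρ : ∀ τ ∈ 𝒯, |ρ τ| ≤ r)
    (hPa : ∀ τ ∈ 𝒯, ∀ a ∈ C τ, ∀ a' ∈ C τ, Pa τ (a * a'⁻¹))
    (hPb : ∀ τ ∈ 𝒯, ∀ (σ : ℕ) (a a' : SL), a * nT σ ∈ C τ → a' * nT σ ∈ C τ → Pb τ σ (a⁻¹ * a'))
    (hNa : ∑ τ ∈ 𝒯, ∑ τ' ∈ 𝒯, ∑' γ, ind (Pa τ γ ∧ Pa τ' γ) * wt 1 Y γ ≤ Na)
    (hNb : ∀ σ σ' : ℕ, σ < 2 * S₀ → σ' < 2 * S₀ →
      ∑ τ ∈ 𝒯, ∑ τ' ∈ 𝒯, ∑' γ, ind (Pb τ σ γ ∧ Pb τ' σ' γ) * wt y Y γ ≤ Nb) :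
    (∑' h, b h * ∑ τ ∈ 𝒯, ρ τ * ((∑ s ∈ range L, ind (h * nT s ∈ C τ)) / L -
        avT M (fun h => ind (h ∈ C τ)) h)) ^ 2 ≤
      (∑' h, b h ^ 2) * r ^ 2 *
        ((∑' h, ω (Uy y h)) * (4 / L) *
            (∑ τ ∈ 𝒯, ∑ τ' ∈ 𝒯, ((m τ).gcd (m τ') : ℕ) * μ τ * μ τ') + 16 * E * √Na * √Nb) := by
  set H := hfin.toFinset with hH
  set w : SL → ℝ := fun h => ω (Uy y h) with hw
  have hw0 : ∀ h, 0 ≤ w h := fun h => hω _
  have hwH : ∀ h, h ∉ H → w h = 0 := fun h hh => by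
    by_contra hc
    exact hh (hfin.mem_toFinset.2 hc)
  have hbH : ∀ h, h ∉ H → b h = 0 := fun h hh => by
    by_contra hc
    have h1 : 1 ≤ w h := hb h hc
    rw [hwH h hh] at h1
    norm_num at h1
  set g : T → SL → ℝ := fun τ h => (∑ s ∈ range L, ind (h * nT s ∈ C τ)) / L -
    avT M (fun h => ind (h ∈ C τ)) h with hg
  have hL0 : (0 : ℝ) < L := by exact_mod_cast hL
  have hS : 0 < S₀ := lt_of_lt_of_le hL hLS
  have hS0 : (0 : ℝ) < S₀ := by exact_mod_cast hS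
  rw [tsum_eq_sum (s := H) (fun h hh => by rw [hbH h hh, zero_mul]),
    tsum_eq_sum (s := H) (f := fun h => b h ^ 2) (fun h hh => by rw [hbH h hh]; norm_num),
    tsum_eq_sum (s := H) (f := fun h => ω (Uy y h)) hwH]
  change (∑ h ∈ H, b h * ∑ τ ∈ 𝒯, ρ τ * g τ h) ^ 2 ≤ (∑ h ∈ H, b h ^ 2) * r ^ 2 *
    ((∑ h ∈ H, w h) * (4 / L) *
      (∑ τ ∈ 𝒯, ∑ τ' ∈ 𝒯, ((m τ).gcd (m τ') : ℕ) * μ τ * μ τ') + 16 * E * √Na * √Nb)
  set W := ∑ h ∈ H, w h with hW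
  have hW0 : 0 ≤ W := sum_nonneg fun h _ => hw0 h
  -- Cauchy-Schwarz
  have hCS : (∑ h ∈ H, b h * ∑ τ ∈ 𝒯, ρ τ * g τ h) ^ 2 ≤
      (∑ h ∈ H, b h ^ 2) * ∑ h ∈ H, w h * (∑ τ ∈ 𝒯, ρ τ * g τ h) ^ 2 := by
    have h1 : ∑ h ∈ H, b h * ∑ τ ∈ 𝒯, ρ τ * g τ h =
        ∑ h ∈ H, b h * (if b h = 0 then 0 else ∑ τ ∈ 𝒯, ρ τ * g τ h) := by
      refine sum_congr rfl fun h _ => ?_
      split_ifs with h0
      · rw [h0, zero_mul, zero_mul]
      · rfl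
    rw [h1]
    refine (sum_mul_sq_le_sq_mul_sq _ _ _).trans (mul_le_mul_of_nonneg_left
      (sum_le_sum fun h _ => ?_) (sum_nonneg fun h _ => sq_nonneg _))
    split_ifs with h0
    · have := hw0 h
      norm_num
      positivity
    · have h2 : 1 ≤ w h := hb h h0
      nlinarith [sq_nonneg (∑ τ ∈ 𝒯, ρ τ * g τ h)]
  refine hCS.trans ?_
  rw [mul_assoc (∑ h ∈ H, b h ^ 2)]
  refine mul_le_mul_of_nonneg_left ?_ (sum_nonneg fun h _ => sq_nonneg _)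
  -- expansion of the square
  have hexp : ∑ h ∈ H, w h * (∑ τ ∈ 𝒯, ρ τ * g τ h) ^ 2 =
      ∑ τ ∈ 𝒯, ∑ τ' ∈ 𝒯, ρ τ * ρ τ' * ∑ h ∈ H, w h * (g τ h * g τ' h) := by
    have h0 : ∀ h, (∑ τ ∈ 𝒯, ρ τ * g τ h) ^ 2 =
        ∑ τ ∈ 𝒯, ∑ τ' ∈ 𝒯, ρ τ * g τ h * (ρ τ' * g τ' h) := fun h => by rw [sq, sum_mul_sum]
    simp only [h0, mul_sum]
    rw [sum_comm]
    refine sum_congr rfl fun τ _ => ?_
    rw [sum_comm]
    refine sum_congr rfl fun τ' _ => sum_congr rfl fun h _ => by ring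
  -- the weights
  set k : ℕ → ℝ := fun σ => (if σ < L then 1 / (L : ℝ) else 0) + 1 / S₀ with hk
  have hk0 : ∀ σ, 0 ≤ k σ := fun σ => by
    simp only [hk]
    split_ifs <;> positivity
  have hksum : ∑ σ ∈ range (2 * S₀), k σ = 3 := by
    have h1 := dispCore_trunc (N := 2 * S₀) (by omega : L ≤ 2 * S₀) (1 / (L : ℝ)) fun _ => 1
    simp only [mul_one] at h1
    simp only [hk, sum_add_distrib, h1, sum_const, card_range, nsmul_eq_mul]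
    push_cast
    field_simp
    ring
  have hrep : ∀ τ ∈ 𝒯, ∃ κ : ℕ → ℝ, (∀ σ, |κ σ| ≤ k σ) ∧
      ∀ h, g τ h = ∑ σ ∈ range (2 * S₀), κ σ * ind (h * nT σ ∈ C τ) := by
    intro τ hτ
    have hm0 : 0 < m τ := Nat.pos_of_dvd_of_pos (hm τ hτ).1 hM
    set S := m τ * (S₀ / m τ + 1) with hSdef
    have hS1 : S₀ < S := Nat.lt_mul_div_succ S₀ hm0
    have hS2 : S ≤ 2 * S₀ := by
      have h1 : m τ * (S₀ / m τ) ≤ S₀ := Nat.mul_div_le S₀ (m τ)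
      have h2 := (hm τ hτ).2
      rw [hSdef, mul_add, mul_one]
      omega
    have hS3 : (S₀ : ℝ) ≤ S := by exact_mod_cast hS1.le
    refine ⟨fun σ => (if σ < L then 1 / (L : ℝ) else 0) - (if σ < S then 1 / (S : ℝ) else 0),
      fun σ => ?_, fun h => ?_⟩
    · refine (abs_sub _ _).trans (add_le_add (le_of_eq (abs_of_nonneg ?_)) ?_)
      · split_ifs <;> positivity
      · split_ifs
        · rw [abs_of_nonneg (by positivity)]
          exact one_div_le_one_div_of_le hS0 hS3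
        · rw [abs_zero]; positivity
    · simp only [sub_mul, sum_sub_distrib]
      rw [dispCore_trunc (by omega : L ≤ 2 * S₀), dispCore_trunc hS2]
      simp only [hg]
      rw [avT_eq (hlev τ hτ) hM (by omega : 0 < S) (hm τ hτ).1 (Dvd.intro _ rfl)]
      unfold avT
      ring
  choose! κ hκ1 hκ2 using hrep
  set e : T → T → ℕ → ℕ → ℝ := fun τ τ' σ σ' =>
    √(∑' γ : SL, ind (Pa τ γ ∧ Pa τ' γ) * wt 1 Y γ) *
      √(∑' γ : SL, ind (Pb τ σ γ ∧ Pb τ' σ' γ) * wt y Y γ) with he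
  -- the estimate for one pair
  have hpair : ∀ τ ∈ 𝒯, ∀ τ' ∈ 𝒯, |∑ h ∈ H, w h * (g τ h * g τ' h)| ≤
      W * (4 / L) * (((m τ).gcd (m τ') : ℕ) * μ τ * μ τ') +
        ∑ σ ∈ range (2 * S₀), ∑ σ' ∈ range (2 * S₀), k σ * k σ' * (E * e τ τ' σ σ') := by
    intro τ hτ τ' hτ'
    have hsplit : ∑ h ∈ H, w h * (g τ h * g τ' h) = W * mean M (fun h => g τ h * g τ' h) +
        ∑ h ∈ H, w h * (g τ h * g τ' h - mean M (fun h => g τ h * g τ' h)) := by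
      rw [hW, sum_mul, ← sum_add_distrib]
      exact sum_congr rfl fun h _ => by ring
    rw [hsplit]
    refine (abs_add_le _ _).trans (add_le_add ?_ ?_)
    · -- main term
      have h1 : (fun h => g τ h * g τ' h) = fun h => ∑ p ∈ range L ×ˢ range L, (1 / (L : ℝ) ^ 2) *
          ((ind (h * nT p.1 ∈ C τ) - avT M (fun h => ind (h ∈ C τ)) h) *
            (ind (h * nT p.2 ∈ C τ') - avT M (fun h => ind (h ∈ C τ')) h)) := by
        funext h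
        rw [← mul_sum, sum_product]
        dsimp only
        rw [← sum_mul_sum]
        simp only [hg, sum_sub_distrib, sum_const, card_range, nsmul_eq_mul]
        field_simp
      rw [h1, dispCore_mean_sum hM, ← mul_sum, sum_product, abs_mul, abs_of_nonneg hW0,
        mul_assoc W]
      refine mul_le_mul_of_nonneg_left ?_ hW0
      rw [abs_mul, abs_of_nonneg (by positivity : (0 : ℝ) ≤ 1 / (L : ℝ) ^ 2)]
      have h2 : ∀ s ∈ range L, |∑ t ∈ range L, mean M fun h =>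
          (ind (h * nT (s : ℕ) ∈ C τ) - avT M (fun h => ind (h ∈ C τ)) h) *
            (ind (h * nT (t : ℕ) ∈ C τ') - avT M (fun h => ind (h ∈ C τ')) h)| ≤
          4 * ((m τ).gcd (m τ') : ℕ) * μ τ * μ τ' := fun s _ =>
        main_term hM (hm τ hτ).1 (hm τ' hτ').1 (fun h => dispCore_ind_nonneg _)
          (fun h => dispCore_ind_nonneg _) (hlev τ hτ) (hlev τ' hτ') (hμ τ hτ) (hμ τ' hτ') s L
      have h3 := (abs_sum_le_sum_abs _ _).trans (sum_le_sum h2)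
      rw [sum_const, card_range, nsmul_eq_mul] at h3
      refine (mul_le_mul_of_nonneg_left h3 (by positivity)).trans (le_of_eq ?_)
      field_simp
    · -- error term
      set Pr : ℕ × ℕ → SL → ℝ := fun p h => ind (h * nT p.1 ∈ C τ) * ind (h * nT p.2 ∈ C τ')
        with hPr
      have h1 : ∀ h, g τ h * g τ' h = ∑ p ∈ range (2 * S₀) ×ˢ range (2 * S₀),
          κ τ p.1 * κ τ' p.2 * Pr p h := by
        intro h
        rw [hκ2 τ hτ h, hκ2 τ' hτ' h, sum_mul_sum, sum_product]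
        exact sum_congr rfl fun σ _ => sum_congr rfl fun σ' _ => by simp only [hPr]; ring
      have h2 : mean M (fun h => g τ h * g τ' h) = ∑ p ∈ range (2 * S₀) ×ˢ range (2 * S₀),
          κ τ p.1 * κ τ' p.2 * mean M (Pr p) := by
        rw [← dispCore_mean_sum hM]
        exact congrArg (mean M) (funext h1)
      have h3 : ∑ h ∈ H, w h * (g τ h * g τ' h - mean M (fun h => g τ h * g τ' h)) =
          ∑ p ∈ range (2 * S₀) ×ˢ range (2 * S₀),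
            κ τ p.1 * κ τ' p.2 * ∑ h ∈ H, w h * (Pr p h - mean M (Pr p)) := by
        rw [h2]
        simp only [h1, ← sum_sub_distrib, mul_sum]
        rw [sum_comm]
        exact sum_congr rfl fun p _ => sum_congr rfl fun h _ => by ring
      rw [h3, ← sum_product' (f := fun σ σ' => k σ * k σ' * (E * e τ τ' σ σ'))]
      refine (abs_sum_le_sum_abs _ _).trans (sum_le_sum fun p _ => ?_)
      rw [abs_mul, abs_mul]
      refine mul_le_mul (mul_le_mul (hκ1 τ hτ _) (hκ1 τ' hτ' _) (abs_nonneg _) (hk0 _)) ?_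
        (abs_nonneg _) (mul_nonneg (hk0 _) (hk0 _))
      have h4 := dispCore_spec hspec hM (hcos τ hτ) (hcos τ' hτ')
        ((hlev τ hτ).mono (hm τ hτ).1) ((hlev τ' hτ').mono (hm τ' hτ').1) (nT p.1) (nT p.2)
        (hPa τ hτ) (hPa τ' hτ') (hPb τ hτ p.1) (hPb τ' hτ' p.2)
      rw [tsum_eq_sum (s := H) (fun h hh => by
        rw [show ω (Uy y h) = 0 from hwH h hh, zero_mul]), mul_assoc] at h4
      exact h4
  -- summing the errors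
  have herr : ∀ σ ∈ range (2 * S₀), ∀ σ' ∈ range (2 * S₀),
      ∑ τ ∈ 𝒯, ∑ τ' ∈ 𝒯, e τ τ' σ σ' ≤ √Na * √Nb := by
    intro σ hσ σ' hσ'
    rw [← sum_product' (f := fun τ τ' => e τ τ' σ σ')]
    refine (Real.sum_sqrt_mul_sqrt_le (𝒯 ×ˢ 𝒯)
      (f := fun p => ∑' γ : SL, ind (Pa p.1 γ ∧ Pa p.2 γ) * wt 1 Y γ)
      (g := fun p => ∑' γ : SL, ind (Pb p.1 σ γ ∧ Pb p.2 σ' γ) * wt y Y γ)
      (fun p => tsum_nonneg fun γ => mul_nonneg (dispCore_ind_nonneg _) (dispCore_wt_nonneg _ _ _))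
      (fun p => tsum_nonneg fun γ =>
        mul_nonneg (dispCore_ind_nonneg _) (dispCore_wt_nonneg _ _ _))).trans ?_
    rw [sum_product, sum_product]
    exact mul_le_mul (Real.sqrt_le_sqrt hNa)
      (Real.sqrt_le_sqrt (hNb σ σ' (mem_range.1 hσ) (mem_range.1 hσ'))) (Real.sqrt_nonneg _)
      (Real.sqrt_nonneg _)
  have hN0 : 0 ≤ E * (√Na * √Nb) := by positivity
  have htot : ∑ τ ∈ 𝒯, ∑ τ' ∈ 𝒯, ∑ σ ∈ range (2 * S₀), ∑ σ' ∈ range (2 * S₀),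
      k σ * k σ' * (E * e τ τ' σ σ') ≤ 16 * E * √Na * √Nb := by
    have h1 : ∑ τ ∈ 𝒯, ∑ τ' ∈ 𝒯, ∑ σ ∈ range (2 * S₀), ∑ σ' ∈ range (2 * S₀),
        k σ * k σ' * (E * e τ τ' σ σ') = ∑ σ ∈ range (2 * S₀), ∑ σ' ∈ range (2 * S₀),
        k σ * k σ' * (E * ∑ τ ∈ 𝒯, ∑ τ' ∈ 𝒯, e τ τ' σ σ') := by
      simp only [mul_sum]
      rw [← sum_product' (f := fun τ τ' => ∑ σ ∈ range (2 * S₀), ∑ σ' ∈ range (2 * S₀),
        k σ * k σ' * (E * e τ τ' σ σ')), sum_comm]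
      refine sum_congr rfl fun σ _ => ?_
      rw [sum_comm]
      refine sum_congr rfl fun σ' _ => ?_
      rw [sum_product]
    rw [h1]
    calc ∑ σ ∈ range (2 * S₀), ∑ σ' ∈ range (2 * S₀),
          k σ * k σ' * (E * ∑ τ ∈ 𝒯, ∑ τ' ∈ 𝒯, e τ τ' σ σ')
        ≤ ∑ σ ∈ range (2 * S₀), ∑ σ' ∈ range (2 * S₀), k σ * k σ' * (E * (√Na * √Nb)) :=
          sum_le_sum fun σ hσ => sum_le_sum fun σ' hσ' => mul_le_mul_of_nonneg_left
            (mul_le_mul_of_nonneg_left (herr σ hσ σ' hσ') hE) (mul_nonneg (hk0 _) (hk0 _))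
      _ = 9 * (E * (√Na * √Nb)) := by
          simp only [← sum_mul]
          rw [← sum_mul_sum, hksum]
          norm_num
      _ ≤ 16 * E * √Na * √Nb := by nlinarith
  rw [hexp]
  calc ∑ τ ∈ 𝒯, ∑ τ' ∈ 𝒯, ρ τ * ρ τ' * ∑ h ∈ H, w h * (g τ h * g τ' h)
      ≤ ∑ τ ∈ 𝒯, ∑ τ' ∈ 𝒯, r ^ 2 * (W * (4 / L) * (((m τ).gcd (m τ') : ℕ) * μ τ * μ τ') +
        ∑ σ ∈ range (2 * S₀), ∑ σ' ∈ range (2 * S₀), k σ * k σ' * (E * e τ τ' σ σ')) := by
        refine sum_le_sum fun τ hτ => sum_le_sum fun τ' hτ' => (le_abs_self _).trans ?_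
        rw [abs_mul, abs_mul, sq]
        have hr : 0 ≤ r := (abs_nonneg _).trans (hρ τ hτ)
        exact mul_le_mul (mul_le_mul (hρ τ hτ) (hρ τ' hτ') (abs_nonneg _) hr) (hpair τ hτ τ' hτ')
          (abs_nonneg _) (mul_nonneg hr hr)
    _ = r ^ 2 * (W * (4 / L) * (∑ τ ∈ 𝒯, ∑ τ' ∈ 𝒯, ((m τ).gcd (m τ') : ℕ) * μ τ * μ τ') +
        ∑ τ ∈ 𝒯, ∑ τ' ∈ 𝒯, ∑ σ ∈ range (2 * S₀), ∑ σ' ∈ range (2 * S₀),
          k σ * k σ' * (E * e τ τ' σ σ')) := by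
        simp only [← mul_sum, sum_add_distrib]
    _ ≤ _ := by gcongr

end Pool.Agent.P.MP_a1177c_nt.EK
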