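import Pool.Agent.P.MP_a1177c_nt.EK.Cset
import Pool.Agent.P.MP_a1177c_nt.EK.Count

set_option autoImplicit false

namespace Pool.Agent.P.MP_a1177c_nt.EK

open Finset Filter
open scoped Classical

lemma dispCount_nonneg (p : Prop) : 0 ≤ ind p := by
  unfold ind
  split_ifs <;> norm_num

lemma dispCount_le_one (p : Prop) : ind p ≤ 1 := by
  unfold ind
  split_ifs <;> norm_num

lemma dispCount_le {p : Prop} {c : ℝ} (h0 : 0 ≤ c) (h1 : p → 1 ≤ c) : ind p ≤ c := by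
  unfold ind
  split_ifs with h
  exacts [h1 h, h0]

lemma dispCount_pos {p : Prop} (h : p) : ind p = 1 := if_pos h

lemma dispCount_and (p r : Prop) : ind (p ∧ r) = ind p * ind r := by
  unfold ind
  by_cases hp : p <;> by_cases hr : r <;> simp [hp, hr]

lemma dispCount_card {T : Type} (s : Finset T) (p : T → Prop) [DecidablePred p] :
    (#{τ ∈ s | p τ} : ℝ) = ∑ τ ∈ s, ind (p τ) := by
  rw [card_filter]
  push_cast
  refine sum_congr rfl fun τ _ => ?_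
  unfold ind
  congr

lemma dispCount_le_sum {I : Type} (R : Finset I) {p : Prop} (r : I → Prop)
    (h : p → ∃ i ∈ R, r i) : ind p ≤ ∑ i ∈ R, ind (r i) := by
  refine dispCount_le (sum_nonneg fun _ _ => dispCount_nonneg _) fun hp => ?_
  obtain ⟨i, hi, hr⟩ := h hp
  exact (dispCount_pos hr).ge.trans
    (single_le_sum (f := fun i => ind (r i)) (fun _ _ => dispCount_nonneg _) hi)

lemma dispCount_wt_nonneg (y Y : ℝ) (γ : SL) : 0 ≤ wt y Y γ := by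
  unfold wt
  split_ifs <;> positivity

lemma dispCount_summable {y : ℝ} (hy : 0 < y) (Y : ℝ) (f : SL → ℝ) :
    Summable fun γ => f γ * wt y Y γ :=
  summable_of_hasFiniteSupport ((wt_finite hy Y).subset (Function.support_mul_subset_right _ _))

lemma dispCount_swap {T : Type} (s : Finset T) {y : ℝ} (hy : 0 < y) (Y : ℝ)
    (f g : T → SL → ℝ) {c : SL → ℝ}
    (h : ∀ γ, uy y γ ≤ Y → (∑ τ ∈ s, f τ γ) * ∑ τ ∈ s, g τ γ ≤ c γ) :
    ∑ τ ∈ s, ∑ τ' ∈ s, ∑' γ, f τ γ * g τ' γ * wt y Y γ ≤ ∑' γ, c γ * wt y Y γ := by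
  have h1 : ∀ τ, ∑ τ' ∈ s, ∑' γ, f τ γ * g τ' γ * wt y Y γ =
      ∑' γ, (f τ γ * ∑ τ' ∈ s, g τ' γ) * wt y Y γ := fun τ => by
    rw [← Summable.tsum_finsetSum fun τ' _ => dispCount_summable hy Y _]
    simp only [mul_sum, sum_mul]
  simp only [h1]
  rw [← Summable.tsum_finsetSum fun τ _ => dispCount_summable hy Y _]
  simp only [← sum_mul]
  refine Summable.tsum_le_tsum (fun γ => ?_) (dispCount_summable hy Y _) (dispCount_summable hy Y _)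
  by_cases hγ : uy y γ ≤ Y
  · exact mul_le_mul_of_nonneg_right (h γ hγ) (dispCount_wt_nonneg _ _ _)
  · simp [wt, hγ]

lemma dispCount_entry {X y Y : ℝ} (hy : 1 ≤ y) (hyX : y ≤ X) (hY : Y ≤ X ^ 2) {γ : SL}
    (h : uy y γ ≤ Y) : |(γ 0 0 : ℝ)| ≤ 2 * X ^ 2 ∧ |(γ 0 1 : ℝ)| ≤ 2 * X ^ 2 ∧
      |(γ 1 0 : ℝ)| ≤ 2 * X ^ 2 ∧ |(γ 1 1 : ℝ)| ≤ 2 * X ^ 2 := by
  have hX : 1 ≤ X := hy.trans hyX
  have hX2 : 1 ≤ X ^ 2 := one_le_pow₀ hX
  have hy2 : 1 ≤ y ^ 2 := one_le_pow₀ hy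
  have hy3 : y ^ 2 ≤ X ^ 2 := pow_le_pow_left₀ (by linarith) hyX 2
  unfold uy at h
  have e1 := sq_nonneg (γ 0 0 : ℝ)
  have e2 := sq_nonneg (γ 1 1 : ℝ)
  have e3 : 0 ≤ (γ 0 1 : ℝ) ^ 2 / y ^ 2 := by positivity
  have e4 : (γ 1 0 : ℝ) ^ 2 ≤ (γ 1 0 : ℝ) ^ 2 * y ^ 2 := le_mul_of_one_le_right (sq_nonneg _) hy2
  have e5 := sq_nonneg (γ 1 0 : ℝ)
  have e6 : (γ 0 1 : ℝ) ^ 2 ≤ 2 * X ^ 2 * y ^ 2 := by
    rw [← div_le_iff₀ (by positivity)]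
    linarith
  have e7 : 2 * X ^ 2 ≤ (2 * X ^ 2) ^ 2 := by nlinarith
  have e8 : 2 * X ^ 2 * y ^ 2 ≤ (2 * X ^ 2) ^ 2 := by nlinarith
  refine ⟨?_, ?_, ?_, ?_⟩ <;> refine abs_le_of_sq_le_sq' ?_ (by positivity) |> abs_le.2 <;> linarith

lemma dispCount_log {η : ℝ} (hη : 0 < η) : ∀ᶠ X : ℝ in atTop, 1 + 3 * Real.log X ≤ X ^ η := by
  filter_upwards [(tendsto_rpow_atTop (half_pos hη)).eventually_ge_atTop (1 + 3 / (η / 2)),
    eventually_ge_atTop 1] with X h1 h2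
  have h3 := Real.log_le_rpow_div (by linarith : 0 ≤ X) (half_pos hη)
  have h4 : 1 ≤ X ^ (η / 2) := Real.one_le_rpow h2 (half_pos hη).le
  have h5 : X ^ η = X ^ (η / 2) * X ^ (η / 2) := by
    rw [← Real.rpow_add (by linarith), add_halves]
  rw [h5]
  calc 1 + 3 * Real.log X ≤ X ^ (η / 2) + 3 * (X ^ (η / 2) / (η / 2)) := by linarith
    _ = (1 + 3 / (η / 2)) * X ^ (η / 2) := by ring
    _ ≤ _ := mul_le_mul_of_nonneg_right h1 (by linarith)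

lemma dispCount_div {η : ℝ} (hη : 0 < η) : ∀ᶠ X : ℝ in atTop, ∀ n : ℤ, |(n : ℝ)| ≤ 20 * X ^ 8 →
    (#n.natAbs.divisors : ℝ) ≤ X ^ η := by
  obtain ⟨C, hC⟩ := card_divisors_le (η / 10) (by positivity)
  filter_upwards [(tendsto_rpow_atTop (by positivity : 0 < η / 10)).eventually_ge_atTop C,
    eventually_ge_atTop 20] with X h1 h2 n hn
  have h0 : 0 < X := by linarith
  have h3 : (n.natAbs : ℝ) ≤ X ^ (9 : ℝ) := by
    rw [Nat.cast_natAbs, Int.cast_abs, show (9 : ℝ) = (9 : ℕ) by norm_num, Real.rpow_natCast]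
    refine hn.trans ?_
    rw [pow_succ' X 8]
    exact mul_le_mul_of_nonneg_right h2 (by positivity)
  calc (#n.natAbs.divisors : ℝ) ≤ C * (n.natAbs : ℝ) ^ (η / 10) := hC _
    _ ≤ X ^ (η / 10) * (X ^ (9 : ℝ)) ^ (η / 10) :=
        mul_le_mul h1 (Real.rpow_le_rpow (Nat.cast_nonneg _) h3 (by positivity)) (by positivity)
          (by positivity)
    _ = X ^ η := by
        rw [← Real.rpow_mul h0.le, ← Real.rpow_add h0]
        congr 1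
        ring

section count

variable {J T : Type} [Fintype J] {j₀ : J} {β : J → ℤ} {X n₁ mu D : ℝ} {𝒯 : Finset T}
  {q : T → J → ℕ} {ι : T → J → ℤ}

lemma dispCount_dvd (hP : Par j₀ β X n₁ mu 𝒯 q ι) (hmu : 0 ≤ mu)
    (hD : ∀ n : ℤ, |(n : ℝ)| ≤ 20 * X ^ 8 → (#n.natAbs.divisors : ℝ) ≤ D) (N : J → ℤ)
    (h0 : ∀ j, N j ≠ 0) (hN : ∀ j, |(N j : ℝ)| ≤ 20 * X ^ 8) :
    ∑ τ ∈ 𝒯, ind (∀ j, (q τ j : ℤ) ∣ N j) ≤ mu * D ^ Fintype.card J := by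
  set R := Fintype.piFinset fun j => (N j).natAbs.divisors with hR
  calc ∑ τ ∈ 𝒯, ind (∀ j, (q τ j : ℤ) ∣ N j) ≤ ∑ τ ∈ 𝒯, ∑ r ∈ R, ind (q τ = r) :=
        sum_le_sum fun τ _ => dispCount_le_sum R _ fun h => ⟨q τ, Fintype.mem_piFinset.2 fun j =>
          Nat.mem_divisors.2 ⟨Int.natCast_dvd.1 (h j), Int.natAbs_ne_zero.2 (h0 j)⟩, rfl⟩
    _ = ∑ r ∈ R, ∑ τ ∈ 𝒯, ind (q τ = r) := sum_comm
    _ ≤ ∑ _r ∈ R, mu := sum_le_sum fun r _ => by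
        rw [← dispCount_card]
        exact hP.fib r
    _ = mu * ∏ j, (#(N j).natAbs.divisors : ℝ) := by
        rw [sum_const, hR, Fintype.card_piFinset, nsmul_eq_mul, Nat.cast_prod, mul_comm]
    _ ≤ mu * ∏ _j : J, D := mul_le_mul_of_nonneg_left
        (prod_le_prod (fun _ _ => Nat.cast_nonneg _) fun j _ => hD _ (hN j)) hmu
    _ = _ := by rw [prod_const, card_univ]

lemma dispCount_dvd2 (hP : Par j₀ β X n₁ mu 𝒯 q ι) (hmu : 0 ≤ mu)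
    (hD : ∀ n : ℤ, |(n : ℝ)| ≤ 20 * X ^ 8 → (#n.natAbs.divisors : ℝ) ≤ D) (N : ℕ → J → ℤ)
    (U : Finset ℕ) (h0 : ∀ u ∈ U, ∀ j, N u j ≠ 0) (hN : ∀ u ∈ U, ∀ j, |(N u j : ℝ)| ≤ 20 * X ^ 8)
    {p : T → Prop} (hp : ∀ τ ∈ 𝒯, p τ → q τ j₀ ∈ U ∧ ∀ j, (q τ j : ℤ) ∣ N (q τ j₀) j) :
    ∑ τ ∈ 𝒯, ind (p τ) ≤ #U * (mu * D ^ Fintype.card J) := by
  calc ∑ τ ∈ 𝒯, ind (p τ) ≤ ∑ τ ∈ 𝒯, ∑ u ∈ U, ind (∀ j, (q τ j : ℤ) ∣ N u j) :=
        sum_le_sum fun τ hτ => dispCount_le_sum U _ fun h => ⟨_, (hp τ hτ h).1, (hp τ hτ h).2⟩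
    _ = ∑ u ∈ U, ∑ τ ∈ 𝒯, ind (∀ j, (q τ j : ℤ) ∣ N u j) := sum_comm
    _ ≤ ∑ _u ∈ U, mu * D ^ Fintype.card J :=
        sum_le_sum fun u hu => dispCount_dvd hP hmu hD _ (h0 u hu) (hN u hu)
    _ = _ := by rw [sum_const, nsmul_eq_mul]

lemma dispCount_lcm (hP : Par j₀ β X n₁ mu 𝒯 q ι) (hmu : 0 ≤ mu) (hX : 1 ≤ X)
    (hD : ∀ n : ℤ, |(n : ℝ)| ≤ 20 * X ^ 8 → (#n.natAbs.divisors : ℝ) ≤ D) (f : ℕ → ℝ)
    (hf : ∀ m, 0 ≤ f m) :
    ∑ τ ∈ 𝒯, f (univ.lcm (q τ)) ≤ mu * D ^ Fintype.card J * ∑ m ∈ Icc 1 ⌊X⌋₊, f m := by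
  have hmem : ∀ τ ∈ 𝒯, univ.lcm (q τ) ∈ Icc 1 ⌊X⌋₊ := by
    intro τ hτ
    have h1 : univ.lcm (q τ) ∣ ∏ j, q τ j := Finset.lcm_dvd fun j hj => dvd_prod_of_mem _ hj
    have h2 : 0 < ∏ j, q τ j := prod_pos fun j _ => hP.pos τ hτ j
    refine mem_Icc.2 ⟨Nat.pos_of_dvd_of_pos h1 h2, (Nat.le_of_dvd h2 h1).trans (Nat.le_floor ?_)⟩
    rw [Nat.cast_prod]
    exact hP.prod τ hτ
  calc ∑ τ ∈ 𝒯, f (univ.lcm (q τ))
      ≤ ∑ τ ∈ 𝒯, ∑ m ∈ Icc 1 ⌊X⌋₊, ind (∀ j, (q τ j : ℤ) ∣ (m : ℤ)) * f m := by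
        refine sum_le_sum fun τ hτ => le_trans ?_ (single_le_sum
          (f := fun m : ℕ => ind (∀ j, (q τ j : ℤ) ∣ (m : ℤ)) * f m)
          (fun m _ => mul_nonneg (dispCount_nonneg _) (hf m)) (hmem τ hτ))
        rw [dispCount_pos fun j => Int.natCast_dvd_natCast.2 (Finset.dvd_lcm (mem_univ j)), one_mul]
    _ = ∑ m ∈ Icc 1 ⌊X⌋₊, (∑ τ ∈ 𝒯, ind (∀ j, (q τ j : ℤ) ∣ (m : ℤ))) * f m := by
        rw [sum_comm]
        simp only [sum_mul]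
    _ ≤ ∑ m ∈ Icc 1 ⌊X⌋₊, mu * D ^ Fintype.card J * f m := by
        refine sum_le_sum fun m hm => mul_le_mul_of_nonneg_right ?_ (hf m)
        have h1 := mem_Icc.1 hm
        refine dispCount_dvd hP hmu hD (fun _ => m) (fun _ => by omega) fun _ => ?_
        have h2 : (m : ℝ) ≤ X := (Nat.le_floor_iff (by linarith)).1 h1.2
        have h3 : X ≤ X ^ 8 := le_self_pow₀ hX (by norm_num)
        rw [Int.cast_natCast, Nat.abs_cast]
        linarith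
    _ = _ := by rw [mul_sum]

lemma dispCount_cset (hP : Par j₀ β X n₁ mu 𝒯 q ι) (hmu : 0 ≤ mu) (hX : 1 ≤ X) (hn : n₁ ≤ X)
    (hD : ∀ n : ℤ, |(n : ℝ)| ≤ 20 * X ^ 8 → (#n.natAbs.divisors : ℝ) ≤ D) {α : J → ℤ}
    (hα : α j₀ = 0) (hβ : ∀ j, β j ≠ 0) (hαX : ∀ j, |(α j : ℝ)| ≤ X) (hβX : ∀ j, |(β j : ℝ)| ≤ X)
    {h : SL} (hA : qA h ≤ X ^ 2) (hC : qC h ≤ X ^ 2) :
    ∑ τ ∈ 𝒯, ind (h ∈ Cset (q τ) (ι τ) (fun j => α j * q τ j₀) β) ≤
      D * (mu * D ^ Fintype.card J) := by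
  set N : ℕ → J → ℤ := fun u j => (act h (α j * u) (β j)).norm with hN
  have h0 : ∀ u j, N u j ≠ 0 := by
    intro u j e
    have e1 := Zsqrtd.norm_eq_zero_iff (d := -1) (by norm_num) _ |>.1 e
    have e2 : h 0 0 * (α j * u) + h 0 1 * β j = 0 := congrArg Zsqrtd.re e1
    have e3 : h 1 0 * (α j * u) + h 1 1 * β j = 0 := congrArg Zsqrtd.im e1
    have e4 := h.det_coe
    rw [Matrix.det_fin_two] at e4
    apply hβ j
    linear_combination h 0 0 * e3 - h 1 0 * e2 - β j * e4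
  have hb : ∀ u : ℕ, (u : ℝ) ≤ X → ∀ j, |(N u j : ℝ)| ≤ 20 * X ^ 8 := by
    intro u hu j
    have e1 : ((α j : ℝ) * u) ^ 2 ≤ (X * X) ^ 2 := by
      rw [← sq_abs, abs_mul, Nat.abs_cast]
      gcongr
      exact hαX j
    have e2 : (β j : ℝ) ^ 2 ≤ X ^ 2 := by
      rw [← sq_abs]
      gcongr
      exact hβX j
    have e3 : (N u j : ℝ) ≤ 2 * (((α j : ℝ) * u) ^ 2 * qA h + (β j : ℝ) ^ 2 * qC h) := by
      simp only [hN, act, Zsqrtd.norm_def, qA, qC]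
      push_cast
      nlinarith [sq_nonneg ((h 0 0 : ℝ) * (α j * u) - h 0 1 * β j),
        sq_nonneg ((h 1 0 : ℝ) * (α j * u) - h 1 1 * β j)]
    have e4 : 0 ≤ qA h := by
      unfold qA
      positivity
    have e5 : 0 ≤ qC h := by
      unfold qC
      positivity
    have e6 : X ^ 4 ≤ X ^ 8 := pow_le_pow_right₀ hX (by norm_num)
    have e7 : X ^ 6 ≤ X ^ 8 := pow_le_pow_right₀ hX (by norm_num)
    have e8 := mul_le_mul e1 hA e4 (by positivity)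
    have e9 := mul_le_mul e2 hC e5 (by positivity)
    rw [abs_of_nonneg (by exact_mod_cast GaussianInt.norm_nonneg _)]
    have e10 : 0 ≤ X ^ 8 := by positivity
    calc (N u j : ℝ) ≤ 2 * ((X * X) ^ 2 * X ^ 2 + X ^ 2 * X ^ 2) := by linarith
      _ = 2 * X ^ 6 + 2 * X ^ 4 := by ring
      _ ≤ _ := by linarith
  have hD0 : 0 ≤ D := (Nat.cast_nonneg _).trans (hD 0 (by simp; positivity))
  refine (dispCount_dvd2 hP hmu hD N {u ∈ (N 0 j₀).natAbs.divisors | (u : ℝ) ≤ X}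
    (fun u _ => h0 u) (fun u hu => hb u (mem_filter.1 hu).2) fun τ hτ hh => ?_).trans ?_
  · have key : ∀ j, (q τ j : ℤ) ∣ N (q τ j₀) j := fun j => by
      have e1 := (hh j).mul_right (ell (-ι τ j) (act h (α j * q τ j₀) (β j)))
      have e2 := (hP.root τ hτ j).mul_right ((act h (α j * q τ j₀) (β j)).im ^ 2)
      refine (dvd_add e1 e2).trans (Dvd.intro 1 ?_)
      simp only [hN, ell, Zsqrtd.norm_def]
      ring
    refine ⟨mem_filter.2 ⟨Nat.mem_divisors.2 ⟨Int.natCast_dvd.1 ?_,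
      Int.natAbs_ne_zero.2 (h0 _ _)⟩, (hP.le τ hτ).trans hn⟩, key⟩
    simpa [hN, hα] using key j₀
  · refine mul_le_mul_of_nonneg_right (le_trans ?_ (hD _ (hb 0 (by simp; linarith) j₀)))
      (by positivity)
    exact_mod_cast card_filter_le _ _

lemma dispCount_Qg (hP : Par j₀ β X n₁ mu 𝒯 q ι) (hmu : 0 ≤ mu) (hX : 1 ≤ X) (hn0 : 0 ≤ n₁)
    (hn : n₁ ≤ X) (hD : ∀ n : ℤ, |(n : ℝ)| ≤ 20 * X ^ 8 → (#n.natAbs.divisors : ℝ) ≤ D)
    {α : J → ℤ} (hαX : ∀ j, |(α j : ℝ)| ≤ X) (hβX : ∀ j, |(β j : ℝ)| ≤ X) {σ : ℕ}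
    (hσ : (σ : ℝ) ≤ X ^ 2) {γ : SL} (hγ : |(γ 0 0 : ℝ)| ≤ 2 * X ^ 2 ∧ |(γ 0 1 : ℝ)| ≤ 2 * X ^ 2 ∧
      |(γ 1 0 : ℝ)| ≤ 2 * X ^ 2 ∧ |(γ 1 1 : ℝ)| ≤ 2 * X ^ 2) :
    ∑ τ ∈ 𝒯, ind (∀ j, (q τ j : ℤ) ∣ Qg γ (α j * q τ j₀ + σ * β j) (β j) ∧
      Qg γ (α j * q τ j₀ + σ * β j) (β j) ≠ 0) ≤ n₁ * (mu * D ^ Fintype.card J) := by
  have hD0 : 0 ≤ D := (Nat.cast_nonneg _).trans (hD 0 (by simp; positivity))
  refine (dispCount_dvd2 hP hmu hD (fun u j => Qg γ (α j * u + σ * β j) (β j))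
    {u ∈ Icc 1 ⌊n₁⌋₊ | ∀ j, Qg γ (α j * u + σ * β j) (β j) ≠ 0} (fun u hu => (mem_filter.1 hu).2)
    (fun u hu j => ?_) fun τ hτ hh => ⟨mem_filter.2 ⟨mem_Icc.2 ⟨hP.pos τ hτ j₀,
      Nat.le_floor (hP.le τ hτ)⟩, fun j => (hh j).2⟩, fun j => (hh j).1⟩).trans ?_
  · have hu' : (u : ℝ) ≤ X :=
      ((Nat.le_floor_iff hn0).1 (mem_Icc.1 (mem_filter.1 hu).1).2).trans hn
    have e1 : |(α j : ℝ) * u + σ * β j| ≤ 2 * X ^ 3 := by
      refine (abs_add_le _ _).trans ?_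
      rw [abs_mul, abs_mul, Nat.abs_cast, Nat.abs_cast]
      have f1 := mul_le_mul (hαX j) hu' (Nat.cast_nonneg _) (by linarith)
      have f2 := mul_le_mul hσ (hβX j) (abs_nonneg _) (by positivity)
      have f3 : X ^ 2 ≤ X ^ 3 := pow_le_pow_right₀ hX (by norm_num)
      nlinarith
    have e2 : |(γ 1 1 : ℝ) - γ 0 0| ≤ 4 * X ^ 2 := (abs_sub _ _).trans (by linarith [hγ.1, hγ.2.2.2])
    have e3 := hβX j
    have e4 := hγ.2.1
    have e5 := hγ.2.2.1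
    have e6 : X ^ 4 ≤ X ^ 8 := pow_le_pow_right₀ hX (by norm_num)
    have e7 : X ^ 6 ≤ X ^ 8 := pow_le_pow_right₀ hX (by norm_num)
    have e10 : 0 ≤ X ^ 8 := by positivity
    simp only [Qg]
    push_cast
    set x := (α j : ℝ) * u + σ * β j
    calc |(γ 1 0 : ℝ) * x ^ 2 + (γ 1 1 - γ 0 0) * x * β j - γ 0 1 * (β j : ℝ) ^ 2|
        ≤ |(γ 1 0 : ℝ)| * |x| ^ 2 + |(γ 1 1 : ℝ) - γ 0 0| * |x| * |(β j : ℝ)| +
          |(γ 0 1 : ℝ)| * |(β j : ℝ)| ^ 2 := by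
          refine (abs_sub _ _).trans (add_le_add ((abs_add_le _ _).trans ?_) ?_) <;>
            simp only [abs_mul, abs_pow, le_refl]
      _ ≤ 2 * X ^ 2 * (2 * X ^ 3) ^ 2 + 4 * X ^ 2 * (2 * X ^ 3) * X + 2 * X ^ 2 * X ^ 2 := by
          gcongr
      _ = 8 * X ^ 8 + 8 * X ^ 6 + 2 * X ^ 4 := by ring
      _ ≤ _ := by linarith
  · refine mul_le_mul_of_nonneg_right (le_trans ?_ (Nat.floor_le hn0)) (by positivity)
    exact_mod_cast (card_filter_le _ _).trans (by simp)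

end count

theorem disp_count {J : Type} [Fintype J] (j₀ : J) (α β : J → ℤ) (hα : α j₀ = 0)
    (hβ : ∀ j, β j ≠ 0) (δ : ℝ) (hδ : 0 < δ) :
    ∀ᶠ X : ℝ in atTop, ∀ {T : Type} (𝒯 : Finset T) (q : T → J → ℕ) (ι : T → J → ℤ)
      (n₁ mu : ℝ), 1 ≤ n₁ → n₁ ≤ X → 1 ≤ mu → Par j₀ β X n₁ mu 𝒯 q ι →
      (∀ h : SL, qA h ≤ X ^ 2 → qC h ≤ X ^ 2 →
        (#{τ ∈ 𝒯 | h ∈ Cset (q τ) (ι τ) (fun j => α j * q τ j₀) β} : ℝ) ≤ mu * X ^ δ) ∧
      ∑ τ ∈ 𝒯, (1 / (univ.lcm (q τ) : ℕ) : ℝ) ≤ mu * X ^ δ ∧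
      ∑ τ ∈ 𝒯, ∑ τ' ∈ 𝒯, (((univ.lcm (q τ)).gcd (univ.lcm (q τ')) : ℕ) : ℝ) *
        (1 / (univ.lcm (q τ) : ℕ)) * (1 / (univ.lcm (q τ') : ℕ)) ≤ mu ^ 2 * X ^ δ ∧
      (∀ Y : ℝ, 1 ≤ Y → Y ≤ X ^ 2 → ∑ τ ∈ 𝒯, ∑ τ' ∈ 𝒯, ∑' γ : SL,
        ind ((∀ j, (q τ j : ℤ) ∣ xiN γ) ∧ ∀ j, (q τ' j : ℤ) ∣ xiN γ) * wt 1 Y γ ≤
          X ^ δ * ((#𝒯 : ℝ) ^ 2 + mu ^ 2 * √Y)) ∧
      ∀ y Y : ℝ, 1 ≤ y → y ≤ X → 1 ≤ Y → Y ≤ X ^ 2 → ∀ σ σ' : ℕ, (σ : ℝ) ≤ X ^ 2 →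
        (σ' : ℝ) ≤ X ^ 2 → ∑ τ ∈ 𝒯, ∑ τ' ∈ 𝒯, ∑' γ : SL,
          ind ((∀ j, (q τ j : ℤ) ∣ Qg γ (α j * q τ j₀ + σ * β j) (β j)) ∧
            ∀ j, (q τ' j : ℤ) ∣ Qg γ (α j * q τ' j₀ + σ' * β j) (β j)) * wt y Y γ ≤
          X ^ δ * n₁ ^ 2 * y ^ 2 * ((#𝒯 : ℝ) ^ 2 + mu ^ 2 * √Y) := by
  obtain ⟨C₁, hC₁⟩ := sum_wt
  obtain ⟨C₂, hC₂⟩ := sum_wt_par
  set k := Fintype.card J with hk
  filter_upwards [dispCount_div (η := δ / 4 / (k + 1 : ℕ)) (by positivity),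
    dispCount_log (η := δ / 4 / (3 : ℕ)) (by positivity), eventually_ge_atTop 1,
    (tendsto_rpow_atTop (by positivity : 0 < δ / 4)).eventually_ge_atTop
      (4 + |C₁| + 2 * k * |C₂|),
    eventually_all.2 fun j => eventually_ge_atTop |(α j : ℝ)|,
    eventually_all.2 fun j => eventually_ge_atTop |(β j : ℝ)|] with X hD hL hX hZ hαX hβX
  intro T 𝒯 q ι n₁ mu hn1 hn hmu hP
  have hX0 : 0 ≤ X := by linarith
  have hmu0 : 0 ≤ mu := by linarith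
  have hD1 : 1 ≤ X ^ (δ / 4 / (k + 1 : ℕ)) := Real.one_le_rpow hX (by positivity)
  have hDZ : (X ^ (δ / 4 / (k + 1 : ℕ))) ^ (k + 1) = X ^ (δ / 4) := by
    rw [← Real.rpow_natCast, ← Real.rpow_mul hX0, div_mul_cancel₀ _ (by positivity)]
  have hLZ : (X ^ (δ / 4 / (3 : ℕ))) ^ 3 = X ^ (δ / 4) := by
    rw [← Real.rpow_natCast, ← Real.rpow_mul hX0, div_mul_cancel₀ _ (by positivity)]
  have hZ4 : X ^ δ = (X ^ (δ / 4)) ^ 4 := by
    rw [← Real.rpow_natCast, ← Real.rpow_mul hX0]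
    norm_num
  have hL1 : 1 ≤ X ^ (δ / 4 / (3 : ℕ)) := Real.one_le_rpow hX (by positivity)
  rw [hZ4]
  set D := X ^ (δ / 4 / (k + 1 : ℕ))
  set L := X ^ (δ / 4 / (3 : ℕ))
  set Z := X ^ (δ / 4)
  have hlog : 0 ≤ Real.log X := Real.log_nonneg hX
  have a1 := abs_nonneg C₁
  have a2 : 0 ≤ 2 * k * |C₂| := by positivity
  have hZ1 : 1 ≤ Z := by linarith
  have hDk : D ^ k ≤ Z := hDZ ▸ pow_le_pow_right₀ hD1 (Nat.le_succ k)
  have hLZ' : L ≤ Z := hLZ ▸ le_self_pow₀ hL1 (by norm_num)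
  have hZZ : ∀ n, n ≤ 4 → Z ^ n ≤ Z ^ 4 := fun n hn => pow_le_pow_right₀ hZ1 hn
  have hfl : 1 + Real.log (⌊X⌋₊ : ℝ) ≤ L := by
    have h1 : (1 : ℝ) ≤ ⌊X⌋₊ := by exact_mod_cast Nat.le_floor (by simpa using hX)
    have := Real.log_le_log (by linarith) (Nat.floor_le hX0)
    linarith
  have hmD : mu * D ^ k ≤ mu * Z := mul_le_mul_of_nonneg_left hDk hmu0
  have hmD0 : 0 ≤ mu * D ^ k := by positivity
  refine ⟨fun h hA hC => ?_, ?_, ?_, fun Y hY1 hY => ?_, fun y Y hy1 hy hY1 hY σ σ' hσ hσ' => ?_⟩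
  · rw [dispCount_card]
    refine (dispCount_cset hP hmu0 hX hn hD hα hβ hαX hβX hA hC).trans ?_
    calc D * (mu * D ^ k) = mu * Z ^ 1 := by
          rw [pow_one, ← hDZ]
          ring
      _ ≤ _ := mul_le_mul_of_nonneg_left (hZZ 1 (by norm_num)) hmu0
  · refine (dispCount_lcm hP hmu0 hX hD (fun m => 1 / (m : ℝ)) fun m => by positivity).trans ?_
    have h1 : ∑ m ∈ Icc 1 ⌊X⌋₊, (1 / (m : ℝ)) ≤ Z := by
      have := harmonic_le_one_add_log ⌊X⌋₊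
      rw [harmonic_eq_sum_Icc] at this
      push_cast at this
      simp only [one_div]
      linarith
    calc mu * D ^ k * ∑ m ∈ Icc 1 ⌊X⌋₊, (1 / (m : ℝ)) ≤ mu * Z * Z :=
          mul_le_mul hmD h1 (sum_nonneg fun _ _ => by positivity) (by positivity)
      _ = mu * Z ^ 2 := by ring
      _ ≤ _ := mul_le_mul_of_nonneg_left (hZZ 2 (by norm_num)) hmu0
  · refine (sum_le_sum fun τ _ => dispCount_lcm hP hmu0 hX hD (fun m' =>
      (((univ.lcm (q τ)).gcd m' : ℕ) : ℝ) * (1 / (univ.lcm (q τ) : ℕ)) * (1 / (m' : ℝ)))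
      fun m => by positivity).trans ?_
    rw [← mul_sum]
    refine (mul_le_mul hmD (dispCount_lcm hP hmu0 hX hD (fun m => ∑ m' ∈ Icc 1 ⌊X⌋₊,
      ((m.gcd m' : ℕ) : ℝ) * (1 / (m : ℝ)) * (1 / (m' : ℝ)))
      fun m => sum_nonneg fun _ _ => by positivity)
      (sum_nonneg fun _ _ => sum_nonneg fun _ _ => by positivity) (by positivity)).trans ?_
    have h1 : ∑ m ∈ Icc 1 ⌊X⌋₊, ∑ m' ∈ Icc 1 ⌊X⌋₊,
        ((m.gcd m' : ℕ) : ℝ) * (1 / (m : ℝ)) * (1 / (m' : ℝ)) ≤ Z := by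
      have h2 : 0 ≤ 1 + Real.log (⌊X⌋₊ : ℝ) := by
        have := Real.log_natCast_nonneg ⌊X⌋₊
        linarith
      refine le_trans (le_of_eq ?_) ((sum_gcd_le ⌊X⌋₊).trans
        (hLZ ▸ pow_le_pow_left₀ h2 hfl 3))
      refine sum_congr rfl fun m _ => sum_congr rfl fun m' _ => ?_
      rw [mul_assoc, one_div_mul_one_div, mul_one_div]
    calc mu * Z * (mu * D ^ k * ∑ m ∈ Icc 1 ⌊X⌋₊, ∑ m' ∈ Icc 1 ⌊X⌋₊,
          ((m.gcd m' : ℕ) : ℝ) * (1 / (m : ℝ)) * (1 / (m' : ℝ))) ≤ mu * Z * (mu * Z * Z) :=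
          mul_le_mul_of_nonneg_left (mul_le_mul hmD h1
            (sum_nonneg fun _ _ => sum_nonneg fun _ _ => by positivity) (by positivity))
            (by positivity)
      _ = mu ^ 2 * Z ^ 3 := by ring
      _ ≤ _ := mul_le_mul_of_nonneg_left (hZZ 3 (by norm_num)) (by positivity)
  · simp only [dispCount_and]
    refine (dispCount_swap 𝒯 one_pos Y _ _
      (c := fun γ => (#𝒯 : ℝ) ^ 2 * ind (xiN γ = 0) + (mu * Z) ^ 2) fun γ hγ => ?_).trans ?_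
    · rw [← sq]
      have h0 : 0 ≤ ∑ τ ∈ 𝒯, ind (∀ j, (q τ j : ℤ) ∣ xiN γ) :=
        sum_nonneg fun _ _ => dispCount_nonneg _
      by_cases e : xiN γ = 0
      · rw [dispCount_pos e, mul_one]
        refine le_add_of_le_of_nonneg (pow_le_pow_left₀ h0 ?_ 2) (sq_nonneg _)
        simpa using sum_le_card_nsmul 𝒯 _ 1 fun τ _ => dispCount_le_one _
      · refine le_add_of_nonneg_of_le (mul_nonneg (sq_nonneg _) (dispCount_nonneg _))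
          (pow_le_pow_left₀ h0 ((dispCount_dvd hP hmu0 hD (fun _ => xiN γ) (fun _ => e)
            fun _ => ?_).trans hmD) 2)
        have e1 : (xiN γ : ℝ) ≤ 4 * uy 1 γ := by
          simp only [xiN, uy]
          push_cast
          nlinarith [sq_nonneg ((γ 0 0 : ℝ) + γ 1 1), sq_nonneg ((γ 0 1 : ℝ) - γ 1 0)]
        have e2 : X ^ 2 ≤ X ^ 8 := pow_le_pow_right₀ hX (by norm_num)
        have e3 : 0 ≤ X ^ 8 := by positivity
        rw [abs_of_nonneg (by unfold xiN; positivity)]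
        linarith
    · simp only [add_mul, mul_assoc ((#𝒯 : ℝ) ^ 2)]
      rw [((dispCount_summable one_pos Y _).mul_left _).tsum_add (dispCount_summable one_pos Y _),
        tsum_mul_left, tsum_mul_left, mul_add]
      have e1 := hC₁ 1 Y le_rfl hY1
      have e2 : C₁ * 1 ^ 2 * √Y ≤ Z * √Y :=
        mul_le_mul_of_nonneg_right (by linarith [le_abs_self C₁]) (Real.sqrt_nonneg _)
      refine add_le_add ?_ ?_
      · rw [mul_comm]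
        refine mul_le_mul_of_nonneg_right ((sum_wt_xi Y).trans ?_) (sq_nonneg _)
        linarith [hZZ 1 (by norm_num)]
      · calc (mu * Z) ^ 2 * ∑' γ, wt 1 Y γ ≤ (mu * Z) ^ 2 * (Z * √Y) :=
              mul_le_mul_of_nonneg_left (e1.trans e2) (sq_nonneg _)
          _ = Z ^ 3 * (mu ^ 2 * √Y) := by ring
          _ ≤ _ := mul_le_mul_of_nonneg_right (hZZ 3 (by norm_num)) (by positivity)
  · have hy0 : 0 < y := by linarith
    have hpar : ∀ x : J → ℤ, ∑' γ : SL, (∑ j, ind (Qg γ (x j) (β j) = 0)) * wt y Y γ ≤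
        k * (|C₂| * y * Z) := by
      intro x
      simp only [sum_mul]
      rw [Summable.tsum_finsetSum fun j _ => dispCount_summable hy0 Y _]
      refine (sum_le_card_nsmul _ _ (|C₂| * y * Z) fun j _ =>
        (hC₂ y Y hy1 hY1 _ _ (hβ j)).trans ?_).trans (by simp [hk])
      have e1 : Real.log (y * Y) ≤ 3 * Real.log X := by
        have : y * Y ≤ X ^ 3 := by
          rw [pow_succ' X 2]
          exact mul_le_mul hy hY (by linarith) hX0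
        simpa using Real.log_le_log (by positivity) this
      have e2 : 0 ≤ Real.log (y * Y) := Real.log_nonneg (one_le_mul_of_one_le_of_one_le hy1 hY1)
      exact mul_le_mul (mul_le_mul_of_nonneg_right (le_abs_self _) hy0.le) (by linarith)
        (by linarith) (by positivity)
    set f : ℕ → T → SL → ℝ := fun σ τ γ => ind (∀ j,
      (q τ j : ℤ) ∣ Qg γ (α j * q τ j₀ + σ * β j) (β j) ∧
        Qg γ (α j * q τ j₀ + σ * β j) (β j) ≠ 0) with hf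
    have hterm : ∀ τ τ', ∑' γ : SL,
        ind ((∀ j, (q τ j : ℤ) ∣ Qg γ (α j * q τ j₀ + σ * β j) (β j)) ∧
          ∀ j, (q τ' j : ℤ) ∣ Qg γ (α j * q τ' j₀ + σ' * β j) (β j)) * wt y Y γ ≤
        2 * k * |C₂| * y * Z + ∑' γ, f σ τ γ * f σ' τ' γ * wt y Y γ := by
      intro τ τ'
      have e1 := hpar fun j => α j * q τ j₀ + σ * β j
      have e2 := hpar fun j => α j * q τ' j₀ + σ' * β j
      refine le_trans ?_ (add_le_add ((add_le_add e1 e2).trans (le_of_eq (by ring))) le_rfl)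
      rw [← (dispCount_summable hy0 Y _).tsum_add (dispCount_summable hy0 Y _)]
      simp only [← add_mul]
      rw [← (dispCount_summable hy0 Y _).tsum_add (dispCount_summable hy0 Y _)]
      simp only [← add_mul]
      refine Summable.tsum_le_tsum (fun γ => mul_le_mul_of_nonneg_right ?_
        (dispCount_wt_nonneg _ _ _)) (dispCount_summable hy0 Y _) (dispCount_summable hy0 Y _)
      have n1 : 0 ≤ ∑ j, ind (Qg γ (α j * q τ j₀ + σ * β j) (β j) = 0) :=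
        sum_nonneg fun _ _ => dispCount_nonneg _
      have n2 : 0 ≤ ∑ j, ind (Qg γ (α j * q τ' j₀ + σ' * β j) (β j) = 0) :=
        sum_nonneg fun _ _ => dispCount_nonneg _
      have n3 : 0 ≤ f σ τ γ * f σ' τ' γ := mul_nonneg (dispCount_nonneg _) (dispCount_nonneg _)
      refine dispCount_le (by linarith) fun hh => ?_
      by_cases c1 : ∃ j ∈ univ, Qg γ (α j * q τ j₀ + σ * β j) (β j) = 0
      · have := dispCount_le_sum univ _ fun _ : True => c1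
        rw [dispCount_pos trivial] at this
        linarith
      by_cases c2 : ∃ j ∈ univ, Qg γ (α j * q τ' j₀ + σ' * β j) (β j) = 0
      · have := dispCount_le_sum univ _ fun _ : True => c2
        rw [dispCount_pos trivial] at this
        linarith
      push Not at c1 c2
      have f1 : f σ τ γ = 1 := dispCount_pos fun j => ⟨hh.1 j, c1 j (mem_univ j)⟩
      have f2 : f σ' τ' γ = 1 := dispCount_pos fun j => ⟨hh.2 j, c2 j (mem_univ j)⟩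
      rw [f1, f2]
      linarith
    refine (sum_le_sum fun τ _ => sum_le_sum fun τ' _ => hterm τ τ').trans ?_
    simp only [sum_add_distrib, sum_const, nsmul_eq_mul]
    rw [mul_add]
    have hn2 : 1 ≤ n₁ ^ 2 := one_le_pow₀ hn1
    refine add_le_add ?_ ((dispCount_swap 𝒯 hy0 Y _ _ (c := fun _ => (n₁ * (mu * Z)) ^ 2)
      fun γ hγ => ?_).trans ?_)
    · have e1 : 2 * k * |C₂| * y * Z ≤ Z * y ^ 2 * Z :=
        mul_le_mul_of_nonneg_right (mul_le_mul (by linarith) (le_self_pow₀ hy1 (by norm_num))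
          hy0.le (by linarith)) (by linarith)
      calc (#𝒯 : ℝ) * (#𝒯 * (2 * k * |C₂| * y * Z)) ≤ #𝒯 * (#𝒯 * (Z * y ^ 2 * Z)) := by gcongr
        _ = Z ^ 2 * 1 * y ^ 2 * (#𝒯 : ℝ) ^ 2 := by ring
        _ ≤ _ := by
          have := hZZ 2 (by norm_num)
          gcongr
    · have hγ' := dispCount_entry hy1 hy hY hγ
      have hn0 : 0 ≤ n₁ := by linarith
      have hb := mul_le_mul_of_nonneg_left hmD hn0
      rw [sq]
      exact mul_le_mul ((dispCount_Qg hP hmu0 hX hn0 hn hD hαX hβX hσ hγ').trans hb)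
        ((dispCount_Qg hP hmu0 hX hn0 hn hD hαX hβX hσ' hγ').trans hb)
        (sum_nonneg fun _ _ => dispCount_nonneg _) (by positivity)
    · rw [tsum_mul_left]
      have e2 : C₁ * y ^ 2 * √Y ≤ Z * y ^ 2 * √Y := by
        have : C₁ ≤ Z := by linarith [le_abs_self C₁]
        gcongr
      calc (n₁ * (mu * Z)) ^ 2 * ∑' γ, wt y Y γ ≤ (n₁ * (mu * Z)) ^ 2 * (Z * y ^ 2 * √Y) :=
            mul_le_mul_of_nonneg_left ((hC₁ y Y hy1 hY1).trans e2) (sq_nonneg _)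
        _ = Z ^ 3 * n₁ ^ 2 * y ^ 2 * (mu ^ 2 * √Y) := by ring
        _ ≤ _ := by
          have := hZZ 3 (by norm_num)
          gcongr

end Pool.Agent.P.MP_a1177c_nt.EK
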