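import Pool.Agent.P.MP_a1177c_nt.EK.Spectral
import Pool.Agent.P.MP_a1177c_nt.EK.DispCore
import Pool.Agent.P.MP_a1177c_nt.EK.DispCount
import Pool.Agent.P.MP_a1177c_nt.EK.DispAux3

set_option autoImplicit false

namespace Pool.Agent.P.MP_a1177c_nt.EK

open Finset Filter
open scoped Classical

lemma disp_box {Cb t X N u : ℝ} (hCb : ∀ P Q : ℝ, 1 ≤ P → 1 ≤ Q →
    {h : SL | qA h ≤ P ∧ qC h ≤ Q}.Finite ∧
      (({h : SL | qA h ≤ P ∧ qC h ≤ Q}.ncard : ℕ) : ℝ) ≤ Cb * (P + √(P * Q)))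
    (ht : 2 ≤ t) (hCt : Cb ≤ t) (hN : 1 ≤ N) (hNX : N ≤ X) (hu : 1 ≤ u) :
    ∃ D : Finset SL, (∀ h, h ∈ D ↔ qA h ≤ u * X / N ∧ qC h ≤ u * N * X) ∧
      (#D : ℝ) ≤ t ^ 2 * u * X := by
  have hN0 : 0 < N := by linarith
  have hX1 : 1 ≤ X := by linarith
  have huX : 1 * X ≤ u * X := by gcongr
  obtain ⟨h1, h2⟩ := hCb (u * X / N) (u * N * X) (by rw [le_div_iff₀ hN0]; linarith)
    (one_le_mul_of_one_le_of_one_le (one_le_mul_of_one_le_of_one_le hu hN) hX1)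
  refine ⟨h1.toFinset, fun h => by simp, ?_⟩
  rw [← Set.ncard_eq_toFinset_card _ h1]
  refine h2.trans ?_
  have e1 : √(u * X / N * (u * N * X)) = u * X := by
    rw [Real.sqrt_eq_iff_mul_self_eq (by positivity) (by positivity)]
    field_simp
  have e2 : u * X / N ≤ u * X := div_le_self (by positivity) hN
  rw [e1]
  have e3 : 0 ≤ u * X / N := by positivity
  have e4 : 0 ≤ u * X := by positivity
  calc Cb * (u * X / N + u * X) ≤ t * (u * X / N + u * X) := by gcongr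
    _ ≤ t * (2 * (u * X)) := by gcongr; linarith
    _ ≤ t * (t * (u * X)) := by gcongr
    _ = t ^ 2 * u * X := by ring

lemma disp_E {X t C θ κ δ : ℝ} (hX : 1 ≤ X) (ht : t = X ^ δ) (h2 : 2 ≤ t) (hCt : C ≤ t)
    (hθ : θ < 1 / 2) (hδ : 1000 * δ ≤ κ * (1 / 2 - θ))
    (hlog : Real.log (t * X) ≤ t) :
    C * Real.log (t * X) * √(t * X) * (t * X / (X ^ (1 / 2 - 2 * κ)) ^ 2) ^ θ *
      X ^ (1 / 2 - 2 * κ) ≤ X / t ^ 3996 := by
  have hX0 : 0 < X := by linarith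
  have h0 : 0 < t := by linarith
  have h1 : 1 ≤ t := by linarith
  have a1 : √(t * X) ≤ t * X ^ (1 / 2 : ℝ) := by
    rw [Real.sqrt_mul h0.le, ← Real.sqrt_eq_rpow]
    refine mul_le_mul_of_nonneg_right ?_ (Real.sqrt_nonneg _)
    rw [Real.sqrt_le_left h0.le]
    nlinarith
  have a2 : (t * X / (X ^ (1 / 2 - 2 * κ)) ^ 2) ^ θ ≤ t * X ^ (4 * κ * θ) := by
    have b1 : X / (X ^ (1 / 2 - 2 * κ)) ^ 2 = X ^ (4 * κ) := by
      rw [← Real.rpow_natCast, ← Real.rpow_mul hX0.le, div_eq_iff (by positivity),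
        ← Real.rpow_add hX0]
      nth_rewrite 1 [← Real.rpow_one X]
      congr 1
      push_cast; ring
    rw [mul_div_assoc, b1, Real.mul_rpow h0.le (by positivity), ← Real.rpow_mul hX0.le]
    refine mul_le_mul_of_nonneg_right ?_ (by positivity)
    calc t ^ θ ≤ t ^ (1 : ℝ) := Real.rpow_le_rpow_of_exponent_le h1 (by linarith)
      _ = t := Real.rpow_one t
  have a3 : 0 ≤ Real.log (t * X) := Real.log_nonneg (one_le_mul_of_one_le_of_one_le h1 hX)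
  have a4 : X ^ (1 / 2 : ℝ) * X ^ (4 * κ * θ) * X ^ (1 / 2 - 2 * κ) ≤ X / t ^ 4000 := by
    rw [← Real.rpow_add hX0, ← Real.rpow_add hX0, ht, ← Real.rpow_natCast,
      ← Real.rpow_mul hX0.le, le_div_iff₀ (by positivity), ← Real.rpow_add hX0]
    nth_rewrite 2 [← Real.rpow_one X]
    refine Real.rpow_le_rpow_of_exponent_le hX ?_
    push_cast
    linarith
  calc _ ≤ t * t * (t * X ^ (1 / 2 : ℝ)) * (t * X ^ (4 * κ * θ)) * X ^ (1 / 2 - 2 * κ) := by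
        gcongr
    _ = t ^ 4 * (X ^ (1 / 2 : ℝ) * X ^ (4 * κ * θ) * X ^ (1 / 2 - 2 * κ)) := by ring
    _ ≤ t ^ 4 * (X / t ^ 4000) := mul_le_mul_of_nonneg_left a4 (pow_pos h0 _).le
    _ = X / t ^ 3996 := by field_simp

theorem disp (κ : ℝ) (hκ : 0 < κ) : ∃ ε₀ : ℝ, 0 < ε₀ ∧ ∀ ε : ℝ, 0 < ε → ε ≤ ε₀ →
    ∀ (W : ℕ) (c₀ C₀ C' : ℝ) (Φ : ℝ → ℝ → ℝ → ℝ) {J : Type} [Fintype J] (j₀ : J) (α β : J → ℤ),
      0 < W → Wt3 c₀ C₀ Φ → α j₀ = 0 → (∀ j, β j ≠ 0) →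
    ∀ᶠ X : ℝ in atTop, ∀ {T : Type} (𝒯 : Finset T) (q : T → J → ℕ) (ι : T → J → ℤ)
      (ρ : T → ℝ) (a : GaussianInt → ℝ) (V : Set SL) (M : ℕ),
      Par j₀ β X (C' * X ^ ε) (X ^ (ε / 1000)) 𝒯 q ι → (∀ τ ∈ 𝒯, X ^ ε ≤ q τ j₀) →
      (#𝒯 : ℝ) ≤ X ^ (1 / 4 - κ) → (∀ τ ∈ 𝒯, |ρ τ| ≤ X ^ (ε / 1000)) →
      (∀ ν, (nrm ν : ℝ) ≤ X → |a ν| ≤ X ^ (ε / 1000)) → Lev W (fun h => ind (h ∈ V)) →
      0 < M → W ∣ M → (∀ τ ∈ 𝒯, ∀ j, q τ j ∣ M) →
      |∑ τ ∈ 𝒯, ρ τ * ∑' h : SL, a (act h 1 0) * phiT Φ X (q τ j₀) h *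
          (ind (h ∈ V ∧ h ∈ Cset (q τ) (ι τ) (fun j => α j * q τ j₀) β) -
            avT M (fun h => ind (h ∈ V ∧ h ∈ Cset (q τ) (ι τ) (fun j => α j * q τ j₀) β)) h)| ≤
        X ^ (1 - ε / 20) := by
  obtain ⟨θ, C, hθ0, hθ, hC1, hspec⟩ := spectral
  obtain ⟨Cb, hCb⟩ := count_box
  obtain ⟨κ', hκ0, hκ1, hκ2⟩ : ∃ κ' : ℝ, 0 < κ' ∧ κ' ≤ κ ∧ κ' ≤ 1 / 4 :=
    ⟨min κ (1 / 4), lt_min hκ (by norm_num), min_le_left _ _, min_le_right _ _⟩
  refine ⟨κ' * (1 / 2 - θ), mul_pos hκ0 (by linarith), ?_⟩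
  intro ε hε hε₀ W c₀ C₀ C' Φ J _ j₀ α β hW hΦ hα hβ
  have hε8 : ε ≤ 1 / 8 := by nlinarith
  have hδ : 0 < ε / 1000 := by positivity
  obtain ⟨C'', hC''1, hC''⟩ : ∃ C'' : ℝ, 1 ≤ C'' ∧ C' ≤ C'' :=
    ⟨max 1 C', le_max_left _ _, le_max_right _ _⟩
  obtain ⟨K, hK⟩ := disp_loc hΦ hC''1
  have htend := tendsto_rpow_atTop hδ
  filter_upwards [disp_count j₀ α β hα hβ (ε / 1000) hδ, eventually_ge_atTop (1 : ℝ),
    htend.eventually_ge_atTop 2, htend.eventually_ge_atTop W,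
    htend.eventually_ge_atTop (Nat.card (SL ⧸ CongruenceSubgroup.Gamma W) : ℝ),
    htend.eventually_ge_atTop C'', htend.eventually_ge_atTop K, htend.eventually_ge_atTop C,
    htend.eventually_ge_atTop Cb, (isLittleO_log_rpow_atTop hδ).bound (by norm_num : (0 : ℝ) < 1 / 2)]
    with X hDC hX1 ht hWt hQt hC''t hKt hCt hCbt hlog
  intro T 𝒯 q ι ρ a V M hpar hlow hcard hρ ha hV hM hWM hqM
  have hX0 : 0 < X := by linarith
  have hpow : ∀ n : ℕ, (X ^ (ε / 1000)) ^ n = X ^ (ε / 1000 * n) := fun n => by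
    rw [← Real.rpow_natCast, ← Real.rpow_mul hX0.le]
  have hN : X ^ ε = (X ^ (ε / 1000)) ^ 1000 := by
    rw [hpow]; congr 1; push_cast; ring
  have hgoal : X ^ (1 - ε / 20) = X / (X ^ (ε / 1000)) ^ 50 := by
    rw [hpow, Real.rpow_sub hX0, Real.rpow_one]; congr 2; push_cast; ring
  have hX : (X ^ (ε / 1000)) ^ 8000 ≤ X := by
    rw [hpow]
    nth_rewrite 2 [← Real.rpow_one X]
    refine Real.rpow_le_rpow_of_exponent_le hX1 ?_
    push_cast; linarith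
  rw [Real.norm_of_nonneg (Real.log_nonneg hX1), Real.norm_of_nonneg (by positivity)] at hlog
  rw [hN] at hpar hlow
  rw [hgoal]
  obtain ⟨t, htdef⟩ : ∃ t, t = X ^ (ε / 1000) := ⟨_, rfl⟩
  simp only [← htdef] at hDC ht hWt hQt hC''t hKt hCt hCbt hlog hpar hlow hρ ha hX ⊢
  have h0 : 0 < t := by linarith
  have h1 : 1 ≤ t := by linarith
  have hy : 0 < t ^ 1000 := pow_pos h0 _
  have hy1 : 1 ≤ t ^ 1000 := one_le_pow₀ h1
  have hyX : t ^ 1000 ≤ X := disp_pow_le ht hX (by norm_num)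
  have htX : t ≤ X := by simpa using disp_pow_le ht hX (k := 1) (by norm_num)
  have hXtX : X ≤ t * X := le_mul_of_one_le_left hX0.le h1
  have hlog' : Real.log (t * X) ≤ t := by
    rw [Real.log_mul h0.ne' hX0.ne']
    have := Real.log_le_log h0 htX
    linarith
  obtain ⟨G, hGdef⟩ : ∃ G, G = X ^ (1 / 2 - 2 * κ') := ⟨_, rfl⟩
  have hG1 : 1 ≤ G := hGdef ▸ Real.one_le_rpow hX1 (by linarith)
  have hG0 : 0 < G := by linarith
  have hG2 : G ^ 2 ≤ X := by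
    rw [hGdef, ← Real.rpow_natCast, ← Real.rpow_mul hX0.le]
    nth_rewrite 2 [← Real.rpow_one X]
    refine Real.rpow_le_rpow_of_exponent_le hX1 ?_
    push_cast; linarith
  have hG3 : (#𝒯 : ℝ) ^ 2 ≤ G := by
    refine (pow_le_pow_left₀ (Nat.cast_nonneg _) hcard 2).trans ?_
    rw [hGdef, ← Real.rpow_natCast, ← Real.rpow_mul hX0.le]
    refine Real.rpow_le_rpow_of_exponent_le hX1 ?_
    push_cast; linarith
  have hG4 : 1 ≤ G ^ 2 := one_le_pow₀ hG1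
  obtain ⟨ω, hω0, hω1, hω2, hsp⟩ := hspec (t * X) (by nlinarith)
  have hsp' := hsp (G ^ 2) (t ^ 1000) hG4 (hG2.trans hXtX) hy
  have hE := disp_E (C := C) hX1 htdef ht hCt hθ (κ := κ') (by linarith) hlog'
  rw [← hGdef] at hE
  have hE0 : 0 ≤ C * Real.log (t * X) * √(t * X) * (t * X / G ^ 2) ^ θ := by
    have : 0 ≤ Real.log (t * X) := Real.log_nonneg (hX1.trans hXtX)
    positivity
  obtain ⟨D, hD1, hD2⟩ := disp_box hCb ht hCbt hy1 hyX h1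
  obtain ⟨D', hD1', hD2'⟩ := disp_box (u := t ^ 3) hCb ht hCbt hy1 hyX (one_le_pow₀ h1)
  have hsupp : ∀ h, h ∉ D' → ω (Uy (t ^ 1000) h) = 0 := by
    intro h hh
    refine hω2 _ (lt_of_not_ge fun hle => hh ?_)
    have b1 : C * (t * X) ≤ t * (t * X) := mul_le_mul_of_nonneg_right hCt (by positivity)
    have b2 : 2 * (t * (t * X)) ≤ t * (t * (t * X)) := mul_le_mul_of_nonneg_right ht (by positivity)
    have b3 : 0 ≤ t ^ 1000 * qA h := mul_nonneg hy.le (disp_qA_nonneg h)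
    have b4 : 0 ≤ qC h / t ^ 1000 := div_nonneg (disp_qC_nonneg h) hy.le
    have b5 : t * (t * (t * X)) = t ^ 3 * X := by ring
    unfold Uy at hle
    rw [hD1']
    constructor
    · rw [le_div_iff₀ hy, mul_comm]
      linarith
    · have b6 : qC h / t ^ 1000 ≤ t ^ 3 * X := by linarith
      rw [div_le_iff₀ hy] at b6
      refine b6.trans (le_of_eq ?_)
      ring
  have hn1 : 1 ≤ C'' * t ^ 1000 := one_le_mul_of_one_le_of_one_le hC''1 hy1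
  have hn2 : C'' * t ^ 1000 ≤ t ^ 1001 := by
    rw [pow_succ' t 1000]
    exact mul_le_mul_of_nonneg_right hC''t hy.le
  have hpar' : Par j₀ β X (C'' * t ^ 1000) t 𝒯 q ι :=
    disp_par_mono hpar Subset.rfl (mul_le_mul_of_nonneg_right hC'' hy.le)
  have hY1 : 1 ≤ C * G ^ 2 := one_le_mul_of_one_le_of_one_le hC1 hG4
  have hY2 : C * G ^ 2 ≤ X ^ 2 := by
    rw [sq X]
    exact mul_le_mul (hCt.trans htX) hG2 (by positivity) hX0.le
  refine disp_main ρ a V D ht hX hW hWt hQt hC''t hpar' (fun 𝒯' hsub => ?_) hlow hρ ha hV hM hWM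
    hqM hG0.le hE0 hE (fun u => (hω0 u).1) ?_ ?_ hsp' hω1 (fun h hh => (hD1 h).1 hh) ?_ ?_ ?_
  · obtain ⟨c1, c2, c3, c4, c5⟩ := hDC 𝒯' q ι (C'' * t ^ 1000) t hn1
      (hn2.trans (disp_pow_le ht hX (by norm_num))) h1 (disp_par_mono hpar' hsub le_rfl)
    have hin : (#𝒯' : ℝ) ^ 2 + t ^ 2 * √(C * G ^ 2) ≤ t ^ 4 * G := by
      have d1 : (#𝒯' : ℝ) ^ 2 ≤ G := by
        refine le_trans ?_ hG3
        exact pow_le_pow_left₀ (Nat.cast_nonneg _) (by exact_mod_cast Finset.card_le_card hsub) 2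
      have d2 : √(C * G ^ 2) ≤ t * G := by
        rw [Real.sqrt_le_left (by positivity), mul_pow]
        refine mul_le_mul_of_nonneg_right ?_ (by positivity)
        nlinarith
      have d3 : t ^ 2 * √(C * G ^ 2) ≤ t ^ 2 * (t * G) := by gcongr
      have d4 : 1 * G ≤ t ^ 3 * G := mul_le_mul_of_nonneg_right (one_le_pow₀ h1) hG0.le
      have d5 : 2 * (t ^ 3 * G) ≤ t * (t ^ 3 * G) := mul_le_mul_of_nonneg_right ht (by positivity)
      calc _ ≤ t ^ 3 * G + t ^ 2 * (t * G) := by linarith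
        _ = 2 * (t ^ 3 * G) := by ring
        _ ≤ t * (t ^ 3 * G) := d5
        _ = t ^ 4 * G := by ring
    refine ⟨fun h b1 b2 => (c1 h b1 b2).trans (sq t).ge, c2.trans (sq t).ge,
      c3.trans (pow_succ t 2).ge, (c4 _ hY1 hY2).trans ?_,
      fun σ σ' b1 b2 => (c5 _ _ hy1 hyX hY1 hY2 σ σ' b1 b2).trans ?_⟩
    · calc _ ≤ t * (t ^ 4 * G) := mul_le_mul_of_nonneg_left hin h0.le
        _ = t ^ 5 * G := by ring
    · calc _ ≤ t * (t ^ 1001) ^ 2 * (t ^ 1000) ^ 2 * (t ^ 4 * G) := by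
            refine mul_le_mul (mul_le_mul_of_nonneg_right (mul_le_mul_of_nonneg_left
              (pow_le_pow_left₀ (by linarith) hn2 2) h0.le) (sq_nonneg _)) hin
              (add_nonneg (sq_nonneg _) (mul_nonneg (sq_nonneg _) (Real.sqrt_nonneg _)))
              (mul_nonneg (mul_nonneg h0.le (sq_nonneg _)) (sq_nonneg _))
        _ = t ^ 4007 * G := by ring
  · exact D'.finite_toSet.subset fun h hh => by
      by_contra hn
      exact hh (hsupp h hn)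
  · rw [tsum_eq_sum (s := D') hsupp]
    calc ∑ h ∈ D', ω (Uy (t ^ 1000) h) ≤ ∑ h ∈ D', t :=
          Finset.sum_le_sum fun h _ => (hω0 _).2.trans hCt
      _ = #D' * t := by rw [Finset.sum_const, nsmul_eq_mul]
      _ ≤ t ^ 2 * t ^ 3 * X * t := mul_le_mul_of_nonneg_right hD2' h0.le
      _ = t ^ 6 * X := by ring
  · exact hD2.trans (le_of_eq (by ring))
  · intro x y z
    rw [abs_of_nonneg (hΦ.nonneg x y z)]
    exact hΦ.le x y z
  · intro n n₀ b1 b2 b3 b4 s hs h hne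
    have b5 : t ^ 800 ≤ t ^ 1000 / 2 := by
      rw [le_div_iff₀ (by norm_num), show t ^ 1000 = t ^ 800 * t ^ 200 by ring]
      refine mul_le_mul_of_nonneg_left ?_ (pow_pos h0 _).le
      exact ht.trans (by simpa using pow_le_pow_right₀ h1 (by norm_num : 1 ≤ 200))
    obtain ⟨k1, k2, k3⟩ := hK X (t ^ 1000) (t ^ 800) n n₀ hX0 hy (pow_pos h0 _) b5 b1 b2 b3 b4 s hs
      h hne
    refine ⟨(hD1 h).2 ⟨k1.trans ?_, k2.trans ?_⟩, k3.trans ?_⟩
    · exact div_le_div_of_nonneg_right (mul_le_mul_of_nonneg_right hKt hX0.le) hy.le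
    · exact mul_le_mul_of_nonneg_right (mul_le_mul_of_nonneg_right hKt hy.le) hX0.le
    · calc K * (t ^ 800 / t ^ 1000) ≤ t * (t ^ 800 / t ^ 1000) :=
            mul_le_mul_of_nonneg_right hKt (div_nonneg (pow_pos h0 _).le hy.le)
        _ = t / t ^ 200 := by field_simp

end Pool.Agent.P.MP_a1177c_nt.EK
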