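import Pool.Agent.P.MP_a1177c_nt.EK.Cset
import Pool.Agent.P.MP_a1177c_nt.EK.Count

/-! Geometric lemmas for the dispersion estimate: localisation of the weight. -/

set_option autoImplicit false

namespace Pool.Agent.P.MP_a1177c_nt.EK

open Finset Filter
open scoped Classical

lemma disp_act_col (h : SL) (s : ℤ) : act (h * nT s) 1 0 = act h 1 0 := by
  rw [act_nT]; simp

lemma disp_e00 (h : SL) (s : ℤ) : (h * nT s) 0 0 = h 0 0 := by
  have := congrArg Zsqrtd.re (disp_act_col h s)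
  simpa only [act, mul_one, mul_zero, add_zero] using this

lemma disp_e10 (h : SL) (s : ℤ) : (h * nT s) 1 0 = h 1 0 := by
  have := congrArg Zsqrtd.im (disp_act_col h s)
  simpa only [act, mul_one, mul_zero, add_zero] using this

lemma disp_e01 (h : SL) (s : ℤ) : (h * nT s) 0 1 = h 0 0 * s + h 0 1 := by
  have := congrArg Zsqrtd.re (act_nT h s 0 1)
  simpa only [act, mul_one, mul_zero, zero_add] using this

lemma disp_e11 (h : SL) (s : ℤ) : (h * nT s) 1 1 = h 1 0 * s + h 1 1 := by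
  have := congrArg Zsqrtd.im (act_nT h s 0 1)
  simpa only [act, mul_one, mul_zero, zero_add] using this

lemma disp_qA (h : SL) (s : ℤ) : qA (h * nT s) = qA h := by
  simp only [qA, disp_e00, disp_e10]

lemma disp_qB (h : SL) (s : ℤ) : qB (h * nT s) = qB h + s * qA h := by
  simp only [qA, qB, disp_e00, disp_e10, disp_e01, disp_e11]
  push_cast; ring

lemma disp_qC (h : SL) (s : ℤ) : qC (h * nT s) = qC h + 2 * s * qB h + (s : ℝ) ^ 2 * qA h := by
  simp only [qA, qB, qC, disp_e01, disp_e11]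
  push_cast; ring

lemma disp_qA_nonneg (h : SL) : 0 ≤ qA h := by unfold qA; positivity

lemma disp_qC_nonneg (h : SL) : 0 ≤ qC h := by unfold qC; positivity

lemma disp_det (h : SL) : qA h * qC h = qB h ^ 2 + 1 := by
  have h1 : h 0 0 * h 1 1 - h 0 1 * h 1 0 = 1 := by
    have := h.det_coe
    rwa [Matrix.det_fin_two] at this
  have h2 : (h 0 0 : ℝ) * h 1 1 - h 0 1 * h 1 0 = 1 := by exact_mod_cast h1
  unfold qA qB qC
  linear_combination ((h 0 0 : ℝ) * h 1 1 - h 0 1 * h 1 0 + 1) * h2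

lemma disp_qC_le (h : SL) (s : ℤ) : qC (h * nT s) ≤ 2 * (qC h + (s : ℝ) ^ 2 * qA h) := by
  simp only [qA, qC, disp_e01, disp_e11]
  push_cast
  nlinarith [sq_nonneg ((h 0 0 : ℝ) * s - h 0 1), sq_nonneg ((h 1 0 : ℝ) * s - h 1 1)]

lemma disp_one_le_Uy {y : ℝ} (hy : 0 < y) (h : SL) : 1 ≤ Uy y h := by
  have hA := disp_qA_nonneg h
  have hC := disp_qC_nonneg h
  have hd := disp_det h
  unfold Uy
  have h1 : y * qA h * (qC h / y) = qB h ^ 2 + 1 := by
    rw [← hd]; field_simp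
  have h2 : 0 ≤ y * qA h := by positivity
  have h3 : 0 ≤ qC h / y := by positivity
  by_contra hlt
  push Not at hlt
  nlinarith [sq_nonneg (y * qA h - qC h / y), sq_nonneg (qB h)]

lemma disp_nrm (h : SL) : (nrm (act h 1 0) : ℝ) = qA h := by
  have h1 : ((nrm (act h 1 0) : ℕ) : ℤ) = h 0 0 ^ 2 + h 1 0 ^ 2 := by
    unfold nrm
    rw [Int.natCast_natAbs, abs_of_nonneg (GaussianInt.norm_nonneg _), Zsqrtd.norm_def]
    simp only [act]; ring
  have h2 : (((nrm (act h 1 0) : ℕ) : ℤ) : ℝ) = ((h 0 0 ^ 2 + h 1 0 ^ 2 : ℤ) : ℝ) := by rw [h1]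
  unfold qA
  exact_mod_cast h2

lemma disp_C0_pos {c₀ C₀ : ℝ} {Φ : ℝ → ℝ → ℝ → ℝ} (hΦ : Wt3 c₀ C₀ Φ) : 0 < C₀ := by
  obtain ⟨x, y, hxy⟩ := hΦ.cone
  obtain ⟨h1, h2, -⟩ := hΦ.supp _ _ _ hxy.ne'
  linarith [hΦ.pos]

/-- The localisation step in normalised variables. -/
lemma disp_loc_real {c₀ C₀ C' : ℝ} {Φ : ℝ → ℝ → ℝ → ℝ} (hΦ : Wt3 c₀ C₀ Φ) (hC' : 1 ≤ C') :
    ∃ K : ℝ, ∀ x y z ν ν₀ σ η : ℝ, 0 ≤ x → 0 ≤ z → 0 < η → η ≤ 1 / 2 → 1 ≤ ν → ν ≤ C' →
      ν - η ≤ ν₀ → ν₀ ≤ ν → 0 ≤ σ → σ ≤ η →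
      (Φ (ν * x) (y + σ * x) ((z + 2 * σ * y + σ ^ 2 * x) / ν) ≠ 0 ∨ Φ (ν₀ * x) y (z / ν₀) ≠ 0) →
      x ≤ K ∧ z ≤ K ∧
        |Φ (ν * x) (y + σ * x) ((z + 2 * σ * y + σ ^ 2 * x) / ν) - Φ (ν₀ * x) y (z / ν₀)| ≤ K * η := by
  have hC := disp_C0_pos hΦ
  set Z : ℝ := C₀ * (C' + 5) with hZ
  have hZ0 : 0 < Z := by positivity
  refine ⟨C₀ * (10 * C₀ + 2 * Z) + 2 * C₀ + Z, ?_⟩
  intro x y z ν ν₀ σ η hx hz hη hη2 hν hνC hν₀ hν₀' hσ hση hne
  have hν₀h : 1 / 2 ≤ ν₀ := by linarith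
  have hνpos : 0 < ν := by linarith
  have hν₀pos : 0 < ν₀ := by linarith
  have key : x ≤ 2 * C₀ ∧ |y| ≤ 2 * C₀ ∧ z ≤ Z := by
    rcases hne with hne | hne
    · obtain ⟨-, h2, h3, h4⟩ := hΦ.supp _ _ _ hne
      have hx1 : x ≤ C₀ := by nlinarith
      have hσx : σ * x ≤ C₀ := by nlinarith
      have hσx0 : 0 ≤ σ * x := by positivity
      have hy : |y| ≤ 2 * C₀ := by
        rw [abs_le] at h3 ⊢
        constructor <;> linarith [h3.1, h3.2]
      refine ⟨by linarith, hy, ?_⟩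
      have h5 : (z + 2 * σ * y + σ ^ 2 * x) / ν ≤ C₀ := (le_abs_self _).trans h4
      rw [div_le_iff₀ hνpos] at h5
      have h6 : -(2 * C₀) ≤ y := (abs_le.1 hy).1
      have h7 : 0 ≤ σ ^ 2 * x := by positivity
      have h8 : -(2 * C₀) ≤ 2 * σ * y := by nlinarith
      have h9 : C₀ * ν ≤ C₀ * C' := by gcongr
      rw [hZ]; nlinarith
    · obtain ⟨-, h2, h3, h4⟩ := hΦ.supp _ _ _ hne
      refine ⟨by nlinarith, by linarith, ?_⟩
      have h5 : z / ν₀ ≤ C₀ := (le_abs_self _).trans h4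
      rw [div_le_iff₀ hν₀pos] at h5
      have h9 : C₀ * ν₀ ≤ C₀ * C' := by gcongr; linarith
      rw [hZ]; nlinarith
  obtain ⟨hx2, hy2, hz2⟩ := key
  have hpos : 0 ≤ C₀ * (10 * C₀ + 2 * Z) := by positivity
  refine ⟨by linarith, by linarith, ?_⟩
  refine (hΦ.lip _ _ _ _ _ _).trans ?_
  have e1 : |ν * x - ν₀ * x| ≤ 2 * C₀ * η := by
    rw [abs_of_nonneg (by nlinarith)]
    nlinarith
  have e2 : |y + σ * x - y| ≤ 2 * C₀ * η := by
    rw [add_sub_cancel_left, abs_of_nonneg (by positivity)]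
    nlinarith
  have e3 : |(z + 2 * σ * y + σ ^ 2 * x) / ν - z / ν₀| ≤ (6 * C₀ + 2 * Z) * η := by
    have hsplit : (z + 2 * σ * y + σ ^ 2 * x) / ν - z / ν₀ =
        (2 * σ * y + σ ^ 2 * x) / ν - z * (ν - ν₀) / (ν * ν₀) := by
      field_simp; ring
    rw [hsplit]
    have a1 : |(2 * σ * y + σ ^ 2 * x) / ν| ≤ 6 * C₀ * η := by
      rw [abs_div, abs_of_pos hνpos, div_le_iff₀ hνpos]
      have b1 : |2 * σ * y| ≤ 4 * C₀ * η := by
        rw [abs_mul, abs_of_nonneg (by positivity : 0 ≤ 2 * σ)]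
        nlinarith [abs_nonneg y]
      have b2 : |σ ^ 2 * x| ≤ 2 * C₀ * η := by
        rw [abs_of_nonneg (by positivity)]
        have : σ ^ 2 ≤ η := by nlinarith
        nlinarith
      have b3 := abs_add_le (2 * σ * y) (σ ^ 2 * x)
      have b4 : 6 * C₀ * η ≤ 6 * C₀ * η * ν := by
        have : 0 ≤ 6 * C₀ * η := by positivity
        nlinarith
      linarith
    have a2 : |z * (ν - ν₀) / (ν * ν₀)| ≤ 2 * Z * η := by
      have hd : 1 / 2 ≤ ν * ν₀ := by nlinarith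
      have hn0 : 0 ≤ z * (ν - ν₀) := by nlinarith
      rw [abs_of_nonneg (by positivity), div_le_iff₀ (by positivity)]
      have hn : z * (ν - ν₀) ≤ Z * η := by
        have : ν - ν₀ ≤ η := by linarith
        have h0 : 0 ≤ ν - ν₀ := by linarith
        calc z * (ν - ν₀) ≤ Z * (ν - ν₀) := by gcongr
          _ ≤ Z * η := by gcongr
      have : 0 ≤ Z * η := by positivity
      nlinarith
    have a3 := abs_sub ((2 * σ * y + σ ^ 2 * x) / ν) (z * (ν - ν₀) / (ν * ν₀))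
    linarith
  have hsum : |ν * x - ν₀ * x| + |y + σ * x - y| +
      |(z + 2 * σ * y + σ ^ 2 * x) / ν - z / ν₀| ≤ (10 * C₀ + 2 * Z) * η := by linarith
  calc C₀ * _ ≤ C₀ * ((10 * C₀ + 2 * Z) * η) := by gcongr
    _ ≤ _ := by
      have : 0 ≤ (2 * C₀ + Z) * η := by positivity
      nlinarith

/-- The localisation step. -/
lemma disp_loc {c₀ C₀ C' : ℝ} {Φ : ℝ → ℝ → ℝ → ℝ} (hΦ : Wt3 c₀ C₀ Φ) (hC' : 1 ≤ C') :
    ∃ K : ℝ, ∀ X N l n n₀ : ℝ, 0 < X → 0 < N → 0 < l → l ≤ N / 2 → N ≤ n → n ≤ C' * N →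
      n - l ≤ n₀ → n₀ ≤ n → ∀ s : ℕ, (s : ℝ) ≤ l → ∀ h : SL,
      (phiT Φ X n (h * nT s) ≠ 0 ∨ phiT Φ X n₀ h ≠ 0) →
      qA h ≤ K * X / N ∧ qC h ≤ K * N * X ∧
        |phiT Φ X n (h * nT s) - phiT Φ X n₀ h| ≤ K * (l / N) := by
  obtain ⟨K, hK⟩ := disp_loc_real hΦ hC'
  refine ⟨K, ?_⟩
  intro X N l n n₀ hX hN hl hl2 hn hnC hn₀ hn₀' s hs h hne
  have hnpos : 0 < n := by linarith
  have hn₀pos : 0 < n₀ := by linarith
  have e1 : phiT Φ X n (h * nT s) = Φ (n / N * (N * qA h / X))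
      (qB h / X + (s : ℝ) / N * (N * qA h / X))
      ((qC h / (N * X) + 2 * ((s : ℝ) / N) * (qB h / X) + ((s : ℝ) / N) ^ 2 * (N * qA h / X)) /
        (n / N)) := by
    unfold phiT
    rw [disp_qA, disp_qB, disp_qC]
    congr 1
    · field_simp
    · push_cast; field_simp
    · push_cast; field_simp
  have e2 : phiT Φ X n₀ h = Φ (n₀ / N * (N * qA h / X)) (qB h / X)
      (qC h / (N * X) / (n₀ / N)) := by
    unfold phiT
    congr 1
    · field_simp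
    · field_simp
  have hA := disp_qA_nonneg h
  have hCc := disp_qC_nonneg h
  rw [e1, e2] at hne ⊢
  obtain ⟨k1, k2, k3⟩ := hK (N * qA h / X) (qB h / X) (qC h / (N * X)) (n / N) (n₀ / N)
    ((s : ℝ) / N) (l / N) (by positivity) (by positivity) (by positivity)
    (by rw [div_le_iff₀ hN]; linarith) (by rw [le_div_iff₀ hN]; linarith)
    (by rw [div_le_iff₀ hN]; linarith) (by rw [← sub_div]; gcongr) (by gcongr)
    (by positivity) (by gcongr) hne
  refine ⟨?_, ?_, k3⟩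
  · rw [div_le_iff₀ hX] at k1
    rw [le_div_iff₀ hN]; linarith
  · rw [div_le_iff₀ (by positivity)] at k2
    linarith

lemma disp_pw {t : ℝ} (ht : 1 ≤ t) {a b c d : ℕ} (h : a + d ≤ c + b) :
    t ^ a / t ^ b ≤ t ^ c / t ^ d := by
  have h0 : 0 < t := by linarith
  rw [div_le_div_iff₀ (by positivity) (by positivity), ← pow_add, ← pow_add]
  exact pow_le_pow_right₀ ht h

lemma disp_ind_nonneg (p : Prop) : 0 ≤ ind p := by unfold ind; split_ifs <;> norm_num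

lemma disp_ind_le (p : Prop) : ind p ≤ 1 := by unfold ind; split_ifs <;> norm_num

lemma disp_ind_mono {p q : Prop} (h : p → q) : ind p ≤ ind q := by
  unfold ind; split_ifs <;> simp_all

lemma disp_ind_and (p q : Prop) : ind (p ∧ q) = ind p * ind q := by
  unfold ind; by_cases hp : p <;> by_cases hq : q <;> simp [hp, hq]

lemma disp_ind_congr {p q : Prop} (h : p ↔ q) : ind p = ind q := by rw [propext h]

lemma disp_lev_and {M : ℕ} {U V : Set SL} (hU : Lev M fun h => ind (h ∈ U))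
    (hV : Lev M fun h => ind (h ∈ V)) : Lev M fun h => ind (h ∈ U ∧ h ∈ V) := by
  intro h γ hγ
  have h1 := hU h γ hγ
  have h2 := hV h γ hγ
  simp only at h1 h2 ⊢
  rw [disp_ind_and, disp_ind_and, h1, h2]

lemma disp_cos_inter {U V : Set SL} (hU : Cos U) (hV : Cos V) : Cos (U ∩ V) :=
  fun a ha b hb c hc => ⟨hU a ha.1 b hb.1 c hc.1, hV a ha.2 b hb.2 c hc.2⟩

lemma disp_avT_nonneg (M : ℕ) {F : SL → ℝ} (hF : ∀ h, 0 ≤ F h) (h : SL) : 0 ≤ avT M F h := by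
  unfold avT
  exact div_nonneg (Finset.sum_nonneg fun _ _ => hF _) (Nat.cast_nonneg _)

lemma disp_avT_mono (M : ℕ) {F G : SL → ℝ} (hF : ∀ h, F h ≤ G h) (h : SL) :
    avT M F h ≤ avT M G h := by
  unfold avT
  gcongr with t _
  exact hF _

/-- The class of `c` modulo `W`. -/
def dispCls (W : ℕ) (c : SL ⧸ CongruenceSubgroup.Gamma W) : Set SL :=
  {h | (QuotientGroup.mk h : SL ⧸ CongruenceSubgroup.Gamma W) = c}

lemma disp_cls_cos (W : ℕ) (c : SL ⧸ CongruenceSubgroup.Gamma W) : Cos (dispCls W c) := by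
  intro a ha b hb d hd
  simp only [dispCls, Set.mem_ofPred_eq] at ha hb hd ⊢
  have h1 : b⁻¹ * d ∈ CongruenceSubgroup.Gamma W := QuotientGroup.eq.1 (hb.trans hd.symm)
  rw [← ha, mul_assoc]
  exact QuotientGroup.mk_mul_of_mem a h1

lemma disp_cls_lev (W : ℕ) (c : SL ⧸ CongruenceSubgroup.Gamma W) :
    Lev W fun h => ind (h ∈ dispCls W c) := by
  intro h γ hγ
  apply disp_ind_congr
  simp only [dispCls, Set.mem_ofPred_eq]
  rw [QuotientGroup.mk_mul_of_mem h hγ]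

lemma disp_cls_sum {W : ℕ} [Fintype (SL ⧸ CongruenceSubgroup.Gamma W)] {V : Set SL}
    (hV : Lev W fun h => ind (h ∈ V)) (P : SL → Prop) (h : SL) :
    ind (h ∈ V ∧ P h) = ∑ c ∈ univ.filter (fun c : SL ⧸ CongruenceSubgroup.Gamma W => c.out ∈ V),
      ind (h ∈ dispCls W c ∧ P h) := by
  have hout : h ∈ V ↔ (QuotientGroup.mk h : SL ⧸ CongruenceSubgroup.Gamma W).out ∈ V := by
    obtain ⟨γ, hγ⟩ := QuotientGroup.mk_out_eq_mul (CongruenceSubgroup.Gamma W) h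
    have h1 := hV h γ γ.2
    simp only at h1
    rw [hγ]
    unfold ind at h1
    by_cases a : h ∈ V <;> by_cases b : h * γ ∈ V <;> simp_all
  by_cases hv : h ∈ V
  · rw [Finset.sum_eq_single (QuotientGroup.mk h : SL ⧸ CongruenceSubgroup.Gamma W)]
    · apply disp_ind_congr
      simp [dispCls, hv]
    · intro c _ hc
      unfold ind
      rw [if_neg]
      rintro ⟨h1, -⟩
      exact hc (Eq.symm h1)
    · intro hc
      exact absurd (by simpa using hout.1 hv) hc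
  · rw [Finset.sum_eq_zero]
    · unfold ind; rw [if_neg]; tauto
    · intro c hc
      unfold ind
      rw [if_neg]
      rintro ⟨h1, -⟩
      apply hv
      rw [hout]
      have h2 : (QuotientGroup.mk h : SL ⧸ CongruenceSubgroup.Gamma W) = c := h1
      rw [h2]
      simpa using hc

/-- From cosets modulo `W` to an arbitrary set of level `W`. -/
lemma disp_classes {T : Type} (𝒯 : Finset T) (C : T → Set SL) (ρ : T → ℝ) (b : SL → ℝ)
    (D : Finset SL) {W : ℕ} (hW : 0 < W) (M L : ℕ) {V : Set SL}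
    (hV : Lev W fun h => ind (h ∈ V)) {B : ℝ} (hB0 : 0 ≤ B)
    (hB : ∀ U : Set SL, Cos U → (Lev W fun h => ind (h ∈ U)) →
      |∑ h ∈ D, b h * ∑ τ ∈ 𝒯, ρ τ * ((∑ s ∈ range L, ind (h * nT s ∈ U ∩ C τ)) / L -
        avT M (fun h => ind (h ∈ U ∩ C τ)) h)| ≤ B) :
    |∑ h ∈ D, b h * ∑ τ ∈ 𝒯, ρ τ * ((∑ s ∈ range L, ind (h * nT s ∈ V ∧ h * nT s ∈ C τ)) / L -
        avT M (fun h => ind (h ∈ V ∧ h ∈ C τ)) h)| ≤
      Nat.card (SL ⧸ CongruenceSubgroup.Gamma W) * B := by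
  have : NeZero W := ⟨hW.ne'⟩
  have : Fintype (SL ⧸ CongruenceSubgroup.Gamma W) := Fintype.ofFinite _
  set Q := univ.filter (fun c : SL ⧸ CongruenceSubgroup.Gamma W => c.out ∈ V) with hQ
  have e : ∑ h ∈ D, b h * ∑ τ ∈ 𝒯, ρ τ *
      ((∑ s ∈ range L, ind (h * nT s ∈ V ∧ h * nT s ∈ C τ)) / L -
        avT M (fun h => ind (h ∈ V ∧ h ∈ C τ)) h) =
      ∑ c ∈ Q, ∑ h ∈ D, b h * ∑ τ ∈ 𝒯, ρ τ *
        ((∑ s ∈ range L, ind (h * nT s ∈ dispCls W c ∩ C τ)) / L -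
          avT M (fun h => ind (h ∈ dispCls W c ∩ C τ)) h) := by
    rw [Finset.sum_comm]
    refine Finset.sum_congr rfl fun h _ => ?_
    rw [← Finset.mul_sum, Finset.sum_comm]
    congr 1
    refine Finset.sum_congr rfl fun τ _ => ?_
    rw [← Finset.mul_sum]
    congr 1
    rw [Finset.sum_sub_distrib, ← Finset.sum_div, Finset.sum_comm]
    congr 1
    · congr 1
      exact Finset.sum_congr rfl fun s _ => disp_cls_sum hV (fun h => h ∈ C τ) _
    · unfold avT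
      rw [← Finset.sum_div, Finset.sum_comm]
      congr 1
      exact Finset.sum_congr rfl fun s _ => disp_cls_sum hV (fun h => h ∈ C τ) _
  rw [e]
  refine (Finset.abs_sum_le_sum_abs _ _).trans ?_
  refine (Finset.sum_le_sum fun c _ => hB _ (disp_cls_cos W c) (disp_cls_lev W c)).trans ?_
  rw [Finset.sum_const, nsmul_eq_mul, Nat.card_eq_fintype_card]
  gcongr
  exact Finset.card_le_univ _

end Pool.Agent.P.MP_a1177c_nt.EK
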