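import Pool.Agent.P.MP_a1177c_nt.EK.DispAux1
import Pool.Agent.P.MP_a1177c_nt.EK.DispCore

/-! One piece of the dispersion estimate. -/

set_option autoImplicit false

namespace Pool.Agent.P.MP_a1177c_nt.EK

open Finset Filter
open scoped Classical

/-- The counting bounds used in the dispersion estimate, in terms of the small parameter `t`. -/
structure DispCnt {J T : Type} [Fintype J] (j₀ : J) (α β : J → ℤ) (X t G Y : ℝ) (𝒯 : Finset T)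
    (q : T → J → ℕ) (ι : T → J → ℤ) : Prop where
  a : ∀ h : SL, qA h ≤ X ^ 2 → qC h ≤ X ^ 2 →
    (#{τ ∈ 𝒯 | h ∈ Cset (q τ) (ι τ) (fun j => α j * q τ j₀) β} : ℝ) ≤ t ^ 2
  b1 : ∑ τ ∈ 𝒯, (1 / (univ.lcm (q τ) : ℕ) : ℝ) ≤ t ^ 2
  b2 : ∑ τ ∈ 𝒯, ∑ τ' ∈ 𝒯, (((univ.lcm (q τ)).gcd (univ.lcm (q τ')) : ℕ) : ℝ) *
    (1 / (univ.lcm (q τ) : ℕ)) * (1 / (univ.lcm (q τ') : ℕ)) ≤ t ^ 3
  na : ∑ τ ∈ 𝒯, ∑ τ' ∈ 𝒯, ∑' γ : SL,
    ind ((∀ j, (q τ j : ℤ) ∣ xiN γ) ∧ ∀ j, (q τ' j : ℤ) ∣ xiN γ) * wt 1 Y γ ≤ t ^ 5 * G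
  nb : ∀ σ σ' : ℕ, (σ : ℝ) ≤ X ^ 2 → (σ' : ℝ) ≤ X ^ 2 → ∑ τ ∈ 𝒯, ∑ τ' ∈ 𝒯, ∑' γ : SL,
    ind ((∀ j, (q τ j : ℤ) ∣ Qg γ (α j * q τ j₀ + σ * β j) (β j)) ∧
      ∀ j, (q τ' j : ℤ) ∣ Qg γ (α j * q τ' j₀ + σ' * β j) (β j)) * wt (t ^ 1000) Y γ ≤
    t ^ 4007 * G

lemma disp_pow_le {t X : ℝ} (ht : 2 ≤ t) (hX : t ^ 8000 ≤ X) {k : ℕ} (hk : k ≤ 8000) :
    t ^ k ≤ X :=
  (pow_le_pow_right₀ (by linarith) hk).trans hX

lemma disp_two_pow {t : ℝ} (ht : 2 ≤ t) (k : ℕ) : (2 : ℝ) ^ k ≤ t ^ k :=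
  pow_le_pow_left₀ (by norm_num) ht k

lemma disp_floor {t : ℝ} (ht : 2 ≤ t) :
    0 < ⌊t ^ 800⌋₊ ∧ (⌊t ^ 800⌋₊ : ℝ) ≤ t ^ 800 ∧ 4 / (⌊t ^ 800⌋₊ : ℝ) ≤ 1 / t ^ 797 := by
  have h1 : (1 : ℝ) ≤ t ^ 800 := one_le_pow₀ (by linarith)
  have h2 : 0 < ⌊t ^ 800⌋₊ := Nat.floor_pos.2 h1
  have h3 : (1 : ℝ) ≤ (⌊t ^ 800⌋₊ : ℝ) := by exact_mod_cast h2
  have h4 := Nat.lt_floor_add_one (t ^ 800)
  refine ⟨h2, Nat.floor_le (by positivity), ?_⟩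
  have h0 : 0 < t := by linarith
  rw [div_le_div_iff₀ (by positivity) (by positivity)]
  have h5 : (2 : ℝ) ^ 3 ≤ t ^ 3 := disp_two_pow ht 3
  have h6 : t ^ 800 = t ^ 3 * t ^ 797 := by ring
  have h7 : 0 < t ^ 797 := by positivity
  nlinarith

lemma disp_num {t X G E Sb Ω Sg Li : ℝ} (ht : 2 ≤ t) (hX : 0 ≤ X) (hG : 0 ≤ G) (hE0 : 0 ≤ E)
    (hE : E * G ≤ X / t ^ 3996) (hSb : Sb ≤ t ^ 5 * X) (hΩ0 : 0 ≤ Ω) (hΩ : Ω ≤ t ^ 6 * X)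
    (hSg0 : 0 ≤ Sg) (hSg : Sg ≤ t ^ 4) (hLi0 : 0 ≤ Li) (hLi : Li ≤ 1 / t ^ 797) :
    Sb * t ^ 2 * (Ω * Li * Sg + 16 * E * √(t ^ 5 * G) * √(t ^ 4007 * G)) ≤ (X / t ^ 389) ^ 2 := by
  have h0 : 0 < t := by linarith
  have h1 : 1 ≤ t := by linarith
  have e1 : √(t ^ 5 * G) * √(t ^ 4007 * G) = t ^ 2006 * G := by
    rw [← Real.sqrt_mul (by positivity), Real.sqrt_eq_iff_mul_self_eq (by positivity) (by positivity)]
    ring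
  have e2 : 16 * E * √(t ^ 5 * G) * √(t ^ 4007 * G) ≤ X * (t ^ 0 / t ^ 787) := by
    rw [mul_assoc (16 * E), e1]
    have a1 : (16 : ℝ) ≤ t ^ 4 := by have := disp_two_pow ht 4; norm_num at this; exact this
    calc 16 * E * (t ^ 2006 * G) = 16 * t ^ 2006 * (E * G) := by ring
      _ ≤ t ^ 4 * t ^ 2006 * (X / t ^ 3996) := by gcongr
      _ = X * (t ^ 2010 / t ^ 3996) := by ring
      _ ≤ X * (t ^ 0 / t ^ 787) := mul_le_mul_of_nonneg_left (disp_pw h1 (by norm_num)) (by positivity)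
  have e3 : Ω * Li * Sg ≤ X * (t ^ 0 / t ^ 787) := by
    calc Ω * Li * Sg ≤ t ^ 6 * X * (1 / t ^ 797) * t ^ 4 := by gcongr
      _ = X * (t ^ 10 / t ^ 797) := by ring
      _ ≤ X * (t ^ 0 / t ^ 787) := mul_le_mul_of_nonneg_left (disp_pw h1 (by norm_num)) (by positivity)
  have e4 : Ω * Li * Sg + 16 * E * √(t ^ 5 * G) * √(t ^ 4007 * G) ≤ X * (t ^ 1 / t ^ 787) := by
    have : X * (t ^ 0 / t ^ 787) + X * (t ^ 0 / t ^ 787) ≤ X * (t ^ 1 / t ^ 787) := by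
      rw [← mul_add, ← add_div]
      gcongr
      simp only [pow_zero, pow_one]; linarith
    linarith
  have e5 : 0 ≤ Ω * Li * Sg + 16 * E * √(t ^ 5 * G) * √(t ^ 4007 * G) :=
    add_nonneg (mul_nonneg (mul_nonneg hΩ0 hLi0) hSg0)
      (mul_nonneg (mul_nonneg (mul_nonneg (by norm_num) hE0) (Real.sqrt_nonneg _))
        (Real.sqrt_nonneg _))
  calc Sb * t ^ 2 * (Ω * Li * Sg + 16 * E * √(t ^ 5 * G) * √(t ^ 4007 * G))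
      ≤ t ^ 5 * X * t ^ 2 * (X * (t ^ 1 / t ^ 787)) := by
        refine mul_le_mul (by gcongr) e4 e5 (by positivity)
    _ = X ^ 2 * (t ^ 8 / t ^ 787) := by ring
    _ ≤ X ^ 2 * (t ^ 0 / t ^ 778) := mul_le_mul_of_nonneg_left (disp_pw h1 (by norm_num)) (by positivity)
    _ = (X / t ^ 389) ^ 2 := by ring

lemma disp_piece {J T : Type} [Fintype J] {j₀ : J} {α β : J → ℤ} {X t G Y E n₁ mu : ℝ}
    {𝒯 : Finset T} {q : T → J → ℕ} {ι : T → J → ℤ} (ρ : T → ℝ) {W M : ℕ} {ω : ℝ → ℝ}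
    (b : SL → ℝ) (D : Finset SL) (ht : 2 ≤ t) (hX : t ^ 8000 ≤ X) (hW : 0 < W) (hWt : (W : ℝ) ≤ t)
    (hpar : Par j₀ β X n₁ mu 𝒯 q ι) (hcnt : DispCnt j₀ α β X t G Y 𝒯 q ι)
    (hρ : ∀ τ ∈ 𝒯, |ρ τ| ≤ t) (hM : 0 < M) (hWM : W ∣ M) (hqM : ∀ τ ∈ 𝒯, ∀ j, q τ j ∣ M)
    (hG : 0 ≤ G) (hE0 : 0 ≤ E) (hE : E * G ≤ X / t ^ 3996) (hω0 : ∀ u, 0 ≤ ω u)
    (hfin : (Function.support fun h => ω (Uy (t ^ 1000) h)).Finite)
    (hΩ : ∑' h, ω (Uy (t ^ 1000) h) ≤ t ^ 6 * X) (hspec : Spec ω E (t ^ 1000) Y)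
    (hb1 : ∀ h, b h ≠ 0 → 1 ≤ ω (Uy (t ^ 1000) h)) (hbD : ∀ h, b h ≠ 0 → h ∈ D)
    (hb2 : ∀ h ∈ D, |b h| ≤ t) (hD : (#D : ℝ) ≤ t ^ 3 * X)
    (U : Set SL) (hU : Cos U) (hUl : Lev W fun h => ind (h ∈ U)) :
    |∑ h ∈ D, b h * ∑ τ ∈ 𝒯, ρ τ *
      ((∑ s ∈ range ⌊t ^ 800⌋₊,
          ind (h * nT s ∈ U ∩ Cset (q τ) (ι τ) (fun j => α j * q τ j₀) β)) / (⌊t ^ 800⌋₊ : ℕ) -
        avT M (fun h => ind (h ∈ U ∩ Cset (q τ) (ι τ) (fun j => α j * q τ j₀) β)) h)| ≤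
      X / t ^ 389 := by
  have h0 : 0 < t := by linarith
  have hy : 0 < t ^ 1000 := by positivity
  obtain ⟨hL0, hL1, hL2⟩ := disp_floor ht
  have hX1 : 1 ≤ X := by simpa using disp_pow_le ht hX (k := 0) (by norm_num)
  have hX0 : 0 < X := by linarith
  have hW1 : (1 : ℝ) ≤ W := by exact_mod_cast hW
  set S₀ : ℕ := ⌈(W : ℝ) * X⌉₊ with hS₀
  have hS1 : (W : ℝ) * X ≤ S₀ := Nat.le_ceil _
  have hS2 : (S₀ : ℝ) < W * X + 1 := Nat.ceil_lt_add_one (by positivity)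
  have hLS : ⌊t ^ 800⌋₊ ≤ S₀ := by
    have : (⌊t ^ 800⌋₊ : ℝ) ≤ S₀ := by
      have := disp_pow_le ht hX (k := 800) (by norm_num)
      nlinarith
    exact_mod_cast this
  have hσ : ∀ σ : ℕ, σ < 2 * S₀ → (σ : ℝ) ≤ X ^ 2 := by
    intro σ hσ
    have a1 : (σ : ℝ) ≤ 2 * S₀ := by exact_mod_cast hσ.le
    have a2 := disp_pow_le ht hX (k := 3) (by norm_num)
    have a3 : 4 * t ≤ t ^ 3 := by
      have := disp_two_pow ht 2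
      nlinarith
    have a4 : (W : ℝ) * X ≤ t * X := by gcongr
    have a5 : 1 ≤ t * X := by nlinarith
    nlinarith
  have hlcm : ∀ τ ∈ 𝒯, 0 < univ.lcm (q τ) ∧ ((univ.lcm (q τ) : ℕ) : ℝ) ≤ X := by
    intro τ hτ
    have a1 : univ.lcm (q τ) ∣ ∏ j, q τ j :=
      Finset.lcm_dvd fun j hj => Finset.dvd_prod_of_mem _ hj
    have a2 : 0 < ∏ j, q τ j := Finset.prod_pos fun j _ => hpar.pos τ hτ j
    refine ⟨Nat.pos_of_dvd_of_pos a1 a2, ?_⟩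
    refine le_trans ?_ (hpar.prod τ hτ)
    exact_mod_cast Nat.le_of_dvd a2 a1
  have key := disp_core 𝒯 (fun τ => U ∩ Cset (q τ) (ι τ) (fun j => α j * q τ j₀) β)
    (fun τ => W.lcm (univ.lcm (q τ))) (fun τ => 1 / (univ.lcm (q τ) : ℕ)) ρ
    (fun τ γ => ∀ j, (q τ j : ℤ) ∣ xiN γ)
    (fun τ σ γ => ∀ j, (q τ j : ℤ) ∣ Qg γ (α j * q τ j₀ + σ * β j) (β j))
    hM hL0 hLS (r := t) (Na := t ^ 5 * G) (Nb := t ^ 4007 * G) hy hE0 hω0 hfin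
    (wt_finite one_pos Y) (wt_finite hy Y) hspec b hb1
    (fun τ hτ => disp_cos_inter hU (cset_cos (hpar.root τ hτ) (hpar.cop τ hτ)))
    (fun τ hτ => disp_lev_and (hUl.mono (Nat.dvd_lcm_left _ _))
      (cset_lev fun j => (Finset.dvd_lcm (mem_univ j)).trans (Nat.dvd_lcm_right _ _)))
    (fun τ hτ => ⟨Nat.lcm_dvd hWM (Finset.lcm_dvd fun j _ => hqM τ hτ j), by
      have a1 : W.lcm (univ.lcm (q τ)) ≤ W * univ.lcm (q τ) :=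
        Nat.le_of_dvd (Nat.mul_pos hW (hlcm τ hτ).1) (Nat.lcm_dvd_mul _ _)
      have a2 : ((W.lcm (univ.lcm (q τ)) : ℕ) : ℝ) ≤ S₀ := by
        calc ((W.lcm (univ.lcm (q τ)) : ℕ) : ℝ) ≤ ((W * univ.lcm (q τ) : ℕ) : ℝ) := by
              exact_mod_cast a1
          _ = W * ((univ.lcm (q τ) : ℕ) : ℝ) := by rw [Nat.cast_mul]
          _ ≤ W * X := by gcongr; exact (hlcm τ hτ).2
          _ ≤ S₀ := hS1
      exact_mod_cast a2⟩)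
    (fun τ hτ h => (disp_avT_mono M (fun h => disp_ind_mono fun hh => hh.2) h).trans
      (cset_avT (hpar.cop τ hτ) hM (hqM τ hτ) h))
    hρ
    (fun τ hτ a ha a' ha' j => cset_left (hpar.root τ hτ) (hpar.cop τ hτ) ha.2 ha'.2 j)
    (fun τ hτ σ a a' ha ha' j => cset_right (hpar.root τ hτ) (hpar.cop τ hτ)
      ((cset_shift _ _).1 ha.2) ((cset_shift _ _).1 ha'.2) j)
    hcnt.na (fun σ σ' h1 h2 => hcnt.nb σ σ' (hσ σ h1) (hσ σ' h2))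
  rw [tsum_eq_sum (s := D) (fun h hh => by
    have : b h = 0 := by by_contra hne; exact hh (hbD h hne)
    rw [this, zero_mul])] at key
  refine abs_le_of_sq_le_sq' (key.trans ?_) (by positivity) |> abs_le.2
  refine disp_num ht hX0.le hG hE0 hE ?_ (tsum_nonneg fun h => hω0 _) hΩ ?_ ?_ (by positivity) hL2
  · rw [tsum_eq_sum (s := D) (fun h hh => by
      have : b h = 0 := by by_contra hne; exact hh (hbD h hne)
      rw [this]; norm_num)]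
    calc ∑ h ∈ D, b h ^ 2 ≤ ∑ h ∈ D, t ^ 2 := Finset.sum_le_sum fun h hh => by
          rw [← sq_abs]; exact pow_le_pow_left₀ (abs_nonneg _) (hb2 h hh) 2
      _ = #D * t ^ 2 := by rw [Finset.sum_const, nsmul_eq_mul]
      _ ≤ t ^ 3 * X * t ^ 2 := by gcongr
      _ = t ^ 5 * X := by ring
  · exact Finset.sum_nonneg fun _ _ => Finset.sum_nonneg fun _ _ => by positivity
  · calc _ ≤ ∑ τ ∈ 𝒯, ∑ τ' ∈ 𝒯, t * ((((univ.lcm (q τ)).gcd (univ.lcm (q τ')) : ℕ) : ℝ) *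
          (1 / (univ.lcm (q τ) : ℕ)) * (1 / (univ.lcm (q τ') : ℕ))) := by
          refine Finset.sum_le_sum fun τ hτ => Finset.sum_le_sum fun τ' hτ' => ?_
          have a1 : (W.lcm (univ.lcm (q τ))).gcd (W.lcm (univ.lcm (q τ'))) ≤
              W * (univ.lcm (q τ)).gcd (univ.lcm (q τ')) := by
            rw [← Nat.gcd_mul_left]
            refine Nat.le_of_dvd (Nat.gcd_pos_of_pos_left _ (Nat.mul_pos hW (hlcm τ hτ).1)) ?_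
            exact Nat.gcd_dvd_gcd_of_dvd_left _ (Nat.lcm_dvd_mul _ _) |>.trans
              (Nat.gcd_dvd_gcd_of_dvd_right _ (Nat.lcm_dvd_mul _ _))
          have a2 : (((W.lcm (univ.lcm (q τ))).gcd (W.lcm (univ.lcm (q τ'))) : ℕ) : ℝ) ≤
              t * (((univ.lcm (q τ)).gcd (univ.lcm (q τ')) : ℕ) : ℝ) := by
            calc _ ≤ ((W * (univ.lcm (q τ)).gcd (univ.lcm (q τ')) : ℕ) : ℝ) := by exact_mod_cast a1
              _ = W * (((univ.lcm (q τ)).gcd (univ.lcm (q τ')) : ℕ) : ℝ) := by rw [Nat.cast_mul]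
              _ ≤ _ := by gcongr
          rw [← mul_assoc, ← mul_assoc]
          gcongr
      _ = t * ∑ τ ∈ 𝒯, ∑ τ' ∈ 𝒯, (((univ.lcm (q τ)).gcd (univ.lcm (q τ')) : ℕ) : ℝ) *
          (1 / (univ.lcm (q τ) : ℕ)) * (1 / (univ.lcm (q τ') : ℕ)) := by
          simp only [Finset.mul_sum]
      _ ≤ t * t ^ 3 := by gcongr; exact hcnt.b2
      _ = t ^ 4 := by ring

end Pool.Agent.P.MP_a1177c_nt.EK
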