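import Pool.Agent.P.MP_a1177c_nt.EK.Defs

set_option autoImplicit false

namespace Pool.Agent.P.MP_a1177c_nt.EK

open Finset Filter
open scoped Classical

theorem expand_hS_nonneg (S : Finset ℕ) : 0 ≤ hS S :=
  Finset.prod_nonneg fun _ _ => by positivity

theorem expand_Hs_nonneg (P : Finset ℕ) (z : ℝ) : 0 ≤ Hs P z :=
  Finset.sum_nonneg fun S _ => expand_hS_nonneg S

theorem expand_pr_nonneg (S : Finset ℕ) : 0 ≤ pr S :=
  Finset.prod_nonneg fun _ _ => by positivity

theorem expand_pr_mono {S T : Finset ℕ} (hS : ∀ p ∈ S, 2 ≤ p) (h : T ⊆ S) : pr T ≤ pr S := by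
  unfold pr
  refine Finset.prod_le_prod_of_subset_of_one_le h (fun _ _ => by positivity) fun p hp _ => ?_
  have : (2 : ℝ) ≤ p := by exact_mod_cast hS p hp
  linarith

theorem expand_ind_prod (T : Finset ℕ) (Z : ℕ → Prop) :
    ∏ p ∈ T, ind (Z p) = ind (∀ p ∈ T, Z p) := by
  unfold ind
  by_cases h : ∀ p ∈ T, Z p
  · rw [if_pos h]
    exact Finset.prod_eq_one fun p hp => if_pos (h p hp)
  · rw [if_neg h]
    push Not at h
    obtain ⟨p, hp, hZ⟩ := h
    exact Finset.prod_eq_zero hp (if_neg hZ)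

theorem expand_ind_and (p q : Prop) : ind (p ∧ q) = ind p * ind q := by
  unfold ind
  by_cases h1 : p <;> by_cases h2 : q <;> simp [h1, h2]

/-- The coefficient of the divisor expansion of one Selberg sum. -/
theorem expand_lam (P : Finset ℕ) (hP : ∀ p ∈ P, 2 ≤ p) {y : Finset ℕ → ℝ} {z w : ℝ}
    (hy : ∀ S, |y S| ≤ 1 ∧ (y S ≠ 0 → pr S ≤ z)) (hz : z ≤ w) :
    ∃ l : Finset ℕ → ℝ, (∀ T ∈ P.powerset, |l T| ≤ 2 ^ #T * Hs P w) ∧
      (∀ T ∈ P.powerset, l T ≠ 0 → pr T ≤ z) ∧
      ∀ Z : ℕ → Prop, Lam P y Z = ∑ T ∈ P.powerset, l T * ind (∀ p ∈ T, Z p) := by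
  refine ⟨fun T => ∑ S ∈ P.powerset with T ⊆ S,
    y S * ((∏ p ∈ T, -(1 + 2 / (p : ℝ))) * hS (S \ T)), fun T hT => ?_, fun T hT h => ?_,
    fun Z => ?_⟩
  · have hT' := Finset.mem_powerset.mp hT
    have h2 : |∏ p ∈ T, -(1 + 2 / (p : ℝ))| ≤ 2 ^ #T := by
      rw [Finset.abs_prod, ← Finset.prod_const]
      refine Finset.prod_le_prod (fun _ _ => abs_nonneg _) fun p hp => ?_
      have h2p : (2 : ℝ) ≤ p := by exact_mod_cast hP p (hT' hp)
      have : 2 / (p : ℝ) ≤ 1 := (div_le_one (by linarith)).mpr h2p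
      rw [abs_neg, abs_of_nonneg (by positivity)]
      linarith
    calc _ ≤ ∑ S ∈ P.powerset with T ⊆ S,
          |y S * ((∏ p ∈ T, -(1 + 2 / (p : ℝ))) * hS (S \ T))| := Finset.abs_sum_le_sum_abs _ _
      _ ≤ ∑ S ∈ P.powerset with T ⊆ S,
          2 ^ #T * (if pr (S \ T) ≤ w then hS (S \ T) else 0) := by
          refine Finset.sum_le_sum fun S hS' => ?_
          have hSP := Finset.mem_powerset.mp (Finset.mem_filter.mp hS').1
          by_cases h0 : y S = 0
          · rw [h0, zero_mul, abs_zero]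
            split_ifs
            · exact mul_nonneg (by positivity) (expand_hS_nonneg _)
            · simp
          · have hle : pr (S \ T) ≤ w :=
              (expand_pr_mono (fun p hp => hP p (hSP hp)) Finset.sdiff_subset).trans
                (((hy S).2 h0).trans hz)
            rw [if_pos hle, abs_mul, abs_mul, abs_of_nonneg (expand_hS_nonneg _)]
            calc _ ≤ 1 * (2 ^ #T * hS (S \ T)) :=
                  mul_le_mul (hy S).1 (mul_le_mul_of_nonneg_right h2 (expand_hS_nonneg _))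
                    (mul_nonneg (abs_nonneg _) (expand_hS_nonneg _)) zero_le_one
              _ = _ := one_mul _
      _ ≤ 2 ^ #T * Hs P w := by
          rw [← Finset.mul_sum]
          refine mul_le_mul_of_nonneg_left ?_ (by positivity)
          rw [Hs, Finset.sum_filter (fun S => pr S ≤ w), ← Finset.sum_image
            (f := fun S => if pr S ≤ w then hS S else 0) (g := fun S => S \ T)]
          · refine Finset.sum_le_sum_of_subset_of_nonneg (fun S hS' => ?_) fun S _ _ => ?_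
            · obtain ⟨S', hS'', rfl⟩ := Finset.mem_image.mp hS'
              exact Finset.mem_powerset.mpr (Finset.sdiff_subset.trans
                (Finset.mem_powerset.mp (Finset.mem_filter.mp hS'').1))
            · split_ifs
              · exact expand_hS_nonneg _
              · exact le_rfl
          · intro S hS' S' hS'' h
            have h1 := (Finset.mem_filter.mp hS').2
            have h2 := (Finset.mem_filter.mp hS'').2
            rw [← Finset.sdiff_union_of_subset h1, ← Finset.sdiff_union_of_subset h2]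
            exact congrArg (· ∪ T) h
  · obtain ⟨S, hS', hne⟩ := Finset.exists_ne_zero_of_sum_ne_zero h
    have hSP := Finset.mem_powerset.mp (Finset.mem_filter.mp hS').1
    exact (expand_pr_mono (fun p hp => hP p (hSP hp)) (Finset.mem_filter.mp hS').2).trans
      ((hy S).2 (left_ne_zero_of_mul hne))
  · have h1 : ∀ S : Finset ℕ, (∏ p ∈ S, if Z p then (-1 : ℝ) else 2 / p) =
        ∑ T ∈ S.powerset, (∏ p ∈ T, -(1 + 2 / (p : ℝ))) * hS (S \ T) * ind (∀ p ∈ T, Z p) := by
      intro S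
      have : ∀ p ∈ S, (if Z p then (-1 : ℝ) else 2 / p) =
          -(1 + 2 / (p : ℝ)) * ind (Z p) + 2 / p := fun p _ => by
        unfold ind
        split_ifs <;> ring
      rw [Finset.prod_congr rfl this, Finset.prod_add]
      refine Finset.sum_congr rfl fun T _ => ?_
      rw [Finset.prod_mul_distrib, expand_ind_prod, hS]
      ring
    unfold Lam
    simp only [h1, Finset.mul_sum, Finset.sum_mul]
    rw [Finset.sum_comm' (t' := P.powerset) (s' := fun T => {S ∈ P.powerset | T ⊆ S})]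
    · refine Finset.sum_congr rfl fun T _ => Finset.sum_congr rfl fun S _ => by ring
    · intro S T
      simp only [Finset.mem_powerset, Finset.mem_filter]
      exact ⟨fun h => ⟨⟨h.1, h.2⟩, h.2.trans h.1⟩, fun h => h.1⟩

theorem lam_mul (P : Finset ℕ) (hP : ∀ p ∈ P, 2 ≤ p) {y y' : Finset ℕ → ℝ} {z z' w : ℝ}
    (hy : ∀ S, |y S| ≤ 1 ∧ (y S ≠ 0 → pr S ≤ z)) (hy' : ∀ S, |y' S| ≤ 1 ∧ (y' S ≠ 0 → pr S ≤ z'))
    (hz : z ≤ w) (hz' : z' ≤ w) :
    ∃ ρ : Finset ℕ → ℝ, (∀ S ∈ P.powerset, |ρ S| ≤ 12 ^ #S * Hs P w ^ 2) ∧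
      (∀ S ∈ P.powerset, ρ S ≠ 0 → pr S ≤ z * z') ∧
      ∀ Z : ℕ → Prop, Lam P y Z * Lam P y' Z = ∑ S ∈ P.powerset, ρ S * ind (∀ p ∈ S, Z p) := by
  obtain ⟨l, hl1, hl2, hl3⟩ := expand_lam P hP hy hz
  obtain ⟨l', hl1', hl2', hl3'⟩ := expand_lam P hP hy' hz'
  have hH := expand_Hs_nonneg P w
  refine ⟨fun S => ∑ T ∈ P.powerset ×ˢ P.powerset with T.1 ∪ T.2 = S, l T.1 * l' T.2,
    fun S _ => ?_, fun S hS' h => ?_, fun Z => ?_⟩
  · have h3 : ∑ T ∈ S.powerset, (2 : ℝ) ^ #T = 3 ^ #S := by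
      have := Finset.prod_one_add (f := fun _ : ℕ => (2 : ℝ)) S
      simp only [Finset.prod_const] at this
      rw [← this]
      norm_num
    calc _ ≤ ∑ T ∈ P.powerset ×ˢ P.powerset with T.1 ∪ T.2 = S, |l T.1 * l' T.2| :=
          Finset.abs_sum_le_sum_abs _ _
      _ ≤ ∑ T ∈ P.powerset ×ˢ P.powerset with T.1 ∪ T.2 = S,
          (2 ^ #T.1 * Hs P w) * (2 ^ #T.2 * Hs P w) := by
          refine Finset.sum_le_sum fun T hT => ?_
          have hT' := Finset.mem_product.mp (Finset.mem_filter.mp hT).1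
          rw [abs_mul]
          exact mul_le_mul (hl1 _ hT'.1) (hl1' _ hT'.2) (abs_nonneg _) (by positivity)
      _ ≤ ∑ T ∈ S.powerset ×ˢ S.powerset, (2 ^ #T.1 * Hs P w) * (2 ^ #T.2 * Hs P w) := by
          refine Finset.sum_le_sum_of_subset_of_nonneg (fun T hT => ?_) fun T _ _ => by positivity
          have h := (Finset.mem_filter.mp hT).2
          rw [Finset.mem_product, Finset.mem_powerset, Finset.mem_powerset, ← h]
          exact ⟨Finset.subset_union_left, Finset.subset_union_right⟩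
      _ = (3 ^ #S * Hs P w) * (3 ^ #S * Hs P w) := by
          rw [Finset.sum_product' (f := fun A B : Finset ℕ =>
            (2 ^ #A * Hs P w) * (2 ^ #B * Hs P w)), ← Finset.sum_mul_sum, ← Finset.sum_mul, h3]
      _ = 9 ^ #S * Hs P w ^ 2 := by
          rw [show (9 : ℝ) = 3 * 3 by norm_num, mul_pow]
          ring
      _ ≤ 12 ^ #S * Hs P w ^ 2 :=
          mul_le_mul_of_nonneg_right (pow_le_pow_left₀ (by norm_num) (by norm_num) _)
            (by positivity)
  · obtain ⟨T, hT, hne⟩ := Finset.exists_ne_zero_of_sum_ne_zero h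
    have hT' := Finset.mem_product.mp (Finset.mem_filter.mp hT).1
    have h1 := hl2 _ hT'.1 (left_ne_zero_of_mul hne)
    have h2 := hl2' _ hT'.2 (right_ne_zero_of_mul hne)
    have h3 : pr S ≤ pr T.1 * pr T.2 := by
      rw [← (Finset.mem_filter.mp hT).2, ← Finset.union_sdiff_self_eq_union, pr,
        Finset.prod_union Finset.disjoint_sdiff]
      exact mul_le_mul_of_nonneg_left (expand_pr_mono
        (fun p hp => hP p (Finset.mem_powerset.mp hT'.2 hp)) Finset.sdiff_subset)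
        (expand_pr_nonneg _)
    exact h3.trans (mul_le_mul h1 h2 (expand_pr_nonneg _) ((expand_pr_nonneg _).trans h1))
  · rw [hl3, hl3', Finset.sum_mul_sum, ← Finset.sum_product']
    rw [← Finset.sum_fiberwise_of_maps_to (s := P.powerset ×ˢ P.powerset) (t := P.powerset)
      (g := fun T => T.1 ∪ T.2)]
    · refine Finset.sum_congr rfl fun S _ => ?_
      rw [Finset.sum_mul]
      refine Finset.sum_congr rfl fun T hT => ?_
      have h : ind (∀ p ∈ S, Z p) = ind (∀ p ∈ T.1, Z p) * ind (∀ p ∈ T.2, Z p) := by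
        rw [← (Finset.mem_filter.mp hT).2]
        simp only [Finset.forall_mem_union]
        exact expand_ind_and _ _
      rw [h]
      ring
    · intro T hT
      have hT' := Finset.mem_product.mp hT
      exact Finset.mem_powerset.mpr (Finset.union_subset (Finset.mem_powerset.mp hT'.1)
        (Finset.mem_powerset.mp hT'.2))

theorem expand_nrm (z : GaussianInt) : (nrm z : ℤ) = z.re ^ 2 + z.im ^ 2 := by
  rw [nrm, Int.natAbs_of_nonneg (GaussianInt.norm_nonneg z), Zsqrtd.norm_def]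
  ring

theorem expand_prod_dvd (S : Finset ℕ) (hS : ∀ p ∈ S, p.Prime) {n : ℤ}
    (h : ∀ p ∈ S, (p : ℤ) ∣ n) : ((∏ p ∈ S, p : ℕ) : ℤ) ∣ n := by
  rw [Int.natCast_dvd]
  exact Finset.prod_primes_dvd _ (fun p hp => (hS p hp).prime) fun p hp =>
    Int.natCast_dvd.mp (h p hp)

theorem expand_eq_of_dvd {d a b : ℕ} (ha : a < d) (hb : b < d) (h : (d : ℤ) ∣ (a : ℤ) - b) :
    a = b := by
  have := (Nat.modEq_iff_dvd (n := d) (a := b) (b := a)).mpr h
  exact (Nat.ModEq.eq_of_lt_of_lt this hb ha).symm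

theorem ind_roots (S : Finset ℕ) (hS : ∀ p ∈ S, p.Prime) (z : GaussianInt)
    (hz : ∀ p ∈ S, ¬ ((p : ℤ) ∣ z.re ∧ (p : ℤ) ∣ z.im)) :
    ind (∀ p ∈ S, p ∣ nrm z) = ∑ ι ∈ range (∏ p ∈ S, p) with (∏ p ∈ S, p) ∣ ι ^ 2 + 1,
      ind (((∏ p ∈ S, p : ℕ) : ℤ) ∣ ell ι z) := by
  set d : ℕ := ∏ p ∈ S, p with hd
  have hd0 : 0 < d := Finset.prod_pos fun p hp => (hS p hp).pos
  by_cases h : ∀ p ∈ S, p ∣ nrm z
  · have hN : (d : ℤ) ∣ z.re ^ 2 + z.im ^ 2 := by
      rw [← expand_nrm]
      exact expand_prod_dvd S hS fun p hp => Int.natCast_dvd_natCast.mpr (h p hp)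
    have hcop : IsCoprime (d : ℤ) z.im := by
      rw [hd, Nat.cast_prod]
      refine IsCoprime.prod_left fun p hp => ?_
      have hp' : Prime (p : ℤ) := Nat.prime_iff_prime_int.mp (hS p hp)
      refine (hp'.irreducible.coprime_iff_not_dvd).mpr fun him => hz p hp ⟨?_, him⟩
      have h1 : (p : ℤ) ∣ z.re ^ 2 + z.im ^ 2 := by
        rw [← expand_nrm]
        exact Int.natCast_dvd_natCast.mpr (h p hp)
      exact hp'.dvd_of_dvd_pow ((dvd_add_left (dvd_pow him two_ne_zero)).mp h1)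
    obtain ⟨v, u, huv⟩ := id hcop
    have hdz : (0 : ℤ) < d := by exact_mod_cast hd0
    obtain ⟨ι₀, hι₀⟩ := Int.eq_ofNat_of_zero_le (Int.emod_nonneg (-z.re * u) hdz.ne')
    have hlt : ι₀ < d := by
      have := Int.emod_lt_of_pos (-z.re * u) hdz
      rw [hι₀] at this
      exact_mod_cast this
    have hell : (d : ℤ) ∣ ell ι₀ z := by
      refine ⟨z.re * v - (-z.re * u) / d * z.im, ?_⟩
      have h1 := Int.emod_add_mul_ediv (-z.re * u) d
      rw [hι₀] at h1
      unfold ell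
      linear_combination z.im * h1 - z.re * huv
    have hroot : d ∣ ι₀ ^ 2 + 1 := by
      rw [← Int.natCast_dvd_natCast]
      push_cast
      refine hcop.pow_right (n := 2) |>.dvd_of_dvd_mul_right ?_
      have : ((ι₀ : ℤ) ^ 2 + 1) * z.im ^ 2 =
          z.re ^ 2 + z.im ^ 2 - ell ι₀ z * (z.re - ι₀ * z.im) := by
        unfold ell
        ring
      rw [this]
      exact dvd_sub hN (hell.mul_right _)
    rw [Finset.sum_eq_single ι₀]
    · unfold ind
      rw [if_pos h, if_pos hell]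
    · intro ι hι hne
      unfold ind
      refine if_neg fun hι' => hne ?_
      refine expand_eq_of_dvd (Finset.mem_range.mp (Finset.mem_filter.mp hι).1) hlt ?_
      refine hcop.dvd_of_dvd_mul_right ?_
      have : ((ι : ℤ) - ι₀) * z.im = ell ι z - ell ι₀ z := by
        unfold ell
        ring
      rw [this]
      exact dvd_sub hι' hell
    · intro hn
      exact absurd (Finset.mem_filter.mpr ⟨Finset.mem_range.mpr hlt, hroot⟩) hn
  · unfold ind
    rw [if_neg h]
    refine (Finset.sum_eq_zero fun ι hι => if_neg fun hι' => h fun p hp => ?_).symm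
    have h1 : (d : ℤ) ∣ (ι : ℤ) ^ 2 + 1 := by exact_mod_cast (Finset.mem_filter.mp hι).2
    have h2 : (d : ℤ) ∣ nrm z := by
      have : (nrm z : ℤ) = ((ι : ℤ) ^ 2 + 1) * z.im ^ 2 + ell ι z * (z.re - ι * z.im) := by
        rw [expand_nrm]
        unfold ell
        ring
      rw [this]
      exact dvd_add (h1.mul_right _) (hι'.mul_right _)
    exact (Finset.dvd_prod_of_mem _ hp).trans (Int.natCast_dvd_natCast.mp h2)

theorem card_roots (S : Finset ℕ) (hS : ∀ p ∈ S, p.Prime) :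
    #{ι ∈ range (∏ p ∈ S, p) | (∏ p ∈ S, p) ∣ ι ^ 2 + 1} ≤ 2 ^ #S := by
  rw [← Finset.card_powerset]
  refine Finset.card_le_card_of_injOn (fun ι => {p ∈ S | 2 * (ι % p) < p})
    (fun ι _ => Finset.mem_coe.mpr (Finset.mem_powerset.mpr (Finset.filter_subset _ _))) ?_
  intro a ha b hb hab
  have ha' := Finset.mem_filter.mp (Finset.mem_coe.mp ha)
  have hb' := Finset.mem_filter.mp (Finset.mem_coe.mp hb)
  refine expand_eq_of_dvd (Finset.mem_range.mp ha'.1) (Finset.mem_range.mp hb'.1)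
    (expand_prod_dvd S hS fun p hp => ?_)
  have hp' : Prime (p : ℤ) := Nat.prime_iff_prime_int.mp (hS p hp)
  have h1 : (p : ℤ) ∣ (a : ℤ) ^ 2 + 1 := by
    exact_mod_cast (Finset.dvd_prod_of_mem _ hp).trans ha'.2
  have h2 : (p : ℤ) ∣ (b : ℤ) ^ 2 + 1 := by
    exact_mod_cast (Finset.dvd_prod_of_mem _ hp).trans hb'.2
  have h3 : (p : ℤ) ∣ ((a : ℤ) - b) * (a + b) := by
    have : ((a : ℤ) - b) * (a + b) = (a : ℤ) ^ 2 + 1 - ((b : ℤ) ^ 2 + 1) := by ring
    rw [this]
    exact dvd_sub h1 h2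
  refine (hp'.dvd_or_dvd h3).elim id fun h4 => ?_
  have h5 : p ∣ a % p + b % p := by
    rw [Nat.dvd_iff_mod_eq_zero, ← Nat.add_mod, ← Nat.dvd_iff_mod_eq_zero]
    exact_mod_cast h4
  have hiff : 2 * (a % p) < p ↔ 2 * (b % p) < p := by
    have := Finset.ext_iff.mp hab p
    simpa [hp] using this
  have hpa := Nat.mod_lt a (hS p hp).pos
  have hpb := Nat.mod_lt b (hS p hp).pos
  have heq : a % p = b % p := by
    obtain ⟨k, hk⟩ := h5
    have hk2 : k < 2 := by
      by_contra hk2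
      have : p * 2 ≤ p * k := Nat.mul_le_mul_left p (by omega)
      omega
    interval_cases k <;> omega
  exact (Nat.modEq_iff_dvd.mp heq.symm)

theorem gauss_root (ϖ : GaussianInt) (h : IsCoprime ϖ.re ϖ.im) :
    ∃ ι : ℤ, (nrm ϖ : ℤ) ∣ ι ^ 2 + 1 ∧ ∀ z, ϖ ∣ z ↔ (nrm ϖ : ℤ) ∣ ell ι z := by
  obtain ⟨u, v, huv⟩ := h
  rw [expand_nrm]
  refine ⟨u * ϖ.im - v * ϖ.re, ⟨u ^ 2 + v ^ 2, ?_⟩, fun z => ⟨?_, ?_⟩⟩
  · linear_combination (-(u * ϖ.re + v * ϖ.im + 1)) * huv
  · rintro ⟨w, rfl⟩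
    refine ⟨u * w.re - v * w.im, ?_⟩
    simp only [ell, Zsqrtd.re_mul, Zsqrtd.im_mul]
    linear_combination (ϖ.im * w.im - ϖ.re * w.re) * huv
  · rintro ⟨k, hk⟩
    refine ⟨⟨k * ϖ.re + z.im * v, -k * ϖ.im + z.im * u⟩, ?_⟩
    unfold ell at hk
    ext
    · simp only [Zsqrtd.re_mul]
      linear_combination hk
    · simp only [Zsqrtd.im_mul]
      linear_combination (-z.im) * huv

theorem abs_lam_le (P : Finset ℕ) (hP : ∀ p ∈ P, p.Prime) {y : Finset ℕ → ℝ} {z : ℝ}
    (hy : ∀ S, |y S| ≤ 1 ∧ (y S ≠ 0 → pr S ≤ z)) {n : ℕ} (hn : n ≠ 0) :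
    |Lam P y fun p => p ∣ n| ≤ 2 ^ #n.primeFactors * Hs P z := by
  set D := n.primeFactors with hD
  have hP2 : ∀ p ∈ P, 2 ≤ p := fun p hp => (hP p hp).two_le
  unfold Lam
  refine (Finset.abs_sum_le_sum_abs _ _).trans ?_
  calc _ ≤ ∑ S ∈ P.powerset, (if pr (S \ D) ≤ z then hS (S \ D) else 0) := by
        refine Finset.sum_le_sum fun S hS' => ?_
        have hSP := Finset.mem_powerset.mp hS'
        by_cases h0 : y S = 0
        · rw [h0, zero_mul, abs_zero]
          split_ifs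
          · exact expand_hS_nonneg _
          · exact le_rfl
        · have hle : pr (S \ D) ≤ z :=
            (expand_pr_mono (fun p hp => hP2 p (hSP hp)) Finset.sdiff_subset).trans ((hy S).2 h0)
          have h1 : |∏ p ∈ S, @ite ℝ (p ∣ n) (Classical.propDecidable _) (-1 : ℝ) (2 / p)| =
              hS (S \ D) := by
            rw [Finset.abs_prod, hS, Finset.sdiff_eq_filter, Finset.prod_filter]
            refine Finset.prod_congr rfl fun p hp => ?_
            by_cases hpn : p ∣ n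
            · have : p ∈ D := Nat.mem_primeFactors.mpr ⟨hP p (hSP hp), hpn, hn⟩
              simp [hpn, this]
            · have : p ∉ D := fun h => hpn (Nat.dvd_of_mem_primeFactors h)
              rw [if_neg hpn, if_pos this, abs_of_nonneg (by positivity)]
          rw [if_pos hle, abs_mul, h1]
          exact mul_le_of_le_one_left (expand_hS_nonneg _) (hy S).1
    _ ≤ ∑ T ∈ D.powerset ×ˢ P.powerset, (if pr T.2 ≤ z then hS T.2 else 0) := by
        rw [← Finset.sum_image (f := fun T : Finset ℕ × Finset ℕ => if pr T.2 ≤ z then hS T.2 else 0)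
          (g := fun S => (S ∩ D, S \ D))]
        · refine Finset.sum_le_sum_of_subset_of_nonneg (fun T hT => ?_) fun S _ _ => ?_
          · obtain ⟨S, hS', rfl⟩ := Finset.mem_image.mp hT
            exact Finset.mem_product.mpr ⟨Finset.mem_powerset.mpr Finset.inter_subset_right,
              Finset.mem_powerset.mpr (Finset.sdiff_subset.trans (Finset.mem_powerset.mp hS'))⟩
          · split_ifs
            · exact expand_hS_nonneg _
            · exact le_rfl
        · intro S _ S' _ h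
          have h1 : S ∩ D = S' ∩ D := congrArg Prod.fst h
          have h2 : S \ D = S' \ D := congrArg Prod.snd h
          rw [← Finset.sdiff_union_inter S D, ← Finset.sdiff_union_inter S' D, h1, h2]
    _ = 2 ^ #D * Hs P z := by
        rw [Finset.sum_product' (f := fun _ B : Finset ℕ => if pr B ≤ z then hS B else 0),
          Finset.sum_const, Finset.card_powerset, Hs, Finset.sum_filter]
        simp

theorem expand_sum_le (P : Finset ℕ) (hP : ∀ p ∈ P, p.Prime) (z : ℝ) (f : ℝ → ℝ)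
    (hf : ∀ m : ℕ, 0 ≤ f m) :
    ∑ S ∈ P.powerset with pr S ≤ z, f (pr S) ≤ ∑ m ∈ Icc 1 ⌊z⌋₊, f m := by
  have hpr : ∀ S : Finset ℕ, pr S = ((∏ p ∈ S, p : ℕ) : ℝ) := fun S => by simp [pr]
  simp only [hpr]
  rw [← Finset.sum_image (f := fun m : ℕ => f m) (g := fun S : Finset ℕ => ∏ p ∈ S, p)]
  · refine Finset.sum_le_sum_of_subset_of_nonneg (fun m hm => ?_) fun m _ _ => hf m
    obtain ⟨S, hS', rfl⟩ := Finset.mem_image.mp hm
    have h := Finset.mem_filter.mp hS'
    exact Finset.mem_Icc.mpr ⟨Finset.prod_pos fun p hp =>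
      (hP p (Finset.mem_powerset.mp h.1 hp)).pos, Nat.le_floor h.2⟩
  · intro S hS' T hT h
    have h1 := Finset.mem_powerset.mp (Finset.mem_filter.mp hS').1
    have h2 := Finset.mem_powerset.mp (Finset.mem_filter.mp hT).1
    rw [← Nat.primeFactors_prod fun p hp => hP p (h1 hp),
      ← Nat.primeFactors_prod fun p hp => hP p (h2 hp)]
    exact congrArg Nat.primeFactors h

theorem Hs_le (P : Finset ℕ) (hP : ∀ p ∈ P, p.Prime) {z : ℝ} (hz : 1 ≤ z) :
    Hs P z ≤ (1 + Real.log z) ^ 2 := by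
  have hP2 : ∀ p ∈ P, 2 ≤ p := fun p hp => (hP p hp).two_le
  set A := {S ∈ P.powerset | pr S ≤ z} with hA
  have h1 : ∑ S ∈ A, (pr S)⁻¹ ≤ 1 + Real.log z := by
    refine (expand_sum_le P hP z (fun x => x⁻¹) fun m => by positivity).trans ?_
    have := harmonic_floor_le_one_add_log z hz
    rw [harmonic_eq_sum_Icc] at this
    simpa using this
  have h0 : 0 ≤ ∑ S ∈ A, (pr S)⁻¹ :=
    Finset.sum_nonneg fun S _ => inv_nonneg.mpr (expand_pr_nonneg S)
  refine le_trans ?_ (pow_le_pow_left₀ h0 h1 2)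
  have h2 : ∀ S : Finset ℕ, hS S = ∑ T ∈ S.powerset, (pr T)⁻¹ * (pr (S \ T))⁻¹ := by
    intro S
    have : ∀ p ∈ S, (2 / p : ℝ) = (p : ℝ)⁻¹ + (p : ℝ)⁻¹ := fun p _ => by ring
    rw [hS, Finset.prod_congr rfl this, Finset.prod_add]
    simp [pr]
  rw [Hs, ← hA, sq, Finset.sum_mul_sum, ← Finset.sum_product']
  simp only [h2]
  rw [Finset.sum_sigma', ← Finset.sum_image
    (f := fun T : Finset ℕ × Finset ℕ => (pr T.1)⁻¹ * (pr T.2)⁻¹)
    (g := fun x : (Σ _ : Finset ℕ, Finset ℕ) => (x.2, x.1 \ x.2))]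
  · refine Finset.sum_le_sum_of_subset_of_nonneg (fun T hT => ?_) fun T _ _ =>
      mul_nonneg (inv_nonneg.mpr (expand_pr_nonneg _)) (inv_nonneg.mpr (expand_pr_nonneg _))
    obtain ⟨x, hx, rfl⟩ := Finset.mem_image.mp hT
    have hx' := Finset.mem_sigma.mp hx
    have h3 := Finset.mem_filter.mp hx'.1
    have h4 := Finset.mem_powerset.mp h3.1
    have h5 := Finset.mem_powerset.mp hx'.2
    exact Finset.mem_product.mpr ⟨Finset.mem_filter.mpr ⟨Finset.mem_powerset.mpr (h5.trans h4),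
      (expand_pr_mono (fun p hp => hP2 p (h4 hp)) h5).trans h3.2⟩,
      Finset.mem_filter.mpr ⟨Finset.mem_powerset.mpr (Finset.sdiff_subset.trans h4),
      (expand_pr_mono (fun p hp => hP2 p (h4 hp)) Finset.sdiff_subset).trans h3.2⟩⟩
  · rintro ⟨S, T⟩ hx ⟨S', T'⟩ hx' h
    have h3 : T = T' := congrArg Prod.fst h
    have h4 : S \ T = S' \ T' := congrArg Prod.snd h
    have h5 : T ⊆ S := Finset.mem_powerset.mp (Finset.mem_sigma.mp hx).2
    have h6 : T' ⊆ S' := Finset.mem_powerset.mp (Finset.mem_sigma.mp hx').2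
    have h7 : S = S' := by
      rw [← Finset.sdiff_union_of_subset h5, ← Finset.sdiff_union_of_subset h6, h4, h3]
    rw [h3, h7]

theorem card_pr_le (P : Finset ℕ) (hP : ∀ p ∈ P, p.Prime) {z : ℝ} (hz : 0 ≤ z) :
    (#{S ∈ P.powerset | pr S ≤ z} : ℝ) ≤ z := by
  have := expand_sum_le P hP z (fun _ => 1) fun _ => zero_le_one
  simp only [Finset.sum_const, Nat.card_Icc, nsmul_eq_mul, mul_one, add_tsub_cancel_right] at this
  exact this.trans (Nat.floor_le hz)

end Pool.Agent.P.MP_a1177c_nt.EK
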