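import Pool.Agent.P.MP_a1177c_nt.EK.Inv
import Pool.Agent.P.MP_a1177c_nt.EK.Conv

set_option autoImplicit false

namespace Pool.Agent.P.MP_a1177c_nt.EK

open Finset Filter
open scoped Classical

/-! ### Linearity of the Abel transform -/

lemma family_integrable {k : ℝ → ℝ} (hk : Ker k) (v : ℝ) :
    MeasureTheory.Integrable fun ξ : ℝ => k (v + ξ ^ 2) := by
  obtain ⟨hc, R, hR⟩ := hk
  refine Continuous.integrable_of_hasCompactSupport (by fun_prop) ?_
  refine HasCompactSupport.intro (isCompact_Icc (a := -(|R - v| + 1)) (b := |R - v| + 1)) ?_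
  intro x hx
  apply hR
  have h1 := le_abs_self (R - v)
  have h0 := abs_nonneg (R - v)
  rw [Set.mem_Icc, not_and_or, not_le, not_le] at hx
  rcases hx with hx | hx <;> nlinarith

lemma family_ker_add {k l : ℝ → ℝ} (hk : Ker k) (hl : Ker l) : Ker fun u => k u + l u := by
  obtain ⟨hc, R, hR⟩ := hk
  obtain ⟨hc', R', hR'⟩ := hl
  refine ⟨hc.add hc', max R R', fun u hu => ?_⟩
  show k u + l u = 0
  rw [hR u ((le_max_left _ _).trans_lt hu), hR' u ((le_max_right _ _).trans_lt hu), add_zero]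

lemma family_ker_mul {k : ℝ → ℝ} (hk : Ker k) (c : ℝ) : Ker fun u => c * k u := by
  obtain ⟨hc, R, hR⟩ := hk
  refine ⟨continuous_const.mul hc, R, fun u hu => ?_⟩
  show c * k u = 0
  rw [hR u hu, mul_zero]

lemma family_abel_add {k l : ℝ → ℝ} (hk : Ker k) (hl : Ker l) (v : ℝ) :
    abel (fun u => k u + l u) v = abel k v + abel l v :=
  MeasureTheory.integral_add (family_integrable hk v) (family_integrable hl v)

lemma family_abel_mul (k : ℝ → ℝ) (c v : ℝ) : abel (fun u => c * k u) v = c * abel k v :=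
  MeasureTheory.integral_const_mul _ _

/-- Kernels with the same Abel transform agree on `[1, ∞)`. -/
lemma family_ext {k l : ℝ → ℝ} (hk : Ker k) (hl : Ker l)
    (h : ∀ r, 0 ≤ r → abel k (Real.cosh r) = abel l (Real.cosh r)) : ∀ u, 1 ≤ u → k u = l u := by
  intro u hu
  have := abel_inj (family_ker_add hk (family_ker_mul hl (-1))) (fun v hv => by
    rw [family_abel_add hk (family_ker_mul hl _), family_abel_mul, ← Real.cosh_arcosh hv,
      h _ (Real.arcosh_nonneg hv)]
    ring) u hu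
  linarith

/-! ### Inversion for the translates of one profile -/

lemma family_deriv_zero {G : ℝ → ℝ} {a c : ℝ} (h1 : ∀ r, r ≤ -a → G r = c)
    (h2 : ∀ r, a ≤ r → G r = 0) {r : ℝ} (hr : r ∉ Set.Icc (-a) a) :
    deriv G =ᶠ[nhds r] fun _ => 0 := by
  rw [Set.mem_Icc, not_and_or, not_le, not_le] at hr
  rcases hr with hr | hr
  · filter_upwards [Iio_mem_nhds hr] with x hx
    have : G =ᶠ[nhds x] fun _ => c := by
      filter_upwards [Iio_mem_nhds hx] with y hy using h1 y (le_of_lt hy)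
    rw [this.deriv_eq, deriv_const]
  · filter_upwards [Ioi_mem_nhds hr] with x hx
    have : G =ᶠ[nhds x] fun _ => 0 := by
      filter_upwards [Ioi_mem_nhds hx] with y hy using h2 y (le_of_lt hy)
    rw [this.deriv_eq, deriv_const]

lemma family_shift {G : ℝ → ℝ} {a c : ℝ} (ha : 0 ≤ a) (hG : ContDiff ℝ 2 G)
    (h1 : ∀ r, r ≤ -a → G r = c) (h2 : ∀ r, a ≤ r → G r = 0) :
    ∃ C : ℝ, 1 ≤ C ∧ ∀ s : ℝ, a + 2 ≤ s → ∃ k, Ker k ∧
      (∀ r, 0 ≤ r → abel k (Real.cosh r) = G (r - s)) ∧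
      (∀ u, C * Real.exp s < u → k u = 0) ∧ (∀ u, |k u| ≤ C * Real.exp (-(s / 2))) ∧
      (∀ u v, |k u - k v| ≤ C * Real.exp (-(3 * s / 2)) * |u - v|) ∧
      (Antitone G → ∀ u, 0 ≤ k u ∧
        (1 ≤ u → C * u ≤ Real.exp s → c * Real.exp (-(s / 2)) ≤ C * k u)) := by
  obtain ⟨C0, hC0, H⟩ := inv_kernel
  have hG1 : ContDiff ℝ 1 (deriv G) := ContDiff.deriv' (n := 1) hG
  have hd1 : ∀ r, HasDerivAt G (deriv G r) r := fun r =>
    (hG.differentiable (by norm_num) r).hasDerivAt
  have hd2 : ∀ r, HasDerivAt (deriv G) (deriv (deriv G) r) r := fun r =>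
    (hG1.differentiable (by norm_num) r).hasDerivAt
  have hc2 : Continuous (deriv (deriv G)) := hG1.continuous_deriv le_rfl
  obtain ⟨B1, hB1⟩ := (isCompact_Icc (a := -a) (b := a)).exists_bound_of_continuousOn
    hG1.continuous.continuousOn
  obtain ⟨B2, hB2⟩ := (isCompact_Icc (a := -a) (b := a)).exists_bound_of_continuousOn
    hc2.continuousOn
  obtain ⟨B, hB, hB0⟩ : ∃ B : ℝ, (∀ r, |deriv G r| ≤ B ∧ |deriv (deriv G) r| ≤ B) ∧ 1 ≤ B := by
    refine ⟨|B1| + |B2| + 1, fun r => ?_, by have := abs_nonneg B1; have := abs_nonneg B2; linarith⟩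
    have := abs_nonneg B1
    have := abs_nonneg B2
    by_cases hr : r ∈ Set.Icc (-a) a
    · have a1 := (hB1 r hr).trans (le_abs_self _)
      have a2 := (hB2 r hr).trans (le_abs_self _)
      rw [Real.norm_eq_abs] at a1 a2
      constructor <;> linarith
    · have a1 := family_deriv_zero h1 h2 hr
      rw [a1.self_of_nhds, a1.deriv_eq, deriv_const, abs_zero]
      constructor <;> linarith
  have hE : 1 ≤ Real.exp (3 * a + 2) := Real.one_le_exp (by linarith)
  have hCB : 1 ≤ C0 * B := one_le_mul_of_one_le_of_one_le hC0 hB0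
  have hCBE : 1 ≤ C0 * B * Real.exp (3 * a + 2) := one_le_mul_of_one_le_of_one_le hCB hE
  refine ⟨2 * (C0 * B * Real.exp (3 * a + 2)), by linarith, fun s hs => ?_⟩
  obtain ⟨k, hk, e1, e2, e3, e4, e5⟩ := H (fun r => G (r - s)) (fun r => deriv G (r - s))
    (fun r => deriv (deriv G) (r - s)) (s - a - 1) (s + a) B
    (fun r => (hd1 (r - s)).comp_sub_const r s) (fun r => (hd2 (r - s)).comp_sub_const r s)
    (by fun_prop) (by linarith) (by linarith)
    (fun r hr => (family_deriv_zero h1 h2 (fun h => by linarith [h.1])).self_of_nhds)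
    (fun r hr => h2 _ (by linarith)) (fun r => hB _)
  have key : ∀ x y : ℝ, x ≤ 3 * a + 2 + y → C0 * B * Real.exp x ≤
      2 * (C0 * B * Real.exp (3 * a + 2)) * Real.exp y := by
    intro x y hxy
    have t1 : Real.exp x ≤ Real.exp (3 * a + 2) * Real.exp y := by
      rw [← Real.exp_add]; exact Real.exp_le_exp.2 hxy
    have t2 := mul_le_mul_of_nonneg_left t1 (by linarith : 0 ≤ C0 * B)
    have t3 : 0 ≤ C0 * B * (Real.exp (3 * a + 2) * Real.exp y) := by positivity
    linarith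
  refine ⟨k, hk, e1, fun u hu => e2 u (lt_of_le_of_lt ?_ hu), fun u => (e3 u).trans (key _ _ ?_),
    fun u v => (e4 u v).trans (mul_le_mul_of_nonneg_right (key _ _ ?_) (abs_nonneg _)),
    fun hA u => ?_⟩
  · exact (le_mul_of_one_le_left (Real.exp_pos _).le hCB).trans (key _ _ (by linarith))
  · linarith
  · linarith
  · obtain ⟨f1, f2⟩ := e5 (fun r => hA.deriv_nonpos) u
    refine ⟨f1, fun hu hCu => ?_⟩
    have t1 : u ≤ Real.exp (s - a - 1) / 2 := by
      have t2 : Real.exp s ≤ Real.exp (3 * a + 2) * Real.exp (s - a - 1) := by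
        rw [← Real.exp_add]; exact Real.exp_le_exp.2 (by linarith)
      have t3 : Real.exp (3 * a + 2) * u ≤ C0 * B * Real.exp (3 * a + 2) * u := by
        rw [mul_assoc]
        exact le_mul_of_one_le_left (by positivity) hCB
      have t4 : Real.exp (3 * a + 2) * (2 * u) ≤ Real.exp (3 * a + 2) * Real.exp (s - a - 1) := by
        linarith
      have := le_of_mul_le_mul_left t4 (Real.exp_pos _)
      linarith
    rcases f2 t1 with f3 | f3
    · have t2 : G (0 - s) = c := h1 _ (by linarith)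
      simp only [t2] at f3
      have t3 := mul_le_mul_of_nonneg_right f3 (Real.exp_pos (-(s / 2))).le
      have t4 : Real.exp ((s + a) / 2) * Real.exp (-(s / 2)) = Real.exp (a / 2) := by
        rw [← Real.exp_add]; congr 1; ring
      have t5 := key (a / 2) 0 (by linarith)
      rw [Real.exp_zero, mul_one] at t5
      have t6 : C0 * Real.exp (a / 2) ≤ C0 * B * Real.exp (a / 2) :=
        mul_le_mul_of_nonneg_right (le_mul_of_one_le_right (by linarith) hB0) (Real.exp_pos _).le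
      calc c * Real.exp (-(s / 2))
          ≤ C0 * (Real.exp ((s + a) / 2) * Real.exp (-(s / 2))) * k u := by linarith
        _ = C0 * Real.exp (a / 2) * k u := by rw [t4]
        _ ≤ _ := mul_le_mul_of_nonneg_right (t6.trans t5) f1
    · linarith

/-! ### The profiles -/

noncomputable def famS (x : ℝ) : ℝ := Real.smoothTransition ((x + 1) / 2)

noncomputable def famG (r : ℝ) : ℝ := famS (r + 4) - famS (r - 4)

noncomputable def famT (x : ℝ) : ℝ := ∫ ρ, famG ρ * famS (x - ρ)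

noncomputable def famH (x : ℝ) : ℝ := famT (x + 4) - famT (x - 4)

lemma famS_zero {x : ℝ} (h : x ≤ -1) : famS x = 0 :=
  Real.smoothTransition.zero_of_nonpos (by linarith)

lemma famS_one {x : ℝ} (h : 1 ≤ x) : famS x = 1 :=
  Real.smoothTransition.one_of_one_le (by linarith)

lemma famS_neg (x : ℝ) : famS (-x) = 1 - famS x := by
  have h := Real.smoothTransition.pos_denom ((x + 1) / 2)
  have e1 : (-x + 1) / 2 = 1 - (x + 1) / 2 := by ring
  simp only [famS, Real.smoothTransition, e1, sub_sub_cancel]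
  rw [add_comm (expNegInvGlue (1 - (x + 1) / 2)), eq_sub_iff_add_eq, ← add_div,
    add_comm (expNegInvGlue (1 - (x + 1) / 2)), div_self h.ne']

lemma famS_mono : Monotone famS := fun x y h =>
  Real.smoothTransition.monotone (by linarith)

lemma famS_contDiff : ContDiff ℝ 2 famS := by
  have : ContDiff ℝ (2 : ℕ∞) Real.smoothTransition := Real.smoothTransition.contDiff
  exact this.comp (by fun_prop : ContDiff ℝ (2 : ℕ∞) fun x : ℝ => (x + 1) / 2)

lemma famG_contDiff : ContDiff ℝ 2 famG :=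
  (famS_contDiff.comp (by fun_prop)).sub (famS_contDiff.comp (by fun_prop))

lemma famG_neg (r : ℝ) : famG (-r) = famG r := by
  have e1 : -r + 4 = -(r - 4) := by ring
  have e2 : -r - 4 = -(r + 4) := by ring
  simp only [famG, e1, e2, famS_neg]
  ring

lemma famG_nonneg (r : ℝ) : 0 ≤ famG r := sub_nonneg.2 (famS_mono (by linarith))

lemma famG_hi {r : ℝ} (h : 5 ≤ r) : famG r = 0 := by
  rw [famG, famS_one (by linarith), famS_one (by linarith), sub_self]

lemma famG_lo {r : ℝ} (h : r ≤ -5) : famG r = 0 := by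
  rw [famG, famS_zero (by linarith), famS_zero (by linarith), sub_self]

lemma famG_supp (a : ℝ) : HasCompactSupport fun r => famG (r - a) := by
  refine HasCompactSupport.intro (isCompact_Icc (a := a - 5) (b := a + 5)) fun x hx => ?_
  rw [Set.mem_Icc, not_and_or, not_le, not_le] at hx
  rcases hx with hx | hx
  · exact famG_lo (by linarith)
  · exact famG_hi (by linarith)

lemma famG_supp0 : HasCompactSupport famG := by simpa using famG_supp 0

lemma famG_integrable (a : ℝ) {f : ℝ → ℝ} (hf : Continuous f) :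
    MeasureTheory.Integrable fun ρ => famG (ρ - a) * f ρ :=
  Continuous.integrable_of_hasCompactSupport
    ((famG_contDiff.continuous.comp (by fun_prop)).mul hf) (famG_supp a).mul_right

lemma famG_integrable0 {f : ℝ → ℝ} (hf : Continuous f) :
    MeasureTheory.Integrable fun ρ => famG ρ * f ρ := by
  simpa using famG_integrable 0 hf

lemma famT_contDiff : ContDiff ℝ 2 famT :=
  HasCompactSupport.contDiff_convolution_left (ContinuousLinearMap.mul ℝ ℝ) (n := 2)
    (μ := MeasureTheory.volume) famG_supp0 famG_contDiff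
    famS_contDiff.continuous.locallyIntegrable

lemma famT_mono : Monotone famT := fun x y h =>
  MeasureTheory.integral_mono
    (famG_integrable0 (famS_contDiff.continuous.comp (by fun_prop)))
    (famG_integrable0 (famS_contDiff.continuous.comp (by fun_prop)))
    fun ρ => mul_le_mul_of_nonneg_left (famS_mono (by linarith)) (famG_nonneg ρ)

lemma famT_lo {x : ℝ} (h : x ≤ -6) : famT x = 0 := by
  have : ∀ ρ, famG ρ * famS (x - ρ) = 0 := by
    intro ρ
    rcases le_total ρ (-5) with h1 | h1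
    · rw [famG_lo h1, zero_mul]
    · rw [famS_zero (by linarith), mul_zero]
  simp [famT, this]

lemma famT_hi {x : ℝ} (h : 6 ≤ x) : famT x = ∫ ρ, famG ρ := by
  have : ∀ ρ, famG ρ * famS (x - ρ) = famG ρ := by
    intro ρ
    rcases le_total 5 ρ with h1 | h1
    · rw [famG_hi h1, zero_mul]
    · rw [famS_one (by linarith), mul_one]
  simp [famT, this]

lemma famI_pos : 0 < ∫ ρ, famG ρ :=
  famG_contDiff.continuous.integral_pos_of_hasCompactSupport_nonneg_nonzero famG_supp0
    famG_nonneg (x := 0) (by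
      rw [famG, famS_one (by norm_num), famS_zero (by norm_num)]; norm_num)

lemma famH_contDiff : ContDiff ℝ 2 famH :=
  (famT_contDiff.comp (by fun_prop)).sub (famT_contDiff.comp (by fun_prop))

lemma famH_hi {x : ℝ} (h : 10 ≤ x) : famH x = 0 := by
  rw [famH, famT_hi (by linarith), famT_hi (by linarith), sub_self]

lemma famH_lo {x : ℝ} (h : x ≤ -10) : famH x = 0 := by
  rw [famH, famT_lo (by linarith), famT_lo (by linarith), sub_self]

lemma famH_eq (a b r : ℝ) : ∫ ρ, famG (ρ - a) * famG (r - ρ - b) = famH (r - a - b) := by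
  have hi : ∀ x : ℝ, MeasureTheory.Integrable fun ρ => famG ρ * famS (x - ρ) := fun x =>
    famG_integrable0 (famS_contDiff.continuous.comp (by fun_prop))
  rw [← MeasureTheory.integral_add_right_eq_self _ a, famH, famT, famT,
    ← MeasureTheory.integral_sub (hi _) (hi _)]
  congr 1
  funext ρ
  have e1 : r - (ρ + a) - b + 4 = r - a - b + 4 - ρ := by ring
  have e2 : r - (ρ + a) - b - 4 = r - a - b - 4 - ρ := by ring
  rw [add_sub_cancel_right, famG.eq_1 (r - (ρ + a) - b), e1, e2]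
  ring

/-- Symmetrised translates. -/
noncomputable def famC (f : ℝ → ℝ) (n : ℤ) (r : ℝ) : ℝ := (f (r - 8 * n) + f (r + 8 * n)) / 2

lemma famC_neg (f : ℝ → ℝ) (n : ℤ) : famC f (-n) = famC f n := by
  funext r
  simp only [famC, Int.cast_neg, mul_neg, sub_neg_eq_add, ← sub_eq_add_neg]
  ring

lemma famC_natAbs (f : ℝ → ℝ) (n : ℤ) : famC f n.natAbs = famC f n := by
  rcases Int.natAbs_eq n with h | h
  · rw [← h]
  · rw [← famC_neg, ← h]

lemma famC_conv (n m : ℤ) (r : ℝ) : ∫ ρ, famC famG n ρ * famC famG m (r - ρ) =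
    (famC famH (n + m) r + famC famH (n - m) r) / 2 := by
  have hc := famG_contDiff.continuous
  have hi : ∀ a b : ℝ, MeasureTheory.Integrable fun ρ => famG (ρ - a) * famG (r - ρ - b) :=
    fun a b => famG_integrable a (hc.comp (by fun_prop))
  have e : ∀ ρ, famC famG n ρ * famC famG m (r - ρ) = (1 / 4 : ℝ) *
      ((famG (ρ - 8 * n) * famG (r - ρ - 8 * m) + famG (ρ - 8 * n) * famG (r - ρ - -(8 * m))) +
      (famG (ρ - -(8 * n)) * famG (r - ρ - 8 * m) +
        famG (ρ - -(8 * n)) * famG (r - ρ - -(8 * m)))) := by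
    intro ρ
    simp only [famC, sub_neg_eq_add]
    ring
  have hi2 : ∀ a b a' b' : ℝ, MeasureTheory.Integrable fun ρ =>
      famG (ρ - a) * famG (r - ρ - b) + famG (ρ - a') * famG (r - ρ - b') :=
    fun a b a' b' => (hi a b).add (hi a' b')
  simp only [e]
  rw [MeasureTheory.integral_const_mul,
    MeasureTheory.integral_add (hi2 _ _ _ _) (hi2 _ _ _ _),
    MeasureTheory.integral_add (hi _ _) (hi _ _), MeasureTheory.integral_add (hi _ _) (hi _ _),
    famH_eq, famH_eq, famH_eq, famH_eq]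
  simp only [famC]
  push_cast
  have e1 : r - 8 * (n : ℝ) - 8 * m = r - 8 * (n + m) := by ring
  have e2 : r - 8 * (n : ℝ) - -(8 * m) = r - 8 * (n - m) := by ring
  have e3 : r - -(8 * (n : ℝ)) - 8 * m = r + 8 * (n - m) := by ring
  have e4 : r - -(8 * (n : ℝ)) - -(8 * m) = r + 8 * (n + m) := by ring
  rw [e1, e2, e3, e4]
  ring

lemma family_kappa (n : ℤ) : ∃ κ, Ker κ ∧ ∀ r, abel κ (Real.cosh r) = famC famG n r := by
  have hev : ∀ r, famC famG n (-r) = famC famG n r := by
    intro r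
    have e1 : -r - 8 * (n : ℝ) = -(r + 8 * n) := by ring
    have e2 : -r + 8 * (n : ℝ) = -(r - 8 * n) := by ring
    simp only [famC, e1, e2, famG_neg]
    ring
  suffices H : ∃ κ, Ker κ ∧ ∀ r, 0 ≤ r → abel κ (Real.cosh r) = famC famG n r by
    obtain ⟨κ, h1, h2⟩ := H
    refine ⟨κ, h1, fun r => ?_⟩
    rcases le_total 0 r with hr | hr
    · exact h2 r hr
    · rw [← Real.cosh_neg, h2 _ (by linarith), hev]
  rw [← famC_natAbs]
  generalize n.natAbs = N
  rcases Nat.eq_zero_or_pos N with rfl | hN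
  · obtain ⟨C, -, H⟩ := family_shift (G := fun x => 1 - famS x) (a := 1) (c := 1) zero_le_one
      (contDiff_const.sub famS_contDiff) (fun r hr => by simp [famS_zero hr])
      (fun r hr => by simp [famS_one hr])
    obtain ⟨κ, h1, h2, -⟩ := H 4 (by norm_num)
    refine ⟨κ, h1, fun r hr => ?_⟩
    rw [h2 r hr]
    simp only [famC, famG, Nat.cast_zero, Int.cast_zero, mul_zero, sub_zero, add_zero]
    rw [famS_one (x := r + 4) (by linarith)]
    ring
  · obtain ⟨C, -, H⟩ := family_shift (G := fun x => famG x / 2) (a := 5) (c := 0) (by norm_num)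
      (famG_contDiff.div_const 2) (fun r hr => by simp [famG_lo hr])
      (fun r hr => by simp [famG_hi hr])
    have hN' : (1 : ℝ) ≤ N := by exact_mod_cast hN
    obtain ⟨κ, h1, h2, -⟩ := H (8 * N) (by linarith)
    refine ⟨κ, h1, fun r hr => ?_⟩
    rw [h2 r hr]
    simp only [famC, Int.cast_natCast]
    rw [famG_hi (r := r + 8 * N) (by linarith), add_zero]

lemma family_sum {k : ℤ → ℝ → ℝ} (hk : ∀ n, Ker (k n))
    (h : ∀ n r, abel (k n) (Real.cosh r) = √2 * famC famH n r) (N : ℕ) :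
    Ker (fun u => ∑ n ∈ Icc (-(N : ℤ)) N, k n u) ∧
      ∀ r, abel (fun u => ∑ n ∈ Icc (-(N : ℤ)) N, k n u) (Real.cosh r) =
        √2 * (famT (r + 8 * N + 4) - famT (r - 8 * N - 4)) := by
  induction N with
  | zero =>
    simp only [Nat.cast_zero, neg_zero, Icc_self, sum_singleton, mul_zero, add_zero, sub_zero]
    refine ⟨hk 0, fun r => ?_⟩
    rw [h]
    simp [famC, famH]
  | succ N ih =>
    have e : (fun u => ∑ n ∈ Icc (-((N + 1 : ℕ) : ℤ)) (N + 1 : ℕ), k n u) =
        fun u => (k (N + 1) u + k (-(N + 1)) u) + ∑ n ∈ Icc (-(N : ℤ)) N, k n u := by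
      funext u
      push_cast
      exact sum_Icc_succ_eq_add_endpoints (fun n => k n u)
    rw [e]
    refine ⟨family_ker_add (family_ker_add (hk _) (hk _)) ih.1, fun r => ?_⟩
    rw [family_abel_add (family_ker_add (hk _) (hk _)) ih.1, family_abel_add (hk _) (hk _),
      ih.2, h, h, famC_neg]
    simp only [famC, famH]
    push_cast
    have e1 : r - 8 * ((N : ℝ) + 1) + 4 = r - 8 * N - 4 := by ring
    have e2 : r + 8 * ((N : ℝ) + 1) - 4 = r + 8 * N + 4 := by ring
    rw [e1, e2]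
    ring

lemma family_bdd {k : ℝ → ℝ} (hk : Ker k) :
    ∃ B : ℝ, 0 ≤ B ∧ (∀ u, 1 ≤ u → |k u| ≤ B) ∧ ∀ u, B < u → k u = 0 := by
  obtain ⟨hc, R, hR⟩ := hk
  obtain ⟨B, hB⟩ := (isCompact_Icc (a := (1 : ℝ)) (b := R)).exists_bound_of_continuousOn
    hc.continuousOn
  have h1 := abs_nonneg B
  have h2 := abs_nonneg R
  refine ⟨|B| + |R|, by positivity, fun u hu => ?_,
    fun u hu => hR u (by linarith [le_abs_self R])⟩
  rcases le_or_gt u R with h | h
  · have := (hB u ⟨hu, h⟩).trans (le_abs_self B)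
    rw [Real.norm_eq_abs] at this
    linarith
  · rw [hR u h, abs_zero]; positivity

theorem family : ∃ τ C : ℝ, 0 < τ ∧ 1 ≤ C ∧ ∃ κ k : ℤ → ℝ → ℝ,
    (∀ n, Ker (κ n)) ∧ (∀ n, k (-n) = k n) ∧
    (∀ (n m : ℤ) (z w : UpperHalfPlane), ∫ ζ : UpperHalfPlane, κ n (ch z ζ) * κ m (ch ζ w) =
      (k (n + m) (ch z w) + k (n - m) (ch z w)) / 2) ∧
    (∀ (n : ℕ) (u : ℝ), 1 ≤ u → |k n u| ≤ C * Real.exp (-(n * τ / 2))) ∧
    (∀ (n : ℕ) (u : ℝ), C * Real.exp (n * τ) < u → k n u = 0) ∧
    (∀ n : ℕ, 2 ≤ n → ∀ u v : ℝ, 1 ≤ u → 1 ≤ v →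
      |k n u - k n v| ≤ C * Real.exp (-(3 * n * τ / 2)) * |u - v|) ∧
    (∀ n₀ : ℕ, 2 ≤ n₀ → ∀ u : ℝ, 1 ≤ u →
      0 ≤ ∑ n ∈ Icc (-(n₀ : ℤ)) n₀, k n u ∧
      ∑ n ∈ Icc (-(n₀ : ℤ)) n₀, k n u ≤ C * Real.exp (-(n₀ * τ / 2)) ∧
      (C * u ≤ Real.exp (n₀ * τ) →
        Real.exp (-(n₀ * τ / 2)) ≤ C * ∑ n ∈ Icc (-(n₀ : ℤ)) n₀, k n u)) := by
  choose κ hκ hκa using family_kappa
  have hex : ∀ n : ℕ, ∃ k, Ker k ∧ ∀ r, abel k (Real.cosh r) = √2 * famC famH n r := by
    intro n
    obtain ⟨k, h1, -, h3⟩ := conv_radial (hκ n) (hκ 0)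
    refine ⟨k, h1, fun r => ?_⟩
    rw [h3]
    simp only [hκa, famC_conv, add_zero, sub_zero, add_self_div_two]
  choose k' hk' hka' using hex
  obtain ⟨k, hk⟩ : ∃ k : ℤ → ℝ → ℝ, ∀ n, k n = k' n.natAbs := ⟨_, fun _ => rfl⟩
  have hK : ∀ n, Ker (k n) := fun n => hk n ▸ hk' _
  have hka : ∀ n r, abel (k n) (Real.cosh r) = √2 * famC famH n r := fun n r => by
    rw [hk, hka', famC_natAbs]
  obtain ⟨C3, hC3, H3⟩ := family_shift (G := fun x => √2 * (famH x / 2)) (a := 10) (c := 0)
    (by norm_num) (contDiff_const.mul (famH_contDiff.div_const 2))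
    (fun r hr => by simp [famH_lo hr]) (fun r hr => by simp [famH_hi hr])
  have hI := famI_pos
  obtain ⟨C4, hC4, H4⟩ := family_shift (G := fun x => √2 * ((∫ ρ, famG ρ) - famT (x - 4)))
    (a := 10) (c := √2 * ∫ ρ, famG ρ) (by norm_num)
    (contDiff_const.mul (contDiff_const.sub (famT_contDiff.comp (by fun_prop))))
    (fun r hr => by simp [famT_lo (x := r - 4) (by linarith)])
    (fun r hr => by simp [famT_hi (x := r - 4) (by linarith)])
  have hanti : Antitone fun x => √2 * ((∫ ρ, famG ρ) - famT (x - 4)) := fun x y h =>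
    mul_le_mul_of_nonneg_left (sub_le_sub_left (famT_mono (by linarith)) _) (Real.sqrt_nonneg _)
  obtain ⟨B0, hB0, b01, b02⟩ := family_bdd (hK 0)
  obtain ⟨B1, hB1, b11, b12⟩ := family_bdd (hK 1)
  obtain ⟨J, hJ⟩ : ∃ J : ℝ, J = √2 * ∫ ρ, famG ρ := ⟨_, rfl⟩
  have hJ0 : 0 < J := by rw [hJ]; positivity
  have hE4 : 1 ≤ Real.exp 4 := Real.one_le_exp (by norm_num)
  have hB1E : B1 ≤ B1 * Real.exp 4 := le_mul_of_one_le_right hB1 hE4
  have hCJ : 0 ≤ C4 / J := by positivity
  obtain ⟨C, c3, c4, cJ, c0, c1⟩ : ∃ C : ℝ, C3 ≤ C ∧ C4 ≤ C ∧ C4 / J ≤ C ∧ B0 ≤ C ∧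
      B1 * Real.exp 4 ≤ C :=
    ⟨C3 + C4 + C4 / J + B0 + B1 * Real.exp 4, by linarith, by linarith, by linarith, by linarith,
      by linarith⟩
  have hC : 1 ≤ C := hC3.trans c3
  have big : ∀ n : ℕ, 2 ≤ n → ∃ l : ℝ → ℝ, (∀ u, 1 ≤ u → k n u = l u) ∧
      (∀ u, C3 * Real.exp (n * 8) < u → l u = 0) ∧ (∀ u, |l u| ≤ C3 * Real.exp (-(n * 8 / 2))) ∧
      ∀ u v, |l u - l v| ≤ C3 * Real.exp (-(3 * (n * 8) / 2)) * |u - v| := by
    intro n hn
    have hn' : (2 : ℝ) ≤ n := by exact_mod_cast hn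
    obtain ⟨l, l1, l2, l3, l4, l5, -⟩ := H3 (n * 8) (by linarith)
    refine ⟨l, family_ext (hK n) l1 fun r hr => ?_, l3, l4, l5⟩
    rw [hka, l2 r hr]
    simp only [famC, Int.cast_natCast]
    rw [famH_hi (x := r + 8 * n) (by linarith), add_zero, mul_comm (n : ℝ) 8]
  refine ⟨8, C, by norm_num, hC, κ, k, hκ, fun n => by rw [hk, hk, Int.natAbs_neg], ?_, ?_, ?_,
    ?_, ?_⟩
  · intro n m z w
    obtain ⟨K, K1, K2, K3⟩ := conv_radial (hκ n) (hκ m)
    have e := family_ext K1 (family_ker_mul (family_ker_add (hK (n + m)) (hK (n - m))) (1 / 2))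
      (fun r _ => by
        rw [K3, family_abel_mul, family_abel_add (hK _) (hK _), hka, hka]
        simp only [hκa, famC_conv]
        ring) (ch z w) (Real.one_le_cosh _)
    rw [K2, e]
    ring
  · intro n u hu
    rcases Nat.lt_or_ge n 2 with hn | hn
    · interval_cases n
      · simpa using (b01 u hu).trans c0
      · have e : Real.exp 4 * Real.exp (-(((1 : ℕ) : ℝ) * 8 / 2)) = 1 := by
          rw [← Real.exp_add]; norm_num
        calc |k ((1 : ℕ) : ℤ) u| ≤ B1 * (Real.exp 4 * Real.exp (-(((1 : ℕ) : ℝ) * 8 / 2))) := by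
              rw [e, mul_one]; exact b11 u hu
          _ ≤ _ := by
              rw [← mul_assoc]; exact mul_le_mul_of_nonneg_right c1 (Real.exp_pos _).le
    · obtain ⟨l, l1, -, l3, -⟩ := big n hn
      rw [l1 u hu]
      exact (l3 u).trans (mul_le_mul_of_nonneg_right c3 (Real.exp_pos _).le)
  · intro n u hu
    have hE : 1 ≤ Real.exp (n * 8) := Real.one_le_exp (by positivity)
    have hCu : C < u := (le_mul_of_one_le_right (by linarith) hE).trans_lt hu
    rcases Nat.lt_or_ge n 2 with hn | hn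
    · interval_cases n
      · exact b02 u (by linarith)
      · exact b12 u (by linarith)
    · obtain ⟨l, l1, l2, -⟩ := big n hn
      rw [l1 u (by linarith)]
      exact l2 u ((mul_le_mul_of_nonneg_right c3 (Real.exp_pos _).le).trans_lt hu)
  · intro n hn u v hu hv
    obtain ⟨l, l1, -, -, l4⟩ := big n hn
    rw [l1 u hu, l1 v hv, mul_assoc (3 : ℝ)]
    exact (l4 u v).trans (mul_le_mul_of_nonneg_right
      (mul_le_mul_of_nonneg_right c3 (Real.exp_pos _).le) (abs_nonneg _))
  · intro N hN u hu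
    have hN' : (2 : ℝ) ≤ N := by exact_mod_cast hN
    obtain ⟨l, l1, l2, -, l4, -, l6⟩ := H4 (N * 8) (by linarith)
    obtain ⟨s1, s2⟩ := family_sum hK hka N
    have e := family_ext s1 l1 (fun r hr => by
      rw [s2, l2 r hr, famT_hi (x := r + 8 * N + 4) (by linarith), mul_comm (N : ℝ) 8]) u hu
    rw [e]
    obtain ⟨p1, p2⟩ := l6 hanti u
    refine ⟨p1, (le_abs_self _).trans ((l4 u).trans
      (mul_le_mul_of_nonneg_right c4 (Real.exp_pos _).le)), fun h => ?_⟩
    have t := p2 hu ((mul_le_mul_of_nonneg_right c4 (by linarith)).trans h)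
    rw [← hJ] at t
    calc Real.exp (-(N * 8 / 2)) ≤ C4 / J * l u := by
          rw [div_mul_eq_mul_div, le_div_iff₀ hJ0]; linarith
      _ ≤ _ := mul_le_mul_of_nonneg_right cJ p1

end Pool.Agent.P.MP_a1177c_nt.EK
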