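import Pool.Agent.P.MP_a1177c_nt.EK.Defs

set_option autoImplicit false

namespace Pool.Agent.P.MP_a1177c_nt.EK

open Finset Filter
open scoped Classical

lemma fams_cop_or {x y a b : ℤ} {p : ℕ} (hp : p.Prime) (hxy : IsCoprime x y)
    (h : a ^ 2 + b ^ 2 = p) :
    IsCoprime (x * a - y * b) (x * b + y * a) ∨
      ((p : ℤ) ∣ x * a - y * b ∧ (p : ℤ) ∣ x * b + y * a) := by
  have h1 := Int.gcd_dvd_left (x * a - y * b) (x * b + y * a)
  have h2 := Int.gcd_dvd_right (x * a - y * b) (x * b + y * a)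
  obtain ⟨s, t, hst⟩ := hxy
  have h3 : (Int.gcd (x * a - y * b) (x * b + y * a) : ℤ) ∣ p := by
    have h4 : (p : ℤ) = (s * a - t * b) * (x * a - y * b) + (s * b + t * a) * (x * b + y * a) := by
      rw [← h]
      linear_combination (-(a ^ 2 + b ^ 2)) * hst
    rw [h4]
    exact dvd_add (h1.mul_left _) (h2.mul_left _)
  rcases (Nat.dvd_prime hp).1 (Int.natCast_dvd_natCast.1 h3) with h5 | h5
  · exact Or.inl (Int.isCoprime_iff_gcd_eq_one.2 h5)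
  · rw [h5] at h1 h2
    exact Or.inr ⟨h1, h2⟩

lemma fams_prim_mul {n p : ℕ} (hp : p.Prime) (h4 : p % 4 = 1)
    (h : ∃ x y : ℤ, IsCoprime x y ∧ x ^ 2 + y ^ 2 = n) :
    ∃ x y : ℤ, IsCoprime x y ∧ x ^ 2 + y ^ 2 = (n * p : ℕ) := by
  obtain ⟨x, y, hxy, hn⟩ := h
  have : Fact p.Prime := ⟨hp⟩
  obtain ⟨a, b, hab⟩ := Nat.Prime.sq_add_sq (p := p) (by omega)
  have hab' : (a : ℤ) ^ 2 + (b : ℤ) ^ 2 = p := by exact_mod_cast hab
  have hab'' : (a : ℤ) ^ 2 + (-(b : ℤ)) ^ 2 = p := by rw [← hab']; ring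
  rcases fams_cop_or hp hxy hab' with h1 | h1
  · refine ⟨_, _, h1, ?_⟩
    push_cast
    rw [← hn, ← hab']
    ring
  rcases fams_cop_or hp hxy hab'' with h2 | h2
  · refine ⟨_, _, h2, ?_⟩
    push_cast
    rw [← hn, ← hab']
    ring
  exfalso
  obtain ⟨s, t, hst⟩ := hxy
  have h3 : (p : ℤ) ∣ 2 * a := by
    have h5 : 2 * (a : ℤ) = s * ((x * a - y * b) + (x * a - y * -b)) +
        t * ((x * b + y * a) + (x * -b + y * a)) := by
      linear_combination (-2 * (a : ℤ)) * hst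
    rw [h5]
    exact dvd_add ((dvd_add h1.1 h2.1).mul_left _) ((dvd_add h1.2 h2.2).mul_left _)
  have h6 : p ∣ 2 * a := by exact_mod_cast h3
  have h7 : p ∣ a := by
    rcases (Nat.Prime.dvd_mul hp).1 h6 with h | h
    · have := Nat.le_of_dvd two_pos h
      have := hp.two_le
      omega
    · exact h
  have h8 : p ∣ b := by
    apply hp.dvd_of_dvd_pow (n := 2)
    have h9 : p ∣ a ^ 2 + b ^ 2 := by rw [hab]
    exact (Nat.dvd_add_right (Dvd.dvd.pow h7 two_ne_zero)).1 h9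
  have h10 : p ^ 2 ∣ p := by
    conv_rhs => rw [← hab]
    exact dvd_add (pow_dvd_pow_of_dvd h7 2) (pow_dvd_pow_of_dvd h8 2)
  have h11 := Nat.le_of_dvd hp.pos h10
  have := hp.two_le
  nlinarith

lemma fams_prim {l p : ℕ} (a : ℕ) (hl : l.Prime) (hl4 : l % 4 = 1) (hp : p.Prime)
    (hp4 : p % 4 = 1) : ∃ z : GaussianInt, IsCoprime z.re z.im ∧ nrm z = l ^ a * p := by
  have h1 : ∃ x y : ℤ, IsCoprime x y ∧ x ^ 2 + y ^ 2 = (l ^ a : ℕ) := by
    induction a with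
    | zero => exact ⟨1, 0, isCoprime_one_left, by simp⟩
    | succ k ih => rw [pow_succ]; exact fams_prim_mul hl hl4 ih
  obtain ⟨x, y, hxy, h⟩ := fams_prim_mul hp hp4 h1
  refine ⟨⟨x, y⟩, hxy, ?_⟩
  have h2 : (⟨x, y⟩ : GaussianInt).norm = (l ^ a * p : ℕ) := by
    rw [← h, Zsqrtd.norm_def]
    ring
  unfold nrm
  rw [h2, Int.natAbs_natCast]

/-- The primes in `(y, 16 y]`. -/
noncomputable def famsQ (y : ℝ) : Finset ℕ := {p ∈ Ioc 0 ⌊16 * y⌋₊ | p.Prime ∧ y < p}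

lemma fams_mem_Q {y : ℝ} (hy : 0 ≤ y) {p : ℕ} :
    p ∈ famsQ y ↔ p.Prime ∧ y < p ∧ (p : ℝ) ≤ 16 * y := by
  unfold famsQ
  rw [mem_filter, Finset.mem_Ioc, Nat.le_floor_iff (by positivity)]
  exact ⟨fun h => ⟨h.2.1, h.2.2, h.1.2⟩, fun h => ⟨⟨h.1.pos, h.2.2⟩, h.1, h.2.1⟩⟩

lemma fams_sum_Q {y : ℝ} (hy : 1 < y) :
    ∑ p ∈ famsQ y, (1 / p : ℝ) ≤ 16 * Real.log 4 / Real.log y := by
  have hy0 : 0 < y := by linarith
  have hlog : 0 < Real.log y := Real.log_pos hy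
  have h1 : ∑ p ∈ famsQ y, (1 / p : ℝ) ≤ ∑ p ∈ famsQ y, Real.log p / (y * Real.log y) := by
    refine sum_le_sum fun p hp => ?_
    obtain ⟨-, h2, -⟩ := (fams_mem_Q hy0.le).1 hp
    have h3 : Real.log y ≤ Real.log p := Real.log_le_log hy0 h2.le
    rw [div_le_div_iff₀ (by linarith) (by positivity), one_mul, mul_comm]
    exact mul_le_mul h3 h2.le hy0.le (by linarith)
  refine h1.trans ?_
  rw [← sum_div]
  have h2 : ∑ p ∈ famsQ y, Real.log p ≤ Chebyshev.theta (16 * y) := by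
    unfold Chebyshev.theta famsQ
    refine sum_le_sum_of_subset_of_nonneg (fun p hp => ?_) fun p _ _ => Real.log_natCast_nonneg p
    rw [mem_filter] at hp ⊢
    exact ⟨hp.1, hp.2.1⟩
  have h3 := Chebyshev.theta_le_log4_mul_x (x := 16 * y) (by positivity)
  rw [div_le_div_iff₀ (by positivity) hlog]
  nlinarith [mul_le_mul_of_nonneg_right (h2.trans h3) hlog.le]

lemma fams_exists_l (B : ℕ) : ∃ l : Fin 4 → ℕ, Function.Injective l ∧
    ∀ j, (l j).Prime ∧ l j % 4 = 1 ∧ B < l j := by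
  have hinf : Set.Infinite {p : ℕ | p.Prime ∧ p % 4 = 1 ∧ B < p} := by
    refine Set.infinite_of_forall_exists_gt fun n => ?_
    obtain ⟨p, hp, h1, h2⟩ := Nat.exists_prime_gt_modEq_one (k := 4) (n + B) (by norm_num)
    exact ⟨p, ⟨hp, h2, by omega⟩, by omega⟩
  refine ⟨fun j => hinf.natEmbedding _ j, fun i j h => ?_, fun j => (hinf.natEmbedding _ j).2⟩
  exact Fin.ext ((hinf.natEmbedding _).injective (Subtype.ext h))

theorem exists_fams {W : ℕ} (hW : 0 < W) (h4 : 4 ∣ W) (a : ℕ) (η : ℝ) (hη : 0 < η) :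
    ∃ q : Fin 4 → ℕ, (∀ j, 0 < q j ∧ ArithmeticFunction.cardFactors (q j) = a) ∧
      ∀ ε : ℝ, 0 < ε → ε ≤ 1 / 2000 → ∀ᶠ X : ℝ in atTop,
        ∃ (P : Finset ℕ) (Pi : Fin 4 → Finset GaussianInt), ∀ i,
          Fams W (q i) (fun j => q (i.succAbove j)) ε η X P (Pi i) fun j => Pi (i.succAbove j) := by
  obtain ⟨l, hinj, hl⟩ := fams_exists_l (W + ⌈8 / η⌉₊)
  refine ⟨fun j => l j ^ a, fun j => ⟨pow_pos (hl j).1.pos a,
    ArithmeticFunction.cardFactors_apply_prime_pow (hl j).1⟩, fun ε hε hε' => ?_⟩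
  have hf : ∀ (j : Fin 4) (p : ℕ), ∃ z : GaussianInt, p.Prime → p % 4 = 1 →
      IsCoprime z.re z.im ∧ nrm z = l j ^ a * p := by
    intro j p
    by_cases h : p.Prime ∧ p % 4 = 1
    · obtain ⟨z, hz⟩ := fams_prim a (hl j).1 (hl j).2.1 h.1 h.2
      exact ⟨z, fun _ _ => hz⟩
    · exact ⟨0, fun h1 h2 => (h ⟨h1, h2⟩).elim⟩
  choose f hf using hf
  have hT : Tendsto (fun X : ℝ => X ^ ε) atTop atTop := tendsto_rpow_atTop hε
  have e1 : ∀ᶠ X : ℝ in atTop, ∀ j, (l j : ℝ) < X ^ ε :=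
    eventually_all.2 fun j => hT.eventually_gt_atTop _
  have e2 : ∀ᶠ X : ℝ in atTop, 32 * Real.log 4 / η ≤ Real.log (X ^ ε) :=
    (Real.tendsto_log_atTop.comp hT).eventually_ge_atTop _
  have e3 : ∀ᶠ X : ℝ in atTop, 16 ≤ X ^ (1 / 1000 : ℝ) :=
    (tendsto_rpow_atTop (by norm_num)).eventually_ge_atTop _
  filter_upwards [e1, e2, e3, eventually_ge_atTop (1 : ℝ)] with X h1 h2 h3 hX
  set y := X ^ ε with hy
  have hy1 : 1 < y := lt_of_le_of_lt (by exact_mod_cast (hl 0).1.one_lt.le) (h1 0)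
  have hy0 : 0 < y := by linarith
  have hR : 16 * y ≤ Rx X ^ (1 / 72 : ℝ) := by
    unfold Rx
    rw [← Real.rpow_mul (by linarith)]
    calc 16 * y ≤ X ^ (1 / 1000 : ℝ) * X ^ ε := mul_le_mul_of_nonneg_right h3 hy0.le
      _ = X ^ (1 / 1000 + ε) := (Real.rpow_add (by linarith) _ _).symm
      _ ≤ _ := Real.rpow_le_rpow_of_exponent_le hX (by linarith)
  set Ex : Finset ℕ := univ.image l ∪ famsQ y with hEx
  set P : Finset ℕ := {p ∈ range (⌊Rx X⌋₊ + 1) | p.Prime ∧ p % 4 = 1 ∧ ¬ p ∣ W ∧ p ∉ Ex} with hP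
  set N : Fin 4 → ℝ := fun j => 2 ^ (j : ℕ) * y with hN
  set Pi : Fin 4 → Finset GaussianInt := fun j =>
    ({p ∈ famsQ y | N j < p ∧ (p : ℝ) ≤ 2 * N j ∧ p ≡ 1 [MOD W]} : Finset ℕ).image (f j) with hPi
  have hN1 : ∀ j, y ≤ N j := fun j => le_mul_of_one_le_left hy0.le (one_le_pow₀ one_le_two)
  have hN2 : ∀ j, N j ≤ 8 * y := fun j => by
    refine mul_le_mul_of_nonneg_right ?_ hy0.le
    calc (2 : ℝ) ^ (j : ℕ) ≤ 2 ^ 3 := pow_le_pow_right₀ one_le_two (by omega)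
      _ = 8 := by norm_num
  have hmod : ∀ p : ℕ, p ≡ 1 [MOD W] → p % 4 = 1 := fun p h => h.of_dvd h4
  have hmem : ∀ j, ∀ ϖ ∈ Pi j, ∃ p ∈ famsQ y, p.Prime ∧ N j < p ∧ (p : ℝ) ≤ 2 * N j ∧
      p ≡ 1 [MOD W] ∧ ϖ = f j p ∧ IsCoprime ϖ.re ϖ.im ∧ nrm ϖ = l j ^ a * p := by
    intro j ϖ hϖ
    obtain ⟨p, hp, rfl⟩ := mem_image.1 hϖ
    obtain ⟨hp1, hp2, hp3, hp4⟩ := mem_filter.1 hp
    have hp5 := ((fams_mem_Q hy0.le).1 hp1).1
    exact ⟨p, hp1, hp5, hp2, hp3, hp4, rfl, hf j p hp5 (hmod p hp4)⟩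
  have hfam : ∀ j, Fam W (l j ^ a) (N j) (Pi j) := by
    intro j
    refine ⟨fun ϖ hϖ => ?_, fun ϖ hϖ => ?_, fun ϖ hϖ ϖ' hϖ' h => ?_, fun p hp p1 p2 p3 => ?_⟩
    · obtain ⟨p, -, -, -, -, -, -, h, -⟩ := hmem j ϖ hϖ
      exact h
    · obtain ⟨p, -, p1, p2, p3, p4, -, -, h⟩ := hmem j ϖ hϖ
      exact ⟨p, p1, p2, p3, p4, h⟩
    · obtain ⟨p, -, -, -, -, -, e, -, n⟩ := hmem j ϖ hϖ
      obtain ⟨p', -, -, -, -, -, e', -, n'⟩ := hmem j ϖ' hϖ'
      rw [n, n'] at h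
      rw [e, e', Nat.eq_of_mul_eq_mul_left (pow_pos (hl j).1.pos a) h]
    · refine ⟨f j p, mem_image.2 ⟨p, mem_filter.2 ⟨(fams_mem_Q hy0.le).2
        ⟨hp, (hN1 j).trans_lt p1, by linarith [hN2 j]⟩, p1, p2, p3⟩, rfl⟩,
        (hf j p hp (hmod p p3)).2⟩
  have hW' : ∀ j, ∀ ϖ ∈ Pi j, (nrm ϖ).Coprime W := by
    intro j ϖ hϖ
    obtain ⟨p, -, -, -, -, p4, -, -, n⟩ := hmem j ϖ hϖ
    rw [n]
    refine Nat.Coprime.mul_left (Nat.Coprime.pow_left a ?_) ?_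
    · refine (Nat.Prime.coprime_iff_not_dvd (hl j).1).2 fun h => ?_
      have := Nat.le_of_dvd hW h
      have := (hl j).2.2
      omega
    · rw [Nat.Coprime, p4.gcd_eq, Nat.gcd_one_left]
  have hcop : ∀ j k, j ≠ k → ∀ ϖ ∈ Pi j, ∀ ϖ' ∈ Pi k, (nrm ϖ).Coprime (nrm ϖ') := by
    intro j k hjk ϖ hϖ ϖ' hϖ'
    obtain ⟨p, -, p1, p2, p3, -, -, -, n⟩ := hmem j ϖ hϖ
    obtain ⟨p', -, p1', p2', p3', -, -, -, n'⟩ := hmem k ϖ' hϖ'
    have hlp : ∀ (i : Fin 4) (r : ℕ), y < r → l i ≠ r := fun i r hr h => by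
      have := h1 i
      rw [h] at this
      linarith
    have hstep : ∀ j k : Fin 4, (j : ℕ) < k → 2 * N j ≤ N k := fun j k h => by
      simp only [hN]
      rw [← mul_assoc, ← pow_succ']
      exact mul_le_mul_of_nonneg_right (pow_le_pow_right₀ one_le_two h) hy0.le
    have hpp : p ≠ p' := by
      rintro rfl
      rcases lt_or_gt_of_ne (fun h => hjk (Fin.ext h)) with h | h
      · linarith [hstep j k h]
      · linarith [hstep k j h]
    rw [n, n']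
    refine Nat.Coprime.mul_left (Nat.Coprime.mul_right ?_ ?_) (Nat.Coprime.mul_right ?_ ?_)
    · exact Nat.Coprime.pow a a ((Nat.coprime_primes (hl j).1 (hl k).1).2 fun h => hjk (hinj h))
    · exact Nat.Coprime.pow_left a ((Nat.coprime_primes (hl j).1 p1').2
        (hlp j p' ((hN1 k).trans_lt p2')))
    · exact Nat.Coprime.pow_right a ((Nat.coprime_primes p1 (hl k).1).2
        (hlp k p ((hN1 j).trans_lt p2)).symm)
    · exact (Nat.coprime_primes p1 p1').2 hpp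
  have hcopP : ∀ p ∈ P, ∀ j, ∀ ϖ ∈ Pi j, ¬ p ∣ nrm ϖ := by
    intro p hp j ϖ hϖ hd
    obtain ⟨-, q1, -, -, q4⟩ := mem_filter.1 hp
    obtain ⟨p', pQ, p1, -, -, -, -, -, n⟩ := hmem j ϖ hϖ
    rw [n] at hd
    apply q4
    rcases (Nat.Prime.dvd_mul q1).1 hd with h | h
    · have := (Nat.prime_dvd_prime_iff_eq q1 (hl j).1).1 (q1.dvd_of_dvd_pow h)
      exact mem_union_left _ (mem_image.2 ⟨j, mem_univ _, this.symm⟩)
    · rw [(Nat.prime_dvd_prime_iff_eq q1 p1).1 h]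
      exact mem_union_right _ pQ
  have hgood : Good W (Rx X) η P := by
    refine ⟨Ex, ?_, fun p hp => ?_, fun p => ?_⟩
    · have s1 : ∑ p ∈ Ex, (1 / p : ℝ) ≤
          ∑ p ∈ univ.image l, (1 / p : ℝ) + ∑ p ∈ famsQ y, (1 / p : ℝ) := by
        rw [hEx, ← sum_union_inter]
        exact le_add_of_nonneg_right (sum_nonneg fun p _ => by positivity)
      have s2 : ∑ p ∈ univ.image l, (1 / p : ℝ) ≤ η / 2 := by
        rw [sum_image fun i _ j _ h => hinj h]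
        have s3 : ∀ j ∈ (univ : Finset (Fin 4)), (1 / l j : ℝ) ≤ η / 8 := by
          intro j _
          have s4 : 8 / η ≤ l j := (Nat.le_ceil _).trans (by
            have := (hl j).2.2
            exact_mod_cast (by omega : ⌈8 / η⌉₊ ≤ l j))
          have s5 : (0 : ℝ) < l j := by exact_mod_cast (hl j).1.pos
          rw [div_le_iff₀ hη] at s4
          rw [div_le_div_iff₀ s5 (by norm_num)]
          linarith
        refine (sum_le_sum s3).trans (le_of_eq ?_)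
        simp
        ring
      have s6 : 16 * Real.log 4 / Real.log y ≤ η / 2 := by
        rw [div_le_iff₀ hη] at h2
        rw [div_le_div_iff₀ (Real.log_pos hy1) two_pos]
        linarith
      linarith [fams_sum_Q hy1]
    · refine le_trans ?_ hR
      rcases mem_union.1 hp with h | h
      · obtain ⟨j, -, rfl⟩ := mem_image.1 h
        linarith [h1 j]
      · exact ((fams_mem_Q hy0.le).1 h).2.2
    · have hR0 : 0 ≤ Rx X := Real.rpow_nonneg (by linarith) _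
      rw [hP, mem_filter, mem_range, Nat.lt_succ_iff, Nat.le_floor_iff hR0]
      tauto
  refine ⟨P, Pi, fun i => ⟨hgood, ⟨N i, hN1 i, hN2 i, hfam i⟩,
    fun j => ⟨N _, hN1 _, hN2 _, hfam _⟩, hW' i, fun j => hW' _,
    fun ϖ hϖ j ϖ' hϖ' => hcop _ _ (Fin.succAbove_ne i j).symm ϖ hϖ ϖ' hϖ',
    fun j k hjk => hcop _ _ fun h => hjk (Fin.succAbove_right_injective h),
    fun p hp => hcopP p hp i, fun p hp j => hcopP p hp _⟩⟩

end Pool.Agent.P.MP_a1177c_nt.EK
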