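import Pool.Agent.P.MP_a1177c_nt.EK.Second

set_option autoImplicit false

namespace Pool.Agent.P.MP_a1177c_nt.EK

open Finset Filter
open scoped Classical

theorem finish_nrm_mul (z w : GaussianInt) : nrm (z * w) = nrm z * nrm w := by
  simp only [nrm, Zsqrtd.norm_mul, Int.natAbs_mul]

theorem finish_nrm_cast (z : GaussianInt) : (nrm z : ℤ) = z.re ^ 2 + z.im ^ 2 := by
  have h : z.norm = z.re ^ 2 + z.im ^ 2 := by
    rw [Zsqrtd.norm_def]; ring
  rw [nrm, h, Int.natAbs_of_nonneg (by positivity)]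

theorem finish_nrm_ne {z : GaussianInt} (hz : z ≠ 0) : nrm z ≠ 0 := by
  intro h
  apply hz
  have h1 := finish_nrm_cast z
  rw [h, Nat.cast_zero] at h1
  have h2 : z.re = 0 := pow_eq_zero_iff (two_ne_zero) |>.1
    (by linarith [sq_nonneg z.re, sq_nonneg z.im])
  have h3 : z.im = 0 := pow_eq_zero_iff (two_ne_zero) |>.1
    (by linarith [sq_nonneg z.re, sq_nonneg z.im])
  ext <;> simp [h2, h3]

theorem finish_nrm_one {z : GaussianInt} : nrm z = 1 ↔ IsUnit z := by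
  rw [nrm]; exact Zsqrtd.norm_eq_one_iff

theorem finish_dvd_nrm (z : GaussianInt) : z ∣ ((nrm z : ℕ) : GaussianInt) := by
  refine ⟨star z, ?_⟩
  have h := finish_nrm_cast z
  have h2 : ((nrm z : ℕ) : GaussianInt) = ((nrm z : ℤ) : GaussianInt) := by simp
  rw [h2, h]
  ext
  · rw [Zsqrtd.re_intCast]; simp; ring
  · rw [Zsqrtd.im_intCast]; simp; ring

theorem finish_nrm_nat (k : ℕ) : nrm (k : GaussianInt) = k ^ 2 := by
  have h := finish_nrm_cast (k : GaussianInt)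
  simp at h
  exact_mod_cast h

/-- The number of divisors of a Gaussian integer. -/
theorem finish_divisors (z : GaussianInt) (hz : z ≠ 0) : ∃ D : Finset GaussianInt,
    #D ≤ 9 * 2 ^ ArithmeticFunction.cardFactors (nrm z) ∧ ∀ w, w ∣ z → w ∈ D := by
  induction z using UniqueFactorizationMonoid.induction_on_prime with
  | h₁ => exact absurd rfl hz
  | h₂ u hu =>
    refine ⟨((Icc (-1 : ℤ) 1) ×ˢ (Icc (-1 : ℤ) 1)).image fun v => ⟨v.1, v.2⟩, ?_, ?_⟩
    · refine card_image_le.trans ?_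
      rw [card_product]
      have : #(Icc (-1 : ℤ) 1) = 3 := by decide
      rw [this]
      have : 1 ≤ 2 ^ ArithmeticFunction.cardFactors (nrm u) := Nat.one_le_two_pow
      omega
    · intro w hw
      have h1 : nrm w = 1 := finish_nrm_one.2 (isUnit_of_dvd_unit hw hu)
      have h2 := finish_nrm_cast w
      rw [h1] at h2
      refine mem_image.2 ⟨(w.re, w.im), ?_, rfl⟩
      simp only [mem_product, mem_Icc]
      push_cast at h2
      refine ⟨⟨?_, ?_⟩, ?_, ?_⟩ <;> nlinarith [sq_nonneg w.re, sq_nonneg w.im]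
  | h₃ z p hz0 hp ih =>
    obtain ⟨D, hD, hD'⟩ := ih hz0
    refine ⟨D ∪ D.image fun w => p * w, ?_, ?_⟩
    · have h1 : #(D ∪ D.image fun w => p * w) ≤ #D + #D :=
        (card_union_le _ _).trans (Nat.add_le_add_left card_image_le _)
      have hp0 := finish_nrm_ne hp.ne_zero
      have hp1 : nrm p ≠ 1 := fun h => hp.not_isUnit (finish_nrm_one.1 h)
      have h2 : 0 < ArithmeticFunction.cardFactors (nrm p) :=
        ArithmeticFunction.cardFactors_pos_iff_one_lt.2 (by omega)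
      rw [finish_nrm_mul, ArithmeticFunction.cardFactors_mul hp0 (finish_nrm_ne hz0)]
      have h3 : 2 ^ (1 + ArithmeticFunction.cardFactors (nrm z)) ≤
          2 ^ (ArithmeticFunction.cardFactors (nrm p) + ArithmeticFunction.cardFactors (nrm z)) :=
        Nat.pow_le_pow_right (by norm_num) (by omega)
      rw [pow_add] at h3
      omega
    · intro w hw
      rcases hp.left_dvd_or_dvd_right_of_dvd_mul hw with h | h
      · obtain ⟨w', rfl⟩ := h
        exact mem_union_right _ (mem_image.2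
          ⟨w', hD' _ ((mul_dvd_mul_iff_left hp.ne_zero).1 hw), rfl⟩)
      · exact mem_union_left _ (hD' _ h)

/-- The determinant of two of the four vectors. -/
def finishM (i j : Fin 4) : ℤ := vx i * vy j - vx j * vy i

def finishN : Fin 4 → ℕ := ![169, 194, 25, 819650]

def finishO : Fin 4 → ℕ := ![2, 2, 2, 6]

theorem finish_nG (i : Fin 4) : nrm (GG i) = finishN i := by
  fin_cases i <;> decide

theorem finish_oG (i : Fin 4) : ArithmeticFunction.cardFactors (finishN i) = finishO i := by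
  fin_cases i <;>
    simp [finishN, finishO, ArithmeticFunction.cardFactors_apply, Nat.primeFactorsList_ofNat]

theorem finish_table (i j : Fin 4) (hij : i ≠ j) : finishM i j ≠ 0 ∧
    (finishM i j).natAbs ^ 2 ∣ finishN i * finishN j ∧
    finishO i + finishO j = 2 * ArithmeticFunction.cardFactors (finishM i j).natAbs + 4 ∧
    ArithmeticFunction.cardFactors (finishM i j).natAbs ≤ 2 ∧
    (vx i + vy i) * (vx j + vy j) ≤ 726 := by
  have h169 : ArithmeticFunction.cardFactors 169 = 2 := finish_oG 0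
  have h194 : ArithmeticFunction.cardFactors 194 = 2 := finish_oG 1
  have h25 : ArithmeticFunction.cardFactors 25 = 2 := finish_oG 2
  fin_cases i <;> fin_cases j <;> simp at hij <;>
    simp [finishM, finishN, finishO, vx, vy, h169, h194, h25]

theorem finish_v_nonneg (i : Fin 4) : 0 ≤ vx i ∧ 0 ≤ vy i := by
  fin_cases i <;> simp [vx, vy]

theorem finish_det (g : SL) : g 0 0 * g 1 1 - g 0 1 * g 1 0 = 1 := by
  have h := g.det_coe
  rw [Matrix.det_fin_two] at h
  exact h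

theorem finish_lagrange (g : SL) (i j : Fin 4) : ∃ P : ℤ,
    ((nrm (LL g i) * nrm (LL g j) : ℕ) : ℤ) = P ^ 2 + finishM i j ^ 2 := by
  refine ⟨(LL g i).re * (LL g j).re + (LL g i).im * (LL g j).im, ?_⟩
  push_cast
  rw [finish_nrm_cast, finish_nrm_cast]
  have h : finishM i j = (LL g i).re * (LL g j).im - (LL g i).im * (LL g j).re := by
    have hd := finish_det g
    simp only [LL, act, finishM]
    linear_combination (-(vx i * vy j - vx j * vy i)) * hd
  rw [h]; ring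

theorem finish_inj {i j : Fin 4} (hij : i ≠ j) {g g' : SL} (h1 : LL g i = LL g' i)
    (h2 : LL g j = LL g' j) : g = g' := by
  have hm := (finish_table i j hij).1
  simp only [LL, act, Zsqrtd.mk.injEq] at h1 h2
  obtain ⟨a1, a2⟩ := h1
  obtain ⟨b1, b2⟩ := h2
  have e00 : g 0 0 = g' 0 0 := by
    apply mul_left_cancel₀ hm; simp only [finishM]
    linear_combination vy j * a1 - vy i * b1
  have e01 : g 0 1 = g' 0 1 := by
    apply mul_left_cancel₀ hm; simp only [finishM]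
    linear_combination vx i * b1 - vx j * a1
  have e10 : g 1 0 = g' 1 0 := by
    apply mul_left_cancel₀ hm; simp only [finishM]
    linear_combination vy j * a2 - vy i * b2
  have e11 : g 1 1 = g' 1 1 := by
    apply mul_left_cancel₀ hm; simp only [finishM]
    linear_combination vx i * b2 - vx j * a2
  ext r s
  fin_cases r <;> fin_cases s
  · exact e00
  · exact e01
  · exact e10
  · exact e11

theorem finish_tent {s : ℝ} (h : tent s ≠ 0) : s ≤ 3 := by
  by_contra hs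
  apply h
  have : 1 ≤ |s - 2| := le_trans (by linarith) (le_abs_self _)
  simp only [tent]
  exact max_eq_left (by linarith)

theorem finish_nrm_le {W₀ : ℕ} {X : ℝ} (hX : 0 < X) {P : Finset ℕ} {g : SL}
    (hg : base W₀ X P g ≠ 0) (i : Fin 4) :
    (nrm (LL g i) : ℝ) ≤ 3 * X * ((vx i + vy i : ℤ) : ℝ) ^ 2 := by
  have h1 : Phi0 (qA g / X) (qB g / X) (qC g / X) ≠ 0 := fun h => hg (by simp [base, h])
  simp only [Phi0, mul_ne_zero_iff] at h1
  have hA := (div_le_iff₀ hX).1 (finish_tent h1.1.1)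
  have hB := (div_le_iff₀ hX).1 (finish_tent h1.1.2)
  have hC := (div_le_iff₀ hX).1 (finish_tent h1.2)
  have h2 : (nrm (LL g i) : ℝ) =
      qA g * (vx i : ℝ) ^ 2 + 2 * qB g * (vx i * vy i) + qC g * (vy i : ℝ) ^ 2 := by
    have h := finish_nrm_cast (LL g i)
    have h' : (nrm (LL g i) : ℝ) = (((LL g i).re ^ 2 + (LL g i).im ^ 2 : ℤ) : ℝ) := by
      rw [← h]; simp
    rw [h']
    simp only [LL, act, qA, qB, qC]
    push_cast; ring
  have hx : (0 : ℝ) ≤ vx i := by exact_mod_cast (finish_v_nonneg i).1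
  have hy : (0 : ℝ) ≤ vy i := by exact_mod_cast (finish_v_nonneg i).2
  rw [h2]
  push_cast
  have t1 := mul_le_mul_of_nonneg_right hA (sq_nonneg (vx i : ℝ))
  have t2 := mul_le_mul_of_nonneg_right hB (mul_nonneg hx hy)
  have t3 := mul_le_mul_of_nonneg_right hC (sq_nonneg (vy i : ℝ))
  nlinarith

/-- The event that the form has the required factorisation. -/
def finishEv (R : ℝ) (Pi : Fin 4 → Finset GaussianInt) (i : Fin 4) (g : SL) : Prop :=
  ∃ ϖ ∈ Pi i, ϖ ∣ LL g i ∧ ∃ e, E3 R e ∧ nrm (LL g i) / nrm ϖ = nrm (GG i) * e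

theorem finish_ev {a W q : ℕ} {R N : ℝ} {Pi : Fin 4 → Finset GaussianInt} {i : Fin 4} {g : SL}
    (hq : 0 < q ∧ ArithmeticFunction.cardFactors q = a) (hF : Fam W q N (Pi i))
    (h : finishEv R Pi i g) : nrm (LL g i) ≠ 0 ∧ finishN i ∣ nrm (LL g i) ∧
      ArithmeticFunction.cardFactors (nrm (LL g i)) = a + 4 + finishO i := by
  obtain ⟨ϖ, hϖ, ⟨μ, hμ⟩, e, ⟨p₁, p₂, p₃, h1, h2, h3, -, -, -, -, -, -, -, he⟩, hn⟩ := h
  obtain ⟨p, hp, -, -, -, hnp⟩ := hF.mem ϖ hϖ
  have hpos : 0 < nrm ϖ := by rw [hnp]; exact Nat.mul_pos hq.1 hp.pos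
  rw [hμ, finish_nrm_mul, Nat.mul_div_cancel_left _ hpos, finish_nG] at hn
  have hN : finishN i ≠ 0 := by fin_cases i <;> simp [finishN]
  have he0 : e ≠ 0 := by
    rw [he]; exact mul_ne_zero (mul_ne_zero h1.ne_zero h2.ne_zero) h3.ne_zero
  have hoe : ArithmeticFunction.cardFactors e = 3 := by
    rw [he, ArithmeticFunction.cardFactors_mul (mul_ne_zero h1.ne_zero h2.ne_zero) h3.ne_zero,
      ArithmeticFunction.cardFactors_mul h1.ne_zero h2.ne_zero,
      ArithmeticFunction.cardFactors_apply_prime h1, ArithmeticFunction.cardFactors_apply_prime h2,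
      ArithmeticFunction.cardFactors_apply_prime h3]
  rw [hμ, finish_nrm_mul, hn]
  refine ⟨mul_ne_zero hpos.ne' (mul_ne_zero hN he0), Dvd.dvd.mul_left (dvd_mul_right _ _) _, ?_⟩
  rw [ArithmeticFunction.cardFactors_mul hpos.ne' (mul_ne_zero hN he0),
    ArithmeticFunction.cardFactors_mul hN he0, hnp,
    ArithmeticFunction.cardFactors_mul hq.1.ne' hp.ne_zero, hq.2,
    ArithmeticFunction.cardFactors_apply_prime hp, hoe, finish_oG]
  omega

theorem finish_key {a W₀ W : ℕ} {q : Fin 4 → ℕ} {X R : ℝ} (hX : 0 < X) {P : Finset ℕ}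
    {Pi : Fin 4 → Finset GaussianInt}
    (hq : ∀ j, 0 < q j ∧ ArithmeticFunction.cardFactors (q j) = a)
    (hF : ∀ j, ∃ N, Fam W (q j) N (Pi j)) {i j : Fin 4} (hij : i ≠ j) {g : SL}
    (hg : base W₀ X P g ≠ 0) (hi : finishEv R Pi i g) (hj : finishEv R Pi j g) :
    ∃ n ∈ {n ∈ range (⌊2200 * X⌋₊ + 1) |
        ArithmeticFunction.cardFactors (n ^ 2 + 1) = 12 + 2 * a},
      nrm (LL g i) * nrm (LL g j) = (finishM i j).natAbs ^ 2 * (n ^ 2 + 1) := by
  obtain ⟨hm, hd, ho, -, hs⟩ := finish_table i j hij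
  obtain ⟨Ni, hFi⟩ := hF i
  obtain ⟨Nj, hFj⟩ := hF j
  obtain ⟨i0, i1, i2⟩ := finish_ev (hq i) hFi hi
  obtain ⟨j0, j1, j2⟩ := finish_ev (hq j) hFj hj
  obtain ⟨Q, hQ⟩ := finish_lagrange g i j
  have hd1 : (finishM i j).natAbs ^ 2 ∣ nrm (LL g i) * nrm (LL g j) :=
    hd.trans (mul_dvd_mul i1 j1)
  have hd2 : finishM i j ^ 2 ∣ Q ^ 2 := by
    have h1 : (((finishM i j).natAbs ^ 2 : ℕ) : ℤ) ∣ ((nrm (LL g i) * nrm (LL g j) : ℕ) : ℤ) :=
      Int.natCast_dvd_natCast.2 hd1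
    rw [hQ] at h1
    push_cast at h1
    rw [sq_abs] at h1
    exact (dvd_add_left (dvd_refl _)).1 h1
  obtain ⟨t, ht⟩ := (Int.pow_dvd_pow_iff two_ne_zero).1 hd2
  have heq : nrm (LL g i) * nrm (LL g j) = (finishM i j).natAbs ^ 2 * (t.natAbs ^ 2 + 1) := by
    have : ((nrm (LL g i) * nrm (LL g j) : ℕ) : ℤ) =
        (((finishM i j).natAbs ^ 2 * (t.natAbs ^ 2 + 1) : ℕ) : ℤ) := by
      rw [hQ, ht]; push_cast; rw [sq_abs, sq_abs]; ring
    exact_mod_cast this
  have hm0 : (finishM i j).natAbs ≠ 0 := Int.natAbs_ne_zero.2 hm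
  refine ⟨t.natAbs, mem_filter.2 ⟨mem_range.2 (Nat.lt_succ_of_le (Nat.le_floor ?_)), ?_⟩, heq⟩
  · have b1 := finish_nrm_le hX hg i
    have b2 := finish_nrm_le hX hg j
    have h1 : t.natAbs ^ 2 ≤ nrm (LL g i) * nrm (LL g j) := by
      rw [heq]
      have : 1 ≤ (finishM i j).natAbs ^ 2 := Nat.one_le_pow _ _ (Nat.pos_of_ne_zero hm0)
      nlinarith
    have h2 : ((t.natAbs : ℕ) : ℝ) ^ 2 ≤ (nrm (LL g i) : ℝ) * nrm (LL g j) := by exact_mod_cast h1
    have h3 := mul_le_mul b1 b2 (Nat.cast_nonneg _) (by positivity)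
    have hs' : ((vx i + vy i : ℤ) : ℝ) * ((vx j + vy j : ℤ) : ℝ) ≤ 726 := by exact_mod_cast hs
    have hs0 : (0 : ℝ) ≤ ((vx i + vy i : ℤ) : ℝ) * ((vx j + vy j : ℤ) : ℝ) := by
      have := finish_v_nonneg i
      have := finish_v_nonneg j
      exact_mod_cast mul_nonneg (by omega) (by omega)
    have h4 : (((vx i + vy i : ℤ) : ℝ) * ((vx j + vy j : ℤ) : ℝ)) ^ 2 ≤ 726 ^ 2 :=
      pow_le_pow_left₀ hs0 hs' 2
    have h5 : ((t.natAbs : ℕ) : ℝ) ^ 2 ≤ (2200 * X) ^ 2 := by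
      have e : 3 * X * ((vx i + vy i : ℤ) : ℝ) ^ 2 * (3 * X * ((vx j + vy j : ℤ) : ℝ) ^ 2) =
          9 * X ^ 2 * (((vx i + vy i : ℤ) : ℝ) * ((vx j + vy j : ℤ) : ℝ)) ^ 2 := by ring
      have h6 := mul_le_mul_of_nonneg_left h4 (by positivity : (0 : ℝ) ≤ 9 * X ^ 2)
      nlinarith [sq_nonneg X]
    exact (pow_le_pow_iff_left₀ (Nat.cast_nonneg _) (by positivity) two_ne_zero).1 h5
  · have h1 := congrArg ArithmeticFunction.cardFactors heq
    rw [ArithmeticFunction.cardFactors_mul i0 j0,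
      ArithmeticFunction.cardFactors_mul (pow_ne_zero 2 hm0) (by positivity),
      ArithmeticFunction.cardFactors_pow, i2, j2] at h1
    omega

theorem finish_fibre (a : ℕ) {i j : Fin 4} (hij : i ≠ j) (T : Finset SL) (n : ℕ)
    (hn : ArithmeticFunction.cardFactors (n ^ 2 + 1) = 12 + 2 * a) :
    #{g ∈ T | nrm (LL g i) * nrm (LL g j) = (finishM i j).natAbs ^ 2 * (n ^ 2 + 1)} ≤
      (9 * 2 ^ (32 + 4 * a)) ^ 2 := by
  obtain ⟨hm, -, -, ho, -⟩ := finish_table i j hij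
  have hm0 : (finishM i j).natAbs ≠ 0 := Int.natAbs_ne_zero.2 hm
  set M : ℕ := (finishM i j).natAbs ^ 2 * (n ^ 2 + 1) with hM
  have hM0 : M ≠ 0 := mul_ne_zero (pow_ne_zero 2 hm0) (by positivity)
  obtain ⟨D, hD, hD'⟩ := finish_divisors (M : GaussianInt) (Nat.cast_ne_zero.2 hM0)
  have hO : ArithmeticFunction.cardFactors (nrm (M : GaussianInt)) ≤ 32 + 4 * a := by
    rw [finish_nrm_nat, ArithmeticFunction.cardFactors_pow, hM,
      ArithmeticFunction.cardFactors_mul (pow_ne_zero 2 hm0) (by positivity),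
      ArithmeticFunction.cardFactors_pow, hn]
    omega
  have hD2 : #D ≤ 9 * 2 ^ (32 + 4 * a) :=
    hD.trans (Nat.mul_le_mul_left _ (Nat.pow_le_pow_right (by norm_num) hO))
  have h1 : #{g ∈ T | nrm (LL g i) * nrm (LL g j) = M} ≤ #(D ×ˢ D) := by
    refine card_le_card_of_injOn (fun g => (LL g i, LL g j)) ?_ ?_
    · intro g hg
      have hg' := (mem_filter.1 (mem_coe.1 hg)).2
      have hc : (M : GaussianInt) = (nrm (LL g i) : ℕ) * (nrm (LL g j) : ℕ) := by
        rw [← hg']; push_cast; ring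
      refine mem_coe.2 (mem_product.2 ⟨hD' _ ?_, hD' _ ?_⟩)
      · rw [hc]; exact (finish_dvd_nrm _).mul_right _
      · rw [hc]; exact (finish_dvd_nrm _).mul_left _
    · intro g _ g' _ h
      exact finish_inj hij (congrArg Prod.fst h) (congrArg Prod.snd h)
  rw [card_product] at h1
  refine h1.trans ?_
  rw [sq]
  exact Nat.mul_le_mul hD2 hD2

theorem finish_count {a W₀ W : ℕ} {q : Fin 4 → ℕ} {X R : ℝ} (hX : 0 < X) {P : Finset ℕ}
    {Pi : Fin 4 → Finset GaussianInt}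
    (hq : ∀ j, 0 < q j ∧ ArithmeticFunction.cardFactors (q j) = a)
    (hF : ∀ j, ∃ N, Fam W (q j) N (Pi j)) (T : Finset SL) (hT : ∀ g ∈ T, base W₀ X P g ≠ 0) :
    #{g ∈ T | ∃ i j, i ≠ j ∧ finishEv R Pi i g ∧ finishEv R Pi j g} ≤
      16 * (9 * 2 ^ (32 + 4 * a)) ^ 2 * #{n ∈ range (⌊2200 * X⌋₊ + 1) |
        ArithmeticFunction.cardFactors (n ^ 2 + 1) = 12 + 2 * a} := by
  set A := {n ∈ range (⌊2200 * X⌋₊ + 1) |
        ArithmeticFunction.cardFactors (n ^ 2 + 1) = 12 + 2 * a} with hA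
  have hsub : {g ∈ T | ∃ i j, i ≠ j ∧ finishEv R Pi i g ∧ finishEv R Pi j g} ⊆
      ((univ : Finset (Fin 4)).offDiag ×ˢ A).biUnion fun v =>
        {g ∈ T | nrm (LL g v.1.1) * nrm (LL g v.1.2) =
          (finishM v.1.1 v.1.2).natAbs ^ 2 * (v.2 ^ 2 + 1)} := by
    intro g hg
    obtain ⟨hgT, i, j, hij, hi, hj⟩ := mem_filter.1 hg
    obtain ⟨n, hn, he⟩ := finish_key hX hq hF hij (hT g hgT) hi hj
    exact mem_biUnion.2 ⟨((i, j), n), mem_product.2 ⟨mem_offDiag.2 ⟨mem_univ _, mem_univ _, hij⟩,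
      hn⟩, mem_filter.2 ⟨hgT, he⟩⟩
  refine (card_le_card hsub).trans ((card_biUnion_le_card_mul _ _
    ((9 * 2 ^ (32 + 4 * a)) ^ 2) ?_).trans ?_)
  · rintro ⟨⟨i, j⟩, n⟩ hv
    obtain ⟨h1, h2⟩ := mem_product.1 hv
    exact finish_fibre a (mem_offDiag.1 h1).2.2 T n (mem_filter.1 h2).2
  · rw [card_product]
    have : #(univ : Finset (Fin 4)).offDiag ≤ 16 := by decide
    calc _ ≤ 16 * #A * (9 * 2 ^ (32 + 4 * a)) ^ 2 := by gcongr
      _ = _ := by ring

theorem finish_ind_nonneg (p : Prop) : 0 ≤ ind p := by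
  unfold ind; split_ifs <;> norm_num

theorem finish_base_nonneg (W₀ : ℕ) (X : ℝ) (P : Finset ℕ) (g : SL) : 0 ≤ base W₀ X P g := by
  have ht : ∀ s, 0 ≤ tent s := fun s => le_max_left _ _
  refine mul_nonneg (mul_nonneg ?_ (prod_nonneg fun j _ => finish_ind_nonneg _)) (sq_nonneg _)
  exact mul_nonneg (mul_nonneg (ht _) (ht _)) (ht _)

theorem finish_e_le (R : ℝ) (Pi : Fin 4 → Finset GaussianInt) (i : Fin 4) (g : SL) :
    ∑ ϖ ∈ Pi i, ind (ϖ ∣ LL g i) * chiE (nrm (GG i)) R (nrm (LL g i) / nrm ϖ) ≤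
      nu (Pi i) (LL g i) * ind (finishEv R Pi i g) := by
  have h1 : nu (Pi i) (LL g i) = ∑ ϖ ∈ Pi i, ind (ϖ ∣ LL g i) := by
    simp only [nu, ind, card_filter]
    push_cast
    refine sum_congr rfl fun x _ => ?_
    congr
  rw [h1, sum_mul]
  refine sum_le_sum fun ϖ hϖ => ?_
  by_cases hd : ϖ ∣ LL g i
  · refine mul_le_mul_of_nonneg_left ?_ (finish_ind_nonneg _)
    by_cases he : ∃ e, E3 R e ∧ nrm (LL g i) / nrm ϖ = nrm (GG i) * e
    · have : finishEv R Pi i g := ⟨ϖ, hϖ, hd, he⟩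
      simp only [chiE, ind, if_pos he, if_pos this, le_refl]
    · have : chiE (nrm (GG i)) R (nrm (LL g i) / nrm ϖ) = 0 := by
        simp only [chiE, ind, if_neg he]
      rw [this]; exact finish_ind_nonneg _
  · have : ind (ϖ ∣ LL g i) = 0 := by simp only [ind, if_neg hd]
    rw [this]; simp

theorem finish_ind_sum (E : Fin 4 → Prop) :
    ∑ i, ind (E i) - 1 ≤ 3 * ind (∃ i j, i ≠ j ∧ E i ∧ E j) := by
  by_cases h : ∃ i j, i ≠ j ∧ E i ∧ E j
  · have h1 : ∀ i, ind (E i) ≤ 1 := fun i => by unfold ind; split_ifs <;> norm_num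
    have h2 : ind (∃ i j, i ≠ j ∧ E i ∧ E j) = 1 := by simp only [ind, if_pos h]
    rw [h2, Fin.sum_univ_four]
    linarith [h1 0, h1 1, h1 2, h1 3]
  · have h2 : ind (∃ i j, i ≠ j ∧ E i ∧ E j) = 0 := by simp only [ind, if_neg h]
    rw [h2]
    by_cases h3 : ∃ i, E i
    · obtain ⟨i, hi⟩ := h3
      rw [sum_eq_single i]
      · simp [ind, hi]
      · intro j _ hj
        have : ¬ E j := fun hj' => h ⟨j, i, hj, hj', hi⟩
        simp [ind, this]
      · intro hi'; exact absurd (mem_univ i) hi'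
    · have : ∀ i, ind (E i) = 0 := fun i => by
        have : ¬ E i := fun hi => h3 ⟨i, hi⟩
        simp [ind, this]
      simp [this]

theorem finish (a : ℕ) (c : ℝ) (hc : 0 < c) : ∃ C : ℕ, ∀ᶠ X : ℝ in atTop,
    ∀ (W₀ W : ℕ) (q : Fin 4 → ℕ) (P : Finset ℕ) (Pi : Fin 4 → Finset GaussianInt),
    (∀ j, 0 < q j ∧ ArithmeticFunction.cardFactors (q j) = a) → (∀ p ∈ P, p.Prime) →
    (∀ j, ∃ N, Fam W (q j) N (Pi j)) →
    c * X ≤ ∑ i, S2 W₀ X P Pi i - S1 W₀ X P Pi →
      X / Real.log X ^ C ≤ #{n ∈ range (⌊2200 * X⌋₊ + 1) |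
        ArithmeticFunction.cardFactors (n ^ 2 + 1) = 12 + 2 * a} := by
  obtain ⟨C, hC⟩ := second_moment
  set K : ℕ := 16 * (9 * 2 ^ (32 + 4 * a)) ^ 2 with hK
  refine ⟨C + 1, ?_⟩
  filter_upwards [hC, eventually_gt_atTop (1 : ℝ),
    Real.tendsto_log_atTop.eventually_ge_atTop (9 * K / c ^ 2)] with X h2 hX1 hL
  intro W₀ W q P Pi hq hP hF hS
  obtain ⟨hfin, hsec⟩ := h2 W₀ W q P Pi hP hF
  have hX : 0 < X := by linarith
  have hlog : 0 < Real.log X := Real.log_pos hX1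
  set T := hfin.toFinset with hT
  have hT0 : ∀ g ∉ T, base W₀ X P g = 0 := fun g hg => by
    by_contra h
    exact hg (hfin.mem_toFinset.2 h)
  have hT1 : ∀ g ∈ T, base W₀ X P g ≠ 0 := fun g hg => hfin.mem_toFinset.1 hg
  set w : SL → ℝ := fun g => base W₀ X P g * ∏ j, nu (Pi j) (LL g j) with hw
  have hnu : ∀ j z, 0 ≤ nu (Pi j) z := fun j z => Nat.cast_nonneg _
  have hw0 : ∀ g, 0 ≤ w g := fun g =>
    mul_nonneg (finish_base_nonneg _ _ _ _) (prod_nonneg fun j _ => hnu _ _)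
  have e1 : S1 W₀ X P Pi = ∑ g ∈ T, w g :=
    tsum_eq_sum fun g hg => by rw [hT0 g hg, zero_mul]
  have e2 : ∀ i, S2 W₀ X P Pi i ≤ ∑ g ∈ T, w g * ind (finishEv (Rx X) Pi i g) := by
    intro i
    rw [S2, tsum_eq_sum (s := T) fun g hg => by rw [hT0 g hg, zero_mul, zero_mul]]
    refine sum_le_sum fun g _ => ?_
    have h1 := finish_e_le (Rx X) Pi i g
    have h3 := mul_le_mul_of_nonneg_right
      (mul_le_mul_of_nonneg_left h1 (finish_base_nonneg W₀ X P g))
      (prod_nonneg fun (j : Fin 3) (_ : j ∈ univ) => hnu (i.succAbove j) (LL g (i.succAbove j)))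
    refine h3.trans (le_of_eq ?_)
    simp only [hw]
    rw [Fin.prod_univ_succAbove (fun j => nu (Pi j) (LL g j)) i]
    ring
  have e3 : ∑ g ∈ T, w g ^ 2 ≤ X * Real.log X ^ C := by
    rw [tsum_eq_sum (s := T) fun g hg => by rw [hT0 g hg, zero_mul]; simp] at hsec
    exact hsec
  set B := {g ∈ T | ∃ i j, i ≠ j ∧ finishEv (Rx X) Pi i g ∧ finishEv (Rx X) Pi j g} with hB
  have e4 : c * X ≤ 3 * ∑ g ∈ B, w g := by
    refine hS.trans ?_
    have h1 : ∑ i, S2 W₀ X P Pi i ≤ ∑ g ∈ T, w g * ∑ i, ind (finishEv (Rx X) Pi i g) := by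
      refine (sum_le_sum fun i _ => e2 i).trans (le_of_eq ?_)
      rw [sum_comm]
      exact sum_congr rfl fun g _ => (mul_sum _ _ _).symm
    have h3 : ∑ g ∈ T, w g * ∑ i, ind (finishEv (Rx X) Pi i g) - ∑ g ∈ T, w g ≤
        3 * ∑ g ∈ B, w g := by
      rw [← sum_sub_distrib, hB, sum_filter, mul_sum]
      refine sum_le_sum fun g _ => ?_
      have h4 := mul_le_mul_of_nonneg_left
        (finish_ind_sum fun i => finishEv (Rx X) Pi i g) (hw0 g)
      refine le_trans (le_of_eq (by ring)) (h4.trans (le_of_eq ?_))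
      unfold ind
      split_ifs <;> ring
    rw [e1]; linarith
  have e5 : (∑ g ∈ B, w g) ^ 2 ≤ #B * (X * Real.log X ^ C) := by
    refine sq_sum_le_card_mul_sum_sq.trans (mul_le_mul_of_nonneg_left (le_trans ?_ e3)
      (Nat.cast_nonneg _))
    exact sum_le_sum_of_subset_of_nonneg (filter_subset _ _) fun g _ _ => sq_nonneg _
  have e6 := finish_count (R := Rx X) hX hq hF T hT1
  set A := {n ∈ range (⌊2200 * X⌋₊ + 1) |
        ArithmeticFunction.cardFactors (n ^ 2 + 1) = 12 + 2 * a} with hA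
  have e7 : (#B : ℝ) ≤ K * #A := by exact_mod_cast e6
  have e8 : (c * X) ^ 2 ≤ 9 * (K * #A * (X * Real.log X ^ C)) := by
    have h1 := pow_le_pow_left₀ (by positivity) e4 2
    have h3 := mul_le_mul_of_nonneg_right e7 (by positivity : 0 ≤ X * Real.log X ^ C)
    nlinarith
  have e9 : 9 * (K : ℝ) ≤ Real.log X * c ^ 2 := (div_le_iff₀ (by positivity)).1 hL
  rw [div_le_iff₀ (by positivity)]
  have e10 : c ^ 2 * X * X ≤ c ^ 2 * X * (#A * Real.log X ^ (C + 1)) := by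
    have h1 := mul_le_mul_of_nonneg_right e9
      (by positivity : (0 : ℝ) ≤ #A * (X * Real.log X ^ C))
    calc c ^ 2 * X * X = (c * X) ^ 2 := by ring
      _ ≤ 9 * K * (#A * (X * Real.log X ^ C)) := by linarith
      _ ≤ _ := h1
      _ = _ := by ring
  exact le_of_mul_le_mul_left e10 (by positivity)

end Pool.Agent.P.MP_a1177c_nt.EK
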