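import Pool.Agent.P.MP_a1177c_nt.EK.Solv

set_option autoImplicit false

namespace Pool.Agent.P.MP_a1177c_nt.EK

open Finset Filter
open scoped Classical

def tvB : Fin 4 → ℤ := ![0, -1, 0, -31]
def tvD : Fin 4 → ℤ := ![1, 0, 1, -27]

theorem tv_det (i : Fin 4) : vx i * tvD i - tvB i * vy i = 1 := by
  fin_cases i <;> decide

/-- A matrix with first column the `i`-th vector. -/
def tvS (i : Fin 4) : SL :=
  ⟨!![vx i, tvB i; vy i, tvD i], by rw [Matrix.det_fin_two_of]; exact tv_det i⟩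

/-- The configuration seen from the `i`-th form. -/
def tvGeo (i : Fin 4) : Geo where
  a j := tvD i * vx (i.succAbove j) - tvB i * vy (i.succAbove j)
  b j := vx i * vy (i.succAbove j) - vy i * vx (i.succAbove j)
  G₀ := GG i
  G j := GG (i.succAbove j)

/-- The weight in the new coordinates. -/
noncomputable def tvPhi (a b c d x y z : ℝ) : ℝ :=
  Phi0 (d * d * x + -(2 * (d * c)) * y + c * c * z)
    (-(d * b) * x + (d * a + b * c) * y + -(c * a) * z)
    (b * b * x + -(2 * (a * b)) * y + a * a * z)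

theorem tv_tent_nonneg (s : ℝ) : 0 ≤ tent s := le_max_left _ _

theorem tv_tent_le (s : ℝ) : tent s ≤ 1 :=
  max_le zero_le_one (by linarith [abs_nonneg (s - 2)])

theorem tv_tent_lip (s t : ℝ) : |tent s - tent t| ≤ |s - t| := by
  unfold tent
  rw [max_comm 0, max_comm 0]
  refine (abs_max_sub_max_le_abs _ _ _).trans ?_
  have := abs_abs_sub_abs_le_abs_sub (t - 2) (s - 2)
  rw [show 1 - |s - 2| - (1 - |t - 2|) = |t - 2| - |s - 2| by ring]
  rwa [show t - 2 - (s - 2) = t - s by ring, abs_sub_comm t s] at this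

theorem tv_tent_supp {s : ℝ} (h : tent s ≠ 0) : 1 ≤ s ∧ s ≤ 3 := by
  have : |s - 2| ≤ 1 := by
    by_contra hc
    exact h (max_eq_left (by linarith [not_le.1 hc]))
  rw [abs_le] at this
  constructor <;> linarith [this.1, this.2]

theorem tv_phi_lip (x y z x' y' z' : ℝ) :
    |Phi0 x y z - Phi0 x' y' z'| ≤ |x - x'| + |y - y'| + |z - z'| := by
  unfold Phi0
  have e : tent x * tent y * tent z - tent x' * tent y' * tent z' =
      (tent x - tent x') * (tent y * tent z) + (tent y - tent y') * (tent x' * tent z) +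
        (tent z - tent z') * (tent x' * tent y') := by ring
  have h : ∀ s t u v : ℝ, |(tent s - tent t) * (tent u * tent v)| ≤ |s - t| := fun s t u v => by
    have h0 := mul_nonneg (tv_tent_nonneg u) (tv_tent_nonneg v)
    have h1 : tent u * tent v ≤ 1 := mul_le_one₀ (tv_tent_le u) (tv_tent_nonneg v) (tv_tent_le v)
    rw [abs_mul, abs_of_nonneg h0]
    nlinarith [tv_tent_lip s t, abs_nonneg (tent s - tent t)]
  rw [e]
  refine (abs_add_three _ _ _).trans ?_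
  linarith [h x x' y z, h y y' x' z, h z z' x' y']

theorem tv_lin {u v w M : ℝ} (hu : |u| ≤ M) (hv : |v| ≤ M) (hw : |w| ≤ M) (x y z : ℝ) :
    |u * x + v * y + w * z| ≤ M * (|x| + |y| + |z|) := by
  refine (abs_add_three _ _ _).trans ?_
  rw [abs_mul, abs_mul, abs_mul]
  nlinarith [mul_le_mul_of_nonneg_right hu (abs_nonneg x),
    mul_le_mul_of_nonneg_right hv (abs_nonneg y), mul_le_mul_of_nonneg_right hw (abs_nonneg z)]

theorem tv_wt {a b c d : ℝ} (hdet : a * d - b * c = 1) (ha : 0 ≤ a) (hc : 0 ≤ c)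
    (hac : 1 ≤ a + c) : ∃ C₀, Wt3 1 C₀ (tvPhi a b c d) := by
  obtain ⟨K, hK⟩ : ∃ K, K = |a| + |b| + |c| + |d| := ⟨_, rfl⟩
  have pa := abs_nonneg a
  have pb := abs_nonneg b
  have pc := abs_nonneg c
  have pd := abs_nonneg d
  have ka : |a| ≤ K := by linarith
  have kb : |b| ≤ K := by linarith
  have kc : |c| ≤ K := by linarith
  have kd : |d| ≤ K := by linarith
  have hp : ∀ {u v : ℝ}, |u| ≤ K → |v| ≤ K → |u * v| ≤ K * K := fun hu hv => by
    rw [abs_mul]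
    exact mul_le_mul hu hv (abs_nonneg _) ((abs_nonneg _).trans hu)
  have hK2 : 0 ≤ K * K := mul_self_nonneg K
  have h1 : ∀ {u v : ℝ}, |u| ≤ K → |v| ≤ K → |u * v| ≤ 2 * (K * K) := fun hu hv => by
    linarith [hp hu hv]
  have h1' : ∀ {u v : ℝ}, |u| ≤ K → |v| ≤ K → |-(u * v)| ≤ 2 * (K * K) := fun hu hv => by
    rw [abs_neg]; exact h1 hu hv
  have h2 : ∀ {u v : ℝ}, |u| ≤ K → |v| ≤ K → |2 * (u * v)| ≤ 2 * (K * K) := fun hu hv => by
    rw [abs_mul, abs_two]; linarith [hp hu hv]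
  have h2' : ∀ {u v : ℝ}, |u| ≤ K → |v| ≤ K → |-(2 * (u * v))| ≤ 2 * (K * K) := fun hu hv => by
    rw [abs_neg]; exact h2 hu hv
  have h3 : ∀ {u v u' v' : ℝ}, |u| ≤ K → |v| ≤ K → |u'| ≤ K → |v'| ≤ K →
      |u * v + u' * v'| ≤ 2 * (K * K) := fun hu hv hu' hv' => by
    refine (abs_add_le _ _).trans ?_
    linarith [hp hu hv, hp hu' hv']
  refine ⟨18 * (K * K), one_pos, fun x y z => ?_, fun x y z => ?_, fun x y z x' y' z' => ?_,
    fun x y z h => ?_, ?_⟩
  · exact mul_nonneg (mul_nonneg (tv_tent_nonneg _) (tv_tent_nonneg _)) (tv_tent_nonneg _)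
  · exact mul_le_one₀ (mul_le_one₀ (tv_tent_le _) (tv_tent_nonneg _) (tv_tent_le _))
      (tv_tent_nonneg _) (tv_tent_le _)
  · refine (tv_phi_lip _ _ _ _ _ _).trans ?_
    have l1 := tv_lin (h1 kd kd) (h2' kd kc) (h1 kc kc) (x - x') (y - y') (z - z')
    have l2 := tv_lin (h1' kd kb) (h3 kd ka kb kc) (h1' kc ka) (x - x') (y - y') (z - z')
    have l3 := tv_lin (h1 kb kb) (h2' ka kb) (h1 ka ka) (x - x') (y - y') (z - z')
    have e : ∀ u v w : ℝ, u * x + v * y + w * z - (u * x' + v * y' + w * z') =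
        u * (x - x') + v * (y - y') + w * (z - z') := fun u v w => by ring
    rw [e, e, e]
    have : 0 ≤ K * K * (|x - x'| + |y - y'| + |z - z'|) := by positivity
    linarith
  · obtain ⟨X, hX⟩ : ∃ X, X = d * d * x + -(2 * (d * c)) * y + c * c * z := ⟨_, rfl⟩
    obtain ⟨Y, hY⟩ : ∃ Y, Y = -(d * b) * x + (d * a + b * c) * y + -(c * a) * z := ⟨_, rfl⟩
    obtain ⟨Z, hZ⟩ : ∃ Z, Z = b * b * x + -(2 * (a * b)) * y + a * a * z := ⟨_, rfl⟩
    unfold tvPhi Phi0 at h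
    rw [← hX, ← hY, ← hZ] at h
    obtain ⟨X1, X3⟩ := tv_tent_supp (left_ne_zero_of_mul (left_ne_zero_of_mul h))
    obtain ⟨Y1, Y3⟩ := tv_tent_supp (right_ne_zero_of_mul (left_ne_zero_of_mul h))
    obtain ⟨Z1, Z3⟩ := tv_tent_supp (right_ne_zero_of_mul h)
    have ex : x = a * a * X + 2 * (a * c) * Y + c * c * Z := by
      rw [hX, hY, hZ]; linear_combination (-x * (a * d - b * c + 1)) * hdet
    have ey : y = a * b * X + (a * d + b * c) * Y + c * d * Z := by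
      rw [hX, hY, hZ]; linear_combination (-y * (a * d - b * c + 1)) * hdet
    have ez : z = b * b * X + 2 * (b * d) * Y + d * d * Z := by
      rw [hX, hY, hZ]; linear_combination (-z * (a * d - b * c + 1)) * hdet
    have l1 := tv_lin (h1 ka ka) (h2 ka kc) (h1 kc kc) X Y Z
    have l2 := tv_lin (h1 ka kb) (h3 ka kd kb kc) (h1 kc kd) X Y Z
    have l3 := tv_lin (h1 kb kb) (h2 kb kd) (h1 kd kd) X Y Z
    rw [← ex] at l1
    rw [← ey] at l2
    rw [← ez] at l3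
    rw [abs_of_nonneg (by linarith : 0 ≤ X), abs_of_nonneg (by linarith : 0 ≤ Y),
      abs_of_nonneg (by linarith : 0 ≤ Z)] at l1 l2 l3
    have hb : 2 * (K * K) * (X + Y + Z) ≤ 18 * (K * K) := by nlinarith
    refine ⟨?_, (le_abs_self x).trans (l1.trans hb), l2.trans hb, l3.trans hb⟩
    rw [ex]
    nlinarith [mul_le_mul_of_nonneg_left X1 (mul_nonneg ha ha),
      mul_le_mul_of_nonneg_left Y1 (mul_nonneg ha hc),
      mul_le_mul_of_nonneg_left Z1 (mul_nonneg hc hc)]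
  · refine ⟨2 * (a + c) ^ 2, 2 * (a + c) * (b + d), ?_⟩
    have hne : a + c ≠ 0 := by linarith
    have e : (2 * (a + c) * (b + d)) ^ 2 / (2 * (a + c) ^ 2) = 2 * (b + d) ^ 2 := by
      field_simp
    rw [e]
    unfold tvPhi
    have e1 : d * d * (2 * (a + c) ^ 2) + -(2 * (d * c)) * (2 * (a + c) * (b + d)) +
        c * c * (2 * (b + d) ^ 2) = 2 := by
      linear_combination (2 * (a * d - b * c + 1)) * hdet
    have e2 : -(d * b) * (2 * (a + c) ^ 2) + (d * a + b * c) * (2 * (a + c) * (b + d)) +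
        -(c * a) * (2 * (b + d) ^ 2) = 2 := by
      linear_combination (2 * (a * d - b * c + 1)) * hdet
    have e3 : b * b * (2 * (a + c) ^ 2) + -(2 * (a * b)) * (2 * (a + c) * (b + d)) +
        a * a * (2 * (b + d) ^ 2) = 2 := by
      linear_combination (2 * (a * d - b * c + 1)) * hdet
    rw [e1, e2, e3]
    simp [Phi0, tent]

theorem tv_e00 (g : SL) (i : Fin 4) (r : Fin 2) :
    (g * tvS i) r 0 = g r 0 * vx i + g r 1 * vy i := by
  rw [Matrix.SpecialLinearGroup.coe_mul, Matrix.mul_apply, Fin.sum_univ_two]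
  rfl

theorem tv_e01 (g : SL) (i : Fin 4) (r : Fin 2) :
    (g * tvS i) r 1 = g r 0 * tvB i + g r 1 * tvD i := by
  rw [Matrix.SpecialLinearGroup.coe_mul, Matrix.mul_apply, Fin.sum_univ_two]
  rfl

theorem tv_act0 (g : SL) (i : Fin 4) : act (g * tvS i) 1 0 = LL g i := by
  unfold LL act
  simp only [tv_e00, tv_e01, mul_one, mul_zero, add_zero]

theorem tv_act (g : SL) (i : Fin 4) (j : Fin 3) :
    act (g * tvS i) ((tvGeo i).a j) ((tvGeo i).b j) = LL g (i.succAbove j) := by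
  unfold LL act
  simp only [tv_e00, tv_e01, tvGeo]
  have h := tv_det i
  congr 1
  · linear_combination (g 0 0 * vx (i.succAbove j) + g 0 1 * vy (i.succAbove j)) * h
  · linear_combination (g 1 0 * vx (i.succAbove j) + g 1 1 * vy (i.succAbove j)) * h

theorem tv_phi (g : SL) (i : Fin 4) (X : ℝ) :
    tvPhi (vx i) (tvB i) (vy i) (tvD i) (qA (g * tvS i) / X) (qB (g * tvS i) / X)
      (qC (g * tvS i) / X) = Phi0 (qA g / X) (qB g / X) (qC g / X) := by
  have h : (vx i : ℝ) * tvD i - tvB i * vy i = 1 := by exact_mod_cast tv_det i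
  unfold tvPhi qA qB qC
  simp only [tv_e00, tv_e01]
  push_cast
  generalize (vx i : ℝ) = a at *
  generalize (tvB i : ℝ) = b at *
  generalize (vy i : ℝ) = c at *
  generalize (tvD i : ℝ) = d at *
  congr 1
  · linear_combination (((g 0 0 : ℝ) ^ 2 + (g 1 0 : ℝ) ^ 2) / X * (a * d - b * c + 1)) * h
  · linear_combination (((g 0 0 : ℝ) * g 0 1 + (g 1 0 : ℝ) * g 1 1) / X *
      (a * d - b * c + 1)) * h
  · linear_combination (((g 0 1 : ℝ) ^ 2 + (g 1 1 : ℝ) ^ 2) / X * (a * d - b * c + 1)) * h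

theorem tv_wq (P : Finset ℕ) (R : ℝ) (n : Fin 4 → ℕ) (i : Fin 4) :
    (∑ α : Fin 4 → Fin 4, (F4 α : ℝ) * ∏ j, La P R (α j) (n j)) ^ 2 =
      wq P R (n i) fun j => n (i.succAbove j) := by
  unfold wq
  congr 1
  rw [← (Fin.insertNthEquiv (fun _ : Fin 4 => Fin 4) i).sum_comp, Fintype.sum_prod_type]
  refine sum_congr rfl fun a _ => sum_congr rfl fun α _ => ?_
  unfold F4 F3
  rw [Fin.sum_univ_succAbove _ i, Fin.sum_univ_succAbove _ i, Fin.prod_univ_succAbove _ i]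
  simp [Fin.insertNthEquiv, mul_assoc]

theorem tv_nu (Pi : Finset GaussianInt) (z : GaussianInt) :
    nu Pi z = ∑ ϖ ∈ Pi, ind (ϖ ∣ z) := by
  unfold nu ind
  rw [Finset.card_filter]
  push_cast
  rfl

theorem tv_sview (i : Fin 4) (W₀ : ℕ) (X : ℝ) (P : Finset ℕ) (Pi : Fin 4 → Finset GaussianInt)
    (χ : ℕ → ℝ) :
    Sview (tvGeo i) W₀ (tvPhi (vx i) (tvB i) (vy i) (tvD i)) X P (Pi i)
        (fun j => Pi (i.succAbove j)) χ =
      ∑' g : SL, base W₀ X P g * (∑ ϖ ∈ Pi i, ind (ϖ ∣ LL g i) * χ (nrm (LL g i) / nrm ϖ)) *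
        ∏ j : Fin 3, nu (Pi (i.succAbove j)) (LL g (i.succAbove j)) := by
  unfold Sview
  rw [← (Equiv.mulRight (tvS i)).tsum_eq]
  refine tsum_congr fun g => ?_
  simp only [Equiv.coe_mulRight, tv_act0, tv_act, tv_phi]
  unfold base
  rw [tv_wq P (Rx X) (fun j => nrm (LL g j)) i, Fin.prod_univ_succAbove _ i, prod_mul_distrib]
  simp only [tvGeo]
  ring

theorem tv_prime {p : ℕ} (hp : p.Prime) (h : p ∣ 819650) : p ≤ 200 := by
  rw [show 819650 = 169 * 194 * 25 from rfl, hp.dvd_mul, hp.dvd_mul] at h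
  rcases h with (h | h) | h <;> have := Nat.le_of_dvd (by norm_num) h <;> omega

theorem tv_b (i : Fin 4) (j : Fin 3) : (tvGeo i).b j ∣ 819650 := by
  fin_cases i <;> fin_cases j <;> decide +kernel

theorem tv_m (i : Fin 4) (j : Fin 3) : (tvGeo i).m j ∣ 819650 := by
  fin_cases i <;> fin_cases j <;> decide +kernel

theorem tv_G (i : Fin 4) : nrm (GG i) ∣ 819650 := by
  fin_cases i <;> decide +kernel

theorem tv_G_ne (i : Fin 4) : GG i ≠ 0 := by
  fin_cases i <;> decide +kernel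

theorem tv_ok (i : Fin 4) (W₀ : ℕ) (hW : 0 < W₀) (h : ∀ p : ℕ, p.Prime → p ≤ 200 → p ∣ W₀) :
    (tvGeo i).Ok W₀ (W₀ * 819650) := by
  have hz : ∀ p : ℕ, p.Prime → ∀ m : ℤ, m ∣ 819650 → (p : ℤ) ∣ m → p ∣ W₀ := fun p hp m h1 h2 =>
    h p hp (tv_prime hp (by exact_mod_cast h2.trans h1))
  refine ⟨fun j h0 => ?_, fun j h0 => ?_, tv_G_ne i, fun j => tv_G_ne _, by positivity, ?_,
    fun j => Nat.mul_dvd_mul_left _ (tv_G _), fun p hp hd => ?_,
    fun p hp j => hz p hp _ (tv_b i j), fun p hp j => hz p hp _ (tv_m i j),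
    fun p hp hd => h p hp (tv_prime hp (hd.trans (tv_G i))), ?_⟩
  · have := tv_b i j
    rw [h0, zero_dvd_iff] at this
    omega
  · have := tv_m i j
    rw [h0, zero_dvd_iff] at this
    omega
  · exact Nat.mul_dvd_mul (h 2 Nat.prime_two (by norm_num)) (by norm_num : 2 ∣ 819650)
  · rcases (hp.dvd_mul).1 hd with h1 | h1
    · exact h1
    · exact h p hp (tv_prime hp h1)
  · obtain ⟨g, hg⟩ := local_solv W₀ hW
    refine ⟨g * tvS i, ?_, fun j => ?_⟩
    · rw [tv_act0]; exact hg i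
    · rw [tv_act]; exact hg _

theorem to_view (i : Fin 4) : ∃ (d : Geo) (c₀ C₀ : ℝ) (Φ : ℝ → ℝ → ℝ → ℝ), Wt3 c₀ C₀ Φ ∧
    (∀ W₀ : ℕ, 0 < W₀ → (∀ p : ℕ, p.Prime → p ≤ 200 → p ∣ W₀) → d.Ok W₀ (W₀ * 819650)) ∧
    ∀ (W₀ : ℕ) (X : ℝ) (P : Finset ℕ) (Pi : Fin 4 → Finset GaussianInt),
      S1 W₀ X P Pi = Sview d W₀ Φ X P (Pi i) (fun j => Pi (i.succAbove j)) 1 ∧
      S2 W₀ X P Pi i =
        Sview d W₀ Φ X P (Pi i) (fun j => Pi (i.succAbove j)) (chiE (nrm d.G₀) (Rx X)) := by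
  have h0 : 0 ≤ vx i ∧ 0 ≤ vy i ∧ 1 ≤ vx i + vy i := by fin_cases i <;> decide
  obtain ⟨C₀, hC⟩ := tv_wt (a := vx i) (b := tvB i) (c := vy i) (d := tvD i)
    (by exact_mod_cast tv_det i) (by exact_mod_cast h0.1) (by exact_mod_cast h0.2.1)
    (by exact_mod_cast h0.2.2)
  refine ⟨tvGeo i, 1, C₀, _, hC, tv_ok i, fun W₀ X P Pi => ⟨?_, ?_⟩⟩
  · rw [tv_sview]
    unfold S1
    refine tsum_congr fun g => ?_
    rw [Fin.prod_univ_succAbove _ i, tv_nu (Pi i)]
    simp only [_root_.Pi.one_apply, mul_one, mul_assoc]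
  · rw [tv_sview]
    rfl

end Pool.Agent.P.MP_a1177c_nt.EK
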