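import Pool.Agent.P.MP_a1177c_nt.EK.View
import Pool.Agent.P.MP_a1177c_nt.EK.ToView
import Pool.Agent.P.MP_a1177c_nt.EK.Fams
import Pool.Agent.P.MP_a1177c_nt.EK.Finish

set_option autoImplicit false

namespace Pool.Agent.P.MP_a1177c_nt.EK

open Finset Filter
open scoped Classical

theorem final_count (a : ℕ) : ∃ C : ℕ, ∀ᶠ X : ℝ in atTop,
    X / Real.log X ^ C ≤ #{n ∈ range (⌊2200 * X⌋₊ + 1) |
      ArithmeticFunction.cardFactors (n ^ 2 + 1) = 12 + 2 * a} := by
  choose d c₀ C₀ Φ hΦ hok hS using to_view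
  choose D η₁ ε₀ hη₁ hε₀ hv using fun i => view (d i) (hΦ i)
  set D' := 200 + ∑ i, D i with hD'
  have hW₀ : 0 < D'.factorial := Nat.factorial_pos _
  have hdv : ∀ p : ℕ, p.Prime → p ≤ D' → p ∣ D'.factorial := fun p hp h =>
    Nat.dvd_factorial hp.pos h
  have hOk : ∀ i, (d i).Ok D'.factorial (D'.factorial * 819650) := fun i =>
    hok i _ hW₀ fun p hp h => hdv p hp (by omega)
  have hη : 0 < univ.inf' univ_nonempty η₁ := (Finset.lt_inf'_iff _).2 fun i _ => hη₁ i
  have hε : 0 < min (1 / 2000 : ℝ) (univ.inf' univ_nonempty ε₀) :=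
    lt_min (by norm_num) ((Finset.lt_inf'_iff _).2 fun i _ => hε₀ i)
  obtain ⟨q, hq, hfam⟩ := exists_fams (hOk 0).W_pos (hOk 0).four a _ hη
  have hv' := fun i => hv i _ _ (q i) (fun j => q (i.succAbove j)) (hOk i) (hq i).1
    (fun j => (hq _).1) (fun p hp h => hdv p hp (by
      have := Finset.single_le_sum (f := D) (fun j _ => Nat.zero_le _) (mem_univ i)
      omega)) _ hε ((min_le_right _ _).trans (Finset.inf'_le _ (mem_univ i)))
  choose c hc hev using hv'
  obtain ⟨C, hC⟩ := finish a (0.001 * c 0) (by have := hc 0; positivity)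
  refine ⟨C, ?_⟩
  filter_upwards [hC, hfam _ hε (min_le_left _ _), eventually_all.2 hev,
    eventually_ge_atTop (0 : ℝ)] with X h1 h2 h3 hX
  obtain ⟨P, Pi, hF⟩ := h2
  refine h1 D'.factorial (D'.factorial * 819650) q P Pi hq ?_ ?_ ?_
  · obtain ⟨Ex, -, -, h⟩ := (hF 0).good
    exact fun p hp => ((h p).1 hp).1
  · intro j
    obtain ⟨N, -, -, h⟩ := (hF j).fam₀
    exact ⟨N, h⟩
  · choose M hM1 hM2 hM3 using fun i => h3 i _ P (Pi i) (fun j => Pi (i.succAbove j))
      (Finset.inf'_le _ (mem_univ i)) (hF i)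
    have e1 := fun i => (hS i D'.factorial X P Pi).1
    have e2 := fun i => (hS i D'.factorial X P Pi).2
    have k1 : ∀ i, S1 D'.factorial X P Pi ≤ 1.005 * M i := fun i => e1 i ▸ hM2 i
    have k2 : ∀ i, 0.253 * M i ≤ S2 D'.factorial X P Pi i := fun i => e2 i ▸ hM3 i
    have k3 : ∀ i, 0 ≤ M i := fun i => (mul_nonneg (hc i).le hX).trans (hM1 i)
    rw [Fin.sum_univ_four]
    have := hM1 0
    linarith [k1 0, k1 1, k1 2, k1 3, k2 0, k2 1, k2 2, k2 3, k3 0, k3 1, k3 2, k3 3]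

theorem exact_omega (K : ℕ) (hK : Even K) (h12 : 12 ≤ K) : ∃ C : ℕ, ∀ᶠ x : ℝ in atTop,
    x / Real.log x ^ C ≤
      #{n ∈ range (⌊x⌋₊ + 1) | ArithmeticFunction.cardFactors (n ^ 2 + 1) = K} := by
  obtain ⟨k, rfl⟩ := hK
  obtain ⟨C, hC⟩ := final_count (k - 6)
  have e : 12 + 2 * (k - 6) = k + k := by omega
  rw [e] at hC
  refine ⟨C + 1, ?_⟩
  have ht : Tendsto (fun x : ℝ => x / 2200) atTop atTop := tendsto_id.atTop_div_const (by norm_num)
  filter_upwards [ht.eventually hC, Real.tendsto_log_atTop.eventually_ge_atTop 2200,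
    eventually_ge_atTop (2 * 2200 : ℝ)] with x h1 h2 h3
  rw [show 2200 * (x / 2200) = x by ring] at h1
  refine le_trans ?_ h1
  have l1 : 0 < Real.log (x / 2200) := Real.log_pos (by linarith)
  have l2 : Real.log (x / 2200) ≤ Real.log x := Real.log_le_log (by linarith) (by linarith)
  have l3 : Real.log (x / 2200) ^ C ≤ Real.log x ^ C := pow_le_pow_left₀ l1.le l2 C
  have l4 : 0 < Real.log (x / 2200) ^ C := pow_pos l1 C
  rw [div_div, pow_succ]
  refine div_le_div_of_nonneg_left (by linarith) (by positivity) ?_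
  nlinarith

end Pool.Agent.P.MP_a1177c_nt.EK
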