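import Pool.Agent.P.MP_a1177c_nt.EK.Box
import Pool.Agent.P.MP_a1177c_nt.EK.Count

set_option autoImplicit false

namespace Pool.Agent.P.MP_a1177c_nt.EK

open Finset Filter
open scoped Classical

/-- Congruence conditions describing a class of matrices through three of the entries. -/
def gapP (M : ℕ) (x : SL) (c a d : ℤ) : Prop :=
  a ≡ x 0 0 [ZMOD M] ∧ d ≡ x 1 1 [ZMOD M] ∧
    a * d ≡ 1 + x 0 1 * c [ZMOD ((M * c.natAbs : ℕ) : ℤ)]

def gapQ (M : ℕ) (a₀ c a : ℤ) : Prop := a ≡ a₀ [ZMOD M] ∧ IsCoprime a c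

noncomputable def gapU (c a d : ℝ) : ℝ := (a ^ 2 + c ^ 2 + ((a * d - 1) / c) ^ 2 + d ^ 2) / 2

lemma gap_det (x : SL) : x 0 0 * x 1 1 - x 0 1 * x 1 0 = 1 := by
  have := x.det_coe
  rwa [Matrix.det_fin_two] at this

lemma gap_ind_nonneg (p : Prop) : 0 ≤ ind p := by
  unfold ind; split_ifs <;> norm_num

lemma gap_ind_le (p : Prop) : ind p ≤ 1 := by
  unfold ind; split_ifs <;> norm_num

lemma gap_shift (M : ℕ) (hM : 0 < M) {a c : ℤ} (h : IsCoprime a c) :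
    ∃ j : ℤ, IsCoprime (a + j * c) (M : ℤ) := by
  by_cases hc : c = 0
  · subst hc
    refine ⟨0, ?_⟩
    have hu : IsUnit a := isCoprime_zero_right.1 h
    obtain ⟨v, hv⟩ := hu.exists_left_inv
    exact ⟨v, 0, by simpa using hv⟩
  · have h1 : IsCoprime a ((c.natAbs : ℕ) : ℤ) := by
      rw [Int.natCast_natAbs]; exact h.abs_right
    obtain ⟨p, hp, pp, hpa⟩ := Nat.forall_exists_prime_gt_and_zmodEq M
      (Int.natAbs_ne_zero.2 hc) h1
    have h2 : c ∣ (p : ℤ) - a := by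
      have := hpa.symm.dvd
      rwa [Int.natCast_natAbs, abs_dvd] at this
    obtain ⟨j, hj⟩ := h2
    refine ⟨j, ?_⟩
    have : a + j * c = p := by linarith
    rw [this, Nat.isCoprime_iff_coprime]
    exact (Nat.coprime_of_lt_prime hM.ne' hp pp)

lemma gap_mul_mod {M : ℕ} {c s s' : ℤ} (h : s ≡ s' [ZMOD M]) :
    c * s ≡ c * s' [ZMOD ((M * c.natAbs : ℕ) : ℤ)] := by
  have h1 := h.dvd
  rw [Int.modEq_iff_dvd, ← mul_sub]
  push_cast
  rw [mul_comm]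
  exact mul_dvd_mul (abs_dvd_self c) h1

lemma gap_box (M : ℕ) (hM : 0 < M) : ∃ C : ℝ, 0 ≤ C ∧ ∀ x : SL, ∀ c : ℤ, c ≠ 0 →
    c ≡ x 1 0 [ZMOD M] → ∀ a₁ d₁ : ℤ, ∀ l : ℕ, l ≤ M * c.natAbs →
    |∑ a ∈ Ico a₁ (a₁ + l), ∑ d ∈ Ico d₁ (d₁ + l),
        (ind (gapP M x c a d) - ind (gapQ M (x 0 0) c a) / ((M * c.natAbs : ℕ) : ℝ))| ≤
      C * ((M * c.natAbs : ℕ) : ℝ) ^ (4 / 5 : ℝ) := by
  obtain ⟨C, hC⟩ := box_count M hM
  refine ⟨max C 0, le_max_right _ _, fun x c hc hcx a₁ d₁ l hl => ?_⟩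
  have hdet := gap_det x
  have c1 : IsCoprime (x 0 0) (x 1 0) := ⟨x 1 1, - x 0 1, by linarith⟩
  have c2 : IsCoprime (x 1 1) (x 1 0) := ⟨x 0 0, - x 0 1, by linarith⟩
  obtain ⟨j, hj⟩ := gap_shift M hM c1
  obtain ⟨i, hi⟩ := gap_shift M hM c2
  set u : ℕ := M * c.natAbs with hu
  have hu0 : 0 < u := Nat.mul_pos hM (Int.natAbs_pos.2 hc)
  have hMu : (M : ℤ) ∣ (u : ℤ) := by rw [hu]; push_cast; exact dvd_mul_right _ _
  set e : ℤ := 1 + x 0 1 * c + c * (i * x 0 0 + j * x 1 1 + i * j * x 1 0) with he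
  have hcop : ∀ z : ℤ, IsCoprime z (u : ℤ) ↔ IsCoprime z (M : ℤ) ∧ IsCoprime z c := by
    intro z
    rw [hu]; push_cast
    rw [IsCoprime.mul_right_iff, IsCoprime.abs_right_iff]
  have hcm : ∀ z z' : ℤ, z ≡ z' [ZMOD M] → IsCoprime z' (M : ℤ) → IsCoprime z (M : ℤ) := by
    intro z z' h h'
    obtain ⟨s, hs⟩ := h.dvd
    have : z = z' + (M : ℤ) * (-s) := by linarith
    rw [this]; exact h'.add_mul_left_left _
  have hem : e ≡ (x 0 0 + j * x 1 0) * (x 1 1 + i * x 1 0) [ZMOD M] := by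
    have h1 : e ≡ 1 + x 0 1 * x 1 0 + x 1 0 * (i * x 0 0 + j * x 1 1 + i * j * x 1 0) [ZMOD M] :=
      ((Int.ModEq.refl 1).add (hcx.mul_left _)).add (hcx.mul_right _)
    have h2 : 1 + x 0 1 * x 1 0 + x 1 0 * (i * x 0 0 + j * x 1 1 + i * j * x 1 0) =
        (x 0 0 + j * x 1 0) * (x 1 1 + i * x 1 0) := by linear_combination (-1 : ℤ) * hdet
    rwa [h2] at h1
  have hecop : IsCoprime e (u : ℤ) := by
    rw [hcop]
    refine ⟨hcm _ _ hem (hj.mul_left hi), ?_⟩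
    exact ⟨1, -(x 0 1 + (i * x 0 0 + j * x 1 1 + i * j * x 1 0)), by rw [he]; ring⟩
  have key := hC u hu0 (Dvd.intro _ rfl) e (x 0 0 + j * x 1 0) (a₁ + j * c) (d₁ + i * c) hecop
    l l hl hl
  have hP : ∀ a d : ℤ, gapP M x c a d ↔ (a + j * c ≡ x 0 0 + j * x 1 0 [ZMOD M] ∧
      (a + j * c) * (d + i * c) ≡ e [ZMOD u]) := by
    intro a d
    have hx : (a + j * c) * (d + i * c) = a * d + c * (i * a + j * d + i * j * c) := by ring
    have hs : a ≡ x 0 0 [ZMOD M] → d ≡ x 1 1 [ZMOD M] → c * (i * a + j * d + i * j * c) ≡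
        c * (i * x 0 0 + j * x 1 1 + i * j * x 1 0) [ZMOD u] := fun ha hd =>
      gap_mul_mod (((ha.mul_left i).add (hd.mul_left j)).add (hcx.mul_left (i * j)))
    constructor
    · rintro ⟨ha, hd, had⟩
      refine ⟨ha.add (hcx.mul_left j), ?_⟩
      rw [hx]; exact had.add (hs ha hd)
    · rintro ⟨ha, had⟩
      have ha' : a ≡ x 0 0 [ZMOD M] := Int.ModEq.add_right_cancel (hcx.mul_left j) ha
      have h1 : (x 0 0 + j * x 1 0) * (d + i * c) ≡
          (x 0 0 + j * x 1 0) * (x 1 1 + i * x 1 0) [ZMOD M] :=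
        ((ha.symm.mul_right _).trans (had.of_dvd hMu)).trans hem
      have h2 : d + i * c ≡ x 1 1 + i * x 1 0 [ZMOD M] := by
        have := h1.dvd
        rw [← mul_sub] at this
        exact (Int.modEq_iff_dvd).2 (hj.symm.dvd_of_dvd_mul_left this)
      have hd' : d ≡ x 1 1 [ZMOD M] := Int.ModEq.add_right_cancel (hcx.mul_left i) h2
      refine ⟨ha', hd', ?_⟩
      rw [hx] at had
      exact Int.ModEq.add_right_cancel (hs ha' hd') had
  have hQ : ∀ a : ℤ, gapQ M (x 0 0) c a ↔ (a + j * c ≡ x 0 0 + j * x 1 0 [ZMOD M] ∧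
      IsCoprime (a + j * c) (u : ℤ)) := by
    intro a
    rw [hcop, IsCoprime.add_mul_right_left_iff]
    constructor
    · rintro ⟨ha, hac⟩
      have := ha.add (hcx.mul_left j)
      exact ⟨this, hcm _ _ this hj, hac⟩
    · rintro ⟨ha, -, hac⟩
      exact ⟨Int.ModEq.add_right_cancel (hcx.mul_left j) ha, hac⟩
  have e1 : ∑ a ∈ Ico a₁ (a₁ + l), ∑ d ∈ Ico d₁ (d₁ + l), ind (gapP M x c a d) =
      (#{p ∈ Ico (a₁ + j * c) (a₁ + j * c + l) ×ˢ Ico (d₁ + i * c) (d₁ + i * c + l) |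
          p.1 ≡ x 0 0 + j * x 1 0 [ZMOD M] ∧ p.1 * p.2 ≡ e [ZMOD u]} : ℝ) := by
    rw [← sum_product' (f := fun a d => ind (gapP M x c a d)), card_filter]
    push_cast
    refine sum_nbij' (fun p => (p.1 + j * c, p.2 + i * c)) (fun p => (p.1 - j * c, p.2 - i * c))
      ?_ ?_ ?_ ?_ ?_
    · intro p hp
      simp only [mem_product, mem_Ico] at hp ⊢
      omega
    · intro p hp
      simp only [mem_product, mem_Ico] at hp ⊢
      omega
    · intro p _; simp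
    · intro p _; simp
    · intro p _
      unfold ind
      simp only [hP]
  have e2 : ∑ a ∈ Ico a₁ (a₁ + l), ind (gapQ M (x 0 0) c a) =
      (#{a ∈ Ico (a₁ + j * c) (a₁ + j * c + l) |
        a ≡ x 0 0 + j * x 1 0 [ZMOD M] ∧ IsCoprime a (u : ℤ)} : ℝ) := by
    rw [card_filter]
    push_cast
    refine sum_nbij' (fun a => a + j * c) (fun a => a - j * c) ?_ ?_ ?_ ?_ ?_
    · intro p hp
      simp only [mem_Ico] at hp ⊢
      omega
    · intro p hp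
      simp only [mem_Ico] at hp ⊢
      omega
    · intro p _; simp
    · intro p _; simp
    · intro p _
      unfold ind
      simp only [hQ]
  simp only [sum_sub_distrib, sum_const, Int.card_Ico, add_sub_cancel_left, Int.toNat_natCast,
    nsmul_eq_mul]
  rw [e1, ← mul_sum, ← sum_div, e2, ← mul_div_assoc, mul_div_right_comm]
  refine key.trans (mul_le_mul_of_nonneg_right (le_max_left _ _) (by positivity))

lemma gap_U_ge {c : ℝ} (hc : c ≠ 0) (a d : ℝ) : 1 ≤ gapU c a d := by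
  unfold gapU
  set b := (a * d - 1) / c with hb
  have h : a * d - b * c = 1 := by rw [hb]; field_simp; ring
  nlinarith [sq_nonneg (a - d), sq_nonneg (b + c)]

lemma gap_sq_sub {x y A l : ℝ} (hx : |x| ≤ A) (hy : |y| ≤ A) (h : |x - y| ≤ l) :
    |x ^ 2 - y ^ 2| ≤ 2 * A * l := by
  have : x ^ 2 - y ^ 2 = (x + y) * (x - y) := by ring
  rw [this, abs_mul]
  have h1 : |x + y| ≤ 2 * A := (abs_add_le _ _).trans (by linarith)
  exact mul_le_mul h1 h (abs_nonneg _) ((abs_nonneg _).trans h1)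

lemma gap_osc {t c a d a' d' : ℝ} (ht : 1 ≤ t) (hc : t ^ 98 ≤ |c|)
    (ha : |a| ≤ 3 * t ^ 100) (ha' : |a'| ≤ 3 * t ^ 100) (hd : |d| ≤ 3 * t ^ 100)
    (hd' : |d'| ≤ 3 * t ^ 100) (h1 : |a - a'| ≤ t ^ 92) (h2 : |d - d'| ≤ t ^ 92) :
    |gapU c a d - gapU c a' d'| ≤ 66 * t ^ 196 := by
  have t0 : 0 < t := by linarith
  have hc0 : 0 < |c| := lt_of_lt_of_le (by positivity) hc
  have hb : ∀ x y : ℝ, |x| ≤ 3 * t ^ 100 → |y| ≤ 3 * t ^ 100 →
      |(x * y - 1) / c| ≤ 10 * t ^ 102 := by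
    intro x y hx hy
    rw [abs_div, div_le_iff₀ hc0]
    have h3 : |x * y| ≤ 3 * t ^ 100 * (3 * t ^ 100) := by
      rw [abs_mul]; exact mul_le_mul hx hy (abs_nonneg _) (by positivity)
    have h4 : |x * y - 1| ≤ |x * y| + 1 := by simpa using abs_sub (x * y) 1
    have h5 : (1 : ℝ) ≤ t ^ 200 := one_le_pow₀ ht
    calc |x * y - 1| ≤ 10 * t ^ 102 * t ^ 98 := by nlinarith
      _ ≤ _ := by gcongr
  have hbb : |(a * d - 1) / c - (a' * d' - 1) / c| ≤ 6 * t ^ 94 := by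
    rw [← sub_div, abs_div, div_le_iff₀ hc0]
    have : a * d - 1 - (a' * d' - 1) = (a - a') * d + a' * (d - d') := by ring
    rw [this]
    have h3 : |(a - a') * d| ≤ t ^ 92 * (3 * t ^ 100) := by
      rw [abs_mul]; exact mul_le_mul h1 hd (abs_nonneg _) (by positivity)
    have h4 : |a' * (d - d')| ≤ 3 * t ^ 100 * t ^ 92 := by
      rw [abs_mul]; exact mul_le_mul ha' h2 (abs_nonneg _) (by positivity)
    calc _ ≤ |(a - a') * d| + |a' * (d - d')| := abs_add_le _ _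
      _ ≤ 6 * t ^ 94 * t ^ 98 := by nlinarith
      _ ≤ _ := by gcongr
  have e1 := abs_le.1 (gap_sq_sub ha ha' h1)
  have e2 := abs_le.1 (gap_sq_sub hd hd' h2)
  have e3 := abs_le.1 (gap_sq_sub (hb a d ha hd) (hb a' d' ha' hd') hbb)
  have e4 : t ^ 192 ≤ t ^ 196 := pow_le_pow_right₀ ht (by norm_num)
  have e5 : 2 * (3 * t ^ 100) * t ^ 92 = 6 * t ^ 192 := by ring
  have e6 : 2 * (10 * t ^ 102) * (6 * t ^ 94) = 120 * t ^ 196 := by ring
  unfold gapU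
  rw [abs_le]
  constructor <;> linarith [e1.1, e1.2, e2.1, e2.2, e3.1, e3.2]

lemma gap_wbox (I D : Finset ℤ) (p w : ℤ → ℤ → ℝ) (q : ℤ → ℝ) {ρ w₀ δ E : ℝ}
    (hp : ∀ a d, 0 ≤ p a d) (hq : ∀ a, 0 ≤ q a) (hq' : ∀ a, q a ≤ ρ) (hw₀ : |w₀| ≤ 1)
    (hδ : 0 ≤ δ) (hw : ∀ a ∈ I, ∀ d ∈ D, |w a d - w₀| ≤ δ)
    (hE : |∑ a ∈ I, ∑ d ∈ D, (p a d - q a)| ≤ E) :
    |∑ a ∈ I, ∑ d ∈ D, w a d * (p a d - q a)| ≤ E + δ * (E + 2 * (#I * (#D * ρ))) := by
  have e1 : ∑ a ∈ I, ∑ d ∈ D, w a d * (p a d - q a) =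
      w₀ * ∑ a ∈ I, ∑ d ∈ D, (p a d - q a) + ∑ a ∈ I, ∑ d ∈ D, (w a d - w₀) * (p a d - q a) := by
    simp only [mul_sum, ← sum_add_distrib]
    exact sum_congr rfl fun a _ => sum_congr rfl fun d _ => by ring
  have e2 : |∑ a ∈ I, ∑ d ∈ D, (w a d - w₀) * (p a d - q a)| ≤
      ∑ a ∈ I, ∑ d ∈ D, (δ * (p a d - q a) + 2 * δ * ρ) := by
    refine (abs_sum_le_sum_abs _ _).trans (sum_le_sum fun a ha => ?_)
    refine (abs_sum_le_sum_abs _ _).trans (sum_le_sum fun d hd => ?_)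
    rw [abs_mul]
    have h1 : |p a d - q a| ≤ p a d - q a + 2 * ρ := by
      have := hp a d; have := hq a; have := hq' a
      rw [abs_le]; constructor <;> linarith
    calc _ ≤ δ * (p a d - q a + 2 * ρ) := mul_le_mul (hw a ha d hd) h1 (abs_nonneg _) hδ
      _ = _ := by ring
  have e3 : ∑ a ∈ I, ∑ d ∈ D, (δ * (p a d - q a) + 2 * δ * ρ) =
      δ * ∑ a ∈ I, ∑ d ∈ D, (p a d - q a) + δ * (2 * (#I * (#D * ρ))) := by
    simp only [sum_add_distrib, sum_const, nsmul_eq_mul, mul_sum]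
    ring
  have e4 : δ * ∑ a ∈ I, ∑ d ∈ D, (p a d - q a) ≤ δ * E :=
    mul_le_mul_of_nonneg_left ((le_abs_self _).trans hE) hδ
  have e5 : |w₀ * ∑ a ∈ I, ∑ d ∈ D, (p a d - q a)| ≤ E := by
    rw [abs_mul]
    exact (mul_le_mul hw₀ hE (abs_nonneg _) zero_le_one).trans (by rw [one_mul])
  rw [e1]
  refine (abs_add_le _ _).trans ?_
  linarith

lemma gap_split (f : ℤ → ℝ) (A : ℤ) (l n : ℕ) :
    ∑ a ∈ Ico A (A + n * l), f a =
      ∑ q ∈ range n, ∑ a ∈ Ico (A + q * l) (A + q * l + l), f a := by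
  induction n with
  | zero => simp
  | succ n ih =>
    rw [sum_range_succ, ← ih, ← sum_union (Ico_disjoint_Ico_consecutive _ _ _),
      Ico_union_Ico_eq_Ico (by have : (0 : ℤ) ≤ n * l := by positivity
                               linarith) (by simp)]
    congr 2
    push_cast; ring

/-- Admissible test functions. -/
def gapK (V : ℝ) (k : ℝ → ℝ) : Prop :=
  (∀ u, 1 ≤ u → |k u| ≤ 1) ∧ (∀ u v, 1 ≤ u → 1 ≤ v → |k u - k v| ≤ |u - v| / V) ∧
    ∀ u, V < u → k u = 0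

lemma gap_fixed (M : ℕ) (hM : 0 < M) : ∃ C : ℝ, 0 ≤ C ∧ ∀ x : SL, ∀ t : ℝ, 1 ≤ t →
    ∀ k : ℝ → ℝ, gapK (t ^ 200) k → ∀ l n : ℕ, ∀ A : ℤ, (l : ℝ) ≤ t ^ 92 → (n : ℝ) ≤ 10 * t ^ 8 →
    -(3 * t ^ 100) ≤ (A : ℝ) → (A : ℝ) + n * l ≤ 3 * t ^ 100 →
    ∀ c : ℤ, t ^ 98 ≤ |(c : ℝ)| → |(c : ℝ)| ≤ 3 * t ^ 100 → c ≡ x 1 0 [ZMOD M] →
    |∑ a ∈ Ico A (A + n * l), ∑ d ∈ Ico A (A + n * l), k (gapU c a d) *
        (ind (gapP M x c a d) - ind (gapQ M (x 0 0) c a) / ((M * c.natAbs : ℕ) : ℝ))| ≤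
      C * t ^ 98 := by
  obtain ⟨C, C0, hC⟩ := gap_box M hM
  refine ⟨100 * (67 * (C * (3 * M)) + 132), by positivity, ?_⟩
  intro x t ht k hk l n A hl hn hA hA' c hc hc' hcx
  have t0 : 0 < t := by linarith
  have hc0 : (0 : ℝ) < |(c : ℝ)| := lt_of_lt_of_le (by positivity) hc
  have hcr : (c : ℝ) ≠ 0 := abs_pos.1 hc0
  have hcz : c ≠ 0 := by exact_mod_cast hcr
  have hM1 : (1 : ℝ) ≤ M := by exact_mod_cast hM
  set u : ℕ := M * c.natAbs with hu
  have hur : (u : ℝ) = M * |(c : ℝ)| := by rw [hu]; push_cast; rw [Nat.cast_natAbs]; push_cast; rfl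
  have hu1 : t ^ 98 ≤ (u : ℝ) := by rw [hur]; nlinarith
  have hu0 : (0 : ℝ) < u := lt_of_lt_of_le (by positivity) hu1
  have hlu : l ≤ u := by
    have : (l : ℝ) ≤ u := hl.trans ((pow_le_pow_right₀ ht (by norm_num)).trans hu1)
    exact_mod_cast this
  have hE : (u : ℝ) ^ (4 / 5 : ℝ) ≤ 3 * M * t ^ 80 := by
    have h1 : (u : ℝ) ≤ (3 * M) * t ^ 100 := by rw [hur]; nlinarith
    calc (u : ℝ) ^ (4 / 5 : ℝ) ≤ ((3 * M) * t ^ 100) ^ (4 / 5 : ℝ) := by gcongr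
      _ = (3 * M : ℝ) ^ (4 / 5 : ℝ) * t ^ 80 := by
        rw [Real.mul_rpow (by positivity) (by positivity), ← Real.rpow_natCast t 100,
          ← Real.rpow_mul t0.le, ← Real.rpow_natCast t 80]
        norm_num
      _ ≤ _ := by
        gcongr
        exact Real.rpow_le_self_of_one_le (by linarith) (by norm_num)
  have hbox : ∀ q ∈ range n, ∀ a ∈ Ico (A + q * l) (A + q * l + l),
      |(a : ℝ)| ≤ 3 * t ^ 100 ∧ |((A + q * l : ℤ) : ℝ)| ≤ 3 * t ^ 100 ∧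
        |(a : ℝ) - ((A + q * l : ℤ) : ℝ)| ≤ t ^ 92 := by
    intro q hq a ha
    rw [mem_range] at hq
    rw [mem_Ico] at ha
    have h1 : ((A + q * l : ℤ) : ℝ) ≤ a := by exact_mod_cast ha.1
    have h2 : (a : ℝ) ≤ ((A + q * l : ℤ) : ℝ) + l := by exact_mod_cast ha.2.le
    have h3 : (q : ℝ) + 1 ≤ n := by exact_mod_cast hq
    have h4 : (0 : ℝ) ≤ q * l := by positivity
    have h5 : ((q : ℝ) + 1) * l ≤ n * l := by gcongr
    push_cast at h1 h2 ⊢
    refine ⟨?_, ?_, ?_⟩ <;> rw [abs_le] <;> constructor <;> nlinarith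
  have hone : ∀ q ∈ range n, ∀ r ∈ range n,
      |∑ a ∈ Ico (A + q * l) (A + q * l + l), ∑ d ∈ Ico (A + r * l) (A + r * l + l),
        k (gapU c a d) * (ind (gapP M x c a d) - ind (gapQ M (x 0 0) c a) / (u : ℝ))| ≤
      (67 * (C * (3 * M)) + 132) * t ^ 82 := by
    intro q hq r hr
    have h1 := gap_wbox (Ico (A + q * l) (A + q * l + l)) (Ico (A + r * l) (A + r * l + l))
      (fun a d => ind (gapP M x c a d)) (fun a d => k (gapU c a d))
      (fun a => ind (gapQ M (x 0 0) c a) / (u : ℝ)) (ρ := 1 / t ^ 98)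
      (w₀ := k (gapU c ((A + q * l : ℤ) : ℝ) ((A + r * l : ℤ) : ℝ))) (δ := 66 / t ^ 4)
      (E := C * (3 * M) * t ^ 80)
      (fun _ _ => gap_ind_nonneg _) (fun _ => div_nonneg (gap_ind_nonneg _) hu0.le)
      (fun _ => div_le_div₀ zero_le_one (gap_ind_le _) (by positivity) hu1)
      (hk.1 _ (gap_U_ge hcr _ _)) (by positivity) ?_ ?_
    · refine h1.trans ?_
      simp only [Int.card_Ico, add_sub_cancel_left, Int.toNat_natCast]
      have h2 : (l : ℝ) * (l * (1 / t ^ 98)) ≤ t ^ 86 := by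
        calc (l : ℝ) * (l * (1 / t ^ 98)) ≤ t ^ 92 * (t ^ 92 * (1 / t ^ 98)) := by gcongr
          _ = _ := by field_simp
      have h3 : 66 / t ^ 4 * (C * (3 * M) * t ^ 80 + 2 * (l * (l * (1 / t ^ 98)))) ≤
          66 / t ^ 4 * (C * (3 * M) * t ^ 86 + 2 * t ^ 86) := by
        gcongr
        norm_num
      have h4 : 66 / t ^ 4 * (C * (3 * M) * t ^ 86 + 2 * t ^ 86) =
          (66 * (C * (3 * M)) + 132) * t ^ 82 := by field_simp; ring
      have h5 : C * (3 * M) * t ^ 80 ≤ C * (3 * M) * t ^ 82 := by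
        gcongr
        norm_num
      linarith
    · intro a ha d hd
      obtain ⟨a1, a2, a3⟩ := hbox q hq a ha
      obtain ⟨d1, d2, d3⟩ := hbox r hr d hd
      refine (hk.2.1 _ _ (gap_U_ge hcr _ _) (gap_U_ge hcr _ _)).trans ?_
      calc _ ≤ 66 * t ^ 196 / t ^ 200 := by
            gcongr
            exact gap_osc ht hc a1 a2 d1 d2 a3 d3
        _ = _ := by field_simp
    · refine (hC x c hcz hcx _ _ l hlu).trans ?_
      rw [mul_assoc C]
      exact mul_le_mul_of_nonneg_left hE C0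
  rw [gap_split]
  simp_rw [gap_split _ A l n]
  refine (abs_sum_le_sum_abs _ _).trans ?_
  have htwo : ∀ q ∈ range n, |∑ a ∈ Ico (A + q * l) (A + q * l + l), ∑ r ∈ range n,
      ∑ d ∈ Ico (A + r * l) (A + r * l + l),
        k (gapU c a d) * (ind (gapP M x c a d) - ind (gapQ M (x 0 0) c a) / (u : ℝ))| ≤
      n * ((67 * (C * (3 * M)) + 132) * t ^ 82) := by
    intro q hq
    rw [sum_comm]
    refine (abs_sum_le_sum_abs _ _).trans ?_
    refine (sum_le_sum fun r hr => hone q hq r hr).trans ?_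
    simp
  refine (sum_le_sum htwo).trans ?_
  simp only [sum_const, card_range, nsmul_eq_mul]
  calc _ ≤ 10 * t ^ 8 * (10 * t ^ 8 * ((67 * (C * (3 * M)) + 132) * t ^ 82)) := by gcongr
    _ = _ := by ring

/-- Reduction modulo `M`. -/
def gapR (M : ℕ) : SL →* Matrix.SpecialLinearGroup (Fin 2) (ZMod M) :=
  Matrix.SpecialLinearGroup.map (Int.castRingHom (ZMod M))

lemma gapR_iff (M : ℕ) (h x : SL) : gapR M h = gapR M x ↔ ∀ i j, h i j ≡ x i j [ZMOD M] := by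
  simp [gapR, Matrix.SpecialLinearGroup.ext_iff, ZMod.intCast_eq_intCast_iff]

noncomputable def gapI (M : ℕ) (k : ℝ → ℝ) (x : SL) : ℝ :=
  ∑' h : SL, k (Uy 1 h) * ind (gapR M h = gapR M x)

lemma gap_Uy (h : SL) : Uy 1 h =
    ((h 0 0 : ℝ) ^ 2 + (h 1 0 : ℝ) ^ 2 + (h 0 1 : ℝ) ^ 2 + (h 1 1 : ℝ) ^ 2) / 2 := by
  unfold Uy qA qC; ring

lemma gap_Uy_ge (h : SL) : 1 ≤ Uy 1 h := by
  rw [gap_Uy]
  have h1 : (h 0 0 : ℝ) * h 1 1 - h 0 1 * h 1 0 = 1 := by exact_mod_cast gap_det h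
  nlinarith [sq_nonneg ((h 0 0 : ℝ) - h 1 1), sq_nonneg ((h 0 1 : ℝ) + h 1 0)]

lemma gap_fin (V : ℝ) : {h : SL | Uy 1 h ≤ V}.Finite := by
  obtain ⟨C, hC⟩ := count_box
  refine ((hC (max 1 (2 * V)) (max 1 (2 * V)) (le_max_left _ _) (le_max_left _ _)).1).subset ?_
  intro h hh
  have h1 : Uy 1 h ≤ V := hh
  rw [gap_Uy] at h1
  refine ⟨le_max_of_le_right ?_, le_max_of_le_right ?_⟩
  · unfold qA; nlinarith [sq_nonneg (h 0 1 : ℝ), sq_nonneg (h 1 1 : ℝ)]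
  · unfold qC; nlinarith [sq_nonneg (h 0 0 : ℝ), sq_nonneg (h 1 0 : ℝ)]

lemma gap_tsum {V : ℝ} {k : ℝ → ℝ} (hk : gapK V k) (F : SL → ℝ) :
    ∑' h : SL, k (Uy 1 h) * F h = ∑ h ∈ (gap_fin V).toFinset, k (Uy 1 h) * F h := by
  refine tsum_eq_sum fun h hh => ?_
  rw [Set.Finite.mem_toFinset] at hh
  rw [hk.2.2 _ (not_le.1 hh), zero_mul]

lemma gapI_S (M : ℕ) (k : ℝ → ℝ) (x : SL) : gapI M k (x * ModularGroup.S) = gapI M k x := by
  unfold gapI
  rw [← (Equiv.mulRight ModularGroup.S).tsum_eq]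
  refine tsum_congr fun h => ?_
  simp only [Equiv.coe_mulRight, map_mul, mul_left_inj]
  congr 2
  rw [gap_Uy, gap_Uy]
  simp only [Matrix.SpecialLinearGroup.coe_mul, ModularGroup.coe_S, Matrix.mul_apply,
    Fin.sum_univ_two]
  simp
  ring

lemma gap_small : ∃ C : ℝ, 0 ≤ C ∧ ∀ t : ℝ, 1 ≤ t →
    (#{h ∈ (gap_fin (t ^ 200)).toFinset | ¬ t ^ 98 ≤ |(h 1 0 : ℝ)|} : ℝ) ≤ C * t ^ 199 := by
  obtain ⟨C, hC⟩ := count_box
  refine ⟨14 * max C 0, by positivity, fun t ht => ?_⟩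
  have t0 : 0 < t := by linarith
  have p1 : (1 : ℝ) ≤ t ^ 198 := one_le_pow₀ ht
  have p2 : (1 : ℝ) ≤ t ^ 200 := one_le_pow₀ ht
  obtain ⟨hfin, hcard⟩ := hC (4 * t ^ 198) (2 * t ^ 200) (by linarith) (by linarith)
  set G := hfin.toFinset with hG
  have hGc : (#G : ℝ) ≤ 7 * max C 0 * t ^ 199 := by
    rw [Set.ncard_eq_toFinset_card _ hfin] at hcard
    have h1 : √(4 * t ^ 198 * (2 * t ^ 200)) ≤ 3 * t ^ 199 := by
      rw [Real.sqrt_le_left (by positivity)]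
      have : (0 : ℝ) ≤ t ^ 398 := by positivity
      calc 4 * t ^ 198 * (2 * t ^ 200) = 8 * t ^ 398 := by ring
        _ ≤ 9 * t ^ 398 := by linarith
        _ = _ := by ring
    have h2 : t ^ 198 ≤ t ^ 199 := pow_le_pow_right₀ ht (by norm_num)
    calc (#G : ℝ) ≤ C * (4 * t ^ 198 + √(4 * t ^ 198 * (2 * t ^ 200))) := hcard
      _ ≤ max C 0 * (4 * t ^ 199 + 3 * t ^ 199) := by
        gcongr
        exact le_max_left _ _
      _ = _ := by ring
  have hsub : {h ∈ (gap_fin (t ^ 200)).toFinset | ¬ t ^ 98 ≤ |(h 1 0 : ℝ)|} ⊆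
      G ∪ G.image (fun h => h⁻¹) := by
    intro h hh
    rw [mem_filter, Set.Finite.mem_toFinset] at hh
    obtain ⟨h1, h2⟩ := hh
    have h1' : Uy 1 h ≤ t ^ 200 := h1
    rw [gap_Uy] at h1'
    have hdet : (h 0 0 : ℝ) * h 1 1 - h 0 1 * h 1 0 = 1 := by exact_mod_cast gap_det h
    set a : ℝ := ((h 0 0 : ℤ) : ℝ) with ha
    set b : ℝ := ((h 0 1 : ℤ) : ℝ) with hb
    set c : ℝ := ((h 1 0 : ℤ) : ℝ) with hc
    set d : ℝ := ((h 1 1 : ℤ) : ℝ) with hd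
    have a2 := sq_nonneg a
    have b2 := sq_nonneg b
    have c2 := sq_nonneg c
    have d2 := sq_nonneg d
    have hcb : |c| ≤ t ^ 98 := (not_le.1 h2).le
    have hc2 : c ^ 2 ≤ t ^ 198 := by
      calc c ^ 2 = |c| ^ 2 := (sq_abs c).symm
        _ ≤ (t ^ 98) ^ 2 := by gcongr
        _ = t ^ 196 := by ring
        _ ≤ _ := pow_le_pow_right₀ ht (by norm_num)
    have hbb : |b| ≤ 2 * t ^ 100 := by
      refine abs_le_of_sq_le_sq ?_ (by positivity)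
      have : (2 * t ^ 100) ^ 2 = 4 * t ^ 200 := by ring
      linarith
    have hbc : |b * c| ≤ 2 * t ^ 198 := by
      rw [abs_mul]
      calc |b| * |c| ≤ 2 * t ^ 100 * t ^ 98 := by gcongr
        _ = _ := by ring
    have had : |a| * |d| ≤ 3 * t ^ 198 := by
      rw [← abs_mul]
      have := abs_le.1 hbc
      rw [abs_le]; constructor <;> linarith [this.1, this.2]
    rw [mem_union]
    rcases le_total |a| |d| with h3 | h3
    · left
      rw [hG, Set.Finite.mem_toFinset]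
      have : a ^ 2 ≤ 3 * t ^ 198 := by
        rw [← sq_abs, sq]
        exact (mul_le_mul_of_nonneg_left h3 (abs_nonneg _)).trans had
      refine ⟨?_, ?_⟩
      · unfold qA; linarith
      · unfold qC; linarith
    · right
      refine mem_image.2 ⟨h⁻¹, ?_, inv_inv h⟩
      rw [hG, Set.Finite.mem_toFinset]
      have : d ^ 2 ≤ 3 * t ^ 198 := by
        rw [← sq_abs, sq]
        exact (mul_le_mul_of_nonneg_right h3 (abs_nonneg _)).trans had
      rw [Matrix.SpecialLinearGroup.SL2_inv_expl]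
      refine ⟨?_, ?_⟩
      · unfold qA; simp; linarith
      · unfold qC; simp; linarith
  have h1 : #{h ∈ (gap_fin (t ^ 200)).toFinset | ¬ t ^ 98 ≤ |(h 1 0 : ℝ)|} ≤ #G + #G :=
    (card_le_card hsub).trans ((card_union_le _ _).trans (Nat.add_le_add_left card_image_le _))
  have h2 : (#{h ∈ (gap_fin (t ^ 200)).toFinset | ¬ t ^ 98 ≤ |(h 1 0 : ℝ)|} : ℝ) ≤ #G + #G := by
    exact_mod_cast h1
  linarith

lemma gap_Uy_eq (h : SL) (hc : h 1 0 ≠ 0) : Uy 1 h = gapU (h 1 0) (h 0 0) (h 1 1) := by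
  have hdet : (h 0 0 : ℝ) * h 1 1 - h 0 1 * h 1 0 = 1 := by exact_mod_cast gap_det h
  have hc' : (h 1 0 : ℝ) ≠ 0 := by exact_mod_cast hc
  have : ((h 0 0 : ℝ) * h 1 1 - 1) / h 1 0 = h 0 1 := by
    rw [div_eq_iff hc']; linarith
  rw [gap_Uy, gapU, this]

lemma gap_large (M : ℕ) (x : SL) {t : ℝ} (ht : 1 ≤ t) {k : ℝ → ℝ} (hk : gapK (t ^ 200) k)
    (B : Finset ℤ) (hB : ∀ a : ℤ, (a : ℝ) ^ 2 ≤ 2 * t ^ 200 → a ∈ B) :
    ∑ h ∈ (gap_fin (t ^ 200)).toFinset with t ^ 98 ≤ |(h 1 0 : ℝ)|,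
        k (Uy 1 h) * ind (gapR M h = gapR M x) =
      ∑ c ∈ B.filter (fun c : ℤ => t ^ 98 ≤ |(c : ℝ)| ∧ c ≡ x 1 0 [ZMOD M]), ∑ a ∈ B, ∑ d ∈ B,
        k (gapU c a d) * ind (gapP M x c a d) := by
  have t0 : 0 < t := by linarith
  have hne : ∀ c : ℤ, t ^ 98 ≤ |(c : ℝ)| → c ≠ 0 := by
    intro c hc h0
    rw [h0] at hc
    have : 0 < t ^ 98 := by positivity
    simp at hc
    linarith
  have hind : ∀ (r : ℝ) (p : Prop), r * ind p ≠ 0 → r ≠ 0 ∧ p := by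
    intro r p h
    refine ⟨left_ne_zero_of_mul h, ?_⟩
    by_contra hp
    exact h (by simp [ind, hp])
  have hPP : ∀ h : SL, gapR M h = gapR M x → gapP M x (h 1 0) (h 0 0) (h 1 1) := by
    intro h hh
    rw [gapR_iff] at hh
    refine ⟨hh 0 0, hh 1 1, ?_⟩
    have e : h 0 0 * h 1 1 = 1 + h 1 0 * h 0 1 := by linarith [gap_det h]
    rw [e, mul_comm (x 0 1)]
    exact (Int.ModEq.refl 1).add (gap_mul_mod (hh 0 1))
  simp_rw [← sum_product' (s := B) (t := B)]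
  rw [← sum_product']
  refine sum_bij_ne_zero (fun h _ _ => (h 1 0, (h 0 0, h 1 1))) ?_ ?_ ?_ ?_
  · intro h hh h0
    rw [mem_filter, Set.Finite.mem_toFinset] at hh
    have h1 : Uy 1 h ≤ t ^ 200 := hh.1
    rw [gap_Uy] at h1
    have h2 := (gapR_iff M h x).1 (hind _ _ h0).2
    have a2 := sq_nonneg (h 0 0 : ℝ)
    have b2 := sq_nonneg (h 0 1 : ℝ)
    have c2 := sq_nonneg (h 1 0 : ℝ)
    have d2 := sq_nonneg (h 1 1 : ℝ)
    simp only [mem_product, mem_filter]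
    exact ⟨⟨hB _ (by linarith), hh.2, h2 1 0⟩, hB _ (by linarith), hB _ (by linarith)⟩
  · intro h hh _ g _ _ e
    rw [mem_filter] at hh
    simp only [Prod.mk.injEq] at e
    obtain ⟨e1, e2, e3⟩ := e
    have hc := hne _ hh.2
    have d1 := gap_det h
    have d2 := gap_det g
    rw [← e1, ← e2, ← e3] at d2
    have e4 : h 0 1 = g 0 1 := mul_right_cancel₀ hc (by linarith)
    ext i j
    fin_cases i <;> fin_cases j <;> assumption
  · rintro ⟨c, a, d⟩ hp h0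
    simp only [mem_product, mem_filter] at hp
    obtain ⟨⟨-, hc, hcx⟩, -⟩ := hp
    obtain ⟨hk0, ha, hd, had⟩ := hind _ _ h0
    simp only at hk0 ha hd had
    have hc0 := hne c hc
    have h1 : c * (M : ℤ) ∣ 1 + x 0 1 * c - a * d := by
      have := had.dvd
      push_cast at this
      rw [mul_comm] at this
      exact (mul_dvd_mul_right (self_dvd_abs c) _).trans this
    obtain ⟨s, hs⟩ := h1
    let g : SL := ⟨!![a, x 0 1 - M * s; c, d], by rw [Matrix.det_fin_two_of]; linarith⟩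
    have g00 : g 0 0 = a := rfl
    have g01 : g 0 1 = x 0 1 - M * s := rfl
    have g10 : g 1 0 = c := rfl
    have g11 : g 1 1 = d := rfl
    have hU : Uy 1 g = gapU c a d := gap_Uy_eq g hc0
    have hR : gapR M g = gapR M x := by
      rw [gapR_iff]
      intro i j
      fin_cases i <;> fin_cases j
      · exact ha
      · exact (Int.modEq_iff_dvd).2 ⟨s, by change x 0 1 - (x 0 1 - M * s) = _; ring⟩
      · exact hcx
      · exact hd
    refine ⟨g, ?_, ?_, rfl⟩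
    · rw [mem_filter, Set.Finite.mem_toFinset]
      refine ⟨?_, hc⟩
      by_contra hlt
      exact hk0 (hk.2.2 _ (hU ▸ not_le.1 hlt))
    · rw [hU, hR]
      simpa [ind] using hk0
  · intro h hh h0
    rw [mem_filter] at hh
    have h2 := (hind _ _ h0).2
    simp only
    rw [gap_Uy_eq h (hne _ hh.2)]
    simp [ind, h2, hPP h h2]

lemma gap_params {t : ℝ} (ht : 1 ≤ t) : ∃ l n : ℕ, ∃ A : ℤ, (l : ℝ) ≤ t ^ 92 ∧
    (n : ℝ) ≤ 10 * t ^ 8 ∧ -(3 * t ^ 100) ≤ (A : ℝ) ∧ (A : ℝ) + n * l ≤ 3 * t ^ 100 ∧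
    (A : ℝ) ≤ -(2 * t ^ 100) ∧ 2 * t ^ 100 ≤ (A : ℝ) + n * l := by
  have t0 : 0 < t := by linarith
  have p1 : (1 : ℝ) ≤ t ^ 92 := one_le_pow₀ ht
  have p2 : (1 : ℝ) ≤ t ^ 8 := one_le_pow₀ ht
  have p3 : t ^ 92 ≤ t ^ 100 := pow_le_pow_right₀ ht (by norm_num)
  set l := ⌊t ^ 92⌋₊ with hl
  have l1 : (l : ℝ) ≤ t ^ 92 := Nat.floor_le (by positivity)
  have l2 : (1 : ℝ) ≤ l := by
    have : 1 ≤ l := Nat.le_floor (by exact_mod_cast p1)
    exact_mod_cast this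
  have l3 : t ^ 92 ≤ 2 * l := by linarith [Nat.lt_floor_add_one (t ^ 92)]
  set N := ⌈2 * t ^ 100 / l⌉₊ with hN
  have N1 : 2 * t ^ 100 ≤ N * l := by
    rw [← div_le_iff₀ (by linarith)]; exact Nat.le_ceil _
  have N2 : (N : ℝ) ≤ 2 * t ^ 100 / l + 1 := (Nat.ceil_lt_add_one (by positivity)).le
  have N3 : (N : ℝ) * l ≤ 3 * t ^ 100 := by
    calc (N : ℝ) * l ≤ (2 * t ^ 100 / l + 1) * l := by gcongr
      _ = 2 * t ^ 100 + l := by field_simp
      _ ≤ _ := by linarith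
  have N4 : 2 * t ^ 100 / l ≤ 4 * t ^ 8 := by
    rw [div_le_iff₀ (by linarith)]
    calc 2 * t ^ 100 = 2 * t ^ 8 * t ^ 92 := by ring
      _ ≤ 2 * t ^ 8 * (2 * l) := by gcongr
      _ = _ := by ring
  refine ⟨l, 2 * N, -(N * l), l1, ?_, ?_, ?_, ?_, ?_⟩ <;> push_cast <;> linarith

lemma gap_cmp (M : ℕ) (hM : 0 < M) : ∃ C : ℝ, ∀ t : ℝ, 1 ≤ t → ∀ k : ℝ → ℝ, gapK (t ^ 200) k →
    ∀ x y : SL, x 0 0 = y 0 0 → x 1 0 = y 1 0 → |gapI M k x - gapI M k y| ≤ C * t ^ 199 := by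
  obtain ⟨C₁, C₁0, h₁⟩ := gap_fixed M hM
  obtain ⟨C₂, C₂0, h₂⟩ := gap_small
  refine ⟨2 * (6 * C₁ + C₂), fun t ht k hk x y e0 e1 => ?_⟩
  have t0 : 0 < t := by linarith
  obtain ⟨l, n, A, hl, hn, a1, a2, a3, a4⟩ := gap_params ht
  set B : Finset ℤ := Ico A (A + n * l) with hBdef
  have hB : ∀ a : ℤ, (a : ℝ) ^ 2 ≤ 2 * t ^ 200 → a ∈ B := by
    intro a ha
    have h1 : |(a : ℝ)| < 2 * t ^ 100 := by
      refine abs_lt_of_sq_lt_sq ?_ (by positivity)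
      have : (2 * t ^ 100) ^ 2 = 4 * t ^ 200 := by ring
      have : 0 < t ^ 200 := by positivity
      linarith
    rw [abs_lt] at h1
    rw [hBdef, mem_Ico]
    constructor
    · have : (A : ℝ) ≤ a := by linarith [h1.1]
      exact_mod_cast this
    · have : (a : ℝ) < A + n * l := by linarith [h1.2]
      exact_mod_cast this
  have hB' : ∀ c ∈ B, |(c : ℝ)| ≤ 3 * t ^ 100 := by
    intro c hc
    rw [hBdef, mem_Ico] at hc
    have h1 : (A : ℝ) ≤ c := by exact_mod_cast hc.1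
    have h2 : (c : ℝ) ≤ A + n * l := by exact_mod_cast hc.2.le
    rw [abs_le]; constructor <;> linarith
  have hBc : (#B : ℝ) ≤ 6 * t ^ 100 := by
    have : #B = n * l := by
      rw [hBdef, Int.card_Ico, add_sub_cancel_left, ← Nat.cast_mul, Int.toNat_natCast]
    rw [this]; push_cast; linarith
  have main : ∀ z : SL, |gapI M k z -
      ∑ c ∈ B.filter (fun c : ℤ => t ^ 98 ≤ |(c : ℝ)| ∧ c ≡ z 1 0 [ZMOD M]), ∑ a ∈ B, ∑ d ∈ B,
        k (gapU c a d) * (ind (gapQ M (z 0 0) c a) / ((M * c.natAbs : ℕ) : ℝ))| ≤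
      (6 * C₁ + C₂) * t ^ 199 := by
    intro z
    unfold gapI
    rw [gap_tsum hk, ← sum_filter_add_sum_filter_not _ (fun h : SL => t ^ 98 ≤ |(h 1 0 : ℝ)|),
      gap_large M z ht hk B hB, add_sub_right_comm]
    refine (abs_add_le _ _).trans ?_
    rw [add_mul]
    refine add_le_add ?_ ?_
    · simp only [← sum_sub_distrib, ← mul_sub]
      refine (abs_sum_le_sum_abs _ _).trans ?_
      refine (sum_le_card_nsmul _ _ (C₁ * t ^ 98) fun c hc => ?_).trans ?_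
      · rw [mem_filter] at hc
        exact h₁ z t ht k hk l n A hl hn a1 a2 c hc.2.1 (hB' c hc.1) hc.2.2
      · rw [nsmul_eq_mul]
        have h1 : (#(B.filter (fun c : ℤ => t ^ 98 ≤ |(c : ℝ)| ∧ c ≡ z 1 0 [ZMOD M])) : ℝ) ≤ #B := by
          exact_mod_cast card_filter_le _ _
        have h2 : t ^ 198 ≤ t ^ 199 := pow_le_pow_right₀ ht (by norm_num)
        calc _ ≤ 6 * t ^ 100 * (C₁ * t ^ 98) := by gcongr; exact h1.trans hBc
          _ = 6 * C₁ * t ^ 198 := by ring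
          _ ≤ _ := by gcongr
    · refine (abs_sum_le_sum_abs _ _).trans ?_
      refine (sum_le_card_nsmul _ _ 1 fun h _ => ?_).trans ?_
      · rw [abs_mul, abs_of_nonneg (gap_ind_nonneg _)]
        exact mul_le_one₀ (hk.1 _ (gap_Uy_ge h)) (gap_ind_nonneg _) (gap_ind_le _)
      · rw [nsmul_eq_mul, mul_one]
        exact h₂ t ht
  have m1 := abs_le.1 (main x)
  have m2 := abs_le.1 (main y)
  rw [e0, e1] at m1
  rw [abs_le]
  constructor <;> linarith [m1.1, m1.2, m2.1, m2.2]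

lemma gap_one (M : ℕ) (hM : 0 < M) (x : SL) : ∃ C : ℝ, ∀ t : ℝ, 1 ≤ t → ∀ k : ℝ → ℝ,
    gapK (t ^ 200) k → |gapI M k x - gapI M k 1| ≤ C * t ^ 199 := by
  obtain ⟨C₀, h₀⟩ := gap_cmp M hM
  have hT : ∀ t : ℝ, 1 ≤ t → ∀ k : ℝ → ℝ, gapK (t ^ 200) k → ∀ z : SL,
      |gapI M k (z * ModularGroup.T) - gapI M k z| ≤ C₀ * t ^ 199 := by
    intro t ht k hk z
    refine h₀ t ht k hk _ _ ?_ ?_ <;>
    · simp only [Matrix.SpecialLinearGroup.coe_mul, ModularGroup.coe_T, Matrix.mul_apply,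
        Fin.sum_univ_two]
      simp
  have hx : x ∈ Subgroup.closure {ModularGroup.S, ModularGroup.T} := by
    simp [SpecialLinearGroup.SL2Z_generators]
  induction hx using Subgroup.closure_induction_right with
  | one => exact ⟨0, fun t _ k _ => by simp⟩
  | mul_right z _ y hy ih =>
    obtain ⟨C, hC⟩ := ih
    rcases hy with rfl | rfl
    · exact ⟨C, fun t ht k hk => by rw [gapI_S]; exact hC t ht k hk⟩
    · refine ⟨C₀ + C, fun t ht k hk => ?_⟩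
      refine (abs_sub_le _ (gapI M k z) _).trans ?_
      rw [add_mul]
      exact add_le_add (hT t ht k hk z) (hC t ht k hk)
  | mul_inv_cancel z _ y hy ih =>
    obtain ⟨C, hC⟩ := ih
    rcases hy with rfl | rfl
    · refine ⟨C, fun t ht k hk => ?_⟩
      rw [← gapI_S, inv_mul_cancel_right]; exact hC t ht k hk
    · refine ⟨C₀ + C, fun t ht k hk => ?_⟩
      refine (abs_sub_le _ (gapI M k z) _).trans ?_
      rw [add_mul]
      refine add_le_add ?_ (hC t ht k hk)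
      have := hT t ht k hk (z * ModularGroup.T⁻¹)
      rwa [inv_mul_cancel_right, abs_sub_comm] at this

theorem gap : ∃ η : ℝ, 0 < η ∧ η ≤ 1 / 2 ∧ ∀ M : ℕ, 0 < M → ∃ C : ℝ, ∀ V : ℝ, 1 ≤ V →
    ∀ k : ℝ → ℝ, (∀ u, 1 ≤ u → |k u| ≤ 1) →
      (∀ u v, 1 ≤ u → 1 ≤ v → |k u - k v| ≤ |u - v| / V) → (∀ u, V < u → k u = 0) →
    ∀ F : SL → ℝ, Lev M F → (∀ h, |F h| ≤ 1) → mean M F = 0 →
      |∑' h, k (Uy 1 h) * F h| ≤ C * V ^ (1 - η) := by
  refine ⟨1 / 200, by norm_num, by norm_num, fun M hM => ?_⟩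
  have : NeZero M := ⟨hM.ne'⟩
  have : Fintype (SL ⧸ CongruenceSubgroup.Gamma M) := Fintype.ofFinite _
  choose C hC using gap_one M hM
  refine ⟨∑ q : SL ⧸ CongruenceSubgroup.Gamma M, C q.out, ?_⟩
  intro V hV k k1 k2 k3 F hF F1 F0
  have V0 : 0 ≤ V := by linarith
  set t := V ^ (1 / 200 : ℝ) with htdef
  have ht : 1 ≤ t := Real.one_le_rpow hV (by norm_num)
  have htV : t ^ 200 = V := by
    rw [htdef, ← Real.rpow_natCast, ← Real.rpow_mul V0]; norm_num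
  have htV' : V ^ (1 - 1 / 200 : ℝ) = t ^ 199 := by
    rw [htdef, ← Real.rpow_natCast, ← Real.rpow_mul V0]; norm_num
  have hk : gapK (t ^ 200) k := by rw [htV]; exact ⟨k1, k2, k3⟩
  have hsum : ∑ q : SL ⧸ CongruenceSubgroup.Gamma M, F q.out = 0 := by
    unfold mean at F0
    rw [finsum_eq_sum_of_fintype, div_eq_zero_iff] at F0
    refine F0.resolve_right ?_
    exact_mod_cast (Nat.card_pos (α := SL ⧸ CongruenceSubgroup.Gamma M)).ne'
  have hcls : ∀ (h : SL) (q : SL ⧸ CongruenceSubgroup.Gamma M),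
      gapR M h = gapR M q.out ↔ (h : SL ⧸ CongruenceSubgroup.Gamma M) = q := by
    intro h q
    conv_rhs => rw [← QuotientGroup.out_eq' q]
    rw [QuotientGroup.eq, CongruenceSubgroup.Gamma_mem']
    change _ ↔ gapR M _ = 1
    rw [map_mul, map_inv, inv_mul_eq_one]
  have hFq : ∀ h : SL, F h = ∑ q : SL ⧸ CongruenceSubgroup.Gamma M,
      F q.out * ind (gapR M h = gapR M q.out) := by
    intro h
    rw [sum_eq_single (h : SL ⧸ CongruenceSubgroup.Gamma M)]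
    · obtain ⟨γ, hγ⟩ := QuotientGroup.mk_out_eq_mul (CongruenceSubgroup.Gamma M) h
      have : gapR M h = gapR M (h : SL ⧸ CongruenceSubgroup.Gamma M).out := (hcls h _).2 rfl
      rw [ind, if_pos this, mul_one, hγ, hF h γ γ.2]
    · intro q _ hq
      rw [ind, if_neg fun h' => hq ((hcls h q).1 h').symm, mul_zero]
    · simp
  have e : ∑' h, k (Uy 1 h) * F h = ∑ q : SL ⧸ CongruenceSubgroup.Gamma M,
      F q.out * (gapI M k q.out - gapI M k 1) := by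
    simp only [mul_sub, sum_sub_distrib, ← sum_mul, hsum, zero_mul, sub_zero]
    unfold gapI
    simp only [gap_tsum hk, mul_sum]
    rw [sum_comm]
    refine sum_congr rfl fun h _ => ?_
    rw [hFq h, mul_sum]
    exact sum_congr rfl fun q _ => by ring
  rw [e, htV', sum_mul]
  refine (abs_sum_le_sum_abs _ _).trans (sum_le_sum fun q _ => ?_)
  rw [abs_mul]
  exact (mul_le_mul (F1 _) (hC q.out t ht k hk) (abs_nonneg _) zero_le_one).trans (by rw [one_mul])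

end Pool.Agent.P.MP_a1177c_nt.EK
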