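import Pool.Agent.P.MP_a1177c_nt.EK.Lattice
import Pool.Agent.P.MP_a1177c_nt.EK.Dens

set_option autoImplicit false

namespace Pool.Agent.P.MP_a1177c_nt.EK

open Finset Filter
open scoped Classical

namespace Hasym

/-! ### The dyadic weight -/

noncomputable def psi (x : ℝ) : ℝ :=
  max 0 (min (1 - (max x 1)⁻¹) (2 * (max x 1)⁻¹ - 1 / 2))

noncomputable def ramp (x : ℝ) : ℝ := max 0 (min 1 (x - 1))

lemma psi_of_le {x : ℝ} (h : x ≤ 1) : psi x = 0 := by
  rw [psi, max_eq_right h]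
  norm_num

lemma psi_left {x : ℝ} (h1 : 1 ≤ x) (h2 : x ≤ 2) : psi x = 1 - x⁻¹ := by
  have a : x⁻¹ ≤ 1 := inv_le_one_of_one_le₀ h1
  have b : (2 : ℝ)⁻¹ ≤ x⁻¹ := inv_anti₀ (by linarith) h2
  rw [psi, max_eq_left h1, min_eq_left (by linarith), max_eq_right (by linarith)]

lemma psi_right {x : ℝ} (h1 : 2 ≤ x) (h2 : x ≤ 4) : psi x = 2 * x⁻¹ - 1 / 2 := by
  have a : x⁻¹ ≤ (2 : ℝ)⁻¹ := inv_anti₀ (by norm_num) h1
  have b : (4 : ℝ)⁻¹ ≤ x⁻¹ := inv_anti₀ (by linarith) h2
  rw [psi, max_eq_left (by linarith : (1 : ℝ) ≤ x), min_eq_right (by linarith),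
    max_eq_right (by linarith)]

lemma psi_of_ge {x : ℝ} (h : 4 ≤ x) : psi x = 0 := by
  have a : x⁻¹ ≤ (4 : ℝ)⁻¹ := inv_anti₀ (by norm_num) h
  rw [psi, max_eq_left (by linarith : (1 : ℝ) ≤ x)]
  exact max_eq_left ((min_le_right _ _).trans (by linarith))

lemma psi_eq {x : ℝ} (hx : 0 ≤ x) : psi x = (ramp x - ramp (x / 2)) / x := by
  rcases le_total x 1 with h1 | h1
  · rw [psi_of_le h1, ramp, ramp, max_eq_left ((min_le_right _ _).trans (by linarith)),
      max_eq_left ((min_le_right _ _).trans (by linarith))]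
    simp
  have h0 : x ≠ 0 := (by linarith : (0 : ℝ) < x).ne'
  rcases le_total x 2 with h2 | h2
  · rw [psi_left h1 h2, ramp, ramp, min_eq_right (by linarith), max_eq_right (by linarith),
      max_eq_left ((min_le_right _ _).trans (by linarith))]
    field_simp
    ring
  rcases le_total x 4 with h4 | h4
  · rw [psi_right h2 h4, ramp, ramp, min_eq_left (by linarith), max_eq_right (by linarith),
      min_eq_right (by linarith), max_eq_right (by linarith)]
    field_simp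
    ring
  · rw [psi_of_ge h4, ramp, ramp, min_eq_left (by linarith), min_eq_left (by linarith)]
    simp

lemma continuous_psi : Continuous psi := by
  have h : Continuous fun x : ℝ => (max x 1)⁻¹ :=
    (continuous_id.max continuous_const).inv₀ fun x => by
      have := le_max_right x 1
      intro h0
      simp only [id] at h0
      linarith
  unfold psi
  fun_prop

lemma integral_psi : ∫ x, psi x = Real.log 2 := by
  have hs : Function.support psi ⊆ Set.Ioc 1 4 := by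
    intro x hx
    by_contra hc
    simp only [Set.mem_Ioc, not_and_or, not_lt, not_le] at hc
    rcases hc with h | h
    · exact hx (psi_of_le h)
    · exact hx (psi_of_ge h.le)
  rw [← intervalIntegral.integral_eq_integral_of_support_subset hs,
    ← intervalIntegral.integral_add_adjacent_intervals (b := 2)
      (continuous_psi.intervalIntegrable _ _) (continuous_psi.intervalIntegrable _ _)]
  have i1 : IntervalIntegrable (fun x : ℝ => x⁻¹) MeasureTheory.volume 1 2 :=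
    intervalIntegral.intervalIntegrable_inv (fun x hx => by
      rw [Set.uIcc_of_le (by norm_num)] at hx; linarith [hx.1]) continuousOn_id
  have i2 : IntervalIntegrable (fun x : ℝ => x⁻¹) MeasureTheory.volume 2 4 :=
    intervalIntegral.intervalIntegrable_inv (fun x hx => by
      rw [Set.uIcc_of_le (by norm_num)] at hx; linarith [hx.1]) continuousOn_id
  have e1 : ∫ x in (1 : ℝ)..2, psi x = ∫ x in (1 : ℝ)..2, (1 - x⁻¹) :=
    intervalIntegral.integral_congr fun x hx => by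
      rw [Set.uIcc_of_le (by norm_num)] at hx
      exact psi_left hx.1 hx.2
  have e2 : ∫ x in (2 : ℝ)..4, psi x = ∫ x in (2 : ℝ)..4, (2 * x⁻¹ - 1 / 2) :=
    intervalIntegral.integral_congr fun x hx => by
      rw [Set.uIcc_of_le (by norm_num)] at hx
      exact psi_right hx.1 hx.2
  rw [e1, e2, intervalIntegral.integral_sub intervalIntegrable_const i1,
    intervalIntegral.integral_sub (i2.const_mul 2) intervalIntegrable_const,
    intervalIntegral.integral_const_mul, integral_inv_of_pos (by norm_num) (by norm_num),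
    integral_inv_of_pos (by norm_num) (by norm_num)]
  norm_num
  ring

lemma wt_psi : Wt 1 4 psi where
  pos := one_pos
  nonneg := fun x => le_max_left _ _
  le := fun x => by
    have : 0 ≤ (max x 1)⁻¹ := inv_nonneg.mpr (le_trans zero_le_one (le_max_right _ _))
    exact max_le (by norm_num) ((min_le_left _ _).trans (by linarith))
  lip := fun x y => by
    have h1 : |(max x 1)⁻¹ - (max y 1)⁻¹| ≤ |x - y| := by
      have a := le_max_right x 1
      have b := le_max_right y 1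
      have c : |max x 1 - max y 1| ≤ |x - y| := abs_max_sub_max_le_abs x y 1
      rw [inv_sub_inv (by linarith) (by linarith), abs_div, abs_sub_comm]
      refine (div_le_self (abs_nonneg _) ?_).trans c
      rw [abs_of_nonneg (by positivity)]
      nlinarith
    have h2 := abs_max_sub_max_le_max (0 : ℝ)
      (min (1 - (max x 1)⁻¹) (2 * (max x 1)⁻¹ - 1 / 2)) 0
      (min (1 - (max y 1)⁻¹) (2 * (max y 1)⁻¹ - 1 / 2))
    have h3 := abs_min_sub_min_le_max (1 - (max x 1)⁻¹) (2 * (max x 1)⁻¹ - 1 / 2)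
      (1 - (max y 1)⁻¹) (2 * (max y 1)⁻¹ - 1 / 2)
    have h0 := abs_nonneg (x - y)
    have h4 := abs_le.mp h1
    refine h2.trans (max_le (by simp) (h3.trans (max_le ?_ ?_)))
    · rw [abs_le]; constructor <;> linarith [h4.1, h4.2]
    · rw [abs_le]; constructor <;> linarith [h4.1, h4.2]
  supp := fun x hx => by
    by_contra hc
    simp only [not_and_or, not_le] at hc
    rcases hc with h | h
    · exact hx (psi_of_le h.le)
    · exact hx (psi_of_ge h.le)
  int_pos := by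
    rw [integral_psi]
    exact Real.log_pos (by norm_num)

lemma sum_psi (K : ℕ) {x : ℝ} (hx : 0 ≤ x) :
    ∑ k ∈ range K, psi (x / 2 ^ k) / 2 ^ k = (ramp x - ramp (x / 2 ^ K)) / x := by
  induction K with
  | zero => simp
  | succ K ih =>
    rw [sum_range_succ, ih, psi_eq (by positivity), div_div x, ← pow_succ]
    rcases hx.eq_or_lt with rfl | h
    · simp
    · field_simp
      ring

lemma ramp_nonneg (x : ℝ) : 0 ≤ ramp x := le_max_left _ _

lemma ramp_le (x : ℝ) : ramp x ≤ 1 := max_le zero_le_one (min_le_left _ _)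

lemma ramp_of_le {x : ℝ} (h : x ≤ 1) : ramp x = 0 :=
  max_eq_left ((min_le_right _ _).trans (by linarith))

lemma ramp_of_ge {x : ℝ} (h : 2 ≤ x) : ramp x = 1 := by
  rw [ramp, min_eq_left (by linarith), max_eq_right zero_le_one]

lemma ramp_mono {x y : ℝ} (h : x ≤ y) : ramp x ≤ ramp y := by
  unfold ramp
  gcongr

/-! ### The logarithmic lattice sum -/

noncomputable def ball (z : ℝ) : Finset GaussianInt := (finite_nrm z).toFinset

lemma mem_ball {z : ℝ} {μ : GaussianInt} : μ ∈ ball z ↔ (nrm μ : ℝ) ≤ z := by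
  simp [ball]

/-- The sum of `1 / nrm μ` over a disc, restricted by a condition on the norm. -/
noncomputable def Gs (W : ℕ) (z : ℝ) (Q : ℕ → Prop) : ℝ :=
  ∑ μ ∈ ball z with (nrm μ).Coprime W ∧ Q (nrm μ), (1 / nrm μ : ℝ)

noncomputable def T (W k : ℕ) : ℝ :=
  ∑' μ : GaussianInt, ind ((nrm μ).Coprime W) * (psi (nrm μ / 2 ^ k) / 2 ^ k)

lemma nrm_cast (μ : GaussianInt) : (nrm μ : ℤ) = μ.re ^ 2 + μ.im ^ 2 := by
  rw [nrm, GaussianInt.abs_natCast_norm, Zsqrtd.norm_def]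
  ring

lemma T_approx {W : ℕ} (hW : 0 < W) : ∃ C : ℝ, 0 ≤ C ∧ ∀ k,
    |T W k - Real.pi * dW W * Real.log 2| ≤ C * (3 / 4) ^ k := by
  obtain ⟨C1, h1⟩ := lattice_per wt_psi
  obtain ⟨C2, h2⟩ := lattice_area wt_psi
  refine ⟨|C1| * (W + (W : ℝ) ^ 2) + |C2|, by positivity, fun k => ?_⟩
  have hy : (1 : ℝ) ≤ 2 ^ k := one_le_pow₀ (by norm_num)
  have a := h1 (2 ^ k) hy W hW (fun t u => ind (IsCoprime (t ^ 2 + u ^ 2) (W : ℤ)))
    (fun t u => by unfold ind; split_ifs <;> simp) (fun t t' u u' ht hu => by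
      have hm : t ^ 2 + u ^ 2 ≡ t' ^ 2 + u' ^ 2 [ZMOD W] := (ht.pow 2).add (hu.pow 2)
      obtain ⟨c, hc⟩ := hm.dvd
      have e : t' ^ 2 + u' ^ 2 = t ^ 2 + u ^ 2 + W * c := by linarith
      simp only [e, IsCoprime.add_mul_left_left_iff])
  have b := h2 (2 ^ k) hy
  have e1 : (∑ v ∈ range W ×ˢ range W,
      ind (IsCoprime (((v.1 : ℕ) : ℤ) ^ 2 + ((v.2 : ℕ) : ℤ) ^ 2) (W : ℤ))) / (W : ℝ) ^ 2 =
      dW W := by
    unfold dW ind
    rw [Finset.card_filter]
    push_cast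
    congr 1
    refine sum_congr rfl fun v _ => ?_
    have : IsCoprime (((v.1 : ℕ) : ℤ) ^ 2 + ((v.2 : ℕ) : ℤ) ^ 2) (W : ℤ) ↔
        (v.1 ^ 2 + v.2 ^ 2).Coprime W := by
      rw [← Nat.isCoprime_iff_coprime]
      push_cast
      rfl
    by_cases h : (v.1 ^ 2 + v.2 ^ 2).Coprime W
    · rw [if_pos h, if_pos (this.mpr h)]
    · rw [if_neg h, if_neg (this.not.mpr h)]
  have e2 : T W k = (∑' μ : GaussianInt, ind (IsCoprime (μ.re ^ 2 + μ.im ^ 2) (W : ℤ)) *
      psi (nrm μ / 2 ^ k)) / 2 ^ k := by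
    rw [T, ← tsum_div_const]
    refine tsum_congr fun μ => ?_
    rw [← nrm_cast, Nat.isCoprime_iff_coprime, mul_div_assoc]
  rw [e1] at a
  rw [integral_psi] at b
  set A := ∑' μ : GaussianInt, ind (IsCoprime (μ.re ^ 2 + μ.im ^ 2) (W : ℤ)) *
      psi (nrm μ / 2 ^ k)
  set B := ∑' μ : GaussianInt, psi (nrm μ / 2 ^ k)
  have d0 := (dW_pos hW).le
  have d1 := dW_le hW
  have hs : (1 : ℝ) ≤ √(2 ^ k) := Real.one_le_sqrt.mpr hy
  have hs2 : √(2 ^ k) ≤ (3 / 4 : ℝ) ^ k * 2 ^ k := by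
    rw [Real.sqrt_le_left (by positivity), ← mul_pow, ← pow_mul, mul_comm k 2, pow_mul]
    gcongr
    norm_num
  have c1 : |A - dW W * B| ≤ |C1| * (W + (W : ℝ) ^ 2) * √(2 ^ k) := by
    refine a.trans ?_
    have : (W : ℝ) * √(2 ^ k) + (W : ℝ) ^ 2 ≤ (W + (W : ℝ) ^ 2) * √(2 ^ k) := by
      nlinarith [sq_nonneg (W : ℝ)]
    rw [mul_assoc]
    exact mul_le_mul (le_abs_self _) this (by positivity) (abs_nonneg _)
  have c2 : |dW W * B - dW W * (Real.pi * 2 ^ k * Real.log 2)| ≤ |C2| * √(2 ^ k) := by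
    rw [← mul_sub, abs_mul, abs_of_nonneg d0]
    refine (mul_le_of_le_one_left (abs_nonneg _) d1).trans (b.trans ?_)
    gcongr
    exact le_abs_self _
  have c3 := abs_sub_le A (dW W * B) (dW W * (Real.pi * 2 ^ k * Real.log 2))
  have e3 : T W k - Real.pi * dW W * Real.log 2 =
      (A - dW W * (Real.pi * 2 ^ k * Real.log 2)) / 2 ^ k := by
    rw [e2]
    field_simp
  rw [e3, abs_div, abs_of_nonneg (by positivity : (0 : ℝ) ≤ 2 ^ k), div_le_iff₀ (by positivity)]
  calc _ ≤ (|C1| * (W + (W : ℝ) ^ 2) + |C2|) * √(2 ^ k) := by linarith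
    _ ≤ (|C1| * (W + (W : ℝ) ^ 2) + |C2|) * ((3 / 4) ^ k * 2 ^ k) := by gcongr
    _ = _ := by ring

lemma sum_T_approx {W : ℕ} (hW : 0 < W) : ∃ C : ℝ, 0 ≤ C ∧ ∀ K : ℕ,
    |∑ k ∈ range K, T W k - K * (Real.pi * dW W * Real.log 2)| ≤ C := by
  obtain ⟨C, hC, h⟩ := T_approx hW
  refine ⟨C * 4, by positivity, fun K => ?_⟩
  have e : ∑ k ∈ range K, T W k - K * (Real.pi * dW W * Real.log 2) =
      ∑ k ∈ range K, (T W k - Real.pi * dW W * Real.log 2) := by
    simp [sum_sub_distrib]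
  rw [e]
  refine (abs_sum_le_sum_abs _ _).trans ((sum_le_sum fun k _ => h k).trans ?_)
  rw [← mul_sum]
  gcongr
  have := (summable_geometric_of_lt_one (r := (3 / 4 : ℝ)) (by norm_num)
    (by norm_num)).sum_le_tsum (range K) fun k _ => by positivity
  rw [tsum_geometric_of_lt_one (by norm_num) (by norm_num)] at this
  norm_num at this
  exact this

lemma sum_T_eq (W K : ℕ) {Z : ℝ} (hZ : 2 ^ (K + 1) ≤ Z) :
    ∑ k ∈ range K, T W k = ∑ μ ∈ ball Z,
      ind ((nrm μ).Coprime W) * ((ramp (nrm μ) - ramp (nrm μ / 2 ^ K)) / nrm μ) := by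
  have h : ∀ k ∈ range K, T W k = ∑ μ ∈ ball Z,
      ind ((nrm μ).Coprime W) * (psi (nrm μ / 2 ^ k) / 2 ^ k) := by
    intro k hk
    refine tsum_eq_sum fun μ hμ => ?_
    rw [mem_ball, not_le] at hμ
    have h1 : (2 : ℝ) ^ (k + 2) ≤ 2 ^ (K + 1) :=
      pow_le_pow_right₀ (by norm_num) (by have := mem_range.mp hk; omega)
    rw [psi_of_ge, zero_div, mul_zero]
    rw [le_div_iff₀ (by positivity)]
    rw [pow_add] at h1
    linarith
  rw [sum_congr rfl h, sum_comm]
  refine sum_congr rfl fun μ _ => ?_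
  rw [← mul_sum, sum_psi K (Nat.cast_nonneg _)]

lemma Gs_true (W : ℕ) (z : ℝ) : Gs W z (fun _ => True) =
    ∑ μ ∈ ball z, ind ((nrm μ).Coprime W) * (1 / nrm μ : ℝ) := by
  rw [Gs, sum_filter]
  refine sum_congr rfl fun μ _ => ?_
  unfold ind
  split_ifs <;> simp_all

lemma Gs_eq (W : ℕ) (z : ℝ) (Q : ℕ → Prop) : Gs W z Q =
    ∑ μ ∈ ball z, ind ((nrm μ).Coprime W ∧ Q (nrm μ)) * (1 / nrm μ : ℝ) := by
  rw [Gs, sum_filter]
  refine sum_congr rfl fun μ _ => ?_
  unfold ind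
  split_ifs <;> simp_all

lemma ind_pos {p : Prop} (h : p) : ind p = 1 := if_pos h

lemma ind_neg {p : Prop} (h : ¬ p) : ind p = 0 := if_neg h

lemma ind_nonneg (p : Prop) : 0 ≤ ind p := by unfold ind; split_ifs <;> simp

lemma ind_le (p : Prop) : ind p ≤ 1 := by unfold ind; split_ifs <;> simp

lemma G_lower (W K : ℕ) {z : ℝ} (hz : 2 ^ (K + 1) ≤ z) :
    ∑ k ∈ range K, T W k ≤ Gs W z fun _ => True := by
  rw [sum_T_eq W K hz, Gs_true]
  refine sum_le_sum fun μ _ => mul_le_mul_of_nonneg_left ?_ (ind_nonneg _)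
  have := ramp_le (nrm μ)
  have := ramp_nonneg (nrm μ / 2 ^ K)
  gcongr
  linarith

lemma G_upper (W K : ℕ) {z : ℝ} (hz : z ≤ 2 ^ K) :
    (Gs W z fun _ => True) ≤ 9 + ∑ k ∈ range K, T W k := by
  rw [sum_T_eq W K le_rfl, Gs_true]
  have h1 : ∀ μ ∈ ball z, ind ((nrm μ).Coprime W) * (1 / nrm μ : ℝ) ≤
      (if μ ∈ ball 1 then 1 else 0) +
        ind ((nrm μ).Coprime W) * ((ramp (nrm μ) - ramp (nrm μ / 2 ^ K)) / nrm μ) := by
    intro μ hμ
    rw [mem_ball] at hμ
    rw [ramp_of_le (x := nrm μ / 2 ^ K) (by rw [div_le_one (by positivity)]; linarith), sub_zero]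
    have i0 := ind_nonneg ((nrm μ).Coprime W)
    have i1 := ind_le ((nrm μ).Coprime W)
    split_ifs with h
    · have a : (1 / nrm μ : ℝ) ≤ 1 := by
        rcases Nat.eq_zero_or_pos (nrm μ) with h0 | h0
        · simp [h0]
        · rw [div_le_one (by exact_mod_cast h0)]
          exact_mod_cast h0
      have b : 0 ≤ ind ((nrm μ).Coprime W) * (ramp (nrm μ) / nrm μ) :=
        mul_nonneg i0 (div_nonneg (ramp_nonneg _) (Nat.cast_nonneg _))
      have c := mul_le_mul i1 a (by positivity) zero_le_one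
      linarith
    · rw [mem_ball, not_le] at h
      have h2 : 2 ≤ nrm μ := by exact_mod_cast h
      rw [ramp_of_ge (by exact_mod_cast h2), zero_add]
  refine (sum_le_sum h1).trans ?_
  rw [sum_add_distrib]
  refine add_le_add ?_ ?_
  · rw [Finset.sum_boole]
    have a : (#{μ ∈ ball z | μ ∈ ball 1} : ℝ) ≤ #(ball 1) := by
      exact_mod_cast card_le_card fun μ hμ => (mem_filter.mp hμ).2
    have b := ncard_nrm_le (y := 1) le_rfl
    rw [Set.ncard_eq_toFinset_card _ (finite_nrm 1)] at b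
    have c : (#(ball 1) : ℝ) ≤ 9 * 1 := b
    linarith
  · refine sum_le_sum_of_subset_of_nonneg (fun μ hμ => ?_) fun μ _ _ => ?_
    · rw [mem_ball] at hμ ⊢
      rw [pow_succ]
      have : (0 : ℝ) < 2 ^ K := by positivity
      linarith
    · refine mul_nonneg (ind_nonneg _) (div_nonneg (sub_nonneg.mpr (ramp_mono ?_))
        (Nat.cast_nonneg _))
      exact div_le_self (Nat.cast_nonneg _) (one_le_pow₀ (by norm_num))

lemma Gs_nonneg (W : ℕ) (z : ℝ) (Q : ℕ → Prop) : 0 ≤ Gs W z Q :=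
  sum_nonneg fun _ _ => by positivity

lemma G_approx {W : ℕ} (hW : 0 < W) : ∃ C : ℝ, 0 ≤ C ∧ ∀ z : ℝ, 1 ≤ z →
    |(Gs W z fun _ => True) - Real.pi * dW W * Real.log z| ≤ C := by
  obtain ⟨C, hC, h⟩ := sum_T_approx hW
  have d0 := (dW_pos hW).le
  have l2 : 0 < Real.log 2 := Real.log_pos (by norm_num)
  have hp := Real.pi_pos
  set a := Real.pi * dW W with ha
  have a0 : 0 ≤ a := by positivity
  refine ⟨C + 9 + 2 * (a * Real.log 2), by positivity, fun z hz => ?_⟩
  obtain ⟨K, h1, h2⟩ := exists_nat_pow_near hz (show (1 : ℝ) < 2 by norm_num)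
  have b1 : K * Real.log 2 ≤ Real.log z := by
    rw [← Real.log_pow]; exact Real.log_le_log (by positivity) h1
  have b2 : Real.log z ≤ (K + 1) * Real.log 2 := by
    have := Real.log_le_log (by linarith) h2.le
    rwa [Real.log_pow, Nat.cast_add_one] at this
  have c1 := mul_le_mul_of_nonneg_left b1 a0
  have c2 := mul_le_mul_of_nonneg_left b2 a0
  have a1 : 0 ≤ a * Real.log 2 := by positivity
  rw [abs_le]
  constructor
  · cases K with
    | zero =>
      have := Gs_nonneg W z fun _ => True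
      push_cast at c2
      linarith
    | succ K =>
      have u := G_lower W K h1
      have v := (abs_le.mp (h K)).1
      push_cast at c2
      linarith
  · have u := G_upper W (K + 1) h2.le
    have v := (abs_le.mp (h (K + 1))).2
    push_cast at v
    linarith

/-! ### Divisibility of norms -/

lemma nrm_mul (a b : GaussianInt) : nrm (a * b) = nrm a * nrm b := by
  simp [nrm, Zsqrtd.norm_mul, Int.natAbs_mul]

lemma nrm_star (a : GaussianInt) : nrm (star a) = nrm a := by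
  simp [nrm, Zsqrtd.norm_conj]

lemma nrm_natCast (n : ℕ) : nrm (n : GaussianInt) = n * n := by
  simp [nrm, Zsqrtd.norm_natCast, Int.natAbs_mul]

lemma dvd_or {π μ : GaussianInt} {p : ℕ} (hπ : Prime π) (h : π ∣ (p : GaussianInt))
    (hp : p ∣ nrm μ) : π ∣ μ ∨ star π ∣ μ := by
  have e : ((nrm μ : ℕ) : GaussianInt) = μ * star μ := by
    rw [← Zsqrtd.norm_eq_mul_conj, nrm, GaussianInt.natCast_natAbs_norm]
  have : π ∣ μ * star μ := e ▸ h.trans (Nat.cast_dvd_cast hp)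
  rcases hπ.dvd_or_dvd this with h1 | ⟨c, hc⟩
  · exact Or.inl h1
  · refine Or.inr ⟨star c, ?_⟩
    rw [← star_star μ, hc, star_mul, mul_comm]

lemma exists_pi {p : ℕ} (hp : p.Prime) : ∃ π : GaussianInt, (nrm π = p ∨ nrm π = p * p) ∧
    ∀ μ, p ∣ nrm μ → π ∣ μ ∨ star π ∣ μ := by
  have h0 : (p : GaussianInt) ≠ 0 := Nat.cast_ne_zero.mpr hp.ne_zero
  have hu : ¬ IsUnit (p : GaussianInt) := by
    rw [← Zsqrtd.norm_eq_one_iff]
    have := nrm_natCast p
    unfold nrm at this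
    rw [this]
    nlinarith [hp.two_le]
  obtain ⟨π, hπ, hd⟩ := WfDvdMonoid.exists_irreducible_factor hu h0
  refine ⟨π, ?_, fun μ hμ => dvd_or hπ.prime hd hμ⟩
  obtain ⟨c, hc⟩ := hd
  have e : nrm π ∣ p ^ 2 := ⟨nrm c, by rw [← nrm_mul, ← hc, nrm_natCast, sq]⟩
  obtain ⟨i, hi, he⟩ := (Nat.dvd_prime_pow hp).mp e
  interval_cases i
  · exact absurd (Zsqrtd.norm_eq_one_iff.mp (by simpa [nrm] using he)) hπ.not_isUnit
  · left; simpa using he
  · right; rw [he, sq]

lemma sq_dvd_of_three {p : ℕ} (hp : p.Prime) (h3 : p % 4 = 3) {μ : GaussianInt}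
    (h : p ∣ nrm μ) : p * p ∣ nrm μ := by
  have := Fact.mk hp
  rcases dvd_or (GaussianInt.prime_of_nat_prime_of_mod_four_eq_three p h3) dvd_rfl h with
    ⟨c, hc⟩ | ⟨c, hc⟩
  · exact ⟨nrm c, by rw [hc, nrm_mul, nrm_natCast]⟩
  · exact ⟨nrm c, by rw [hc, nrm_mul, nrm_star, nrm_natCast]⟩

lemma Gs_mono (W : ℕ) (z : ℝ) {Q Q' : ℕ → Prop} (h : ∀ n, Q n → Q' n) :
    Gs W z Q ≤ Gs W z Q' :=
  sum_le_sum_of_subset_of_nonneg (fun μ hμ => by
    simp only [mem_filter] at hμ ⊢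
    exact ⟨hμ.1, hμ.2.1, h _ hμ.2.2⟩) fun _ _ _ => by positivity

lemma sum_dvd_le (W : ℕ) (z : ℝ) (Q : ℕ → Prop) {κ : GaussianInt} (hκ : 0 < nrm κ) :
    ∑ μ ∈ ball z with ((nrm μ).Coprime W ∧ Q (nrm μ)) ∧ κ ∣ μ, (1 / nrm μ : ℝ) ≤
      1 / nrm κ * Gs W z fun n => Q (nrm κ * n) := by
  have h0 : κ ≠ 0 := by
    rintro rfl
    simp [nrm] at hκ
  calc _ ≤ ∑ μ ∈ ({ν ∈ ball z | (nrm ν).Coprime W ∧ Q (nrm κ * nrm ν)} : Finset _).image
        (κ * ·), (1 / nrm μ : ℝ) := by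
        refine sum_le_sum_of_subset_of_nonneg (fun μ hμ => ?_) fun _ _ _ => by positivity
        simp only [mem_filter, mem_ball] at hμ
        obtain ⟨h1, ⟨h2, h3⟩, ν, rfl⟩ := hμ
        refine mem_image_of_mem _ ?_
        rw [nrm_mul] at h1 h2 h3
        simp only [mem_filter, mem_ball]
        refine ⟨le_trans ?_ h1, Nat.Coprime.coprime_mul_left h2, h3⟩
        exact_mod_cast Nat.le_mul_of_pos_left _ hκ
    _ = _ := by
        rw [sum_image fun a _ b _ h => mul_left_cancel₀ h0 h, Gs, mul_sum]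
        refine sum_congr rfl fun ν _ => ?_
        rw [nrm_mul, Nat.cast_mul, one_div_mul_one_div]

lemma Gs_prime {p : ℕ} (hp : p.Prime) : ∃ m : ℕ, (m = p ∨ m = p * p) ∧
    ∀ (W : ℕ) (z : ℝ) (Q : ℕ → Prop), (∀ n, Q n → p ∣ n) →
      Gs W z Q ≤ 2 / m * Gs W z fun n => Q (m * n) := by
  obtain ⟨π, h1, h2⟩ := exists_pi hp
  refine ⟨nrm π, h1, fun W z Q hQ => ?_⟩
  have h0 : 0 < nrm π := by
    have := hp.pos
    rcases h1 with h | h <;> rw [h] <;> positivity
  have a := sum_dvd_le W z Q h0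
  have b := sum_dvd_le W z Q (κ := star π) (by rwa [nrm_star])
  rw [nrm_star] at b
  have c : Gs W z Q ≤
      ∑ μ ∈ ball z with ((nrm μ).Coprime W ∧ Q (nrm μ)) ∧ π ∣ μ, (1 / nrm μ : ℝ) +
      ∑ μ ∈ ball z with ((nrm μ).Coprime W ∧ Q (nrm μ)) ∧ star π ∣ μ, (1 / nrm μ : ℝ) := by
    rw [Gs, sum_filter, sum_filter, sum_filter, ← sum_add_distrib]
    refine sum_le_sum fun μ _ => ?_
    have p0 : (0 : ℝ) ≤ 1 / nrm μ := by positivity
    by_cases h : (nrm μ).Coprime W ∧ Q (nrm μ)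
    · rcases h2 μ (hQ _ h.2) with h3 | h3
      · rw [if_pos h, if_pos ⟨h, h3⟩]
        split_ifs <;> linarith
      · rw [if_pos h, if_pos (show _ ∧ star π ∣ μ from ⟨h, h3⟩)]
        split_ifs <;> linarith
    · rw [if_neg h]
      split_ifs <;> linarith
  have e : (2 / nrm π : ℝ) = 1 / nrm π + 1 / nrm π := by ring
  rw [e, add_mul]
  linarith

lemma Gs_dvd {p : ℕ} (hp : p.Prime) (W : ℕ) (z : ℝ) :
    (Gs W z fun n => p ∣ n) ≤ 2 / p * Gs W z fun _ => True := by
  obtain ⟨m, hm, h⟩ := Gs_prime hp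
  refine (h W z _ fun n hn => hn).trans ?_
  have h1 : (p : ℝ) ≤ m := by
    rcases hm with rfl | rfl
    · exact le_rfl
    · exact_mod_cast Nat.le_mul_self p
  have h2 : (0 : ℝ) < p := by exact_mod_cast hp.pos
  exact mul_le_mul (by gcongr) (Gs_mono W z fun _ _ => trivial) (Gs_nonneg _ _ _) (by positivity)

lemma Gs_sq_dvd {p : ℕ} (hp : p.Prime) (W : ℕ) (z : ℝ) :
    (Gs W z fun n => p * p ∣ n) ≤ 4 * ((p : ℝ) ^ 2)⁻¹ * Gs W z fun _ => True := by
  obtain ⟨m, hm, h⟩ := Gs_prime hp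
  refine (h W z _ fun n hn => (Dvd.intro _ rfl).trans hn).trans ?_
  have h2 : (0 : ℝ) < p := by exact_mod_cast hp.pos
  have g0 := Gs_nonneg W z fun _ => True
  rcases hm with rfl | rfl
  · have a : (Gs W z fun n => m * m ∣ m * n) ≤ Gs W z fun n => m ∣ n :=
      Gs_mono W z fun n hn => Nat.dvd_of_mul_dvd_mul_left hp.pos hn
    calc _ ≤ 2 / (m : ℝ) * (2 / m * Gs W z fun _ => True) := by
          gcongr
          exact a.trans (Gs_dvd hp W z)
      _ = _ := by field_simp; ring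
  · refine mul_le_mul ?_ (Gs_mono W z fun _ _ => trivial) (Gs_nonneg _ _ _) (by positivity)
    push_cast
    rw [div_eq_mul_inv, sq]
    gcongr
    norm_num

/-! ### Comparison with the sieve sum -/

lemma four_Hs {W : ℕ} {P : Finset ℕ} (hP : ∀ p ∈ P, p.Prime ∧ p % 4 = 1 ∧ ¬ p ∣ W) (z : ℝ) :
    4 * Hs P z = Gs W z fun n => ∏ p ∈ n.primeFactors, p = n ∧ n.primeFactors ⊆ P := by
  rw [Gs, ← sum_fiberwise_of_maps_to (t := {S ∈ P.powerset | pr S ≤ z})
    (g := fun μ => (nrm μ).primeFactors), Hs, mul_sum]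
  · refine sum_congr rfl fun S hS => ?_
    simp only [mem_filter, mem_powerset] at hS
    have hSp : ∀ p ∈ S, p.Prime := fun p hp => (hP p (hS.1 hp)).1
    have hc : pr S = ((∏ p ∈ S, p : ℕ) : ℝ) := by rw [pr, Nat.cast_prod]
    have e : ∀ μ, (μ ∈ ball z ∧ (nrm μ).Coprime W ∧
        (∏ p ∈ (nrm μ).primeFactors, p = nrm μ ∧ (nrm μ).primeFactors ⊆ P)) ∧
        (nrm μ).primeFactors = S ↔ μ ∈ ball z ∧ nrm μ = ∏ p ∈ S, p := by
      intro μ
      constructor
      · rintro ⟨⟨h1, -, h2, -⟩, h3⟩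
        exact ⟨h1, by rw [← h3, h2]⟩
      · rintro ⟨h1, h2⟩
        have h3 : (nrm μ).primeFactors = S := by rw [h2, Nat.primeFactors_prod hSp]
        refine ⟨⟨h1, ?_, by rw [h3, h2], h3 ▸ hS.1⟩, h3⟩
        rw [h2]
        exact Nat.Coprime.prod_left fun p hp =>
          (Nat.Prime.coprime_iff_not_dvd (hSp p hp)).mpr (hP p (hS.1 hp)).2.2
    have hcard : #{μ ∈ ball z | nrm μ = ∏ p ∈ S, p} = 4 * 2 ^ #S := by
      rw [← ncard_nrm_eq S fun p hp => ⟨hSp p hp, (hP p (hS.1 hp)).2.1⟩,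
        ← Set.ncard_coe_finset]
      congr 1
      ext μ
      simp only [coe_filter, mem_ball, Set.mem_ofPred_eq, and_iff_right_iff_imp]
      intro h
      rw [h, ← hc]
      exact hS.2
    rw [sum_congr (s₂ := {μ ∈ ball z | nrm μ = ∏ p ∈ S, p}) (g := fun _ => 1 / pr S)
      (by ext μ; simp only [mem_filter]; exact e μ) fun μ hμ => by rw [(mem_filter.mp hμ).2, hc],
      sum_const, hcard, EK.hS, prod_div_distrib, prod_const, pr, nsmul_eq_mul]
    push_cast
    ring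
  · intro μ hμ
    simp only [mem_filter, mem_ball, mem_powerset] at hμ ⊢
    refine ⟨hμ.2.2.2, ?_⟩
    rw [pr, ← Nat.cast_prod, hμ.2.2.1]
    exact hμ.1

lemma Gs_le_Hs {W D : ℕ} (hD : 2 ≤ D) (hDW : ∀ p : ℕ, p.Prime → p ≤ D → p ∣ W) {R η : ℝ}
    {P : Finset ℕ} (hP : Good W R η P) {z : ℝ} (hz : z ≤ R) :
    (Gs W z fun _ => True) ≤ 4 * Hs P z + (8 / (D + 1) + 2 * η) * Gs W z fun _ => True := by
  obtain ⟨Ex, h1, -, h3⟩ := hP
  have h2W : 2 ∣ W := hDW 2 Nat.prime_two hD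
  rw [four_Hs (W := W) fun p hp => by have := (h3 p).mp hp; tauto]
  set N := ⌊z⌋₊ + 1
  have g0 := Gs_nonneg W z fun _ => True
  have key : (Gs W z fun _ => True) ≤
      (Gs W z fun n => ∏ p ∈ n.primeFactors, p = n ∧ n.primeFactors ⊆ P) +
      ∑ p ∈ Ioo D N with p.Prime, (Gs W z fun n => p * p ∣ n) +
      ∑ p ∈ Ex with p.Prime, (Gs W z fun n => p ∣ n) := by
    simp only [Gs_eq]
    rw [sum_comm (t := ball z), sum_comm (t := ball z), ← sum_add_distrib, ← sum_add_distrib]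
    refine sum_le_sum fun μ hμ => ?_
    rw [mem_ball] at hμ
    have p0 : (0 : ℝ) ≤ 1 / nrm μ := by positivity
    have s1 : ∀ (s : Finset ℕ) (Q : ℕ → Prop), (0 : ℝ) ≤
        ∑ p ∈ s, ind ((nrm μ).Coprime W ∧ Q p) * (1 / nrm μ : ℝ) :=
      fun s Q => sum_nonneg fun _ _ => mul_nonneg (ind_nonneg _) p0
    have s2 : ∀ (s : Finset ℕ) (Q : ℕ → Prop), (nrm μ).Coprime W → ∀ q ∈ s, Q q →
        (1 / nrm μ : ℝ) ≤ ∑ p ∈ s, ind ((nrm μ).Coprime W ∧ Q p) * (1 / nrm μ : ℝ) := by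
      intro s Q hc q hq hQ
      have := single_le_sum (f := fun p => ind ((nrm μ).Coprime W ∧ Q p) * (1 / nrm μ : ℝ))
        (fun _ _ => mul_nonneg (ind_nonneg _) p0) hq
      rwa [ind_pos ⟨hc, hQ⟩, one_mul] at this
    have t1 := s1 {p ∈ Ioo D N | p.Prime} fun p => p * p ∣ nrm μ
    have t2 := s1 {p ∈ Ex | p.Prime} fun p => p ∣ nrm μ
    have t0 := mul_nonneg (ind_nonneg ((nrm μ).Coprime W ∧
      (∏ p ∈ (nrm μ).primeFactors, p = nrm μ ∧ (nrm μ).primeFactors ⊆ P))) p0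
    by_cases hc : (nrm μ).Coprime W
    swap
    · rw [ind_neg fun h => hc h.1, zero_mul]
      linarith
    rw [ind_pos ⟨hc, trivial⟩, one_mul]
    have hn0 : nrm μ ≠ 0 := by
      intro h0
      rw [h0, Nat.coprime_zero_left] at hc
      omega
    have hnd : ∀ p : ℕ, p.Prime → p ∣ nrm μ → ¬ p ∣ W := fun p hp h h' =>
      hp.one_lt.ne' (Nat.eq_one_of_dvd_coprimes hc h h')
    by_cases hsq : Squarefree (nrm μ)
    · by_cases hsub : (nrm μ).primeFactors ⊆ P
      · rw [ind_pos ⟨hc, Nat.prod_primeFactors_of_squarefree hsq, hsub⟩]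
        linarith
      · obtain ⟨q, hq, hqP⟩ := not_subset.mp hsub
        have hq1 := Nat.prime_of_mem_primeFactors hq
        have hq2 := Nat.dvd_of_mem_primeFactors hq
        have hq3 := hnd q hq1 hq2
        have hq4 : q % 4 = 1 := by
          have a : q % 4 ≠ 3 := fun h =>
            Nat.squarefree_iff_prime_squarefree.mp hsq q hq1 (sq_dvd_of_three hq1 h hq2)
          have b : q % 2 = 1 := hq1.eq_two_or_odd.resolve_left fun h => hq3 (h ▸ h2W)
          omega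
        have hq5 : (q : ℝ) ≤ R := by
          have : (q : ℝ) ≤ nrm μ := by exact_mod_cast Nat.le_of_dvd (Nat.pos_of_ne_zero hn0) hq2
          linarith
        have hq6 : q ∈ Ex := by
          by_contra h
          exact hqP ((h3 q).mpr ⟨hq1, hq4, hq5, hq3, h⟩)
        have := s2 {p ∈ Ex | p.Prime} (fun p => p ∣ nrm μ) hc q (mem_filter.mpr ⟨hq6, hq1⟩) hq2
        linarith
    · rw [Nat.squarefree_iff_prime_squarefree] at hsq
      push Not at hsq
      obtain ⟨q, hq1, hq2⟩ := hsq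
      have hq3 : q ∣ nrm μ := (Dvd.intro _ rfl).trans hq2
      have hq4 : D < q := by
        by_contra h
        exact hnd q hq1 hq3 (hDW q hq1 (not_lt.mp h))
      have hq5 : q < N := by
        have a : q ≤ nrm μ := Nat.le_of_dvd (Nat.pos_of_ne_zero hn0) hq3
        have b : nrm μ ≤ ⌊z⌋₊ := Nat.le_floor hμ
        omega
      have := s2 {p ∈ Ioo D N | p.Prime} (fun p => p * p ∣ nrm μ) hc q
        (mem_filter.mpr ⟨mem_Ioo.mpr ⟨hq4, hq5⟩, hq1⟩) hq2
      linarith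
  have b1 : ∑ p ∈ Ioo D N with p.Prime, (Gs W z fun n => p * p ∣ n) ≤
      8 / (D + 1) * Gs W z fun _ => True := by
    refine (sum_le_sum fun p hp => Gs_sq_dvd (mem_filter.mp hp).2 W z).trans ?_
    rw [← sum_mul, ← mul_sum]
    gcongr
    have a := sum_Ioo_inv_sq_le (α := ℝ) D N
    have b : ∑ p ∈ Ioo D N with p.Prime, ((p : ℝ) ^ 2)⁻¹ ≤ ∑ p ∈ Ioo D N, ((p : ℝ) ^ 2)⁻¹ :=
      sum_le_sum_of_subset_of_nonneg (filter_subset _ _) fun _ _ _ => by positivity
    have c : (8 / (D + 1) : ℝ) = 4 * (2 / (D + 1)) := by ring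
    linarith
  have b2 : ∑ p ∈ Ex with p.Prime, (Gs W z fun n => p ∣ n) ≤
      2 * η * Gs W z fun _ => True := by
    refine (sum_le_sum fun p hp => Gs_dvd (mem_filter.mp hp).2 W z).trans ?_
    rw [← sum_mul]
    gcongr
    have b : ∑ p ∈ Ex with p.Prime, (2 / p : ℝ) ≤ ∑ p ∈ Ex, (2 / p : ℝ) :=
      sum_le_sum_of_subset_of_nonneg (filter_subset _ _) fun _ _ _ => by positivity
    have c : ∑ p ∈ Ex, (2 / p : ℝ) = 2 * ∑ p ∈ Ex, (1 / p : ℝ) := by
      rw [mul_sum]; exact sum_congr rfl fun _ _ => by ring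
    linarith
  rw [add_mul]
  linarith

lemma Hs_of_lt {P : Finset ℕ} (hP : ∀ p ∈ P, p.Prime) {z : ℝ} (hz : z < 1) : Hs P z = 0 := by
  refine sum_eq_zero fun S hS => ?_
  simp only [mem_filter, mem_powerset] at hS
  have : 1 ≤ pr S := by
    rw [pr, ← Nat.cast_prod]
    exact_mod_cast Nat.one_le_iff_ne_zero.mpr
      (prod_ne_zero_iff.mpr fun p hp => (hP p (hS.1 hp)).ne_zero)
  linarith [hS.2]

end Hasym

open Hasym in
theorem hasym (η : ℝ) (hη : 0 < η) : ∃ (D : ℕ) (η₁ : ℝ), 0 < η₁ ∧ ∀ W : ℕ, 0 < W →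
    (∀ p : ℕ, p.Prime → p ≤ D → p ∣ W) → ∀ᶠ R : ℝ in atTop, ∀ P, Good W R η₁ P →
      ∀ z : ℝ, 0 < z → z ≤ R →
        |Hs P z - Hstar W R * (max 0 (Real.log z) / Real.log R)| ≤ η * Hstar W R := by
  set e := min η 1 with he
  have e0 : 0 < e := lt_min hη one_pos
  have e1 : e ≤ η := min_le_left _ _
  have e2 : e ≤ 1 := min_le_right _ _
  refine ⟨⌈32 / e⌉₊ + 2, e / 8, by positivity, fun W hW hDW => ?_⟩
  set D := ⌈32 / e⌉₊ + 2 with hD
  have hθ : (8 / (D + 1) + 2 * (e / 8) : ℝ) ≤ e / 2 := by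
    have a : 32 / e ≤ (D : ℝ) + 1 := by
      have := Nat.le_ceil (32 / e)
      rw [hD]; push_cast; linarith
    have b : (8 / (D + 1) : ℝ) ≤ e / 4 := by
      rw [div_le_iff₀ e0] at a
      rw [div_le_iff₀ (by positivity)]
      linarith
    linarith
  obtain ⟨C, hC, hG⟩ := G_approx hW
  have d0 := dW_pos hW
  have hp := Real.pi_pos
  set a := Real.pi * dW W with ha
  have a0 : 0 < a := by positivity
  filter_upwards [Real.tendsto_log_atTop.eventually_ge_atTop (4 * C / (η * a)),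
    eventually_gt_atTop 1] with R hR hR1 P hP z hz hzR
  have L0 : 0 < Real.log R := Real.log_pos hR1
  have hH : Hstar W R = a * Real.log R / 4 := by rw [Hstar, ha]; ring
  have hm : Hstar W R * (max 0 (Real.log z) / Real.log R) = a * max 0 (Real.log z) / 4 := by
    rw [hH]; field_simp
  have hP' : ∀ p ∈ P, p.Prime ∧ p % 4 = 1 ∧ ¬ p ∣ W := by
    obtain ⟨Ex, -, -, h3⟩ := hP
    intro p hp
    have := (h3 p).mp hp
    tauto
  rw [hm, hH]
  rcases lt_or_ge z 1 with h1 | h1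
  · rw [Hs_of_lt (fun p hp => (hP' p hp).1) h1, max_eq_left (Real.log_nonpos hz.le h1.le)]
    simp only [mul_zero, zero_div, sub_self, abs_zero]
    positivity
  · rw [max_eq_right (Real.log_nonneg h1)]
    obtain ⟨g1, g2⟩ := abs_le.mp (hG z h1)
    have u1 : 4 * Hs P z ≤ Gs W z fun _ => True := by
      rw [four_Hs hP']
      exact Gs_mono W z fun _ _ => trivial
    have u2 := Gs_le_Hs (by omega) hDW hP hzR
    have g0 := Gs_nonneg W z fun _ => True
    have l1 : a * Real.log z ≤ a * Real.log R :=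
      mul_le_mul_of_nonneg_left (Real.log_le_log hz hzR) a0.le
    have u3 : (8 / (D + 1) + 2 * (e / 8) : ℝ) * (Gs W z fun _ => True) ≤
        e / 2 * (a * Real.log R + C) := mul_le_mul hθ (by linarith) g0 (by positivity)
    have u4 : 4 * C ≤ η * (a * Real.log R) := by
      rw [div_le_iff₀ (by positivity)] at hR
      linarith
    have u5 : e * (a * Real.log R) ≤ η * (a * Real.log R) := by gcongr
    have u6 : e * C ≤ C := mul_le_of_le_one_left hC e2
    rw [abs_le]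
    constructor <;> nlinarith

end Pool.Agent.P.MP_a1177c_nt.EK
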