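import Pool.Agent.P.MP_a1177c_nt.EK.Abel

set_option autoImplicit false

namespace Pool.Agent.P.MP_a1177c_nt.EK

open Finset Filter
open scoped Classical

open MeasureTheory Topology

theorem inv_int_le {f : ℝ → ℝ} {T : Set ℝ} (hfin : volume T ≠ ⊤)
    {M : ℝ} (h0 : ∀ ξ, ξ ∉ T → f ξ = 0) (hM : ∀ ξ, |f ξ| ≤ M) :
    |∫ ξ, f ξ| ≤ M * volume.real T := by
  rw [← setIntegral_eq_integral_of_forall_compl_eq_zero h0]
  have := norm_setIntegral_le_of_norm_le_const (μ := volume) (s := T) (f := f) (C := M)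
    hfin.lt_top (fun x _ => by simpa using hM x)
  simpa using this

/-- The two intervals carrying the integrand of the Abel transform. -/
def invSet (R u : ℝ) : Set ℝ :=
  Set.Icc (√(-u)) (√(-u) + √R) ∪ Set.Icc (-(√(-u) + √R)) (-√(-u))

theorem invSet_fin (R u : ℝ) : volume (invSet R u) ≠ ⊤ := by
  unfold invSet
  exact (measure_union_lt_top measure_Icc_lt_top measure_Icc_lt_top).ne

theorem invSet_le (R u : ℝ) : volume.real (invSet R u) ≤ 2 * √R := by
  unfold invSet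
  refine (measureReal_union_le _ _).trans ?_
  have h := Real.sqrt_nonneg R
  rw [Real.volume_real_Icc_of_le (by linarith), Real.volume_real_Icc_of_le (by linarith)]
  linarith

theorem invSet_mem {R u ξ : ℝ} (hR : 0 ≤ R) (h1 : 0 < u + ξ ^ 2) (h2 : u + ξ ^ 2 ≤ R) :
    ξ ∈ invSet R u := by
  have ha : √(-u) ≤ |ξ| := by
    rw [← Real.sqrt_sq_eq_abs]
    exact Real.sqrt_le_sqrt (by linarith)
  have hb : |ξ| ≤ √(-u) + √R := by
    have h3 : -u ≤ √(-u) ^ 2 := by
      rcases le_total 0 (-u) with h | h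
      · rw [Real.sq_sqrt h]
      · exact h.trans (sq_nonneg _)
    have h4 : √R ^ 2 = R := Real.sq_sqrt hR
    have h5 := Real.sqrt_nonneg R
    have h6 := Real.sqrt_nonneg (-u)
    refine abs_le_of_sq_le_sq' ?_ (by linarith) |> abs_le.2
    nlinarith [mul_nonneg h5 h6]
  unfold invSet
  rcases le_total 0 ξ with h | h
  · rw [abs_of_nonneg h] at ha hb
    exact Or.inl ⟨ha, hb⟩
  · rw [abs_of_nonpos h] at ha hb
    exact Or.inr ⟨by linarith, by linarith⟩

theorem inv_zero_of_not_mem {F : ℝ → ℝ} {R : ℝ} (hR : 0 ≤ R) (h0 : ∀ v, v ≤ 0 → F v = 0)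
    (h1 : ∀ v, R < v → F v = 0) {u ξ : ℝ} (h : ξ ∉ invSet R u) : F (u + ξ ^ 2) = 0 := by
  by_cases a : 0 < u + ξ ^ 2
  · by_cases c : u + ξ ^ 2 ≤ R
    · exact absurd (invSet_mem hR a c) h
    · exact h1 _ (not_le.1 c)
  · exact h0 _ (not_lt.1 a)

theorem inv_abel_le {F : ℝ → ℝ} {R M : ℝ} (hR : 0 ≤ R) (h0 : ∀ v, v ≤ 0 → F v = 0)
    (h1 : ∀ v, R < v → F v = 0) (hM : ∀ v, |F v| ≤ M) (u : ℝ) :
    |abel F u| ≤ M * (2 * √R) := by
  have hM0 : 0 ≤ M := (abs_nonneg _).trans (hM 0)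
  unfold abel
  refine (inv_int_le (invSet_fin R u) (fun ξ h => inv_zero_of_not_mem hR h0 h1 h)
    (fun ξ => hM _)).trans ?_
  exact mul_le_mul_of_nonneg_left (invSet_le R u) hM0

theorem inv_integrable {F : ℝ → ℝ} {R : ℝ} (hR : 0 ≤ R) (hc : Continuous F)
    (h0 : ∀ v, v ≤ 0 → F v = 0) (h1 : ∀ v, R < v → F v = 0) (u : ℝ) :
    Integrable fun ξ : ℝ => F (u + ξ ^ 2) := by
  refine Continuous.integrable_of_hasCompactSupport (hc.comp (by fun_prop)) ?_
  refine HasCompactSupport.intro (K := invSet R u) (isCompact_Icc.union isCompact_Icc) ?_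
  exact fun ξ h => inv_zero_of_not_mem hR h0 h1 h

theorem inv_abel_lip {F : ℝ → ℝ} {R L : ℝ} (hR : 0 ≤ R) (hc : Continuous F)
    (h0 : ∀ v, v ≤ 0 → F v = 0) (h1 : ∀ v, R < v → F v = 0) (hL0 : 0 ≤ L)
    (hL : ∀ u v, |F u - F v| ≤ L * |u - v|) (u v : ℝ) :
    |abel F u - abel F v| ≤ L * |u - v| * (4 * √R) := by
  unfold abel
  rw [← integral_sub (inv_integrable hR hc h0 h1 u) (inv_integrable hR hc h0 h1 v)]
  refine (inv_int_le (T := invSet R u ∪ invSet R v) (M := L * |u - v|)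
    (measure_union_lt_top (invSet_fin R u).lt_top (invSet_fin R v).lt_top).ne ?_ ?_).trans ?_
  · intro ξ h
    rw [Set.mem_union, not_or] at h
    rw [inv_zero_of_not_mem hR h0 h1 h.1, inv_zero_of_not_mem hR h0 h1 h.2, sub_self]
  · intro ξ
    have := hL (u + ξ ^ 2) (v + ξ ^ 2)
    rwa [add_sub_add_right_eq_sub] at this
  · refine mul_le_mul_of_nonneg_left ?_ (mul_nonneg hL0 (abs_nonneg _))
    have := measureReal_union_le (μ := volume) (invSet R u) (invSet R v)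
    linarith [invSet_le R u, invSet_le R v]

theorem inv_abel_lower {G F : ℝ → ℝ} {R : ℝ} (hR : 0 < R) (hc : Continuous F)
    (hd : ∀ v, HasDerivAt G (F v) v)
    (h0 : ∀ v, v ≤ 0 → F v = 0) (h1 : ∀ v, R < v → F v = 0) (hn : ∀ v, F v ≤ 0) (u : ℝ) :
    G u - G (u + R) ≤ 2 * √R * (-abel F u) := by
  have hs : 0 < √R := Real.sqrt_pos.2 hR
  have hcF : Continuous fun ξ : ℝ => F (u + ξ ^ 2) := hc.comp (by fun_prop)
  have e1 : ∫ ξ in (0 : ℝ)..√R, F (u + ξ ^ 2) * (2 * ξ) = G (u + R) - G u := by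
    have := intervalIntegral.integral_eq_sub_of_hasDerivAt (a := 0) (b := √R)
      (f := fun ξ : ℝ => G (u + ξ ^ 2)) (f' := fun ξ : ℝ => F (u + ξ ^ 2) * (2 * ξ))
      (fun x _ => by
        have h2 : HasDerivAt (fun ξ : ℝ => u + ξ ^ 2) (2 * x) x := by
          simpa using (hasDerivAt_pow 2 x).const_add u
        exact (hd (u + x ^ 2)).comp x h2)
      ((hcF.mul (by fun_prop)).intervalIntegrable _ _)
    rw [this]
    simp [Real.sq_sqrt hR.le]
  have e2 : ∫ ξ in (0 : ℝ)..√R, 2 * √R * F (u + ξ ^ 2) ≤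
      ∫ ξ in (0 : ℝ)..√R, F (u + ξ ^ 2) * (2 * ξ) := by
    refine intervalIntegral.integral_mono_on hs.le
      ((continuous_const.mul hcF).intervalIntegrable _ _)
      ((hcF.mul (by fun_prop)).intervalIntegrable _ _) fun x hx => ?_
    nlinarith [hn (u + x ^ 2), hx.2]
  rw [intervalIntegral.integral_const_mul] at e2
  have e3 : abel F u ≤ ∫ ξ in (0 : ℝ)..√R, F (u + ξ ^ 2) := by
    rw [intervalIntegral.integral_of_le hs.le]
    have := setIntegral_le_integral (μ := volume) (s := Set.Ioc 0 (√R))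
      (f := fun ξ : ℝ => -F (u + ξ ^ 2)) (inv_integrable hR.le hc h0 h1 u).neg
      (Eventually.of_forall fun ξ => neg_nonneg.2 (hn _))
    rw [integral_neg, integral_neg] at this
    unfold abel
    linarith
  nlinarith

theorem inv_sqrt_ge {σ v : ℝ} (hσ : 1 ≤ σ) (hv : Real.cosh σ ≤ v) :
    Real.exp σ / 3 ≤ √(v ^ 2 - 1) := by
  have h1 : 2 ≤ Real.exp σ := by linarith [Real.add_one_le_exp σ]
  have h2 : Real.exp (-σ) ≤ 1 / 2 := by
    rw [Real.exp_neg, ← one_div]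
    exact one_div_le_one_div_of_le (by norm_num) h1
  have h3 : Real.exp σ / 3 ≤ Real.sinh σ := by
    rw [Real.sinh_eq]; linarith
  refine h3.trans (Real.le_sqrt_of_sq_le ?_)
  have := Real.cosh_sq σ
  have h4 := Real.cosh_pos σ
  nlinarith

theorem inv_kernel : ∃ C : ℝ, 1 ≤ C ∧ ∀ (b b' b'' : ℝ → ℝ) (σ ρ B : ℝ),
    (∀ r, HasDerivAt b (b' r) r) → (∀ r, HasDerivAt b' (b'' r) r) → Continuous b'' →
    1 ≤ σ → σ ≤ ρ → (∀ r, r ≤ σ → b' r = 0) → (∀ r, ρ ≤ r → b r = 0) →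
    (∀ r, |b' r| ≤ B ∧ |b'' r| ≤ B) →
    ∃ k, Ker k ∧ (∀ r, 0 ≤ r → abel k (Real.cosh r) = b r) ∧ (∀ u, Real.exp ρ < u → k u = 0) ∧
      (∀ u, |k u| ≤ C * B * Real.exp (ρ / 2 - σ)) ∧
      (∀ u v, |k u - k v| ≤ C * B * Real.exp (ρ / 2 - 2 * σ) * |u - v|) ∧
      ((∀ r, b' r ≤ 0) → ∀ u, 0 ≤ k u ∧
        (u ≤ Real.exp σ / 2 → b 0 ≤ C * Real.exp (ρ / 2) * k u ∨ u < 1)) := by
  refine ⟨108, by norm_num, fun b b' b'' σ ρ B hb hb' _ hσ hσρ hz hρ hB => ?_⟩
  have hB0 : 0 ≤ B := (abs_nonneg _).trans (hB 0).1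
  have hc1 : 1 < Real.cosh σ := Real.one_lt_cosh.2 (by linarith)
  have hE : 0 < Real.exp σ := Real.exp_pos σ
  have hE2 : 2 ≤ Real.exp σ := by linarith [Real.add_one_le_exp σ]
  have hR : 0 < Real.exp ρ := Real.exp_pos ρ
  have hcosh : Real.cosh ρ ≤ Real.exp ρ := by
    rw [Real.cosh_eq]
    have : Real.exp (-ρ) ≤ Real.exp ρ := Real.exp_le_exp.2 (by linarith)
    linarith
  have hc1ρ : 1 ≤ Real.cosh ρ := Real.one_le_cosh ρ
  have hsq : √(Real.exp ρ) = Real.exp (ρ / 2) := (Real.exp_half ρ).symm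
  -- the argument `arcosh (max v 1)`
  have hlow : ∀ v, v ≤ Real.cosh σ → Real.arcosh (max v 1) ≤ σ := fun v hv => by
    have : Real.arcosh (max v 1) ≤ Real.arcosh (Real.cosh σ) :=
      (Real.arcosh_le_arcosh (lt_of_lt_of_le one_pos (le_max_right _ _)) (by linarith)).2
        (max_le hv hc1.le)
    rwa [Real.arcosh_cosh (by linarith)] at this
  have hhigh : ∀ v, Real.exp ρ < v → ρ < Real.arcosh (max v 1) := fun v hv => by
    have : Real.arcosh (Real.cosh ρ) < Real.arcosh (max v 1) :=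
      (Real.arcosh_lt_arcosh (by linarith) (lt_of_lt_of_le one_pos (le_max_right _ _))).2
        (lt_of_lt_of_le (by linarith) (le_max_left _ _))
    rwa [Real.arcosh_cosh (by linarith)] at this
  have hconst : ∀ r, r ≤ σ → b r = b 0 := fun r hr => by
    have := Convex.norm_image_sub_le_of_norm_hasDerivWithin_le (f := b) (f' := b') (C := 0)
      (s := Set.Iic σ) (fun x _ => (hb x).hasDerivWithinAt)
      (fun x hx => by rw [hz x hx]; simp) (convex_Iic σ) (x := 0) (y := r)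
      (show (0 : ℝ) ≤ σ by linarith) hr
    rw [zero_mul, norm_le_zero_iff, sub_eq_zero] at this
    exact this
  have hz' : ∀ r, ρ < r → b' r = 0 := fun r hr => by
    have e : b =ᶠ[𝓝 r] fun _ => 0 := by
      filter_upwards [Ioi_mem_nhds hr] with x hx using hρ x (le_of_lt hx)
    exact (hb r).unique ((hasDerivAt_const r (0 : ℝ)).congr_of_eventuallyEq e)
  obtain ⟨G, hG⟩ : ∃ G : ℝ → ℝ, G = fun v => b (Real.arcosh (max v 1)) := ⟨_, rfl⟩
  obtain ⟨F, hF⟩ : ∃ F : ℝ → ℝ,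
      F = fun v => b' (Real.arcosh (max v 1)) * (√(v ^ 2 - 1))⁻¹ := ⟨_, rfl⟩
  have hF0 : ∀ v, v ≤ Real.cosh σ → F v = 0 := fun v hv => by
    rw [hF]; beta_reduce; rw [hz _ (hlow v hv), zero_mul]
  have hF0' : ∀ v, v ≤ 0 → F v = 0 := fun v hv => hF0 v (by linarith)
  have hF1 : ∀ v, Real.exp ρ < v → F v = 0 := fun v hv => by
    rw [hF]; beta_reduce; rw [hz' _ (hhigh v hv), zero_mul]
  have hG0 : ∀ v, v ≤ Real.cosh σ → G v = b 0 := fun v hv => by
    rw [hG]; exact hconst _ (hlow v hv)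
  have hG1 : ∀ v, Real.exp ρ < v → G v = 0 := fun v hv => by
    rw [hG]; exact hρ _ (hhigh v hv).le
  have hmax : ∀ v : ℝ, 1 < v → HasDerivAt (fun x : ℝ => Real.arcosh (max x 1))
      (√(v ^ 2 - 1))⁻¹ v := fun v hv => by
    refine (Real.hasDerivAt_arcosh (x := v) hv).congr_of_eventuallyEq ?_
    filter_upwards [Ioi_mem_nhds hv] with x hx
    rw [max_eq_left (le_of_lt hx)]
  have hdG : ∀ v, HasDerivAt G (F v) v := fun v => by
    rcases lt_or_ge v (Real.cosh σ) with hv | hv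
    · rw [hF0 v hv.le]
      refine (hasDerivAt_const v (b 0)).congr_of_eventuallyEq ?_
      filter_upwards [Iio_mem_nhds hv] with x hx using hG0 x (le_of_lt hx)
    · rw [hG, hF]
      exact (hb _).comp v (hmax v (by linarith))
  have hFb : ∀ v, |F v| ≤ 3 * B * Real.exp (-σ) := fun v => by
    rcases lt_or_ge v (Real.cosh σ) with hv | hv
    · rw [hF0 v hv.le, abs_zero]; positivity
    · have h1 := inv_sqrt_ge hσ hv
      have h2 : (√(v ^ 2 - 1))⁻¹ ≤ 3 * Real.exp (-σ) := by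
        rw [Real.exp_neg, ← div_eq_mul_inv, ← inv_div]
        exact inv_anti₀ (by positivity) h1
      rw [hF]; beta_reduce
      rw [abs_mul, abs_of_nonneg (inv_nonneg.2 (Real.sqrt_nonneg _))]
      calc _ ≤ B * (3 * Real.exp (-σ)) :=
            mul_le_mul (hB _).1 h2 (inv_nonneg.2 (Real.sqrt_nonneg _)) hB0
        _ = _ := by ring
  have hdF : ∀ v, ∃ d, HasDerivAt F d v ∧ |d| ≤ 27 * B * Real.exp (-(2 * σ)) := fun v => by
    rcases lt_or_ge v (Real.cosh σ) with hv | hv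
    · refine ⟨0, ?_, by rw [abs_zero]; positivity⟩
      refine (hasDerivAt_const v (0 : ℝ)).congr_of_eventuallyEq ?_
      filter_upwards [Iio_mem_nhds hv] with x hx using hF0 x (le_of_lt hx)
    · have h1 := inv_sqrt_ge hσ hv
      have hv1 : 1 < v := by linarith
      have hp : 0 < v ^ 2 - 1 := by nlinarith
      have hs : 0 < √(v ^ 2 - 1) := Real.sqrt_pos.2 hp
      have d1 : HasDerivAt (fun x : ℝ => x ^ 2 - 1) (2 * v) v := by
        simpa using (hasDerivAt_pow 2 v).sub_const 1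
      have d2 := (d1.sqrt hp.ne').inv hs.ne'
      have d3 := ((hb' _).comp v (hmax v hv1)).mul d2
      refine ⟨_, by rw [hF]; exact d3, ?_⟩
      obtain ⟨s, hsd⟩ : ∃ s, s = √(v ^ 2 - 1) := ⟨_, rfl⟩
      have hs2 : s ^ 2 = v ^ 2 - 1 := by rw [hsd]; exact Real.sq_sqrt hp.le
      simp only [Function.comp, Pi.inv_apply]
      rw [← hsd] at h1 hs ⊢
      have hv2 : v ≤ 2 * s := by
        refine abs_le_of_sq_le_sq' ?_ (by linarith) |>.2
        nlinarith
      have hi : s⁻¹ ≤ 3 * Real.exp (-σ) := by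
        rw [Real.exp_neg, ← div_eq_mul_inv, ← inv_div]
        exact inv_anti₀ (by positivity) h1
      have hi0 : 0 < s⁻¹ := inv_pos.2 hs
      have hi2 : s⁻¹ * s⁻¹ ≤ 9 * Real.exp (-(2 * σ)) := by
        have : Real.exp (-(2 * σ)) = Real.exp (-σ) * Real.exp (-σ) := by
          rw [← Real.exp_add]; congr 1; ring
        rw [this]
        nlinarith [mul_le_mul hi hi hi0.le (by positivity)]
      have e : -(2 * v / (2 * s)) / s ^ 2 = -(v * s⁻¹ * (s⁻¹ * s⁻¹)) := by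
        field_simp
      rw [e]
      have hv3 : v * s⁻¹ ≤ 2 := by
        rw [← div_eq_mul_inv, div_le_iff₀ hs]; exact hv2
      have hv4 : 0 ≤ v * s⁻¹ := by positivity
      have t1 : |b'' (Real.arcosh (max v 1)) * s⁻¹ * s⁻¹| ≤ B * (s⁻¹ * s⁻¹) := by
        rw [mul_assoc, abs_mul, abs_of_nonneg (mul_pos hi0 hi0).le]
        exact mul_le_mul_of_nonneg_right (hB _).2 (mul_pos hi0 hi0).le
      have t2 : |b' (Real.arcosh (max v 1)) * -(v * s⁻¹ * (s⁻¹ * s⁻¹))| ≤
          B * (2 * (s⁻¹ * s⁻¹)) := by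
        rw [abs_mul, abs_neg, abs_of_nonneg (mul_nonneg hv4 (mul_pos hi0 hi0).le)]
        exact mul_le_mul (hB _).1 (mul_le_mul_of_nonneg_right hv3 (mul_pos hi0 hi0).le)
          (mul_nonneg hv4 (mul_pos hi0 hi0).le) hB0
      refine (abs_add_le _ _).trans ?_
      nlinarith [mul_le_mul_of_nonneg_left hi2 hB0]
  choose F' hF' hF'b using hdF
  have hFc : Continuous F := continuous_iff_continuousAt.2 fun v => (hF' v).continuousAt
  have hGc : Continuous G := continuous_iff_continuousAt.2 fun v => (hdG v).continuousAt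
  have hFl : ∀ u v, |F u - F v| ≤ 27 * B * Real.exp (-(2 * σ)) * |u - v| := fun u v => by
    have := Convex.norm_image_sub_le_of_norm_hasDerivWithin_le (f := F) (f' := F')
      (C := 27 * B * Real.exp (-(2 * σ))) (s := Set.univ)
      (fun x _ => (hF' x).hasDerivWithinAt) (fun x _ => hF'b x) convex_univ
      (x := v) (y := u) trivial trivial
    simpa using this
  obtain ⟨hk, hinv⟩ := abel_inv hdG ⟨hGc, _, hG1⟩ ⟨hFc, _, hF1⟩
  have hpi : 0 < 1 / Real.pi := by positivity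
  have hpi1 : 1 / Real.pi ≤ 1 := by
    rw [div_le_one Real.pi_pos]; linarith [Real.pi_gt_three]
  refine ⟨_, hk, fun r hr => ?_, fun u hu => ?_, fun u => ?_, fun u v => ?_, fun hn u => ?_⟩
  · rw [hinv, hG]; beta_reduce
    rw [max_eq_left (Real.one_le_cosh r), Real.arcosh_cosh hr]
  · have : abel F u = 0 := by
      unfold abel
      have : (fun ξ : ℝ => F (u + ξ ^ 2)) = fun _ => 0 :=
        funext fun ξ => hF1 _ (by nlinarith [sq_nonneg ξ])
      rw [this, integral_zero]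
    rw [this, mul_zero]
  · have h := inv_abel_le hR.le hF0' hF1 hFb u
    have e : Real.exp (ρ / 2 - σ) = Real.exp (ρ / 2) * Real.exp (-σ) := by
      rw [← Real.exp_add]; congr 1
    rw [hsq] at h
    rw [abs_mul, abs_neg, abs_of_pos hpi, e]
    have p : 0 ≤ B * (Real.exp (ρ / 2) * Real.exp (-σ)) := by positivity
    nlinarith [mul_le_mul_of_nonneg_right hpi1 (abs_nonneg (abel F u))]
  · have h := inv_abel_lip hR.le hFc hF0' hF1 (by positivity) hFl u v
    have e : Real.exp (ρ / 2 - 2 * σ) = Real.exp (ρ / 2) * Real.exp (-(2 * σ)) := by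
      rw [← Real.exp_add]; congr 1
    rw [hsq] at h
    rw [← mul_sub, abs_mul, abs_neg, abs_of_pos hpi, e]
    nlinarith [mul_le_mul_of_nonneg_right hpi1 (abs_nonneg (abel F u - abel F v))]
  · have hFn : ∀ v, F v ≤ 0 := fun v => by
      rw [hF]
      exact mul_nonpos_of_nonpos_of_nonneg (hn _) (inv_nonneg.2 (Real.sqrt_nonneg _))
    have ha : abel F u ≤ 0 := integral_nonpos fun ξ => hFn _
    refine ⟨by nlinarith, fun hu => ?_⟩
    rcases lt_or_ge u 1 with h1 | h1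
    · exact Or.inr h1
    left
    have h := inv_abel_lower hR hFc hdG hF0' hF1 hFn u
    have hu' : u ≤ Real.cosh σ := by
      rw [Real.cosh_eq]; linarith [Real.exp_pos (-σ)]
    rw [hG0 u hu', hG1 _ (by linarith), hsq, sub_zero] at h
    have hq : 1 / 4 ≤ 1 / Real.pi := one_div_le_one_div_of_le Real.pi_pos Real.pi_le_four
    have p : 0 ≤ Real.exp (ρ / 2) * -abel F u := mul_nonneg (Real.exp_pos _).le (by linarith)
    nlinarith [mul_le_mul_of_nonneg_right hq p]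

end Pool.Agent.P.MP_a1177c_nt.EK
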