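import Pool.Agent.P.MP_a1177c_nt.EK.Hasym

set_option autoImplicit false

namespace Pool.Agent.P.MP_a1177c_nt.EK

open Finset Filter
open scoped Classical

lemma laEval_hS (S : Finset ℕ) : 0 ≤ hS S := prod_nonneg fun _ _ => by positivity

lemma laEval_Hs (Q : Finset ℕ) (z : ℝ) : Hs Q z = ∑ S ∈ Q.powerset, ind (pr S ≤ z) * hS S := by
  unfold Hs ind
  rw [sum_filter]
  refine sum_congr rfl fun S _ => ?_
  split_ifs <;> simp

lemma laEval_mono {Q Q' : Finset ℕ} (h : Q ⊆ Q') {z z' : ℝ} (hz : z ≤ z') :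
    Hs Q z ≤ Hs Q' z' := by
  unfold Hs
  refine sum_le_sum_of_subset_of_nonneg (fun S hS' => ?_) fun S _ _ => laEval_hS S
  rw [mem_filter, mem_powerset] at hS' ⊢
  exact ⟨hS'.1.trans h, hS'.2.trans hz⟩

lemma laEval_Hs0 (Q : Finset ℕ) (z : ℝ) : 0 ≤ Hs Q z := sum_nonneg fun S _ => laEval_hS S

lemma laEval_pr0 (S : Finset ℕ) : 0 ≤ pr S := prod_nonneg fun _ _ => by positivity

lemma laEval_erase (Q : Finset ℕ) {p : ℕ} (hp : 1 ≤ p) (z : ℝ) :
    Hs Q z ≤ (1 + 2 / p) * Hs (Q.erase p) z := by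
  have h0 := laEval_Hs0 (Q.erase p) z
  by_cases h : p ∈ Q
  · have hn : p ∉ Q.erase p := notMem_erase _ _
    conv_lhs => rw [← insert_erase h, laEval_Hs, sum_powerset_insert hn, ← laEval_Hs]
    rw [add_mul, one_mul, laEval_Hs (Q.erase p) z, mul_sum]
    refine add_le_add le_rfl (sum_le_sum fun S hS' => ?_)
    have hpS : p ∉ S := fun h' => hn (mem_powerset.1 hS' h')
    have e1 : hS (insert p S) = 2 / p * hS S := by unfold hS; rw [prod_insert hpS]
    have e2 : pr (insert p S) = p * pr S := by unfold pr; rw [prod_insert hpS]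
    have h1 : (1 : ℝ) ≤ p := by exact_mod_cast hp
    have h2 := laEval_pr0 S
    have h3 := laEval_hS S
    rw [e1, e2, mul_left_comm]
    gcongr
    unfold ind
    split_ifs with a b
    · exact le_rfl
    · exact absurd (by nlinarith) b
    · norm_num
    · exact le_rfl
  · rw [erase_eq_of_notMem h] at h0 ⊢
    have : (0 : ℝ) ≤ 2 / p := by positivity
    nlinarith

/-- The cell condition as a function of the size of the product. -/
noncomputable def laEval_c (R : ℝ) (a : Fin 4) (v : ℝ) : ℝ :=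
  ind ((a = 0 ∨ R ^ (((a : ℕ) : ℝ) / 6) < v) ∧ v ≤ R ^ ((((a : ℕ) : ℝ) + 1) / 6))

/-- The shifted cell sum. -/
noncomputable def laEval_K (Q : Finset ℕ) (R : ℝ) (a : Fin 4) (c : ℝ) : ℝ :=
  ∑ S ∈ Q.powerset, laEval_c R a (c * pr S) * hS S

lemma laEval_K_eq (Q : Finset ℕ) {R : ℝ} (hR : 1 ≤ R) (a : Fin 4) {c : ℝ} (hc : 0 < c) :
    laEval_K Q R a c = Hs Q (R ^ ((((a : ℕ) : ℝ) + 1) / 6) / c) -
      ind (a ≠ 0) * Hs Q (R ^ (((a : ℕ) : ℝ) / 6) / c) := by
  unfold laEval_K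
  rw [laEval_Hs, laEval_Hs, mul_sum, ← sum_sub_distrib]
  refine sum_congr rfl fun S _ => ?_
  rw [← mul_assoc, ← sub_mul]
  congr 1
  have h1 : R ^ (((a : ℕ) : ℝ) / 6) ≤ R ^ ((((a : ℕ) : ℝ) + 1) / 6) :=
    Real.rpow_le_rpow_of_exponent_le hR (by linarith)
  unfold laEval_c ind
  simp only [le_div_iff₀' hc]
  by_cases ha : a = 0
  · simp [ha]
  · by_cases h2 : c * pr S ≤ R ^ (((a : ℕ) : ℝ) / 6)
    · simp [ha, h2, h2.trans h1, not_lt.2 h2]
    · simp [ha, h2, not_le.1 h2]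

lemma laEval_cl (a : Fin 4) {s : ℝ} (hs : 0 ≤ s) :
    max 0 ((((a : ℕ) : ℝ) + 1) / 6 - s) - ind (a ≠ 0) * max 0 (((a : ℕ) : ℝ) / 6 - s) =
      1 / 6 - cl a s := by
  have h : ind (a ≠ 0) * max 0 (((a : ℕ) : ℝ) / 6 - s) = max 0 (((a : ℕ) : ℝ) / 6 - s) := by
    unfold ind
    by_cases ha : a = 0
    · simp [ha, hs]
    · simp [ha]
  rw [h]
  unfold cl
  generalize ((a : ℕ) : ℝ) = x
  simp only [max_def, min_def]
  split_ifs <;> linarith

lemma laEval_K_approx (Q : Finset ℕ) {R H θ : ℝ} (hR : 1 < R)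
    (h : ∀ z : ℝ, 0 < z → z ≤ R → |Hs Q z - H * (max 0 (Real.log z) / Real.log R)| ≤ θ)
    (a : Fin 4) {c : ℝ} (hc : 1 ≤ c) :
    |laEval_K Q R a c - H * (1 / 6 - cl a (Real.log c / Real.log R))| ≤ 2 * θ := by
  have hc0 : 0 < c := by linarith
  have hR0 : 0 < R := by linarith
  have hL := Real.log_pos hR
  have ha : ((a : ℕ) : ℝ) ≤ 3 := by exact_mod_cast Nat.lt_succ_iff.1 a.2
  have key : ∀ e : ℝ, e ≤ 1 →
      |Hs Q (R ^ e / c) - H * max 0 (e - Real.log c / Real.log R)| ≤ θ := by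
    intro e he
    have h1 : R ^ e / c ≤ R := by
      refine (div_le_self (by positivity) hc).trans ?_
      simpa using Real.rpow_le_rpow_of_exponent_le hR.le he
    have h2 := h (R ^ e / c) (by positivity) h1
    have e1 : max 0 (Real.log (R ^ e / c)) / Real.log R = max 0 (e - Real.log c / Real.log R) := by
      rw [← max_div_div_right hL.le, zero_div, Real.log_div (by positivity) hc0.ne',
        Real.log_rpow hR0]
      congr 1
      field_simp
    rwa [e1] at h2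
  rw [laEval_K_eq Q hR.le a hc0, ← laEval_cl a (div_nonneg (Real.log_nonneg hc) hL.le)]
  have k1 := abs_le.1 (key ((((a : ℕ) : ℝ) + 1) / 6) (by linarith))
  have k2 := abs_le.1 (key (((a : ℕ) : ℝ) / 6) (by linarith))
  have hθ : 0 ≤ θ := by linarith [k1.1, k1.2]
  unfold ind
  rw [abs_le]
  split_ifs <;> constructor <;> linarith [k1.1, k1.2, k2.1, k2.2]

lemma laEval_insert (Q : Finset ℕ) {p : ℕ} (hp : p ∉ Q) (y : Finset ℕ → ℝ) (Z : ℕ → Prop)
    (hZ : Z p) : Lam (insert p Q) y Z = Lam Q y Z - Lam Q (fun S => y (insert p S)) Z := by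
  unfold Lam
  rw [sum_powerset_insert hp, sub_eq_add_neg, ← sum_neg_distrib]
  congr 1
  refine sum_congr rfl fun S hS' => ?_
  have hpS : p ∉ S := fun h' => hp (mem_powerset.1 hS' h')
  rw [prod_insert hpS, if_pos hZ]
  ring

lemma laEval_free (Q : Finset ℕ) (y : Finset ℕ → ℝ) (Z : ℕ → Prop) (hZ : ∀ p ∈ Q, ¬ Z p) :
    Lam Q y Z = ∑ S ∈ Q.powerset, y S * hS S := by
  unfold Lam hS
  refine sum_congr rfl fun S hS' => ?_
  congr 1
  exact prod_congr rfl fun p hp => if_neg (hZ p (mem_powerset.1 hS' hp))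

lemma laEval_two (Q : Finset ℕ) (R : ℝ) (a : Fin 4) {p q : ℕ} (hp : p ∉ insert q Q) (hq : q ∉ Q)
    (Z : ℕ → Prop) (h1 : Z p) (h2 : Z q) (hZ : ∀ r ∈ Q, ¬ Z r) :
    Lam (insert p (insert q Q)) (cell R a) Z =
      laEval_K Q R a 1 - laEval_K Q R a p - laEval_K Q R a q + laEval_K Q R a (p * q) := by
  rw [laEval_insert _ hp _ _ h1, laEval_insert _ hq _ _ h2, laEval_insert _ hq _ _ h2,
    laEval_free _ _ _ hZ, laEval_free _ _ _ hZ, laEval_free _ _ _ hZ, laEval_free _ _ _ hZ]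
  have hc : ∀ S, cell R a S = laEval_c R a (pr S) := fun S => rfl
  have hpQ : p ∉ Q := fun h => hp (mem_insert_of_mem h)
  have e : ∀ (r : ℕ) (S : Finset ℕ), r ∉ S → pr (insert r S) = r * pr S := by
    intro r S h; unfold pr; rw [prod_insert h]
  have e1 : ∑ S ∈ Q.powerset, cell R a S * hS S = laEval_K Q R a 1 := by
    simp only [laEval_K, one_mul, hc]
  have e2 : ∀ r : ℕ, r ∉ Q → ∑ S ∈ Q.powerset, cell R a (insert r S) * hS S =
      laEval_K Q R a r := by
    intro r hr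
    refine sum_congr rfl fun S hS' => ?_
    rw [hc, e r S fun h => hr (mem_powerset.1 hS' h)]
  have e3 : ∑ S ∈ Q.powerset, cell R a (insert p (insert q S)) * hS S =
      laEval_K Q R a (p * q) := by
    refine sum_congr rfl fun S hS' => ?_
    have hs := mem_powerset.1 hS'
    rw [hc, e p _ fun h => hp (insert_subset_insert q hs h), e q S fun h => hq (hs h), mul_assoc]
  rw [e1, e2 p hpQ, e2 q hq, e3]
  ring

theorem la_eval (η : ℝ) (hη : 0 < η) : ∃ (D : ℕ) (η₁ : ℝ), 0 < η₁ ∧ ∀ W : ℕ, 0 < W →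
    (∀ p : ℕ, p.Prime → p ≤ D → p ∣ W) → ∀ᶠ R : ℝ in atTop, ∀ P, Good W R η₁ P →
      (∀ a, |Ha P R a - Hstar W R / 6| ≤ η * Hstar W R) ∧ Hs P R ≤ 2 * Hstar W R ∧
      ∀ p₁ p₂ p₃ : ℕ, p₁.Prime → p₂.Prime → p₃.Prime → p₁ % 4 = 1 → p₂ % 4 = 1 →
        R ^ (1 / 72 : ℝ) < p₁ → p₁ < p₂ → R < p₃ → ∀ a,
        |La P R a (p₁ * p₂ * p₃) - Hstar W R *
          (cl a (Real.log p₁ / Real.log R) + cl a (Real.log p₂ / Real.log R) -
            cl a (Real.log p₁ / Real.log R + Real.log p₂ / Real.log R))| ≤ η * Hstar W R := by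
  set θ := min (η / 16) 1 with hθ
  have hθ0 : 0 < θ := lt_min (by linarith) one_pos
  have hθ1 : θ ≤ η / 16 := min_le_left _ _
  have hθ2 : θ ≤ 1 := min_le_right _ _
  obtain ⟨D, η₁, hη₁, hH⟩ := hasym θ hθ0
  refine ⟨D, η₁, hη₁, fun W hW hD => ?_⟩
  have ht := tendsto_rpow_atTop (y := 1 / 72) (by norm_num)
  filter_upwards [hH W hW hD, eventually_gt_atTop 1, ht.eventually_ge_atTop (W : ℝ),
    ht.eventually_ge_atTop (12 / θ)] with R hR hR1 hRW hRθ P hP
  have h := hR P hP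
  have hR0 : 0 < R := by linarith
  have hL := Real.log_pos hR1
  set H := Hstar W R with hHdef
  have hH0 : 0 ≤ H := by
    have := (abs_nonneg _).trans (h R hR0 le_rfl)
    exact nonneg_of_mul_nonneg_right this hθ0
  have hcl0 : ∀ a, cl a 0 = 0 := by
    intro a
    unfold cl
    refine max_eq_left (min_le_of_right_le ?_)
    have : (0 : ℝ) ≤ ((a : ℕ) : ℝ) := Nat.cast_nonneg _
    linarith
  have hHs : Hs P R ≤ 2 * H := by
    have h1 := (abs_le.1 (h R hR0 le_rfl)).2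
    rw [max_eq_right hL.le, div_self hL.ne'] at h1
    nlinarith
  refine ⟨fun a => ?_, hHs, ?_⟩
  · have h1 := laEval_K_approx P hR1 h a le_rfl
    have e1 : laEval_K P R a 1 = Ha P R a := by
      simp only [laEval_K, one_mul, Ha]; rfl
    rw [e1, Real.log_one, zero_div, hcl0, sub_zero, mul_one_div] at h1
    nlinarith
  intro p₁ p₂ p₃ hp₁ hp₂ hp₃ m₁ m₂ hl₁ h12 hl₃ a
  obtain ⟨Ex, -, hEx, hmem⟩ := hP
  have h12' : (p₁ : ℝ) < p₂ := by exact_mod_cast h12
  have hl₂ : R ^ (1 / 72 : ℝ) < p₂ := hl₁.trans h12'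
  set Q := (P.erase p₁).erase p₂ with hQ
  have hQP : Q ⊆ P := (erase_subset _ _).trans (erase_subset _ _)
  have hq : p₂ ∉ Q := notMem_erase _ _
  have hp : p₁ ∉ insert p₂ Q := by
    rw [mem_insert]
    rintro (h | h)
    · omega
    · exact notMem_erase _ _ (mem_of_mem_erase h)
  have hin : ∀ p : ℕ, p.Prime → p % 4 = 1 → R ^ (1 / 72 : ℝ) < p → p ∉ P → R < p := by
    intro p hp m hl hn
    by_contra hle
    refine hn ((hmem p).2 ⟨hp, m, not_lt.1 hle, fun hd => ?_, fun he => ?_⟩)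
    · have : (p : ℝ) ≤ W := by exact_mod_cast Nat.le_of_dvd hW hd
      linarith
    · linarith [hEx p he]
  have e1 : La P R a (p₁ * p₂ * p₃) =
      Lam (insert p₁ (insert p₂ Q)) (cell R a) fun p => p ∣ p₁ * p₂ * p₃ := by
    unfold La Lam
    refine sum_subset (powerset_mono.2 fun p hp => ?_) fun S hS1 hS2 => ?_
    · simp only [hQ, mem_insert, mem_erase]
      tauto
    · rw [mem_powerset] at hS1 hS2
      obtain ⟨r, hrS, hrP⟩ := not_subset.1 hS2
      have hr : R < r := by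
        rcases mem_insert.1 (hS1 hrS) with rfl | h'
        · exact hin _ hp₁ m₁ hl₁ hrP
        · rcases mem_insert.1 h' with rfl | h''
          · exact hin _ hp₂ m₂ hl₂ hrP
          · exact absurd (hQP h'') hrP
      have h1 : ∀ p ∈ S, 1 ≤ p := by
        intro p hpS
        rcases mem_insert.1 (hS1 hpS) with rfl | h'
        · exact hp₁.one_le
        · rcases mem_insert.1 h' with rfl | h''
          · exact hp₂.one_le
          · exact ((hmem p).1 (hQP h'')).1.one_le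
      have h2 : (r : ℝ) ≤ pr S := by
        have := single_le_prod' (f := fun p : ℕ => p) h1 hrS
        unfold pr
        rw [← Nat.cast_prod]
        exact_mod_cast this
      have ha : ((a : ℕ) : ℝ) ≤ 3 := by exact_mod_cast Nat.lt_succ_iff.1 a.2
      have h3 : R ^ ((((a : ℕ) : ℝ) + 1) / 6) ≤ R := by
        simpa using Real.rpow_le_rpow_of_exponent_le hR1.le
          (show (((a : ℕ) : ℝ) + 1) / 6 ≤ 1 by linarith)
      have : cell R a S = 0 := by
        unfold cell ind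
        rw [if_neg]
        rintro ⟨-, h4⟩
        linarith
      rw [this, zero_mul]
  have hZ : ∀ r ∈ Q, ¬ r ∣ p₁ * p₂ * p₃ := by
    intro r hr hd
    have hr' := (hmem r).1 (hQP hr)
    rcases (Nat.Prime.dvd_mul hr'.1).1 hd with h' | h'
    · rcases (Nat.Prime.dvd_mul hr'.1).1 h' with h'' | h''
      · rw [(Nat.prime_dvd_prime_iff_eq hr'.1 hp₁).1 h''] at hr
        exact hp (mem_insert_of_mem hr)
      · rw [(Nat.prime_dvd_prime_iff_eq hr'.1 hp₂).1 h''] at hr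
        exact hq hr
    · have := hr'.2.2.1
      rw [(Nat.prime_dvd_prime_iff_eq hr'.1 hp₃).1 h'] at this
      linarith
  rw [e1, laEval_two Q R a hp hq (fun p => p ∣ p₁ * p₂ * p₃) (Dvd.intro (p₂ * p₃) (by ring))
    (Dvd.intro (p₁ * p₃) (by ring)) hZ]
  have hε : ∀ p : ℝ, R ^ (1 / 72 : ℝ) < p → 2 / p ≤ θ / 6 := by
    intro p hp
    have h1 : 12 / θ < p := hRθ.trans_lt hp
    have h2 : 0 < p := lt_trans (by positivity) h1
    rw [div_lt_iff₀ hθ0] at h1
    rw [div_le_div_iff₀ h2 (by norm_num)]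
    linarith
  have hQa : ∀ z : ℝ, 0 < z → z ≤ R →
      |Hs Q z - H * (max 0 (Real.log z) / Real.log R)| ≤ 2 * θ * H := by
    intro z hz hzR
    have h1 := abs_le.1 (h z hz hzR)
    have h2 : Hs Q z ≤ Hs P z := laEval_mono hQP le_rfl
    have h3 : Hs Q z ≤ 2 * H := (laEval_mono hQP hzR).trans hHs
    have h0 := laEval_Hs0 Q z
    have h4 : Hs P z ≤ (1 + θ / 6) * ((1 + θ / 6) * Hs Q z) := by
      refine (laEval_erase P hp₁.one_le z).trans ?_
      have h5 := laEval_erase (P.erase p₁) hp₂.one_le z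
      have h6 := laEval_Hs0 (P.erase p₁) z
      have h7 := hε _ hl₁
      have h8 := hε _ hl₂
      gcongr
      refine h5.trans ?_
      gcongr
    have h5 : (θ / 3 + θ ^ 2 / 36) * Hs Q z ≤ θ / 2 * (2 * H) := by
      gcongr
      nlinarith
    rw [abs_le]
    constructor <;> nlinarith [h1.1, h1.2]
  have c₁ : (1 : ℝ) ≤ p₁ := by exact_mod_cast hp₁.one_le
  have c₂ : (1 : ℝ) ≤ p₂ := by exact_mod_cast hp₂.one_le
  have k0 := abs_le.1 (laEval_K_approx Q hR1 hQa a le_rfl)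
  have k1 := abs_le.1 (laEval_K_approx Q hR1 hQa a c₁)
  have k2 := abs_le.1 (laEval_K_approx Q hR1 hQa a c₂)
  have k3 := abs_le.1 (laEval_K_approx Q hR1 hQa a (c := p₁ * p₂) (by nlinarith))
  rw [Real.log_one, zero_div, hcl0] at k0
  rw [Real.log_mul (by linarith) (by linarith), add_div] at k3
  have h16 : 16 * θ * H ≤ η * H := by gcongr; linarith
  rw [abs_le]
  constructor <;> linarith [k0.1, k0.2, k1.1, k1.2, k2.1, k2.2, k3.1, k3.2]

end Pool.Agent.P.MP_a1177c_nt.EK
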