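import Pool.Agent.P.MP_a1177c_nt.EK.Defs

set_option autoImplicit false

namespace Pool.Agent.P.MP_a1177c_nt.EK

open Finset Filter
open scoped Classical

theorem lattice_nrm_cast (μ : GaussianInt) : (nrm μ : ℝ) = (μ.re : ℝ) ^ 2 + (μ.im : ℝ) ^ 2 := by
  unfold nrm
  rw [Nat.cast_natAbs, abs_of_nonneg (GaussianInt.norm_nonneg μ), Zsqrtd.norm_def]
  push_cast
  ring

theorem lattice_sub_box (y : ℝ) : {μ : GaussianInt | (nrm μ : ℝ) ≤ y} ⊆
    ((Finset.Icc (-(⌊√y⌋)) ⌊√y⌋ ×ˢ Finset.Icc (-(⌊√y⌋)) ⌊√y⌋).image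
      (fun p : ℤ × ℤ => (⟨p.1, p.2⟩ : GaussianInt)) : Finset GaussianInt) := by
  intro μ hμ
  simp only [Set.mem_ofPred_eq, lattice_nrm_cast] at hμ
  have key : ∀ t : ℤ, (t : ℝ) ^ 2 ≤ y → t ∈ Finset.Icc (-(⌊√y⌋)) ⌊√y⌋ := by
    intro t ht
    have h1 : |(t : ℝ)| ≤ √y := Real.abs_le_sqrt ht
    rw [abs_le] at h1
    rw [Finset.mem_Icc]
    constructor
    · have : -t ≤ ⌊√y⌋ := Int.le_floor.mpr (by push_cast; linarith [h1.1])
      omega
    · exact Int.le_floor.mpr h1.2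
  simp only [Finset.coe_image, Set.mem_image, Finset.mem_coe, Finset.mem_product]
  exact ⟨(μ.re, μ.im), ⟨key _ (by nlinarith [sq_nonneg (μ.im : ℝ)]),
    key _ (by nlinarith [sq_nonneg (μ.re : ℝ)])⟩, rfl⟩

theorem finite_nrm (y : ℝ) : {μ : GaussianInt | (nrm μ : ℝ) ≤ y}.Finite :=
  (Finset.finite_toSet _).subset (lattice_sub_box y)

theorem ncard_nrm_le {y : ℝ} (hy : 1 ≤ y) :
    (({μ : GaussianInt | (nrm μ : ℝ) ≤ y}.ncard : ℕ) : ℝ) ≤ 9 * y := by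
  have h1 := Set.ncard_le_ncard (lattice_sub_box y) (Finset.finite_toSet _)
  rw [Set.ncard_coe_finset] at h1
  have h2 := h1.trans Finset.card_image_le
  rw [Finset.card_product, Int.card_Icc] at h2
  have hs : 1 ≤ √y := Real.one_le_sqrt.mpr hy
  have hf : (⌊√y⌋ : ℝ) ≤ √y := Int.floor_le _
  have hf0 : 0 ≤ ⌊√y⌋ := Int.floor_nonneg.mpr (by linarith)
  have h3 : (((⌊√y⌋ + 1 - -⌊√y⌋).toNat : ℕ) : ℝ) = 2 * (⌊√y⌋ : ℝ) + 1 := by
    have : (((⌊√y⌋ + 1 - -⌊√y⌋).toNat : ℕ) : ℤ) = 2 * ⌊√y⌋ + 1 := by omega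
    exact_mod_cast this
  have h4 : (({μ : GaussianInt | (nrm μ : ℝ) ≤ y}.ncard : ℕ) : ℝ) ≤
      (2 * (⌊√y⌋ : ℝ) + 1) * (2 * (⌊√y⌋ : ℝ) + 1) := by
    rw [← h3]
    exact_mod_cast h2
  have h5 : √y * √y = y := Real.mul_self_sqrt (by linarith)
  have hf0' : (0 : ℝ) ≤ ⌊√y⌋ := by exact_mod_cast hf0
  have h6 : 2 * (⌊√y⌋ : ℝ) + 1 ≤ 3 * √y := by linarith
  calc _ ≤ (2 * (⌊√y⌋ : ℝ) + 1) * (2 * (⌊√y⌋ : ℝ) + 1) := h4
    _ ≤ (3 * √y) * (3 * √y) := mul_le_mul h6 h6 (by linarith) (by linarith)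
    _ = 9 * y := by nlinarith

/-- A sum over a full period does not depend on the starting point. -/
theorem lattice_shift_one {q : ℕ} (F : ℤ → ℝ) (hF : ∀ t t', t ≡ t' [ZMOD q] → F t = F t')
    (a : ℤ) : ∑ r ∈ range q, F (a + r) = ∑ r ∈ range q, F r := by
  have step : ∀ a : ℤ, ∑ r ∈ range q, F (a + 1 + r) = ∑ r ∈ range q, F (a + r) := by
    intro a
    have h1 := Finset.sum_range_succ' (fun r : ℕ => F (a + r)) q
    have h2 := Finset.sum_range_succ (fun r : ℕ => F (a + r)) q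
    have h3 : F (a + q) = F (a + (0 : ℕ)) := hF _ _ (by simp [Int.ModEq])
    have h4 : ∑ r ∈ range q, F (a + 1 + r) = ∑ r ∈ range q, F (a + ((r + 1 : ℕ) : ℤ)) :=
      Finset.sum_congr rfl fun r _ => by congr 1; push_cast; ring
    rw [h4]
    linarith
  induction a using Int.induction_on with
  | zero => simp
  | succ n ih => rw [step, ih]
  | pred n ih =>
    rw [← step, ← ih]
    congr 1
    ext r
    congr 1
    ring

theorem lattice_shift_two {q : ℕ} (f : ℤ → ℤ → ℝ)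
    (hf : ∀ t t' u u', t ≡ t' [ZMOD q] → u ≡ u' [ZMOD q] → f t u = f t' u') (a b : ℤ) :
    ∑ v ∈ range q ×ˢ range q, f (a + v.1) (b + v.2) = ∑ v ∈ range q ×ˢ range q, f v.1 v.2 := by
  rw [Finset.sum_product, Finset.sum_product]
  have h1 : ∀ t : ℤ, ∑ s ∈ range q, f t (b + s) = ∑ s ∈ range q, f t s := fun t =>
    lattice_shift_one (f t) (fun u u' h => hf _ _ _ _ (Int.ModEq.refl _) h) b
  simp only [h1]
  exact lattice_shift_one (fun t => ∑ s ∈ range q, f t s)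
    (fun t t' h => Finset.sum_congr rfl fun s _ => hf _ _ _ _ h (Int.ModEq.refl _)) a

theorem lattice_C_nonneg {c₀ C₀ : ℝ} {ψ : ℝ → ℝ} (hψ : Wt c₀ C₀ ψ) : 0 ≤ C₀ :=
  (hψ.nonneg 0).trans (hψ.le 0)

theorem lattice_vanish {c₀ C₀ : ℝ} {ψ : ℝ → ℝ} (hψ : Wt c₀ C₀ ψ) {y s : ℝ} (hy : 1 ≤ y)
    (hs : ¬ s ≤ (C₀ + 1) * y) : ψ (s / y) = 0 := by
  by_contra h
  have h1 := (hψ.supp _ h).2
  rw [div_le_iff₀ (by linarith)] at h1
  apply hs
  nlinarith

/-- Variation of the weight under a bounded shift. -/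
theorem lattice_var {c₀ C₀ : ℝ} {ψ : ℝ → ℝ} (hψ : Wt c₀ C₀ ψ) {y L q a b r s : ℝ} (hy : 1 ≤ y)
    (ha : |a| ≤ L) (hb : |b| ≤ L) (hr : |r| ≤ q) (hs : |s| ≤ q) :
    |ψ (((a + r) ^ 2 + (b + s) ^ 2) / y) - ψ ((a ^ 2 + b ^ 2) / y)| ≤
      C₀ * ((4 * L * q + 2 * q ^ 2) / y) := by
  refine (hψ.lip _ _).trans (mul_le_mul_of_nonneg_left ?_ (lattice_C_nonneg hψ))
  rw [← sub_div, abs_div, abs_of_pos (by linarith : (0 : ℝ) < y)]
  refine div_le_div_of_nonneg_right ?_ (by linarith)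
  have h1 : |a * r| ≤ L * q := by
    rw [abs_mul]; exact mul_le_mul ha hr (abs_nonneg _) ((abs_nonneg _).trans ha)
  have h2 : |b * s| ≤ L * q := by
    rw [abs_mul]; exact mul_le_mul hb hs (abs_nonneg _) ((abs_nonneg _).trans hb)
  have h3 : r ^ 2 ≤ q ^ 2 := sq_le_sq' (by linarith [(abs_le.mp hr).1]) (abs_le.mp hr).2
  have h4 : s ^ 2 ≤ q ^ 2 := sq_le_sq' (by linarith [(abs_le.mp hs).1]) (abs_le.mp hs).2
  rw [abs_le] at h1 h2 ⊢
  constructor <;> nlinarith [sq_nonneg r, sq_nonneg s]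

theorem lattice_summable_of_bdd {Y : ℝ} (F : GaussianInt → ℝ)
    (hF : ∀ μ, ¬ (nrm μ : ℝ) ≤ Y → F μ = 0) : Summable F := by
  refine summable_of_ne_finset_zero (s := (finite_nrm Y).toFinset) fun μ hμ => hF μ ?_
  simpa using hμ

theorem lattice_tsum_ind {Y : ℝ} (hY : 1 ≤ Y) :
    ∑' μ : GaussianInt, ind ((nrm μ : ℝ) ≤ Y) ≤ 9 * Y := by
  rw [tsum_eq_sum (s := (finite_nrm Y).toFinset) (fun μ hμ => by
    have : ¬ (nrm μ : ℝ) ≤ Y := by simpa using hμ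
    simp [ind, this])]
  refine le_trans ?_ (ncard_nrm_le hY)
  rw [Set.ncard_eq_toFinset_card _ (finite_nrm Y), Finset.card_eq_sum_ones]
  push_cast
  refine Finset.sum_le_sum fun μ _ => ?_
  unfold ind
  split_ifs <;> norm_num

/-- The effect of a shift on a weighted lattice sum. -/
theorem lattice_shift_err {c₀ C₀ : ℝ} {ψ : ℝ → ℝ} (hψ : Wt c₀ C₀ ψ) {y q : ℝ} (hy : 1 ≤ y)
    (v : GaussianInt) (hr : |(v.re : ℝ)| ≤ q) (hs : |(v.im : ℝ)| ≤ q)
    (F : GaussianInt → ℝ) (hF : ∀ μ, |F μ| ≤ 1) :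
    |∑' μ : GaussianInt, F μ * ψ (nrm μ / y) - ∑' μ : GaussianInt, F (μ + v) * ψ (nrm μ / y)| ≤
      18 * (C₀ + 1) * C₀ * (4 * √((C₀ + 1) * y) * q + 2 * q ^ 2) := by
  have hC := lattice_C_nonneg hψ
  set Y := (C₀ + 1) * y with hYdef
  have hY : 1 ≤ Y := by nlinarith
  set K := C₀ * ((4 * √Y * q + 2 * q ^ 2) / y) with hK
  have hq : 0 ≤ q := (abs_nonneg _).trans hr
  have hK0 : 0 ≤ K := by positivity
  have hsum1 : ∀ G : GaussianInt → ℝ, Summable fun μ => G μ * ψ (nrm μ / y) := fun G =>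
    lattice_summable_of_bdd (Y := Y) _ fun μ hμ => by rw [lattice_vanish hψ hy hμ, mul_zero]
  have hsum2 : Summable fun μ => F (μ + v) * ψ (nrm (μ + v) / y) :=
    ((Equiv.addRight v).summable_iff (f := fun μ => F μ * ψ (nrm μ / y))).mpr (hsum1 F)
  have hind : Summable fun μ : GaussianInt => ind ((nrm μ : ℝ) ≤ Y) :=
    lattice_summable_of_bdd (Y := Y) _ fun μ hμ => by simp [ind, hμ]
  have hind2 : Summable fun μ : GaussianInt => ind ((nrm (μ + v) : ℝ) ≤ Y) :=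
    ((Equiv.addRight v).summable_iff
      (f := fun μ : GaussianInt => ind ((nrm μ : ℝ) ≤ Y))).mpr hind
  have e1 : ∑' μ : GaussianInt, F μ * ψ (nrm μ / y) =
      ∑' μ : GaussianInt, F (μ + v) * ψ (nrm (μ + v) / y) :=
    ((Equiv.addRight v).tsum_eq (fun μ => F μ * ψ (nrm μ / y))).symm
  have e2 : ∑' μ : GaussianInt, ind ((nrm (μ + v) : ℝ) ≤ Y) =
      ∑' μ : GaussianInt, ind ((nrm μ : ℝ) ≤ Y) :=
    (Equiv.addRight v).tsum_eq (fun μ : GaussianInt => ind ((nrm μ : ℝ) ≤ Y))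
  have hcoord : ∀ μ : GaussianInt, (nrm μ : ℝ) ≤ Y → |(μ.re : ℝ)| ≤ √Y ∧ |(μ.im : ℝ)| ≤ √Y := by
    intro μ hμ
    rw [lattice_nrm_cast] at hμ
    exact ⟨Real.abs_le_sqrt (by nlinarith [sq_nonneg (μ.im : ℝ)]),
      Real.abs_le_sqrt (by nlinarith [sq_nonneg (μ.re : ℝ)])⟩
  have hpt : ∀ μ : GaussianInt,
      ‖F (μ + v) * ψ (nrm (μ + v) / y) - F (μ + v) * ψ (nrm μ / y)‖ ≤
        K * ind ((nrm μ : ℝ) ≤ Y) + K * ind ((nrm (μ + v) : ℝ) ≤ Y) := by
    intro μ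
    have i1 : 0 ≤ K * ind ((nrm μ : ℝ) ≤ Y) := by unfold ind; split_ifs <;> simp [hK0]
    have i2 : 0 ≤ K * ind ((nrm (μ + v) : ℝ) ≤ Y) := by unfold ind; split_ifs <;> simp [hK0]
    rw [Real.norm_eq_abs, ← mul_sub, abs_mul]
    have hb : |F (μ + v)| * |ψ (nrm (μ + v) / y) - ψ (nrm μ / y)| ≤
        |ψ (nrm (μ + v) / y) - ψ (nrm μ / y)| :=
      mul_le_of_le_one_left (abs_nonneg _) (hF _)
    refine hb.trans ?_
    by_cases h1 : (nrm μ : ℝ) ≤ Y
    · have := lattice_var hψ hy (hcoord μ h1).1 (hcoord μ h1).2 hr hs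
      have e : ind ((nrm μ : ℝ) ≤ Y) = 1 := by simp [ind, h1]
      rw [e, mul_one]
      refine le_trans (le_of_eq_of_le ?_ this) (le_add_of_nonneg_right i2)
      simp only [lattice_nrm_cast, Zsqrtd.re_add, Zsqrtd.im_add, Int.cast_add]
    · by_cases h2 : (nrm (μ + v) : ℝ) ≤ Y
      · have := lattice_var hψ hy (hcoord _ h2).1 (hcoord _ h2).2 (r := -(v.re : ℝ))
          (s := -(v.im : ℝ)) (q := q) (by rwa [abs_neg]) (by rwa [abs_neg])
        have e : ind ((nrm (μ + v) : ℝ) ≤ Y) = 1 := by simp [ind, h2]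
        rw [e, mul_one]
        refine le_trans (le_of_eq_of_le ?_ this) (le_add_of_nonneg_left i1)
        rw [abs_sub_comm]
        simp only [lattice_nrm_cast, Zsqrtd.re_add, Zsqrtd.im_add, Int.cast_add,
          add_neg_cancel_right]
      · rw [lattice_vanish hψ hy h1, lattice_vanish hψ hy h2, sub_zero, abs_zero]
        exact add_nonneg i1 i2
  rw [e1, ← hsum2.tsum_sub (hsum1 fun μ => F (μ + v))]
  have hb := tsum_of_norm_bounded ((hind.hasSum.mul_left K).add (hind2.hasSum.mul_left K)) hpt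
  rw [Real.norm_eq_abs, e2] at hb
  refine hb.trans ?_
  have h9 := lattice_tsum_ind hY
  have hy0 : y ≠ 0 := by linarith
  calc _ ≤ K * (9 * Y) + K * (9 * Y) := by gcongr
    _ = _ := by
      rw [hK]
      generalize √Y = L
      rw [hYdef]
      field_simp
      ring

theorem lattice_per {c₀ C₀ : ℝ} {ψ : ℝ → ℝ} (hψ : Wt c₀ C₀ ψ) : ∃ C : ℝ, ∀ y : ℝ, 1 ≤ y →
    ∀ q : ℕ, 0 < q → ∀ f : ℤ → ℤ → ℝ, (∀ t u, |f t u| ≤ 1) →
      (∀ t t' u u', t ≡ t' [ZMOD q] → u ≡ u' [ZMOD q] → f t u = f t' u') →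
      |∑' μ : GaussianInt, f μ.re μ.im * ψ (nrm μ / y) -
          (∑ v ∈ range q ×ˢ range q, f v.1 v.2) / (q : ℝ) ^ 2 *
            ∑' μ : GaussianInt, ψ (nrm μ / y)| ≤ C * (q * √y + (q : ℝ) ^ 2) := by
  have hC := lattice_C_nonneg hψ
  refine ⟨18 * (C₀ + 1) * C₀ * (4 * √(C₀ + 1) + 2), fun y hy q hq f hf hper => ?_⟩
  have hq' : (0 : ℝ) < q := by exact_mod_cast hq
  set E := 18 * (C₀ + 1) * C₀ * (4 * √((C₀ + 1) * y) * q + 2 * (q : ℝ) ^ 2) with hE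
  have hsum1 : ∀ G : GaussianInt → ℝ, Summable fun μ => G μ * ψ (nrm μ / y) := fun G =>
    lattice_summable_of_bdd (Y := (C₀ + 1) * y) _ fun μ hμ => by
      rw [lattice_vanish hψ hy hμ, mul_zero]
  have herr : ∀ v ∈ range q ×ˢ range q,
      |∑' μ : GaussianInt, f μ.re μ.im * ψ (nrm μ / y) -
        ∑' μ : GaussianInt, f (μ.re + v.1) (μ.im + v.2) * ψ (nrm μ / y)| ≤ E := by
    intro v hv
    rw [Finset.mem_product, Finset.mem_range, Finset.mem_range] at hv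
    have := lattice_shift_err hψ hy (q := q) (⟨v.1, v.2⟩ : GaussianInt)
      (by
        simp only [Int.cast_natCast, Nat.abs_cast]
        exact_mod_cast hv.1.le)
      (by
        simp only [Int.cast_natCast, Nat.abs_cast]
        exact_mod_cast hv.2.le)
      (fun μ => f μ.re μ.im) (fun μ => hf _ _)
    simpa only [Zsqrtd.re_add, Zsqrtd.im_add] using this
  have hmain : ∑ v ∈ range q ×ˢ range q,
      ∑' μ : GaussianInt, f (μ.re + v.1) (μ.im + v.2) * ψ (nrm μ / y) =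
      (∑ v ∈ range q ×ˢ range q, f v.1 v.2) * ∑' μ : GaussianInt, ψ (nrm μ / y) := by
    rw [← Summable.tsum_finsetSum (fun v _ => hsum1 fun μ => f (μ.re + v.1) (μ.im + v.2)),
      ← tsum_mul_left]
    refine tsum_congr fun μ => ?_
    rw [← Finset.sum_mul, lattice_shift_two f hper]
  set S := ∑' μ : GaussianInt, f μ.re μ.im * ψ (nrm μ / y) with hS
  have hcard : ((range q ×ˢ range q).card : ℝ) = (q : ℝ) ^ 2 := by
    simp [sq]
  have hrew : S - (∑ v ∈ range q ×ˢ range q, f v.1 v.2) / (q : ℝ) ^ 2 *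
      ∑' μ : GaussianInt, ψ (nrm μ / y) =
      (∑ v ∈ range q ×ˢ range q, (S -
        ∑' μ : GaussianInt, f (μ.re + v.1) (μ.im + v.2) * ψ (nrm μ / y))) / (q : ℝ) ^ 2 := by
    rw [Finset.sum_sub_distrib, hmain, Finset.sum_const, nsmul_eq_mul, hcard]
    field_simp
  rw [hrew, abs_div, abs_of_pos (by positivity : (0 : ℝ) < (q : ℝ) ^ 2),
    div_le_iff₀ (by positivity)]
  refine (Finset.abs_sum_le_sum_abs _ _).trans ((Finset.sum_le_sum herr).trans ?_)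
  rw [Finset.sum_const, nsmul_eq_mul, hcard, mul_comm]
  refine mul_le_mul_of_nonneg_right ?_ (by positivity)
  rw [hE, Real.sqrt_mul (by linarith), mul_assoc (18 * (C₀ + 1) * C₀)]
  refine mul_le_mul_of_nonneg_left ?_ (by positivity)
  have a1 : 0 ≤ √(C₀ + 1) := Real.sqrt_nonneg _
  have a2 : 0 ≤ √y := Real.sqrt_nonneg _
  have a3 : 0 ≤ √(C₀ + 1) * (q : ℝ) ^ 2 := by positivity
  have a4 : 0 ≤ (q : ℝ) * √y := by positivity
  nlinarith

open MeasureTheory in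
theorem lattice_polar {c₀ C₀ : ℝ} {ψ : ℝ → ℝ} (hψ : Wt c₀ C₀ ψ) {y : ℝ} (hy : 1 ≤ y) :
    ∫ p : ℝ × ℝ, ψ ((p.1 ^ 2 + p.2 ^ 2) / y) = Real.pi * y * ∫ x, ψ x := by
  rw [← integral_comp_polarCoord_symm]
  have h1 : ∀ p : ℝ × ℝ, p.1 • ψ (((polarCoord.symm p).1 ^ 2 + (polarCoord.symm p).2 ^ 2) / y) =
      (p.1 * ψ (p.1 ^ 2 / y)) * (1 : ℝ) := by
    intro p
    simp only [polarCoord_symm_apply, smul_eq_mul, mul_one]
    congr 3
    nlinarith [Real.cos_sq_add_sin_sq p.2]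
  simp only [h1]
  rw [polarCoord_target, Measure.volume_eq_prod,
    setIntegral_prod_mul (fun r : ℝ => r * ψ (r ^ 2 / y)) (fun _ : ℝ => (1 : ℝ))]
  have h2 : ∫ _ in Set.Ioo (-Real.pi) Real.pi, (1 : ℝ) = 2 * Real.pi := by
    rw [setIntegral_const, Real.volume_real_Ioo_of_le (by linarith [Real.pi_pos])]
    simp only [smul_eq_mul]
    ring
  have h3 := integral_comp_rpow_Ioi_of_pos (g := fun s : ℝ => ψ (s / y)) (p := 2) two_pos
  have h4 : ∫ x in Set.Ioi (0 : ℝ), (2 * x ^ ((2 : ℝ) - 1)) • ψ (x ^ (2 : ℝ) / y) =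
      2 * ∫ r in Set.Ioi (0 : ℝ), r * ψ (r ^ 2 / y) := by
    rw [← integral_const_mul]
    refine setIntegral_congr_fun measurableSet_Ioi fun x _ => ?_
    have e : (2 : ℝ) - 1 = 1 := by norm_num
    simp only [e, Real.rpow_one, Real.rpow_two, smul_eq_mul]
    ring
  have h5 : ∫ s in Set.Ioi (0 : ℝ), ψ (s / y) = ∫ s, ψ (s / y) := by
    refine setIntegral_eq_integral_of_forall_compl_eq_zero fun s hs => ?_
    by_contra h
    have h6 := (hψ.supp _ h).1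
    have h7 : s / y ≤ 0 := div_nonpos_of_nonpos_of_nonneg (not_lt.mp hs) (by linarith)
    linarith [hψ.pos]
  have h6 := Measure.integral_comp_div ψ y
  rw [abs_of_pos (by linarith), smul_eq_mul] at h6
  rw [h2]
  rw [h4, h5, h6] at h3
  have h7 : ∫ r in Set.Ioi (0 : ℝ), r * ψ (r ^ 2 / y) = (y * ∫ x, ψ x) / 2 := by linarith
  rw [h7]
  ring

/-- The unit square attached to a lattice point. -/
def latticeSq (μ : GaussianInt) : Set (ℝ × ℝ) :=
  Set.Ico (μ.re : ℝ) (μ.re + 1) ×ˢ Set.Ico (μ.im : ℝ) (μ.im + 1)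

theorem lattice_mem_sq (μ : GaussianInt) (p : ℝ × ℝ) :
    p ∈ latticeSq μ ↔ (⟨⌊p.1⌋, ⌊p.2⌋⟩ : GaussianInt) = μ := by
  unfold latticeSq
  rw [Set.mem_prod, Set.mem_Ico, Set.mem_Ico, ← Int.floor_eq_iff, ← Int.floor_eq_iff,
    Zsqrtd.ext_iff]

open MeasureTheory in
theorem lattice_step (B : Finset GaussianInt) (G : GaussianInt → ℝ) (hG : ∀ μ ∉ B, G μ = 0) :
    Integrable (fun p : ℝ × ℝ => G ⟨⌊p.1⌋, ⌊p.2⌋⟩) ∧
      ∫ p : ℝ × ℝ, G ⟨⌊p.1⌋, ⌊p.2⌋⟩ = ∑' μ, G μ := by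
  have hm : ∀ μ, MeasurableSet (latticeSq μ) := fun μ =>
    measurableSet_Ico.prod measurableSet_Ico
  have hv : ∀ μ, volume (latticeSq μ) = 1 := by
    intro μ
    unfold latticeSq
    rw [Measure.volume_eq_prod, Measure.prod_prod]
    simp
  have hfun : (fun p : ℝ × ℝ => G ⟨⌊p.1⌋, ⌊p.2⌋⟩) =
      fun p => ∑ μ ∈ B, (latticeSq μ).indicator (fun _ => G μ) p := by
    funext p
    simp only [Set.indicator_apply, lattice_mem_sq]
    rw [Finset.sum_ite_eq]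
    split_ifs with h
    · rfl
    · exact hG _ h
  have hint : ∀ μ, Integrable ((latticeSq μ).indicator fun _ => G μ) := fun μ =>
    (integrable_indicator_iff (hm μ)).mpr (integrableOn_const (by rw [hv]; simp))
  rw [hfun]
  refine ⟨integrable_finsetSum _ fun μ _ => hint μ, ?_⟩
  rw [integral_finsetSum _ fun μ _ => hint μ, tsum_eq_sum (s := B) hG]
  refine Finset.sum_congr rfl fun μ _ => ?_
  rw [integral_indicator_const _ (hm μ), Measure.real, hv]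
  simp

open MeasureTheory in
theorem lattice_area {c₀ C₀ : ℝ} {ψ : ℝ → ℝ} (hψ : Wt c₀ C₀ ψ) : ∃ C : ℝ, ∀ y : ℝ, 1 ≤ y →
    |∑' μ : GaussianInt, ψ (nrm μ / y) - Real.pi * y * ∫ x, ψ x| ≤ C * √y := by
  have hC := lattice_C_nonneg hψ
  refine ⟨160 * C₀ * (C₀ + 1) * √(C₀ + 1), fun y hy => ?_⟩
  set Y := (C₀ + 1) * y with hYdef
  have hY : 1 ≤ Y := by nlinarith
  set L := √Y with hL
  have hL1 : 1 ≤ L := Real.one_le_sqrt.mpr hY
  have hLL : L * L = Y := Real.mul_self_sqrt (by linarith)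
  obtain ⟨hint, hsum⟩ := lattice_step (finite_nrm Y).toFinset (fun μ => ψ (nrm μ / y))
    (fun μ hμ => lattice_vanish hψ hy (by simpa using hμ))
  set K := C₀ * ((4 * (L + 1) * 1 + 2 * 1 ^ 2) / y) with hK
  have hK0 : 0 ≤ K := by positivity
  set box : Set (ℝ × ℝ) := Set.Icc (-(L + 1)) (L + 1) ×ˢ Set.Icc (-(L + 1)) (L + 1) with hbox
  have hm : MeasurableSet box := measurableSet_Icc.prod measurableSet_Icc
  have hv : volume box = ENNReal.ofReal ((2 * (L + 1)) * (2 * (L + 1))) := by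
    rw [hbox, Measure.volume_eq_prod, Measure.prod_prod, Real.volume_Icc,
      ← ENNReal.ofReal_mul (by linarith)]
    congr 1
    ring
  have hintb : Integrable (box.indicator fun _ => K) :=
    (integrable_indicator_iff hm).mpr (integrableOn_const (by rw [hv]; simp))
  have hfl : ∀ x : ℝ, |(⌊x⌋ : ℝ) - x| ≤ 1 := by
    intro x
    rw [abs_le]
    constructor <;> linarith [Int.floor_le x, Int.lt_floor_add_one x]
  have hout : ∀ a b : ℝ, L < |a| ∨ L < |b| → ψ ((a ^ 2 + b ^ 2) / y) = 0 := by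
    intro a b h
    refine lattice_vanish hψ hy (not_le.mpr ?_)
    rw [← hYdef, ← hLL, ← sq_abs a, ← sq_abs b]
    rcases h with h | h
    · nlinarith [sq_nonneg |b|]
    · nlinarith [sq_nonneg |a|]
  have hpt : ∀ p : ℝ × ℝ, ‖ψ (nrm (⟨⌊p.1⌋, ⌊p.2⌋⟩ : GaussianInt) / y) -
      ψ ((p.1 ^ 2 + p.2 ^ 2) / y)‖ ≤ box.indicator (fun _ => K) p := by
    intro p
    rw [Real.norm_eq_abs, lattice_nrm_cast]
    by_cases hp : p ∈ box
    · rw [Set.indicator_of_mem hp]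
      have h1 : |p.1| ≤ L + 1 := abs_le.mpr hp.1
      have h2 : |p.2| ≤ L + 1 := abs_le.mpr hp.2
      have := lattice_var hψ hy h1 h2 (hfl p.1) (hfl p.2)
      simpa only [add_sub_cancel] using this
    · rw [Set.indicator_of_notMem hp]
      have h1 : L + 1 < |p.1| ∨ L + 1 < |p.2| := by
        by_contra h
        push Not at h
        exact hp ⟨abs_le.mp h.1, abs_le.mp h.2⟩
      have h2 : ∀ x : ℝ, L + 1 < |x| → L < |(⌊x⌋ : ℝ)| := by
        intro x hx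
        have := abs_sub_abs_le_abs_sub x (⌊x⌋ : ℝ)
        rw [abs_sub_comm] at this
        linarith [hfl x]
      rw [hout _ _ (h1.imp (h2 _) (h2 _)),
        hout _ _ (h1.imp (fun h => by linarith) (fun h => by linarith)), sub_zero, abs_zero]
  have hcont : Continuous ψ := by
    refine (LipschitzWith.of_dist_le_mul (K := ⟨C₀, hC⟩) fun a b => ?_).continuous
    rw [Real.dist_eq, Real.dist_eq]
    exact hψ.lip a b
  have hint2 : Integrable fun p : ℝ × ℝ => ψ ((p.1 ^ 2 + p.2 ^ 2) / y) := by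
    have hc : Continuous fun p : ℝ × ℝ => ψ ((p.1 ^ 2 + p.2 ^ 2) / y) := by fun_prop
    have hd : Integrable fun p : ℝ × ℝ => ψ (nrm (⟨⌊p.1⌋, ⌊p.2⌋⟩ : GaussianInt) / y) -
        ψ ((p.1 ^ 2 + p.2 ^ 2) / y) :=
      hintb.mono' (hint.aestronglyMeasurable.sub hc.aestronglyMeasurable)
        (Eventually.of_forall hpt)
    refine (hint.sub hd).congr (Eventually.of_forall fun p => ?_)
    simp
  rw [← hsum, ← lattice_polar hψ hy, ← integral_sub hint hint2]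
  have hb := norm_integral_le_of_norm_le hintb (Eventually.of_forall hpt)
  rw [Real.norm_eq_abs, integral_indicator_const _ hm, Measure.real, hv,
    ENNReal.toReal_ofReal (by positivity), smul_eq_mul] at hb
  refine hb.trans ?_
  have hLs : L = √(C₀ + 1) * √y := by rw [hL, hYdef, Real.sqrt_mul (by linarith)]
  have hy0 : 0 < y := by linarith
  have e1 : 160 * C₀ * (C₀ + 1) * √(C₀ + 1) * √y = (4 * L) * (4 * L) * (C₀ * (10 * L / y)) := by
    have : (4 * L) * (4 * L) * (C₀ * (10 * L / y)) = 160 * C₀ * L * (L * L) / y := by ring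
    rw [this, hLL, hYdef, hLs]
    field_simp
  rw [e1, hK]
  have i1 : 2 * (L + 1) ≤ 4 * L := by linarith
  have i2 : 4 * (L + 1) * 1 + 2 * 1 ^ 2 ≤ 10 * L := by linarith
  gcongr

end Pool.Agent.P.MP_a1177c_nt.EK
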