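import Pool.Agent.P.MP_a1177c_nt.EK.Model
import Pool.Agent.P.MP_a1177c_nt.EK.Cset
import Pool.Agent.P.MP_a1177c_nt.EK.Expand
import Pool.Agent.P.MP_a1177c_nt.EK.Crt

set_option autoImplicit false

namespace Pool.Agent.P.MP_a1177c_nt.EK

open Finset Filter
open scoped Classical

lemma local_nrm_cast (z : GaussianInt) : (nrm z : ℤ) = z.re ^ 2 + z.im ^ 2 := by
  unfold nrm
  rw [Int.natAbs_of_nonneg (GaussianInt.norm_nonneg z), Zsqrtd.norm_def]
  ring

lemma local_det (h : SL) : h 0 0 * h 1 1 - h 0 1 * h 1 0 = 1 := by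
  have := h.det_coe
  rwa [Matrix.det_fin_two] at this

lemma local_sum_ind {α : Type} (s : Finset α) (Q : α → Prop) [DecidablePred Q] :
    ∑ t ∈ s, ind (Q t) = (#{t ∈ s | Q t} : ℝ) := by
  rw [Finset.card_filter]
  push_cast
  refine Finset.sum_congr rfl fun t _ => ?_
  unfold ind
  congr

/-- Counting residues in a period. -/
lemma local_count {p : ℕ} [NeZero p] {M : ℕ} (hM0 : 0 < M) (hM : p ∣ M) (Q : ZMod p → Prop) :
    (∑ t ∈ range M, ind (Q ((t : ℕ) : ZMod p))) / M = (∑ t : ZMod p, ind (Q t)) / p := by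
  have h1 := avg_mul₁ hM0 hM (fun t : ℤ => ind (Q (t : ZMod p))) (fun t t' ht => by
    rw [(ZMod.intCast_eq_intCast_iff t t' p).2 ht])
  simp only [Int.cast_natCast] at h1
  rw [h1]
  congr 1
  refine Finset.sum_bij (fun t _ => ((t : ℕ) : ZMod p)) (fun t _ => Finset.mem_univ _)
    (fun t ht t' ht' e => ?_) (fun u _ => ?_) fun t _ => rfl
  · have a := Finset.mem_range.1 ht
    have b := Finset.mem_range.1 ht'
    have := (ZMod.natCast_eq_natCast_iff' t t' p).1 e
    rwa [Nat.mod_eq_of_lt a, Nat.mod_eq_of_lt b] at this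
  · exact ⟨u.val, Finset.mem_range.2 (ZMod.val_lt u), by simp⟩

section field

variable {F : Type} [Field F] [Fintype F]

lemma local_roots_gen {A B C x b ι : F} (hd : A * C - B ^ 2 = 1) (hA : A ≠ 0) (hb : b ≠ 0)
    (hι : ι * ι = -1) (h2 : (2 : F) ≠ 0) :
    #{t : F | A * (x + t * b) ^ 2 + 2 * B * (x + t * b) * b + C * b ^ 2 = 0} = 2 := by
  have hι0 : ι ≠ 0 := by
    rintro rfl
    simp at hι
  have hAb : A * b ≠ 0 := mul_ne_zero hA hb
  rw [Finset.card_eq_two]
  refine ⟨(ι * b - B * b - A * x) / (A * b), (-ι * b - B * b - A * x) / (A * b), fun e => ?_, ?_⟩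
  · rw [div_left_inj' hAb] at e
    have : 2 * ι * b = 0 := by linear_combination e
    exact mul_ne_zero (mul_ne_zero h2 hι0) hb this
  · ext t
    simp only [Finset.mem_filter, Finset.mem_univ, true_and, Finset.mem_insert,
      Finset.mem_singleton, eq_div_iff hAb]
    constructor
    · intro e
      have : (t * (A * b) - (ι * b - B * b - A * x)) *
          (t * (A * b) - (-ι * b - B * b - A * x)) = 0 := by
        linear_combination A * e - b ^ 2 * hd - b ^ 2 * hι
      rcases mul_eq_zero.1 this with h | h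
      · exact Or.inl (sub_eq_zero.1 h)
      · exact Or.inr (sub_eq_zero.1 h)
    · intro e
      have : (t * (A * b) - (ι * b - B * b - A * x)) *
          (t * (A * b) - (-ι * b - B * b - A * x)) = 0 := by
        rcases e with e | e <;> simp [e]
      apply mul_left_cancel₀ hA
      linear_combination this + b ^ 2 * hd + b ^ 2 * hι

lemma local_roots_le {A B C x b ι : F} (hd : A * C - B ^ 2 = 1) (hb : b ≠ 0)
    (hι : ι * ι = -1) (h2 : (2 : F) ≠ 0) :
    #{t : F | A * (x + t * b) ^ 2 + 2 * B * (x + t * b) * b + C * b ^ 2 = 0} ≤ 2 := by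
  by_cases hA : A = 0
  · subst hA
    have hB : B ≠ 0 := by
      rintro rfl
      simp at hd
    refine (Finset.card_le_one.2 fun t ht t' ht' => ?_).trans (by norm_num)
    simp only [Finset.mem_filter, Finset.mem_univ, true_and] at ht ht'
    have : 2 * B * b * b * (t - t') = 0 := by linear_combination ht - ht'
    exact sub_eq_zero.1 ((mul_eq_zero.1 this).resolve_left
      (mul_ne_zero (mul_ne_zero (mul_ne_zero h2 hB) hb) hb))
  · exact (local_roots_gen hd hA hb hι h2).le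

omit [Fintype F] in
lemma local_common {A B C a a' b b' n t : F} (hd : A * C - B ^ 2 = 1)
    (e : A * (a * n + t * b) ^ 2 + 2 * B * (a * n + t * b) * b + C * b ^ 2 = 0)
    (e' : A * (a' * n + t * b') ^ 2 + 2 * B * (a' * n + t * b') * b' + C * b' ^ 2 = 0) :
    (a * b' - a' * b) * (n * A) = 0 ∨
      ((a * b' - a' * b) * (n * A)) ^ 2 + (2 * b * b') ^ 2 = 0 := by
  have u : (A * (a * n + t * b) + B * b) ^ 2 + b ^ 2 = 0 := by
    linear_combination A * e - b ^ 2 * hd
  have v : (A * (a' * n + t * b') + B * b') ^ 2 + b' ^ 2 = 0 := by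
    linear_combination A * e' - b' ^ 2 * hd
  have w : (b' * (A * (a * n + t * b) + B * b) - b * (A * (a' * n + t * b') + B * b')) *
      (b' * (A * (a * n + t * b) + B * b) + b * (A * (a' * n + t * b') + B * b')) = 0 := by
    linear_combination b' ^ 2 * u - b ^ 2 * v
  rcases mul_eq_zero.1 w with w | w
  · left
    linear_combination w
  · right
    have k : (a * b' - a' * b) * (n * A) = 2 * b' * (A * (a * n + t * b) + B * b) := by
      linear_combination -w
    rw [k]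
    linear_combination 4 * b' ^ 2 * u

end field

/-- Marginals of the empirical law. -/
lemma local_marg {J : Type} [Fintype J] (s : Finset ℕ) (Z : ℕ → J → Prop) (Q : (J → Prop) → Prop)
    [DecidablePred Q] :
    ∑ ω with Q ω, ((#{t ∈ s | Z t = ω} : ℝ) / #s) = (∑ t ∈ s, ind (Q (Z t))) / #s := by
  rw [← Finset.sum_div, local_sum_ind]
  congr 1
  have := Finset.sum_card_fiberwise_eq_card_filter s {ω | Q ω} Z
  simp only [Finset.mem_filter, Finset.mem_univ, true_and] at this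
  exact_mod_cast this

lemma local_core₀ {J : Type} [Fintype J] {p : ℕ} [NeZero p] {M : ℕ} (hM0 : 0 < M) (hM : p ∣ M)
    (Z : ℕ → J → Prop) (N : J → ZMod p → Prop) (hZ : ∀ t j, Z t j ↔ N j (t : ZMod p)) {δ : ℝ}
    (hj : ∀ j, |(∑ t : ZMod p, ind (N j t)) / p - 2 / (p + 2)| ≤ δ)
    (hjk : ∀ j k, j ≠ k → (∑ t : ZMod p, ind (N j t ∧ N k t)) / p ≤ δ)
    (hg : (2 / (p + 2) : ℝ) ^ 2 ≤ δ) :
    ∑ ω : J → Prop, |(#{t ∈ range M | Z t = ω} : ℝ) / #(range M) - indLaw p ω| ≤
      8 * (Fintype.card J + 1) ^ 2 * δ := by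
  have hMR : (0 : ℝ) < M := by exact_mod_cast hM0
  have h1 : ∑ ω : J → Prop, (#{t ∈ range M | Z t = ω} : ℝ) / #(range M) = 1 := by
    have := local_marg (range M) Z fun _ => True
    rw [Finset.filter_true] at this
    rw [this]
    simp [ind, hMR.ne']
  refine tv_of_marg p (fun ω : J → Prop => (#{t ∈ range M | Z t = ω} : ℝ) / #(range M))
    (fun ω => by positivity) h1 (δ := δ) (fun j => ?_) (fun j k e => ?_) hg
  · rw [local_marg (range M) Z fun ω => ω j]
    simp only [hZ, Finset.card_range]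
    rw [local_count hM0 hM (N j)]
    exact hj j
  · rw [local_marg (range M) Z fun ω => ω j ∧ ω k]
    simp only [hZ, Finset.card_range]
    rw [local_count hM0 hM fun t => N j t ∧ N k t]
    exact hjk j k e

lemma local_core {p : ℕ} [NeZero p] {M : ℕ} (hM0 : 0 < M) (hM : p ∣ M) (Z : ℕ → Fin 3 → Prop)
    (N : Fin 3 → ZMod p → Prop) (hZ : ∀ t j, Z t j ↔ N j (t : ZMod p)) {δ : ℝ}
    (hj : ∀ j, |(∑ t : ZMod p, ind (N j t)) / p - 2 / (p + 2)| ≤ δ)
    (hjk : ∀ j k, j ≠ k → (∑ t : ZMod p, ind (N j t ∧ N k t)) / p ≤ δ)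
    (hg : (2 / (p + 2) : ℝ) ^ 2 ≤ δ) :
    ∑ ω : Fin 3 → Prop, |(#{t ∈ range M | Z t = ω} : ℝ) / #(range M) - indLaw p ω| ≤ 128 * δ := by
  have := local_core₀ hM0 hM Z N hZ hj hjk hg
  rw [Fintype.card_fin] at this
  have e : (128 : ℝ) = 8 * (((3 : ℕ) : ℝ) + 1) ^ 2 := by norm_num
  rw [e]
  exact le_of_eq_of_le (by congr; exact Subsingleton.elim _ _) this

theorem local_law : ∃ C : ℝ, 0 ≤ C ∧ ∀ (d : Geo) (p : ℕ), p.Prime → p % 4 = 1 →
    (∀ j, ¬ (p : ℤ) ∣ d.b j) → (∀ k, ¬ (p : ℤ) ∣ d.m k) → ∀ n : ℕ, ¬ p ∣ n → ∀ (h : SL) (M : ℕ),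
    0 < M → p ∣ M →
    ∑ ω : Fin 3 → Prop, |1 * ((#{t ∈ range M |
        (fun j => p ∣ nrm (act (h * nT ((t : ℕ) : ℤ)) (d.a j * n) (d.b j))) = ω} : ℝ) / #(range M)) -
          indLaw p ω| ≤
      if (p : ℤ) ∣ (nrm (act h 1 0) : ℤ) * Dv d.m d.c ((n * nrm (act h 1 0) : ℕ)) then C / p
        else C / (p : ℝ) ^ 2 := by
  refine ⟨512, by norm_num, fun d p hp hp4 hb hm n hn h M hM0 hM => ?_⟩
  have : Fact p.Prime := ⟨hp⟩
  obtain ⟨ι, hι⟩ : IsSquare (-1 : ZMod p) := ZMod.exists_sq_eq_neg_one_iff.2 (by omega)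
  have hp2 : 2 < p := by
    have := hp.two_le
    omega
  have h2 : (2 : ZMod p) ≠ 0 := by
    intro e
    have : ((2 : ℕ) : ZMod p) = 0 := by exact_mod_cast e
    have := Nat.le_of_dvd (by norm_num) ((ZMod.natCast_eq_zero_iff 2 p).1 this)
    omega
  have hpR : (0 : ℝ) < p := by exact_mod_cast hp.pos
  have hMR : (0 : ℝ) < M := by exact_mod_cast hM0
  set A : ZMod p := ((h 0 0 : ℤ) : ZMod p) ^ 2 + ((h 1 0 : ℤ) : ZMod p) ^ 2 with hA
  set B : ZMod p := ((h 0 0 : ℤ) : ZMod p) * ((h 0 1 : ℤ) : ZMod p) +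
    ((h 1 0 : ℤ) : ZMod p) * ((h 1 1 : ℤ) : ZMod p) with hB
  set C : ZMod p := ((h 0 1 : ℤ) : ZMod p) ^ 2 + ((h 1 1 : ℤ) : ZMod p) ^ 2 with hC
  have hd : A * C - B ^ 2 = 1 := by
    have e := congrArg (Int.cast : ℤ → ZMod p) (local_det h)
    push_cast at e
    rw [hA, hB, hC]
    linear_combination (((h 0 0 : ℤ) : ZMod p) * ((h 1 1 : ℤ) : ZMod p) -
      ((h 0 1 : ℤ) : ZMod p) * ((h 1 0 : ℤ) : ZMod p) + 1) * e
  obtain ⟨N, hN⟩ : ∃ N : Fin 3 → ZMod p → Prop, ∀ j t, N j t ↔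
      A * ((d.a j : ZMod p) * n + t * d.b j) ^ 2 +
        2 * B * ((d.a j : ZMod p) * n + t * d.b j) * d.b j + C * (d.b j : ZMod p) ^ 2 = 0 :=
    ⟨_, fun _ _ => Iff.rfl⟩
  have hZ : ∀ (t : ℕ) j, p ∣ nrm (act (h * nT ((t : ℕ) : ℤ)) (d.a j * n) (d.b j)) ↔
      N j (t : ZMod p) := by
    intro t j
    rw [hN, ← Int.natCast_dvd_natCast, ← ZMod.intCast_zmod_eq_zero_iff_dvd, local_nrm_cast, act_nT]
    simp only [act]
    push_cast
    rw [hA, hB, hC]
    constructor <;> intro e <;> linear_combination e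
  have hb' : ∀ j, (d.b j : ZMod p) ≠ 0 := fun j e =>
    hb j ((ZMod.intCast_zmod_eq_zero_iff_dvd _ _).1 e)
  have hle : ∀ j, ∑ t : ZMod p, ind (N j t) ≤ 2 := fun j => by
    have := local_roots_le (x := (d.a j : ZMod p) * n) hd (hb' j) hι.symm h2
    simp only [hN]
    rw [local_sum_ind]
    exact_mod_cast this
  have hq : (2 : ℝ) / (p + 2) ≤ 2 / p := div_le_div_of_nonneg_left (by norm_num) hpR (by linarith)
  have hq0 : (0 : ℝ) ≤ 2 / (p + 2) := by positivity
  have hq1 : (2 : ℝ) / (p + 2) ≤ 1 := by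
    rw [div_le_one (by positivity)]
    linarith
  simp only [one_mul]
  split_ifs with hc
  · refine (local_core hM0 hM _ N hZ (δ := 2 / p) (fun j => ?_) (fun j k _ => ?_) ?_).trans ?_
    · rw [abs_le]
      have a0 : (0 : ℝ) ≤ (∑ t : ZMod p, ind (N j t)) / p :=
        div_nonneg (Finset.sum_nonneg fun t _ => cset_ind_nonneg _) hpR.le
      have a1 : (∑ t : ZMod p, ind (N j t)) / p ≤ 2 / p := div_le_div_of_nonneg_right (hle j) hpR.le
      constructor <;> linarith
    · refine div_le_div_of_nonneg_right (le_trans (Finset.sum_le_sum fun t _ => ?_) (hle j)) hpR.le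
      unfold ind
      by_cases e : N j t <;> by_cases e' : N k t <;> simp [e, e']
    · nlinarith
    · rw [← mul_div_assoc]
      exact div_le_div_of_nonneg_right (by norm_num) hpR.le
  · have hAc : ((nrm (act h 1 0) : ℕ) : ZMod p) = A := by
      have e := congrArg (Int.cast : ℤ → ZMod p) (local_nrm_cast (act h 1 0))
      simp only [act, mul_one, mul_zero, add_zero] at e
      push_cast at e
      simpa [act] using e
    rw [← ZMod.intCast_zmod_eq_zero_iff_dvd] at hc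
    simp only [Dv] at hc
    push_cast at hc
    rw [hAc, mul_eq_zero, not_or, Finset.prod_eq_zero_iff] at hc
    obtain ⟨hA0, hD⟩ := hc
    have hn' : (n : ZMod p) ≠ 0 := fun e => hn ((ZMod.natCast_eq_zero_iff n p).1 e)
    have hno : ∀ k t, ¬ (N k t ∧ N (k + 1) t) := by
      rintro k t ⟨e, e'⟩
      rcases local_common hd ((hN _ _).1 e) ((hN _ _).1 e') with w | w
      · refine hm k ((ZMod.intCast_zmod_eq_zero_iff_dvd _ _).1 ?_)
        simp only [Geo.m]
        push_cast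
        exact (mul_eq_zero.1 w).resolve_right (mul_ne_zero hn' hA0)
      · refine hD ⟨k, Finset.mem_univ _, ?_⟩
        simp only [Geo.m, Geo.c]
        push_cast
        exact w
    refine (local_core hM0 hM _ N hZ (δ := 4 / (p : ℝ) ^ 2) (fun j => ?_) (fun j k hjk => ?_)
      ?_).trans ?_
    · have e : ∑ t : ZMod p, ind (N j t) = 2 := by
        have := local_roots_gen (x := (d.a j : ZMod p) * n) hd hA0 (hb' j) hι.symm h2
        simp only [hN]
        rw [local_sum_ind]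
        exact_mod_cast this
      rw [e, abs_of_nonneg (by linarith), div_sub_div _ _ hpR.ne' (by positivity),
        div_le_div_iff₀ (by positivity) (by positivity)]
      nlinarith
    · have e : ∑ t : ZMod p, ind (N j t ∧ N k t) = 0 := by
        refine Finset.sum_eq_zero fun t _ => ?_
        have : k = j + 1 ∨ j = k + 1 := by
          revert j k
          decide
        have hn : ¬ (N j t ∧ N k t) := fun ht => by
          rcases this with rfl | rfl
          · exact hno _ t ht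
          · exact hno _ t ht.symm
        simp [ind, hn]
      rw [e, zero_div]
      positivity
    · have : (4 : ℝ) / (p : ℝ) ^ 2 = (2 / p) ^ 2 := by
        rw [div_pow]
        norm_num
      rw [this]
      exact pow_le_pow_left₀ hq0 hq 2
    · rw [← mul_div_assoc]
      norm_num

theorem forced_law (ϖ : GaussianInt) (hϖ : IsCoprime ϖ.re ϖ.im) (x b : ℤ)
    (hb : IsCoprime b (nrm ϖ : ℤ)) (h : SL) {M : ℕ} (hM0 : 0 < M) (hM : nrm ϖ ∣ M) :
    avT M (fun h => ind (ϖ ∣ act h x b)) h ≤ 1 / nrm ϖ ∧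
      ((nrm (act h 1 0)).Coprime (nrm ϖ) → avT M (fun h => ind (ϖ ∣ act h x b)) h = 1 / nrm ϖ) := by
  obtain ⟨ι, hι, hz⟩ := gauss_root ϖ hϖ
  have hq0 : 0 < nrm ϖ := Nat.pos_of_dvd_of_pos hM hM0
  have hle : avT M (fun h => ind (ϖ ∣ act h x b)) h ≤ 1 / nrm ϖ := by
    have := cset_avT (J := Unit) (q := fun _ => nrm ϖ) (ι := fun _ => ι) (x := fun _ => x)
      (y := fun _ => b) (fun _ => hb) hM0 (fun _ => hM) h
    simpa [Cset, hz] using this
  refine ⟨hle, fun hc => le_antisymm hle ?_⟩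
  have hav := avg_mul₁ hM0 hM (fun t : ℤ => ind (ϖ ∣ act (h * nT t) x b)) (fun t t' ht => by
    simp only [hz, act_nT]
    simp only [ell, act]
    congr 1
    obtain ⟨k, hk⟩ := ht.dvd
    have e : t' = t + nrm ϖ * k := by linarith
    rw [e]
    apply propext
    have e2 : h 0 0 * (x + (t + nrm ϖ * k) * b) + h 0 1 * b +
        ι * (h 1 0 * (x + (t + nrm ϖ * k) * b) + h 1 1 * b) =
        (h 0 0 * (x + t * b) + h 0 1 * b + ι * (h 1 0 * (x + t * b) + h 1 1 * b)) +
          nrm ϖ * (k * b * (h 0 0 + ι * h 1 0)) := by ring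
    rw [e2]
    exact (dvd_add_left (dvd_mul_right _ _)).symm)
  unfold avT
  rw [hav]
  refine div_le_div_of_nonneg_right ?_ (Nat.cast_nonneg _)
  have hA : IsCoprime (h 0 0 + ι * h 1 0) (nrm ϖ : ℤ) := by
    have h1 : IsCoprime (nrm (act h 1 0) : ℤ) (nrm ϖ : ℤ) := Nat.isCoprime_iff_coprime.2 hc
    rw [local_nrm_cast] at h1
    simp only [act, mul_one, mul_zero, add_zero] at h1
    obtain ⟨k, hk⟩ := hι
    have e : h 0 0 ^ 2 + h 1 0 ^ 2 =
        (h 0 0 + ι * h 1 0) * (h 0 0 - ι * h 1 0) + nrm ϖ * (k * h 1 0 ^ 2) := by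
      linear_combination h 1 0 ^ 2 * hk
    rw [e] at h1
    exact (h1.of_add_mul_left_left).of_mul_left_left
  obtain ⟨u, v, huv⟩ := hA.mul_left hb
  set c : ℤ := (h 0 0 + ι * h 1 0) * x + (h 0 1 + ι * h 1 1) * b with hcdef
  have hqZ : (0 : ℤ) < nrm ϖ := by exact_mod_cast hq0
  have t0 : 0 ≤ (-c * u) % nrm ϖ := Int.emod_nonneg _ hqZ.ne'
  have t1 : (-c * u) % nrm ϖ < nrm ϖ := Int.emod_lt_of_pos _ hqZ
  obtain ⟨t, ht⟩ := Int.eq_ofNat_of_zero_le t0
  have hmem : t ∈ range (nrm ϖ) := Finset.mem_range.2 (by omega)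
  have hd : ϖ ∣ act (h * nT t) x b := by
    rw [hz, act_nT]
    simp only [ell, act]
    have e := Int.emod_add_mul_ediv (-c * u) (nrm ϖ)
    rw [ht] at e
    refine ⟨c * v - (h 0 0 + ι * h 1 0) * b * (-c * u / nrm ϖ), ?_⟩
    linear_combination ((h 0 0 + ι * h 1 0) * b) * e - c * huv - hcdef
  have := Finset.single_le_sum (f := fun t : ℕ => ind (ϖ ∣ act (h * nT t) x b))
    (fun t _ => by unfold ind; split_ifs <;> norm_num) hmem
  simpa [ind, hd] using this

end Pool.Agent.P.MP_a1177c_nt.EK
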