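import Pool.Agent.P.MP_a1177c_nt.EK.PrimeSum
import Pool.Agent.P.MP_a1177c_nt.EK.Numerics
import Pool.Agent.P.MP_a1177c_nt.EK.LaEval

set_option autoImplicit false

namespace Pool.Agent.P.MP_a1177c_nt.EK

open Finset Filter
open scoped Classical

theorem lower_phi_eq (F : Fin 4 → ℝ) {s : ℝ} (hs : 0 ≤ s) :
    ∑ a, F a * cl a s = (F 0 - F 1) * min (1 / 6) s + (F 1 - F 2) * min (2 / 6) s +
      (F 2 - F 3) * min (3 / 6) s + F 3 * min (4 / 6) s := by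
  have h0 : cl 0 s = min (1 / 6) s := by
    simp only [cl, Fin.val_zero, Nat.cast_zero, max_def, min_def]
    split_ifs <;> linarith
  have h1 : cl 1 s = min (2 / 6) s - min (1 / 6) s := by
    simp only [cl, Fin.val_one, Nat.cast_one, max_def, min_def]
    split_ifs <;> linarith
  have h2 : cl 2 s = min (3 / 6) s - min (2 / 6) s := by
    simp only [cl, Fin.val_two, Nat.cast_ofNat, max_def, min_def]
    split_ifs <;> linarith
  have h3 : cl 3 s = min (4 / 6) s - min (3 / 6) s := by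
    simp only [cl, show ((3 : Fin 4) : ℕ) = 3 from rfl, Nat.cast_ofNat, max_def, min_def]
    split_ifs <;> linarith
  rw [Fin.sum_univ_four, h0, h1, h2, h3]
  ring

theorem lower_min {t a b s₁ s₂ e : ℝ} (ha : 0 ≤ a) (hb : 0 ≤ b) (h1 : a ≤ s₁) (h2 : b ≤ s₂)
    (he : a + b ≤ e) : min t a + min t b - min t e ≤ min t s₁ + min t s₂ - min t (s₁ + s₂) := by
  simp only [min_def]
  split_ifs <;> linarith

theorem lower_phiN (α : Fin 3 → Fin 4) (k : ℕ) :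
    ∑ a, (F3 a α : ℝ) * cl a ((k : ℝ) / 72) = (PhiN α k : ℝ) / 72 := by
  unfold PhiN
  push_cast
  rw [sum_div]
  refine sum_congr rfl fun a _ => ?_
  rw [mul_div_assoc]
  congr 1
  unfold cl
  rcases le_total (12 * (a : ℕ)) k with h | h
  · have h' : (12 : ℝ) * (a : ℕ) ≤ k := by exact_mod_cast h
    rw [Nat.cast_sub h]
    push_cast
    simp only [max_def, min_def]
    split_ifs <;> linarith
  · have h' : (k : ℝ) ≤ 12 * (a : ℕ) := by exact_mod_cast h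
    rw [Nat.sub_eq_zero_of_le h]
    simp only [max_def, min_def, Nat.cast_zero]
    split_ifs <;> linarith

theorem lower_cell (α : Fin 3 → Fin 4) (i j : ℕ) {s₁ s₂ : ℝ} (h1 : (i : ℝ) / 72 ≤ s₁)
    (h2 : (j : ℝ) / 72 ≤ s₂) :
    ((PhiN α i : ℝ) + PhiN α j - PhiN α (i + 1 + j)) / 72 ≤
      ∑ a, (F3 a α : ℝ) * (cl a s₁ + cl a s₂ - cl a (s₁ + s₂)) := by
  have hi : (0 : ℝ) ≤ (i : ℝ) / 72 := by positivity
  have hj : (0 : ℝ) ≤ (j : ℝ) / 72 := by positivity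
  have he : (i : ℝ) / 72 + (j : ℝ) / 72 ≤ ((i + 1 + j : ℕ) : ℝ) / 72 := by
    push_cast
    linarith
  simp only [mul_sub, mul_add, sum_sub_distrib, sum_add_distrib]
  rw [sub_div, add_div, ← lower_phiN, ← lower_phiN, ← lower_phiN,
    lower_phi_eq _ hi, lower_phi_eq _ hj, lower_phi_eq _ (by positivity : (0 : ℝ) ≤ _ / 72),
    lower_phi_eq _ (hi.trans h1), lower_phi_eq _ (hj.trans h2),
    lower_phi_eq _ (by linarith : 0 ≤ s₁ + s₂)]
  have a0 : (0 : ℝ) ≤ (F3 0 α : ℝ) - F3 1 α :=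
    sub_nonneg.2 (by exact_mod_cast F3_anti α 0 1 (by decide))
  have a1 : (0 : ℝ) ≤ (F3 1 α : ℝ) - F3 2 α :=
    sub_nonneg.2 (by exact_mod_cast F3_anti α 1 2 (by decide))
  have a2 : (0 : ℝ) ≤ (F3 2 α : ℝ) - F3 3 α :=
    sub_nonneg.2 (by exact_mod_cast F3_anti α 2 3 (by decide))
  have a3 : (0 : ℝ) ≤ (F3 3 α : ℝ) := by positivity
  have b0 := mul_le_mul_of_nonneg_left (lower_min (t := 1 / 6) hi hj h1 h2 he) a0
  have b1 := mul_le_mul_of_nonneg_left (lower_min (t := 2 / 6) hi hj h1 h2 he) a1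
  have b2 := mul_le_mul_of_nonneg_left (lower_min (t := 3 / 6) hi hj h1 h2 he) a2
  have b3 := mul_le_mul_of_nonneg_left (lower_min (t := 4 / 6) hi hj h1 h2 he) a3
  linarith

theorem lower_sq {x w e : ℝ} (hw : 0 ≤ w) (he : 0 ≤ e) (h : w = 0 ∨ w - e ≤ x) :
    w ^ 2 - 2 * e * w ≤ x ^ 2 := by
  rcases h with rfl | h
  · simpa using sq_nonneg x
  · rcases le_total e w with h' | h'
    · nlinarith [mul_self_le_mul_self (by linarith) h, sq_nonneg e]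
    · nlinarith [sq_nonneg x, mul_nonneg hw he, mul_nonneg hw (sub_nonneg.2 h')]

theorem lower_F3_le (α : Fin 3 → Fin 4) : ∑ a, F3 a α ≤ 119 := by
  rw [← sum_F3]
  exact single_le_sum (f := fun α : Fin 3 → Fin 4 => ∑ a, F3 a α) (fun _ _ => Nat.zero_le _)
    (mem_univ α)

theorem lower_v_le (i j k : ℕ) : ∑ α : Fin 3 → Fin 4, (PhiN α i + PhiN α j - PhiN α k) ≤ 2856 := by
  have h : ∀ (α : Fin 3 → Fin 4) (l : ℕ), PhiN α l ≤ 12 * ∑ a, F3 a α := fun α l => by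
    unfold PhiN
    rw [mul_sum]
    exact sum_le_sum fun a _ => by
      rw [mul_comm 12 (F3 a α)]
      exact Nat.mul_le_mul_left _ (min_le_left _ _)
  calc _ ≤ ∑ α : Fin 3 → Fin 4, 24 * ∑ a, F3 a α := sum_le_sum fun α _ => by
        have := h α i
        have := h α j
        omega
    _ = 2856 := by rw [← mul_sum, sum_F3]; norm_num

theorem lower_Qf {P : Finset ℕ} {R H η s₁ s₂ : ℝ} {n : ℕ} (hH : 0 ≤ H) (hη : 0 ≤ η)
    (hη' : η ≤ 1 / 6) (hHa : ∀ a, |Ha P R a - H / 6| ≤ η * H) (c : ℕ × ℕ)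
    (h1 : (c.1 : ℝ) / 72 ≤ s₁) (h2 : (c.2 : ℝ) / 72 ≤ s₂)
    (hLa : ∀ a, |La P R a n - H * (cl a s₁ + cl a s₂ - cl a (s₁ + s₂))| ≤ η * H) :
    ((1 / 6 - η) * H) ^ 3 * H ^ 2 * ((Vsq c : ℝ) / 72 ^ 2 - 10000 * η) ≤ Qf P R n := by
  have hA : 0 ≤ (1 / 6 - η) * H := mul_nonneg (by linarith) hH
  set v : (Fin 3 → Fin 4) → ℕ := fun α => PhiN α c.1 + PhiN α c.2 - PhiN α (c.1 + 1 + c.2) with hv
  have a1 : ∀ α : Fin 3 → Fin 4, ((1 / 6 - η) * H) ^ 3 ≤ ∏ j, Ha P R (α j) := fun α => by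
    have := prod_le_prod (s := (univ : Finset (Fin 3))) (f := fun _ => (1 / 6 - η) * H)
      (g := fun j => Ha P R (α j)) (fun _ _ => hA) fun j _ => by
        linarith [(abs_le.1 (hHa (α j))).1]
    simpa using this
  have a2 : ∀ α : Fin 3 → Fin 4, (H * v α / 72) ^ 2 - 2 * (119 * (η * H)) * (H * v α / 72) ≤
      (∑ a, (F3 a α : ℝ) * La P R a n) ^ 2 := fun α => by
    refine lower_sq (by positivity) (by positivity) ?_
    rcases le_total (PhiN α c.1 + PhiN α c.2) (PhiN α (c.1 + 1 + c.2)) with h | h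
    · left
      simp [hv, Nat.sub_eq_zero_of_le h]
    · right
      have b1 := mul_le_mul_of_nonneg_left (lower_cell α c.1 c.2 h1 h2) hH
      have b2 : ∑ a, (F3 a α : ℝ) * (H * (cl a s₁ + cl a s₂ - cl a (s₁ + s₂)) - η * H) ≤
          ∑ a, (F3 a α : ℝ) * La P R a n := sum_le_sum fun a _ =>
        mul_le_mul_of_nonneg_left (by linarith [(abs_le.1 (hLa a)).1]) (by positivity)
      have b3 : ∑ a, (F3 a α : ℝ) * (H * (cl a s₁ + cl a s₂ - cl a (s₁ + s₂)) - η * H) =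
          H * ∑ a, (F3 a α : ℝ) * (cl a s₁ + cl a s₂ - cl a (s₁ + s₂)) -
            (∑ a, (F3 a α : ℝ)) * (η * H) := by
        rw [mul_sum, sum_mul, ← sum_sub_distrib]
        exact sum_congr rfl fun a _ => by ring
      have b4 : (∑ a, (F3 a α : ℝ)) * (η * H) ≤ 119 * (η * H) :=
        mul_le_mul_of_nonneg_right (by exact_mod_cast lower_F3_le α) (by positivity)
      have b5 : (v α : ℝ) = (PhiN α c.1 : ℝ) + PhiN α c.2 - PhiN α (c.1 + 1 + c.2) := by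
        simp only [hv]
        rw [Nat.cast_sub h]
        push_cast
        rfl
      rw [b5, mul_div_assoc]
      linarith
  have a3 : (∑ α, (v α : ℝ)) ≤ 2856 := by exact_mod_cast lower_v_le c.1 c.2 (c.1 + 1 + c.2)
  have a4 : (Vsq c : ℝ) = ∑ α, (v α : ℝ) ^ 2 := by
    unfold Vsq
    push_cast
    rfl
  have a5 : H ^ 2 * ((Vsq c : ℝ) / 72 ^ 2 - 10000 * η) ≤
      ∑ α, ((H * v α / 72) ^ 2 - 2 * (119 * (η * H)) * (H * v α / 72)) := by
    have : ∑ α, ((H * v α / 72) ^ 2 - 2 * (119 * (η * H)) * (H * v α / 72)) =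
        H ^ 2 * ((∑ α, (v α : ℝ) ^ 2) / 72 ^ 2 - (238 / 72 * ∑ α, (v α : ℝ)) * η) := by
      rw [sum_div, mul_sum, sum_mul, ← sum_sub_distrib, mul_sum]
      exact sum_congr rfl fun α _ => by ring
    rw [this, a4]
    gcongr
    linarith
  unfold Qf
  calc _ ≤ ((1 / 6 - η) * H) ^ 3 *
        ∑ α, ((H * v α / 72) ^ 2 - 2 * (119 * (η * H)) * (H * v α / 72)) := by
        rw [mul_assoc]
        exact mul_le_mul_of_nonneg_left a5 (by positivity)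
    _ ≤ _ := by
        rw [mul_sum]
        exact sum_le_sum fun α _ => (mul_le_mul_of_nonneg_left (a2 α) (by positivity)).trans
          (mul_le_mul_of_nonneg_right (a1 α) (sq_nonneg _))

theorem lower_nrm (t u : ℤ) : ((nrm ⟨t, u⟩ : ℕ) : ℤ) = t ^ 2 + u ^ 2 := by
  unfold nrm
  rw [Int.natAbs_of_nonneg (GaussianInt.norm_nonneg _), Zsqrtd.norm_def]
  ring

theorem lower_one {c₀ C₀ : ℝ} {ψ : ℝ → ℝ} (hψ : Wt c₀ C₀ ψ) {W : ℕ} (hW : 0 < W) {η : ℝ}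
    (hη : 0 < η) : ∃ Y : ℝ, ∀ y, Y ≤ y → ∀ δ, Del W δ →
      SQ ψ y δ 1 ≤ (1 + η) * (kap W δ * (Real.pi * y * ∫ x, ψ x)) := by
  obtain ⟨C, hC⟩ := lattice_per hψ
  obtain ⟨C', hC'⟩ := lattice_area hψ
  have hI := hψ.int_pos
  have hp := Real.pi_pos
  set I := ∫ x, ψ x with hI'
  set K := |C'| + (W : ℝ) ^ 2 * (|C| * (W + (W : ℝ) ^ 2)) with hK
  refine ⟨max 1 ((K / (η * (Real.pi * I))) ^ 2), fun y hy δ hδ => ?_⟩
  have y1 : 1 ≤ y := (le_max_left _ _).trans hy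
  have y2 : 1 ≤ √y := Real.one_le_sqrt.2 y1
  have y3 : K / (η * (Real.pi * I)) ≤ √y := Real.le_sqrt_of_sq_le ((le_max_right _ _).trans hy)
  have y4 : K * √y ≤ η * (Real.pi * y * I) := by
    rw [div_le_iff₀ (by positivity)] at y3
    calc K * √y ≤ √y * (η * (Real.pi * I)) * √y := by gcongr
      _ = η * (Real.pi * (√y * √y) * I) := by ring
      _ = _ := by rw [Real.mul_self_sqrt (by linarith)]
  have hW' : (0 : ℝ) < (W : ℝ) ^ 2 := by positivity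
  have k1 : ∀ μ, δ (nrm μ) ≤ (W : ℝ) ^ 2 * kap W δ := fun μ => by
    have := kap_ge hW hδ μ
    rwa [div_le_iff₀' hW'] at this
  have k0 : 0 ≤ kap W δ := le_trans (div_nonneg (hδ.nonneg _) hW'.le) (kap_ge hW hδ 0)
  rcases k0.eq_or_lt with k0 | k0
  · have : ∀ μ, δ (nrm μ) = 0 := fun μ => le_antisymm (by simpa [← k0] using k1 μ) (hδ.nonneg _)
    simp [SQ, this, ← k0]
  have hm : 0 < (W : ℝ) ^ 2 * kap W δ := by positivity
  have a1 := hC y y1 W hW (fun t u => δ (nrm ⟨t, u⟩) / ((W : ℝ) ^ 2 * kap W δ))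
    (fun t u => by
      rw [abs_of_nonneg (div_nonneg (hδ.nonneg _) hm.le), div_le_one hm]
      exact k1 _)
    (fun t t' u u' h1 h2 => by
      rw [hδ.per (nrm ⟨t, u⟩) (nrm ⟨t', u'⟩)]
      rw [← Int.natCast_modEq_iff, lower_nrm, lower_nrm]
      exact (h1.pow 2).add (h2.pow 2))
  have a2 : (∑ v ∈ range W ×ˢ range W,
      δ (nrm ⟨(v.1 : ℤ), (v.2 : ℤ)⟩) / ((W : ℝ) ^ 2 * kap W δ)) / (W : ℝ) ^ 2 = 1 / (W : ℝ) ^ 2 := by
    have : ∀ v : ℕ × ℕ, nrm ⟨(v.1 : ℤ), (v.2 : ℤ)⟩ = v.1 ^ 2 + v.2 ^ 2 := fun v => by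
      have := lower_nrm v.1 v.2
      exact_mod_cast this
    simp only [this]
    rw [← sum_div]
    congr 1
    rw [div_eq_one_iff_eq hm.ne', kap]
    field_simp
  have a3 : ∑' μ : GaussianInt, δ (nrm ⟨μ.re, μ.im⟩) / ((W : ℝ) ^ 2 * kap W δ) * ψ (nrm μ / y) =
      SQ ψ y δ 1 / ((W : ℝ) ^ 2 * kap W δ) := by
    rw [SQ, ← tsum_div_const]
    exact tsum_congr fun μ => by simp only [Pi.one_apply]; ring
  beta_reduce at a1
  rw [a2, a3] at a1
  have a4 := (abs_le.1 a1).2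
  have a5 := (abs_le.1 (hC' y y1)).2
  have a6 : C * (W * √y + (W : ℝ) ^ 2) ≤ |C| * (W + (W : ℝ) ^ 2) * √y := by
    calc _ ≤ |C| * (W * √y + (W : ℝ) ^ 2) := by gcongr; exact le_abs_self C
      _ ≤ |C| * (W * √y + (W : ℝ) ^ 2 * √y) := by gcongr; exact le_mul_of_one_le_right hW'.le y2
      _ = _ := by ring
  have a7 : C' * √y ≤ |C'| * √y := by gcongr; exact le_abs_self C'
  rw [sub_le_iff_le_add, div_le_iff₀ hm] at a4
  calc SQ ψ y δ 1 ≤ _ := a4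
    _ ≤ (|C| * (W + (W : ℝ) ^ 2) * √y + 1 / (W : ℝ) ^ 2 * (Real.pi * y * I + |C'| * √y)) *
        ((W : ℝ) ^ 2 * kap W δ) := by
        gcongr
        linarith
    _ = kap W δ * (Real.pi * y * I + K * √y) := by
        rw [hK]
        field_simp
        ring
    _ ≤ kap W δ * (Real.pi * y * I + η * (Real.pi * y * I)) := by gcongr
    _ = _ := by ring

theorem lower_split {c₀ C₀ : ℝ} {ψ : ℝ → ℝ} (hψ : Wt c₀ C₀ ψ) {W : ℕ} {y : ℝ} (hy : 0 < y)
    {δ : ℕ → ℝ} (hδ : Del W δ) {Θ : ℕ → ℝ} (hΘ : ∀ n, 0 ≤ Θ n) (A : Finset ℕ) (hA : A ⊆ range W) :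
    ∑ a ∈ A, δ a * ∑' μ : GaussianInt, ind (nrm μ ≡ a [MOD W]) * ψ (nrm μ / y) * Θ (nrm μ) ≤
      SQ ψ y δ Θ := by
  have h0 : ∀ μ ∉ (finite_nrm (C₀ * y)).toFinset, ψ (nrm μ / y) = 0 := fun μ hμ => by
    by_contra h
    have := (hψ.supp _ h).2
    rw [div_le_iff₀ hy] at this
    exact hμ (by simpa using this)
  have h1 : ∀ g : ℕ → ℝ, ∑' μ : GaussianInt, g (nrm μ) * ψ (nrm μ / y) * Θ (nrm μ) =
      ∑ μ ∈ (finite_nrm (C₀ * y)).toFinset, g (nrm μ) * ψ (nrm μ / y) * Θ (nrm μ) := fun g =>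
    tsum_eq_sum fun μ hμ => by rw [h0 μ hμ, mul_zero, zero_mul]
  rw [SQ, h1 δ]
  simp only [fun a => h1 fun n => ind (n ≡ a [MOD W]), mul_sum]
  rw [sum_comm]
  refine sum_le_sum fun μ _ => ?_
  have h2 : ∑ a ∈ A, δ a * ind (nrm μ ≡ a [MOD W]) ≤ δ (nrm μ) := by
    have : ∀ a ∈ A, δ a * ind (nrm μ ≡ a [MOD W]) = if nrm μ % W = a then δ (nrm μ) else 0 :=
      fun a ha => by
        have ha' := Nat.mod_eq_of_lt (mem_range.1 (hA ha))
        unfold ind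
        by_cases h : nrm μ ≡ a [MOD W]
        · rw [if_pos h, if_pos (Eq.trans h ha'), mul_one, hδ.per _ _ h]
        · rw [if_neg h, if_neg fun h' => h (h'.trans ha'.symm), mul_zero]
    rw [sum_congr rfl this, sum_ite_eq]
    split_ifs
    exacts [le_rfl, hδ.nonneg _]
  calc _ = (∑ a ∈ A, δ a * ind (nrm μ ≡ a [MOD W])) * (ψ (nrm μ / y) * Θ (nrm μ)) := by
        rw [sum_mul]
        exact sum_congr rfl fun a _ => by ring
    _ ≤ δ (nrm μ) * (ψ (nrm μ / y) * Θ (nrm μ)) :=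
        mul_le_mul_of_nonneg_right h2 (mul_nonneg (hψ.nonneg _) (hΘ _))
    _ = _ := by ring

theorem lower_cells : ∃ s : Finset (ℕ × ℕ),
    cells = {c ∈ s | 1 ≤ c.1 ∧ c.1 < c.2 ∧ c.1 + 1 + 2 * (c.2 + 1) ≤ 582} := ⟨_, rfl⟩

attribute [local irreducible] cells

theorem lower_mem {c : ℕ × ℕ} (hc : c ∈ cells) :
    1 ≤ c.1 ∧ c.1 < c.2 ∧ c.1 + 1 + 2 * (c.2 + 1) ≤ 582 := by
  obtain ⟨s, hs⟩ := lower_cells
  rw [hs, mem_filter] at hc
  exact hc.2

theorem lower_wc {c : ℕ × ℕ} (hc : c ∈ cells) : 0 ≤ wc c := by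
  obtain ⟨-, -, h⟩ := lower_mem hc
  have : (c.1 : ℝ) + 1 + 2 * (c.2 + 1) ≤ 582 := by exact_mod_cast h
  have h2 : (0 : ℝ) ≤ c.2 := by positivity
  exact div_nonneg (by positivity) (by linarith)

theorem lower {c₀ C₀ : ℝ} {ψ : ℝ → ℝ} (hψ : Wt c₀ C₀ ψ) : ∃ (D : ℕ) (η₁ : ℝ), 0 < η₁ ∧
    ∀ W : ℕ, 0 < W → 4 ∣ W → (∀ p : ℕ, p.Prime → p ≤ D → p ∣ W) →
    ∀ᶠ R : ℝ in atTop, ∀ P, Good W R η₁ P → ∀ y : ℝ, R ^ (809 / 100 : ℝ) ≤ y →
      y ≤ R ^ (81 / 10 : ℝ) → ∀ δ, Del W δ →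
        0.256 * (Q0 W R * SQ ψ y δ 1) ≤ SQ ψ y δ fun n => ind (E3 R n) * Qf P R n := by
  obtain ⟨η, hη⟩ : ∃ η : ℝ, η = 1 / 10 ^ 10 := ⟨_, rfl⟩
  have η0 : 0 < η := by rw [hη]; norm_num
  have η1 : η ≤ 1 / 6 := by rw [hη]; norm_num
  obtain ⟨D, η₁, h₁, hD⟩ := la_eval η η0
  refine ⟨D, η₁, h₁, fun W hW h4 hp => ?_⟩
  obtain ⟨Y, hY⟩ := lower_one hψ hW η0
  filter_upwards [hD W hW hp, e3sum hψ hW h4 η η0, eventually_gt_atTop 1, eventually_ge_atTop Y]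
    with R hla he3 R1 RY P hP y y1 y2 δ hδ
  obtain ⟨hHa, -, hLa⟩ := hla P hP
  have lR : 0 < Real.log R := Real.log_pos R1
  have hd := dW_pos hW
  have hpi := Real.pi_pos
  have hI := hψ.int_pos
  have hH : 0 < Hstar W R := by unfold Hstar; positivity
  have y3 : R ≤ y := le_trans (Real.self_le_rpow_of_one_le R1.le (by norm_num)) y1
  have y0 : 0 < y := by linarith
  have hφ : (0 : ℝ) < W.totient := by exact_mod_cast Nat.totient_pos.2 hW
  set H := Hstar W R with hH'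
  set A := ((1 / 6 - η) * H) ^ 3 * H ^ 2 with hA
  have A0 : 0 ≤ A := mul_nonneg (pow_nonneg (mul_nonneg (by linarith) hH.le) 3) (by positivity)
  have Q0' : ∀ n, 0 ≤ Qf P R n := fun n => sum_nonneg fun α _ => mul_nonneg
    (prod_nonneg fun j _ => by nlinarith [(abs_le.1 (hHa (α j))).1]) (sq_nonneg _)
  have a1 : ∀ a ∈ (range W).filter fun a => a.Coprime W ∧ a % 4 = 1,
      (1 - η) * (8 * y * (∫ x, ψ x) / W.totient) * (72 / Real.log R) *
        (A * (1660 / 72 ^ 2 - 10000 * η * 100)) ≤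
      ∑' μ : GaussianInt, ind (nrm μ ≡ a [MOD W]) * ψ (nrm μ / y) *
        (ind (E3 R (nrm μ)) * Qf P R (nrm μ)) := fun a ha => by
    obtain ⟨-, ha1, ha2⟩ := mem_filter.1 ha
    refine le_trans ?_ (he3 y y1 y2 a ha1 ha2 (Qf P R)
      (fun c => max 0 (A * ((Vsq c : ℝ) / 72 ^ 2 - 10000 * η))) Q0' (fun c => le_max_left _ _)
      fun c hc p₁ p₂ p₃ q1 q2 q3 m1 m2 _ l1 u1 l2 _ _ l3 => max_le (Q0' _) ?_)
    · refine mul_le_mul_of_nonneg_left ?_ (mul_nonneg (mul_nonneg (by linarith) (by positivity))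
        (by positivity))
      refine le_trans ?_ (sum_le_sum fun c hc =>
        mul_le_mul_of_nonneg_right (le_max_right _ _) (lower_wc hc))
      have : ∀ s : Finset (ℕ × ℕ), ∑ c ∈ s, A * ((Vsq c : ℝ) / 72 ^ 2 - 10000 * η) * wc c =
          A * ((∑ c ∈ s, (Vsq c : ℝ) * wc c) / 72 ^ 2 - 10000 * η * ∑ c ∈ s, wc c) := fun s => by
        rw [sum_div, mul_sum, ← sum_sub_distrib, mul_sum]
        exact sum_congr rfl fun c _ => by ring
      rw [this]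
      have n1 := numerics
      have n2 := mul_le_mul_of_nonneg_left numerics_up η0.le
      exact mul_le_mul_of_nonneg_left (by linarith) A0
    · obtain ⟨c1, c2, -⟩ := lower_mem hc
      have c1' : (1 : ℝ) ≤ c.1 := by exact_mod_cast c1
      have c2' : (c.1 : ℝ) + 1 ≤ c.2 := by exact_mod_cast c2
      have b : ∀ {s : ℝ} {p : ℕ}, R ^ s < p → s ≤ Real.log p / Real.log R := fun h => by
        rw [le_div_iff₀ lR, ← Real.log_rpow (by linarith)]
        exact Real.log_le_log (by positivity) h.le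
      refine lower_Qf hH.le η0.le η1 hHa c (b l1) (b l2) (hLa p₁ p₂ p₃ q1 q2 q3 m1 m2 ?_ ?_ l3)
      · exact (Real.rpow_le_rpow_of_exponent_le R1.le (by linarith)).trans_lt l1
      · have := (u1.trans (Real.rpow_le_rpow_of_exponent_le R1.le (by linarith))).trans_lt l2
        exact_mod_cast this
  have a2 := lower_split hψ y0 hδ (Θ := fun n => ind (E3 R n) * Qf P R n)
    (fun n => mul_nonneg (by unfold ind; split_ifs <;> norm_num) (Q0' n)) _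
    (filter_subset (fun a => a.Coprime W ∧ a % 4 = 1) _)
  refine le_trans ?_ ((sum_le_sum fun a ha =>
    mul_le_mul_of_nonneg_left (a1 a ha) (hδ.nonneg a)).trans a2)
  rw [← sum_mul]
  have a3 := hY y (RY.trans y3) δ hδ
  have a4 := kap_eq hW h4 hδ
  set T := ∑ a ∈ range W with a.Coprime W ∧ a % 4 = 1, δ a with hT
  have T0 : 0 ≤ T := sum_nonneg fun a _ => hδ.nonneg a
  have a5 : T * ((1 - η) * (8 * y * (∫ x, ψ x) / W.totient) * (72 / Real.log R) *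
      (A * (1660 / 72 ^ 2 - 10000 * η * 100))) =
      (1 - η) * 72 * (1 / 6 - η) ^ 3 * (1660 / 72 ^ 2 - 10000 * η * 100) *
        (H ^ 4 * (kap W δ * (Real.pi * y * ∫ x, ψ x))) := by
    rw [a4, hA, hH', Hstar]
    field_simp
    ring
  have a6 : 0 ≤ H ^ 4 * (kap W δ * (Real.pi * y * ∫ x, ψ x)) := by
    rw [a4]
    positivity
  rw [a5]
  calc 0.256 * (Q0 W R * SQ ψ y δ 1)
      ≤ 0.256 * (Q0 W R * ((1 + η) * (kap W δ * (Real.pi * y * ∫ x, ψ x)))) := by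
        gcongr
        unfold Q0
        positivity
    _ = 0.256 * 537 / 6 ^ 4 * (1 + η) * (H ^ 4 * (kap W δ * (Real.pi * y * ∫ x, ψ x))) := by
        rw [Q0, ← hH']
        ring
    _ ≤ _ := by
        refine mul_le_mul_of_nonneg_right ?_ a6
        rw [hη]
        norm_num

end Pool.Agent.P.MP_a1177c_nt.EK
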