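import Pool.Agent.P.MP_a1177c_nt.EK.Defs

set_option autoImplicit false

namespace Pool.Agent.P.MP_a1177c_nt.EK

open Finset Filter
open scoped Classical

theorem moment_pull {I J : Type} [Fintype J] {B : I → I → ℝ} (h : Psd B) (e : J → I)
    (c : J → ℝ) : 0 ≤ ∑ a, ∑ b, c a * c b * B (e a) (e b) := by
  have key : ∀ F : I → ℝ, ∑ i ∈ univ.image e, (∑ a with e a = i, c a) * F i =
      ∑ a, c a * F (e a) := by
    intro F
    rw [← Finset.sum_fiberwise_of_maps_to (s := univ) (t := univ.image e) (g := e)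
      (fun a _ => mem_image_of_mem e (mem_univ a))]
    refine Finset.sum_congr rfl fun i _ => ?_
    rw [Finset.sum_mul]
    refine Finset.sum_congr rfl fun a ha => ?_
    rw [(mem_filter.1 ha).2]
  have h1 := h.2 (univ.image e) fun i => ∑ a with e a = i, c a
  have h2 : ∀ i, ∑ j ∈ univ.image e, (∑ a with e a = i, c a) * (∑ a with e a = j, c a) * B i j =
      (∑ a with e a = i, c a) * ∑ b, c b * B i (e b) := by
    intro i
    rw [← key fun j => B i j, Finset.mul_sum]
    exact Finset.sum_congr rfl fun j _ => by ring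
  simp only [h2] at h1
  rw [key fun i => ∑ b, c b * B i (e b)] at h1
  refine h1.trans_eq (Finset.sum_congr rfl fun a _ => ?_)
  rw [Finset.mul_sum]
  exact Finset.sum_congr rfl fun b _ => by ring

theorem moment_three {I : Type} {B : I → I → ℝ} (h : Psd B) (i j k : I) (a b c : ℝ) :
    0 ≤ a ^ 2 * B i i + b ^ 2 * B j j + c ^ 2 * B k k + 2 * a * b * B i j + 2 * a * c * B i k +
      2 * b * c * B j k := by
  have h1 := moment_pull h ![i, j, k] ![a, b, c]
  simp only [Fin.sum_univ_three, Matrix.cons_val_zero, Matrix.cons_val_one, Matrix.cons_val_two,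
    Matrix.head_cons, Matrix.tail_cons] at h1
  rw [h.1 j i, h.1 k i, h.1 k j] at h1
  linarith

theorem moment_diag {I : Type} {B : I → I → ℝ} (h : Psd B) (i : I) : 0 ≤ B i i := by
  simpa using moment_three h i i i 1 0 0

theorem moment_cs3 {I : Type} {B : I → I → ℝ} (h : Psd B) (i j k : I) :
    (B i k + B j k) ^ 2 ≤ (B i i + 2 * B i j + B j j) * B k k := by
  have h1 : ∀ x : ℝ, 0 ≤ B k k * (x * x) + (2 * (B i k + B j k)) * x +
      (B i i + 2 * B i j + B j j) := fun x => by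
    have := moment_three h i j k 1 1 x
    linarith
  have h2 := discrim_le_zero h1
  rw [discrim] at h2
  linarith

theorem moment_cs {I : Type} {B : I → I → ℝ} (h : Psd B) (i k : I) :
    (B i k) ^ 2 ≤ B i i * B k k := by
  have := moment_cs3 h i i k
  linarith

theorem moment_double {D : ℕ → ℝ} {θ K : ℝ} (hθ : 0 ≤ θ) (h0 : 0 ≤ D 0)
    (h : ∀ n, D n ^ 2 ≤ (D (2 * n) + D 0) / 2 * D 0) (hg : ∀ n, D n ≤ K * Real.exp (θ * n))
    (n : ℕ) : D n ≤ Real.exp (θ * n) * D 0 := by
  by_contra hc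
  have hc' : Real.exp (θ * n) * D 0 < D n := not_le.1 hc
  set E := Real.exp (θ * n) with hE
  have hE1 : 1 ≤ E := Real.one_le_exp (by positivity)
  rcases h0.eq_or_lt with h1 | h1
  · have := h n
    rw [← h1] at this hc'
    nlinarith
  set ρ := D n / D 0 with hρ
  have hρE : E < ρ := by rwa [hρ, lt_div_iff₀ h1]
  have hρ1 : 1 ≤ ρ := by linarith
  have key : ∀ k : ℕ, ρ ^ 2 ^ k * D 0 ≤ D (2 ^ k * n) := by
    intro k
    induction k with
    | zero => simp [hρ, div_mul_cancel₀ _ h1.ne']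
    | succ k ih =>
      have h2 := h (2 ^ k * n)
      have h3 : 1 ≤ ρ ^ 2 ^ k := one_le_pow₀ hρ1
      have h4 : (ρ ^ 2 ^ k * D 0) ^ 2 ≤ D (2 ^ k * n) ^ 2 :=
        pow_le_pow_left₀ (by positivity) ih 2
      have h5 : ρ ^ 2 ^ (k + 1) = (ρ ^ 2 ^ k) ^ 2 := by rw [pow_succ, pow_mul]
      have h6 : 2 ^ (k + 1) * n = 2 * (2 ^ k * n) := by ring
      rw [h5, h6]
      have h7 : (ρ ^ 2 ^ k) ^ 2 * D 0 ≤ (D (2 * (2 ^ k * n)) + D 0) / 2 := by
        refine le_of_mul_le_mul_right ?_ h1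
        nlinarith
      have h8 : 1 ≤ (ρ ^ 2 ^ k) ^ 2 := one_le_pow₀ h3
      nlinarith
  have hq : 1 < ρ / E := by rwa [one_lt_div (by linarith)]
  obtain ⟨k, hk⟩ := ((tendsto_pow_atTop_atTop_of_one_lt hq).eventually_gt_atTop (K / D 0)).exists
  have h2 : (ρ / E) ^ k ≤ (ρ / E) ^ 2 ^ k := pow_le_pow_right₀ hq.le (Nat.lt_two_pow_self).le
  have h3 := (key k).trans (hg _)
  have h4 : Real.exp (θ * ((2 ^ k * n : ℕ) : ℝ)) = E ^ 2 ^ k := by
    rw [hE, ← Real.exp_nat_mul]
    congr 1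
    push_cast
    ring
  rw [h4] at h3
  have h5 : 0 < E ^ 2 ^ k := by positivity
  have h6 : (ρ / E) ^ 2 ^ k ≤ K / D 0 := by
    rw [div_pow, div_le_div_iff₀ h5 h1]
    exact h3
  linarith

theorem moment_z {A B C : ℤ → ℝ} (hA : ∀ n, A (-n) = A n) (h : Psd (gram A B C)) {θ K : ℝ}
    (hθ : 0 ≤ θ) (hg : ∀ n : ℕ, |A n| ≤ K * Real.exp (θ * n)) (m j : ℕ) :
    2 * A (2 * j) + A (2 * j + 2 * m) + A (2 * j - 2 * m) ≤
      Real.exp (θ * j) ^ 2 * (2 * A 0 + 2 * A (2 * m)) := by
  have hK : 0 ≤ K := by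
    have := (abs_nonneg _).trans (hg 0)
    simpa using this
  have hg' : ∀ (z : ℤ) (N : ℕ), |z| ≤ N → A z ≤ K * Real.exp (θ * N) := by
    intro z N hz
    have h1 : A z = A (z.natAbs : ℕ) := by
      rcases Int.natAbs_eq z with h1 | h1
      · rw [← h1]
      · rw [← hA z]
        congr 1
        omega
    have h2 : (z.natAbs : ℝ) ≤ N := by
      have : z.natAbs ≤ N := by
        rw [abs_le] at hz
        omega
      exact_mod_cast this
    rw [h1]
    refine (le_abs_self _).trans ((hg _).trans ?_)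
    gcongr
  have h1 := moment_double (D := fun n : ℕ => 2 * A n + A (n + 2 * m) + A (n - 2 * m))
    (K := 4 * K * Real.exp (θ * (2 * m : ℕ))) hθ ?_ ?_ ?_ (2 * j)
  · have e : Real.exp (θ * ((2 * j : ℕ) : ℝ)) = Real.exp (θ * j) ^ 2 := by
      rw [← Real.exp_nat_mul]
      congr 1
      push_cast
      ring
    rw [e] at h1
    push_cast at h1
    rw [zero_add, zero_sub, hA] at h1
    linarith
  · have := moment_diag h (.inl m)
    simp only [gram, sub_self] at this
    push_cast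
    rw [zero_add, zero_sub, hA, two_mul (m : ℤ)]
    linarith
  · intro n
    have h2 := moment_cs3 h (.inl (n + m)) (.inl (n - m)) (.inl m)
    simp only [gram, sub_self] at h2
    push_cast
    rw [zero_add, zero_sub, hA]
    rw [show (n : ℤ) + m + m = n + 2 * m by ring, show (n : ℤ) + m - m = n by ring,
      show (n : ℤ) - m + m = n by ring, show (n : ℤ) - m - m = n - 2 * m by ring,
      show (n : ℤ) + m + (n + m) = 2 * n + 2 * m by ring,
      show (n : ℤ) + m + (n - m) = 2 * n by ring, show (n : ℤ) + m - (n - m) = 2 * m by ring,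
      show (n : ℤ) - m + (n - m) = 2 * n - 2 * m by ring, show (m : ℤ) + m = 2 * m by ring] at h2
    linarith
  · intro n
    have h2 := hg' n (n + 2 * m) (by rw [abs_le]; omega)
    have h3 := hg' (n + 2 * m) (n + 2 * m) (by rw [abs_le]; omega)
    have h4 := hg' (n - 2 * m) (n + 2 * m) (by rw [abs_le]; omega)
    have e : Real.exp (θ * ((n + 2 * m : ℕ) : ℝ)) =
        Real.exp (θ * (2 * m : ℕ)) * Real.exp (θ * n) := by
      rw [← Real.exp_add]
      congr 1
      push_cast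
      ring
    rw [e] at h2 h3 h4
    linarith

theorem moment {A B C : ℤ → ℝ} (hA : ∀ n, A (-n) = A n) (hB : ∀ n, B (-n) = B n)
    (hC : ∀ n, C (-n) = C n) (h : Psd (gram A B C)) {θ K : ℝ} (hθ : 0 ≤ θ)
    (hg : ∀ n : ℕ, |A n| ≤ K * Real.exp (θ * n)) (m j : ℕ) :
    |C (2 * m + j)| ≤ 5 * Real.exp (θ * j) * √((A (2 * m) + 3 * A 0) / 2) *
      √((B (2 * m) + 3 * B 0) / 2) := by
  have dA : ∀ n : ℤ, 0 ≤ A (2 * n) + A 0 := fun n => by
    have := moment_diag h (.inl n)
    simp only [gram, sub_self] at this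
    rw [two_mul]
    linarith
  have dB : ∀ n : ℤ, 0 ≤ B (2 * n) + B 0 := fun n => by
    have := moment_diag h (.inr n)
    simp only [gram, sub_self] at this
    rw [two_mul]
    linarith
  have hA0 : 0 ≤ A 0 := by
    have := dA 0
    rw [mul_zero] at this
    linarith
  have hB0 : 0 ≤ B 0 := by
    have := dB 0
    rw [mul_zero] at this
    linarith
  set E := Real.exp (θ * j) with hE
  have hE1 : 1 ≤ E := Real.one_le_exp (by positivity)
  have hE2 : 1 ≤ E ^ 2 := one_le_pow₀ hE1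
  set a := (A (2 * m) + 3 * A 0) / 2 with ha
  set b := (B (2 * m) + 3 * B 0) / 2 with hb
  have hAa : A 0 ≤ a := by have := dA m; linarith
  have hBb : B 0 ≤ b := by have := dB m; linarith
  have ha0 : 0 ≤ a := hA0.trans hAa
  have hb0 : 0 ≤ b := hB0.trans hBb
  have z1 := moment_z hA h hθ hg m j
  have z0 := moment_z hA h hθ hg 0 j
  rw [← hE] at z1 z0
  simp only [Nat.cast_zero, mul_zero, add_zero, sub_zero] at z0
  have x1 : (A (2 * j + 2 * m) + A 0) / 2 ≤ 4 * E ^ 2 * a := by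
    have h1 := dA j
    have h2 := dA (j - m)
    rw [show 2 * ((j : ℤ) - m) = 2 * j - 2 * m by ring] at h2
    have h3 := dA m
    nlinarith
  have x0 : (A (2 * j) + A 0) / 2 ≤ E ^ 2 * a := by nlinarith
  have c1 := moment_cs h (.inl (m + j)) (.inr m)
  have c0 := moment_cs h (.inl j) (.inr 0)
  simp only [gram, sub_self, add_zero, sub_zero] at c1 c0
  rw [show (m : ℤ) + j + m = 2 * m + j by ring, show (m : ℤ) + j - m = j by ring,
    show (m : ℤ) + j + (m + j) = 2 * j + 2 * m by ring, ← two_mul (m : ℤ)] at c1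
  rw [← two_mul (j : ℤ)] at c0
  have hs : (√a * √b) ^ 2 = a * b := by rw [mul_pow, Real.sq_sqrt ha0, Real.sq_sqrt hb0]
  have hs0 : 0 ≤ √a * √b := by positivity
  have d1 : |(C (2 * m + j) + C j) / 2| ≤ 2 * E * (√a * √b) := by
    refine abs_le_of_sq_le_sq' ?_ (by positivity) |> abs_le.2
    rw [mul_pow, hs]
    refine c1.trans ?_
    have h1 : (B (2 * m) + B 0) / 2 ≤ b := by linarith
    have h2 := dB m
    calc _ ≤ (4 * E ^ 2 * a) * b := mul_le_mul x1 h1 (by linarith) (by positivity)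
      _ = _ := by ring
  have d0 : |(C j + C j) / 2| ≤ E * (√a * √b) := by
    refine abs_le_of_sq_le_sq' ?_ (by positivity) |> abs_le.2
    rw [mul_pow, hs]
    refine c0.trans ?_
    have h1 : (B 0 + B 0) / 2 ≤ b := by linarith
    calc _ ≤ (E ^ 2 * a) * b := mul_le_mul x0 h1 (by linarith) (by positivity)
      _ = _ := by ring
  rw [abs_le] at d1 d0 ⊢
  constructor <;> nlinarith [d1.1, d1.2, d0.1, d0.2]

end Pool.Agent.P.MP_a1177c_nt.EK
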