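import Pool.Agent.P.MP_a1177c_nt.EK.Model
import Pool.Agent.P.MP_a1177c_nt.EK.Crt
import Pool.Agent.P.MP_a1177c_nt.EK.Lattice

set_option autoImplicit false

namespace Pool.Agent.P.MP_a1177c_nt.EK

open Finset Filter
open scoped Classical

noncomputable section

/-- The norm form on integer pairs. -/
def moNN (t u : ℤ) : ℕ := (t ^ 2 + u ^ 2).natAbs

/-- Average of a function of the norm over the residues modulo `M`. -/
def moAv (M : ℕ) (g : ℕ → ℝ) : ℝ :=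
  (∑ v ∈ range M ×ˢ range M, g (v.1 ^ 2 + v.2 ^ 2)) / (M : ℝ) ^ 2

/-- The total mass of the weight. -/
def moT (ψ : ℝ → ℝ) (y : ℝ) : ℝ := ∑' μ : GaussianInt, ψ (nrm μ / y)

/-- Indicator of divisibility by all elements of `S`. -/
def moDv (S : Finset ℕ) (n : ℕ) : ℝ := ind (∀ p ∈ S, p ∣ n)

end

theorem moNN_cast (t u : ℤ) : (moNN t u : ℤ) = t ^ 2 + u ^ 2 := by
  unfold moNN
  rw [Int.natCast_natAbs, abs_of_nonneg (by positivity)]

theorem moNN_nat (a b : ℕ) : moNN a b = a ^ 2 + b ^ 2 := by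
  have := moNN_cast a b
  exact_mod_cast this

theorem moNN_nrm (μ : GaussianInt) : moNN μ.re μ.im = nrm μ := by
  unfold moNN nrm
  rw [Zsqrtd.norm_def]
  congr 1
  ring

theorem moNN_mod {q : ℕ} {t t' u u' : ℤ} (h1 : t ≡ t' [ZMOD q]) (h2 : u ≡ u' [ZMOD q]) :
    moNN t u ≡ moNN t' u' [MOD q] := by
  rw [← Int.natCast_modEq_iff, moNN_cast, moNN_cast]
  exact (h1.pow 2).add (h2.pow 2)

theorem mo_ind_nonneg (p : Prop) : 0 ≤ ind p := by
  unfold ind; split_ifs <;> norm_num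

theorem mo_ind_le (p : Prop) : ind p ≤ 1 := by
  unfold ind; split_ifs <;> norm_num

theorem mo_per {c₀ C₀ : ℝ} {ψ : ℝ → ℝ} (hψ : Wt c₀ C₀ ψ) : ∃ C : ℝ, 0 ≤ C ∧ ∀ y : ℝ, 1 ≤ y →
    ∀ q M : ℕ, 0 < M → q ∣ M → ∀ g : ℕ → ℝ, (∀ n, |g n| ≤ 1) →
      (∀ n m, n ≡ m [MOD q] → g n = g m) →
      |∑' μ : GaussianInt, g (nrm μ) * ψ (nrm μ / y) - moAv M g * moT ψ y| ≤
        C * (q * √y + (q : ℝ) ^ 2) := by
  obtain ⟨C, hC⟩ := lattice_per hψ
  refine ⟨max C 0, le_max_right _ _, fun y hy q M hM hq g hg hper => ?_⟩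
  have hq0 : 0 < q := Nat.pos_of_dvd_of_pos hq hM
  have hper' : ∀ t t' u u' : ℤ, t ≡ t' [ZMOD q] → u ≡ u' [ZMOD q] →
      g (moNN t u) = g (moNN t' u') := fun t t' u u' h1 h2 => hper _ _ (moNN_mod h1 h2)
  have h := hC y hy q hq0 (fun t u => g (moNN t u)) (fun t u => hg _) hper'
  have h2 := avg_mul₂ hM hq (fun t u => g (moNN t u)) hper'
  simp only [moNN_nrm] at h
  rw [← h2] at h
  simp only [moNN_nat] at h
  refine h.trans (mul_le_mul_of_nonneg_right (le_max_left _ _) (by positivity))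

theorem mo_supp {c₀ C₀ : ℝ} {ψ : ℝ → ℝ} (hψ : Wt c₀ C₀ ψ) {y : ℝ} (hy : 0 < y) {n : ℕ}
    (h : ψ (n / y) ≠ 0) : n ≠ 0 ∧ (n : ℝ) ≤ C₀ * y := by
  obtain ⟨h1, h2⟩ := hψ.supp _ h
  refine ⟨?_, by rwa [div_le_iff₀ hy] at h2⟩
  rintro rfl
  have := hψ.pos
  simp at h1
  linarith

theorem mo_SQ_eq {c₀ C₀ : ℝ} {ψ : ℝ → ℝ} (hψ : Wt c₀ C₀ ψ) {y : ℝ} (hy : 0 < y)
    (δ Θ : ℕ → ℝ) : SQ ψ y δ Θ =
      ∑ μ ∈ (finite_nrm (C₀ * y)).toFinset, δ (nrm μ) * ψ (nrm μ / y) * Θ (nrm μ) := by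
  unfold SQ
  refine tsum_eq_sum fun μ hμ => ?_
  by_contra hne
  have : ψ (nrm μ / y) ≠ 0 := fun h => hne (by rw [h]; ring)
  exact hμ (by simpa using (mo_supp hψ hy this).2)

theorem mo_T_nonneg {c₀ C₀ : ℝ} {ψ : ℝ → ℝ} (hψ : Wt c₀ C₀ ψ) (y : ℝ) : 0 ≤ moT ψ y :=
  tsum_nonneg fun _ => hψ.nonneg _

theorem mo_SQ_sum {c₀ C₀ : ℝ} {ψ : ℝ → ℝ} (hψ : Wt c₀ C₀ ψ) {y : ℝ} (hy : 0 < y)
    (δ : ℕ → ℝ) {I : Type} (s : Finset I) (σ : I → ℝ) (Θ : I → ℕ → ℝ) :
    SQ ψ y δ (fun n => ∑ i ∈ s, σ i * Θ i n) = ∑ i ∈ s, σ i * SQ ψ y δ (Θ i) := by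
  simp only [mo_SQ_eq hψ hy, mul_sum]
  rw [sum_comm]
  exact sum_congr rfl fun i _ => sum_congr rfl fun μ _ => by ring

theorem mo_Av_sum (M : ℕ) (δ : ℕ → ℝ) {I : Type} (s : Finset I) (σ : I → ℝ) (Θ : I → ℕ → ℝ) :
    moAv M (fun n => δ n * ∑ i ∈ s, σ i * Θ i n) =
      ∑ i ∈ s, σ i * moAv M (fun n => δ n * Θ i n) := by
  unfold moAv
  simp only [mul_sum, ← mul_div_assoc, ← sum_div]
  rw [sum_comm]
  congr 1
  exact sum_congr rfl fun i _ => sum_congr rfl fun μ _ => by ring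

theorem mo_Av_mono (M : ℕ) {g g' : ℕ → ℝ} (h : ∀ n, g n ≤ g' n) : moAv M g ≤ moAv M g' :=
  div_le_div_of_nonneg_right (sum_le_sum fun _ _ => h _) (by positivity)

theorem mo_Av_nonneg (M : ℕ) {g : ℕ → ℝ} (h : ∀ n, 0 ≤ g n) : 0 ≤ moAv M g :=
  div_nonneg (sum_nonneg fun _ _ => h _) (by positivity)

theorem mo_pr_cast (S : Finset ℕ) : ((∏ p ∈ S, p : ℕ) : ℝ) = pr S := by
  unfold pr; push_cast; rfl

theorem mo_pr_nonneg (S : Finset ℕ) : 0 ≤ pr S := prod_nonneg fun _ _ => Nat.cast_nonneg _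

/-- Lattice sums of a linear combination of divisibility indicators. -/
theorem mo_lin {c₀ C₀ : ℝ} {ψ : ℝ → ℝ} (hψ : Wt c₀ C₀ ψ) : ∃ C : ℝ, 0 ≤ C ∧ ∀ y : ℝ, 1 ≤ y →
    ∀ W : ℕ, 0 < W → ∀ P : Finset ℕ, (∀ p ∈ P, 0 < p) → ∀ δ, Del W δ →
    ∀ (I : Type) (s : Finset I) (σ : I → ℝ) (S : I → Finset ℕ) (Z : ℝ), 0 ≤ Z →
      (∀ i ∈ s, S i ⊆ P) → (∀ i ∈ s, σ i ≠ 0 → pr (S i) ≤ Z) →
      |SQ ψ y δ (fun n => ∑ i ∈ s, σ i * moDv (S i) n) -
          moAv (W * ∏ p ∈ P, p) (fun n => δ n * ∑ i ∈ s, σ i * moDv (S i) n) * moT ψ y| ≤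
        (∑ i ∈ s, |σ i|) * (C * (W * Z * √y + (W * Z) ^ 2)) := by
  obtain ⟨C, hC0, hC⟩ := mo_per hψ
  refine ⟨C, hC0, fun y hy W hW P hP δ hδ I s σ S Z hZ hS hσ => ?_⟩
  have hy0 : 0 < y := by linarith
  rw [mo_SQ_sum hψ hy0, mo_Av_sum, sum_mul, ← sum_sub_distrib, sum_mul]
  refine (abs_sum_le_sum_abs _ _).trans (sum_le_sum fun i hi => ?_)
  by_cases h0 : σ i = 0
  · simp [h0]
  rw [mul_assoc, ← mul_sub, abs_mul]
  refine mul_le_mul_of_nonneg_left ?_ (abs_nonneg _)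
  have hM : 0 < W * ∏ p ∈ P, p := Nat.mul_pos hW (prod_pos hP)
  have hq : W * ∏ p ∈ S i, p ∣ W * ∏ p ∈ P, p :=
    Nat.mul_dvd_mul_left _ (prod_dvd_prod_of_subset _ _ _ (hS i hi))
  have h := hC y hy _ _ hM hq (fun n => δ n * moDv (S i) n) (fun n => by
    unfold moDv
    rw [abs_of_nonneg (mul_nonneg (hδ.nonneg n) (mo_ind_nonneg _))]
    exact mul_le_one₀ (hδ.le n) (mo_ind_nonneg _) (mo_ind_le _)) (fun n m hnm => by
    rw [hδ.per n m (hnm.of_mul_right _)]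
    congr 1
    unfold moDv
    congr 1
    refine propext (forall₂_congr fun p hp => ?_)
    have : n ≡ m [MOD p] :=
      hnm.of_dvd (Dvd.dvd.mul_left (dvd_prod_of_mem (fun p => p) hp) _)
    exact (Nat.ModEq.dvd_iff this dvd_rfl))
  have e : SQ ψ y δ (moDv (S i)) =
      ∑' μ : GaussianInt, δ (nrm μ) * moDv (S i) (nrm μ) * ψ (nrm μ / y) := by
    unfold SQ
    exact tsum_congr fun μ => by ring
  rw [e]
  refine h.trans (mul_le_mul_of_nonneg_left ?_ hC0)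
  have hle : ((W * ∏ p ∈ S i, p : ℕ) : ℝ) ≤ W * Z := by
    rw [Nat.cast_mul, mo_pr_cast]
    exact mul_le_mul_of_nonneg_left (hσ i hi h0) (Nat.cast_nonneg _)
  have h1 : (0 : ℝ) ≤ ((W * ∏ p ∈ S i, p : ℕ) : ℝ) := Nat.cast_nonneg _
  gcongr

theorem mo_sum_ind {α : Type} (s : Finset α) (p : α → Prop) [DecidablePred p] :
    ∑ x ∈ s, ind (p x) = (#(s.filter p) : ℝ) := by
  unfold ind
  rw [← sum_boole]
  exact sum_congr rfl fun x _ => by congr

theorem mo_sum_ind_eq {α : Type} [Fintype α] (a : α) : ∑ x, ind (x = a) = 1 := by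
  unfold ind
  rw [sum_eq_single_of_mem a (mem_univ _) (fun b _ hb => if_neg hb)]
  exact if_pos rfl

theorem mo_count {p : ℕ} (hp : p.Prime) (h4 : p % 4 = 1) :
    ∑ v ∈ range p ×ˢ range p, ind (p ∣ v.1 ^ 2 + v.2 ^ 2) = 2 * (p : ℝ) - 1 := by
  have := Fact.mk hp
  obtain ⟨i, hi⟩ := (ZMod.exists_sq_eq_neg_one_iff (p := p)).2 (by omega)
  have h1 : ∑ v ∈ range p ×ˢ range p, ind (p ∣ v.1 ^ 2 + v.2 ^ 2) =
      ∑ w : ZMod p × ZMod p, ind (w.1 ^ 2 + w.2 ^ 2 = 0) := by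
    refine sum_nbij' (fun v => ((v.1 : ZMod p), (v.2 : ZMod p))) (fun w => (w.1.val, w.2.val))
      (fun _ _ => mem_univ _) (fun w _ => ?_) (fun v hv => ?_) (fun w _ => ?_) (fun v _ => ?_)
    · simp [ZMod.val_lt]
    · simp only [mem_product, mem_range] at hv
      simp [ZMod.val_natCast, Nat.mod_eq_of_lt hv.1, Nat.mod_eq_of_lt hv.2]
    · simp
    · congr 1
      rw [← ZMod.natCast_eq_zero_iff]
      push_cast
      rfl
  have h2 : (2 : ZMod p) ≠ 0 := by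
    intro h
    have : ((2 : ℕ) : ZMod p) = 0 := by exact_mod_cast h
    rw [ZMod.natCast_eq_zero_iff] at this
    have := Nat.le_of_dvd two_pos this
    have := hp.two_le
    omega
  have hi0 : i ≠ 0 := by
    rintro rfl
    simp at hi
  have h3 : ∀ w : ZMod p × ZMod p, ind (w.1 ^ 2 + w.2 ^ 2 = 0) =
      ind (w.1 = i * w.2) + ind (w.1 = -(i * w.2)) - ind (w = 0) := by
    rintro ⟨a, b⟩
    have e : a ^ 2 + b ^ 2 = (a - i * b) * (a + i * b) := by linear_combination (-b ^ 2) * hi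
    simp only [e, mul_eq_zero, sub_eq_zero, add_eq_zero_iff_eq_neg, Prod.mk_eq_zero]
    unfold ind
    by_cases ha : a = i * b <;> by_cases hb : a = -(i * b)
    · have hb0 : b = 0 := by
        have : 2 * i * b = 0 := by linear_combination hb - ha
        simpa [h2, hi0] using this
      have ha0 : a = 0 := by rw [ha, hb0, mul_zero]
      rw [if_pos (Or.inl ha), if_pos ha, if_pos hb, if_pos ⟨ha0, hb0⟩]; norm_num
    · have : ¬ (a = 0 ∧ b = 0) := fun h => hb (by rw [h.1, h.2]; simp)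
      rw [if_pos (Or.inl ha), if_pos ha, if_neg hb, if_neg this]; norm_num
    · have : ¬ (a = 0 ∧ b = 0) := fun h => ha (by rw [h.1, h.2]; simp)
      rw [if_pos (Or.inr hb), if_neg ha, if_pos hb, if_neg this]; norm_num
    · have : ¬ (a = 0 ∧ b = 0) := fun h => ha (by rw [h.1, h.2]; simp)
      rw [if_neg (not_or.2 ⟨ha, hb⟩), if_neg ha, if_neg hb, if_neg this]; norm_num
  rw [h1, sum_congr rfl fun w _ => h3 w, sum_sub_distrib, sum_add_distrib,
    Fintype.sum_prod_type_right, Fintype.sum_prod_type_right]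
  simp only [mo_sum_ind_eq, sum_const, card_univ, ZMod.card, nsmul_eq_mul]
  ring

theorem mo_Av_dvd {p M : ℕ} (hp : p.Prime) (h4 : p % 4 = 1) (hM : 0 < M) (hpM : p ∣ M) :
    moAv M (fun n => ind (p ∣ n)) = (2 * (p : ℝ) - 1) / (p : ℝ) ^ 2 := by
  have h2 := avg_mul₂ hM hpM (fun t u => ind (p ∣ moNN t u)) (fun t t' u u' h1 h2 => by
    congr 1
    exact propext (Nat.ModEq.dvd_iff (moNN_mod h1 h2) dvd_rfl))
  simp only [moNN_nat] at h2
  unfold moAv
  rw [h2, mo_count hp h4]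

theorem mo_sum_unit {inst : Fintype (Unit → Prop)} (f : (Unit → Prop) → ℝ) :
    ∑ ω, f ω = f (fun _ => True) + f (fun _ => False) := by
  have : (univ : Finset (Unit → Prop)) = {fun _ => True, fun _ => False} := by
    ext ω
    simp only [mem_univ, mem_insert, mem_singleton, true_iff]
    by_cases h : ω ()
    · left; funext j; simpa using h
    · right; funext j; simpa using h
  rw [this, sum_pair]
  intro h
  have := congrFun h ()
  simp at this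

theorem mo_hind {W : ℕ} (hW : 0 < W) {P : Finset ℕ} (hP : ∀ p ∈ P, p.Prime ∧ ¬ p ∣ W)
    {δ : ℕ → ℝ} (hδ : Del W δ) (f : ℕ → Prop → ℝ) :
    moAv (W * ∏ p ∈ P, p) (fun n => δ n * ∏ p ∈ P, f p (p ∣ n)) =
      moAv (W * ∏ p ∈ P, p) δ * ∏ p ∈ P, moAv (W * ∏ p ∈ P, p) (fun n => f p (p ∣ n)) := by
  have hWP : W ∉ P := fun h => (hP W h).2 dvd_rfl
  have hM : 0 < W * ∏ p ∈ P, p := Nat.mul_pos hW (prod_pos fun p hp => (hP p hp).1.pos)
  have h := crt₂ (insert W P) (fun i => i) (fun i hi j hj hij => by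
      rcases mem_insert.1 hi with hi | hi <;> rcases mem_insert.1 hj with hj | hj
      · exact absurd (hi.trans hj.symm) hij
      · rw [hi]; exact ((Nat.Prime.coprime_iff_not_dvd (hP j hj).1).2 (hP j hj).2).symm
      · rw [hj]; exact (Nat.Prime.coprime_iff_not_dvd (hP i hi).1).2 (hP i hi).2
      · exact (Nat.coprime_primes (hP i hi).1 (hP j hj).1).2 hij)
    (fun i t u => if i = W then δ (moNN t u) else f i (i ∣ moNN t u))
    (fun i _ t t' u u' h1 h2 => by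
      by_cases hi : i = W
      · subst hi
        simp only [if_true]
        exact hδ.per _ _ (moNN_mod h1 h2)
      · simp only [if_neg hi]
        congr 1
        exact propext (Nat.ModEq.dvd_iff (moNN_mod h1 h2) dvd_rfl)) hM (fun i hi => by
      rcases mem_insert.1 hi with rfl | hi
      · exact dvd_mul_right _ _
      · exact Dvd.dvd.mul_left (dvd_prod_of_mem (fun p => p) hi) _)
  have hne : ∀ p ∈ P, p ≠ W := fun p hp h => hWP (h ▸ hp)
  simp only [prod_insert hWP, if_true, moNN_nat] at h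
  unfold moAv
  have e1 : ∀ n : ℕ, (∏ p ∈ P, if p = W then δ n else f p (p ∣ n)) = ∏ p ∈ P, f p (p ∣ n) :=
    fun n => prod_congr rfl fun p hp => if_neg (hne p hp)
  simp only [e1] at h
  rw [h]
  congr 1
  refine prod_congr rfl fun p hp => ?_
  simp only [if_neg (hne p hp)]

theorem mo_model {W : ℕ} (hW : 0 < W) {P : Finset ℕ}
    (hP : ∀ p ∈ P, p.Prime ∧ p % 4 = 1 ∧ ¬ p ∣ W) {δ : ℕ → ℝ} (hδ : Del W δ) {C : ℝ} (hC : 0 ≤ C)
    {R : ℝ} (hR : 1 ≤ R) (a b : Fin 4) :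
    |moAv (W * ∏ p ∈ P, p)
          (fun n => δ n * (La P R a n * La P R b n * ∏ p ∈ P with p ∣ n, (1 + C / p))) -
        moAv (W * ∏ p ∈ P, p) δ * (ind (a = b) * Ha P R a)| ≤
      moAv (W * ∏ p ∈ P, p) δ *
        ((∏ p ∈ P, (1 + (24 + 8 * C) / (p : ℝ) ^ 2) - 1) * Hs P R) := by
  set M := W * ∏ p ∈ P, p with hMdef
  have hM : 0 < M := Nat.mul_pos hW (prod_pos fun p hp => (hP p hp).1.pos)
  have hcard : (#(range M ×ˢ range M) : ℝ) = (M : ℝ) ^ 2 := by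
    rw [card_product, card_range]; push_cast; ring
  have h := model (J := Unit) (range M ×ˢ range M) P (fun p hp => (hP p hp).1.two_le)
    (fun p _ x => p ∣ x.1 ^ 2 + x.2 ^ 2) (fun x => δ (x.1 ^ 2 + x.2 ^ 2)) (fun x => hδ.nonneg _)
    (fun p ω => if ω () then 1 + C / p else 1) (fun f => by
      rw [hcard]
      exact mo_hind hW (fun p hp => ⟨(hP p hp).1, (hP p hp).2.2⟩) hδ (fun p z => f p fun _ => z))
    (fun p => (6 + 2 * C) / (p : ℝ) ^ 2) (fun p hp => by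
      rw [mo_sum_unit, hcard]
      have hpM : p ∣ M := Dvd.dvd.mul_left (dvd_prod_of_mem (fun p => p) hp) _
      have h1 := mo_Av_dvd (hP p hp).1 (hP p hp).2.1 hM hpM
      have hM' : (0 : ℝ) < (M : ℝ) ^ 2 := by positivity
      have e1 : (#{x ∈ range M ×ˢ range M |
          (fun _ : Unit => p ∣ x.1 ^ 2 + x.2 ^ 2) = fun _ => True} : ℝ) / (M : ℝ) ^ 2 =
          (2 * (p : ℝ) - 1) / (p : ℝ) ^ 2 := by
        rw [← h1]
        unfold moAv
        beta_reduce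
        rw [mo_sum_ind (range M ×ˢ range M) (fun x => p ∣ x.1 ^ 2 + x.2 ^ 2)]
        congr 3
        ext x
        simp [funext_iff]
      have e2 : (#{x ∈ range M ×ˢ range M |
          (fun _ : Unit => p ∣ x.1 ^ 2 + x.2 ^ 2) = fun _ => False} : ℝ) / (M : ℝ) ^ 2 =
          1 - (2 * (p : ℝ) - 1) / (p : ℝ) ^ 2 := by
        rw [← h1]
        unfold moAv
        beta_reduce
        rw [mo_sum_ind (range M ×ˢ range M) (fun x => p ∣ x.1 ^ 2 + x.2 ^ 2), eq_sub_iff_add_eq,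
          ← add_div, div_eq_one_iff_eq hM'.ne', ← hcard,
          ← Nat.cast_add, add_comm, ← card_filter_add_card_filter_not
            (s := range M ×ˢ range M) (fun x => p ∣ x.1 ^ 2 + x.2 ^ 2)]
        congr 4
        ext x
        simp [funext_iff]
      rw [e1, e2]
      have hp2 : (2 : ℝ) ≤ p := by exact_mod_cast (hP p hp).1.two_le
      have hp0 : (0 : ℝ) < p := by linarith
      unfold indLaw
      simp only [univ_unique, prod_singleton, if_true, if_false, one_mul]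
      have d1 : (2 * (p : ℝ) - 1) / (p : ℝ) ^ 2 - 2 / (p + 2) = (3 * p - 2) / (p + 2) / p ^ 2 := by
        field_simp; ring
      have d2 : (3 * (p : ℝ) - 2) / (p + 2) ≤ 3 := by
        rw [div_le_iff₀ (by linarith)]; linarith
      have d3 : 0 ≤ (3 * (p : ℝ) - 2) / (p + 2) := div_nonneg (by linarith) (by linarith)
      have d4 : (2 * (p : ℝ) - 1) / p ≤ 2 := by
        rw [div_le_iff₀ hp0]; linarith
      have d5 : 0 ≤ (2 * (p : ℝ) - 1) / p := div_nonneg (by linarith) hp0.le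
      have f1 : (1 + C / p) * ((2 * (p : ℝ) - 1) / (p : ℝ) ^ 2) - 2 / (p + 2) =
          ((3 * p - 2) / (p + 2) + C * ((2 * (p : ℝ) - 1) / p)) / p ^ 2 := by
        field_simp; ring
      have f2 : 1 - (2 * (p : ℝ) - 1) / (p : ℝ) ^ 2 - (1 - 2 / (p + 2)) =
          -((3 * p - 2) / (p + 2) / p ^ 2) := by
        rw [← d1]; ring
      rw [f1, f2, abs_neg, abs_of_nonneg (by positivity), abs_of_nonneg (by positivity), ← add_div]
      refine div_le_div_of_nonneg_right ?_ (by positivity)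
      nlinarith [mul_le_mul_of_nonneg_left d4 hC])
    R (fun _ => cell R a) (fun _ => cell R b) (fun _ S => cell_bound hR a S)
    (fun _ S => cell_bound hR b S)
  simp only [univ_unique, prod_singleton, Fintype.card_unique, pow_one, cell_orth P hR, hcard] at h
  have e3 : ∀ p : ℕ, 1 + 4 * ((6 + 2 * C) / (p : ℝ) ^ 2) = 1 + (24 + 8 * C) / (p : ℝ) ^ 2 :=
    fun p => by ring
  simp only [e3] at h
  unfold moAv La
  convert h using 4
  refine sum_congr rfl fun x _ => ?_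
  beta_reduce
  rw [prod_filter]
  have e4 : ∀ A B B' D : ℝ, B = B' → A * (D * B) = A * B' * D := fun A B B' D h => by
    rw [h]; ring
  exact e4 _ _ _ _ (prod_congr rfl fun p _ => by congr)

end Pool.Agent.P.MP_a1177c_nt.EK
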