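import Pool.Agent.P.MP_a1177c_nt.EK.Model
import Pool.Agent.P.MP_a1177c_nt.EK.Crt
import Pool.Agent.P.MP_a1177c_nt.EK.Expand
import Pool.Agent.P.MP_a1177c_nt.EK.Hasym
import Pool.Agent.P.MP_a1177c_nt.EK.Count
import Pool.Agent.P.MP_a1177c_nt.EK.MomentsAux

set_option autoImplicit false

namespace Pool.Agent.P.MP_a1177c_nt.EK

open Finset Filter
open scoped Classical

theorem mo_prod_small {c θ : ℝ} (hc : 0 ≤ c) (hθ : 0 < θ) : ∃ D : ℕ, ∀ P : Finset ℕ,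
    (∀ p ∈ P, D < p) → ∏ p ∈ P, (1 + c / (p : ℝ) ^ 2) - 1 ≤ θ := by
  have hl : 0 < Real.log (1 + θ) := Real.log_pos (by linarith)
  obtain ⟨D, hD⟩ := exists_nat_ge (2 * c / Real.log (1 + θ))
  refine ⟨D, fun P hP => ?_⟩
  have h1 : ∏ p ∈ P, (1 + c / (p : ℝ) ^ 2) ≤ Real.exp (∑ p ∈ P, c / (p : ℝ) ^ 2) :=
    Real.prod_one_add_le_exp_sum P (f := fun p : ℕ => c / (p : ℝ) ^ 2) (fun p => by positivity)
  have h2 : ∑ p ∈ P, ((p : ℝ) ^ 2)⁻¹ ≤ 2 / (D + 1) := by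
    refine le_trans (sum_le_sum_of_subset_of_nonneg (t := Ioo D (P.sup id + 1)) (fun p hp => ?_)
      (fun _ _ _ => by positivity)) (sum_Ioo_inv_sq_le D _)
    exact mem_Ioo.2 ⟨hP p hp, Nat.lt_succ_of_le (le_sup (f := id) hp)⟩
  have h3 : ∑ p ∈ P, c / (p : ℝ) ^ 2 ≤ Real.log (1 + θ) := by
    simp only [div_eq_mul_inv, ← mul_sum]
    refine (mul_le_mul_of_nonneg_left h2 hc).trans ?_
    rw [div_le_iff₀ hl] at hD
    rw [← mul_div_assoc, div_le_iff₀ (by positivity)]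
    nlinarith
  have h4 := Real.exp_le_exp.2 h3
  rw [Real.exp_log (by linarith)] at h4
  linarith

theorem mo_pow_le (k : ℝ) (hk : 0 ≤ k) (N : ℕ) (hN : 0 < N) : ∃ K : ℝ, 0 ≤ K ∧
    ∀ n : ℕ, n ≠ 0 → ∀ u : ℝ, 0 ≤ u → (n : ℝ) ≤ u ^ N → k ^ #n.primeFactors ≤ K * u := by
  obtain ⟨K, hK⟩ := pow_omega_le k ((N : ℝ)⁻¹) hk (by positivity)
  refine ⟨max K 0, le_max_right _ _, fun n hn u hu hnu => (hK n hn).trans ?_⟩
  have : (n : ℝ) ^ ((N : ℝ)⁻¹) ≤ u := by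
    calc (n : ℝ) ^ ((N : ℝ)⁻¹) ≤ (u ^ N) ^ ((N : ℝ)⁻¹) :=
          Real.rpow_le_rpow (Nat.cast_nonneg _) hnu (by positivity)
      _ = u := Real.pow_rpow_inv_natCast hu hN.ne'
  exact mul_le_mul (le_max_left _ _) this (by positivity) (le_max_right _ _)

theorem mo_sum_pow (k : ℝ) (hk : 0 ≤ k) (N : ℕ) (hN : 0 < N) : ∃ K : ℝ, 0 ≤ K ∧
    ∀ P : Finset ℕ, (∀ p ∈ P, p.Prime) → ∀ u : ℝ, 0 ≤ u →
      ∑ S ∈ P.powerset with pr S ≤ u ^ N, k ^ #S ≤ K * u ^ (N + 1) := by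
  obtain ⟨K, hK0, hK⟩ := mo_pow_le k hk N hN
  refine ⟨K, hK0, fun P hP u hu => ?_⟩
  have h1 : ∀ S ∈ P.powerset.filter (fun S => pr S ≤ u ^ N), k ^ #S ≤ K * u := fun S hS => by
    rw [mem_filter, mem_powerset] at hS
    have hS' : ∀ p ∈ S, p.Prime := fun p hp => hP p (hS.1 hp)
    have := hK (∏ p ∈ S, p) (prod_ne_zero_iff.2 fun p hp => (hS' p hp).ne_zero) u hu
      (by rw [mo_pr_cast]; exact hS.2)
    rwa [Nat.primeFactors_prod hS'] at this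
  refine (sum_le_card_nsmul _ _ _ h1).trans ?_
  rw [nsmul_eq_mul]
  have := card_pr_le P hP (z := u ^ N) (by positivity)
  calc _ ≤ u ^ N * (K * u) := mul_le_mul_of_nonneg_right this (by positivity)
    _ = _ := by ring

theorem mo_cell {R u : ℝ} (hR : 1 ≤ R) (hu : 0 ≤ u) (hRu : R ≤ u ^ 75) (a : Fin 4)
    (S : Finset ℕ) : |cell R a S| ≤ 1 ∧ (cell R a S ≠ 0 → pr S ≤ u ^ 50) := by
  refine ⟨(cell_bound hR a S).1, fun h => ?_⟩
  unfold cell ind at h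
  have h1 : pr S ≤ R ^ ((((a : ℕ) : ℝ) + 1) / 6) := by
    by_contra h2
    exact h (if_neg fun h3 => h2 h3.2)
  have ha : ((a : ℕ) : ℝ) ≤ 3 := by exact_mod_cast Nat.lt_succ_iff.1 a.2
  calc pr S ≤ R ^ ((((a : ℕ) : ℝ) + 1) / 6) := h1
    _ ≤ R ^ (2 / 3 : ℝ) := Real.rpow_le_rpow_of_exponent_le hR (by linarith)
    _ ≤ (u ^ 75) ^ (2 / 3 : ℝ) := Real.rpow_le_rpow (by linarith) hRu (by norm_num)
    _ = u ^ 50 := by
      rw [← Real.rpow_natCast, ← Real.rpow_mul hu, ← Real.rpow_natCast]; norm_num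

theorem mo_Hs_nonneg (P : Finset ℕ) (z : ℝ) : 0 ≤ Hs P z :=
  sum_nonneg fun _ _ => prod_nonneg fun _ _ => by positivity

theorem mo_Hs_le (P : Finset ℕ) (hP : ∀ p ∈ P, p.Prime) {z u : ℝ} (hz : 1 ≤ z) (hu : 1 ≤ u)
    (hzu : z ≤ u ^ 75) : Hs P z ≤ (75 * u) ^ 2 := by
  refine (Hs_le P hP hz).trans (pow_le_pow_left₀ ?_ ?_ 2)
  · have := Real.log_nonneg hz
    linarith
  · have h1 : Real.log z ≤ Real.log (u ^ 75) := Real.log_le_log (by linarith) hzu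
    rw [Real.log_pow] at h1
    have h2 := Real.log_le_sub_one_of_pos (x := u) (by linarith)
    push_cast at h1
    linarith

theorem mo_Ha (P : Finset ℕ) {R : ℝ} (hR : 1 ≤ R) (a : Fin 4) :
    0 ≤ Ha P R a ∧ Ha P R a ≤ Hs P R := by
  have h0 : ∀ S, 0 ≤ hS S := fun S => prod_nonneg fun _ _ => by positivity
  refine ⟨sum_nonneg fun S _ => mul_nonneg (mo_ind_nonneg _) (h0 S), ?_⟩
  unfold Ha Hs
  rw [sum_filter]
  refine sum_le_sum fun S _ => ?_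
  split_ifs with h
  · exact mul_le_of_le_one_left (h0 S) (mo_ind_le _)
  · have : cell R a S = 0 := by
      by_contra h1
      exact h ((cell_bound hR a S).2 h1)
    rw [this, zero_mul]

theorem mo_pr_union (S T : Finset ℕ) (hT : ∀ p ∈ S ∩ T, 0 < p) : pr (S ∪ T) ≤ pr S * pr T := by
  unfold pr
  rw [← prod_union_inter]
  refine le_mul_of_one_le_right (mo_pr_nonneg _) ?_
  exact one_le_prod fun p hp => by exact_mod_cast hT p hp

theorem mo_Dv_union (S T : Finset ℕ) (n : ℕ) : moDv (S ∪ T) n = moDv S n * moDv T n := by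
  unfold moDv ind
  have e : (∀ p ∈ S ∪ T, p ∣ n) ↔ (∀ p ∈ S, p ∣ n) ∧ ∀ p ∈ T, p ∣ n := forall_mem_union
  by_cases h1 : ∀ p ∈ S, p ∣ n
  · by_cases h2 : ∀ p ∈ T, p ∣ n
    · rw [if_pos h1, if_pos h2, if_pos (e.2 ⟨h1, h2⟩), mul_one]
    · rw [if_neg h2, if_neg (fun h => h2 (e.1 h).2), mul_zero]
  · rw [if_neg h1, if_neg (fun h => h1 (e.1 h).1), zero_mul]

/-- Lattice sums of a product of two sieve sums and a short divisor sum. -/
theorem mo_main {c₀ C₀ : ℝ} {ψ : ℝ → ℝ} (hψ : Wt c₀ C₀ ψ) : ∃ K : ℝ, 0 ≤ K ∧ ∀ u : ℝ, 1 ≤ u →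
    ∀ R : ℝ, 1 ≤ R → R ≤ u ^ 75 →
    ∀ W : ℕ, 0 < W → ∀ P : Finset ℕ, (∀ p ∈ P, p.Prime) → ∀ δ, Del W δ → ∀ a b : Fin 4,
    ∀ (𝒯 : Finset (Finset ℕ)) (c : Finset ℕ → ℝ), (∀ T ∈ 𝒯, T ⊆ P ∧ pr T ≤ u ^ 30) →
      |SQ ψ (u ^ 600) δ (fun n => La P R a n * La P R b n * ∑ T ∈ 𝒯, c T * moDv T n) -
          moAv (W * ∏ p ∈ P, p)
            (fun n => δ n * (La P R a n * La P R b n * ∑ T ∈ 𝒯, c T * moDv T n)) *
            moT ψ (u ^ 600)| ≤ K * (W : ℝ) ^ 2 * (∑ T ∈ 𝒯, |c T|) * u ^ 535 := by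
  obtain ⟨C, hC0, hC⟩ := mo_lin hψ
  obtain ⟨K, hK0, hK⟩ := mo_sum_pow 12 (by norm_num) 100 (by norm_num)
  refine ⟨K * 75 ^ 4 * (C * 2), by positivity, fun u hu R hR hRu W hW P hP δ hδ a b 𝒯 c h𝒯 => ?_⟩
  have hu0 : 0 ≤ u := by linarith
  obtain ⟨ρ, hρ1, hρ2, hρ3⟩ := lam_mul P (fun p hp => (hP p hp).two_le)
    (mo_cell hR hu0 hRu a) (mo_cell hR hu0 hRu b) le_rfl le_rfl
  have e : ∀ n : ℕ, La P R a n * La P R b n * ∑ T ∈ 𝒯, c T * moDv T n =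
      ∑ i ∈ P.powerset ×ˢ 𝒯, ρ i.1 * c i.2 * moDv (i.1 ∪ i.2) n := fun n => by
    unfold La
    rw [hρ3, sum_mul_sum, sum_product]
    refine sum_congr rfl fun S _ => sum_congr rfl fun T _ => ?_
    rw [mo_Dv_union]
    unfold moDv
    ring
  simp only [e]
  have h50 : u ^ 50 * u ^ 50 = u ^ 100 := by ring
  have h := hC (u ^ 600) (one_le_pow₀ hu) W hW P (fun p hp => (hP p hp).pos) δ hδ _
    (P.powerset ×ˢ 𝒯) (fun i => ρ i.1 * c i.2) (fun i => i.1 ∪ i.2) (u ^ 130) (by positivity)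
    (fun i hi => by
      rw [mem_product, mem_powerset] at hi
      exact union_subset hi.1 (h𝒯 _ hi.2).1)
    (fun i hi h0 => by
      rw [mem_product] at hi
      have h1 := hρ2 _ hi.1 (left_ne_zero_of_mul h0)
      rw [h50] at h1
      refine (mo_pr_union _ _ fun p hp => (hP p ((h𝒯 _ hi.2).1 (mem_inter.1 hp).2)).pos).trans ?_
      calc _ ≤ u ^ 100 * u ^ 30 :=
            mul_le_mul h1 (h𝒯 _ hi.2).2 (mo_pr_nonneg _) (by positivity)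
        _ = _ := by ring)
  refine h.trans ?_
  have hH : Hs P (u ^ 50) ^ 2 ≤ (75 * u) ^ 4 := by
    have := mo_Hs_le P hP (one_le_pow₀ hu) hu (pow_le_pow_right₀ hu (by norm_num : 50 ≤ 75))
    calc _ ≤ ((75 * u) ^ 2) ^ 2 := pow_le_pow_left₀ (mo_Hs_nonneg _ _) this 2
      _ = _ := by ring
  have h1 : ∑ S ∈ P.powerset, |ρ S| ≤ K * u ^ 101 * (75 * u) ^ 4 := by
    refine le_trans ?_ (mul_le_mul_of_nonneg_right (hK P hP u hu0) (by positivity))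
    rw [sum_mul, sum_filter]
    refine sum_le_sum fun S hS => ?_
    split_ifs with h2
    · exact (hρ1 S hS).trans (mul_le_mul_of_nonneg_left hH (by positivity))
    · have : ρ S = 0 := by
        by_contra h3
        exact h2 (h50 ▸ hρ2 S hS h3)
      rw [this, abs_zero]
  have h2 : ∑ i ∈ P.powerset ×ˢ 𝒯, |ρ i.1 * c i.2| =
      (∑ S ∈ P.powerset, |ρ S|) * ∑ T ∈ 𝒯, |c T| := by
    rw [sum_mul_sum, sum_product]
    simp only [abs_mul]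
  have h3 : √(u ^ 600) = u ^ 300 := by
    rw [show u ^ 600 = (u ^ 300) ^ 2 by ring, Real.sqrt_sq (by positivity)]
  have hW1 : (1 : ℝ) ≤ W := by exact_mod_cast hW
  have h4 : W * u ^ 130 * u ^ 300 + (W * u ^ 130) ^ 2 ≤ 2 * ((W : ℝ) ^ 2 * u ^ 430) := by
    have a1 : W * u ^ 130 * u ^ 300 ≤ (W : ℝ) ^ 2 * u ^ 430 := by
      rw [mul_assoc, ← pow_add]
      exact mul_le_mul_of_nonneg_right (by nlinarith) (by positivity)
    have a2 : (W * u ^ 130) ^ 2 ≤ (W : ℝ) ^ 2 * u ^ 430 := by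
      rw [mul_pow, ← pow_mul]
      exact mul_le_mul_of_nonneg_left (pow_le_pow_right₀ hu (by norm_num)) (by positivity)
    linarith
  have h5 : 0 ≤ ∑ T ∈ 𝒯, |c T| := sum_nonneg fun _ _ => abs_nonneg _
  rw [h2, h3]
  calc _ ≤ (K * u ^ 101 * (75 * u) ^ 4 * ∑ T ∈ 𝒯, |c T|) * (C * (2 * ((W : ℝ) ^ 2 * u ^ 430))) := by
        gcongr
    _ = _ := by ring

theorem mo_expand (P : Finset ℕ) (f : ℕ → ℝ) (n : ℕ) :
    ∏ p ∈ P with p ∣ n, (1 + f p) = ∑ T ∈ P.powerset, (∏ p ∈ T, f p) * moDv T n := by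
  have e : (P.filter (fun p => p ∣ n)).powerset = P.powerset.filter (fun T => ∀ p ∈ T, p ∣ n) := by
    ext T
    simp only [mem_powerset, mem_filter, subset_iff]
    exact ⟨fun h => ⟨fun p hp => (h hp).1, fun p hp => (h hp).2⟩,
      fun h p hp => ⟨h.1 hp, h.2 p hp⟩⟩
  rw [prod_one_add, e, sum_filter]
  refine sum_congr rfl fun T _ => ?_
  unfold moDv ind
  split_ifs <;> simp

theorem mo_SQ_le {c₀ C₀ : ℝ} {ψ : ℝ → ℝ} (hψ : Wt c₀ C₀ ψ) {y : ℝ} (hy : 1 ≤ y) {W : ℕ}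
    {δ : ℕ → ℝ} (hδ : Del W δ) {Θ Θ' : ℕ → ℝ} {B : ℝ} (hB : 0 ≤ B)
    (h : ∀ n : ℕ, n ≠ 0 → (n : ℝ) ≤ C₀ * y → Θ n ≤ Θ' n + B) :
    SQ ψ y δ Θ ≤ SQ ψ y δ Θ' + 9 * ((C₀ + 1) * y) * (C₀ * B) := by
  have hy0 : 0 < y := by linarith
  have hC₀ : 0 ≤ C₀ := (hψ.nonneg 0).trans (hψ.le 0)
  rw [mo_SQ_eq hψ hy0, mo_SQ_eq hψ hy0]
  have h1 : (#(finite_nrm (C₀ * y)).toFinset : ℝ) ≤ 9 * ((C₀ + 1) * y) := by
    refine le_trans ?_ (ncard_nrm_le (y := (C₀ + 1) * y) (by nlinarith))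
    rw [← Set.ncard_eq_toFinset_card _ (finite_nrm (C₀ * y))]
    exact_mod_cast Set.ncard_le_ncard (fun μ hμ => by
      simp only [Set.mem_ofPred_eq] at hμ ⊢
      nlinarith) (finite_nrm _)
  have h2 : ∑ _μ ∈ (finite_nrm (C₀ * y)).toFinset, C₀ * B ≤ 9 * ((C₀ + 1) * y) * (C₀ * B) := by
    rw [sum_const, nsmul_eq_mul]
    exact mul_le_mul_of_nonneg_right h1 (by positivity)
  refine le_trans ?_ (add_le_add le_rfl h2)
  rw [← sum_add_distrib]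
  refine sum_le_sum fun μ _ => ?_
  by_cases h0 : ψ (nrm μ / y) = 0
  · rw [h0]; simp only [mul_zero, zero_mul, zero_add]; positivity
  obtain ⟨h3, h4⟩ := mo_supp hψ hy0 h0
  have h5 : 0 ≤ δ (nrm μ) * ψ (nrm μ / y) := mul_nonneg (hδ.nonneg _) (hψ.nonneg _)
  have h6 : δ (nrm μ) * ψ (nrm μ / y) ≤ C₀ :=
    (mul_le_of_le_one_left (hψ.nonneg _) (hδ.le _)).trans (hψ.le _)
  have h7 := mul_le_mul_of_nonneg_left (h _ h3 h4) h5
  have h8 := mul_le_mul_of_nonneg_right h6 hB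
  linarith [mul_add (δ (nrm μ) * ψ (nrm μ / y)) (Θ' (nrm μ)) B]

theorem mo_tail (C₀ C₁ : ℝ) (hC₀ : 0 ≤ C₀) (hC : 0 ≤ C₁) : ∃ K : ℝ, 0 ≤ K ∧ ∀ u : ℝ, 1 ≤ u →
    ∀ R : ℝ, 1 ≤ R → R ≤ u ^ 75 → ∀ P : Finset ℕ, (∀ p ∈ P, p.Prime) → ∀ (a : Fin 4) (n : ℕ),
    n ≠ 0 → (n : ℝ) ≤ C₀ * u ^ 600 →
      La P R a n ^ 2 * ∏ p ∈ P with p ∣ n, (1 + C₁ / p) ≤
        (La P R a n * La P R a n *
          ∑ T ∈ P.powerset with pr T ≤ u ^ 30, (∏ p ∈ T, C₁ / p) * moDv T n) + K / u ^ 25 := by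
  obtain ⟨K, hK0, hK⟩ := mo_pow_le (4 * (1 + C₁)) (by positivity) 600 (by norm_num)
  refine ⟨K * (C₀ + 1) * 75 ^ 4, by positivity, fun u hu R hR hRu P hP a n hn hnu => ?_⟩
  have hu0 : 0 < u := by linarith
  rw [mo_expand P (fun p => C₁ / p), ← sum_filter_add_sum_filter_not _ (fun T => pr T ≤ u ^ 30),
    mul_add, ← sq]
  refine add_le_add le_rfl ?_
  have h1 : ∑ T ∈ P.powerset with ¬ pr T ≤ u ^ 30, (∏ p ∈ T, C₁ / p) * moDv T n ≤
      (1 + C₁) ^ #n.primeFactors / u ^ 30 := by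
    have a1 : ∏ p ∈ P with p ∣ n, (1 + C₁) ≤ (1 + C₁) ^ #n.primeFactors := by
      rw [prod_const]
      refine pow_le_pow_right₀ (by linarith) (card_le_card fun p hp => ?_)
      rw [mem_filter] at hp
      exact Nat.mem_primeFactors.2 ⟨hP p hp.1, hp.2, hn⟩
    refine le_trans ?_ (div_le_div_of_nonneg_right a1 (by positivity))
    rw [mo_expand P (fun _ => C₁), sum_div, sum_filter]
    refine sum_le_sum fun T _ => ?_
    have a2 : 0 ≤ (∏ _p ∈ T, C₁) * moDv T n :=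
      mul_nonneg (prod_nonneg fun _ _ => hC) (mo_ind_nonneg _)
    split_ifs with h2
    · positivity
    · rw [prod_div_distrib, div_mul_eq_mul_div]
      exact div_le_div_of_nonneg_left a2 (by positivity) (not_le.1 h2).le
  have h2 : La P R a n ^ 2 ≤ 4 ^ #n.primeFactors * (75 * u) ^ 4 := by
    have a1 : |La P R a n| ≤ 2 ^ #n.primeFactors * (75 * u) ^ 2 :=
      (abs_lam_le P hP (cell_bound hR a) hn).trans
        (mul_le_mul_of_nonneg_left (mo_Hs_le P hP hR hu hRu) (by positivity))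
    calc La P R a n ^ 2 = |La P R a n| ^ 2 := (sq_abs _).symm
      _ ≤ (2 ^ #n.primeFactors * (75 * u) ^ 2) ^ 2 := pow_le_pow_left₀ (abs_nonneg _) a1 2
      _ = _ := by
        rw [mul_pow, ← pow_mul, ← pow_mul, mul_comm (#n.primeFactors), pow_mul]; norm_num
  have h3 := hK n hn ((C₀ + 1) * u) (by positivity) (hnu.trans (by
    rw [mul_pow]
    refine mul_le_mul_of_nonneg_right ?_ (by positivity)
    exact le_trans (by linarith) (le_self_pow₀ (by linarith) (by norm_num))))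
  calc _ ≤ (4 ^ #n.primeFactors * (75 * u) ^ 4) * ((1 + C₁) ^ #n.primeFactors / u ^ 30) :=
        mul_le_mul h2 h1 (sum_nonneg fun T _ =>
          mul_nonneg (prod_nonneg fun _ _ => by positivity) (mo_ind_nonneg _)) (by positivity)
    _ = (4 * (1 + C₁)) ^ #n.primeFactors * ((75 * u) ^ 4 / u ^ 30) := by rw [mul_pow 4]; ring
    _ ≤ K * ((C₀ + 1) * u) * ((75 * u) ^ 4 / u ^ 30) :=
        mul_le_mul_of_nonneg_right h3 (by positivity)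
    _ = _ := by field_simp

theorem mo_real {m A T S h θ H Hst e η : ℝ} (hT : 0 ≤ T) (hA : 0 ≤ A) (hS : 0 ≤ S)
    (h2 : |m - A * h| ≤ A * (θ * H)) (h3 : |S - A * T| ≤ e) (hθ : θ ≤ η / 2) (hη : 0 ≤ η)
    (hH0 : 0 ≤ H) (hH : H ≤ 2 * Hst) (hh0 : 0 ≤ h) (hh : h ≤ H) :
    |m * T - h * S| ≤ η * Hst * S + (1 + η / 2) * H * e := by
  have he : 0 ≤ e := (abs_nonneg _).trans h3
  have a1 : |m - A * h| * T ≤ A * T * (η / 2 * H) := by
    have : A * (θ * H) ≤ A * (η / 2 * H) := by gcongr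
    nlinarith [mul_le_mul_of_nonneg_right (h2.trans this) hT]
  have a2 : A * T ≤ S + e := by linarith [(abs_le.1 h3).1]
  have a3 : A * T * (η / 2 * H) ≤ (S + e) * (η / 2 * H) := by gcongr
  have a4 : S * (η / 2 * H) ≤ S * (η / 2 * (2 * Hst)) := by gcongr
  have a5 : h * |S - A * T| ≤ H * e := by gcongr
  have a6 : m * T - h * S = (m - A * h) * T - h * (S - A * T) := by ring
  rw [a6]
  refine (abs_sub _ _).trans ?_
  rw [abs_mul, abs_mul, abs_of_nonneg hT, abs_of_nonneg hh0]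
  nlinarith

theorem moments {c₀ C₀ : ℝ} {ψ : ℝ → ℝ} (hψ : Wt c₀ C₀ ψ) (C₁ η : ℝ) (hC : 0 ≤ C₁)
    (hη : 0 < η) : ∃ (D : ℕ) (η₁ : ℝ), 0 < η₁ ∧ ∀ W : ℕ, 0 < W →
    (∀ p : ℕ, p.Prime → p ≤ D → p ∣ W) → ∀ᶠ R : ℝ in atTop, ∀ P, Good W R η₁ P →
      ∀ y : ℝ, R ^ 8 ≤ y → y ≤ R ^ 9 → ∀ δ, Del W δ →
        (∀ a b, |SQ ψ y δ (fun n => La P R a n * La P R b n) -
            ind (a = b) * Ha P R a * SQ ψ y δ 1| ≤
          η * Hstar W R * SQ ψ y δ 1 + y ^ (24 / 25 : ℝ)) ∧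
        ∀ a, SQ ψ y δ (fun n => La P R a n ^ 2 * ∏ p ∈ P with p ∣ n, (1 + C₁ / p)) ≤
          (Ha P R a + η * Hstar W R) * SQ ψ y δ 1 + y ^ (24 / 25 : ℝ) := by
  have hC₀ : 0 ≤ C₀ := (hψ.nonneg 0).trans (hψ.le 0)
  obtain ⟨D₀, η₁, hη₁, hH⟩ := hasym 1 one_pos
  obtain ⟨D₁, hD₁⟩ := mo_prod_small (c := 24 + 8 * 0) (θ := η / 2) (by norm_num) (by linarith)
  obtain ⟨D₂, hD₂⟩ := mo_prod_small (c := 24 + 8 * C₁) (θ := η / 2) (by linarith) (by linarith)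
  obtain ⟨K₀, hK₀, hper⟩ := mo_per hψ
  obtain ⟨K₁, hK₁, hmain⟩ := mo_main hψ
  obtain ⟨K₂, hK₂, hsum⟩ := mo_sum_pow C₁ hC 30 (by norm_num)
  obtain ⟨K₃, hK₃, htail⟩ := mo_tail C₀ C₁ hC₀ hC
  refine ⟨max D₀ (max D₁ D₂), η₁, hη₁, fun W hW hWD => ?_⟩
  set Ka : ℝ := K₁ * (W : ℝ) ^ 2 with hKa
  set Kb : ℝ := (1 + η / 2) * 75 ^ 2 * (K₀ * (2 * (W : ℝ) ^ 2)) with hKb
  set Kc : ℝ := 9 * (C₀ + 1) * (C₀ * K₃) with hKc
  have hKa0 : 0 ≤ Ka := by positivity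
  have hKb0 : 0 ≤ Kb := by positivity
  have hKc0 : 0 ≤ Kc := by positivity
  obtain ⟨Kt, hKt⟩ : ∃ Kt, Kt = Ka + Ka * K₂ + Kb + Kc := ⟨_, rfl⟩
  filter_upwards [hH W hW (fun p hp hpD => hWD p hp (hpD.trans (le_max_left _ _))),
    eventually_gt_atTop 1, eventually_ge_atTop (Kt ^ 75)]
    with R hR1 hR2 hR3 P hP y hy _ δ hδ
  obtain ⟨Ex, -, -, hP'⟩ := id hP
  have hPp : ∀ p ∈ P, p.Prime := fun p hp => ((hP' p).1 hp).1
  have hP4 : ∀ p ∈ P, p.Prime ∧ p % 4 = 1 ∧ ¬ p ∣ W := fun p hp =>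
    ⟨hPp p hp, ((hP' p).1 hp).2.1, ((hP' p).1 hp).2.2.2.1⟩
  have hPD : ∀ p ∈ P, max D₀ (max D₁ D₂) < p := fun p hp => by
    by_contra h
    exact (hP4 p hp).2.2 (hWD p (hPp p hp) (not_lt.1 h))
  have hθ₁ := hD₁ P fun p hp =>
    lt_of_le_of_lt ((le_max_left _ _).trans (le_max_right _ _)) (hPD p hp)
  have hθ₂ := hD₂ P fun p hp =>
    lt_of_le_of_lt ((le_max_right _ _).trans (le_max_right _ _)) (hPD p hp)
  have hy1 : 1 ≤ y := (one_le_pow₀ hR2.le).trans hy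
  obtain ⟨u, hu, rfl⟩ : ∃ u : ℝ, 1 ≤ u ∧ y = u ^ 600 :=
    ⟨y ^ ((600 : ℕ) : ℝ)⁻¹, Real.one_le_rpow hy1 (by positivity),
      (Real.rpow_inv_natCast_pow (by linarith) (by norm_num)).symm⟩
  have hu0 : 0 < u := by linarith
  have hRu : R ≤ u ^ 75 := by
    refine le_of_pow_le_pow_left₀ (n := 8) (by norm_num) (by positivity) ?_
    rwa [← pow_mul]
  have hKu : Kt ≤ u :=
    le_of_pow_le_pow_left₀ (n := 75) (by norm_num) hu0.le (hR3.trans hRu)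
  clear hR3
  rw [hKt] at hKu
  clear hKt
  have hyp : (u ^ 600) ^ (24 / 25 : ℝ) = u * u ^ 575 := by
    rw [← Real.rpow_natCast, ← Real.rpow_mul hu0.le, ← pow_succ', ← Real.rpow_natCast]; norm_num
  have hfin : (Ka + Ka * K₂ + Kb + Kc) * u ^ 575 ≤ u * u ^ 575 :=
    mul_le_mul_of_nonneg_right hKu (by positivity)
  have hHs : Hs P R ≤ 2 * Hstar W R := by
    have h1 := hR1 P hP R (by linarith) le_rfl
    have h2 := Real.log_pos hR2
    rw [max_eq_right h2.le, div_self h2.ne'] at h1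
    linarith [(abs_le.1 h1).2]
  have hM : 0 < W * ∏ p ∈ P, p := Nat.mul_pos hW (prod_pos fun p hp => (hPp p hp).pos)
  have hW1 : (1 : ℝ) ≤ W := by exact_mod_cast hW
  have hS : |SQ ψ (u ^ 600) δ 1 - moAv (W * ∏ p ∈ P, p) δ * moT ψ (u ^ 600)| ≤
      K₀ * (2 * (W : ℝ) ^ 2) * u ^ 300 := by
    have h1 := hper (u ^ 600) hy1 W _ hM (dvd_mul_right _ _) δ
      (fun n => by rw [abs_of_nonneg (hδ.nonneg n)]; exact hδ.le n) hδ.per
    have h3 : √(u ^ 600) = u ^ 300 := by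
      rw [show u ^ 600 = (u ^ 300) ^ 2 by ring, Real.sqrt_sq (by positivity)]
    have e : SQ ψ (u ^ 600) δ 1 = ∑' μ : GaussianInt, δ (nrm μ) * ψ (nrm μ / u ^ 600) := by
      unfold SQ
      simp
    rw [e]
    refine h1.trans ?_
    rw [h3, mul_assoc]
    refine mul_le_mul_of_nonneg_left ?_ hK₀
    have a1 : (1 : ℝ) ≤ u ^ 300 := one_le_pow₀ hu
    have a2 : (W : ℝ) ≤ (W : ℝ) ^ 2 := by nlinarith
    nlinarith [mul_le_mul_of_nonneg_right a2 (by positivity : (0 : ℝ) ≤ u ^ 300),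
      mul_le_mul_of_nonneg_left a1 (by positivity : (0 : ℝ) ≤ (W : ℝ) ^ 2)]
  have hS0 : 0 ≤ SQ ψ (u ^ 600) δ 1 :=
    tsum_nonneg fun μ => mul_nonneg (mul_nonneg (hδ.nonneg _) (hψ.nonneg _)) zero_le_one
  have hA0 : 0 ≤ moAv (W * ∏ p ∈ P, p) δ := mo_Av_nonneg _ hδ.nonneg
  have hT0 := mo_T_nonneg hψ (u ^ 600)
  have hb : (1 + η / 2) * Hs P R * (K₀ * (2 * (W : ℝ) ^ 2) * u ^ 300) ≤ Kb * u ^ 575 := by
    have a1 := mo_Hs_le P hPp hR2.le hu hRu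
    calc _ ≤ (1 + η / 2) * (75 * u) ^ 2 * (K₀ * (2 * (W : ℝ) ^ 2) * u ^ 300) := by gcongr
      _ = Kb * u ^ 302 := by rw [hKb]; ring
      _ ≤ _ := mul_le_mul_of_nonneg_left (pow_le_pow_right₀ hu (by norm_num)) hKb0
  have hp0 : 0 ≤ u ^ 575 := by positivity
  have hq1 := mul_nonneg hKa0 hp0
  have hq2 := mul_nonneg (mul_nonneg hKa0 hK₂) hp0
  have hq3 := mul_nonneg hKc0 hp0
  rw [hyp]
  refine ⟨fun a b => ?_, fun a => ?_⟩
  · have h1 := hmain u hu R hR2.le hRu W hW P hPp δ hδ a b {∅} (fun _ => 1) (fun T hT => by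
      rw [mem_singleton.1 hT]
      exact ⟨empty_subset _, by unfold pr; rw [prod_empty]; exact one_le_pow₀ hu⟩)
    have h2 := mo_model hW hP4 hδ le_rfl hR2.le a b
    have e : ∀ n, moDv ∅ n = 1 := fun n => by unfold moDv ind; simp
    simp only [sum_singleton, e, mul_one, abs_one] at h1
    simp only [zero_div, add_zero, prod_const_one, mul_one] at h2
    have h3 := mo_real hT0 hA0 hS0 h2 hS hθ₁ hη.le (mo_Hs_nonneg _ _) hHs
      (mul_nonneg (mo_ind_nonneg _) (mo_Ha P hR2.le a).1)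
      ((mul_le_of_le_one_left (mo_Ha P hR2.le a).1 (mo_ind_le _)).trans (mo_Ha P hR2.le a).2)
    have h4 : Ka * u ^ 535 ≤ Ka * u ^ 575 :=
      mul_le_mul_of_nonneg_left (pow_le_pow_right₀ hu (by norm_num)) hKa0
    refine (abs_sub_le _ _ _).trans ((add_le_add h1 h3).trans ?_)
    linarith
  · have h1 := hmain u hu R hR2.le hRu W hW P hPp δ hδ a a
      (P.powerset.filter fun T => pr T ≤ u ^ 30) (fun T => ∏ p ∈ T, C₁ / p) (fun T hT => by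
        rw [mem_filter, mem_powerset] at hT
        exact hT)
    have h2 := mo_model hW hP4 hδ hC hR2.le a a
    have e : ind (a = a) = 1 := if_pos rfl
    rw [e, one_mul] at h2
    have h3 := mo_real hT0 hA0 hS0 h2 hS hθ₂ hη.le (mo_Hs_nonneg _ _) hHs
      (mo_Ha P hR2.le a).1 (mo_Ha P hR2.le a).2
    have h4 := mo_SQ_le hψ hy1 hδ (B := K₃ / u ^ 25) (by positivity)
      (htail u hu R hR2.le hRu P hPp a)
    have h5 : 9 * ((C₀ + 1) * u ^ 600) * (C₀ * (K₃ / u ^ 25)) = Kc * u ^ 575 := by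
      rw [hKc]; field_simp
    have h6 : ∑ T ∈ P.powerset with pr T ≤ u ^ 30, |∏ p ∈ T, C₁ / p| ≤ K₂ * u ^ 31 := by
      refine le_trans (sum_le_sum fun T hT => ?_) (hsum P hPp u hu0.le)
      rw [mem_filter, mem_powerset] at hT
      rw [abs_of_nonneg (prod_nonneg fun _ _ => by positivity), ← prod_const]
      refine prod_le_prod (fun _ _ => by positivity) fun p hp => div_le_self hC ?_
      exact_mod_cast (hPp p (hT.1 hp)).one_le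
    have h7 : Ka * (∑ T ∈ P.powerset with pr T ≤ u ^ 30, |∏ p ∈ T, C₁ / p|) * u ^ 535 ≤
        Ka * K₂ * u ^ 575 := by
      calc _ ≤ Ka * (K₂ * u ^ 31) * u ^ 535 := by gcongr
        _ = Ka * K₂ * u ^ 566 := by ring
        _ ≤ _ := mul_le_mul_of_nonneg_left (pow_le_pow_right₀ hu (by norm_num)) (by positivity)
    have h8 := mul_le_mul_of_nonneg_right (mo_Av_mono (W * ∏ p ∈ P, p)
      (g := fun n => δ n * (La P R a n * La P R a n *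
        ∑ T ∈ P.powerset with pr T ≤ u ^ 30, (∏ p ∈ T, C₁ / p) * moDv T n))
      (g' := fun n => δ n * (La P R a n * La P R a n * ∏ p ∈ P with p ∣ n, (1 + C₁ / p)))
      (fun n => by
        refine mul_le_mul_of_nonneg_left
          (mul_le_mul_of_nonneg_left ?_ (mul_self_nonneg _)) (hδ.nonneg n)
        rw [mo_expand P (fun p => C₁ / p)]
        exact sum_le_sum_of_subset_of_nonneg (filter_subset _ _) fun T _ _ =>
          mul_nonneg (prod_nonneg fun _ _ => by positivity) (mo_ind_nonneg _))) hT0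
    have h9 := (abs_le.1 h1).2
    have h10 := (abs_le.1 h3).2
    linarith

end Pool.Agent.P.MP_a1177c_nt.EK
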