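import Pool.Agent.P.MP_a1177c_nt.EK.Lattice
import Pool.Agent.P.MP_a1177c_nt.EK.Dens
import Pool.Agent.P.MP_a1177c_nt.EK.Numerics

set_option autoImplicit false

namespace Pool.Agent.P.MP_a1177c_nt.EK

open Finset Filter
open scoped Classical

theorem outer_summable {c₀ C₀ : ℝ} {ψ : ℝ → ℝ} (hψ : Wt c₀ C₀ ψ) {y : ℝ} (hy : 0 < y)
    (δ Θ : ℕ → ℝ) : Summable fun μ : GaussianInt => δ (nrm μ) * ψ (nrm μ / y) * Θ (nrm μ) := by
  apply summable_of_hasFiniteSupport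
  refine (finite_nrm (C₀ * y)).subset ?_
  intro μ hμ
  have h : ψ (nrm μ / y) ≠ 0 := by
    intro h0
    apply hμ
    simp [h0]
  have := (hψ.supp _ h).2
  rwa [div_le_iff₀ hy] at this

theorem outer_SQ_add {c₀ C₀ : ℝ} {ψ : ℝ → ℝ} (hψ : Wt c₀ C₀ ψ) {y : ℝ} (hy : 0 < y)
    (δ Θ Θ' : ℕ → ℝ) : SQ ψ y δ (fun k => Θ k + Θ' k) = SQ ψ y δ Θ + SQ ψ y δ Θ' := by
  unfold SQ
  rw [← (outer_summable hψ hy δ Θ).tsum_add (outer_summable hψ hy δ Θ')]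
  congr 1; ext μ; ring

theorem outer_SQ_sub {c₀ C₀ : ℝ} {ψ : ℝ → ℝ} (hψ : Wt c₀ C₀ ψ) {y : ℝ} (hy : 0 < y)
    (δ Θ Θ' : ℕ → ℝ) : SQ ψ y δ (fun k => Θ k - Θ' k) = SQ ψ y δ Θ - SQ ψ y δ Θ' := by
  unfold SQ
  rw [← (outer_summable hψ hy δ Θ).tsum_sub (outer_summable hψ hy δ Θ')]
  congr 1; ext μ; ring

theorem outer_SQ_mul (ψ : ℝ → ℝ) (y : ℝ) (δ Θ : ℕ → ℝ) (r : ℝ) :
    SQ ψ y δ (fun k => r * Θ k) = r * SQ ψ y δ Θ := by
  unfold SQ
  rw [← tsum_mul_left]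
  congr 1; ext μ; ring

theorem outer_SQ_sum {c₀ C₀ : ℝ} {ψ : ℝ → ℝ} (hψ : Wt c₀ C₀ ψ) {y : ℝ} (hy : 0 < y)
    (δ : ℕ → ℝ) {I : Type} (s : Finset I) (Θ : I → ℕ → ℝ) :
    SQ ψ y δ (fun k => ∑ i ∈ s, Θ i k) = ∑ i ∈ s, SQ ψ y δ (Θ i) := by
  unfold SQ
  rw [← Summable.tsum_finsetSum (fun i _ => outer_summable hψ hy δ (Θ i))]
  congr 1; ext μ; rw [Finset.mul_sum]

theorem outer_SQ_mono {c₀ C₀ : ℝ} {ψ : ℝ → ℝ} (hψ : Wt c₀ C₀ ψ) {y : ℝ} (hy : 0 < y)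
    {δ : ℕ → ℝ} (hδ : ∀ n, 0 ≤ δ n) {Θ Θ' : ℕ → ℝ}
    (h : ∀ k : ℕ, ψ (k / y) ≠ 0 → Θ k ≤ Θ' k) : SQ ψ y δ Θ ≤ SQ ψ y δ Θ' := by
  unfold SQ
  refine (outer_summable hψ hy δ Θ).tsum_le_tsum (fun μ => ?_) (outer_summable hψ hy δ Θ')
  by_cases h0 : ψ (nrm μ / y) = 0
  · simp [h0]
  · exact mul_le_mul_of_nonneg_left (h _ h0) (mul_nonneg (hδ _) (hψ.nonneg _))

theorem outer_SQ_mono_wt {c₀ C₀ c₁ C₁ : ℝ} {ψ ψ' : ℝ → ℝ} (hψ : Wt c₀ C₀ ψ) (hψ' : Wt c₁ C₁ ψ')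
    {y y' : ℝ} (hy : 0 < y) (hy' : 0 < y') {δ : ℕ → ℝ} (hδ : ∀ n, 0 ≤ δ n) {Θ : ℕ → ℝ}
    (hΘ : ∀ k, 0 ≤ Θ k) (h : ∀ k : ℕ, ψ (k / y) ≤ ψ' (k / y')) : SQ ψ y δ Θ ≤ SQ ψ' y' δ Θ := by
  unfold SQ
  refine (outer_summable hψ hy δ Θ).tsum_le_tsum (fun μ => ?_) (outer_summable hψ' hy' δ Θ)
  exact mul_le_mul_of_nonneg_right (mul_le_mul_of_nonneg_left (h _) (hδ _)) (hΘ _)

theorem outer_nrm_eq (μ : GaussianInt) : nrm μ = (μ.re ^ 2 + μ.im ^ 2).natAbs := by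
  unfold nrm
  rw [Zsqrtd.norm_def]
  congr 1; ring

theorem outer_kap_nonneg {W : ℕ} {δ : ℕ → ℝ} (hδ : Del W δ) : 0 ≤ kap W δ := by
  unfold kap
  exact div_nonneg (Finset.sum_nonneg fun _ _ => hδ.nonneg _) (by positivity)

theorem outer_kap_le {W : ℕ} (hW : 0 < W) {δ : ℕ → ℝ} (hδ : Del W δ) : kap W δ ≤ 1 := by
  unfold kap
  have hW' : (0 : ℝ) < W := by exact_mod_cast hW
  rw [div_le_one (by positivity)]
  calc ∑ v ∈ range W ×ˢ range W, δ (v.1 ^ 2 + v.2 ^ 2) ≤ ∑ _v ∈ range W ×ˢ range W, (1 : ℝ) :=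
        Finset.sum_le_sum fun _ _ => hδ.le _
    _ = (W : ℝ) ^ 2 := by simp [sq]

theorem outer_asym {c₀ C₀ : ℝ} {ψ : ℝ → ℝ} (hψ : Wt c₀ C₀ ψ) : ∃ C : ℝ, 0 ≤ C ∧ ∀ y : ℝ, 1 ≤ y →
    ∀ W : ℕ, 0 < W → ∀ δ, Del W δ →
      |SQ ψ y δ 1 - kap W δ * (Real.pi * y * ∫ x, ψ x)| ≤ C * (W : ℝ) ^ 2 * √y := by
  obtain ⟨A, hA⟩ := lattice_per hψ
  obtain ⟨B, hB⟩ := lattice_area hψ
  refine ⟨2 * |A| + |B|, by positivity, fun y hy W hW δ hδ => ?_⟩
  have h1 := hA y hy W hW (fun t u => δ (t ^ 2 + u ^ 2).natAbs)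
    (fun t u => by rw [abs_of_nonneg (hδ.nonneg _)]; exact hδ.le _)
    (fun t t' u u' ht hu => by
      apply hδ.per
      have h : t ^ 2 + u ^ 2 ≡ t' ^ 2 + u' ^ 2 [ZMOD W] := (ht.pow 2).add (hu.pow 2)
      rw [← Int.natCast_modEq_iff, Int.natAbs_of_nonneg (by positivity),
        Int.natAbs_of_nonneg (by positivity)]
      exact h)
  have h2 := hB y hy
  have e1 : SQ ψ y δ 1 = ∑' μ : GaussianInt, δ (μ.re ^ 2 + μ.im ^ 2).natAbs * ψ (nrm μ / y) := by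
    unfold SQ
    congr 1; ext μ
    rw [← outer_nrm_eq]; simp
  have e2 : kap W δ = (∑ v ∈ range W ×ˢ range W,
      δ (((v.1 : ℕ) : ℤ) ^ 2 + ((v.2 : ℕ) : ℤ) ^ 2).natAbs) / (W : ℝ) ^ 2 := by
    unfold kap
    refine congrArg (fun t : ℝ => t / (W : ℝ) ^ 2) (Finset.sum_congr rfl fun v _ => ?_)
    have : ((v.1 : ℕ) : ℤ) ^ 2 + ((v.2 : ℕ) : ℤ) ^ 2 = ((v.1 ^ 2 + v.2 ^ 2 : ℕ) : ℤ) := by
      push_cast; ring
    rw [this, Int.natAbs_natCast]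
  rw [← e1, ← e2] at h1
  have hk0 := outer_kap_nonneg hδ
  have hk1 := outer_kap_le hW hδ
  have hW1 : (1 : ℝ) ≤ W := by exact_mod_cast hW
  have hs : 1 ≤ √y := Real.one_le_sqrt.mpr hy
  set T := ∑' μ : GaussianInt, ψ (nrm μ / y) with hT
  set I := Real.pi * y * ∫ x, ψ x with hI
  have e3 : SQ ψ y δ 1 - kap W δ * I = (SQ ψ y δ 1 - kap W δ * T) + kap W δ * (T - I) := by ring
  rw [e3]
  have h3 : |kap W δ * (T - I)| ≤ |B| * √y := by
    rw [abs_mul, abs_of_nonneg hk0]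
    calc kap W δ * |T - I| ≤ 1 * |T - I| := by gcongr
      _ ≤ B * √y := by rw [one_mul]; exact h2
      _ ≤ |B| * √y := by gcongr; exact le_abs_self B
  have h4 : A * (W * √y + (W : ℝ) ^ 2) ≤ |A| * (2 * (W : ℝ) ^ 2 * √y) := by
    have h5 : W * √y + (W : ℝ) ^ 2 ≤ 2 * (W : ℝ) ^ 2 * √y := by
      have a1 : (W : ℝ) * √y ≤ (W : ℝ) ^ 2 * √y := by
        gcongr; nlinarith
      have a2 : (W : ℝ) ^ 2 ≤ (W : ℝ) ^ 2 * √y := by
        nlinarith [sq_nonneg (W : ℝ)]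
      linarith
    calc A * (W * √y + (W : ℝ) ^ 2) ≤ |A| * (W * √y + (W : ℝ) ^ 2) := by
          gcongr; exact le_abs_self A
      _ ≤ _ := by gcongr
  have h6 : |B| * √y ≤ |B| * ((W : ℝ) ^ 2 * √y) := by
    gcongr
    nlinarith [one_le_pow₀ (n := 2) hW1]
  calc _ ≤ |SQ ψ y δ 1 - kap W δ * T| + |kap W δ * (T - I)| := abs_add_le _ _
    _ ≤ |A| * (2 * (W : ℝ) ^ 2 * √y) + |B| * ((W : ℝ) ^ 2 * √y) := by linarith
    _ = _ := by ring

theorem outer_kap_low {W : ℕ} (hW : 0 < W) {δ : ℕ → ℝ} (hδ : Del W δ)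
    (h : ∃ μ, 1 / (W : ℝ) ≤ δ (nrm μ)) : 1 / (W : ℝ) ^ 3 ≤ kap W δ := by
  obtain ⟨μ, hμ⟩ := h
  have hW' : (0 : ℝ) < W := by exact_mod_cast hW
  calc 1 / (W : ℝ) ^ 3 = 1 / (W : ℝ) / (W : ℝ) ^ 2 := by field_simp
    _ ≤ δ (nrm μ) / (W : ℝ) ^ 2 := by gcongr
    _ ≤ _ := kap_ge hW hδ μ

/-- For large `y` the plain sum has the expected order, and it dominates `y ^ (24 / 25)`. -/
theorem outer_order {c₀ C₀ : ℝ} {ψ : ℝ → ℝ} (hψ : Wt c₀ C₀ ψ) {W : ℕ} (hW : 0 < W) {η : ℝ}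
    (hη : 0 < η) : ∀ᶠ y : ℝ in atTop, ∀ δ, Del W δ → (∃ μ, 1 / (W : ℝ) ≤ δ (nrm μ)) →
      kap W δ * (Real.pi * y * ∫ x, ψ x) / 2 ≤ SQ ψ y δ 1 ∧
      SQ ψ y δ 1 ≤ 2 * (kap W δ * (Real.pi * y * ∫ x, ψ x)) ∧
      y ^ (24 / 25 : ℝ) ≤ η * SQ ψ y δ 1 := by
  obtain ⟨C, hC0, hC⟩ := outer_asym hψ
  have hI := hψ.int_pos
  set I := ∫ x, ψ x with hIdef
  have hW' : (0 : ℝ) < W := by exact_mod_cast hW
  have hpi := Real.pi_pos
  have t1 : Tendsto (fun y : ℝ => √y) atTop atTop := Real.tendsto_sqrt_atTop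
  have t2 : Tendsto (fun y : ℝ => y ^ (1 / 25 : ℝ)) atTop atTop :=
    tendsto_rpow_atTop (by norm_num)
  filter_upwards [eventually_ge_atTop 1, t1.eventually_ge_atTop
    (2 * C * (W : ℝ) ^ 5 / (Real.pi * I)), t2.eventually_ge_atTop
    (2 * (W : ℝ) ^ 3 / (η * (Real.pi * I)))] with y hy h1 h2 δ hδ hμ
  have hk := outer_kap_low hW hδ hμ
  have hA := hC y hy W hW δ hδ
  have hy0 : 0 < y := by linarith
  have hs : 0 < √y := Real.sqrt_pos.mpr hy0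
  have hss : √y * √y = y := Real.mul_self_sqrt hy0.le
  rw [div_le_iff₀ (by positivity)] at h1 h2
  have hM : 1 / (W : ℝ) ^ 3 * (Real.pi * y * I) ≤ kap W δ * (Real.pi * y * I) := by gcongr
  have h3 : C * (W : ℝ) ^ 2 * √y ≤ 1 / (W : ℝ) ^ 3 * (Real.pi * y * I) / 2 := by
    rw [div_mul_eq_mul_div, div_div, le_div_iff₀ (by positivity)]
    calc C * (W : ℝ) ^ 2 * √y * ((W : ℝ) ^ 3 * 2) = (2 * C * (W : ℝ) ^ 5) * √y := by ring
      _ ≤ (√y * (Real.pi * I)) * √y := by gcongr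
      _ = 1 * (Real.pi * (√y * √y) * I) := by ring
      _ = _ := by rw [hss]
  have hA' := abs_le.mp hA
  have hP : 0 ≤ 1 / (W : ℝ) ^ 3 * (Real.pi * y * I) := by positivity
  have a1 : kap W δ * (Real.pi * y * I) / 2 ≤ SQ ψ y δ 1 := by linarith [hA'.1]
  refine ⟨a1, by linarith [hA'.2], ?_⟩
  have e : y = y ^ (1 / 25 : ℝ) * y ^ (24 / 25 : ℝ) := by
    rw [← Real.rpow_add hy0]; norm_num
  have hp : 0 < y ^ (24 / 25 : ℝ) := Real.rpow_pos_of_pos hy0 _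
  calc y ^ (24 / 25 : ℝ) ≤ η * (1 / (W : ℝ) ^ 3 * (Real.pi * y * I) / 2) := by
        rw [div_mul_eq_mul_div, div_div, ← mul_div_assoc, le_div_iff₀ (by positivity)]
        calc y ^ (24 / 25 : ℝ) * ((W : ℝ) ^ 3 * 2) = (2 * (W : ℝ) ^ 3) * y ^ (24 / 25 : ℝ) := by
              ring
          _ ≤ (y ^ (1 / 25 : ℝ) * (η * (Real.pi * I))) * y ^ (24 / 25 : ℝ) := by gcongr
          _ = η * (1 * (Real.pi * (y ^ (1 / 25 : ℝ) * y ^ (24 / 25 : ℝ)) * I)) := by ring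
          _ = _ := by rw [← e]
    _ ≤ η * SQ ψ y δ 1 := by gcongr; linarith

theorem outer_plateau {c₀ C₀ : ℝ} {ψ : ℝ → ℝ} (hψ : Wt c₀ C₀ ψ) : ∃ (c₁ C₁ : ℝ) (ψ' : ℝ → ℝ),
    Wt c₁ C₁ ψ' ∧ ∀ x t : ℝ, 1 ≤ t → t ≤ 2 → ψ (t * x) ≤ ψ' x := by
  have hc := hψ.pos
  have hC : 0 ≤ C₀ := (hψ.nonneg 0).trans (hψ.le 0)
  set L : ℝ := 4 / c₀ + 1 with hL
  have hL1 : 1 ≤ L := by rw [hL]; have : 0 < 4 / c₀ := by positivity
                         linarith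
  set g : ℝ → ℝ := fun x => max 0 (min 1 (min (4 / c₀ * x - 1) (C₀ + 1 - x))) with hg
  have hdom : ∀ x t : ℝ, 1 ≤ t → t ≤ 2 → ψ (t * x) ≤ C₀ * g x := by
    intro x t h1 h2
    by_cases h0 : ψ (t * x) = 0
    · rw [h0]; exact mul_nonneg hC (le_max_left _ _)
    · obtain ⟨a1, a2⟩ := hψ.supp _ h0
      have hx : 0 < x := by
        by_contra hx
        push Not at hx
        nlinarith
      have b1 : c₀ ≤ 2 * x := by nlinarith
      have b2 : x ≤ C₀ := by nlinarith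
      have b3 : 1 ≤ 4 / c₀ * x - 1 := by
        rw [div_mul_eq_mul_div, le_sub_iff_add_le, le_div_iff₀ hc]; linarith
      have : g x = 1 := by
        simp only [hg]
        rw [min_eq_left (le_min b3 (by linarith)), max_eq_right zero_le_one]
      rw [this, mul_one]; exact hψ.le _
  have hg0 : ∀ x, 0 ≤ g x := fun x => le_max_left _ _
  have hg1 : ∀ x, g x ≤ 1 := fun x => max_le zero_le_one (min_le_left _ _)
  have hgs : ∀ x, g x ≠ 0 → c₀ / 4 ≤ x ∧ x ≤ C₀ + 1 := by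
    intro x hx
    have h : 0 < min 1 (min (4 / c₀ * x - 1) (C₀ + 1 - x)) := by
      by_contra h
      push Not at h
      exact hx (max_eq_left h)
    simp only [lt_min_iff] at h
    obtain ⟨-, h1, h2⟩ := h
    refine ⟨?_, by linarith⟩
    rw [div_mul_eq_mul_div, sub_pos, lt_div_iff₀ hc] at h1
    linarith
  have hgl : ∀ x y, |g x - g y| ≤ L * |x - y| := by
    intro x y
    have a1 : |(4 / c₀ * x - 1) - (4 / c₀ * y - 1)| ≤ L * |x - y| := by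
      rw [show (4 / c₀ * x - 1) - (4 / c₀ * y - 1) = 4 / c₀ * (x - y) by ring, abs_mul,
        abs_of_pos (by positivity : 0 < 4 / c₀)]
      gcongr; linarith
    have a2 : |(C₀ + 1 - x) - (C₀ + 1 - y)| ≤ L * |x - y| := by
      rw [show (C₀ + 1 - x) - (C₀ + 1 - y) = -(x - y) by ring, abs_neg]
      nlinarith [abs_nonneg (x - y)]
    have a0 : 0 ≤ L * |x - y| := by positivity
    refine (abs_max_sub_max_le_max _ _ _ _).trans (max_le (by simpa using a0) ?_)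
    refine (abs_min_sub_min_le_max _ _ _ _).trans (max_le (by simpa using a0) ?_)
    exact (abs_min_sub_min_le_max _ _ _ _).trans (max_le a1 a2)
  have hgc : Continuous g := by
    simp only [hg]; fun_prop
  refine ⟨c₀ / 4, C₀ + 1 + C₀ * L, fun x => C₀ * g x, ⟨by positivity,
    fun x => mul_nonneg hC (hg0 x), fun x => ?_, fun x y => ?_, fun x hx => ?_, ?_⟩, hdom⟩
  · have := mul_le_mul_of_nonneg_left (hg1 x) hC
    nlinarith [mul_nonneg hC (zero_le_one.trans hL1)]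
  · rw [← mul_sub, abs_mul, abs_of_nonneg hC]
    calc C₀ * |g x - g y| ≤ C₀ * (L * |x - y|) := by gcongr; exact hgl x y
      _ = (C₀ * L) * |x - y| := by ring
      _ ≤ _ := by gcongr; linarith
  · obtain ⟨a1, a2⟩ := hgs x (right_ne_zero_of_mul hx)
    exact ⟨a1, by nlinarith [mul_nonneg hC (zero_le_one.trans hL1)]⟩
  · refine hψ.int_pos.trans_le ?_
    have hcs : HasCompactSupport fun x => C₀ * g x := by
      refine HasCompactSupport.intro (isCompact_Icc (a := c₀ / 4) (b := C₀ + 1)) fun x hx => ?_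
      by_contra h
      exact hx (hgs x (right_ne_zero_of_mul h))
    refine MeasureTheory.integral_mono_of_nonneg (Eventually.of_forall hψ.nonneg)
      ((continuous_const.mul hgc).integrable_of_hasCompactSupport hcs)
      (Eventually.of_forall fun x => ?_)
    simpa using hdom x 1 le_rfl (by norm_num)

theorem outer_Ha_nonneg (P : Finset ℕ) (R : ℝ) (a : Fin 4) : 0 ≤ Ha P R a := by
  unfold Ha
  refine Finset.sum_nonneg fun S _ => mul_nonneg ?_ ?_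
  · unfold cell ind; split_ifs <;> norm_num
  · unfold hS; exact Finset.prod_nonneg fun p _ => by positivity

theorem outer_Hs_nonneg (P : Finset ℕ) (R : ℝ) : 0 ≤ Hs P R := by
  unfold Hs
  refine Finset.sum_nonneg fun S _ => ?_
  unfold hS; exact Finset.prod_nonneg fun p _ => by positivity

theorem outer_Lstar_nonneg (P : Finset ℕ) (R : ℝ) (n : ℕ) : 0 ≤ Lstar P R n := by
  unfold Lstar
  exact Finset.sum_nonneg fun a _ => sq_nonneg _

/-- The main term of the upper bound. -/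
theorem outer_Qf {c₀ C₀ : ℝ} {ψ : ℝ → ℝ} (hψ : Wt c₀ C₀ ψ) {y : ℝ} (hy : 0 < y) (δ : ℕ → ℝ)
    (P : Finset ℕ) (R : ℝ) {h e S : ℝ} (hS : 0 ≤ S) (he : 0 ≤ e) (hH : ∀ a, Ha P R a ≤ h)
    (hm : ∀ a b, SQ ψ y δ (fun n => La P R a n * La P R b n) ≤
      ind (a = b) * Ha P R a * S + e * S) :
    SQ ψ y δ (Qf P R) ≤ h ^ 3 * (537 * h + 2148 * e) * S := by
  have hh : 0 ≤ h := (outer_Ha_nonneg P R 0).trans (hH 0)
  have e1 : Qf P R = fun n => ∑ α : Fin 3 → Fin 4, (∏ j, Ha P R (α j)) *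
      ∑ a, ∑ b, ((F3 a α : ℝ) * F3 b α) * (La P R a n * La P R b n) := by
    ext n
    unfold Qf
    refine Finset.sum_congr rfl fun α _ => ?_
    congr 1
    rw [sq, Finset.sum_mul_sum]
    refine Finset.sum_congr rfl fun a _ => Finset.sum_congr rfl fun b _ => by ring
  rw [e1, outer_SQ_sum hψ hy]
  have hF : (∑ α : Fin 3 → Fin 4, ∑ a, (F3 a α : ℝ) ^ 2) = 537 := by
    exact_mod_cast sum_F3_sq
  calc ∑ α : Fin 3 → Fin 4, SQ ψ y δ (fun n => (∏ j, Ha P R (α j)) *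
        ∑ a, ∑ b, ((F3 a α : ℝ) * F3 b α) * (La P R a n * La P R b n))
      ≤ ∑ α : Fin 3 → Fin 4, h ^ 3 * ((h + 4 * e) * S * ∑ a, (F3 a α : ℝ) ^ 2) := by
        refine Finset.sum_le_sum fun α _ => ?_
        rw [outer_SQ_mul, outer_SQ_sum hψ hy]
        have a1 : ∏ j, Ha P R (α j) ≤ h ^ 3 := by
          calc ∏ j, Ha P R (α j) ≤ ∏ _j : Fin 3, h :=
                Finset.prod_le_prod (fun j _ => outer_Ha_nonneg _ _ _) fun j _ => hH _
            _ = h ^ 3 := by simp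
        have a2 : ∑ a, SQ ψ y δ (fun n =>
            ∑ b, ((F3 a α : ℝ) * F3 b α) * (La P R a n * La P R b n)) ≤
            (h + 4 * e) * S * ∑ a, (F3 a α : ℝ) ^ 2 := by
          calc _ ≤ ∑ a, ∑ b, ((F3 a α : ℝ) * F3 b α) * (ind (a = b) * h * S + e * S) := by
                refine Finset.sum_le_sum fun a _ => ?_
                rw [outer_SQ_sum hψ hy]
                refine Finset.sum_le_sum fun b _ => ?_
                rw [outer_SQ_mul]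
                refine mul_le_mul_of_nonneg_left ((hm a b).trans ?_) (by positivity)
                have : 0 ≤ ind (a = b) := by unfold ind; split_ifs <;> norm_num
                gcongr
                exact hH a
            _ = h * S * ∑ a, (F3 a α : ℝ) ^ 2 + e * S * (∑ a, (F3 a α : ℝ)) ^ 2 := by
                simp only [Fin.sum_univ_four, ind]
                simp
                ring
            _ ≤ h * S * ∑ a, (F3 a α : ℝ) ^ 2 + e * S * (4 * ∑ a, (F3 a α : ℝ) ^ 2) := by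
                gcongr
                simpa using (sq_sum_le_card_mul_sum_sq (s := (univ : Finset (Fin 4)))
                  (f := fun a => (F3 a α : ℝ)))
            _ = _ := by ring
        calc _ ≤ (∏ j, Ha P R (α j)) * ((h + 4 * e) * S * ∑ a, (F3 a α : ℝ) ^ 2) :=
              mul_le_mul_of_nonneg_left a2 (Finset.prod_nonneg fun j _ => outer_Ha_nonneg _ _ _)
          _ ≤ _ := by gcongr
    _ = h ^ 3 * ((h + 4 * e) * S * ∑ α : Fin 3 → Fin 4, ∑ a, (F3 a α : ℝ) ^ 2) := by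
        rw [← Finset.mul_sum, ← Finset.mul_sum]
    _ = _ := by rw [hF]; ring

theorem outer_beta_one (P : Finset ℕ) {C : ℝ} (hC : 0 ≤ C) (M : ℤ) : 1 ≤ beta P C M := by
  unfold beta
  refine Finset.one_le_prod fun p _ => ?_
  split_ifs
  · have : 0 ≤ C / p := by positivity
    linarith
  · have : 0 ≤ C / (p : ℝ) ^ 2 := by positivity
    linarith

theorem outer_beta_le (P : Finset ℕ) {C : ℝ} (hC : 0 ≤ C) (G k : ℕ) (V : ℤ)
    (hP : ∀ p ∈ P, p.Prime ∧ ¬ p ∣ G) :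
    beta P C ((G * k : ℕ) * V) ≤ (∏ p ∈ P, (1 + C / (p : ℝ) ^ 2)) *
      (∏ p ∈ P with p ∣ k, (1 + C / p)) * ∏ p ∈ P with ((p : ℕ) : ℤ) ∣ V, (1 + C / p) := by
  unfold beta
  rw [Finset.prod_filter, Finset.prod_filter, ← Finset.prod_mul_distrib,
    ← Finset.prod_mul_distrib]
  refine Finset.prod_le_prod (fun p _ => by split_ifs <;> positivity) fun p hp => ?_
  obtain ⟨hpr, hG⟩ := hP p hp
  have a1 : 0 ≤ C / p := by positivity
  have a2 : 0 ≤ C / (p : ℝ) ^ 2 := by positivity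
  by_cases h : (p : ℤ) ∣ (G * k : ℕ) * V
  · rw [if_pos h]
    have hZ : Prime (p : ℤ) := Nat.prime_iff_prime_int.mp hpr
    have : p ∣ k ∨ (p : ℤ) ∣ V := by
      rcases hZ.dvd_or_dvd h with h | h
      · left
        rw [Int.natCast_dvd_natCast] at h
        exact (hpr.dvd_mul.mp h).resolve_left hG
      · exact Or.inr h
    by_cases hk : p ∣ k <;> by_cases hV : (p : ℤ) ∣ V
    · rw [if_pos hk, if_pos hV]
      nlinarith [mul_nonneg a1 a2, mul_nonneg a1 a1, mul_nonneg (mul_nonneg a1 a1) a2]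
    · rw [if_pos hk, if_neg hV]
      nlinarith [mul_nonneg a1 a2]
    · rw [if_neg hk, if_pos hV]
      nlinarith [mul_nonneg a1 a2]
    · tauto
  · rw [if_neg h]
    have b1 : (1 : ℝ) ≤ if p ∣ k then 1 + C / p else 1 := by split_ifs <;> linarith
    have b2 : (1 : ℝ) ≤ if (p : ℤ) ∣ V then 1 + C / p else 1 := by split_ifs <;> linarith
    calc 1 + C / (p : ℝ) ^ 2 = (1 + C / (p : ℝ) ^ 2) * 1 * 1 := by ring
      _ ≤ _ := by gcongr

theorem outer_prod_sq {C η : ℝ} (hC : 0 ≤ C) (hη : 0 < η) : ∃ D : ℕ, ∀ P : Finset ℕ,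
    (∀ p ∈ P, D < p) → ∏ p ∈ P, (1 + C / (p : ℝ) ^ 2) ≤ 1 + η := by
  have hl : 0 < Real.log (1 + η) := Real.log_pos (by linarith)
  obtain ⟨D, hD⟩ := exists_nat_ge (2 * C / Real.log (1 + η))
  refine ⟨D, fun P hP => ?_⟩
  have h1 : ∑ p ∈ P, ((p : ℝ) ^ 2)⁻¹ ≤ 2 / (D + 1) := by
    refine le_trans ?_ (sum_Ioo_inv_sq_le (α := ℝ) D (P.sup id + 1))
    refine Finset.sum_le_sum_of_subset_of_nonneg (fun p hp => ?_) fun _ _ _ => by positivity
    rw [Finset.mem_Ioo]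
    exact ⟨hP p hp, Nat.lt_succ_of_le (Finset.le_sup (f := id) hp)⟩
  calc ∏ p ∈ P, (1 + C / (p : ℝ) ^ 2) ≤ ∏ p ∈ P, Real.exp (C * ((p : ℝ) ^ 2)⁻¹) := by
        refine Finset.prod_le_prod (fun p _ => by positivity) fun p _ => ?_
        rw [div_eq_mul_inv, add_comm]
        exact Real.add_one_le_exp _
    _ = Real.exp (C * ∑ p ∈ P, ((p : ℝ) ^ 2)⁻¹) := by rw [← Real.exp_sum, Finset.mul_sum]
    _ ≤ Real.exp (Real.log (1 + η)) := by
        gcongr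
        rw [div_le_iff₀ hl] at hD
        calc C * ∑ p ∈ P, ((p : ℝ) ^ 2)⁻¹ ≤ C * (2 / (D + 1)) := by gcongr
          _ = 2 * C / (D + 1) := by ring
          _ ≤ _ := by
            rw [div_le_iff₀ (by positivity)]
            nlinarith
    _ = 1 + η := Real.exp_log (by linarith)

end Pool.Agent.P.MP_a1177c_nt.EK
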