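import Pool.Agent.P.MP_a1177c_nt.EK.Moments
import Pool.Agent.P.MP_a1177c_nt.EK.Lower
import Pool.Agent.P.MP_a1177c_nt.EK.BetaAvg
import Pool.Agent.P.MP_a1177c_nt.EK.OuterAux

set_option autoImplicit false

namespace Pool.Agent.P.MP_a1177c_nt.EK

open Finset Filter
open scoped Classical

theorem outer_errW_nonneg (P : Finset ℕ) (R : ℝ) {C : ℝ} (hC : 0 ≤ C) (m c : Fin 3 → ℤ)
    (G n k : ℕ) : 0 ≤ errW P R C m c G n k := by
  unfold errW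
  have h1 := outer_beta_one P hC ((G * k : ℕ) * Dv m c ((n * (G * k) : ℕ)))
  have h2 := outer_Lstar_nonneg P R k
  have h3 := outer_Hs_nonneg P R
  have h4 : 0 ≤ beta P C ((G * k : ℕ) * Dv m c ((n * (G * k) : ℕ))) - 1 := by linarith
  positivity

/-- The total contribution of the error weight. -/
theorem outer_err {c₀ C₀ c₁ C₁ : ℝ} {ψ ψ' : ℝ → ℝ} (hψ : Wt c₀ C₀ ψ) (hψ' : Wt c₁ C₁ ψ')
    (P : Finset ℕ) (R : ℝ) {C : ℝ} (hC : 0 ≤ C) (m c : Fin 3 → ℤ) (G : ℕ)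
    (Pi : Finset GaussianInt) {δ : ℕ → ℝ} (hδ : ∀ n, 0 ≤ δ n) (y : GaussianInt → ℝ)
    (hy : ∀ ϖ ∈ Pi, 0 < y ϖ) {y₀ : ℝ} (hy₀ : 0 < y₀)
    (hdom : ∀ ϖ ∈ Pi, ∀ k : ℕ, ψ (k / y ϖ) ≤ ψ' (k / y₀)) (hP : ∀ p ∈ P, p.Prime ∧ ¬ p ∣ G)
    {η H S : ℝ} (hη0 : 0 ≤ η) (hη1 : η ≤ 1) (hH : 0 ≤ H) (hS : 0 ≤ S)
    (hB : ∏ p ∈ P, (1 + C / (p : ℝ) ^ 2) ≤ 1 + η)
    (hβ : ∀ k : ℕ, ψ' (k / y₀) ≠ 0 →
      ∑ ϖ ∈ Pi, ∏ p ∈ P with ((p : ℕ) : ℤ) ∣ Dv m c ((nrm ϖ * (G * k) : ℕ)), (1 + C / p) ≤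
        (1 + η) * #Pi)
    (hHa : ∀ a, Ha P R a ≤ H) (hHs : Hs P R ≤ 2 * H)
    (h1 : ∀ a, Ha P R a * S - 2 * η * H * S ≤ SQ ψ' y₀ δ fun n => La P R a n * La P R a n)
    (h2 : ∀ a, SQ ψ' y₀ δ (fun n => La P R a n ^ 2 * ∏ p ∈ P with p ∣ n, (1 + C / p)) ≤
      (Ha P R a + 2 * η * H) * S) :
    ∑ ϖ ∈ Pi, SQ ψ (y ϖ) δ (errW P R C m c G (nrm ϖ)) ≤ 416 * C * η * H ^ 4 * S * #Pi := by
  have hHs0 := outer_Hs_nonneg P R
  calc ∑ ϖ ∈ Pi, SQ ψ (y ϖ) δ (errW P R C m c G (nrm ϖ))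
      ≤ ∑ ϖ ∈ Pi, SQ ψ' y₀ δ (errW P R C m c G (nrm ϖ)) :=
        Finset.sum_le_sum fun ϖ hϖ => outer_SQ_mono_wt hψ hψ' (hy ϖ hϖ) hy₀ hδ
          (fun k => outer_errW_nonneg P R hC m c G _ k) (hdom ϖ hϖ)
    _ = SQ ψ' y₀ δ fun k => ∑ ϖ ∈ Pi, errW P R C m c G (nrm ϖ) k :=
        (outer_SQ_sum hψ' hy₀ δ Pi fun ϖ => errW P R C m c G (nrm ϖ)).symm
    _ ≤ SQ ψ' y₀ δ fun k => (C * Hs P R ^ 3 * #Pi) * ∑ a,
          ((1 + η) ^ 2 * (La P R a k ^ 2 * ∏ p ∈ P with p ∣ k, (1 + C / p)) -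
            La P R a k * La P R a k) := by
        refine outer_SQ_mono hψ' hy₀ hδ fun k hk => ?_
        set b : ℝ := ∏ p ∈ P with p ∣ k, (1 + C / p) with hb
        have hb0 : 0 ≤ b := Finset.prod_nonneg fun p _ => by positivity
        have hL := outer_Lstar_nonneg P R k
        have e1 : ∑ a, ((1 + η) ^ 2 * (La P R a k ^ 2 * b) - La P R a k * La P R a k) =
            ((1 + η) ^ 2 * b - 1) * Lstar P R k := by
          unfold Lstar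
          rw [Finset.mul_sum]
          exact Finset.sum_congr rfl fun a _ => by ring
        rw [e1]
        have a1 : ∑ ϖ ∈ Pi, beta P C ((G * k : ℕ) * Dv m c ((nrm ϖ * (G * k) : ℕ))) ≤
            (1 + η) ^ 2 * b * #Pi := by
          calc _ ≤ ∑ ϖ ∈ Pi, (1 + η) * b *
                ∏ p ∈ P with ((p : ℕ) : ℤ) ∣ Dv m c ((nrm ϖ * (G * k) : ℕ)), (1 + C / p) := by
                refine Finset.sum_le_sum fun ϖ _ => (outer_beta_le P hC G k _ hP).trans ?_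
                refine mul_le_mul_of_nonneg_right (mul_le_mul_of_nonneg_right hB hb0) ?_
                exact Finset.prod_nonneg fun p _ => by positivity
            _ ≤ (1 + η) * b * ((1 + η) * #Pi) := by
                rw [← Finset.mul_sum]
                exact mul_le_mul_of_nonneg_left (hβ k hk) (by positivity)
            _ = _ := by ring
        calc ∑ ϖ ∈ Pi, errW P R C m c G (nrm ϖ) k
            = C * Hs P R ^ 3 * Lstar P R k *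
              (∑ ϖ ∈ Pi, beta P C ((G * k : ℕ) * Dv m c ((nrm ϖ * (G * k) : ℕ))) - #Pi) := by
              unfold errW
              rw [Finset.card_eq_sum_ones, Nat.cast_sum, ← Finset.sum_sub_distrib,
                Finset.mul_sum]
              refine Finset.sum_congr rfl fun ϖ _ => ?_
              rw [Nat.cast_one]; ring
          _ ≤ C * Hs P R ^ 3 * Lstar P R k * ((1 + η) ^ 2 * b * #Pi - #Pi) := by gcongr
          _ = _ := by ring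
    _ = (C * Hs P R ^ 3 * #Pi) * ∑ a,
          ((1 + η) ^ 2 * SQ ψ' y₀ δ (fun k => La P R a k ^ 2 * ∏ p ∈ P with p ∣ k, (1 + C / p)) -
            SQ ψ' y₀ δ fun k => La P R a k * La P R a k) := by
        rw [outer_SQ_mul, outer_SQ_sum hψ' hy₀]
        congr 1
        refine Finset.sum_congr rfl fun a _ => ?_
        rw [outer_SQ_sub hψ' hy₀, outer_SQ_mul]
    _ ≤ (C * (2 * H) ^ 3 * #Pi) * ∑ _a : Fin 4, 13 * η * H * S := by
        have a1 : ∑ a,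
            ((1 + η) ^ 2 * SQ ψ' y₀ δ (fun k => La P R a k ^ 2 * ∏ p ∈ P with p ∣ k, (1 + C / p)) -
              SQ ψ' y₀ δ fun k => La P R a k * La P R a k) ≤ ∑ _a : Fin 4, 13 * η * H * S := by
          refine Finset.sum_le_sum fun a _ => ?_
          have b1 := mul_le_mul_of_nonneg_left (h2 a) (sq_nonneg (1 + η))
          have b2 := h1 a
          have b3 := hHa a
          have b4 := outer_Ha_nonneg P R a
          have b5 : (1 + η) ^ 2 * (Ha P R a + 2 * η * H) - (Ha P R a - 2 * η * H) ≤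
              13 * η * H := by
            have d1 : η * Ha P R a ≤ η * H := by gcongr
            have d2 : η * η * Ha P R a ≤ η * 1 * H := by gcongr
            have d3 : η * η * H ≤ η * 1 * H := by gcongr
            have d4 : η * η * η * H ≤ η * 1 * 1 * H := by gcongr
            nlinarith
          have b6 := mul_le_mul_of_nonneg_right b5 hS
          nlinarith
        calc _ ≤ (C * Hs P R ^ 3 * #Pi) * ∑ _a : Fin 4, 13 * η * H * S :=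
              mul_le_mul_of_nonneg_left a1 (by positivity)
          _ ≤ _ := by gcongr
    _ = _ := by simp; ring

theorem outer_range {X y : ℝ} (hX : 1 ≤ X) (h1 : X ^ (809 / 810 : ℝ) ≤ y) (h2 : y ≤ X) :
    Rx X ^ (809 / 100 : ℝ) ≤ y ∧ y ≤ Rx X ^ (81 / 10 : ℝ) ∧ Rx X ^ 8 ≤ y ∧ y ≤ Rx X ^ 9 ∧
      Rx X ≤ y := by
  have hX0 : 0 ≤ X := by linarith
  have e : ∀ s : ℝ, Rx X ^ s = X ^ (10 / 81 * s) := fun s => by
    unfold Rx; rw [← Real.rpow_mul hX0]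
  have e8 : Rx X ^ 8 = X ^ (10 / 81 * 8 : ℝ) := by
    rw [← e]; exact (Real.rpow_ofNat _ 8).symm
  have e9 : Rx X ^ 9 = X ^ (10 / 81 * 9 : ℝ) := by
    rw [← e]; exact (Real.rpow_ofNat _ 9).symm
  refine ⟨?_, ?_, ?_, ?_, ?_⟩
  · rw [e]; norm_num; exact h1
  · rw [e]; norm_num; exact h2
  · rw [e8]
    exact (Real.rpow_le_rpow_of_exponent_le hX (by norm_num)).trans h1
  · rw [e9]
    refine h2.trans ?_
    calc X = X ^ (1 : ℝ) := (Real.rpow_one X).symm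
      _ ≤ _ := Real.rpow_le_rpow_of_exponent_le hX (by norm_num)
  · unfold Rx
    exact (Real.rpow_le_rpow_of_exponent_le hX (by norm_num)).trans h1

theorem outer_good_mono {W : ℕ} {R η η' : ℝ} {P : Finset ℕ} (h : Good W R η P) (hη : η ≤ η') :
    Good W R η' P := by
  obtain ⟨Ex, h1, h2⟩ := h
  exact ⟨Ex, h1.trans hη, h2⟩

theorem outer {c₀ C₀ : ℝ} {ψ : ℝ → ℝ} (hψ : Wt c₀ C₀ ψ) (C₁ : ℝ) (hC : 0 ≤ C₁) :
    ∃ (D : ℕ) (η₁ : ℝ), 0 < η₁ ∧ ∀ (m c : Fin 3 → ℤ) (G W q₀ : ℕ), (∀ k, c k ≠ 0) → 0 < G →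
    0 < W → 4 ∣ W → 0 < q₀ → (∀ p : ℕ, p.Prime → p ≤ D → p ∣ W) →
    (∀ p : ℕ, p.Prime → ∀ k, (p : ℤ) ∣ c k → p ∣ W) → (∀ p : ℕ, p.Prime → p ∣ G → p ∣ W) →
    ∀ ε : ℝ, 0 < ε → ε ≤ 1 / 2000 → ∃ c₁ : ℝ, 0 < c₁ ∧ ∀ᶠ X : ℝ in atTop,
    ∀ P, Good W (Rx X) η₁ P → ∀ (N : ℝ) (Pi₀ : Finset GaussianInt), X ^ ε ≤ N → N ≤ 8 * X ^ ε →
    Fam W q₀ N Pi₀ → ∀ δ, Del W δ → (∃ μ, 1 / (W : ℝ) ≤ δ (nrm μ)) →
      c₁ * X * Real.log X ^ 3 ≤ ∑ ϖ ∈ Pi₀, Q0 W (Rx X) * SQ ψ (X / (nrm ϖ * G)) δ 1 ∧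
      ∑ ϖ ∈ Pi₀, SQ ψ (X / (nrm ϖ * G)) δ
          (fun k => Qf P (Rx X) k + errW P (Rx X) C₁ m c G (nrm ϖ) k) ≤
        1.004 * ∑ ϖ ∈ Pi₀, Q0 W (Rx X) * SQ ψ (X / (nrm ϖ * G)) δ 1 ∧
      0.254 * ∑ ϖ ∈ Pi₀, Q0 W (Rx X) * SQ ψ (X / (nrm ϖ * G)) δ 1 ≤
        ∑ ϖ ∈ Pi₀, SQ ψ (X / (nrm ϖ * G)) δ
          (fun k => ind (E3 (Rx X) k) * (Qf P (Rx X) k - errW P (Rx X) C₁ m c G (nrm ϖ) k)) := by
  obtain ⟨c', C', ψ', hψ', hdom⟩ := outer_plateau hψ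
  have hI := hψ.int_pos
  have hI' := hψ'.int_pos
  obtain ⟨K, hK⟩ : ∃ K : ℝ, K = 8 * (∫ x, ψ' x) / ∫ x, ψ x := ⟨_, rfl⟩
  have hK0 : 0 < K := by rw [hK]; positivity
  obtain ⟨η, hη⟩ : ∃ η : ℝ, η = 1 / 1000000 / (C₁ * K + 1) := ⟨_, rfl⟩
  have hη0 : 0 < η := by rw [hη]; positivity
  have hη1 : η ≤ 1 / 1000000 := by
    rw [hη]; exact div_le_self (by norm_num) (by nlinarith [mul_nonneg hC hK0.le])
  have hη2 : C₁ * K * η ≤ 1 / 1000000 := by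
    rw [hη, ← mul_div_assoc, div_le_iff₀ (by positivity)]
    linarith
  obtain ⟨D1, η1, hη1', H1⟩ := moments hψ C₁ η hC hη0
  obtain ⟨D2, η2, hη2', H2⟩ := moments hψ' C₁ η hC hη0
  obtain ⟨D3, η3, hη3', H3⟩ := la_eval η hη0
  obtain ⟨D4, η4, hη4', H4⟩ := lower hψ
  obtain ⟨D5, H5⟩ := beta_avg C₁ η hC hη0
  obtain ⟨D6, H6⟩ := outer_prod_sq hC hη0
  refine ⟨D1 + D2 + D3 + D4 + D5 + D6, min (min η1 η2) (min η3 η4), by positivity,
    fun m c G W q₀ hc hG hW h4 hq hD hcW hGW ε hε hε' => ?_⟩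
  have hW' : (0 : ℝ) < W := by exact_mod_cast hW
  have hG' : (1 : ℝ) ≤ G := by exact_mod_cast hG
  have hq' : (1 : ℝ) ≤ q₀ := by exact_mod_cast hq
  have hφ : (0 : ℝ) < W.totient := by exact_mod_cast Nat.totient_pos.mpr hW
  have hd := dW_pos hW
  have hpi := Real.pi_pos
  refine ⟨537 * (Real.pi / 4 * dW W * (10 / 81) / 6) ^ 4 *
    (Real.pi * (∫ x, ψ x) / (2 * (W : ℝ) ^ 3)) / (4 * W.totient * q₀ * G), by positivity, ?_⟩
  have tR : Tendsto Rx atTop atTop := tendsto_rpow_atTop (by norm_num)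
  have tε : Tendsto (fun X : ℝ => X ^ ε) atTop atTop := tendsto_rpow_atTop hε
  have tg : Tendsto (fun X : ℝ => X ^ (1 / 810 - 1 / 2000 : ℝ)) atTop atTop :=
    tendsto_rpow_atTop (by norm_num)
  have tH : Tendsto (fun R : ℝ => Hstar W R) atTop atTop := by
    unfold Hstar
    exact Real.tendsto_log_atTop.const_mul_atTop (by positivity)
  obtain ⟨N₀, hN₀⟩ := eventually_atTop.mp (fam_card hW)
  obtain ⟨y₁, hy₁⟩ := eventually_atTop.mp ((outer_order hψ hW hη0).and (outer_order hψ' hW hη0))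
  filter_upwards [tR.eventually (H1 W hW fun p hp h => hD p hp (by omega)),
    tR.eventually (H2 W hW fun p hp h => hD p hp (by omega)),
    tR.eventually (H3 W hW fun p hp h => hD p hp (by omega)),
    tR.eventually (H4 W hW h4 fun p hp h => hD p hp (by omega)),
    H5 m c W q₀ hc hW hq (fun p hp h => hD p hp (by omega)) hcW ε hε,
    tε.eventually_ge_atTop (max (max N₀ C') 2), tg.eventually_ge_atTop (16 * q₀ * G),
    tR.eventually_ge_atTop y₁, (tH.comp tR).eventually_ge_atTop 1, eventually_ge_atTop 1]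
    with X E1 E2 E3' E4 E5 E6 E7 E8 E9 hX P hP N Pi hN1 hN2 hF δ hδ hμ
  replace E1 := E1 P (outer_good_mono hP ((min_le_left _ _).trans (min_le_left _ _)))
  replace E2 := E2 P (outer_good_mono hP ((min_le_left _ _).trans (min_le_right _ _)))
  replace E3' := E3' P (outer_good_mono hP ((min_le_right _ _).trans (min_le_left _ _)))
  replace E4 := E4 P (outer_good_mono hP ((min_le_right _ _).trans (min_le_right _ _)))
  obtain ⟨hHa, hHs, -⟩ := E3'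
  have hH1 : 1 ≤ Hstar W (Rx X) := E9
  have hX0 : 0 < X := by linarith
  have hNN₀ : N₀ ≤ N := ((le_max_left _ _).trans (le_max_left _ _)).trans (E6.trans hN1)
  have hNC : C' ≤ N := ((le_max_right _ _).trans (le_max_left _ _)).trans (E6.trans hN1)
  have hN2' : 2 ≤ N := (le_max_right _ _).trans (E6.trans hN1)
  have hN0 : 0 < N := by linarith
  have hPW : ∀ p ∈ P, p.Prime ∧ ¬ p ∣ W := by
    obtain ⟨Ex, -, -, h⟩ := hP
    intro p hp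
    exact ⟨((h p).mp hp).1, ((h p).mp hp).2.2.2.1⟩
  have hbig : 2 * (q₀ * N * G) ≤ X ^ (1 / 810 : ℝ) := by
    have a1 : X ^ ε ≤ X ^ (1 / 2000 : ℝ) := Real.rpow_le_rpow_of_exponent_le hX hε'
    calc 2 * (q₀ * N * G) ≤ 2 * (q₀ * (8 * X ^ (1 / 2000 : ℝ)) * G) := by
          gcongr; linarith
      _ = 16 * q₀ * G * X ^ (1 / 2000 : ℝ) := by ring
      _ ≤ X ^ (1 / 810 - 1 / 2000 : ℝ) * X ^ (1 / 2000 : ℝ) := by gcongr
      _ = _ := by rw [← Real.rpow_add hX0]; norm_num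
  have hqN : N ≤ q₀ * N * G := by
    calc N = 1 * N * 1 := by ring
      _ ≤ _ := by gcongr
  have hNX : N ≤ X := by
    have a1 : X ^ (1 / 810 : ℝ) ≤ X ^ (1 : ℝ) := Real.rpow_le_rpow_of_exponent_le hX (by norm_num)
    rw [Real.rpow_one] at a1
    linarith
  obtain ⟨y₀, hy₀⟩ : ∃ y₀ : ℝ, y₀ = X / (q₀ * N * G) := ⟨_, rfl⟩
  have hy₀0 : 0 < y₀ := by rw [hy₀]; positivity
  have hlow : X ^ (809 / 810 : ℝ) ≤ y₀ / 2 := by
    rw [hy₀, div_div, le_div_iff₀ (by positivity)]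
    calc X ^ (809 / 810 : ℝ) * (q₀ * N * G * 2) ≤ X ^ (809 / 810 : ℝ) * X ^ (1 / 810 : ℝ) := by
          gcongr; linarith
      _ = X := by rw [← Real.rpow_add hX0]; norm_num
  have hup : y₀ ≤ X := by rw [hy₀]; exact div_le_self hX0.le (by linarith)
  have hy : ∀ ϖ ∈ Pi, y₀ / 2 ≤ X / (nrm ϖ * G) ∧ X / (nrm ϖ * G) ≤ y₀ := by
    intro ϖ hϖ
    obtain ⟨p, -, h1, h2, -, h3⟩ := hF.mem ϖ hϖ
    have hp0 : (0 : ℝ) < p := by linarith
    rw [h3, hy₀, div_div]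
    push_cast
    constructor
    · refine div_le_div_of_nonneg_left hX0.le (by positivity) ?_
      calc (q₀ : ℝ) * p * G ≤ q₀ * (2 * N) * G := by gcongr
        _ = _ := by ring
    · gcongr
  have hy0 : ∀ ϖ ∈ Pi, 0 < X / (nrm ϖ * G) := fun ϖ hϖ => by linarith [(hy ϖ hϖ).1]
  have hr : ∀ ϖ ∈ Pi, _ := fun ϖ hϖ =>
    outer_range hX (hlow.trans (hy ϖ hϖ).1) ((hy ϖ hϖ).2.trans hup)
  have hr₀ := outer_range hX (hlow.trans (by linarith : y₀ / 2 ≤ y₀)) hup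
  have ho : ∀ ϖ ∈ Pi, _ := fun ϖ hϖ => (hy₁ _ (E8.trans (hr ϖ hϖ).2.2.2.2)).1 δ hδ hμ
  have ho₀ := (hy₁ _ (E8.trans hr₀.2.2.2.2)).2 δ hδ hμ
  have hk := outer_kap_low hW hδ hμ
  have hk0 : 0 < kap W δ := lt_of_lt_of_le (by positivity) hk
  obtain ⟨H, hH⟩ : ∃ H : ℝ, H = Hstar W (Rx X) := ⟨_, rfl⟩
  have hQ : Q0 W (Rx X) = 537 * (H / 6) ^ 4 := by rw [hH]; rfl
  rw [← hH] at E1 E2 hHa hHs hH1
  have hH0 : 0 < H := by linarith
  have hS : ∀ ϖ ∈ Pi, 0 < SQ ψ (X / (nrm ϖ * G)) δ 1 := fun ϖ hϖ =>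
    lt_of_lt_of_le (by have := hy0 ϖ hϖ; positivity) (ho ϖ hϖ).1
  have hS₀ : 0 < SQ ψ' y₀ δ 1 := lt_of_lt_of_le (by positivity) ho₀.1
  have hcmp : ∀ ϖ ∈ Pi, SQ ψ' y₀ δ 1 ≤ K * SQ ψ (X / (nrm ϖ * G)) δ 1 := by
    intro ϖ hϖ
    calc SQ ψ' y₀ δ 1 ≤ 2 * (kap W δ * (Real.pi * y₀ * ∫ x, ψ' x)) := ho₀.2.1
      _ = K * (kap W δ * (Real.pi * (y₀ / 2) * ∫ x, ψ x) / 2) := by
          rw [hK]; field_simp; ring
      _ ≤ K * (kap W δ * (Real.pi * (X / (nrm ϖ * G)) * ∫ x, ψ x) / 2) := by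
          have b1 := (hy ϖ hϖ).1
          generalize X / (nrm ϖ * G) = z at b1
          gcongr
      _ ≤ _ := mul_le_mul_of_nonneg_left (ho ϖ hϖ).1 hK0.le
  have hHa' : ∀ a, Ha P (Rx X) a ≤ (1 / 6 + η) * H := fun a => by
    have := (abs_le.mp (hHa a)).2
    linarith
  have hsm : ∀ S t : ℝ, 0 < S → t ≤ η * S → t ≤ η * H * S := fun S t h1 h2 => by
    calc t ≤ η * 1 * S := by linarith
      _ ≤ _ := by gcongr
  have hmain : ∀ ϖ ∈ Pi, SQ ψ (X / (nrm ϖ * G)) δ (Qf P (Rx X)) ≤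
      1.002 * (Q0 W (Rx X) * SQ ψ (X / (nrm ϖ * G)) δ 1) := by
    intro ϖ hϖ
    have a1 := (E1 _ (hr ϖ hϖ).2.2.1 (hr ϖ hϖ).2.2.2.1 δ hδ).1
    have a2 := hsm _ _ (hS ϖ hϖ) (ho ϖ hϖ).2.2
    have a3 := outer_Qf hψ (hy0 ϖ hϖ) δ P (Rx X) (hS ϖ hϖ).le
      (e := 2 * η * H) (by positivity) hHa' fun a b => by
        have := (abs_le.mp (a1 a b)).2
        linarith
    refine a3.trans ?_
    rw [hQ, ← mul_assoc (1.002 : ℝ)]
    refine mul_le_mul_of_nonneg_right ?_ (hS ϖ hϖ).le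
    calc ((1 / 6 + η) * H) ^ 3 * (537 * ((1 / 6 + η) * H) + 2148 * (2 * η * H))
        ≤ ((1 / 6 + 1 / 1000000) * H) ^ 3 *
          (537 * ((1 / 6 + 1 / 1000000) * H) + 2148 * (2 * (1 / 1000000) * H)) := by gcongr
      _ = ((1 / 6 + 1 / 1000000) ^ 3 *
          (537 * (1 / 6 + 1 / 1000000) + 2148 * (2 * (1 / 1000000)))) * H ^ 4 := by ring
      _ ≤ (1.002 * (537 / 6 ^ 4)) * H ^ 4 :=
          mul_le_mul_of_nonneg_right (by norm_num) (by positivity)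
      _ = _ := by ring
  have herr : ∑ ϖ ∈ Pi, SQ ψ (X / (nrm ϖ * G)) δ (errW P (Rx X) C₁ m c G (nrm ϖ)) ≤
      0.002 * ∑ ϖ ∈ Pi, Q0 W (Rx X) * SQ ψ (X / (nrm ϖ * G)) δ 1 := by
    obtain ⟨a1, a2⟩ := E2 _ hr₀.2.2.1 hr₀.2.2.2.1 δ hδ
    have a3 := hsm _ _ hS₀ ho₀.2.2
    have a4 := outer_err hψ hψ' P (Rx X) hC m c G Pi hδ.nonneg (fun ϖ => X / (nrm ϖ * G)) hy0
      hy₀0 (fun ϖ hϖ k => by
        have b1 := hy ϖ hϖ
        have b2 := hy0 ϖ hϖ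
        have b3 := hdom (k / y₀) (y₀ / (X / (nrm ϖ * G))) ((one_le_div b2).mpr b1.2)
          ((div_le_iff₀ b2).mpr (by linarith [b1.1]))
        have b4 : y₀ / (X / (nrm ϖ * G)) * (k / y₀) = k / (X / (nrm ϖ * G)) := by
          generalize X / (nrm ϖ * G) = z at b2
          field_simp
        rwa [b4] at b3)
      (fun p hp => ⟨(hPW p hp).1, fun h => (hPW p hp).2 (hGW p (hPW p hp).1 h)⟩)
      hη0.le (by linarith) hH0.le hS₀.le
      (H6 P fun p hp => by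
        by_contra h
        exact (hPW p hp).2 (hD p (hPW p hp).1 (by omega)))
      (fun k hk => E5 N hN1 hNX Pi hF P hPW (G * k) (by
        have b1 := (hψ'.supp _ hk).2
        rw [div_le_iff₀ hy₀0] at b1
        push_cast
        calc (G : ℝ) * k ≤ G * (N * y₀) := by
              gcongr
              exact b1.trans (by gcongr)
          _ = X / q₀ := by rw [hy₀]; field_simp
          _ ≤ X := div_le_self hX0.le hq'))
      (fun a => (hHa' a).trans (by nlinarith)) hHs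
      (fun a => by
        have b1 := (abs_le.mp (a1 a a)).1
        have b2 : ind (a = a) = 1 := by simp [ind]
        rw [b2] at b1
        linarith)
      (fun a => by
        have b1 := a2 a
        linarith)
    refine a4.trans ?_
    calc 416 * C₁ * η * H ^ 4 * SQ ψ' y₀ δ 1 * #Pi
        = ∑ _ϖ ∈ Pi, 416 * C₁ * η * H ^ 4 * SQ ψ' y₀ δ 1 := by simp [mul_comm]
      _ ≤ ∑ ϖ ∈ Pi, 0.002 * (Q0 W (Rx X) * SQ ψ (X / (nrm ϖ * G)) δ 1) := by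
          refine Finset.sum_le_sum fun ϖ hϖ => ?_
          have b1 := hS ϖ hϖ
          calc 416 * C₁ * η * H ^ 4 * SQ ψ' y₀ δ 1
              ≤ 416 * C₁ * η * H ^ 4 * (K * SQ ψ (X / (nrm ϖ * G)) δ 1) := by
                gcongr; exact hcmp ϖ hϖ
            _ = 416 * (C₁ * K * η) * (H ^ 4 * SQ ψ (X / (nrm ϖ * G)) δ 1) := by ring
            _ ≤ 416 * (1 / 1000000) * (H ^ 4 * SQ ψ (X / (nrm ϖ * G)) δ 1) := by gcongr
            _ ≤ (0.002 * (537 / 6 ^ 4)) * (H ^ 4 * SQ ψ (X / (nrm ϖ * G)) δ 1) :=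
                mul_le_mul_of_nonneg_right (by norm_num) (by positivity)
            _ = _ := by rw [hQ]; ring
      _ = _ := by rw [← Finset.mul_sum]
  refine ⟨?_, ?_, ?_⟩
  · have hlogX : 0 < Real.log X := Real.log_pos (by linarith)
    have hlogN : 0 < Real.log N := Real.log_pos (by linarith)
    have hlog : Real.log N ≤ Real.log X := Real.log_le_log hN0 hNX
    have hcard := (hN₀ N hNN₀ q₀ hq Pi hF).1
    have hH' : H = Real.pi / 4 * dW W * (10 / 81) * Real.log X := by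
      rw [hH]; unfold Hstar Rx; rw [Real.log_rpow hX0]; ring
    have hQ0 : 0 < Q0 W (Rx X) := by rw [hQ]; positivity
    calc _ = N / (2 * W.totient * Real.log X) * (Q0 W (Rx X) *
          (1 / (W : ℝ) ^ 3 * (Real.pi * (y₀ / 2) * ∫ x, ψ x) / 2)) := by
          rw [hQ, hH', hy₀]; field_simp; ring
      _ ≤ #Pi * (Q0 W (Rx X) * (1 / (W : ℝ) ^ 3 * (Real.pi * (y₀ / 2) * ∫ x, ψ x) / 2)) := by
          gcongr
          refine le_trans ?_ hcard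
          gcongr
      _ = ∑ _ϖ ∈ Pi, Q0 W (Rx X) *
          (1 / (W : ℝ) ^ 3 * (Real.pi * (y₀ / 2) * ∫ x, ψ x) / 2) := by simp
      _ ≤ _ := by
          refine Finset.sum_le_sum fun ϖ hϖ => mul_le_mul_of_nonneg_left ?_ hQ0.le
          refine le_trans ?_ (ho ϖ hϖ).1
          have b1 := (hy ϖ hϖ).1
          generalize X / (nrm ϖ * G) = z at b1
          gcongr
  · calc _ = ∑ ϖ ∈ Pi, SQ ψ (X / (nrm ϖ * G)) δ (Qf P (Rx X)) +
          ∑ ϖ ∈ Pi, SQ ψ (X / (nrm ϖ * G)) δ (errW P (Rx X) C₁ m c G (nrm ϖ)) := by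
          rw [← Finset.sum_add_distrib]
          exact Finset.sum_congr rfl fun ϖ hϖ => outer_SQ_add hψ (hy0 ϖ hϖ) δ _ _
      _ ≤ ∑ ϖ ∈ Pi, 1.002 * (Q0 W (Rx X) * SQ ψ (X / (nrm ϖ * G)) δ 1) +
          0.002 * ∑ ϖ ∈ Pi, Q0 W (Rx X) * SQ ψ (X / (nrm ϖ * G)) δ 1 :=
          add_le_add (Finset.sum_le_sum hmain) herr
      _ = _ := by rw [← Finset.mul_sum Pi _ (1.002 : ℝ), ← add_mul]; norm_num
  · calc _ = ∑ ϖ ∈ Pi, 0.256 * (Q0 W (Rx X) * SQ ψ (X / (nrm ϖ * G)) δ 1) -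
          0.002 * ∑ ϖ ∈ Pi, Q0 W (Rx X) * SQ ψ (X / (nrm ϖ * G)) δ 1 := by
          rw [← Finset.mul_sum Pi _ (0.256 : ℝ), ← sub_mul]; norm_num
      _ ≤ ∑ ϖ ∈ Pi, SQ ψ (X / (nrm ϖ * G)) δ (fun k => ind (E3 (Rx X) k) * Qf P (Rx X) k) -
          ∑ ϖ ∈ Pi, SQ ψ (X / (nrm ϖ * G)) δ (errW P (Rx X) C₁ m c G (nrm ϖ)) :=
          sub_le_sub (Finset.sum_le_sum fun ϖ hϖ => E4 _ (hr ϖ hϖ).1 (hr ϖ hϖ).2.1 δ hδ) herr
      _ ≤ _ := by
          rw [← Finset.sum_sub_distrib]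
          refine Finset.sum_le_sum fun ϖ hϖ => ?_
          rw [← outer_SQ_sub hψ (hy0 ϖ hϖ)]
          refine outer_SQ_mono hψ (hy0 ϖ hϖ) hδ.nonneg fun k _ => ?_
          have b1 := outer_errW_nonneg P (Rx X) hC m c G (nrm ϖ) k
          unfold ind
          split_ifs <;> linarith

end Pool.Agent.P.MP_a1177c_nt.EK
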