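import Pool.Agent.P.MP_a1177c_nt.EK.Dens
import Pool.Agent.P.MP_a1177c_nt.EK.Lattice
import Pool.Agent.Lib.PNT.PrimeSums

set_option autoImplicit false

namespace Pool.Agent.P.MP_a1177c_nt.EK

open Finset Filter Topology
open scoped Classical

/-- Primes `≡ 1 (mod 4)` in `(x, x']`. -/
noncomputable def primeSumPS (x x' : ℝ) : Finset ℕ :=
  (Ioc ⌊x⌋₊ ⌊x'⌋₊).filter fun p => p.Prime ∧ p % 4 = 1

lemma primeSum_mem {x x' : ℝ} (hx : 0 ≤ x) (hx' : 0 ≤ x') {p : ℕ} :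
    p ∈ primeSumPS x x' ↔ x < p ∧ (p : ℝ) ≤ x' ∧ p.Prime ∧ p % 4 = 1 := by
  unfold primeSumPS
  rw [mem_filter, mem_Ioc, Nat.floor_lt hx, Nat.le_floor_iff hx', and_assoc]

lemma primeSum_block (η : ℝ) (hη : 0 < η) : ∀ᶠ K : ℝ in atTop,
    (1 - η) / 2 * (Real.log 2 / Real.log (2 * K)) ≤ ∑ p ∈ primeSumPS K (2 * K), (1 / p : ℝ) := by
  have h := Pool.Agent.Lib.PNT.prime_sum_AP_tendsto (q := 4) (r := 1) isUnit_one (α := 1) (β := 2)
    zero_le_one (by norm_num) (f := fun t => t⁻¹) (M := 1)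
    (fun x hx => by
      rw [abs_of_pos (inv_pos.2 (by linarith [hx.1]))]
      exact inv_le_one_of_one_le₀ hx.1.le)
    (Filter.Eventually.of_forall fun x hx => continuousAt_inv₀ (by linarith [hx.1]))
  have e : ∫ x in (1 : ℝ)..2, x⁻¹ = Real.log 2 := by
    rw [integral_inv_of_pos (by norm_num) (by norm_num)]; norm_num
  have e4 : ((Nat.totient 4 : ℕ) : ℝ) = 2 := by
    have : Nat.totient 4 = 2 := by decide
    rw [this]; norm_num
  rw [e, e4] at h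
  have hl2 : 0 < Real.log 2 := Real.log_pos (by norm_num)
  have hlt : (1 - η) / 2 * Real.log 2 < (2 : ℝ)⁻¹ * Real.log 2 := by nlinarith
  filter_upwards [h.eventually (lt_mem_nhds hlt), eventually_ge_atTop 1] with K hK hK1
  have hK0 : 0 < K := by linarith
  have hl : 0 < Real.log (2 * K) := Real.log_pos (by linarith)
  rw [one_mul] at hK
  have hset : (Ioc ⌊K⌋₊ ⌊2 * K⌋₊).filter (fun p : ℕ => p.Prime ∧ (p : ZMod 4) = 1) =
      primeSumPS K (2 * K) := by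
    unfold primeSumPS
    refine filter_congr fun p _ => and_congr_right fun _ => ?_
    rw [show (1 : ZMod 4) = ((1 : ℕ) : ZMod 4) by simp, ZMod.natCast_eq_natCast_iff']
  rw [hset, sum_div] at hK
  rw [← mul_div_assoc, div_le_iff₀ hl, sum_mul]
  refine hK.le.trans (sum_le_sum fun p hp => ?_)
  obtain ⟨h1, h2, h3, -⟩ := (primeSum_mem hK0.le (by linarith)).1 hp
  have hp0 : (0 : ℝ) < p := by linarith
  have : Real.log p ≤ Real.log (2 * K) := Real.log_le_log hp0 h2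
  calc ((p : ℝ) / K)⁻¹ * Real.log p / K = 1 / p * Real.log p := by field_simp
    _ ≤ 1 / p * Real.log (2 * K) := by gcongr

lemma primeSum_split {x y z : ℝ} (hxy : x ≤ y) (hyz : y ≤ z) :
    ∑ p ∈ primeSumPS x z, (1 / p : ℝ) =
      ∑ p ∈ primeSumPS x y, (1 / p : ℝ) + ∑ p ∈ primeSumPS y z, (1 / p : ℝ) := by
  unfold primeSumPS
  simp only [sum_filter]
  rw [sum_Ioc_consecutive _ (Nat.floor_mono hxy) (Nat.floor_mono hyz)]

lemma primeSum_dyadic (η : ℝ) (hη : 0 < η) (hη1 : η ≤ 1) : ∀ᶠ x : ℝ in atTop, ∀ n : ℕ,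
    (1 - η) / 2 * (Real.log (Real.log x + (n + 1) * Real.log 2) -
      Real.log (Real.log x + Real.log 2)) ≤ ∑ p ∈ primeSumPS x (2 ^ n * x), (1 / p : ℝ) := by
  obtain ⟨K₀, hK₀⟩ := eventually_atTop.1 (primeSum_block η hη)
  filter_upwards [eventually_ge_atTop K₀, eventually_ge_atTop 1] with x hx hx1 n
  have hl2 : 0 < Real.log 2 := Real.log_pos (by norm_num)
  have hlx : 0 ≤ Real.log x := Real.log_nonneg hx1
  induction n with
  | zero => simp [primeSumPS]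
  | succ n ih =>
    have h2 : (1 : ℝ) ≤ 2 ^ n := one_le_pow₀ (by norm_num)
    have hle : x ≤ 2 ^ n * x := by nlinarith
    rw [primeSum_split (y := 2 ^ n * x) hle (by rw [pow_succ]; nlinarith)]
    have hb := hK₀ (2 ^ n * x) (hx.trans hle)
    rw [show (2 : ℝ) * (2 ^ n * x) = 2 ^ (n + 1) * x by ring] at hb
    have hlog : Real.log (2 ^ (n + 1) * x) = Real.log x + (n + 1) * Real.log 2 := by
      rw [Real.log_mul (by positivity) (by positivity), Real.log_pow]; push_cast; ring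
    rw [hlog] at hb
    set A := Real.log x + (n + 1) * Real.log 2 with hA
    have hA0 : 0 < A := by positivity
    have hstep : Real.log (Real.log x + ((n + 1 : ℕ) + 1) * Real.log 2) - Real.log A ≤
        Real.log 2 / A := by
      have e : Real.log x + ((n + 1 : ℕ) + 1) * Real.log 2 = A + Real.log 2 := by
        rw [hA]; push_cast; ring
      rw [e, ← Real.log_div (by positivity) hA0.ne']
      have := Real.log_le_sub_one_of_pos (show 0 < (A + Real.log 2) / A by positivity)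
      refine this.trans (le_of_eq ?_)
      field_simp; ring
    have h1 : 0 ≤ (1 - η) / 2 := by linarith
    nlinarith [mul_le_mul_of_nonneg_left hstep h1]

lemma primeSum_log_ratio {i : ℝ} (hi : 0 < i) : 2 / (2 * i + 1) ≤ Real.log ((i + 1) / i) := by
  have h := Real.le_log_one_add_of_nonneg (x := 1 / i) (by positivity)
  have e1 : 1 + 1 / i = (i + 1) / i := by field_simp
  have e2 : 2 * (1 / i) / (1 / i + 2) = 2 / (2 * i + 1) := by field_simp; ring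
  rw [e1, e2] at h
  exact h

lemma primeSum_cell (η : ℝ) (hη : 0 < η) (hη1 : η ≤ 1) (i : ℕ) (hi : 1 ≤ i) : ∀ᶠ R : ℝ in atTop,
    (1 - η) / (2 * (i : ℝ) + 1) ≤
      ∑ p ∈ primeSumPS (R ^ ((i : ℝ) / 72)) (R ^ (((i : ℝ) + 1) / 72)), (1 / p : ℝ) := by
  have hi' : (1 : ℝ) ≤ i := by exact_mod_cast hi
  have ht : Tendsto (fun R : ℝ => R ^ ((i : ℝ) / 72)) atTop atTop :=
    tendsto_rpow_atTop (by positivity)
  have hl2 : 0 < Real.log 2 := Real.log_pos (by norm_num)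
  filter_upwards [ht.eventually (primeSum_dyadic (η / 2) (by linarith) (by linarith)),
    eventually_gt_atTop 1, (Real.tendsto_log_atTop.comp ht).eventually_ge_atTop
      (Real.log 2 * (2 * (i : ℝ) + 1) / η)] with R hR hR1 hL
  simp only [Function.comp] at hL
  set x := R ^ ((i : ℝ) / 72) with hx
  set x' := R ^ (((i : ℝ) + 1) / 72) with hx'
  have hR0 : 0 < R := by linarith
  have hlR : 0 < Real.log R := Real.log_pos hR1
  have hx0 : 0 < x := Real.rpow_pos_of_pos hR0 _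
  have hx'0 : 0 < x' := Real.rpow_pos_of_pos hR0 _
  have hlx : Real.log x = (i : ℝ) / 72 * Real.log R := Real.log_rpow hR0 _
  have hlx' : Real.log x' = ((i : ℝ) + 1) / 72 * Real.log R := Real.log_rpow hR0 _
  have hlx0 : 0 < Real.log x := by rw [hlx]; positivity
  set n := ⌊(Real.log x' - Real.log x) / Real.log 2⌋₊ with hn
  have hd : 0 ≤ (Real.log x' - Real.log x) / Real.log 2 := by
    rw [hlx, hlx']; apply div_nonneg _ hl2.le; nlinarith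
  have hn1 : (n : ℝ) * Real.log 2 ≤ Real.log x' - Real.log x :=
    (le_div_iff₀ hl2).1 (Nat.floor_le hd)
  have hn2 : Real.log x' - Real.log x < (n + 1) * Real.log 2 :=
    (div_lt_iff₀ hl2).1 (Nat.lt_floor_add_one _)
  have hle : 2 ^ n * x ≤ x' := by
    rw [← Real.log_le_log_iff (by positivity) hx'0, Real.log_mul (by positivity) hx0.ne',
      Real.log_pow]
    linarith
  have h2 : (1 : ℝ) ≤ 2 ^ n := one_le_pow₀ (by norm_num)
  rw [primeSum_split (y := 2 ^ n * x) (by nlinarith) hle]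
  have h3 : 0 ≤ ∑ p ∈ primeSumPS (2 ^ n * x) x', (1 / p : ℝ) :=
    sum_nonneg fun p _ => by positivity
  have h4 := hR n
  have h5 : Real.log (Real.log x') ≤ Real.log (Real.log x + (n + 1) * Real.log 2) :=
    Real.log_le_log (by rw [hlx']; positivity) (by linarith)
  have h6 : Real.log (Real.log x + Real.log 2) ≤ Real.log (Real.log x) + Real.log 2 / Real.log x := by
    have := Real.log_le_sub_one_of_pos (show 0 < (Real.log x + Real.log 2) / Real.log x by positivity)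
    rw [Real.log_div (by positivity) hlx0.ne'] at this
    have e : (Real.log x + Real.log 2) / Real.log x - 1 = Real.log 2 / Real.log x := by
      field_simp; ring
    linarith
  have h7 : Real.log (Real.log x') - Real.log (Real.log x) = Real.log (((i : ℝ) + 1) / i) := by
    rw [← Real.log_div (by rw [hlx']; positivity) hlx0.ne', hlx, hlx']
    congr 1; field_simp
  have h8 := primeSum_log_ratio (i := (i : ℝ)) (by linarith)
  have h9 : Real.log 2 / Real.log x ≤ η / (2 * (i : ℝ) + 1) := by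
    rw [div_le_div_iff₀ hlx0 (by positivity)]
    rw [div_le_iff₀ hη] at hL
    linarith
  have h10 : (2 - η) / (2 * (i : ℝ) + 1) ≤ Real.log (Real.log x + (n + 1) * Real.log 2) -
      Real.log (Real.log x + Real.log 2) := by
    rw [sub_div]; linarith
  have h11 : 0 ≤ (1 - η / 2) / 2 := by linarith
  have h12 := mul_le_mul_of_nonneg_left h10 h11
  have h13 : (1 - η) / (2 * (i : ℝ) + 1) ≤ (1 - η / 2) / 2 * ((2 - η) / (2 * (i : ℝ) + 1)) := by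
    rw [← mul_div_assoc]
    apply div_le_div_of_nonneg_right _ (by positivity)
    nlinarith
  linarith

lemma primeSum_le {c₀ C₀ : ℝ} {ψ : ℝ → ℝ} (hψ : Wt c₀ C₀ ψ) : c₀ ≤ C₀ := by
  by_contra h
  have : ψ = fun _ => 0 := by
    funext x
    by_contra hx
    have := hψ.supp x hx
    linarith [this.1, this.2]
  have h2 := hψ.int_pos
  rw [this] at h2
  simp at h2

lemma primeSum_third {c₀ C₀ : ℝ} {ψ : ℝ → ℝ} (hψ : Wt c₀ C₀ ψ) {W : ℕ} (hW : 0 < W)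
    (η : ℝ) (hη : 0 < η) : ∀ᶠ K : ℝ in atTop, ∀ r : (ZMod W)ˣ,
    (1 - η) * ((∫ x, ψ x) / W.totient) * K ≤
      ∑ p ∈ (Ioc ⌊c₀ / 2 * K⌋₊ ⌊C₀ * K⌋₊).filter (fun p : ℕ => p.Prime ∧ (p : ZMod W) = r),
        ψ (p / K) * Real.log p := by
  have : NeZero W := ⟨hW.ne'⟩
  rw [eventually_all]
  intro r
  have hc := hψ.pos
  have hcC := primeSum_le hψ
  have hcont : Continuous ψ := by
    refine (LipschitzWith.of_dist_le_mul (K := ⟨C₀, by linarith⟩) fun x y => ?_).continuous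
    exact hψ.lip x y
  have h := Pool.Agent.Lib.PNT.prime_sum_AP_tendsto (q := W) (r := (r : ZMod W)) r.isUnit
    (α := c₀ / 2) (β := C₀) (by linarith) (by linarith) (f := ψ) (M := C₀)
    (fun x _ => by rw [abs_of_nonneg (hψ.nonneg x)]; exact hψ.le x)
    (Filter.Eventually.of_forall fun x _ => hcont.continuousAt)
  have e : ∫ x in (c₀ / 2)..C₀, ψ x = ∫ x, ψ x :=
    intervalIntegral.integral_eq_integral_of_support_subset fun x hx =>
      ⟨by linarith [(hψ.supp x hx).1], (hψ.supp x hx).2⟩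
  rw [e] at h
  have hI := hψ.int_pos
  have hT : (0 : ℝ) < W.totient := by exact_mod_cast Nat.totient_pos.2 hW
  have hlt : (1 - η) * ((∫ x, ψ x) / W.totient) < (W.totient : ℝ)⁻¹ * ∫ x, ψ x := by
    have : 0 < (∫ x, ψ x) / W.totient := by positivity
    rw [inv_mul_eq_div]; nlinarith
  filter_upwards [h.eventually (lt_mem_nhds hlt), eventually_gt_atTop 0] with K hK hK0
  exact ((lt_div_iff₀ hK0).1 hK).le

lemma primeSum_finite (N : ℝ) : {μ : GaussianInt | (nrm μ : ℝ) ≤ N}.Finite := by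
  refine (Set.Finite.image (fun v : ℤ × ℤ => (⟨v.1, v.2⟩ : GaussianInt))
    ((Set.finite_Icc (-⌈N⌉) ⌈N⌉).prod (Set.finite_Icc (-⌈N⌉) ⌈N⌉))).subset fun μ hμ => ?_
  have h1 : (nrm μ : ℤ) = μ.re ^ 2 + μ.im ^ 2 := by
    unfold nrm
    rw [Int.natAbs_of_nonneg (GaussianInt.norm_nonneg μ), Zsqrtd.norm_def]; ring
  have h2 : (nrm μ : ℤ) ≤ ⌈N⌉ := by
    have : ((nrm μ : ℤ) : ℝ) ≤ ⌈N⌉ := by
      push_cast; exact le_trans hμ (Int.le_ceil N)
    exact_mod_cast this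
  refine ⟨(μ.re, μ.im), ⟨⟨?_, ?_⟩, ⟨?_, ?_⟩⟩, rfl⟩ <;> simp only <;> nlinarith [sq_nonneg μ.re,
    sq_nonneg μ.im, sq_nonneg (μ.re + 1), sq_nonneg (μ.re - 1), sq_nonneg (μ.im + 1),
    sq_nonneg (μ.im - 1)]

lemma primeSum_tsum (F : ℕ → ℝ) (hF : ∀ n, 0 ≤ F n) (N : ℝ) (hN : ∀ n, F n ≠ 0 → (n : ℝ) ≤ N)
    (T : Finset ℕ) (hT : ∀ n ∈ T, {μ : GaussianInt | nrm μ = n}.ncard = 32) :
    ∑ n ∈ T, 32 * F n ≤ ∑' μ : GaussianInt, F (nrm μ) := by
  have hs : Summable fun μ : GaussianInt => F (nrm μ) :=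
    summable_of_hasFiniteSupport ((primeSum_finite N).subset fun μ hμ => hN _ hμ)
  have hfin : ∀ n : ℕ, {μ : GaussianInt | nrm μ = n}.Finite := fun n =>
    (primeSum_finite n).subset fun μ hμ => by
      exact (congrArg (Nat.cast : ℕ → ℝ) (show nrm μ = n from hμ)).le
  refine le_trans (le_of_eq ?_) (hs.sum_le_tsum (T.biUnion fun n => (hfin n).toFinset)
    fun μ _ => hF _)
  rw [sum_biUnion]
  · refine sum_congr rfl fun n hn => ?_
    rw [sum_congr rfl (g := fun _ => F n) (fun μ hμ => by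
      rw [Set.Finite.mem_toFinset] at hμ; rw [show nrm μ = n from hμ]), sum_const,
      ← Set.ncard_eq_toFinset_card _ (hfin n), hT n hn]
    simp
  · intro n _ m _ hnm
    refine Finset.disjoint_left.2 fun μ h1 h2 => hnm ?_
    rw [Set.Finite.mem_toFinset] at h1 h2
    exact (show nrm μ = n from h1).symm.trans h2

lemma primeSum_inj {p₁ p₂ p₃ q₁ q₂ q₃ : ℕ} (hp₂ : p₂.Prime) (hp₃ : p₃.Prime) (hp₁ : p₁.Prime)
    (hq₁ : q₁.Prime) (hq₂ : q₂.Prime) (hq₃ : q₃.Prime) (a1 : p₁ < p₂) (a2 : p₂ < p₃)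
    (b1 : q₁ < q₂) (b2 : q₂ < q₃) (h : p₁ * p₂ * p₃ = q₁ * q₂ * q₃) :
    p₁ = q₁ ∧ p₂ = q₂ ∧ p₃ = q₃ := by
  have key : ∀ {a x y z : ℕ}, a.Prime → x.Prime → y.Prime → z.Prime → x < y → y < z →
      a ∣ x * y * z → a ≤ z := by
    intro a x y z ha hx hy hz hxy hyz hd
    rcases (ha.dvd_mul).1 hd with h1 | h1
    · rcases (ha.dvd_mul).1 h1 with h2 | h2
      · have := Nat.le_of_dvd hx.pos h2; omega
      · have := Nat.le_of_dvd hy.pos h2; omega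
    · exact Nat.le_of_dvd hz.pos h1
  have key2 : ∀ {a x y : ℕ}, a.Prime → x.Prime → y.Prime → x < y → a ∣ x * y → a ≤ y := by
    intro a x y ha hx hy hxy hd
    rcases (ha.dvd_mul).1 hd with h2 | h2
    · have := Nat.le_of_dvd hx.pos h2; omega
    · exact Nat.le_of_dvd hy.pos h2
  have e3 : p₃ = q₃ := le_antisymm (key hp₃ hq₁ hq₂ hq₃ b1 b2 (h ▸ Dvd.intro_left _ rfl))
    (key hq₃ hp₁ hp₂ hp₃ a1 a2 (h ▸ Dvd.intro_left _ rfl))
  subst e3
  have h' : p₁ * p₂ = q₁ * q₂ := Nat.eq_of_mul_eq_mul_right hp₃.pos h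
  have e2 : p₂ = q₂ := le_antisymm (key2 hp₂ hq₁ hq₂ b1 (h' ▸ Dvd.intro_left _ rfl))
    (key2 hq₂ hp₁ hp₂ a1 (h' ▸ Dvd.intro_left _ rfl))
  subst e2
  exact ⟨Nat.eq_of_mul_eq_mul_right hp₂.pos h', rfl, rfl⟩

lemma primeSum_cell_eq {R : ℝ} (hR : 1 ≤ R) {i j : ℕ} {p : ℝ} (h1 : R ^ ((i : ℝ) / 72) < p)
    (h2 : p ≤ R ^ (((i : ℝ) + 1) / 72)) (h3 : R ^ ((j : ℝ) / 72) < p)
    (h4 : p ≤ R ^ (((j : ℝ) + 1) / 72)) : i = j := by
  have key : ∀ {i j : ℕ}, p ≤ R ^ (((i : ℝ) + 1) / 72) → R ^ ((j : ℝ) / 72) < p → j ≤ i := by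
    intro i j a b
    by_contra hc
    have : (i : ℝ) + 1 ≤ j := by exact_mod_cast (by omega : i + 1 ≤ j)
    have := Real.rpow_le_rpow_of_exponent_le hR (show ((i : ℝ) + 1) / 72 ≤ (j : ℝ) / 72 by linarith)
    linarith
  exact le_antisymm (key h4 h1) (key h2 h3)

/-- The admissible third primes. -/
noncomputable def primeSumD (c₀ C₀ y : ℝ) (W a p₁ p₂ : ℕ) : Finset ℕ :=
  (Ioc ⌊c₀ / 2 * (y / (p₁ * p₂ : ℕ))⌋₊ ⌊C₀ * (y / (p₁ * p₂ : ℕ))⌋₊).filter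
    fun p : ℕ => p.Prime ∧ p₁ * p₂ * p ≡ a [MOD W]

lemma primeSum_inner {c₀ C₀ : ℝ} (hc : 0 < c₀) (hC : 0 < C₀) {W : ℕ} (h4 : 4 ∣ W) {R y : ℝ}
    (hR : 1 < R) (hy1 : R ^ (809 / 100 : ℝ) ≤ y) (hy2 : y ≤ R ^ (81 / 10 : ℝ)) {a : ℕ}
    (ha4 : a % 4 = 1) (hRc : 1 ≤ c₀ / 2 * R ^ (1 / 150 : ℝ)) (hRC : C₀ ≤ R ^ (1 / 90 : ℝ))
    {c : ℕ × ℕ} (hcell : 1 ≤ c.1 ∧ c.1 < c.2 ∧ c.1 + 1 + 2 * (c.2 + 1) ≤ 582) {p₁ p₂ : ℕ}
    (h₁ : p₁ ∈ primeSumPS (R ^ ((c.1 : ℝ) / 72)) (R ^ (((c.1 : ℝ) + 1) / 72)))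
    (h₂ : p₂ ∈ primeSumPS (R ^ ((c.2 : ℝ) / 72)) (R ^ (((c.2 : ℝ) + 1) / 72))) :
    R ^ (1 / 72 : ℝ) < p₁ ∧ p₁ < p₂ ∧ R ≤ y / (p₁ * p₂ : ℕ) ∧
      ∀ p ∈ primeSumD c₀ C₀ y W a p₁ p₂, p.Prime ∧ p₁ * p₂ * p ≡ a [MOD W] ∧ p % 4 = 1 ∧ p₂ < p ∧
        R < p ∧ Real.log p ≤ (584 - (c.1 : ℝ) - c.2) / 72 * Real.log R := by
  have hR0 : 0 < R := by linarith
  obtain ⟨a1, a2, a3, a4⟩ := (primeSum_mem (by positivity) (by positivity)).1 h₁
  obtain ⟨b1, b2, b3, b4⟩ := (primeSum_mem (by positivity) (by positivity)).1 h₂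
  obtain ⟨c1, c2, c3⟩ := hcell
  have mono : ∀ {s t : ℝ}, s ≤ t → R ^ s ≤ R ^ t := fun h =>
    Real.rpow_le_rpow_of_exponent_le hR.le h
  have d1 : (1 : ℝ) ≤ c.1 := by exact_mod_cast c1
  have d2 : (c.1 : ℝ) + 1 ≤ c.2 := by exact_mod_cast c2
  have d3 : (c.1 : ℝ) + 1 + 2 * (c.2 + 1) ≤ 582 := by exact_mod_cast c3
  have hp1 : (0 : ℝ) < p₁ := by exact_mod_cast a3.pos
  have hp2 : (0 : ℝ) < p₂ := by exact_mod_cast b3.pos
  have h12 : p₁ < p₂ := by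
    have : (p₁ : ℝ) < p₂ := lt_of_le_of_lt (a2.trans (mono (by linarith))) b1
    exact_mod_cast this
  have hK1 : R ^ (809 / 100 - ((c.1 : ℝ) + 1) / 72 - ((c.2 : ℝ) + 1) / 72) ≤
      y / (p₁ * p₂ : ℕ) := by
    rw [Real.rpow_sub hR0, Real.rpow_sub hR0, div_div]
    push_cast
    gcongr
    exact le_trans (by positivity) hy1
  have hK2 : y / (p₁ * p₂ : ℕ) ≤ R ^ (81 / 10 - (c.1 : ℝ) / 72 - (c.2 : ℝ) / 72) := by
    rw [Real.rpow_sub hR0, Real.rpow_sub hR0, div_div]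
    push_cast
    gcongr
  set K := y / (p₁ * p₂ : ℕ) with hK
  have hK0 : 0 < K := lt_of_lt_of_le (by positivity) hK1
  have low : ∀ s : ℝ, s + 1 / 150 ≤ 809 / 100 - ((c.1 : ℝ) + 1) / 72 - ((c.2 : ℝ) + 1) / 72 →
      R ^ s ≤ c₀ / 2 * K := by
    intro s hs
    have h1 := (mono hs).trans hK1
    rw [Real.rpow_add hR0] at h1
    have h2 : 0 < R ^ s := by positivity
    calc R ^ s ≤ R ^ s * (c₀ / 2 * R ^ (1 / 150 : ℝ)) := by nlinarith
      _ = c₀ / 2 * (R ^ s * R ^ (1 / 150 : ℝ)) := by ring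
      _ ≤ c₀ / 2 * K := by gcongr
  refine ⟨lt_of_le_of_lt (mono (by linarith)) a1, h12, ?_, fun p hp => ?_⟩
  · refine le_trans ?_ hK1
    conv_lhs => rw [← Real.rpow_one R]
    exact mono (by linarith)
  · obtain ⟨hI, hp, hm⟩ := mem_filter.1 hp
    rw [mem_Ioc, Nat.floor_lt (by positivity), Nat.le_floor_iff (by positivity)] at hI
    refine ⟨hp, hm, ?_, ?_, ?_, ?_⟩
    · have h5 : p₁ * p₂ * p % 4 = a % 4 := hm.of_dvd h4
      rw [Nat.mul_mod, Nat.mul_mod p₁, a4, b4, ha4] at h5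
      omega
    · have : (p₂ : ℝ) < p := lt_of_le_of_lt (b2.trans (low _ (by linarith))) hI.1
      exact_mod_cast this
    · have := low 1 (by linarith)
      rw [Real.rpow_one] at this
      exact lt_of_le_of_lt this hI.1
    · rw [← Real.log_rpow hR0]
      refine Real.log_le_log (by exact_mod_cast hp.pos) (hI.2.trans ?_)
      calc C₀ * K ≤ R ^ (1 / 90 : ℝ) * R ^ (81 / 10 - (c.1 : ℝ) / 72 - (c.2 : ℝ) / 72) := by
            gcongr
        _ = _ := by rw [← Real.rpow_add hR0]; congr 1; ring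

lemma primeSum_filter (s : Finset (ℕ × ℕ)) (p : ℕ × ℕ → Prop) {_ : DecidablePred p} :
    ∀ c ∈ s.filter p, p c := fun _ h => (mem_filter.1 h).2

lemma primeSum_cells : ∀ c ∈ cells, 1 ≤ c.1 ∧ c.1 < c.2 ∧ c.1 + 1 + 2 * (c.2 + 1) ≤ 582 := by
  unfold cells
  generalize range 582 ×ˢ range 582 = s
  exact primeSum_filter s _

theorem e3sum {c₀ C₀ : ℝ} {ψ : ℝ → ℝ} (hψ : Wt c₀ C₀ ψ) {W : ℕ} (hW : 0 < W) (h4 : 4 ∣ W)
    (η : ℝ) (hη : 0 < η) : ∀ᶠ R : ℝ in atTop, ∀ y : ℝ, R ^ (809 / 100 : ℝ) ≤ y →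
    y ≤ R ^ (81 / 10 : ℝ) → ∀ a : ℕ, a.Coprime W → a % 4 = 1 →
    ∀ (Q : ℕ → ℝ) (q : ℕ × ℕ → ℝ), (∀ n, 0 ≤ Q n) → (∀ c, 0 ≤ q c) →
    (∀ c ∈ cells, ∀ p₁ p₂ p₃ : ℕ, p₁.Prime → p₂.Prime → p₃.Prime → p₁ % 4 = 1 → p₂ % 4 = 1 →
      p₃ % 4 = 1 → R ^ ((c.1 : ℝ) / 72) < p₁ → (p₁ : ℝ) ≤ R ^ (((c.1 : ℝ) + 1) / 72) →
      R ^ ((c.2 : ℝ) / 72) < p₂ → (p₂ : ℝ) ≤ R ^ (((c.2 : ℝ) + 1) / 72) → p₂ < p₃ → R < p₃ →
      q c ≤ Q (p₁ * p₂ * p₃)) →
    (1 - η) * (8 * y * (∫ x, ψ x) / W.totient) * (72 / Real.log R) * ∑ c ∈ cells, q c * wc c ≤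
      ∑' μ : GaussianInt, ind (nrm μ ≡ a [MOD W]) * ψ (nrm μ / y) *
        (ind (E3 R (nrm μ)) * Q (nrm μ)) := by
  have hmem := primeSum_cells
  generalize cells = Cs at hmem ⊢
  have hc := hψ.pos
  have hC : 0 < C₀ := hc.trans_le (primeSum_le hψ)
  have hI := hψ.int_pos
  have hT : (0 : ℝ) < W.totient := by exact_mod_cast Nat.totient_pos.2 hW
  set e := min η 1 / 3 with he
  have he0 : 0 < e := by positivity
  have he1 : e ≤ 1 / 3 := by have := min_le_right η 1; linarith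
  have he2 : 1 - η ≤ (1 - e) ^ 3 := by
    have h1 := min_le_left η 1
    have h2 := one_add_mul_le_pow (a := -e) (by linarith) 3
    rw [← sub_eq_add_neg] at h2
    push_cast at h2
    linarith
  obtain ⟨K₀, hK₀⟩ := eventually_atTop.1 (primeSum_third hψ hW e he0)
  have hcells : ∀ᶠ R : ℝ in atTop, ∀ i ∈ Icc 1 582, (1 - e) / (2 * ((i : ℕ) : ℝ) + 1) ≤
      ∑ p ∈ primeSumPS (R ^ ((i : ℝ) / 72)) (R ^ (((i : ℝ) + 1) / 72)), (1 / p : ℝ) :=
    (eventually_all_finset _).2 fun i hi => primeSum_cell e he0 (by linarith) i (mem_Icc.1 hi).1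
  filter_upwards [hcells, eventually_ge_atTop K₀, eventually_gt_atTop 1,
    (tendsto_rpow_atTop (show (0 : ℝ) < 1 / 72 by norm_num)).eventually_ge_atTop (W : ℝ),
    (tendsto_rpow_atTop (show (0 : ℝ) < 1 / 150 by norm_num)).eventually_ge_atTop (2 / c₀),
    (tendsto_rpow_atTop (show (0 : ℝ) < 1 / 90 by norm_num)).eventually_ge_atTop C₀]
    with R hcell hRK hR hRW hRc hRC y hy1 hy2 a haW ha4 Q q hQ hq hqQ
  have hR0 : 0 < R := by linarith
  have hlR : 0 < Real.log R := Real.log_pos hR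
  have hy0 : 0 < y := lt_of_lt_of_le (by positivity) hy1
  have hRc' : 1 ≤ c₀ / 2 * R ^ (1 / 150 : ℝ) := by
    rw [div_le_iff₀ hc] at hRc; linarith
  let PS : ℕ → Finset ℕ := fun i => primeSumPS (R ^ ((i : ℝ) / 72)) (R ^ (((i : ℝ) + 1) / 72))
  let F : ℕ → ℝ := fun n => ind (n ≡ a [MOD W]) * ψ (n / y) * (ind (E3 R n) * Q n)
  have hind : ∀ p : Prop, 0 ≤ ind p := fun p => by unfold ind; split_ifs <;> norm_num
  have hF : ∀ n, 0 ≤ F n := fun n =>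
    mul_nonneg (mul_nonneg (hind _) (hψ.nonneg _)) (mul_nonneg (hind _) (hQ _))
  let S : Finset (Σ _ : ℕ × ℕ, Σ _ : ℕ, Σ _ : ℕ, ℕ) := Cs.sigma fun c =>
    (PS c.1).sigma fun p₁ => (PS c.2).sigma fun p₂ => primeSumD c₀ C₀ y W a p₁ p₂
  have inner := fun (c : ℕ × ℕ) (hc' : c ∈ Cs) (p₁ : ℕ) (h₁ : p₁ ∈ PS c.1) (p₂ : ℕ)
    (h₂ : p₂ ∈ PS c.2) => primeSum_inner hc hC h4 hR hy1 hy2 ha4 hRc' hRC (hmem c hc') h₁ h₂
  have hPS : ∀ {i p : ℕ}, p ∈ PS i → R ^ ((i : ℝ) / 72) < p ∧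
      (p : ℝ) ≤ R ^ (((i : ℝ) + 1) / 72) ∧ p.Prime ∧ p % 4 = 1 := fun h =>
    (primeSum_mem (by positivity) (by positivity)).1 h
  have hmain := primeSum_tsum F hF (C₀ * y) (fun n hn => by
      have : ψ (n / y) ≠ 0 := fun h0 => hn (by simp [F, h0])
      exact (div_le_iff₀ hy0).1 (hψ.supp _ this).2)
    (S.image fun t => t.2.1 * t.2.2.1 * t.2.2.2) (fun n hn => by
      obtain ⟨⟨c, p₁, p₂, p₃⟩, ht, rfl⟩ := mem_image.1 hn
      simp only [S, mem_sigma] at ht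
      obtain ⟨hc', h₁, h₂, h₃⟩ := ht
      obtain ⟨-, l12, -, hD⟩ := inner c hc' p₁ h₁ p₂ h₂
      obtain ⟨m1, -, m2, m3, -⟩ := hD p₃ h₃
      have n1 : p₁ ∉ ({p₂, p₃} : Finset ℕ) := by simp; omega
      have n2 : p₂ ∉ ({p₃} : Finset ℕ) := by simp; omega
      have := ncard_nrm_eq {p₁, p₂, p₃} (by
        intro p hp
        simp only [mem_insert, mem_singleton] at hp
        rcases hp with rfl | rfl | rfl
        exacts [(hPS h₁).2.2, (hPS h₂).2.2, ⟨m1, m2⟩])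
      rw [prod_insert n1, prod_insert n2, prod_singleton, card_insert_of_notMem n1,
        card_insert_of_notMem n2, card_singleton, ← mul_assoc] at this
      exact this)
  refine le_trans ?_ hmain
  rw [sum_image (by
    rintro ⟨c, p₁, p₂, p₃⟩ ht ⟨c', q₁, q₂, q₃⟩ ht' h
    simp only [S, mem_coe, mem_sigma] at ht ht' h
    obtain ⟨hc1, h₁, h₂, h₃⟩ := ht
    obtain ⟨hc2, k₁, k₂, k₃⟩ := ht'
    obtain ⟨-, l12, -, hD⟩ := inner c hc1 p₁ h₁ p₂ h₂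
    obtain ⟨m1, -, -, m3, -⟩ := hD p₃ h₃
    obtain ⟨-, l12', -, hD'⟩ := inner c' hc2 q₁ k₁ q₂ k₂
    obtain ⟨m1', -, -, m3', -⟩ := hD' q₃ k₃
    obtain ⟨rfl, rfl, rfl⟩ := primeSum_inj (hPS h₂).2.2.1 m1 (hPS h₁).2.2.1 (hPS k₁).2.2.1
      (hPS k₂).2.2.1 m1' l12 m3 l12' m3' h
    have e1 := primeSum_cell_eq hR.le (hPS h₁).1 (hPS h₁).2.1 (hPS k₁).1 (hPS k₁).2.1
    have e2 := primeSum_cell_eq hR.le (hPS h₂).1 (hPS h₂).2.1 (hPS k₂).1 (hPS k₂).2.1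
    obtain rfl : c = c' := Prod.ext e1 e2
    rfl)]
  simp only [S, sum_sigma]
  rw [mul_sum]
  refine sum_le_sum fun c hc' => ?_
  obtain ⟨c1, c2, c3⟩ := hmem c hc'
  have d3 : (c.1 : ℝ) + 1 + 2 * (c.2 + 1) ≤ 582 := by exact_mod_cast c3
  have d1 : (0 : ℝ) ≤ c.1 := by positivity
  have d2 : (0 : ℝ) ≤ c.2 := by positivity
  have d4 : 0 < 584 - (c.1 : ℝ) - c.2 := by linarith
  set L := (584 - (c.1 : ℝ) - c.2) / 72 * Real.log R with hL
  have hL0 : 0 < L := by positivity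
  set B := 32 * q c * ((1 - e) * ((∫ x, ψ x) / W.totient) * y / L) with hB
  have he3 : 0 < 1 - e := by linarith
  have hqc := hq c
  have hB0 : 0 ≤ B := by positivity
  have step : ∀ p₁ ∈ PS c.1, ∀ p₂ ∈ PS c.2, B * (1 / p₁ * (1 / p₂)) ≤
      ∑ p₃ ∈ primeSumD c₀ C₀ y W a p₁ p₂, 32 * F (p₁ * p₂ * p₃) := by
    intro p₁ h₁ p₂ h₂
    obtain ⟨l1, l12, lK, hD⟩ := inner c hc' p₁ h₁ p₂ h₂
    obtain ⟨a1, a2, a3, a4⟩ := hPS h₁
    obtain ⟨b1, b2, b3, b4⟩ := hPS h₂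
    have hW1 : W < p₁ := by
      have : (W : ℝ) < p₁ := lt_of_le_of_lt hRW l1
      exact_mod_cast this
    have hcop : (p₁ * p₂).Coprime W :=
      Nat.Coprime.mul_left (Nat.coprime_of_lt_prime hW.ne' hW1 a3)
        (Nat.coprime_of_lt_prime hW.ne' (hW1.trans l12) b3)
    have h3 := hK₀ _ (hRK.trans lK) ((ZMod.unitOfCoprime _ hcop)⁻¹ * ZMod.unitOfCoprime a haW)
    have hset : (Ioc ⌊c₀ / 2 * (y / (p₁ * p₂ : ℕ))⌋₊ ⌊C₀ * (y / (p₁ * p₂ : ℕ))⌋₊).filter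
        (fun p : ℕ => p.Prime ∧ (p : ZMod W) =
          ((ZMod.unitOfCoprime _ hcop)⁻¹ * ZMod.unitOfCoprime a haW : (ZMod W)ˣ)) =
        primeSumD c₀ C₀ y W a p₁ p₂ := by
      unfold primeSumD
      refine filter_congr fun p _ => and_congr_right fun _ => ?_
      rw [Units.val_mul, Units.eq_inv_mul_iff_mul_eq, ZMod.coe_unitOfCoprime,
        ZMod.coe_unitOfCoprime, ← Nat.cast_mul, ZMod.natCast_eq_natCast_iff]
    rw [hset] at h3
    have hp1 : (0 : ℝ) < p₁ := by exact_mod_cast a3.pos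
    have hp2 : (0 : ℝ) < p₂ := by exact_mod_cast b3.pos
    calc B * (1 / p₁ * (1 / p₂))
        = 32 * q c / L * ((1 - e) * ((∫ x, ψ x) / W.totient) * (y / (p₁ * p₂ : ℕ))) := by
          rw [hB]; push_cast; field_simp
      _ ≤ 32 * q c / L * ∑ p ∈ primeSumD c₀ C₀ y W a p₁ p₂,
            ψ (p / (y / (p₁ * p₂ : ℕ))) * Real.log p := by gcongr
      _ ≤ _ := by
          rw [mul_sum]
          refine sum_le_sum fun p hp => ?_
          obtain ⟨m1, m2, m3, m4, m5, m6⟩ := hD p hp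
          have hE : E3 R (p₁ * p₂ * p) := ⟨p₁, p₂, p, a3, b3, m1, a4, b4, m3, l1, l12, m4, m5, rfl⟩
          have hQq := hqQ c hc' p₁ p₂ p a3 b3 m1 a4 b4 m3 a1 a2 b1 b2 m4 m5
          have ea : (p : ℝ) / (y / (p₁ * p₂ : ℕ)) = (p₁ * p₂ * p : ℕ) / y := by
            push_cast; field_simp
          have eF : F (p₁ * p₂ * p) = ψ ((p₁ * p₂ * p : ℕ) / y) * Q (p₁ * p₂ * p) := by
            simp only [F, ind, if_pos m2, if_pos hE, one_mul]
          rw [ea, eF]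
          have hψ0 := hψ.nonneg ((p₁ * p₂ * p : ℕ) / y)
          calc 32 * q c / L * (ψ ((p₁ * p₂ * p : ℕ) / y) * Real.log p)
              ≤ 32 * q c / L * (ψ ((p₁ * p₂ * p : ℕ) / y) * L) := by gcongr
            _ = 32 * (ψ ((p₁ * p₂ * p : ℕ) / y) * q c) := by field_simp
            _ ≤ _ := by gcongr
  have s1 := hcell c.1 (mem_Icc.2 ⟨c1, by omega⟩)
  have s2 := hcell c.2 (mem_Icc.2 ⟨by omega, by omega⟩)
  calc (1 - η) * (8 * y * (∫ x, ψ x) / W.totient) * (72 / Real.log R) * (q c * wc c)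
      = (1 - η) * ((8 * y * (∫ x, ψ x) / W.totient) * (72 / Real.log R) * (q c * wc c)) := by ring
    _ ≤ (1 - e) ^ 3 * ((8 * y * (∫ x, ψ x) / W.totient) * (72 / Real.log R) * (q c * wc c)) := by
        apply mul_le_mul_of_nonneg_right he2
        unfold wc
        positivity
    _ = B * ((1 - e) / (2 * (c.1 : ℝ) + 1) * ((1 - e) / (2 * (c.2 : ℝ) + 1))) := by
        rw [hB, hL]; unfold wc; field_simp; ring
    _ ≤ B * ((∑ p ∈ PS c.1, (1 / p : ℝ)) * ∑ p ∈ PS c.2, (1 / p : ℝ)) := by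
        gcongr
    _ = ∑ p₁ ∈ PS c.1, ∑ p₂ ∈ PS c.2, B * (1 / p₁ * (1 / p₂)) := by
        rw [sum_mul_sum, mul_sum]
        exact sum_congr rfl fun _ _ => by rw [mul_sum]
    _ ≤ _ := sum_le_sum fun p₁ h₁ => sum_le_sum fun p₂ h₂ => step p₁ h₁ p₂ h₂

end Pool.Agent.P.MP_a1177c_nt.EK
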