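import Pool.Agent.P.MP_a1177c_nt.EK.Expand
import Pool.Agent.P.MP_a1177c_nt.EK.Count
import Pool.Agent.P.MP_a1177c_nt.EK.Model
import Pool.Agent.P.MP_a1177c_nt.EK.Lattice

set_option autoImplicit false

namespace Pool.Agent.P.MP_a1177c_nt.EK

open Finset Filter
open scoped Classical

theorem second_nrm_mul (z w : GaussianInt) : nrm (z * w) = nrm z * nrm w := by
  simp [nrm, Zsqrtd.norm_mul, Int.natAbs_mul]

theorem second_nrm_int (z : GaussianInt) : (nrm z : ℤ) = z.re ^ 2 + z.im ^ 2 := by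
  rw [nrm, Int.natAbs_of_nonneg (GaussianInt.norm_nonneg z), Zsqrtd.norm_def]
  ring

theorem second_nrm_real (z : GaussianInt) : (nrm z : ℝ) = (z.re : ℝ) ^ 2 + (z.im : ℝ) ^ 2 := by
  exact_mod_cast second_nrm_int z

theorem second_nrm_ne {z : GaussianInt} (hz : z ≠ 0) : nrm z ≠ 0 := by
  intro h
  apply hz
  rw [nrm, Int.natAbs_eq_zero] at h
  exact GaussianInt.norm_eq_zero.1 h

theorem second_nrm_dvd {z w : GaussianInt} (h : z ∣ w) : nrm z ∣ nrm w := by
  obtain ⟨u, rfl⟩ := h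
  exact ⟨nrm u, second_nrm_mul z u⟩

theorem second_nrm_prod (T : Finset ℕ) (f : ℕ → GaussianInt) :
    nrm (∏ p ∈ T, f p) = ∏ p ∈ T, nrm (f p) := by
  induction T using Finset.induction_on with
  | empty => simp [nrm]
  | insert a T ha ih => rw [Finset.prod_insert ha, Finset.prod_insert ha, second_nrm_mul, ih]

/-- The nonzero Gaussian integers of norm at most `n`. -/
noncomputable def secB (n : ℕ) : Finset GaussianInt :=
  ((Icc (-(n : ℤ)) n ×ˢ Icc (-(n : ℤ)) n).image fun v => (⟨v.1, v.2⟩ : GaussianInt)).filter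
    fun ν => ν ≠ 0 ∧ nrm ν ≤ n

theorem second_mem_secB {n : ℕ} {ν : GaussianInt} : ν ∈ secB n ↔ ν ≠ 0 ∧ nrm ν ≤ n := by
  rw [secB, Finset.mem_filter, and_iff_right_iff_imp]
  rintro ⟨-, h⟩
  have h1 : ν.re ^ 2 + ν.im ^ 2 ≤ n := by rw [← second_nrm_int]; exact_mod_cast h
  refine Finset.mem_image.2 ⟨(ν.re, ν.im), ?_, rfl⟩
  simp only [Finset.mem_product, Finset.mem_Icc]
  refine ⟨⟨?_, ?_⟩, ?_, ?_⟩ <;> nlinarith [sq_nonneg ν.re, sq_nonneg ν.im, sq_nonneg (ν.re + 1),
    sq_nonneg (ν.re - 1), sq_nonneg (ν.im + 1), sq_nonneg (ν.im - 1), sq_nonneg (2 * ν.re + 1),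
    sq_nonneg (2 * ν.re - 1), sq_nonneg (2 * ν.im + 1), sq_nonneg (2 * ν.im - 1)]

/-- A prime dividing the norm lies below a Gaussian divisor. -/
theorem second_exists_prime {p : ℕ} (hp : p.Prime) {ν : GaussianInt} (h : p ∣ nrm ν) :
    ∃ π : GaussianInt, π ∣ ν ∧ π ∣ (p : GaussianInt) ∧ (nrm π).primeFactors = {p} := by
  have hp0 : (p : GaussianInt) ≠ 0 := by exact_mod_cast hp.ne_zero
  have hnp : nrm (p : GaussianInt) = p ^ 2 := by
    simp [nrm, Zsqrtd.norm_natCast, pow_two, Int.natAbs_mul]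
  have hnu : ¬ IsUnit (p : GaussianInt) := by
    intro hu
    have h1 : nrm (p : GaussianInt) = 1 := Zsqrtd.norm_eq_one_iff.2 hu
    rw [hnp] at h1
    have := hp.two_le
    nlinarith
  obtain ⟨π, hπ, hπp⟩ := WfDvdMonoid.exists_irreducible_factor hnu hp0
  have key : ∀ σ : GaussianInt, ¬ IsUnit σ → σ ∣ (p : GaussianInt) →
      (nrm σ).primeFactors = {p} := by
    intro σ h1 h2
    have h3 := second_nrm_dvd h2
    rw [hnp] at h3
    obtain ⟨k, -, hk⟩ := (Nat.dvd_prime_pow hp).1 h3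
    rw [hk]
    refine Nat.primeFactors_prime_pow ?_ hp
    rintro rfl
    exact h1 (Zsqrtd.norm_eq_one_iff.1 hk)
  have hd : (p : GaussianInt) ∣ ν * star ν := by
    rw [← Zsqrtd.norm_eq_mul_conj]
    have : (p : ℤ) ∣ ν.norm := Int.natCast_dvd.2 h
    exact_mod_cast Int.cast_dvd_cast (α := GaussianInt) _ _ this
  rcases hπ.prime.dvd_or_dvd (hπp.trans hd) with h1 | h1
  · exact ⟨π, h1, hπp, key π hπ.not_isUnit hπp⟩
  · have h2 : star π ∣ (p : GaussianInt) := by
      obtain ⟨u, hu⟩ := hπp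
      exact ⟨star u, by rw [← star_mul', ← hu, star_natCast]⟩
    refine ⟨star π, ?_, h2, key _ (fun hu => hπ.not_isUnit (isUnit_star.1 hu)) h2⟩
    obtain ⟨u, hu⟩ := h1
    exact ⟨star u, by rw [← star_mul', ← hu, star_star]⟩

theorem second_pow_succ (K : ℝ) (hK : 0 ≤ K) {n : ℕ} {ν : GaussianInt} (hν : ν ∈ secB n) :
    (K + 1) ^ #(nrm ν).primeFactors ≤
      ∑ μ ∈ secB n with μ ∣ ν, K ^ #(nrm μ).primeFactors := by
  obtain ⟨h0, hn⟩ := second_mem_secB.1 hν
  have hex : ∀ p : ℕ, ∃ π : GaussianInt, p ∈ (nrm ν).primeFactors →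
      π ∣ ν ∧ π ∣ (p : GaussianInt) ∧ (nrm π).primeFactors = {p} := by
    intro p
    by_cases hp : p ∈ (nrm ν).primeFactors
    · obtain ⟨π, hπ⟩ := second_exists_prime (Nat.prime_of_mem_primeFactors hp)
        (Nat.dvd_of_mem_primeFactors hp)
      exact ⟨π, fun _ => hπ⟩
    · exact ⟨1, fun h => absurd h hp⟩
  choose π hπ using hex
  have hdvd : ∀ T ⊆ (nrm ν).primeFactors, ∏ p ∈ T, π p ∣ ν := by
    intro T hT
    refine Finset.prod_dvd_of_coprime ?_ fun p hp => (hπ p (hT hp)).1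
    intro p hp q hq hpq
    have h1 : p.Coprime q := (Nat.coprime_primes (Nat.prime_of_mem_primeFactors (hT hp))
      (Nat.prime_of_mem_primeFactors (hT hq))).2 hpq
    exact ((Nat.Coprime.cast (R := GaussianInt) h1).of_isCoprime_of_dvd_left
      (hπ p (hT hp)).2.1).of_isCoprime_of_dvd_right (hπ q (hT hq)).2.1
  have hpf : ∀ T ⊆ (nrm ν).primeFactors, (nrm (∏ p ∈ T, π p)).primeFactors = T := by
    intro T
    induction T using Finset.induction_on with
    | empty => intro _; simp [nrm]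
    | insert a T ha ih =>
      intro hT
      have hT' : T ⊆ (nrm ν).primeFactors := (Finset.subset_insert a T).trans hT
      have haT := hT (Finset.mem_insert_self a T)
      rw [Finset.prod_insert ha, second_nrm_mul, Nat.primeFactors_mul
        (second_nrm_ne (ne_zero_of_dvd_ne_zero h0 (hπ a haT).1))
        (second_nrm_ne (ne_zero_of_dvd_ne_zero h0 (hdvd T hT'))), ih hT', (hπ a haT).2.2]
      rfl
  calc (K + 1) ^ #(nrm ν).primeFactors = ∑ T ∈ (nrm ν).primeFactors.powerset, K ^ #T := by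
        rw [← Finset.prod_const, Finset.prod_add_one]
        simp
    _ = ∑ T ∈ (nrm ν).primeFactors.powerset, K ^ #(nrm (∏ p ∈ T, π p)).primeFactors :=
        Finset.sum_congr rfl fun T hT => by rw [hpf T (Finset.mem_powerset.1 hT)]
    _ = ∑ μ ∈ (nrm ν).primeFactors.powerset.image (fun T => ∏ p ∈ T, π p),
          K ^ #(nrm μ).primeFactors := by
        rw [Finset.sum_image]
        intro T hT T' hT' h
        rw [← hpf T (Finset.mem_powerset.1 hT), ← hpf T' (Finset.mem_powerset.1 hT')]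
        exact congrArg (fun z => (nrm z).primeFactors) h
    _ ≤ _ := by
        refine Finset.sum_le_sum_of_subset_of_nonneg ?_ fun _ _ _ => by positivity
        intro μ hμ
        obtain ⟨T, hT, rfl⟩ := Finset.mem_image.1 hμ
        have h1 := hdvd T (Finset.mem_powerset.1 hT)
        refine Finset.mem_filter.2 ⟨second_mem_secB.2 ⟨ne_zero_of_dvd_ne_zero h0 h1, ?_⟩, h1⟩
        exact (Nat.le_of_dvd (Nat.pos_of_ne_zero (second_nrm_ne h0)) (second_nrm_dvd h1)).trans hn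

theorem second_step (K : ℝ) (hK : 0 ≤ K) (n : ℕ) :
    ∑ ν ∈ secB n, (K + 1) ^ #(nrm ν).primeFactors / (nrm ν : ℝ) ≤
      (∑ μ ∈ secB n, K ^ #(nrm μ).primeFactors / (nrm μ : ℝ)) * ∑ l ∈ secB n, 1 / (nrm l : ℝ) := by
  calc _ ≤ ∑ ν ∈ secB n, ∑ μ ∈ secB n,
          if μ ∣ ν then K ^ #(nrm μ).primeFactors / (nrm ν : ℝ) else 0 := by
        refine Finset.sum_le_sum fun ν hν => ?_
        rw [← Finset.sum_filter, ← Finset.sum_div]
        exact div_le_div_of_nonneg_right (second_pow_succ K hK hν) (by positivity)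
    _ = ∑ μ ∈ secB n, ∑ ν ∈ secB n with μ ∣ ν, K ^ #(nrm μ).primeFactors / (nrm ν : ℝ) := by
        rw [Finset.sum_comm]
        exact Finset.sum_congr rfl fun μ _ => (Finset.sum_filter _ _).symm
    _ ≤ _ := by
        rw [Finset.sum_mul]
        refine Finset.sum_le_sum fun μ hμ => ?_
        have hμ0 := (second_mem_secB.1 hμ).1
        calc _ ≤ ∑ ν ∈ (secB n).image (fun l => μ * l),
              K ^ #(nrm μ).primeFactors / (nrm ν : ℝ) := by
              refine Finset.sum_le_sum_of_subset_of_nonneg ?_ fun _ _ _ => by positivity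
              intro ν hν
              obtain ⟨hν, l, rfl⟩ := Finset.mem_filter.1 hν
              obtain ⟨h1, h2⟩ := second_mem_secB.1 hν
              refine Finset.mem_image.2 ⟨l, second_mem_secB.2 ⟨right_ne_zero_of_mul h1, ?_⟩, rfl⟩
              rw [second_nrm_mul] at h2
              exact (Nat.le_mul_of_pos_left _ (Nat.pos_of_ne_zero (second_nrm_ne hμ0))).trans h2
          _ = _ := by
              rw [Finset.sum_image fun a _ b _ h => mul_left_cancel₀ hμ0 h, Finset.mul_sum]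
              refine Finset.sum_congr rfl fun l _ => ?_
              rw [second_nrm_mul, Nat.cast_mul, div_mul_div_comm, mul_one]

theorem second_pow (n K : ℕ) :
    ∑ ν ∈ secB n, ((K : ℝ) + 1) ^ #(nrm ν).primeFactors / (nrm ν : ℝ) ≤
      (∑ l ∈ secB n, 1 / (nrm l : ℝ)) ^ (K + 1) := by
  induction K with
  | zero => simp
  | succ K ih =>
    rw [Nat.cast_succ, pow_succ]
    refine (second_step _ (by positivity) n).trans ?_
    exact mul_le_mul_of_nonneg_right ih (Finset.sum_nonneg fun _ _ => by positivity)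

theorem second_harm (n : ℕ) :
    ∑ a ∈ Icc (-(n : ℤ)) n, 1 / (|(a : ℝ)| + 1) ≤ 2 * (1 + Real.log (n + 1)) := by
  have h1 : ∑ a ∈ Icc (-(n : ℤ)) n, 1 / (|(a : ℝ)| + 1) ≤ 2 * (harmonic (n + 1) : ℝ) := by
    induction n with
    | zero => simp [harmonic]
    | succ n ih =>
      have e : Icc (-((n + 1 : ℕ) : ℤ)) ((n + 1 : ℕ) : ℤ) =
          insert (-((n : ℤ) + 1)) (insert ((n : ℤ) + 1) (Icc (-(n : ℤ)) n)) := by
        ext a
        simp only [Finset.mem_Icc, Finset.mem_insert]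
        omega
      rw [e, Finset.sum_insert (by simp only [Finset.mem_Icc, Finset.mem_insert]; omega),
        Finset.sum_insert (by simp only [Finset.mem_Icc]; omega), harmonic_succ (n + 1)]
      push_cast
      rw [abs_neg, abs_of_nonneg (by positivity : (0 : ℝ) ≤ n + 1)]
      simp only [one_div] at ih ⊢
      linarith
  have h2 := harmonic_le_one_add_log (n + 1)
  push_cast at h2
  linarith

theorem second_inv_sum (n : ℕ) :
    ∑ l ∈ secB n, 1 / (nrm l : ℝ) ≤ 12 * (1 + Real.log (n + 1)) ^ 2 := by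
  have h0 : 0 ≤ ∑ a ∈ Icc (-(n : ℤ)) n, 1 / (|(a : ℝ)| + 1) :=
    Finset.sum_nonneg fun _ _ => by positivity
  calc _ ≤ ∑ l ∈ secB n, 3 * (1 / (|(l.re : ℝ)| + 1) * (1 / (|(l.im : ℝ)| + 1))) := by
        refine Finset.sum_le_sum fun l hl => ?_
        have h1 : (1 : ℝ) ≤ nrm l := by
          exact_mod_cast Nat.pos_of_ne_zero (second_nrm_ne (second_mem_secB.1 hl).1)
        rw [div_mul_div_comm, mul_one, mul_one_div, div_le_div_iff₀ (by positivity) (by positivity)]
        rw [second_nrm_real] at h1 ⊢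
        rw [← sq_abs (l.re : ℝ), ← sq_abs (l.im : ℝ)] at h1 ⊢
        nlinarith [sq_nonneg (|(l.re : ℝ)| - |(l.im : ℝ)|), sq_nonneg (|(l.re : ℝ)| - 1),
          sq_nonneg (|(l.im : ℝ)| - 1)]
    _ ≤ ∑ l ∈ (Icc (-(n : ℤ)) n ×ˢ Icc (-(n : ℤ)) n).image
          (fun v => (⟨v.1, v.2⟩ : GaussianInt)),
          3 * (1 / (|(l.re : ℝ)| + 1) * (1 / (|(l.im : ℝ)| + 1))) :=
        Finset.sum_le_sum_of_subset_of_nonneg (Finset.filter_subset _ _)
          fun _ _ _ => by positivity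
    _ = 3 * (∑ a ∈ Icc (-(n : ℤ)) n, 1 / (|(a : ℝ)| + 1)) ^ 2 := by
        rw [Finset.sum_image, ← Finset.mul_sum, Finset.sum_product, pow_two, Finset.sum_mul_sum]
        intro v _ w _ h
        simp only [Zsqrtd.mk.injEq] at h
        exact Prod.ext h.1 h.2
    _ ≤ 3 * (2 * (1 + Real.log (n + 1))) ^ 2 := by
        have := second_harm n
        gcongr
    _ = _ := by ring

theorem second_sum (k : ℝ) (hk : 0 ≤ k) : ∃ C : ℕ, ∀ᶠ x : ℝ in atTop,
    ∑ ν ∈ secB ⌊x⌋₊, k ^ #(nrm ν).primeFactors ≤ x * Real.log x ^ C := by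
  obtain ⟨K, hK⟩ := exists_nat_ge k
  refine ⟨3 * (K + 1), ?_⟩
  filter_upwards [Real.tendsto_log_atTop.eventually_ge_atTop 108, eventually_ge_atTop (1 : ℝ)]
    with x hL hx
  have hn : (⌊x⌋₊ : ℝ) ≤ x := Nat.floor_le (by linarith)
  have hlog : Real.log (⌊x⌋₊ + 1) ≤ 1 + Real.log x := by
    calc _ ≤ Real.log (2 * x) := Real.log_le_log (by positivity) (by linarith)
      _ = Real.log 2 + Real.log x := Real.log_mul (by norm_num) (by linarith)
      _ ≤ _ := by linarith [Real.log_two_lt_d9]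
  have hl0 : 0 ≤ Real.log (⌊x⌋₊ + 1) := Real.log_nonneg (by linarith [Nat.cast_nonneg (α := ℝ) ⌊x⌋₊])
  have hinv : ∑ l ∈ secB ⌊x⌋₊, 1 / (nrm l : ℝ) ≤ Real.log x ^ 3 := by
    refine (second_inv_sum _).trans ?_
    calc 12 * (1 + Real.log (⌊x⌋₊ + 1)) ^ 2 ≤ 12 * (3 * Real.log x) ^ 2 := by
          gcongr
          linarith
      _ = 108 * Real.log x ^ 2 := by ring
      _ ≤ Real.log x * Real.log x ^ 2 := by gcongr
      _ = _ := by ring
  calc _ ≤ ∑ ν ∈ secB ⌊x⌋₊, x * (((K : ℝ) + 1) ^ #(nrm ν).primeFactors / (nrm ν : ℝ)) := by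
        refine Finset.sum_le_sum fun ν hν => ?_
        obtain ⟨h1, h2⟩ := second_mem_secB.1 hν
        have h3 : (0 : ℝ) < nrm ν := by exact_mod_cast Nat.pos_of_ne_zero (second_nrm_ne h1)
        have h4 : (nrm ν : ℝ) ≤ x := le_trans (by exact_mod_cast h2) hn
        rw [← mul_div_assoc, le_div_iff₀ h3, mul_comm]
        gcongr
        linarith
    _ ≤ x * (Real.log x ^ 3) ^ (K + 1) := by
        rw [← Finset.mul_sum]
        refine mul_le_mul_of_nonneg_left ((second_pow _ K).trans ?_) (by linarith)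
        exact pow_le_pow_left₀ (Finset.sum_nonneg fun _ _ => by positivity) hinv _
    _ = _ := by rw [← pow_mul]

theorem sum_pow_omega (k : ℝ) (hk : 0 ≤ k) : ∃ C : ℕ, ∀ᶠ x : ℝ in atTop,
    ∑' ν : GaussianInt, ind (ν ≠ 0 ∧ (nrm ν : ℝ) ≤ x) * k ^ #(nrm ν).primeFactors ≤
      x * Real.log x ^ C := by
  obtain ⟨C, hC⟩ := second_sum k hk
  refine ⟨C, ?_⟩
  filter_upwards [hC, eventually_ge_atTop (0 : ℝ)] with x h hx
  rw [tsum_eq_sum (s := secB ⌊x⌋₊)]
  · refine le_trans (le_of_eq (Finset.sum_congr rfl fun ν hν => ?_)) h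
    rw [second_mem_secB, Nat.le_floor_iff hx] at hν
    rw [ind, if_pos hν, one_mul]
  · intro ν hν
    rw [second_mem_secB, Nat.le_floor_iff hx] at hν
    rw [ind, if_neg hν, zero_mul]

/-- The window in which the weight lives. -/
def secW (X : ℝ) (g : SL) : Prop :=
  (X < qA g ∧ qA g < 3 * X) ∧ (X < qB g ∧ qB g < 3 * X) ∧ (X < qC g ∧ qC g < 3 * X)

theorem second_tent {s X : ℝ} (hX : 0 < X) (h : tent (s / X) ≠ 0) : X < s ∧ s < 3 * X := by
  have h1 : |s / X - 2| < 1 := by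
    by_contra h2
    exact h (max_eq_left (by linarith [not_lt.1 h2]))
  obtain ⟨h2, h3⟩ := abs_lt.1 h1
  constructor
  · have : 1 < s / X := by linarith
    rwa [lt_div_iff₀ hX, one_mul] at this
  · have : s / X < 3 := by linarith
    rwa [div_lt_iff₀ hX] at this

theorem second_tent_mem (s : ℝ) : 0 ≤ tent s ∧ tent s ≤ 1 :=
  ⟨le_max_left _ _, max_le zero_le_one (by linarith [abs_nonneg (s - 2)])⟩

theorem second_window {W₀ : ℕ} {X : ℝ} (hX : 0 < X) {P : Finset ℕ} {g : SL}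
    (h : base W₀ X P g ≠ 0) : secW X g := by
  have h1 : Phi0 (qA g / X) (qB g / X) (qC g / X) ≠ 0 :=
    left_ne_zero_of_mul (left_ne_zero_of_mul h)
  exact ⟨second_tent hX (left_ne_zero_of_mul (left_ne_zero_of_mul h1)),
    second_tent hX (right_ne_zero_of_mul (left_ne_zero_of_mul h1)),
    second_tent hX (right_ne_zero_of_mul h1)⟩

theorem second_nrm_act (g : SL) (x y : ℤ) :
    (nrm (act g x y) : ℝ) = qA g * x ^ 2 + 2 * qB g * x * y + qC g * y ^ 2 := by
  rw [second_nrm_real]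
  simp only [act, qA, qB, qC]
  push_cast
  ring

theorem second_nrm_LL {X : ℝ} (hX : 0 < X) {g : SL} (h : secW X g) (j : Fin 4) :
    X ≤ nrm (LL g j) ∧ (nrm (LL g j) : ℝ) ≤ 400000 * X := by
  obtain ⟨⟨a1, a2⟩, ⟨b1, b2⟩, c1, c2⟩ := h
  rw [LL, second_nrm_act]
  fin_cases j <;> simp [vx, vy] <;> constructor <;> linarith

theorem second_vprim (j : Fin 4) : ∃ r s : ℤ, r * vx j + s * vy j = 1 := by
  fin_cases j
  · exact ⟨1, 0, by simp [vx, vy]⟩
  · exact ⟨0, 1, by simp [vx, vy]⟩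
  · exact ⟨1, 0, by simp [vx, vy]⟩
  · exact ⟨-27, 31, by simp [vx, vy]⟩

theorem second_small {t u v a b c d : ℤ} {X : ℝ} (hX : 0 < X) (h1 : X ≤ (u : ℝ) ^ 2 + (v : ℝ) ^ 2)
    (h2 : (a : ℝ) ^ 2 + (b : ℝ) ^ 2 < 3 * X) (h3 : (c : ℝ) ^ 2 + (d : ℝ) ^ 2 < 3 * X)
    (e1 : a - c = t * u) (e2 : b - d = t * v) : t ∈ Icc (-3 : ℤ) 3 := by
  have f1 : (a : ℝ) - c = t * u := by exact_mod_cast e1
  have f2 : (b : ℝ) - d = t * v := by exact_mod_cast e2
  have h4 : (t : ℝ) ^ 2 * ((u : ℝ) ^ 2 + (v : ℝ) ^ 2) < 12 * X := by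
    have : (t : ℝ) ^ 2 * ((u : ℝ) ^ 2 + (v : ℝ) ^ 2) = ((a : ℝ) - c) ^ 2 + ((b : ℝ) - d) ^ 2 := by
      rw [f1, f2]; ring
    nlinarith [sq_nonneg ((a : ℝ) + c), sq_nonneg ((b : ℝ) + d)]
  have h5 : (t : ℝ) ^ 2 < 12 := by
    by_contra h6
    have := mul_le_mul (not_lt.1 h6) h1 hX.le (by positivity)
    linarith
  have h6 : t ^ 2 < 12 := by exact_mod_cast h5
  rw [Finset.mem_Icc]
  constructor <;> nlinarith

theorem second_fiber {X : ℝ} (hX : 0 < X) (s : Finset SL) (hs : ∀ g ∈ s, secW X g) (j : Fin 4)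
    (ν : GaussianInt) : #{g ∈ s | LL g j = ν} ≤ 49 := by
  rcases Finset.eq_empty_or_nonempty {g ∈ s | LL g j = ν} with h | ⟨g₀, hg₀⟩
  · rw [h]; simp
  obtain ⟨hg₀, e₀⟩ := Finset.mem_filter.1 hg₀
  obtain ⟨r, q, hrq⟩ := second_vprim j
  have hdet : ∀ g : SL, g 0 0 * g 1 1 - g 0 1 * g 1 0 = 1 := fun g => by
    have := g.det_coe
    rwa [Matrix.det_fin_two] at this
  have hre : ∀ g : SL, LL g j = ν → ν.re = g 0 0 * vx j + g 0 1 * vy j := by
    rintro g rfl; rfl
  have him : ∀ g : SL, LL g j = ν → ν.im = g 1 0 * vx j + g 1 1 * vy j := by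
    rintro g rfl; rfl
  obtain ⟨r', q', hb⟩ : ∃ r' q' : ℤ, r' * ν.re + q' * ν.im = 1 := by
    refine ⟨r * g₀ 1 1 - q * g₀ 1 0, q * g₀ 0 0 - r * g₀ 0 1, ?_⟩
    rw [hre g₀ e₀, him g₀ e₀]
    linear_combination (r * vx j + q * vy j) * hdet g₀ + hrq
  have hν : X ≤ (ν.re : ℝ) ^ 2 + (ν.im : ℝ) ^ 2 := by
    rw [← second_nrm_real, ← e₀]
    exact (second_nrm_LL hX (hs g₀ hg₀) j).1
  let t : SL → Fin 2 → ℤ := fun g i => r' * (g 0 i - g₀ 0 i) + q' * (g 1 i - g₀ 1 i)
  have hpar : ∀ g : SL, LL g j = ν → ∀ i, g 0 i - g₀ 0 i = t g i * ν.re ∧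
      g 1 i - g₀ 1 i = t g i * ν.im := by
    intro g e i
    have hd : (g 0 i - g₀ 0 i) * ν.im = (g 1 i - g₀ 1 i) * ν.re := by
      have a1 := hre g e
      have a2 := him g e
      have a3 := hre g₀ e₀
      have a4 := him g₀ e₀
      fin_cases i
      · simp only [Fin.zero_eta]
        linear_combination g 0 0 * a2 - g 1 0 * a1 - g₀ 0 0 * a4 + g₀ 1 0 * a3 +
          vy j * hdet g - vy j * hdet g₀
      · simp only [Fin.mk_one]
        linear_combination g 0 1 * a2 - g 1 1 * a1 - g₀ 0 1 * a4 + g₀ 1 1 * a3 -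
          vx j * hdet g + vx j * hdet g₀
    simp only [t]
    constructor
    · linear_combination q' * hd - (g 0 i - g₀ 0 i) * hb
    · linear_combination (-r') * hd - (g 1 i - g₀ 1 i) * hb
  calc _ ≤ #(Icc (-3 : ℤ) 3 ×ˢ Icc (-3 : ℤ) 3) := by
        refine Finset.card_le_card_of_injOn (fun g => (t g 0, t g 1)) ?_ ?_
        · intro g hg
          obtain ⟨hg, e⟩ := Finset.mem_filter.1 hg
          refine Finset.mem_product.2 ⟨?_, ?_⟩
          · exact second_small hX hν (hs g hg).1.2 (hs g₀ hg₀).1.2 (hpar g e 0).1 (hpar g e 0).2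
          · exact second_small hX hν (hs g hg).2.2.2 (hs g₀ hg₀).2.2.2 (hpar g e 1).1
              (hpar g e 1).2
        · intro g hg g' hg' h
          have e := (Finset.mem_filter.1 hg).2
          have e' := (Finset.mem_filter.1 hg').2
          have ht : ∀ i, t g i = t g' i := by
            intro i
            fin_cases i
            · exact congrArg Prod.fst h
            · exact congrArg Prod.snd h
          ext a i
          have b1 := hpar g e i
          have b2 := hpar g' e' i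
          rw [ht i] at b1
          fin_cases a
          · simp only [Fin.zero_eta]
            linarith [b1.1, b2.1]
          · simp only [Fin.mk_one]
            linarith [b1.2, b2.2]
    _ = 49 := by simp

theorem second_sum_fiber {X : ℝ} (hX : 0 < X) (s : Finset SL) (hs : ∀ g ∈ s, secW X g) (j : Fin 4)
    (F : GaussianInt → ℝ) (hF : ∀ ν, 0 ≤ F ν) :
    ∑ g ∈ s, F (LL g j) ≤ 49 * ∑ ν ∈ secB ⌊400000 * X⌋₊, F ν := by
  rw [Finset.sum_comp F (fun g => LL g j), Finset.mul_sum]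
  calc _ ≤ ∑ ν ∈ s.image (fun g => LL g j), 49 * F ν := by
        refine Finset.sum_le_sum fun ν _ => ?_
        rw [nsmul_eq_mul]
        refine mul_le_mul_of_nonneg_right ?_ (hF ν)
        exact_mod_cast second_fiber hX s hs j ν
    _ ≤ _ := by
        refine Finset.sum_le_sum_of_subset_of_nonneg ?_ fun ν _ _ => by have := hF ν; positivity
        intro ν hν
        obtain ⟨g, hg, rfl⟩ := Finset.mem_image.1 hν
        obtain ⟨h1, h2⟩ := second_nrm_LL hX (hs g hg) j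
        refine second_mem_secB.2 ⟨fun h => ?_, Nat.le_floor h2⟩
        rw [h] at h1
        simp only [nrm, Zsqrtd.norm_zero, Int.natAbs_zero, Nat.cast_zero] at h1
        linarith

theorem second_nu {W q : ℕ} {N : ℝ} {Pi : Finset GaussianInt} (h : Fam W q N Pi)
    {z : GaussianInt} (hz : nrm z ≠ 0) : 0 ≤ nu Pi z ∧ nu Pi z ≤ 2 ^ #(nrm z).primeFactors := by
  refine ⟨Nat.cast_nonneg _, ?_⟩
  choose! p hp using h.mem
  have h1 : #{ϖ ∈ Pi | ϖ ∣ z} ≤ #(nrm z).primeFactors := by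
    refine Finset.card_le_card_of_injOn p ?_ ?_
    · intro ϖ hϖ
      obtain ⟨h2, h3⟩ := Finset.mem_filter.1 hϖ
      refine Nat.mem_primeFactors.2 ⟨(hp ϖ h2).1, ?_, hz⟩
      refine Dvd.dvd.trans ?_ (second_nrm_dvd h3)
      rw [(hp ϖ h2).2.2.2.2]
      exact Dvd.intro_left _ rfl
    · intro ϖ hϖ ϖ' hϖ' e
      have h2 := (Finset.mem_filter.1 hϖ).1
      have h3 := (Finset.mem_filter.1 hϖ').1
      refine h.inj ϖ h2 ϖ' h3 ?_
      rw [(hp ϖ h2).2.2.2.2, (hp ϖ' h3).2.2.2.2, e]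
  have h2 := (h1.trans (Nat.lt_two_pow_self).le)
  rw [nu]
  exact_mod_cast h2

theorem second_tab (s q : ℕ) : tab s q ≤ 10 := by
  unfold tab
  split_ifs <;> omega

theorem second_base {W₀ : ℕ} {X : ℝ} (hX : 1 ≤ X) {P : Finset ℕ} (hP : ∀ p ∈ P, p.Prime) {g : SL}
    (hg : ∀ j, nrm (LL g j) ≠ 0) : 0 ≤ base W₀ X P g ∧ base W₀ X P g ≤
      (2560 * ∏ j, (2 ^ #(nrm (LL g j)).primeFactors * (1 + Real.log X) ^ 2)) ^ 2 := by
  have hR1 : 1 ≤ Rx X := Real.one_le_rpow hX (by norm_num)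
  have hRX : Rx X ≤ X := by
    calc Rx X ≤ X ^ (1 : ℝ) := Real.rpow_le_rpow_of_exponent_le hX (by norm_num)
      _ = X := Real.rpow_one X
  have hH : Hs P (Rx X) ≤ (1 + Real.log X) ^ 2 := by
    refine (Hs_le P hP hR1).trans ?_
    have := Real.log_nonneg hR1
    have := Real.log_le_log (by linarith) hRX
    gcongr
  have hLa : ∀ a j, |La P (Rx X) a (nrm (LL g j))| ≤
      2 ^ #(nrm (LL g j)).primeFactors * (1 + Real.log X) ^ 2 := fun a j =>
    (abs_lam_le P hP (cell_bound hR1 a) (hg j)).trans (by gcongr)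
  have hPhi : 0 ≤ Phi0 (qA g / X) (qB g / X) (qC g / X) ∧
      Phi0 (qA g / X) (qB g / X) (qC g / X) ≤ 1 := by
    obtain ⟨a1, a2⟩ := second_tent_mem (qA g / X)
    obtain ⟨b1, b2⟩ := second_tent_mem (qB g / X)
    obtain ⟨c1, c2⟩ := second_tent_mem (qC g / X)
    exact ⟨by unfold Phi0; positivity, mul_le_one₀ (mul_le_one₀ a2 b1 b2) c1 c2⟩
  have hind : ∀ p : Prop, 0 ≤ ind p ∧ ind p ≤ 1 := fun p => by
    unfold ind
    split_ifs <;> norm_num
  have hI : 0 ≤ ∏ j, ind (good (GG j) W₀ (LL g j)) ∧ ∏ j, ind (good (GG j) W₀ (LL g j)) ≤ 1 :=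
    ⟨Finset.prod_nonneg fun _ _ => (hind _).1,
      Finset.prod_le_one (fun _ _ => (hind _).1) fun _ _ => (hind _).2⟩
  have hS : |∑ α : Fin 4 → Fin 4, (F4 α : ℝ) * ∏ j, La P (Rx X) (α j) (nrm (LL g j))| ≤
      2560 * ∏ j, (2 ^ #(nrm (LL g j)).primeFactors * (1 + Real.log X) ^ 2) := by
    refine (Finset.abs_sum_le_sum_abs _ _).trans ?_
    calc _ ≤ ∑ _α : Fin 4 → Fin 4,
          10 * ∏ j, (2 ^ #(nrm (LL g j)).primeFactors * (1 + Real.log X) ^ 2) := by
          refine Finset.sum_le_sum fun α _ => ?_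
          rw [abs_mul, Finset.abs_prod, Nat.abs_cast]
          refine mul_le_mul ?_ (Finset.prod_le_prod (fun _ _ => abs_nonneg _) fun j _ => hLa _ j)
            (Finset.prod_nonneg fun _ _ => abs_nonneg _) (by norm_num)
          exact_mod_cast second_tab _ _
      _ = _ := by
          rw [Finset.sum_const, Finset.card_univ, Fintype.card_fun, Fintype.card_fin, nsmul_eq_mul]
          push_cast
          ring
  refine ⟨mul_nonneg (mul_nonneg hPhi.1 hI.1) (sq_nonneg _), ?_⟩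
  refine (mul_le_of_le_one_left (sq_nonneg _) (mul_le_one₀ hPhi.2 hI.1 hI.2)).trans ?_
  rw [← sq_abs]
  exact pow_le_pow_left₀ (abs_nonneg _) hS 2

theorem second_amgm (a : Fin 4 → ℝ) (ha : ∀ j, 0 ≤ a j) : ∏ j, a j ≤ ∑ j, a j ^ 4 := by
  obtain ⟨i, -, hi⟩ := Finset.exists_max_image Finset.univ a Finset.univ_nonempty
  calc ∏ j, a j ≤ ∏ _j : Fin 4, a i :=
        Finset.prod_le_prod (fun j _ => ha j) fun j hj => hi j hj
    _ = a i ^ 4 := by simp
    _ ≤ _ := Finset.single_le_sum (f := fun j => a j ^ 4) (fun j _ => by have := ha j; positivity)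
        (Finset.mem_univ i)

theorem second_moment : ∃ C : ℕ, ∀ᶠ X : ℝ in atTop, ∀ (W₀ W : ℕ) (q : Fin 4 → ℕ) (P : Finset ℕ)
    (Pi : Fin 4 → Finset GaussianInt), (∀ p ∈ P, p.Prime) →
    (∀ j, ∃ N, Fam W (q j) N (Pi j)) →
      (Function.support (base W₀ X P)).Finite ∧
      ∑' g : SL, (base W₀ X P g * ∏ j, nu (Pi j) (LL g j)) ^ 2 ≤ X * Real.log X ^ C := by
  obtain ⟨C, hC⟩ := second_sum (64 ^ 4) (by positivity)
  obtain ⟨_, hbox⟩ := count_box
  refine ⟨C + 33, ?_⟩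
  filter_upwards [(tendsto_id.const_mul_atTop (show (0 : ℝ) < 400000 by norm_num)).eventually hC,
    eventually_ge_atTop (400000 : ℝ), Real.tendsto_log_atTop.eventually_ge_atTop
      (max 1 (2560 ^ 4 * 2 ^ 32 * (4 * (49 * (400000 * 2 ^ C)))))] with X hsum hX hL
  intro W₀ W q P Pi hP hF
  simp only [id] at hsum
  have hX0 : 0 < X := by linarith
  have hL1 : 1 ≤ Real.log X := (le_max_left _ _).trans hL
  have hL2 := (le_max_right _ _).trans hL
  have hfin : (Function.support (base W₀ X P)).Finite := by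
    refine (hbox (3 * X) (3 * X) (by linarith) (by linarith)).1.subset fun g hg => ?_
    have := second_window hX0 hg
    exact ⟨this.1.2.le, this.2.2.2.le⟩
  refine ⟨hfin, ?_⟩
  rw [tsum_eq_sum (s := hfin.toFinset) fun g hg => by
    rw [Set.Finite.mem_toFinset, Function.mem_support, not_not] at hg
    simp [hg]]
  have hw : ∀ g ∈ hfin.toFinset, secW X g := fun g hg =>
    second_window hX0 (hfin.mem_toFinset.1 hg)
  have hterm : ∀ g ∈ hfin.toFinset, (base W₀ X P g * ∏ j, nu (Pi j) (LL g j)) ^ 2 ≤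
      2560 ^ 4 * (1 + Real.log X) ^ 32 *
        ∑ j, ((64 : ℝ) ^ 4) ^ #(nrm (LL g j)).primeFactors := by
    intro g hg
    have hne : ∀ j, nrm (LL g j) ≠ 0 := fun j h => by
      have := (second_nrm_LL hX0 (hw g hg) j).1
      rw [h, Nat.cast_zero] at this
      linarith
    obtain ⟨b1, b2⟩ := second_base (W₀ := W₀) (X := X) (by linarith) hP hne
    have hnu : ∀ j, 0 ≤ nu (Pi j) (LL g j) ∧
        nu (Pi j) (LL g j) ≤ 2 ^ #(nrm (LL g j)).primeFactors := fun j => by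
      obtain ⟨N, hN⟩ := hF j
      exact second_nu hN (hne j)
    have n1 : 0 ≤ ∏ j, nu (Pi j) (LL g j) := Finset.prod_nonneg fun j _ => (hnu j).1
    have n2 : ∏ j, nu (Pi j) (LL g j) ≤ ∏ j, (2 : ℝ) ^ #(nrm (LL g j)).primeFactors :=
      Finset.prod_le_prod (fun j _ => (hnu j).1) fun j _ => (hnu j).2
    have am := second_amgm (fun j => (64 : ℝ) ^ #(nrm (LL g j)).primeFactors)
      fun j => by positivity
    calc _ ≤ ((2560 * ∏ j, (2 ^ #(nrm (LL g j)).primeFactors * (1 + Real.log X) ^ 2)) ^ 2 *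
          ∏ j, (2 : ℝ) ^ #(nrm (LL g j)).primeFactors) ^ 2 := by gcongr
      _ = 2560 ^ 4 * (1 + Real.log X) ^ 32 * ∏ j, (64 : ℝ) ^ #(nrm (LL g j)).primeFactors := by
          have e : ∀ m : ℕ, (64 : ℝ) ^ m = (2 ^ m) ^ 6 := fun m => by
            rw [← pow_mul, mul_comm, pow_mul]
            norm_num
          simp only [Fin.prod_univ_four, e]
          generalize 1 + Real.log X = H
          generalize (2 : ℝ) ^ #(nrm (LL g 0)).primeFactors = a0
          generalize (2 : ℝ) ^ #(nrm (LL g 1)).primeFactors = a1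
          generalize (2 : ℝ) ^ #(nrm (LL g 2)).primeFactors = a2
          generalize (2 : ℝ) ^ #(nrm (LL g 3)).primeFactors = a3
          ring
      _ ≤ _ := by
          refine mul_le_mul_of_nonneg_left (am.trans (le_of_eq ?_)) (by positivity)
          exact Finset.sum_congr rfl fun j _ => by rw [← pow_mul, mul_comm, pow_mul]
  have hlog : Real.log (400000 * X) ≤ 2 * Real.log X := by
    rw [Real.log_mul (by norm_num) hX0.ne']
    linarith [Real.log_le_log (by norm_num) hX]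
  have hlog0 : 0 ≤ Real.log (400000 * X) := Real.log_nonneg (by linarith)
  calc _ ≤ ∑ g ∈ hfin.toFinset, 2560 ^ 4 * (1 + Real.log X) ^ 32 *
        ∑ j, ((64 : ℝ) ^ 4) ^ #(nrm (LL g j)).primeFactors := Finset.sum_le_sum hterm
    _ ≤ 2560 ^ 4 * (1 + Real.log X) ^ 32 *
        ∑ _j : Fin 4, 49 * (400000 * X * Real.log (400000 * X) ^ C) := by
        rw [← Finset.mul_sum, Finset.sum_comm]
        refine mul_le_mul_of_nonneg_left (Finset.sum_le_sum fun j _ => ?_) (by positivity)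
        refine (second_sum_fiber hX0 _ hw j (fun ν => ((64 : ℝ) ^ 4) ^ #(nrm ν).primeFactors)
          fun _ => by positivity).trans ?_
        exact mul_le_mul_of_nonneg_left hsum (by norm_num)
    _ ≤ 2560 ^ 4 * (2 * Real.log X) ^ 32 *
        ∑ _j : Fin 4, 49 * (400000 * X * (2 * Real.log X) ^ C) := by
        gcongr
        linarith
    _ = 2560 ^ 4 * 2 ^ 32 * (4 * (49 * (400000 * 2 ^ C))) * (X * Real.log X ^ (C + 32)) := by
        rw [Finset.sum_const, Finset.card_univ, Fintype.card_fin, nsmul_eq_mul]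
        push_cast
        ring
    _ ≤ Real.log X * (X * Real.log X ^ (C + 32)) := by gcongr
    _ = _ := by ring

end Pool.Agent.P.MP_a1177c_nt.EK
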