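import Pool.Agent.P.MP_a1177c_nt.EK.Defs

set_option autoImplicit false

namespace Pool.Agent.P.MP_a1177c_nt.EK

open Finset Filter
open scoped Classical

def solvA : Fin 4 → ℤ :=
  ![3199486439402500, 2787181485871250, 86514113321443600, 86926418274974850]
def solvB : Fin 4 → ℤ := ![1202567200, -5753309250, -73032651016, -66076774566]
def solvC : Fin 4 → ℤ := ![113, 2969, 15413, 12557]

/-- The cofactors along the one parameter family. -/
def solvM (s : ℤ) : Fin 4 → GaussianInt :=
  ![⟨7 + 37248000 * s, 8 + 42568450 * s⟩, ⟨-37 + 35849125 * s, -40 + 38755925 * s⟩,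
    ⟨122 - 289041376 * s, -23 + 54490332 * s⟩, ⟨-94 + 247320249 * s, -61 + 160496457 * s⟩]

/-- The one parameter family of matrices. -/
def solvG (s : ℤ) : SL :=
  ⟨!![-61 - 396 * (819650 * s), 335 - 396 * (819650 * s);
      124 + 805 * (819650 * s), -681 + 805 * (819650 * s)], by
    rw [Matrix.det_fin_two_of]; ring⟩

theorem solv_LL (s : ℤ) (j : Fin 4) : LL (solvG s) j = GG j * solvM s j := by
  fin_cases j <;> ext <;> simp [LL, act, solvG, GG, solvM, vx, vy] <;> ring

theorem solv_norm (s : ℤ) (j : Fin 4) :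
    (solvM s j).norm = solvA j * s ^ 2 + solvB j * s + solvC j := by
  fin_cases j <;> simp [solvM, solvA, solvB, solvC, Zsqrtd.norm_def] <;> ring

theorem solv_cop (j : Fin 4) : IsCoprime (solvA j) (solvC j) := by
  rw [Int.isCoprime_iff_gcd_eq_one]
  fin_cases j <;> decide +kernel

theorem solv_prime (p : ℕ) (hp : p.Prime) :
    ∃ s : ℕ, ∀ j, ¬ (p : ℤ) ∣ solvA j * (s : ℤ) ^ 2 + solvB j * s + solvC j := by
  rcases le_or_gt p 8 with h | h
  · refine ⟨0, fun j => ?_⟩
    have h2 := hp.two_le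
    simp only [Nat.cast_zero, mul_zero, ne_eq, OfNat.ofNat_ne_zero, not_false_eq_true, zero_pow,
      zero_add]
    interval_cases p <;> fin_cases j <;> decide
  · have := Fact.mk hp
    let f : Fin 4 → Polynomial (ZMod p) := fun j =>
      Polynomial.C (solvA j : ZMod p) * Polynomial.X ^ 2 +
        Polynomial.C (solvB j : ZMod p) * Polynomial.X + Polynomial.C (solvC j : ZMod p)
    have hf : ∀ j, f j ≠ 0 := fun j h0 => by
      have e2 : (f j).coeff 2 = (solvA j : ZMod p) := by
        simp only [f, Polynomial.coeff_add, Polynomial.coeff_C_mul, Polynomial.coeff_X_pow,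
          Polynomial.coeff_X, Polynomial.coeff_C]
        simp
      have e0 : (f j).coeff 0 = (solvC j : ZMod p) := by
        simp only [f, Polynomial.coeff_add, Polynomial.coeff_C_mul, Polynomial.coeff_X_pow,
          Polynomial.coeff_X, Polynomial.coeff_C]
        simp
      rw [h0, Polynomial.coeff_zero, eq_comm, ZMod.intCast_zmod_eq_zero_iff_dvd] at e2 e0
      have := (solv_cop j).isUnit_of_dvd' e2 e0
      rw [Int.isUnit_iff_natAbs_eq, Int.natAbs_natCast] at this
      omega
    have hd : (∏ j, f j).natDegree ≤ 8 := by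
      refine (Polynomial.natDegree_prod_le _ _).trans ?_
      calc ∑ j, (f j).natDegree ≤ ∑ _j : Fin 4, 2 :=
            sum_le_sum fun j _ => Polynomial.natDegree_quadratic_le
        _ = 8 := by simp
    obtain ⟨r, hr⟩ := Polynomial.exists_eval_ne_zero_of_natDegree_lt_card (∏ j, f j)
      (prod_ne_zero_iff.2 fun j _ => hf j) (by
        rw [Cardinal.mk_fintype, ZMod.card]
        exact_mod_cast lt_of_le_of_lt hd h)
    refine ⟨r.val, fun j hj => hr ?_⟩
    rw [Polynomial.eval_prod]
    refine prod_eq_zero (mem_univ j) ?_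
    rw [← ZMod.intCast_zmod_eq_zero_iff_dvd] at hj
    push_cast at hj
    rw [ZMod.natCast_zmod_val] at hj
    simpa [f] using hj

theorem local_solv (W₀ : ℕ) (hW : 0 < W₀) : ∃ g : SL, ∀ j, good (GG j) W₀ (LL g j) := by
  have hs : ∀ p : ℕ, ∃ s : ℕ, p.Prime →
      ∀ j, ¬ (p : ℤ) ∣ solvA j * (s : ℤ) ^ 2 + solvB j * s + solvC j := fun p => by
    by_cases hp : p.Prime
    · obtain ⟨s, h⟩ := solv_prime p hp
      exact ⟨s, fun _ => h⟩
    · exact ⟨0, fun h => absurd h hp⟩
  choose s hs using hs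
  obtain ⟨k, hk⟩ := Nat.chineseRemainderOfFinset s (fun p => p) W₀.primeFactors
    (fun p hp => (Nat.prime_of_mem_primeFactors hp).ne_zero)
    (fun p hp q hq hpq => (Nat.coprime_primes (Nat.prime_of_mem_primeFactors hp)
      (Nat.prime_of_mem_primeFactors hq)).2 hpq)
  refine ⟨solvG k, fun j => ⟨solvM k j, solv_LL k j, ?_⟩⟩
  by_contra hc
  obtain ⟨p, hp, h1, h2⟩ := Nat.Prime.not_coprime_iff_dvd.1 hc
  have h3 : (p : ℤ) ∣ (s p : ℤ) - k :=
    (hk p (Nat.mem_primeFactors.2 ⟨hp, h2, hW.ne'⟩)).dvd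
  unfold nrm at h1
  rw [← Int.natCast_dvd, solv_norm] at h1
  refine hs p hp j ?_
  have e : solvA j * (s p : ℤ) ^ 2 + solvB j * s p + solvC j =
      solvA j * (k : ℤ) ^ 2 + solvB j * k + solvC j +
        ((s p : ℤ) - k) * (solvA j * (s p + k) + solvB j) := by ring
  rw [e]
  exact h1.add (h3.mul_right _)

end Pool.Agent.P.MP_a1177c_nt.EK
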