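import Pool.Agent.P.MP_a1177c_nt.EK.Unfold

set_option autoImplicit false

namespace Pool.Agent.P.MP_a1177c_nt.EK

open Finset Filter
open scoped Classical

noncomputable section

/-- The indicator of `C` read on the quotient modulo `M`. -/
def spc (M : ℕ) (C : Set SL) (x : SL ⧸ CongruenceSubgroup.Gamma M) : ℝ := ind (x.out ∈ C)

theorem spc_mk {M : ℕ} {C : Set SL} (hL : Lev M fun h => ind (h ∈ C)) (g : SL) :
    spc M C (g : SL ⧸ CongruenceSubgroup.Gamma M) = ind (g ∈ C) := by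
  obtain ⟨γ, hγ⟩ := QuotientGroup.mk_out_eq_mul (CongruenceSubgroup.Gamma M) g
  unfold spc
  rw [hγ]
  exact hL g γ γ.2

theorem spc_smul {M : ℕ} {C : Set SL} (hL : Lev M fun h => ind (h ∈ C)) (g g' : SL) :
    spc M C (g • (g' : SL ⧸ CongruenceSubgroup.Gamma M)) = ind (g * g' ∈ C) := by
  rw [MulAction.Quotient.smul_coe, smul_eq_mul, spc_mk hL]

theorem sp_ind_nonneg (p : Prop) : 0 ≤ ind p := by
  unfold ind; split_ifs <;> norm_num

theorem sp_ind_le (p : Prop) : ind p ≤ 1 := by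
  unfold ind; split_ifs <;> norm_num

theorem sp_sum_smul {M : ℕ} [Fintype (SL ⧸ CongruenceSubgroup.Gamma M)]
    (f : SL ⧸ CongruenceSubgroup.Gamma M → ℝ) (g : SL) : ∑ x, f (g • x) = ∑ x, f x :=
  Equiv.sum_comp (MulAction.toPerm g) f

theorem sp_corr {M : ℕ} [Fintype (SL ⧸ CongruenceSubgroup.Gamma M)] {C : Set SL} (hC : Cos C)
    (hL : Lev M fun h => ind (h ∈ C)) {h₀ : SL} (h0 : h₀ ∈ C) (g : SL) :
    ∑ x, spc M C (g • x) * spc M C x = (∑ x, spc M C x) * ind (g * h₀ ∈ C) := by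
  rw [Finset.sum_mul]
  refine Finset.sum_congr rfl fun x _ => ?_
  induction x using QuotientGroup.induction_on with
  | H g' =>
    rw [spc_smul hL, spc_mk hL]
    by_cases hg : g' ∈ C
    · have : g * g' ∈ C ↔ g * h₀ ∈ C := by
        constructor
        · intro h
          have := hC _ h _ hg _ h0
          simpa [mul_assoc] using this
        · intro h
          have := hC _ h _ h0 _ hg
          simpa [mul_assoc] using this
      rw [this, mul_comm]
    · simp [ind, hg]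

theorem sp_corr2 {M : ℕ} [Fintype (SL ⧸ CongruenceSubgroup.Gamma M)] {C : Set SL} (hC : Cos C)
    (hL : Lev M fun h => ind (h ∈ C)) {h₀ : SL} (h0 : h₀ ∈ C) (g g' : SL) :
    ∑ x, spc M C (g • x) * spc M C (g' • x) = (∑ x, spc M C x) * ind (g * g'⁻¹ * h₀ ∈ C) := by
  rw [← sp_corr hC hL h0, ← sp_sum_smul (fun x => spc M C ((g * g'⁻¹) • x) * spc M C x) g']
  refine Finset.sum_congr rfl fun x _ => ?_
  simp [smul_smul]

theorem sp_mean_eq {M : ℕ} [Fintype (SL ⧸ CongruenceSubgroup.Gamma M)] (F : SL → ℝ) :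
    mean M F = (∑ x : SL ⧸ CongruenceSubgroup.Gamma M, F x.out) /
      Fintype.card (SL ⧸ CongruenceSubgroup.Gamma M) := by
  unfold mean
  rw [finsum_eq_sum_of_fintype, Nat.card_eq_fintype_card]

theorem sp_sum_right {M : ℕ} [Fintype (SL ⧸ CongruenceSubgroup.Gamma M)] {C : Set SL}
    (hL : Lev M fun h => ind (h ∈ C)) (h₀ : SL) :
    ∑ x : SL ⧸ CongruenceSubgroup.Gamma M, ind (x.out * h₀ ∈ C) = ∑ x, spc M C x := by
  have := CongruenceSubgroup.Gamma_normal M
  rw [← Equiv.sum_comp (Equiv.mulRight (h₀ : SL ⧸ CongruenceSubgroup.Gamma M)) (spc M C)]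
  refine Finset.sum_congr rfl fun x _ => ?_
  have : x * (h₀ : SL ⧸ CongruenceSubgroup.Gamma M) = ((x.out * h₀ : SL) : _) := by
    rw [QuotientGroup.mk_mul, QuotientGroup.out_eq']
  rw [Equiv.coe_mulRight]
  simp only
  rw [this, spc_mk hL]

theorem sp_diag {I : Type} {B : I → I → ℝ} (h : Psd B) (i : I) : 0 ≤ B i i := by
  simpa using h.2 {i} fun _ => 1

theorem sp_gram {Ω : Type} [Fintype Ω] (ρ : SL →* Equiv.Perm Ω) {κ k : ℤ → ℝ → ℝ}
    (hκ : ∀ n, Ker (κ n)) (hev : ∀ n, k (-n) = k n)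
    (hprod : ∀ (n m : ℤ) (z w : UpperHalfPlane),
      ∫ ζ : UpperHalfPlane, κ n (ch z ζ) * κ m (ch ζ w) =
        (k (n + m) (ch z w) + k (n - m) (ch z w)) / 2)
    (hsup : ∀ n, ∃ R, ∀ u, R < u → k n u = 0) (z w : UpperHalfPlane) (a b : Ω → ℝ) :
    Psd (gram (fun n => ∑' h : SL, k n (ch z (h • z)) * ∑ x, a (ρ h x) * a x)
      (fun n => ∑' h : SL, k n (ch w (h • w)) * ∑ x, b (ρ h x) * b x)
      (fun n => ∑' h : SL, k n (ch z (h • w)) * ∑ x, a (ρ h x) * b x)) := by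
  have hs : ∀ (n : ℤ) (z w : UpperHalfPlane) (F : SL → ℝ),
      Summable fun h : SL => k n (ch z (h • w)) * F h := by
    intro n z w F
    obtain ⟨R, hR⟩ := hsup n
    refine summable_of_hasFiniteSupport ((finite_ch z w R).subset ?_)
    intro h hh
    by_contra hc
    have hc' : R < ch z (h • w) := lt_of_not_ge hc
    exact hh (by simp only [hR _ hc', zero_mul])
  have key : ∀ (n m : ℤ) (z w : UpperHalfPlane) (F : SL → ℝ),
      ∑' h : SL, (∫ ζ : UpperHalfPlane, κ n (ch z ζ) * κ m (ch ζ (h • w))) * F h =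
        (∑' h : SL, k (n + m) (ch z (h • w)) * F h +
          ∑' h : SL, k (n - m) (ch z (h • w)) * F h) / 2 := by
    intro n m z w F
    rw [← (hs _ _ _ _).tsum_add (hs _ _ _ _), ← tsum_div_const]
    refine tsum_congr fun h => ?_
    rw [hprod]; ring
  have P := unfold ρ (I := ℤ ⊕ ℤ) (Sum.elim κ κ) (by rintro (i | i) <;> exact hκ i)
    (Sum.elim (fun _ => z) fun _ => w) (Sum.elim (fun _ => a) fun _ => b)
  convert P using 1
  funext i j
  rcases i with n | n <;> rcases j with m | m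
  · simp only [gram, Sum.elim_inl]; rw [key]
  · simp only [gram, Sum.elim_inl, Sum.elim_inr]; rw [key]
  · have := P.1 (Sum.inr n) (Sum.inl m)
    simp only at this
    rw [this]
    simp only [gram, Sum.elim_inl, Sum.elim_inr]
    rw [key, add_comm m n, ← hev (m - n), neg_sub]
  · simp only [gram, Sum.elim_inr]; rw [key]

theorem sp_psd {M : ℕ} (hM : 0 < M) {C : Set SL} (hC : Cos C)
    (hL : Lev M fun h => ind (h ∈ C)) {h₀ : SL} (h0 : h₀ ∈ C) {κ k : ℤ → ℝ → ℝ}
    (hκ : ∀ n, Ker (κ n)) (hev : ∀ n, k (-n) = k n)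
    (hprod : ∀ (n m : ℤ) (z w : UpperHalfPlane),
      ∫ ζ : UpperHalfPlane, κ n (ch z ζ) * κ m (ch ζ w) =
        (k (n + m) (ch z w) + k (n - m) (ch z w)) / 2)
    (hsup : ∀ n, ∃ R, ∀ u, R < u → k n u = 0) (z w : UpperHalfPlane) :
    Psd (gram
      (fun n => ∑' h : SL, k n (ch z (h • z)) * (ind (h * h₀ ∈ C) - mean M fun h => ind (h ∈ C)))
      (fun n => ∑' h : SL, k n (ch w (h • w)) * ind (h₀ * h ∈ C))
      (fun n => ∑' h : SL, k n (ch z (h • w)) * (ind (h ∈ C) - mean M fun h => ind (h ∈ C)))) := by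
  have : NeZero M := ⟨hM.ne'⟩
  have : Fintype (SL ⧸ CongruenceSubgroup.Gamma M) := Fintype.ofFinite _
  set N : ℝ := ∑ x, spc M C x with hN
  set G : ℝ := ((Fintype.card (SL ⧸ CongruenceSubgroup.Gamma M) : ℕ) : ℝ) with hG
  have hGpos : 0 < G := by
    rw [hG]; exact_mod_cast Fintype.card_pos
  have hNpos : 0 < N := by
    have h1 : spc M C (h₀ : SL ⧸ CongruenceSubgroup.Gamma M) = 1 := by
      rw [spc_mk hL]; simp [ind, h0]
    have := Finset.single_le_sum (f := spc M C) (s := univ)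
      (fun x _ => sp_ind_nonneg _) (mem_univ (h₀ : SL ⧸ CongruenceSubgroup.Gamma M))
    linarith
  have hμ : (mean M fun h => ind (h ∈ C)) = N / G := by
    rw [sp_mean_eq]; rfl
  set μ : ℝ := mean M fun h => ind (h ∈ C)
  have hsq : √N * √N = N := Real.mul_self_sqrt hNpos.le
  have hs0 : √N ≠ 0 := (Real.sqrt_pos.2 hNpos).ne'
  have P := sp_gram (MulAction.toPermHom SL (SL ⧸ CongruenceSubgroup.Gamma M)) hκ hev hprod hsup
    z w (fun x => (spc M C x - μ) / √N) (fun x => spc M C (h₀ • x) / √N)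
  have e1 : ∀ h : SL, ∑ x, (spc M C (h • x) - μ) / √N * ((spc M C x - μ) / √N) =
      ind (h * h₀ ∈ C) - μ := by
    intro h
    have : ∀ x, (spc M C (h • x) - μ) / √N * ((spc M C x - μ) / √N) =
        (spc M C (h • x) * spc M C x - μ * spc M C (h • x) - μ * spc M C x + μ ^ 2) / N := by
      intro x
      rw [div_mul_div_comm, hsq]; ring
    simp only [this]
    rw [← Finset.sum_div, Finset.sum_add_distrib, Finset.sum_sub_distrib, Finset.sum_sub_distrib,
      ← Finset.mul_sum, ← Finset.mul_sum, sp_corr hC hL h0, sp_sum_smul (spc M C) h]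
    simp only [Finset.sum_const, card_univ, nsmul_eq_mul]
    rw [← hN, ← hG, hμ]
    field_simp
    ring
  have e2 : ∀ h : SL, ∑ x, spc M C (h₀ • h • x) / √N * (spc M C (h₀ • x) / √N) =
      ind (h₀ * h ∈ C) := by
    intro h
    have : ∀ x, spc M C (h₀ • h • x) / √N * (spc M C (h₀ • x) / √N) =
        (spc M C ((h₀ * h) • x) * spc M C (h₀ • x)) / N := by
      intro x
      rw [div_mul_div_comm, hsq, smul_smul]
    simp only [this]
    rw [← Finset.sum_div, sp_corr2 hC hL h0, ← hN]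
    field_simp
    simp
  have e3 : ∀ h : SL, ∑ x, (spc M C (h • x) - μ) / √N * (spc M C (h₀ • x) / √N) =
      ind (h ∈ C) - μ := by
    intro h
    have : ∀ x, (spc M C (h • x) - μ) / √N * (spc M C (h₀ • x) / √N) =
        (spc M C (h • x) * spc M C (h₀ • x) - μ * spc M C (h₀ • x)) / N := by
      intro x
      rw [div_mul_div_comm, hsq]; ring
    simp only [this]
    rw [← Finset.sum_div, Finset.sum_sub_distrib, ← Finset.mul_sum, sp_corr2 hC hL h0,
      sp_sum_smul (spc M C) h₀, ← hN]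
    field_simp
    simp
  simp only [MulAction.toPermHom_apply, MulAction.toPerm_apply] at P
  simp only [e1, e2, e3] at P
  exact P

theorem sp_const {κ k : ℤ → ℝ → ℝ}
    (hκ : ∀ n, Ker (κ n)) (hev : ∀ n, k (-n) = k n)
    (hprod : ∀ (n m : ℤ) (z w : UpperHalfPlane),
      ∫ ζ : UpperHalfPlane, κ n (ch z ζ) * κ m (ch ζ w) =
        (k (n + m) (ch z w) + k (n - m) (ch z w)) / 2)
    (hsup : ∀ n, ∃ R, ∀ u, R < u → k n u = 0) (z : UpperHalfPlane) (m : ℤ) :
    0 ≤ ∑' h : SL, k (2 * m) (ch z (h • z)) + 3 * ∑' h : SL, k 0 (ch z (h • z)) := by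
  have P := sp_gram (Ω := Unit) 1 hκ hev hprod hsup z z (fun _ => 1) (fun _ => 1)
  have h1 := sp_diag P (Sum.inl m)
  have h2 := sp_diag P (Sum.inl 0)
  simp only [gram, mul_one, Finset.sum_const, card_univ, Fintype.card_unit, one_smul,
    sub_self, add_zero] at h1 h2
  rw [two_mul]
  linarith

theorem sp_mean_zero {M : ℕ} (hM : 0 < M) {C : Set SL} (hL : Lev M fun h => ind (h ∈ C))
    (h₀ : SL) :
    mean M (fun h => ind (h * h₀ ∈ C) - mean M fun h => ind (h ∈ C)) = 0 := by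
  have : NeZero M := ⟨hM.ne'⟩
  have : Fintype (SL ⧸ CongruenceSubgroup.Gamma M) := Fintype.ofFinite _
  have hGpos : (0 : ℝ) < Fintype.card (SL ⧸ CongruenceSubgroup.Gamma M) := by
    exact_mod_cast Fintype.card_pos
  rw [sp_mean_eq, sp_mean_eq, Finset.sum_sub_distrib, sp_sum_right hL]
  simp only [Finset.sum_const, card_univ, nsmul_eq_mul]
  have : ∑ x : SL ⧸ CongruenceSubgroup.Gamma M, ind (x.out ∈ C) = ∑ x, spc M C x := rfl
  rw [this]
  field_simp
  ring

theorem sp_mean_bd {M : ℕ} (hM : 0 < M) (C : Set SL) :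
    0 ≤ (mean M fun h => ind (h ∈ C)) ∧ (mean M fun h => ind (h ∈ C)) ≤ 1 := by
  have : NeZero M := ⟨hM.ne'⟩
  have : Fintype (SL ⧸ CongruenceSubgroup.Gamma M) := Fintype.ofFinite _
  have hGpos : (0 : ℝ) < Fintype.card (SL ⧸ CongruenceSubgroup.Gamma M) := by
    exact_mod_cast Fintype.card_pos
  rw [sp_mean_eq]
  refine ⟨div_nonneg (Finset.sum_nonneg fun _ _ => sp_ind_nonneg _) hGpos.le, ?_⟩
  rw [div_le_one hGpos]
  calc ∑ x : SL ⧸ CongruenceSubgroup.Gamma M, ind (x.out ∈ C)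
      ≤ ∑ _x : SL ⧸ CongruenceSubgroup.Gamma M, (1 : ℝ) :=
        Finset.sum_le_sum fun _ _ => sp_ind_le _
    _ = _ := by simp

theorem sp_lev_right {M : ℕ} {C : Set SL} (hL : Lev M fun h => ind (h ∈ C)) (h₀ : SL) (μ : ℝ) :
    Lev M fun h => ind (h * h₀ ∈ C) - μ := by
  intro h γ hγ
  have hn := (CongruenceSubgroup.Gamma_normal M).conj_mem γ hγ h₀⁻¹
  have := hL (h * h₀) _ hn
  simp only [inv_inv] at this
  have e : h * h₀ * (h₀⁻¹ * γ * h₀) = h * γ * h₀ := by group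
  rw [e] at this
  simp only
  rw [this]

end

end Pool.Agent.P.MP_a1177c_nt.EK
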