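import Pool.Agent.P.MP_a1177c_nt.EK.Defs

set_option autoImplicit false

namespace Pool.Agent.P.MP_a1177c_nt.EK

open Finset Filter MeasureTheory
open scoped Classical MatrixGroups

theorem unfold_smul_eq (h : SL) (w : UpperHalfPlane) :
    h • w = (Matrix.SpecialLinearGroup.map (Int.castRingHom ℝ) h : SL(2, ℝ)) • w := by
  ext
  rw [UpperHalfPlane.coe_specialLinearGroup_apply, UpperHalfPlane.coe_specialLinearGroup_apply]
  simp

theorem unfold_dist_smul (h : SL) (z w : UpperHalfPlane) : dist (h • z) (h • w) = dist z w := by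
  rw [unfold_smul_eq h z, unfold_smul_eq h w, dist_smul]

theorem unfold_continuous (h : SL) : Continuous fun z : UpperHalfPlane => h • z := by
  have : Isometry fun z : UpperHalfPlane => h • z :=
    Isometry.of_dist_eq fun z w => unfold_dist_smul h z w
  exact this.continuous

theorem unfold_integral_smul (h : SL) (f : UpperHalfPlane → ℝ) :
    ∫ ζ, f (h • ζ) = ∫ ζ, f ζ := by
  have : ∀ ζ : UpperHalfPlane, h • ζ = (h : GL (Fin 2) ℝ) • ζ := fun ζ => rfl
  simp only [this]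
  exact integral_smul_eq_self (μ := volume) f

theorem unfold_integrable_smul (h : SL) {f : UpperHalfPlane → ℝ} (hf : Integrable f) :
    Integrable fun ζ => f (h • ζ) := by
  have : ∀ ζ : UpperHalfPlane, h • ζ = (h : GL (Fin 2) ℝ) • ζ := fun ζ => rfl
  simp only [this]
  exact (measurePreserving_smul (h : GL (Fin 2) ℝ) volume).integrable_comp_of_integrable hf

theorem unfold_finite_dist (z w : UpperHalfPlane) (r : ℝ) :
    {h : SL | dist z (h • w) ≤ r}.Finite := by
  set φ := Matrix.SpecialLinearGroup.map (n := Fin 2) (Int.castRingHom ℝ) with hφ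
  have hfin := ProperlyDiscontinuousSMul.finite_disjoint_inter_image (Γ := φ.range)
    (T := UpperHalfPlane) (isCompact_singleton (x := w)) (isCompact_closedBall z r)
  have hinj : Function.Injective φ.rangeRestrict := by
    intro a b hab
    have : φ a = φ b := congrArg Subtype.val hab
    exact Matrix.SpecialLinearGroup.map_intCast_injective (R := ℝ) this
  refine (hfin.preimage hinj.injOn).subset ?_
  intro h hh
  refine ⟨h • w, ⟨w, rfl, ?_⟩, ?_⟩
  · exact (unfold_smul_eq h w).symm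
  · rw [Metric.mem_closedBall, dist_comm]; exact hh

theorem unfold_dist_le_ch (z w : UpperHalfPlane) : dist z w ≤ 2 * ch z w := by
  unfold ch
  have h1 := Real.add_one_le_exp (dist z w)
  have h2 := Real.exp_pos (-dist z w)
  rw [Real.cosh_eq]
  linarith

theorem finite_ch (z w : UpperHalfPlane) (R : ℝ) : {h : SL | ch z (h • w) ≤ R}.Finite := by
  refine (unfold_finite_dist z w (2 * R)).subset fun h hh => ?_
  have := unfold_dist_le_ch z (h • w)
  simp only [Set.mem_ofPred_eq] at hh ⊢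
  linarith

/-- Unfolding: a function supported in `B` whose orbit sums are nonnegative has a
nonnegative integral. -/
theorem unfold_nonneg (B : Set UpperHalfPlane) (hB : MeasurableSet B) (T : Finset SL)
    (hT : ∀ (g : SL) ζ, ζ ∈ B → g • ζ ∈ B → g ∈ T) (G : UpperHalfPlane → ℝ) (hG : Integrable G)
    (hGB : ∀ ζ, ζ ∉ B → G ζ = 0) (hpos : ∀ ζ ∈ B, 0 ≤ ∑ γ ∈ T, G (γ⁻¹ • ζ)) :
    0 ≤ ∫ ζ, G ζ := by
  set e : UpperHalfPlane → ℝ := B.indicator 1 with he
  have he0 : ∀ ζ, 0 ≤ e ζ := fun ζ => Set.indicator_nonneg (fun _ _ => zero_le_one) ζ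
  have heB : ∀ ζ ∈ B, e ζ = 1 := fun ζ h => Set.indicator_of_mem h _
  have heN : ∀ ζ, ζ ∉ B → e ζ = 0 := fun ζ h => Set.indicator_of_notMem h _
  have hem : Measurable e := measurable_one.indicator hB
  set n : UpperHalfPlane → ℝ := fun ζ => ∑ γ ∈ T, e (γ • ζ) with hn
  have hnm : Measurable n :=
    Finset.measurable_sum _ fun γ _ => hem.comp (unfold_continuous γ).measurable
  have hn1 : ∀ ζ ∈ B, 1 ≤ n ζ := by
    intro ζ hζ
    have h1 : (1 : SL) ∈ T := hT 1 ζ hζ (by rwa [one_smul])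
    have := Finset.single_le_sum (f := fun γ : SL => e (γ • ζ)) (fun γ _ => he0 _) h1
    simp only [one_smul, heB ζ hζ] at this
    exact this
  have hnt : ∀ ζ ∈ B, n ζ = ∑' γ : SL, e (γ • ζ) := by
    intro ζ hζ
    refine (tsum_eq_sum fun γ hγ => heN _ fun h => hγ (hT γ ζ hζ h)).symm
  have hninv : ∀ (g : SL) ζ, ζ ∈ B → g • ζ ∈ B → n (g • ζ) = n ζ := by
    intro g ζ h1 h2
    rw [hnt _ h1, hnt _ h2, ← (Equiv.mulRight g).tsum_eq fun γ : SL => e (γ • ζ)]
    simp only [Equiv.coe_mulRight, mul_smul]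
  set χ : UpperHalfPlane → ℝ := fun ζ => e ζ / n ζ with hχ
  have hχm : Measurable χ := hem.div hnm
  have hχ0 : ∀ ζ, 0 ≤ χ ζ := fun ζ =>
    div_nonneg (he0 ζ) (Finset.sum_nonneg fun γ _ => he0 _)
  have hχ1 : ∀ ζ, ‖χ ζ‖ ≤ 1 := by
    intro ζ
    rw [Real.norm_of_nonneg (hχ0 ζ)]
    by_cases h : ζ ∈ B
    · simp only [hχ, heB ζ h]
      exact (div_le_one (by linarith [hn1 ζ h])).2 (hn1 ζ h)
    · simp [hχ, heN ζ h]
  have hχs : ∀ ζ ∈ B, ∑ γ ∈ T, χ (γ • ζ) = 1 := by
    intro ζ hζ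
    have : ∀ γ ∈ T, χ (γ • ζ) = e (γ • ζ) / n ζ := by
      intro γ _
      by_cases h : γ • ζ ∈ B
      · simp only [hχ, hninv γ ζ hζ h]
      · simp only [hχ, heN _ h, zero_div]
    rw [Finset.sum_congr rfl this, ← Finset.sum_div]
    exact div_self (by linarith [hn1 ζ hζ])
  have hint : ∀ γ : SL, Integrable fun ζ => χ ζ * G (γ⁻¹ • ζ) := fun γ =>
    (unfold_integrable_smul γ⁻¹ hG).bdd_mul hχm.aestronglyMeasurable (Eventually.of_forall hχ1)
  have hint' : ∀ γ : SL, Integrable fun ζ => χ (γ • ζ) * G ζ := fun γ => by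
    simpa only [inv_smul_smul] using unfold_integrable_smul γ (hint γ)
  calc (0 : ℝ) ≤ ∫ ζ, ∑ γ ∈ T, χ ζ * G (γ⁻¹ • ζ) := by
        refine integral_nonneg fun ζ => ?_
        simp only [Pi.zero_apply, ← Finset.mul_sum]
        by_cases h : ζ ∈ B
        · exact mul_nonneg (hχ0 ζ) (hpos ζ h)
        · simp [hχ, heN ζ h]
    _ = ∑ γ ∈ T, ∫ ζ, χ ζ * G (γ⁻¹ • ζ) := integral_finsetSum _ fun γ _ => hint γ
    _ = ∑ γ ∈ T, ∫ ζ, χ (γ • ζ) * G ζ := by
        refine Finset.sum_congr rfl fun γ _ => ?_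
        rw [← unfold_integral_smul γ fun ζ => χ ζ * G (γ⁻¹ • ζ)]
        simp only [inv_smul_smul]
    _ = ∫ ζ, ∑ γ ∈ T, χ (γ • ζ) * G ζ := (integral_finsetSum _ fun γ _ => hint' γ).symm
    _ = ∫ ζ, G ζ := by
        refine integral_congr_ae (Eventually.of_forall fun ζ => ?_)
        simp only [← Finset.sum_mul]
        by_cases h : ζ ∈ B
        · rw [hχs ζ h, one_mul]
        · rw [hGB ζ h, mul_zero]

/-- The orbit sum of the folded quadratic expression is a sum of squares. -/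
theorem unfold_orbit {Ω : Type} [Fintype Ω] (ρ : SL →* Equiv.Perm Ω) (B : Set UpperHalfPlane)
    (T : Finset SL) (hT : ∀ (g : SL) ζ, ζ ∈ B → g • ζ ∈ B → g ∈ T)
    (F : UpperHalfPlane → Ω → ℝ) (hF : ∀ ζ, ζ ∉ B → ∀ x, F ζ x = 0) (ζ : UpperHalfPlane)
    (hζ : ζ ∈ B) :
    0 ≤ ∑ γ ∈ T, ∑ h ∈ T, ∑ x, F (γ⁻¹ • ζ) (ρ h x) * F (h⁻¹ • γ⁻¹ • ζ) x := by
  set Φ : UpperHalfPlane → Ω → ℝ := fun ξ x => ∑' h : SL, F (h⁻¹ • ξ) (ρ h⁻¹ x) with hΦ
  have hΦT : ∀ ξ ∈ B, ∀ x, ∑ h ∈ T, F (h⁻¹ • ξ) (ρ h⁻¹ x) = Φ ξ x := by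
    intro ξ hξ x
    refine (tsum_eq_sum fun h hh => hF _ (fun h' => hh (hT h _ h' ?_)) _).symm
    rwa [smul_inv_smul]
  have hΦinv : ∀ (g : SL) ξ x, Φ (g⁻¹ • ξ) (ρ g⁻¹ x) = Φ ξ x := by
    intro g ξ x
    simp only [hΦ]
    rw [← (Equiv.mulLeft g).tsum_eq fun h : SL => F (h⁻¹ • ξ) (ρ h⁻¹ x)]
    simp only [Equiv.coe_mulLeft, mul_inv_rev, mul_smul, map_mul, Equiv.Perm.mul_apply]
  have h1 : ∀ γ ∈ T, ∑ h ∈ T, ∑ x, F (γ⁻¹ • ζ) (ρ h x) * F (h⁻¹ • γ⁻¹ • ζ) x =
      ∑ x, F (γ⁻¹ • ζ) (ρ γ⁻¹ x) * Φ ζ x := by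
    intro γ _
    have h2 : ∀ h ∈ T, ∑ x, F (γ⁻¹ • ζ) (ρ h x) * F (h⁻¹ • γ⁻¹ • ζ) x =
        ∑ x, F (γ⁻¹ • ζ) (ρ γ⁻¹ x) * F (h⁻¹ • γ⁻¹ • ζ) (ρ h⁻¹ (ρ γ⁻¹ x)) := by
      intro h _
      rw [← Equiv.sum_comp (ρ h⁻¹ * ρ γ⁻¹)]
      refine Finset.sum_congr rfl fun x _ => ?_
      simp only [Equiv.Perm.mul_apply, map_inv, Equiv.Perm.coe_inv, Equiv.apply_symm_apply]
    rw [Finset.sum_congr rfl h2, Finset.sum_comm]
    refine Finset.sum_congr rfl fun x _ => ?_
    rw [← Finset.mul_sum]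
    by_cases hb : γ⁻¹ • ζ ∈ B
    · rw [hΦT _ hb, hΦinv]
    · rw [hF _ hb, zero_mul, zero_mul]
  rw [Finset.sum_congr rfl h1, Finset.sum_comm]
  refine Finset.sum_nonneg fun x _ => ?_
  rw [← Finset.sum_mul, hΦT ζ hζ]
  exact mul_self_nonneg _

theorem unfold_ch_smul (h : SL) (ζ w : UpperHalfPlane) : ch ζ (h • w) = ch w (h⁻¹ • ζ) := by
  unfold ch
  rw [← unfold_dist_smul h w, smul_inv_smul, dist_comm]

theorem unfold {Ω I : Type} [Fintype Ω] (ρ : SL →* Equiv.Perm Ω) (K : I → ℝ → ℝ)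
    (hK : ∀ i, Ker (K i)) (z : I → UpperHalfPlane) (a : I → Ω → ℝ) :
    Psd fun i j => ∑' h : SL, (∫ ζ : UpperHalfPlane, K i (ch (z i) ζ) * K j (ch ζ (h • z j))) *
      ∑ x, a i (ρ h x) * a j x := by
  have hch : ∀ (j : I) (h : SL) (ζ : UpperHalfPlane), ch ζ (h • z j) = ch (z j) (h⁻¹ • ζ) :=
    fun j h ζ => unfold_ch_smul h ζ (z j)
  simp only [hch]
  set f : I → UpperHalfPlane → ℝ := fun i ζ => K i (ch (z i) ζ) with hf
  have hfc : ∀ i, Continuous (f i) := fun i =>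
    (hK i).1.comp (Real.continuous_cosh.comp (continuous_const.dist continuous_id))
  choose R hR using fun i => (hK i).2
  have hf0 : ∀ i ζ, 2 * R i < dist (z i) ζ → f i ζ = 0 := by
    intro i ζ h
    have := unfold_dist_le_ch (z i) ζ
    exact hR i _ (by linarith)
  have hfs : ∀ i, HasCompactSupport (f i) := fun i =>
    HasCompactSupport.intro (isCompact_closedBall (z i) (2 * R i)) fun ζ hζ =>
      hf0 i ζ (by rwa [Metric.mem_closedBall, dist_comm, not_le] at hζ)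
  have hint : ∀ i j (h : SL), Integrable fun ζ => f i ζ * f j (h⁻¹ • ζ) := fun i j h =>
    ((hfc i).mul ((hfc j).comp (unfold_continuous h⁻¹))).integrable_of_hasCompactSupport
      (hfs i).mul_right
  change Psd fun i j => ∑' h : SL, (∫ ζ, f i ζ * f j (h⁻¹ • ζ)) * ∑ x, a i (ρ h x) * a j x
  refine ⟨fun i j => ?_, fun s c => ?_⟩
  · simp only
    rw [← (Equiv.inv SL).tsum_eq]
    refine tsum_congr fun h => ?_
    simp only [Equiv.inv_apply, inv_inv]
    congr 1
    · rw [← unfold_integral_smul h fun ζ => f j ζ * f i (h⁻¹ • ζ)]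
      simp only [inv_smul_smul, mul_comm]
    · rw [← Equiv.sum_comp (ρ h)]
      refine Finset.sum_congr rfl fun x _ => ?_
      simp only [map_inv, Equiv.Perm.coe_inv, Equiv.symm_apply_apply, mul_comm]
  · set o : UpperHalfPlane := UpperHalfPlane.I
    set r : ℝ := ∑ i ∈ s, |dist o (z i) + 2 * R i| with hr
    set B : Set UpperHalfPlane := Metric.closedBall o r with hBdef
    have hfB : ∀ i ∈ s, ∀ ζ, ζ ∉ B → f i ζ = 0 := by
      intro i hi ζ hζ
      rw [hBdef, Metric.mem_closedBall, not_le, dist_comm] at hζ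
      have h1 : |dist o (z i) + 2 * R i| ≤ r :=
        Finset.single_le_sum (f := fun i => |dist o (z i) + 2 * R i|)
          (fun i _ => abs_nonneg _) hi
      have h2 := le_abs_self (dist o (z i) + 2 * R i)
      have h3 := dist_triangle o (z i) ζ
      exact hf0 i ζ (by linarith)
    set T : Finset SL := (unfold_finite_dist o o (2 * r)).toFinset with hTdef
    have hT : ∀ (g : SL) ζ, ζ ∈ B → g • ζ ∈ B → g ∈ T := by
      intro g ζ h1 h2
      rw [hTdef, Set.Finite.mem_toFinset, Set.mem_ofPred_eq]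
      rw [hBdef, Metric.mem_closedBall] at h1 h2
      have h3 := dist_triangle o (g • ζ) (g • o)
      rw [unfold_dist_smul, dist_comm o (g • ζ)] at h3
      linarith
    set F : UpperHalfPlane → Ω → ℝ := fun ζ x => ∑ i ∈ s, c i * f i ζ * a i x with hF
    have hFB : ∀ ζ, ζ ∉ B → ∀ x, F ζ x = 0 := fun ζ hζ x =>
      Finset.sum_eq_zero fun i hi => by rw [hfB i hi ζ hζ, mul_zero, zero_mul]
    set G : UpperHalfPlane → ℝ := fun ζ => ∑ i ∈ s, ∑ j ∈ s, ∑ h ∈ T,
      (c i * c j * ∑ x, a i (ρ h x) * a j x) * (f i ζ * f j (h⁻¹ • ζ)) with hG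
    have hGF : ∀ ζ, G ζ = ∑ h ∈ T, ∑ x, F ζ (ρ h x) * F (h⁻¹ • ζ) x := by
      intro ζ
      simp only [hF, Finset.sum_mul_sum]
      simp only [hG, Finset.mul_sum, Finset.sum_mul]
      symm
      rw [Finset.sum_congr rfl fun h _ => Finset.sum_comm, Finset.sum_comm]
      refine Finset.sum_congr rfl fun i _ => ?_
      rw [Finset.sum_congr rfl fun h _ => Finset.sum_comm, Finset.sum_comm]
      refine Finset.sum_congr rfl fun j _ => Finset.sum_congr rfl fun h _ =>
        Finset.sum_congr rfl fun x _ => ?_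
      ring
    have hGi : Integrable G :=
      integrable_finsetSum _ fun i _ => integrable_finsetSum _ fun j _ =>
        integrable_finsetSum _ fun h _ => (hint i j h).const_mul _
    have hpos := unfold_nonneg B Metric.isClosed_closedBall.measurableSet T hT G hGi
      (fun ζ hζ => by
        rw [hGF]
        exact Finset.sum_eq_zero fun h _ => Finset.sum_eq_zero fun x _ => by
          rw [hFB ζ hζ, zero_mul])
      (fun ζ hζ => by
        simp only [hGF]
        exact unfold_orbit ρ B T hT F hFB ζ hζ)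
    refine hpos.trans_eq ?_
    simp only [hG]
    rw [integral_finsetSum _ fun i _ => integrable_finsetSum _ fun j _ =>
        integrable_finsetSum _ fun h _ => (hint i j h).const_mul _]
    refine Finset.sum_congr rfl fun i hi => ?_
    rw [integral_finsetSum _ fun j _ =>
        integrable_finsetSum _ fun h _ => (hint i j h).const_mul _]
    refine Finset.sum_congr rfl fun j hj => ?_
    rw [integral_finsetSum _ fun h _ => (hint i j h).const_mul _,
      tsum_eq_sum (s := T), Finset.mul_sum]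
    · refine Finset.sum_congr rfl fun h _ => ?_
      rw [integral_const_mul]
      ring
    · intro h hh
      have : ∀ ζ, f i ζ * f j (h⁻¹ • ζ) = 0 := by
        intro ζ
        by_cases h1 : ζ ∈ B
        · have h2 : h⁻¹ • ζ ∉ B := fun h2 => hh (hT h _ h2 (by rwa [smul_inv_smul]))
          rw [hfB j hj _ h2, mul_zero]
        · rw [hfB i hi _ h1, zero_mul]
      simp only [this, integral_zero, zero_mul]

end Pool.Agent.P.MP_a1177c_nt.EK
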