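import Pool.Agent.P.MP_a1177c_nt.EK.Family
import Pool.Agent.P.MP_a1177c_nt.EK.Unfold
import Pool.Agent.P.MP_a1177c_nt.EK.Moment
import Pool.Agent.P.MP_a1177c_nt.EK.Gap
import Pool.Agent.P.MP_a1177c_nt.EK.SpectralAux

set_option autoImplicit false

namespace Pool.Agent.P.MP_a1177c_nt.EK

open Finset Filter
open scoped Classical

theorem sp_one_le_ch (z w : UpperHalfPlane) : 1 ≤ ch z w := Real.one_le_cosh _

theorem sp_summable {k : ℝ → ℝ} {R : ℝ} (hR : ∀ u, R < u → k u = 0) (z w : UpperHalfPlane)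
    (F : SL → ℝ) : Summable fun h : SL => k (ch z (h • w)) * F h := by
  refine summable_of_hasFiniteSupport ((finite_ch z w R).subset ?_)
  intro h hh
  by_contra hc
  have hc' : R < ch z (h • w) := lt_of_not_ge hc
  exact hh (by simp only [hR _ hc', zero_mul])

theorem sp_wt_nonneg (y Y : ℝ) (γ : SL) : 0 ≤ wt y Y γ := by
  unfold wt; split_ifs
  · positivity
  · exact le_rfl

/-- Pointwise comparison of a kernel with the weight. -/
theorem sp_ker_le {k : ℝ → ℝ} {C t Y u : ℝ} (hC : 1 ≤ C) (hu : 1 ≤ u)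
    (h1 : |k u| ≤ C * Real.exp (-(t / 2))) (h2 : C * Real.exp t < u → k u = 0)
    (hY : C * Real.exp t ≤ Y) : |k u| ≤ C ^ 2 * (if u ≤ Y then 1 / √u else 0) := by
  by_cases hc : C * Real.exp t < u
  · rw [h2 hc, abs_zero]
    split_ifs <;> positivity
  · have hc' : u ≤ C * Real.exp t := le_of_not_gt hc
    rw [if_pos (hc'.trans hY)]
    refine h1.trans ?_
    have hsu : 0 < √u := Real.sqrt_pos.2 (by linarith)
    have h3 : √u ≤ C * Real.exp (t / 2) := by
      rw [Real.sqrt_le_left (by positivity)]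
      have : Real.exp (t / 2) ^ 2 = Real.exp t := by
        rw [← Real.exp_nat_mul]; congr 1; push_cast; ring
      rw [mul_pow, this]
      have : C * Real.exp t ≤ C ^ 2 * Real.exp t :=
        mul_le_mul_of_nonneg_right (by nlinarith) (Real.exp_pos t).le
      linarith
    rw [mul_one_div, le_div_iff₀ hsu, Real.exp_neg]
    have he := Real.exp_pos (t / 2)
    calc C * (Real.exp (t / 2))⁻¹ * √u ≤ C * (Real.exp (t / 2))⁻¹ * (C * Real.exp (t / 2)) := by
          gcongr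
      _ = C ^ 2 := by field_simp

theorem sp_diag_le {k : ℝ → ℝ} {C t Y y : ℝ} (hC : 1 ≤ C) (hy : 0 < y)
    (h1 : ∀ u, 1 ≤ u → |k u| ≤ C * Real.exp (-(t / 2)))
    (h2 : ∀ u, C * Real.exp t < u → k u = 0) (hY : C * Real.exp t ≤ Y) {p P : SL → Prop}
    (hp : ∀ h, p h → P h) :
    ∑' h : SL, k (ch (iy y) (h • iy y)) * ind (p h) ≤ C ^ 2 * ∑' γ : SL, ind (P γ) * wt y Y γ := by
  have hs : Summable fun γ : SL => ind (P γ) * wt y Y γ := by
    refine summable_of_hasFiniteSupport ((wt_finite hy Y).subset ?_)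
    intro h hh hc
    exact hh (by simp only [hc, mul_zero])
  rw [← tsum_mul_left]
  refine (sp_summable h2 _ _ _).tsum_le_tsum (fun h => ?_) (hs.mul_left _)
  have hw := sp_wt_nonneg y Y h
  by_cases hh : p h
  · have h3 := sp_ker_le hC (sp_one_le_ch (iy y) (h • iy y)) (h1 _ (sp_one_le_ch _ _)) (h2 _) hY
    have e1 : ind (p h) = 1 := by simp [ind, hh]
    have e2 : ind (P h) = 1 := by simp [ind, hp h hh]
    rw [e1, e2, mul_one, one_mul]
    refine (le_abs_self _).trans (h3.trans (le_of_eq ?_))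
    rw [ch_uy hy]; rfl
  · have e1 : ind (p h) = 0 := by simp [ind, hh]
    rw [e1, mul_zero]
    have := sp_ind_nonneg (P h)
    positivity

theorem sp_grow {η : ℝ} (hη : 0 < η) (hη' : η ≤ 1 / 2) {M : ℕ}
    (hgap : ∃ C : ℝ, ∀ V : ℝ, 1 ≤ V →
      ∀ k : ℝ → ℝ, (∀ u, 1 ≤ u → |k u| ≤ 1) →
        (∀ u v, 1 ≤ u → 1 ≤ v → |k u - k v| ≤ |u - v| / V) → (∀ u, V < u → k u = 0) →
      ∀ F : SL → ℝ, Lev M F → (∀ h, |F h| ≤ 1) → mean M F = 0 →
        |∑' h, k (Uy 1 h) * F h| ≤ C * V ^ (1 - η))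
    {τ C : ℝ} (hτ : 0 < τ) (hC : 1 ≤ C) {k : ℤ → ℝ → ℝ}
    (h1 : ∀ (n : ℕ) (u : ℝ), 1 ≤ u → |k n u| ≤ C * Real.exp (-(n * τ / 2)))
    (h2 : ∀ (n : ℕ) (u : ℝ), C * Real.exp (n * τ) < u → k n u = 0)
    (h3 : ∀ n : ℕ, 2 ≤ n → ∀ u v : ℝ, 1 ≤ u → 1 ≤ v →
      |k n u - k n v| ≤ C * Real.exp (-(3 * n * τ / 2)) * |u - v|)
    {F : SL → ℝ} (hF : Lev M F) (hF1 : ∀ h, |F h| ≤ 1) (hF0 : mean M F = 0) :
    ∃ K : ℝ, ∀ n : ℕ, |∑' h : SL, k n (ch (iy 1) (h • iy 1)) * F h| ≤
      K * Real.exp ((1 / 2 - η) * τ * n) := by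
  obtain ⟨Cg, hg⟩ := hgap
  set A : ℕ → ℝ := fun n => ∑' h : SL, k n (ch (iy 1) (h • iy 1)) * F h with hA
  refine ⟨|A 0| + |A 1| + |Cg| * C ^ 3, fun n => ?_⟩
  have hC0 : 0 < C := by linarith
  have hex : 1 ≤ Real.exp ((1 / 2 - η) * τ * n) :=
    Real.one_le_exp (mul_nonneg (mul_nonneg (by linarith) hτ.le) (Nat.cast_nonneg n))
  have hK : 0 ≤ |Cg| * C ^ 3 := by positivity
  show |A n| ≤ _
  by_cases hn : 2 ≤ n
  · set s : ℝ := Real.exp (n * τ / 2) / C ^ 2 with hs
    have hs0 : 0 < s := by positivity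
    have hnτ : 0 ≤ (n : ℝ) * τ := by positivity
    have hV : 1 ≤ C * Real.exp (n * τ) := by
      have := Real.one_le_exp hnτ
      nlinarith
    have hee : Real.exp (n * τ / 2) * Real.exp (-(n * τ / 2)) = 1 := by
      rw [← Real.exp_add]; simp
    have H := hg (C * Real.exp (n * τ)) hV (fun u => s * k n u)
      (by
        intro u hu
        rw [abs_mul, abs_of_pos hs0]
        calc s * |k n u| ≤ s * (C * Real.exp (-(n * τ / 2))) := by gcongr; exact h1 n u hu
          _ = (Real.exp (n * τ / 2) * Real.exp (-(n * τ / 2))) / C := by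
            rw [hs]; field_simp
          _ ≤ 1 := by rw [hee, div_le_one hC0]; exact hC)
      (by
        intro u v hu hv
        rw [← mul_sub, abs_mul, abs_of_pos hs0]
        have e : Real.exp (n * τ / 2) * Real.exp (-(3 * n * τ / 2)) * Real.exp (n * τ) = 1 := by
          rw [← Real.exp_add, ← Real.exp_add, Real.exp_eq_one_iff]; ring
        calc s * |k n u - k n v| ≤ s * (C * Real.exp (-(3 * n * τ / 2)) * |u - v|) := by
              gcongr; exact h3 n hn u v hu hv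
          _ = (Real.exp (n * τ / 2) * Real.exp (-(3 * n * τ / 2)) * Real.exp (n * τ)) *
              |u - v| / (C * Real.exp (n * τ)) := by
            rw [hs]; field_simp
          _ = _ := by rw [e, one_mul])
      (by
        intro u hu
        rw [h2 n u hu, mul_zero]) F hF hF1 hF0
    have e1 : ∑' h : SL, s * k n (Uy 1 h) * F h = s * A n := by
      rw [hA]
      simp only
      rw [← tsum_mul_left]
      refine tsum_congr fun h => ?_
      rw [ch_Uy one_pos, mul_assoc]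
    rw [e1, abs_mul, abs_of_pos hs0] at H
    have e2 : (C * Real.exp (n * τ)) ^ (1 - η) ≤ C * Real.exp (n * τ * (1 - η)) := by
      rw [Real.mul_rpow hC0.le (Real.exp_pos _).le, ← Real.exp_mul]
      gcongr
      calc C ^ (1 - η) ≤ C ^ (1 : ℝ) := Real.rpow_le_rpow_of_exponent_le hC (by linarith)
        _ = C := Real.rpow_one C
    have H2 : s * |A n| ≤ |Cg| * (C * Real.exp (n * τ * (1 - η))) := by
      refine H.trans ?_
      calc Cg * (C * Real.exp (n * τ)) ^ (1 - η) ≤ |Cg| * (C * Real.exp (n * τ)) ^ (1 - η) := by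
            gcongr; exact le_abs_self _
        _ ≤ _ := by gcongr
    have e3 : Real.exp (n * τ * (1 - η)) =
        Real.exp (n * τ / 2) * Real.exp ((1 / 2 - η) * τ * n) := by
      rw [← Real.exp_add]; congr 1; ring
    have H3 : |A n| ≤ |Cg| * C ^ 3 * Real.exp ((1 / 2 - η) * τ * n) := by
      refine le_of_mul_le_mul_left (H2.trans (le_of_eq ?_)) hs0
      rw [e3, hs]; field_simp
    refine H3.trans ?_
    gcongr
    have := abs_nonneg (A 0)
    have := abs_nonneg (A 1)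
    linarith
  · have h0 := abs_nonneg (A 0)
    have h1' := abs_nonneg (A 1)
    have : |A n| ≤ |A 0| + |A 1| + |Cg| * C ^ 3 := by
      interval_cases n <;> linarith
    refine this.trans ?_
    exact le_mul_of_one_le_right (by linarith) hex

/-- The choice of the splitting `n = 2 m + j`. -/
theorem sp_split {τ Y Z : ℝ} (hτ : 0 < τ) (hY : 1 ≤ Y) (hZ : Real.exp τ * Y ≤ Z) (n : ℕ)
    (hn : Real.exp (2 * τ) * Real.exp (n * τ) ≤ Z) :
    ∃ m j : ℕ, n = 2 * m + j ∧ Real.exp ((2 * m : ℕ) * τ) ≤ Y ∧ Real.exp (j * τ) ≤ Z / Y := by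
  have hY0 : 0 < Y := by linarith
  have hL : 0 ≤ Real.log Y := Real.log_nonneg hY
  set m₀ : ℕ := ⌊Real.log Y / (2 * τ)⌋₊ with hm₀
  have a1 : (m₀ : ℝ) ≤ Real.log Y / (2 * τ) := Nat.floor_le (by positivity)
  have a2 : Real.log Y / (2 * τ) < m₀ + 1 := Nat.lt_floor_add_one _
  rw [le_div_iff₀ (by positivity)] at a1
  rw [div_lt_iff₀ (by positivity)] at a2
  have hb : ∀ m : ℕ, m ≤ m₀ → Real.exp ((2 * m : ℕ) * τ) ≤ Y := by
    intro m hm
    rw [← Real.le_log_iff_exp_le hY0]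
    have : (m : ℝ) ≤ m₀ := by exact_mod_cast hm
    push_cast
    nlinarith
  by_cases h : n / 2 ≤ m₀
  · refine ⟨n / 2, n % 2, by omega, hb _ h, ?_⟩
    rw [le_div_iff₀ hY0]
    refine le_trans ?_ hZ
    have : ((n % 2 : ℕ) : ℝ) ≤ 1 := by exact_mod_cast (by omega : n % 2 ≤ 1)
    gcongr
    nlinarith
  · refine ⟨m₀, n - 2 * m₀, by omega, hb _ le_rfl, ?_⟩
    rw [le_div_iff₀ hY0]
    refine le_trans ?_ hn
    have e : ((n - 2 * m₀ : ℕ) : ℝ) = n - 2 * m₀ := by
      rw [Nat.cast_sub (by omega)]; push_cast; ring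
    rw [e, ← Real.exp_add]
    calc Real.exp ((n - 2 * m₀) * τ) * Y = Real.exp ((n - 2 * m₀) * τ + Real.log Y) := by
          rw [Real.exp_add, Real.exp_log hY0]
      _ ≤ _ := by
          apply Real.exp_le_exp.2
          nlinarith

/-- The choice of the length of the sum. -/
theorem sp_len {τ C X : ℝ} (hτ : 0 < τ) (hC : 1 ≤ C) (hX : 2 ≤ X) :
    ∃ n₀ : ℕ, 2 ≤ n₀ ∧ C * X ≤ Real.exp (n₀ * τ) ∧
      Real.exp (n₀ * τ) ≤ Real.exp (3 * τ) * C * X ∧
      (2 * n₀ + 1 : ℝ) ≤ (14 + 4 * Real.log C / τ + 2 / τ) * Real.log X := by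
  have hCX : 1 ≤ C * X := by nlinarith
  have hL : 0 ≤ Real.log (C * X) := Real.log_nonneg hCX
  have hLC : 0 ≤ Real.log C := Real.log_nonneg hC
  have hLX : 1 / 2 ≤ Real.log X := by
    have := Real.log_two_gt_d9
    have := Real.log_le_log (by norm_num) hX
    linarith
  set c : ℕ := ⌈Real.log (C * X) / τ⌉₊ with hc
  have a1 : Real.log (C * X) / τ ≤ c := Nat.le_ceil _
  have a2 : (c : ℝ) < Real.log (C * X) / τ + 1 := Nat.ceil_lt_add_one (by positivity)
  have a1' : Real.log (C * X) ≤ c * τ := by rwa [div_le_iff₀ hτ] at a1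
  have a2' : c * τ ≤ Real.log (C * X) + τ := by
    have := mul_le_mul_of_nonneg_right a2.le hτ.le
    rwa [add_mul, div_mul_cancel₀ _ hτ.ne', one_mul] at this
  refine ⟨c + 2, by omega, ?_, ?_, ?_⟩
  · rw [← Real.log_le_iff_le_exp (by linarith)]
    push_cast
    nlinarith
  · rw [mul_assoc, ← Real.exp_log (show 0 < C * X by linarith), ← Real.exp_add]
    apply Real.exp_le_exp.2
    push_cast
    nlinarith
  · rw [Real.log_mul (by linarith) (by linarith), add_div] at a2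
    push_cast
    have b1 : 0 ≤ Real.log C / τ := by positivity
    have e : (14 + 4 * Real.log C / τ + 2 / τ) * Real.log X =
        14 * Real.log X + 4 * (Real.log C / τ * Real.log X) + 2 * (Real.log X / τ) := by ring
    rw [e]
    nlinarith

theorem spectral : ∃ θ C : ℝ, 0 ≤ θ ∧ θ < 1 / 2 ∧ 1 ≤ C ∧ ∀ X : ℝ, 2 ≤ X → ∃ ω : ℝ → ℝ,
    (∀ u, 0 ≤ ω u ∧ ω u ≤ C) ∧ (∀ u, 1 ≤ u → u ≤ X → 1 ≤ ω u) ∧ (∀ u, C * X < u → ω u = 0) ∧
    ∀ Y y : ℝ, 1 ≤ Y → Y ≤ X → 0 < y →
      Spec ω (C * Real.log X * √X * (X / Y) ^ θ) y (C * Y) := by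
  obtain ⟨τ, C, hτ, hC, κ, k, hκ, hev, hprod, h1, h2, h3, h4⟩ := family
  obtain ⟨η, hη, hη', hgap⟩ := gap
  have hC0 : 0 < C := by linarith
  have hLC : 0 ≤ Real.log C := Real.log_nonneg hC
  set L : ℝ := 14 + 4 * Real.log C / τ + 2 / τ with hL
  have hL1 : 1 ≤ L := by
    have : 0 ≤ 4 * Real.log C / τ + 2 / τ := by positivity
    linarith
  set e : ℝ := Real.exp τ with he
  have he1 : 1 ≤ e := Real.one_le_exp hτ.le
  have hen : ∀ n : ℕ, Real.exp (n * τ) = e ^ n := fun n => Real.exp_nat_mul τ n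
  have he2 : Real.exp (2 * τ) = e ^ 2 := by exact_mod_cast hen 2
  have he3 : Real.exp (3 * τ) = e ^ 3 := by exact_mod_cast hen 3
  set D : ℝ := 10 * L * e ^ 7 * C ^ 5 with hD
  have hD1 : C ^ 2 * e ^ 3 ≤ D := by
    have a1 : C ^ 2 ≤ C ^ 5 := pow_le_pow_right₀ hC (by norm_num)
    have a2 : e ^ 3 ≤ e ^ 7 := pow_le_pow_right₀ he1 (by norm_num)
    calc C ^ 2 * e ^ 3 ≤ C ^ 5 * e ^ 7 := by gcongr
      _ = 1 * e ^ 7 * C ^ 5 := by ring
      _ ≤ _ := by rw [hD]; gcongr; linarith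
  have he3' : 1 ≤ e ^ 3 := one_le_pow₀ he1
  have hD2 : C ^ 2 ≤ D := le_trans (le_mul_of_one_le_right (by positivity) he3') hD1
  have hD3 : C ≤ D := le_trans (by nlinarith) hD2
  have hsup : ∀ n : ℤ, ∃ R, ∀ u, R < u → k n u = 0 := by
    intro n
    refine ⟨C * Real.exp (n.natAbs * τ), fun u hu => ?_⟩
    have := h2 n.natAbs u hu
    rcases Int.natAbs_eq n with h | h
    · rw [h]; exact this
    · rw [h, hev]; exact this
  refine ⟨1 / 2 - η, D, by linarith, by linarith, hC.trans hD3, fun X hX => ?_⟩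
  obtain ⟨n₀, hn₀, b1, b2, b3⟩ := sp_len hτ hC hX
  rw [← hL] at b3
  rw [he3] at b2
  have hee : Real.exp (n₀ * τ / 2) * Real.exp (-(n₀ * τ / 2)) = 1 := by
    rw [← Real.exp_add]; simp
  have hex := Real.exp_pos (n₀ * τ / 2)
  refine ⟨fun u => if 1 ≤ u then C * Real.exp (n₀ * τ / 2) * ∑ n ∈ Icc (-(n₀ : ℤ)) n₀, k n u
    else 0, ?_, ?_, ?_, ?_⟩
  · intro u
    simp only
    split_ifs with hu
    · obtain ⟨c1, c2, -⟩ := h4 n₀ hn₀ u hu
      refine ⟨by positivity, le_trans ?_ hD2⟩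
      calc C * Real.exp (n₀ * τ / 2) * ∑ n ∈ Icc (-(n₀ : ℤ)) n₀, k n u
          ≤ C * Real.exp (n₀ * τ / 2) * (C * Real.exp (-(n₀ * τ / 2))) := by gcongr
        _ = C ^ 2 * (Real.exp (n₀ * τ / 2) * Real.exp (-(n₀ * τ / 2))) := by ring
        _ = C ^ 2 := by rw [hee, mul_one]
    · exact ⟨le_rfl, by linarith⟩
  · intro u hu huX
    simp only
    rw [if_pos hu]
    obtain ⟨-, -, c3⟩ := h4 n₀ hn₀ u hu
    have := c3 (le_trans (by gcongr) b1)
    calc (1 : ℝ) = Real.exp (n₀ * τ / 2) * Real.exp (-(n₀ * τ / 2)) := hee.symm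
      _ ≤ Real.exp (n₀ * τ / 2) * (C * ∑ n ∈ Icc (-(n₀ : ℤ)) n₀, k n u) := by gcongr
      _ = _ := by ring
  · intro u hu
    simp only
    split_ifs with hu1
    · rw [Finset.sum_eq_zero, mul_zero]
      intro n hn
      rw [mem_Icc] at hn
      have hle : n.natAbs ≤ n₀ := by omega
      have hle' : (n.natAbs : ℝ) ≤ n₀ := by exact_mod_cast hle
      have : C * Real.exp (n.natAbs * τ) < u := by
        refine lt_of_le_of_lt ?_ hu
        calc C * Real.exp (n.natAbs * τ) ≤ C * Real.exp (n₀ * τ) := by gcongr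
          _ ≤ C * (e ^ 3 * C * X) := by gcongr
          _ = C ^ 2 * e ^ 3 * X := by ring
          _ ≤ D * X := by gcongr
      have := h2 n.natAbs u this
      rcases Int.natAbs_eq n with h | h
      · rw [h]; exact this
      · rw [h, hev]; exact this
    · rfl
  · intro Y y hY hYX hy M hM S hS hLev Pa Pb hPa hPb
    have hX0 : 0 < X := by linarith
    have hY0 : 0 < Y := by linarith
    have hlog : 0 ≤ Real.log X := Real.log_nonneg (by linarith)
    have hD0 : 0 ≤ D := by linarith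
    have hXY : 1 ≤ X / Y := by rw [le_div_iff₀ hY0]; linarith
    set μ : ℝ := mean M fun h => ind (h ∈ S) with hμ
    rcases S.eq_empty_or_nonempty with hS0 | ⟨h₀, h0⟩
    · have : μ = 0 := by
        rw [hμ, hS0]; simp [mean, ind]
      rw [this, hS0]
      simp only [Set.mem_empty_iff_false, ind, if_false, sub_self, mul_zero, tsum_zero, abs_zero]
      positivity
    set SA : ℝ := ∑' γ : SL, ind (Pa γ) * wt 1 (D * Y) γ with hSA
    set SB : ℝ := ∑' γ : SL, ind (Pb γ) * wt y (D * Y) γ with hSB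
    set A : ℤ → ℝ := fun n => ∑' h : SL, k n (ch (iy 1) (h • iy 1)) * (ind (h * h₀ ∈ S) - μ)
      with hA
    set B : ℤ → ℝ := fun n => ∑' h : SL, k n (ch (iy y) (h • iy y)) * ind (h₀ * h ∈ S) with hB
    set Cn : ℤ → ℝ := fun n => ∑' h : SL, k n (ch (iy 1) (h • iy y)) * (ind (h ∈ S) - μ) with hCn
    have hP : Psd (gram A B Cn) := sp_psd hM hS hLev h0 hκ hev hprod hsup (iy 1) (iy y)
    obtain ⟨hμ0, hμ1⟩ : 0 ≤ μ ∧ μ ≤ 1 := sp_mean_bd hM S
    obtain ⟨K, hK⟩ := sp_grow hη hη' (hgap M hM) hτ hC h1 h2 h3 (sp_lev_right hLev h₀ μ)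
      (fun h => by
        have := sp_ind_nonneg (h * h₀ ∈ S)
        have := sp_ind_le (h * h₀ ∈ S)
        rw [abs_le]; constructor <;> linarith) (sp_mean_zero hM hLev h₀)
    have hAev : ∀ n, A (-n) = A n := fun n => by simp only [hA, hev]
    have hBev : ∀ n, B (-n) = B n := fun n => by simp only [hB, hev]
    have hCev : ∀ n, Cn (-n) = Cn n := fun n => by simp only [hCn, hev]
    have hθ : 0 ≤ (1 / 2 - η) * τ := mul_nonneg (by linarith) hτ.le
    have hdA : ∀ n : ℕ, Real.exp (n * τ) ≤ Y →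
        ∑' h : SL, k n (ch (iy 1) (h • iy 1)) * ind (h * h₀ ∈ S) ≤ C ^ 2 * SA := by
      intro n hn
      refine sp_diag_le hC one_pos (h1 n) (h2 n) (by gcongr) fun h hh => ?_
      simpa using hPa _ hh _ h0
    have hdB : ∀ n : ℕ, Real.exp (n * τ) ≤ Y → B n ≤ C ^ 2 * SB := by
      intro n hn
      refine sp_diag_le hC hy (h1 n) (h2 n) (by gcongr) fun h hh => ?_
      simpa using hPb _ h0 _ hh
    have hAsplit : ∀ n : ℤ, A n = ∑' h : SL, k n (ch (iy 1) (h • iy 1)) * ind (h * h₀ ∈ S) -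
        μ * ∑' h : SL, k n (ch (iy 1) (h • iy 1)) := by
      intro n
      obtain ⟨R, hR⟩ := hsup n
      rw [← tsum_mul_left, ← (sp_summable hR _ _ _).tsum_sub
        ((sp_summable hR (iy 1) (iy 1) fun _ => μ).congr fun h => mul_comm _ _)]
      refine tsum_congr fun h => ?_
      ring
    have hone : ∀ n : ℕ, n ≤ n₀ →
        |Cn n| ≤ 10 * e ^ 5 * C ^ 3 * (X / Y) ^ (1 / 2 - η) * √SA * √SB := by
      intro n hn
      have hn' : (n : ℝ) ≤ n₀ := by exact_mod_cast hn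
      obtain ⟨m, j, hmj, c1, c2⟩ := sp_split (Z := e ^ 5 * C * X) hτ hY
        (by
          have a2 : e ≤ e ^ 5 := le_self_pow₀ he1 (by norm_num)
          calc e * Y = e * 1 * Y := by ring
            _ ≤ e ^ 5 * C * X := by gcongr) n
        (by
          rw [he2]
          calc e ^ 2 * Real.exp (n * τ) ≤ e ^ 2 * Real.exp (n₀ * τ) := by gcongr
            _ ≤ e ^ 2 * (e ^ 3 * C * X) := by gcongr
            _ = _ := by ring)
      have hm := moment hAev hBev hCev hP hθ hK m j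
      have z0 : Real.exp ((0 : ℕ) * τ) ≤ Y := by simpa using hY
      have a1 : (A (2 * m) + 3 * A 0) / 2 ≤ (2 * C ^ 2) * SA := by
        have p1 := hdA (2 * m) c1
        have p2 := hdA 0 z0
        have p3 := mul_nonneg hμ0 (sp_const hκ hev hprod hsup (iy 1) m)
        push_cast at p1 p2
        rw [hAsplit, hAsplit]
        linarith
      have a2 : (B (2 * m) + 3 * B 0) / 2 ≤ (2 * C ^ 2) * SB := by
        have p1 := hdB (2 * m) c1
        have p2 := hdB 0 z0
        push_cast at p1 p2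
        linarith
      have a3 : Real.exp ((1 / 2 - η) * τ * j) ≤ e ^ 5 * C * (X / Y) ^ (1 / 2 - η) := by
        have he5 : 1 ≤ e ^ 5 * C := by
          have : 1 ≤ e ^ 5 := one_le_pow₀ he1
          nlinarith
        calc Real.exp ((1 / 2 - η) * τ * j) = Real.exp (j * τ) ^ (1 / 2 - η) := by
              rw [← Real.exp_mul]; congr 1; ring
          _ ≤ (e ^ 5 * C * (X / Y)) ^ (1 / 2 - η) := by
              apply Real.rpow_le_rpow (Real.exp_pos _).le _ (by linarith)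
              rw [← mul_div_assoc]; exact c2
          _ = (e ^ 5 * C) ^ (1 / 2 - η) * (X / Y) ^ (1 / 2 - η) :=
              Real.mul_rpow (by linarith) (by linarith)
          _ ≤ _ := by
              gcongr
              calc (e ^ 5 * C) ^ (1 / 2 - η) ≤ (e ^ 5 * C) ^ (1 : ℝ) :=
                    Real.rpow_le_rpow_of_exponent_le he5 (by linarith)
                _ = _ := Real.rpow_one _
      have hsq : √(2 * C ^ 2) * √(2 * C ^ 2) = 2 * C ^ 2 := Real.mul_self_sqrt (by positivity)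
      have e1 : (n : ℤ) = 2 * m + j := by exact_mod_cast hmj
      rw [e1]
      refine hm.trans ?_
      calc 5 * Real.exp ((1 / 2 - η) * τ * j) * √((A (2 * m) + 3 * A 0) / 2) *
            √((B (2 * m) + 3 * B 0) / 2)
          ≤ 5 * (e ^ 5 * C * (X / Y) ^ (1 / 2 - η)) * √((2 * C ^ 2) * SA) *
            √((2 * C ^ 2) * SB) := by gcongr
        _ = 5 * (e ^ 5 * C * (X / Y) ^ (1 / 2 - η)) * (√(2 * C ^ 2) * √(2 * C ^ 2)) *
            √SA * √SB := by
          rw [Real.sqrt_mul (by positivity) SA, Real.sqrt_mul (by positivity) SB]; ring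
        _ = _ := by rw [hsq]; ring
    have hall : ∀ n ∈ Icc (-(n₀ : ℤ)) n₀,
        |Cn n| ≤ 10 * e ^ 5 * C ^ 3 * (X / Y) ^ (1 / 2 - η) * √SA * √SB := by
      intro n hn
      rw [mem_Icc] at hn
      have := hone n.natAbs (by omega)
      rcases Int.natAbs_eq n with h | h
      · rw [h]; exact this
      · rw [h, hCev]; exact this
    have hsum : ∑' h : SL, (if 1 ≤ Uy y h then
          C * Real.exp (n₀ * τ / 2) * ∑ n ∈ Icc (-(n₀ : ℤ)) n₀, k n (Uy y h) else 0) *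
          (ind (h ∈ S) - μ) = C * Real.exp (n₀ * τ / 2) * ∑ n ∈ Icc (-(n₀ : ℤ)) n₀, Cn n := by
      rw [hCn]
      simp only
      rw [← Summable.tsum_finsetSum, ← tsum_mul_left]
      · refine tsum_congr fun h => ?_
        rw [← ch_Uy hy, if_pos (sp_one_le_ch _ _), mul_assoc, Finset.sum_mul]
      · intro n _
        obtain ⟨R, hR⟩ := hsup n
        exact sp_summable hR _ _ _
    have hE : Real.exp (n₀ * τ / 2) ≤ e ^ 2 * C * √X := by
      have q1 : Real.exp (n₀ * τ / 2) ^ 2 = Real.exp (n₀ * τ) := by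
        rw [← Real.exp_nat_mul]; congr 1; push_cast; ring
      have q2 : √X ^ 2 = X := Real.sq_sqrt hX0.le
      refine (pow_le_pow_iff_left₀ hex.le (by positivity) two_ne_zero).1 ?_
      rw [q1, mul_pow, mul_pow, q2]
      refine b2.trans ?_
      have a1 : e ^ 3 ≤ (e ^ 2) ^ 2 := by
        rw [← pow_mul]; exact pow_le_pow_right₀ he1 (by norm_num)
      have a2 : C ≤ C ^ 2 := le_self_pow₀ hC (by norm_num)
      gcongr
    show |∑' h : SL, (if 1 ≤ Uy y h then
          C * Real.exp (n₀ * τ / 2) * ∑ n ∈ Icc (-(n₀ : ℤ)) n₀, k n (Uy y h) else 0) *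
          (ind (h ∈ S) - μ)| ≤ _
    rw [hsum, abs_mul, abs_of_pos (by positivity)]
    have hcard : (#(Icc (-(n₀ : ℤ)) n₀) : ℝ) = 2 * n₀ + 1 := by
      rw [Int.card_Icc]
      have : ((n₀ : ℤ) + 1 - -(n₀ : ℤ)).toNat = 2 * n₀ + 1 := by omega
      rw [this]; push_cast; ring
    have hS2 : |∑ n ∈ Icc (-(n₀ : ℤ)) n₀, Cn n| ≤
        (L * Real.log X) * (10 * e ^ 5 * C ^ 3 * (X / Y) ^ (1 / 2 - η) * √SA * √SB) := by
      refine (Finset.abs_sum_le_sum_abs _ _).trans ((Finset.sum_le_card_nsmul _ _ _ hall).trans ?_)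
      rw [nsmul_eq_mul, hcard]
      gcongr
    calc C * Real.exp (n₀ * τ / 2) * |∑ n ∈ Icc (-(n₀ : ℤ)) n₀, Cn n|
        ≤ C * (e ^ 2 * C * √X) *
          ((L * Real.log X) * (10 * e ^ 5 * C ^ 3 * (X / Y) ^ (1 / 2 - η) * √SA * √SB)) := by
          gcongr
      _ = _ := by rw [hD]; ring

end Pool.Agent.P.MP_a1177c_nt.EK
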