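import Pool.Agent.P.MP_a1177c_nt.EK.Defs

set_option autoImplicit false

namespace Pool.Agent.P.MP_a1177c_nt.EK

open Finset Filter
open scoped Classical

theorem stepA_nrm_mul (u v : GaussianInt) : nrm (u * v) = nrm u * nrm v := by
  simp [nrm, Zsqrtd.norm_mul, Int.natAbs_mul]

theorem stepA_nrm_star (u : GaussianInt) : nrm (star u) = nrm u := by
  simp [nrm, Zsqrtd.norm_conj]

theorem stepA_nrm_cast (u : GaussianInt) : ((nrm u : ℕ) : ℤ) = u.re ^ 2 + u.im ^ 2 := by
  have h : 0 ≤ u.norm := GaussianInt.norm_nonneg u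
  rw [nrm, Int.natAbs_of_nonneg h, Zsqrtd.norm_def]
  ring

theorem stepA_nrm_eq (u : GaussianInt) : ((nrm u : ℕ) : GaussianInt) = u * star u := by
  have h := stepA_nrm_cast u
  rw [← Int.cast_natCast, h]
  ext
  · simp [Zsqrtd.re_mul, pow_two]
  · simp [Zsqrtd.im_mul, pow_two]; ring

theorem stepA_isCoprime {u v : GaussianInt} (h : (nrm u).Coprime (nrm v)) : IsCoprime u v := by
  have h1 : IsCoprime ((nrm u : ℕ) : GaussianInt) ((nrm v : ℕ) : GaussianInt) := Nat.Coprime.cast h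
  rw [stepA_nrm_eq, stepA_nrm_eq] at h1
  exact h1.of_mul_left_left.of_mul_right_left

theorem stepA_good_iff {G w : GaussianInt} {W₀ : ℕ} (hG : G ≠ 0) (h1 : (nrm G).Coprime (nrm w))
    (h2 : (nrm w).Coprime W₀) (z : GaussianInt) : good G W₀ (w * z) ↔ good G W₀ z := by
  constructor
  · rintro ⟨μ, hμ, hc⟩
    have hd : G ∣ z := (stepA_isCoprime h1).dvd_of_dvd_mul_left ⟨μ, hμ⟩
    obtain ⟨μ', rfl⟩ := hd
    refine ⟨μ', rfl, ?_⟩
    have : μ = w * μ' := by
      apply mul_left_cancel₀ hG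
      rw [← hμ]; ring
    rw [this, stepA_nrm_mul] at hc
    exact Nat.Coprime.coprime_mul_left hc
  · rintro ⟨μ, rfl, hc⟩
    refine ⟨w * μ, by ring, ?_⟩
    rw [stepA_nrm_mul]
    exact Nat.Coprime.mul_left h2 hc

theorem stepA_nu_eq {Pi : Finset GaussianInt} {w : GaussianInt}
    (h : ∀ v ∈ Pi, (nrm w).Coprime (nrm v)) (z : GaussianInt) : nu Pi (w * z) = nu Pi z := by
  unfold nu
  congr 2
  apply Finset.filter_congr
  intro v hv
  constructor
  · intro hd
    exact (stepA_isCoprime (h v hv).symm).dvd_of_dvd_mul_left hd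
  · intro hd
    exact hd.mul_left w

theorem stepA_La_eq {P : Finset ℕ} {n : ℕ} (hP : ∀ p ∈ P, p.Prime) (h : ∀ p ∈ P, ¬ p ∣ n)
    (R : ℝ) (a : Fin 4) (k : ℕ) : La P R a (n * k) = La P R a k := by
  unfold La Lam
  apply Finset.sum_congr rfl
  intro S hS
  congr 1
  apply Finset.prod_congr rfl
  intro p hp
  have hpP : p ∈ P := Finset.mem_powerset.1 hS hp
  have : (p ∣ n * k) ↔ p ∣ k := by
    rw [(hP p hpP).dvd_mul]
    exact ⟨fun h' => h'.resolve_left (h p hpP), Or.inr⟩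
  by_cases hk : p ∣ k
  · rw [if_pos (this.2 hk), if_pos hk]
  · rw [if_neg (fun h' => hk (this.1 h')), if_neg hk]

/-- The matrix with columns `u` and `v`. -/
def stepA_mk (u v : GaussianInt) (h : u.re * v.im - v.re * u.im = 1) : SL :=
  ⟨!![u.re, v.re; u.im, v.im], by rw [Matrix.det_fin_two_of]; exact h⟩

theorem stepA_act_mk (u v : GaussianInt) (h : u.re * v.im - v.re * u.im = 1) (x y : ℤ) :
    act (stepA_mk u v h) x y = (x : GaussianInt) * u + (y : GaussianInt) * v := by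
  ext <;> simp [act, stepA_mk] <;> ring

theorem stepA_det (g : SL) :
    (act g 1 0).re * (act g 0 1).im - (act g 0 1).re * (act g 1 0).im = 1 := by
  have := g.det_coe
  rw [Matrix.det_fin_two] at this
  simpa [act] using this

theorem stepA_mk_act (g : SL) : stepA_mk (act g 1 0) (act g 0 1) (stepA_det g) = g := by
  ext i j
  fin_cases i <;> fin_cases j <;> simp [act, stepA_mk]

theorem stepA_qA_mk (u v : GaussianInt) (h : u.re * v.im - v.re * u.im = 1) :
    qA (stepA_mk u v h) = (u.re : ℝ) ^ 2 + (u.im : ℝ) ^ 2 := by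
  simp [qA, stepA_mk]

theorem stepA_qB_mk (u v : GaussianInt) (h : u.re * v.im - v.re * u.im = 1) :
    qB (stepA_mk u v h) = (u.re : ℝ) * v.re + (u.im : ℝ) * v.im := by
  simp [qB, stepA_mk]

theorem stepA_qC_mk (u v : GaussianInt) (h : u.re * v.im - v.re * u.im = 1) :
    qC (stepA_mk u v h) = (v.re : ℝ) ^ 2 + (v.im : ℝ) ^ 2 := by
  simp [qC, stepA_mk]

theorem stepA_reindex (w : GaussianInt) (hw : w ≠ 0) (F F' : SL → ℝ)
    (hF : ∀ g, F g ≠ 0 → w ∣ act g 1 0) (hF' : ∀ h, F' h ≠ 0 → star w ∣ act h 0 1)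
    (hFF : ∀ (u v : GaussianInt) (h1 : (w * u).re * v.im - v.re * (w * u).im = 1)
      (h2 : u.re * (star w * v).im - (star w * v).re * u.im = 1),
      F (stepA_mk (w * u) v h1) = F' (stepA_mk u (star w * v) h2)) :
    ∑' g, F g = ∑' h, F' h := by
  have key : ∀ u v : GaussianInt, (w * u).re * v.im - v.re * (w * u).im =
      u.re * (star w * v).im - (star w * v).re * u.im := by
    intro u v
    simp [Zsqrtd.re_mul, Zsqrtd.im_mul]
    ring
  have hw' : star w ≠ 0 := star_ne_zero.2 hw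
  let T := {p : GaussianInt × GaussianInt // (w * p.1).re * p.2.im - p.2.re * (w * p.1).im = 1}
  let i1 : T → SL := fun p => stepA_mk (w * p.1.1) p.1.2 p.2
  let i2 : T → SL := fun p => stepA_mk p.1.1 (star w * p.1.2) ((key _ _).symm.trans p.2)
  have inj1 : Function.Injective i1 := by
    intro p p' hpp
    have a1 := congrArg (fun g => act g 1 0) hpp
    have a2 := congrArg (fun g => act g 0 1) hpp
    simp only [i1, stepA_act_mk] at a1 a2
    simp only [Int.cast_one, Int.cast_zero, one_mul, zero_mul, add_zero, zero_add] at a1 a2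
    exact Subtype.ext (Prod.ext (mul_left_cancel₀ hw a1) a2)
  have inj2 : Function.Injective i2 := by
    intro p p' hpp
    have a1 := congrArg (fun g => act g 1 0) hpp
    have a2 := congrArg (fun g => act g 0 1) hpp
    simp only [i2, stepA_act_mk] at a1 a2
    simp only [Int.cast_one, Int.cast_zero, one_mul, zero_mul, add_zero, zero_add] at a1 a2
    exact Subtype.ext (Prod.ext a1 (mul_left_cancel₀ hw' a2))
  have r1 : Function.support F ⊆ Set.range i1 := by
    intro g hg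
    obtain ⟨u, hu⟩ := hF g hg
    have hd := stepA_det g
    refine ⟨⟨(u, act g 0 1), by rw [← hu]; exact hd⟩, ?_⟩
    simp only [i1]
    conv_rhs => rw [← stepA_mk_act g]
    congr 1
    exact hu.symm
  have r2 : Function.support F' ⊆ Set.range i2 := by
    intro g hg
    obtain ⟨v, hv⟩ := hF' g hg
    have hd := stepA_det g
    refine ⟨⟨(act g 1 0, v), by rw [key, ← hv]; exact hd⟩, ?_⟩
    simp only [i2]
    conv_rhs => rw [← stepA_mk_act g]
    congr 1
    exact hv.symm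
  rw [← inj1.tsum_eq r1, ← inj2.tsum_eq r2]
  exact tsum_congr fun p => hFF _ _ _ _

theorem stepA_finite (A : ℝ) : {h : SL | qA h ≤ A ∧ qC h ≤ A}.Finite := by
  obtain ⟨N, hN⟩ := exists_nat_ge A
  have hb : ∀ x : ℤ, (x : ℝ) ^ 2 ≤ A → x ∈ Set.Icc (-(N : ℤ)) N := by
    intro x hx
    have h1 : (x : ℝ) ^ 2 ≤ N := hx.trans hN
    have h2 : x ^ 2 ≤ (N : ℤ) := by exact_mod_cast h1
    constructor <;> nlinarith [sq_nonneg (x - 1), sq_nonneg (x + 1), sq_nonneg x,
      Int.natCast_nonneg N, Int.le_self_sq x, Int.le_self_sq (-x)]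
  let e : SL → ℤ × ℤ × ℤ × ℤ := fun h => (h 0 0, h 0 1, h 1 0, h 1 1)
  have he : Function.Injective e := by
    intro h h' hh
    simp only [e, Prod.mk.injEq] at hh
    ext i j
    fin_cases i <;> fin_cases j <;> simp [hh.1, hh.2.1, hh.2.2.1, hh.2.2.2]
  have hI : (Set.Icc (-(N : ℤ)) N).Finite := Set.finite_Icc _ _
  refine ((hI.prod (hI.prod (hI.prod hI))).preimage he.injOn).subset ?_
  rintro h ⟨h1, h2⟩
  unfold qA at h1
  unfold qC at h2
  refine ⟨hb _ ?_, hb _ ?_, hb _ ?_, hb _ ?_⟩ <;> simp only [e] <;>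
    nlinarith [sq_nonneg (h 0 0 : ℝ), sq_nonneg (h 0 1 : ℝ), sq_nonneg (h 1 0 : ℝ),
      sq_nonneg (h 1 1 : ℝ)]

theorem phiT_finite {c₀ C₀ X n : ℝ} {Φ : ℝ → ℝ → ℝ → ℝ} (hΦ : Wt3 c₀ C₀ Φ) (hX : 0 < X)
    (hn : 0 < n) : (Function.support (phiT Φ X n)).Finite := by
  refine (stepA_finite (max (C₀ * X / n) (C₀ * (n * X)))).subset ?_
  intro h hh
  obtain ⟨-, h1, -, h2⟩ := hΦ.supp _ _ _ hh
  constructor
  · refine le_trans ?_ (le_max_left _ _)
    rw [div_le_iff₀ hX] at h1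
    rw [le_div_iff₀ hn]
    linarith
  · refine le_trans ?_ (le_max_right _ _)
    have h3 := (abs_le.1 h2).2
    rwa [div_le_iff₀ (mul_pos hn hX)] at h3

theorem stepA (d : Geo) {W₀ W q₀ : ℕ} {q : Fin 3 → ℕ} {ε η X c₀ C₀ : ℝ} {P : Finset ℕ}
    {Pi₀ : Finset GaussianInt} {Pi : Fin 3 → Finset GaussianInt} {Φ : ℝ → ℝ → ℝ → ℝ}
    (hd : d.Ok W₀ W) (hX : 1 ≤ X) (hF : Fams W q₀ q ε η X P Pi₀ Pi) (hΦ : Wt3 c₀ C₀ Φ)
    (χ : ℕ → ℝ) :
    Sview d W₀ Φ X P Pi₀ Pi χ =
      ∑ ϖ ∈ Pi₀, ∑' h : SL, phiT Φ X (nrm ϖ) h * innr d W₀ (Rx X) P Pi χ ϖ h := by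
  have hX0 : 0 < X := lt_of_lt_of_le one_pos hX
  let F : GaussianInt → SL → ℝ := fun w g =>
    phiT Φ X 1 g * (ind (good d.G₀ W₀ (act g 1 0)) *
      (ind (w ∣ act g 1 0) * χ (nrm (act g 1 0) / nrm w)) *
      (∏ j, ind (good (d.G j) W₀ (act g (d.a j) (d.b j))) * nu (Pi j) (act g (d.a j) (d.b j))) *
      wq P (Rx X) (nrm (act g 1 0)) fun j => nrm (act g (d.a j) (d.b j)))
  have hS : Sview d W₀ Φ X P Pi₀ Pi χ = ∑' g : SL, ∑ w ∈ Pi₀, F w g := by
    unfold Sview
    refine tsum_congr fun g => ?_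
    simp only [F, phiT, one_mul, Finset.sum_mul, Finset.mul_sum]
    refine Finset.sum_congr rfl fun w _ => ?_
    ring
  have hsum : ∀ w ∈ Pi₀, Summable (F w) := by
    intro w _
    apply summable_of_hasFiniteSupport
    refine (phiT_finite hΦ hX0 one_pos).subset ?_
    intro g hg
    exact left_ne_zero_of_mul hg
  rw [hS, Summable.tsum_finsetSum hsum]
  refine Finset.sum_congr rfl fun w hw => ?_
  have hW : (nrm w).Coprime W := hF.copW₀ w hw
  have hW₀ : (nrm w).Coprime W₀ :=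
    hW.coprime_dvd_right ((Dvd.intro _ rfl).trans (hd.dvd 0))
  have hn0 : nrm w ≠ 0 := by
    intro h0
    rw [h0, Nat.coprime_zero_left] at hW
    have := hd.four
    rw [hW] at this
    omega
  have hw0 : w ≠ 0 := by
    rintro rfl
    exact hn0 (by simp [nrm])
  have hG₀ : (nrm d.G₀).Coprime (nrm w) := by
    apply Nat.Coprime.symm
    apply Nat.coprime_of_dvd
    intro p hp h1 h2
    have h3 := hd.bad_G p hp h2
    exact hp.one_lt.ne' (Nat.eq_one_of_dvd_coprimes hW₀ h1 h3)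
  have hG : ∀ j, (nrm (d.G j)).Coprime (nrm (star w)) := by
    intro j
    rw [stepA_nrm_star]
    exact (hW.coprime_dvd_right ((Dvd.intro_left _ rfl).trans (hd.dvd j))).symm
  have hP : ∀ p ∈ P, p.Prime := by
    obtain ⟨Ex, -, -, h⟩ := hF.good
    exact fun p hp => ((h p).1 hp).1
  have hPn : ∀ p ∈ P, ¬ p ∣ nrm w := fun p hp => hF.copP₀ p hp w hw
  have hnR : ((nrm w : ℕ) : ℝ) = (w.re : ℝ) ^ 2 + (w.im : ℝ) ^ 2 := by
    exact_mod_cast stepA_nrm_cast w
  have hnR0 : ((nrm w : ℕ) : ℝ) ≠ 0 := by exact_mod_cast hn0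
  apply stepA_reindex w hw0
  · intro g hg
    by_contra hc
    apply hg
    simp [F, ind, hc]
  · intro g hg
    by_contra hc
    apply hg
    simp [innr, ind, hc]
  · intro u v h1 h2
    have e1 : act (stepA_mk (w * u) v h1) 1 0 = w * u := by simp [stepA_act_mk]
    have e2 : act (stepA_mk u (star w * v) h2) 1 0 = u := by simp [stepA_act_mk]
    have e3 : act (stepA_mk u (star w * v) h2) 0 1 = star w * v := by simp [stepA_act_mk]
    have e4 : ∀ a b : ℤ, act (stepA_mk u (star w * v) h2) (a * nrm w) b =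
        star w * act (stepA_mk (w * u) v h1) a b := by
      intro a b
      rw [stepA_act_mk, stepA_act_mk, Int.cast_mul, Int.cast_natCast, stepA_nrm_eq]
      ring
    have e5 : phiT Φ X 1 (stepA_mk (w * u) v h1) =
        phiT Φ X (nrm w) (stepA_mk u (star w * v) h2) := by
      unfold phiT
      simp only [stepA_qA_mk, stepA_qB_mk, stepA_qC_mk]
      congr 1
      · rw [hnR]
        simp [Zsqrtd.re_mul, Zsqrtd.im_mul]
        ring
      · simp [Zsqrtd.re_mul, Zsqrtd.im_mul]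
        ring
      · rw [div_eq_div_iff (by positivity) (mul_ne_zero hnR0 hX0.ne'), hnR]
        simp [Zsqrtd.re_mul, Zsqrtd.im_mul]
        ring
    simp only [F, innr, e1, e2, e3, e4, e5]
    congr 1
    have f1 : ind (w ∣ w * u) = 1 := by simp [ind]
    have f2 : ind (star w ∣ star w * v) = 1 := by simp [ind]
    have f3 : nrm (w * u) / nrm w = nrm u := by
      rw [stepA_nrm_mul, Nat.mul_div_cancel_left _ (Nat.pos_of_ne_zero hn0)]
    have f4 : ∀ j z, nu (Pi j) (star w * z) = nu (Pi j) z := by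
      intro j z
      apply stepA_nu_eq
      intro v hv
      rw [stepA_nrm_star]
      exact hF.cop₀ w hw j v hv
    have f5 : ∀ j z, good (d.G j) W₀ (star w * z) ↔ good (d.G j) W₀ z := by
      intro j z
      apply stepA_good_iff (hd.G_ne j) (hG j)
      rwa [stepA_nrm_star]
    rw [f1, f2, f3]
    simp only [f4, f5, stepA_good_iff hd.G₀_ne hG₀ hW₀, wq, stepA_nrm_mul, stepA_nrm_star,
      stepA_La_eq hP hPn]
    ring

end Pool.Agent.P.MP_a1177c_nt.EK
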