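import Pool.Agent.P.MP_a1177c_nt.EK.Disp
import Pool.Agent.P.MP_a1177c_nt.EK.Expand
import Pool.Agent.P.MP_a1177c_nt.EK.Delta
import Pool.Agent.P.MP_a1177c_nt.EK.Numerics
import Pool.Agent.P.MP_a1177c_nt.EK.Model
import Pool.Agent.P.MP_a1177c_nt.EK.StepA

set_option autoImplicit false

namespace Pool.Agent.P.MP_a1177c_nt.EK

open Finset Filter
open scoped Classical

lemma stepB_ev (K : ℝ) {a b : ℝ} (h : a < b) : ∀ᶠ X : ℝ in atTop, K * X ^ a ≤ X ^ b := by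
  filter_upwards [(tendsto_rpow_atTop (sub_pos.2 h)).eventually_ge_atTop K,
    eventually_gt_atTop 0] with X h1 h2
  calc K * X ^ a ≤ X ^ (b - a) * X ^ a := by gcongr
    _ = X ^ b := by rw [← Real.rpow_add h2]; ring_nf

lemma stepB_ev_log (C : ℝ) (hC : 0 ≤ C) {ε : ℝ} (hε : 0 < ε) : ∀ᶠ X : ℝ in atTop,
    (C * X ^ (ε / 6000) * (1 + Real.log X) ^ 4) ^ 3 ≤ X ^ (ε / 1000) := by
  filter_upwards [stepB_ev (C ^ 3 * (1 + 1 / (ε / 48000)) ^ 12)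
    (show ε / 6000 * 3 + ε / 48000 * 12 < ε / 1000 by linarith), eventually_ge_atTop 1]
    with X h1 h2
  have h0 : 0 < X := by linarith
  have h3 : 1 + Real.log X ≤ (1 + 1 / (ε / 48000)) * X ^ (ε / 48000) := by
    have h4 := Real.log_le_rpow_div h0.le (show 0 < ε / 48000 by positivity)
    have h5 := Real.one_le_rpow h2 (show 0 ≤ ε / 48000 by positivity)
    rw [add_mul, one_mul, one_div, ← div_eq_inv_mul]
    linarith
  have h6 := Real.log_nonneg h2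
  refine le_trans ?_ h1
  calc _ ≤ (C * X ^ (ε / 6000) * ((1 + 1 / (ε / 48000)) * X ^ (ε / 48000)) ^ 4) ^ 3 := by gcongr
    _ = C ^ 3 * (1 + 1 / (ε / 48000)) ^ 12 * ((X ^ (ε / 6000)) ^ 3 * (X ^ (ε / 48000)) ^ 12) := by
        ring
    _ = _ := by
        rw [Real.rpow_add h0, ← Real.rpow_natCast (X ^ (ε / 6000)), ← Real.rpow_mul h0.le,
          ← Real.rpow_natCast (X ^ (ε / 48000)), ← Real.rpow_mul h0.le]
        norm_num

lemma stepB_ind_mul (p q : Prop) : ind p * ind q = ind (p ∧ q) := by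
  by_cases hp : p <;> by_cases hq : q <;> simp [ind, hp, hq]

lemma stepB_prod_ind {J : Type} [Fintype J] (p : J → Prop) : ∏ j, ind (p j) = ind (∀ j, p j) := by
  by_cases h : ∀ j, p j
  · simp [ind, h]
  · obtain ⟨j, hj⟩ := not_forall.1 h
    rw [prod_eq_zero (mem_univ j) (by simp [ind, hj])]
    simp only [ind, if_neg h]

lemma stepB_ind_congr {p q : Prop} (h : p ↔ q) : ind p = ind q := by rw [propext h]

lemma stepB_abs_ind (p : Prop) : |ind p| ≤ 1 := by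
  by_cases hp : p <;> simp [ind, hp]

lemma stepB_det (h : SL) : h 0 0 * h 1 1 - h 0 1 * h 1 0 = 1 := by
  have := h.det_coe
  rwa [Matrix.det_fin_two] at this

lemma stepB_prim (h : SL) (x y p : ℤ) (h1 : p ∣ (act h x y).re) (h2 : p ∣ (act h x y).im) :
    p ∣ y := by
  have h3 : y = h 0 0 * (act h x y).im - h 1 0 * (act h x y).re := by
    simp only [act]
    linear_combination (-y) * stepB_det h
  rw [h3]
  exact (h2.mul_left _).sub (h1.mul_left _)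

lemma stepB_nrm_ne (h : SL) : nrm (act h 1 0) ≠ 0 := by
  intro h0
  rw [nrm, Int.natAbs_eq_zero, GaussianInt.norm_eq_zero] at h0
  have h1 := congrArg Zsqrtd.re h0
  have h2 := congrArg Zsqrtd.im h0
  simp only [act, mul_one, mul_zero, add_zero, Zsqrtd.re_zero, Zsqrtd.im_zero] at h1 h2
  have h3 := stepB_det h
  rw [h1, h2] at h3
  simp at h3

lemma stepB_lin {I : Type} (s : Finset I) (c : I → ℝ) (a f : I → SL → ℝ)
    (ha : ∀ i h t, a i (h * nT t) = a i h) {φ : SL → ℝ} (hφ : (Function.support φ).Finite)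
    (M : ℕ) {F : SL → ℝ} (hF : ∀ h, F h = ∑ i ∈ s, c i * (a i h * f i h)) :
    ∑' h, φ h * (F h - avT M F h) =
      ∑ i ∈ s, c i * ∑' h, a i h * φ h * (f i h - avT M (f i) h) := by
  have h1 : ∀ h, φ h * (F h - avT M F h) =
      ∑ i ∈ s, c i * (a i h * φ h * (f i h - avT M (f i) h)) := by
    intro h
    have h2 : avT M F h = ∑ i ∈ s, c i * (a i h * avT M (f i) h) := by
      simp only [avT, hF, ha]
      rw [sum_comm, sum_div]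
      refine sum_congr rfl fun i _ => ?_
      rw [← mul_sum, ← mul_sum]
      ring
    rw [h2, hF, ← sum_sub_distrib, mul_sum]
    exact sum_congr rfl fun i _ => by ring
  simp only [h1]
  rw [Summable.tsum_finsetSum fun i _ => ?_]
  · exact sum_congr rfl fun i _ => tsum_mul_left
  · refine summable_of_hasFiniteSupport (hφ.subset fun h hh h0 => hh ?_)
    simp [h0]

lemma stepB_wq (P : Finset ℕ) (R : ℝ) (n₀ : ℕ) (n : Fin 3 → ℕ) : wq P R n₀ n =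
    ∑ k : (Fin 4 × (Fin 3 → Fin 4)) × (Fin 4 × (Fin 3 → Fin 4)),
      (F3 k.1.1 k.1.2 : ℝ) * F3 k.2.1 k.2.2 * (La P R k.1.1 n₀ * La P R k.2.1 n₀ *
        ∏ j, La P R (k.1.2 j) (n j) * La P R (k.2.2 j) (n j)) := by
  rw [wq, sq, ← Fintype.sum_prod_type', sum_mul_sum, ← Fintype.sum_prod_type']
  refine sum_congr rfl fun k _ => ?_
  rw [prod_mul_distrib]
  ring

abbrev SbJ : Type := Option (Fin 3 ⊕ Fin 3)
abbrev SbU : Type := (Fin 3 → GaussianInt) × (Fin 3 → Σ _ : Finset ℕ, ℕ)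

noncomputable def sbQ (τ : GaussianInt × SbU) : SbJ → ℕ
  | none => nrm τ.1
  | some (.inl j) => nrm (τ.2.1 j)
  | some (.inr j) => ∏ p ∈ (τ.2.2 j).1, p

def sbI (r : GaussianInt → ℤ) (τ : GaussianInt × SbU) : SbJ → ℤ
  | none => r (star τ.1)
  | some (.inl j) => r (τ.2.1 j)
  | some (.inr j) => (τ.2.2 j).2

def sbA (d : Geo) : SbJ → ℤ
  | none => 0
  | some (.inl j) => d.a j
  | some (.inr j) => d.a j

def sbB (d : Geo) : SbJ → ℤ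
  | none => 1
  | some (.inl j) => d.b j
  | some (.inr j) => d.b j

noncomputable def sbRoots (S : Finset ℕ) : Finset ℕ :=
  {ι ∈ range (∏ p ∈ S, p) | (∏ p ∈ S, p) ∣ ι ^ 2 + 1}

noncomputable def sbD (P : Finset ℕ) (Z : ℝ) : Finset (Σ _ : Finset ℕ, ℕ) :=
  {S ∈ P.powerset | pr S ≤ Z}.sigma sbRoots

noncomputable def sbU (P : Finset ℕ) (Pi : Fin 3 → Finset GaussianInt) (Z : Fin 3 → ℝ) :
    Finset SbU := Fintype.piFinset Pi ×ˢ Fintype.piFinset fun j => sbD P (Z j)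

lemma stepB_mem_D {P : Finset ℕ} {Z : ℝ} {x : Σ _ : Finset ℕ, ℕ} :
    x ∈ sbD P Z ↔ (x.1 ⊆ P ∧ pr x.1 ≤ Z) ∧ x.2 ∈ sbRoots x.1 := by
  simp only [sbD, mem_sigma, mem_filter, mem_powerset]

lemma stepB_mem_U {P : Finset ℕ} {Pi : Fin 3 → Finset GaussianInt} {Z : Fin 3 → ℝ} {u : SbU} :
    u ∈ sbU P Pi Z ↔ (∀ j, u.1 j ∈ Pi j) ∧ ∀ j, u.2 j ∈ sbD P (Z j) := by
  simp only [sbU, mem_product, Fintype.mem_piFinset]

lemma stepB_nrm_star (ϖ : GaussianInt) : nrm (star ϖ) = nrm ϖ := by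
  rw [nrm, nrm, Zsqrtd.norm_conj]

lemma stepB_roots : ∃ r : GaussianInt → ℤ, ∀ ϖ : GaussianInt, IsCoprime ϖ.re ϖ.im →
    (nrm ϖ : ℤ) ∣ r ϖ ^ 2 + 1 ∧ ∀ z, ϖ ∣ z ↔ (nrm ϖ : ℤ) ∣ ell (r ϖ) z := by
  have : ∀ ϖ : GaussianInt, ∃ ι : ℤ, IsCoprime ϖ.re ϖ.im →
      (nrm ϖ : ℤ) ∣ ι ^ 2 + 1 ∧ ∀ z, ϖ ∣ z ↔ (nrm ϖ : ℤ) ∣ ell ι z := fun ϖ => by
    by_cases h : IsCoprime ϖ.re ϖ.im
    · obtain ⟨ι, hι⟩ := gauss_root ϖ h
      exact ⟨ι, fun _ => hι⟩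
    · exact ⟨0, fun h' => absurd h' h⟩
  choose r hr using this
  exact ⟨r, hr⟩

lemma stepB_star_prim {ϖ : GaussianInt} (h : IsCoprime ϖ.re ϖ.im) :
    IsCoprime (star ϖ).re (star ϖ).im := by
  rw [Zsqrtd.re_star, Zsqrtd.im_star]
  exact h.neg_right

/-- Expansion of a sum over squarefree divisors into congruences. -/
lemma stepB_expand_one {P : Finset ℕ} (hP : ∀ p ∈ P, p.Prime) {Z : ℝ} {ρ : Finset ℕ → ℝ}
    (hρ : ∀ S ∈ P.powerset, ρ S ≠ 0 → pr S ≤ Z) (z : GaussianInt)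
    (hz : ∀ p ∈ P, ¬ ((p : ℤ) ∣ z.re ∧ (p : ℤ) ∣ z.im)) :
    ∑ S ∈ P.powerset, ρ S * ind (∀ p ∈ S, p ∣ nrm z) =
      ∑ x ∈ sbD P Z, ρ x.1 * ind (((∏ p ∈ x.1, p : ℕ) : ℤ) ∣ ell x.2 z) := by
  rw [sbD, sum_sigma, sum_filter_of_ne fun S hS h => hρ S hS fun h0 => h (by simp [h0])]
  refine sum_congr rfl fun S hS => ?_
  have h1 := mem_powerset.1 hS
  rw [ind_roots S (fun p hp => hP p (h1 hp)) z fun p hp => hz p (h1 hp), mul_sum]
  rfl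

/-- The part of the summand that depends on the second column. -/
noncomputable def sbG (d : Geo) (W₀ : ℕ) (R : ℝ) (P : Finset ℕ) (Pi : Fin 3 → Finset GaussianInt)
    (α α' : Fin 3 → Fin 4) (ϖ : GaussianInt) (h : SL) : ℝ :=
  ind (star ϖ ∣ act h 0 1) *
    (∏ j, ind (good (d.G j) W₀ (act h (d.a j * nrm ϖ) (d.b j))) *
      nu (Pi j) (act h (d.a j * nrm ϖ) (d.b j))) *
    ∏ j, La P R (α j) (nrm (act h (d.a j * nrm ϖ) (d.b j))) *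
      La P R (α' j) (nrm (act h (d.a j * nrm ϖ) (d.b j)))

lemma stepB_expand (d : Geo) {W₀ : ℕ} {R : ℝ} {P : Finset ℕ} (hP : ∀ p ∈ P, p.Prime)
    (hb : ∀ p ∈ P, ∀ j, ¬ (p : ℤ) ∣ d.b j) {Pi : Fin 3 → Finset GaussianInt}
    (hPi : ∀ j, ∀ ϖ ∈ Pi j, IsCoprime ϖ.re ϖ.im) {α α' : Fin 3 → Fin 4} {Z : Fin 3 → ℝ}
    {ρ : Fin 3 → Finset ℕ → ℝ} (hρ : ∀ j, ∀ S ∈ P.powerset, ρ j S ≠ 0 → pr S ≤ Z j)
    (hρ' : ∀ j n, La P R (α j) n * La P R (α' j) n =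
      ∑ S ∈ P.powerset, ρ j S * ind (∀ p ∈ S, p ∣ n))
    {r : GaussianInt → ℤ} (hr : ∀ ϖ : GaussianInt, IsCoprime ϖ.re ϖ.im →
      (nrm ϖ : ℤ) ∣ r ϖ ^ 2 + 1 ∧ ∀ z, ϖ ∣ z ↔ (nrm ϖ : ℤ) ∣ ell (r ϖ) z)
    {ϖ : GaussianInt} (hϖ : IsCoprime ϖ.re ϖ.im) {V : Set SL} (h : SL)
    (hV : h ∈ V ↔ ∀ j, good (d.G j) W₀ (act h (d.a j * nrm ϖ) (d.b j))) :
    sbG d W₀ R P Pi α α' ϖ h = ∑ u ∈ sbU P Pi Z, (∏ j, ρ j (u.2 j).1) * (1 *
      ind (h ∈ V ∧ h ∈ Cset (sbQ (ϖ, u)) (sbI r (ϖ, u))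
        (fun j => sbA d j * sbQ (ϖ, u) none) (sbB d))) := by
  have h1 : ∀ j, nu (Pi j) (act h (d.a j * nrm ϖ) (d.b j)) = ∑ ϖ' ∈ Pi j,
      ind ((nrm ϖ' : ℤ) ∣ ell (r ϖ') (act h (d.a j * nrm ϖ) (d.b j))) := by
    intro j
    rw [nu, card_filter]
    push_cast
    exact sum_congr rfl fun ϖ' hϖ' => stepB_ind_congr ((hr ϖ' (hPi j ϖ' hϖ')).2 _)
  have h2 : ∀ j, La P R (α j) (nrm (act h (d.a j * nrm ϖ) (d.b j))) *
      La P R (α' j) (nrm (act h (d.a j * nrm ϖ) (d.b j))) = ∑ x ∈ sbD P (Z j), ρ j x.1 *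
        ind (((∏ p ∈ x.1, p : ℕ) : ℤ) ∣ ell x.2 (act h (d.a j * nrm ϖ) (d.b j))) := by
    intro j
    rw [hρ', stepB_expand_one hP (hρ j) _ fun p hp h3 => hb p hp j (stepB_prim _ _ _ _ h3.1 h3.2)]
  have h3 := (hr _ (stepB_star_prim hϖ)).2 (act h 0 1)
  rw [stepB_nrm_star] at h3
  rw [sbG, prod_mul_distrib]
  simp only [h1, h2]
  rw [prod_univ_sum, prod_univ_sum, sbU, sum_product, mul_assoc, mul_assoc, sum_mul_sum, mul_sum,
    mul_sum]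
  refine sum_congr rfl fun x _ => ?_
  rw [mul_sum, mul_sum]
  refine sum_congr rfl fun y _ => ?_
  rw [prod_mul_distrib, stepB_prod_ind, stepB_prod_ind, stepB_prod_ind, one_mul, mul_left_comm
    (ind _) (∏ j, ρ j (y j).1), mul_left_comm (ind _) (∏ j, ρ j (y j).1),
    mul_left_comm (ind _) (∏ j, ρ j (y j).1), stepB_ind_mul, stepB_ind_mul, stepB_ind_mul]
  congr 1
  refine stepB_ind_congr ?_
  simp only [hV, h3, Cset, Set.mem_ofPred_eq, Option.forall, Sum.forall, sbQ, sbI, sbA, sbB,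
    zero_mul]
  tauto

lemma stepB_innr (d : Geo) (W₀ : ℕ) (R : ℝ) (P : Finset ℕ) (Pi : Fin 3 → Finset GaussianInt)
    (χ : ℕ → ℝ) (ϖ : GaussianInt) (h : SL) : innr d W₀ R P Pi χ ϖ h =
    ∑ k : (Fin 4 × (Fin 3 → Fin 4)) × (Fin 4 × (Fin 3 → Fin 4)),
      (F3 k.1.1 k.1.2 : ℝ) * F3 k.2.1 k.2.2 *
        ((fun ν => if nrm ν = 0 then 0 else ind (good d.G₀ W₀ ν) * χ (nrm ν) *
          (La P R k.1.1 (nrm ν) * La P R k.2.1 (nrm ν))) (act h 1 0) *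
          sbG d W₀ R P Pi k.1.2 k.2.2 ϖ h) := by
  rw [innr, stepB_wq, mul_sum]
  refine sum_congr rfl fun k _ => ?_
  simp only [if_neg (stepB_nrm_ne h), sbG]
  ring

lemma stepB_pr (S : Finset ℕ) : ((∏ p ∈ S, p : ℕ) : ℝ) = pr S := by
  rw [pr, Nat.cast_prod]

lemma stepB_fam {W q : ℕ} {N B : ℝ} {Pi : Finset GaussianInt} (h : Fam W q N Pi) (hB : 0 ≤ B)
    (hN : N ≤ 8 * B) (h0 : ∀ ϖ ∈ Pi, 0 < nrm ϖ) :
    (∀ ϖ ∈ Pi, (nrm ϖ : ℝ) ≤ 16 * q * B ∧ N ≤ nrm ϖ ∧ nrm ϖ ≡ q [MOD W]) ∧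
      (#Pi : ℝ) ≤ 16 * q * B := by
  have h1 : ∀ ϖ ∈ Pi, (nrm ϖ : ℝ) ≤ 16 * q * B ∧ N ≤ nrm ϖ ∧ nrm ϖ ≡ q [MOD W] := by
    intro ϖ hϖ
    obtain ⟨p, -, h2, h3, h4, h5⟩ := h.mem ϖ hϖ
    have h6 := h0 ϖ hϖ
    rw [h5] at h6 ⊢
    have h7 : (1 : ℝ) ≤ q := by exact_mod_cast Nat.pos_of_mul_pos_right h6
    have h8 : (0 : ℝ) ≤ p := Nat.cast_nonneg p
    push_cast
    refine ⟨by nlinarith, by nlinarith, ?_⟩
    simpa using h4.mul_left q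
  refine ⟨h1, ?_⟩
  have h2 : #Pi ≤ #(Icc 1 ⌊16 * q * B⌋₊) :=
    card_le_card_of_injOn nrm (fun ϖ hϖ => mem_coe.2 (mem_Icc.2
      ⟨h0 ϖ hϖ, Nat.le_floor (h1 ϖ hϖ).1⟩)) fun ϖ hϖ ϖ' hϖ' => h.inj ϖ hϖ ϖ' hϖ'
  rw [Nat.card_Icc, Nat.add_sub_cancel] at h2
  exact (Nat.cast_le.2 h2).trans (Nat.floor_le (by positivity))

lemma stepB_card_D {P : Finset ℕ} (hP : ∀ p ∈ P, p.Prime) {Z E : ℝ} (hZ : 0 ≤ Z) (hE : 0 ≤ E)
    (h : ∀ S ⊆ P, pr S ≤ Z → (2 : ℝ) ^ #S ≤ E) : (#(sbD P Z) : ℝ) ≤ Z * E := by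
  rw [sbD, card_sigma]
  push_cast
  refine (sum_le_card_nsmul _ _ E fun S hS => ?_).trans ?_
  · obtain ⟨h1, h2⟩ := mem_filter.1 hS
    have h3 := mem_powerset.1 h1
    refine le_trans ?_ (h S h3 h2)
    exact_mod_cast card_roots S fun p hp => hP p (h3 hp)
  · rw [nsmul_eq_mul]
    exact mul_le_mul_of_nonneg_right (card_pr_le P hP hZ) hE

lemma stepB_fib {P : Finset ℕ} (hP : ∀ p ∈ P, p.Prime) {Pi₀ : Finset GaussianInt}
    {Pi : Fin 3 → Finset GaussianInt} (h₀ : ∀ ϖ ∈ Pi₀, ∀ ϖ' ∈ Pi₀, nrm ϖ = nrm ϖ' → ϖ = ϖ')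
    (h₁ : ∀ j, ∀ ϖ ∈ Pi j, ∀ ϖ' ∈ Pi j, nrm ϖ = nrm ϖ' → ϖ = ϖ') {Z : Fin 3 → ℝ} {E : ℝ}
    (hE : 0 ≤ E) (h : ∀ j, ∀ S ⊆ P, pr S ≤ Z j → (2 : ℝ) ^ #S ≤ E) (r : SbJ → ℕ) :
    (#{τ ∈ Pi₀ ×ˢ sbU P Pi Z | sbQ τ = r} : ℝ) ≤ E ^ 3 := by
  rcases ({τ ∈ Pi₀ ×ˢ sbU P Pi Z | sbQ τ = r}).eq_empty_or_nonempty with h0 | ⟨τ₀, hτ₀⟩
  · rw [h0, card_empty, Nat.cast_zero]
    positivity
  obtain ⟨h2, h3⟩ := mem_filter.1 hτ₀
  obtain ⟨h4, h5⟩ := mem_product.1 h2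
  obtain ⟨h6, h7⟩ := stepB_mem_U.1 h5
  have key : ∀ τ ∈ {τ ∈ Pi₀ ×ˢ sbU P Pi Z | sbQ τ = r}, τ.1 = τ₀.1 ∧ τ.2.1 = τ₀.2.1 ∧
      ∀ j, (τ.2.2 j).1 = (τ₀.2.2 j).1 ∧ (τ.2.2 j).2 ∈ sbRoots (τ₀.2.2 j).1 := by
    intro τ hτ
    obtain ⟨g2, g3⟩ := mem_filter.1 hτ
    obtain ⟨g4, g5⟩ := mem_product.1 g2
    obtain ⟨g6, g7⟩ := stepB_mem_U.1 g5
    have g8 := g3.trans h3.symm
    refine ⟨h₀ _ g4 _ h4 (congrFun g8 none), funext fun j =>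
      h₁ j _ (g6 j) _ (h6 j) (congrFun g8 (some (.inl j))), fun j => ?_⟩
    have g9 : (τ.2.2 j).1 = (τ₀.2.2 j).1 := by
      rw [← Nat.primeFactors_prod fun p hp => hP p ((stepB_mem_D.1 (g7 j)).1.1 hp),
        ← Nat.primeFactors_prod fun p hp => hP p ((stepB_mem_D.1 (h7 j)).1.1 hp)]
      exact congrArg Nat.primeFactors (congrFun g8 (some (.inr j)))
    exact ⟨g9, g9 ▸ (stepB_mem_D.1 (g7 j)).2⟩
  have h8 : #{τ ∈ Pi₀ ×ˢ sbU P Pi Z | sbQ τ = r} ≤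
      #(Fintype.piFinset fun j => sbRoots (τ₀.2.2 j).1) := by
    refine card_le_card_of_injOn (fun τ j => (τ.2.2 j).2) (fun τ hτ => mem_coe.2
      (Fintype.mem_piFinset.2 fun j => ((key τ hτ).2.2 j).2)) fun τ hτ τ' hτ' he => ?_
    obtain ⟨g1, g2, g3⟩ := key τ hτ
    obtain ⟨g4, g5, g6⟩ := key τ' hτ'
    exact Prod.ext (g1.trans g4.symm) (Prod.ext (g2.trans g5.symm) (funext fun j =>
      Sigma.ext ((g3 j).1.trans (g6 j).1.symm) (heq_of_eq (congrFun he j))))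
  refine (Nat.cast_le.2 h8).trans ?_
  rw [Fintype.card_piFinset, Nat.cast_prod]
  refine (prod_le_prod (g := fun _ => E) (fun _ _ => Nat.cast_nonneg _) fun j _ => ?_).trans
    (by simp)
  obtain ⟨⟨g1, g2⟩, -⟩ := stepB_mem_D.1 (h7 j)
  refine le_trans ?_ (h j _ g1 g2)
  exact_mod_cast card_roots _ fun p hp => hP p (g1 hp)

lemma stepB_cell (R : ℝ) (a : Fin 4) (S : Finset ℕ) :
    |cell R a S| ≤ 1 ∧ (cell R a S ≠ 0 → pr S ≤ R ^ ((((a : ℕ) : ℝ) + 1) / 6)) := by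
  refine ⟨stepB_abs_ind _, fun h => ?_⟩
  by_contra h1
  exact h (by simp [cell, ind, h1])

lemma stepB_lev {R : ℝ} (hR : 1 ≤ R) {a : Fin 4} {α : Fin 3 → Fin 4} (h : F3 a α ≠ 0) :
    ∏ j, R ^ ((((α j : ℕ) : ℝ) + 1) / 6) ≤ R := by
  rw [← Real.rpow_sum_of_pos (by linarith), ← sum_div]
  conv_rhs => rw [← Real.rpow_one R]
  refine Real.rpow_le_rpow_of_exponent_le hR ?_
  rw [div_le_one (by norm_num)]
  exact_mod_cast F3_level a α h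

lemma stepB_lev_one {R : ℝ} (hR : 1 ≤ R) (a : Fin 4) : R ^ ((((a : ℕ) : ℝ) + 1) / 6) ≤ R := by
  conv_rhs => rw [← Real.rpow_one R]
  refine Real.rpow_le_rpow_of_exponent_le hR ?_
  rw [div_le_one (by norm_num)]
  have := a.isLt
  exact_mod_cast (by omega : (a : ℕ) + 1 ≤ 6)

theorem stepB : ∃ ε₀ : ℝ, 0 < ε₀ ∧ ∀ ε : ℝ, 0 < ε → ε ≤ ε₀ →
    ∀ (d : Geo) (W₀ W q₀ : ℕ) (q : Fin 3 → ℕ) (c₀ C₀ η : ℝ) (Φ : ℝ → ℝ → ℝ → ℝ),
    d.Ok W₀ W → Wt3 c₀ C₀ Φ → ∀ᶠ X : ℝ in atTop, ∀ (P : Finset ℕ) (Pi₀ : Finset GaussianInt)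
      (Pi : Fin 3 → Finset GaussianInt), Fams W q₀ q ε η X P Pi₀ Pi →
    ∀ χ : ℕ → ℝ, (∀ n, |χ n| ≤ 1) → ∀ M : ℕ, 0 < M → W ∣ M → (∏ p ∈ P, p) ∣ M →
    (∀ ϖ ∈ Pi₀, nrm ϖ ∣ M) → (∀ j, ∀ ϖ ∈ Pi j, nrm ϖ ∣ M) →
      |∑ ϖ ∈ Pi₀, ∑' h : SL, phiT Φ X (nrm ϖ) h *
        (innr d W₀ (Rx X) P Pi χ ϖ h - avT M (innr d W₀ (Rx X) P Pi χ ϖ) h)| ≤
        X ^ (1 - ε / 30) := by
  obtain ⟨ε₁, hε₁, hdisp⟩ := disp (1 / 1000) (by norm_num)
  refine ⟨min ε₁ (1 / 4000), lt_min hε₁ (by norm_num), fun ε hε hε0 d W₀ W q₀ q c₀ C₀ η Φ hd hΦ => ?_⟩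
  have hε2 : ε ≤ 1 / 4000 := hε0.trans (min_le_right _ _)
  obtain ⟨C, hC⟩ := pow_omega_le 12 (ε / 6000) (by norm_num) (by positivity)
  have hC1 : 1 ≤ C := by simpa using hC 1 one_ne_zero
  obtain ⟨r, hr⟩ := stepB_roots
  have hβ : ∀ j, sbB d j ≠ 0 := by
    rintro (_ | j | j)
    exacts [one_ne_zero, hd.b_ne j, hd.b_ne j]
  filter_upwards [hdisp ε hε (hε0.trans (min_le_left _ _)) W c₀ C₀ (16 * q₀) Φ none (sbA d) (sbB d)
    hd.W_pos hΦ rfl hβ, eventually_ge_atTop 1, stepB_ev_log C (by linarith) hε,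
    stepB_ev (16 * q₀ * ∏ j, (16 * q j : ℝ))
      (show ε + ε * 3 + (10 / 81 + 10 / 81) + ε / 1000 < 1 / 4 - 1 / 1000 by linarith),
    stepB_ev (119 * 119) (show 1 - ε / 20 < 1 - ε / 30 by linarith)]
    with X hX hX1 hXl hXc hXf P Pi₀ Pi hF χ hχ M hM hWM hPM hM₀ hM₁
  have hX0 : 0 < X := by linarith
  have hR1 : 1 ≤ Rx X := Real.one_le_rpow hX1 (by norm_num)
  have hRR : Rx X * Rx X = X ^ (10 / 81 + 10 / 81 : ℝ) := (Real.rpow_add hX0 _ _).symm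
  have hRX : Rx X * Rx X ≤ X := by
    rw [hRR]
    conv_rhs => rw [← Real.rpow_one X]
    exact Real.rpow_le_rpow_of_exponent_le hX1 (by norm_num)
  have hRX1 : Rx X ≤ X := by nlinarith
  obtain ⟨Ex, -, -, hEx⟩ := hF.good
  have hP : ∀ p ∈ P, p.Prime := fun p hp => ((hEx p).1 hp).1
  have hW₀ : W₀ ∣ W := (dvd_mul_right _ _).trans (hd.dvd 0)
  have hb : ∀ p ∈ P, ∀ j, ¬ (p : ℤ) ∣ d.b j := fun p hp j h =>
    ((hEx p).1 hp).2.2.2.1 ((hd.bad_b p (hP p hp) j h).trans hW₀)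
  obtain ⟨N₀, hN₀, hN₀', hf₀⟩ := hF.fam₀
  choose N _ hN' hf using hF.fam
  have hXε : 0 ≤ X ^ ε := by positivity
  have p₀ : ∀ ϖ ∈ Pi₀, 0 < nrm ϖ := fun ϖ h => Nat.pos_of_dvd_of_pos (hM₀ ϖ h) hM
  have p₁ : ∀ j, ∀ ϖ ∈ Pi j, 0 < nrm ϖ := fun j ϖ h => Nat.pos_of_dvd_of_pos (hM₁ j ϖ h) hM
  obtain ⟨a₀, c₀'⟩ := stepB_fam hf₀ hXε hN₀' p₀
  have a₁ := fun j => stepB_fam (hf j) hXε (hN' j) (p₁ j)
  have hlog := Real.log_nonneg hX1
  obtain ⟨E, hE⟩ : ∃ E, E = C * X ^ (ε / 6000) := ⟨_, rfl⟩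
  obtain ⟨L, hL⟩ : ∃ L, L = (1 + Real.log X) ^ 4 := ⟨_, rfl⟩
  rw [← hE, ← hL] at hXl
  have hE1 : 1 ≤ E := hE ▸ one_le_mul_of_one_le_of_one_le hC1 (Real.one_le_rpow hX1 (by positivity))
  have hL1 : 1 ≤ L := hL ▸ one_le_pow₀ (by linarith)
  have hEL : 1 ≤ E * L := one_le_mul_of_one_le_of_one_le hE1 hL1
  have hE3 : E ^ 3 ≤ X ^ (ε / 1000) :=
    (pow_le_pow_left₀ (by linarith) (le_mul_of_one_le_right (by linarith) hL1) 3).trans hXl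
  have hω : ∀ n : ℕ, n ≠ 0 → (n : ℝ) ≤ X → (12 : ℝ) ^ #n.primeFactors ≤ E := fun n h1 h2 =>
    (hC n h1).trans (by rw [hE]; gcongr)
  have hωS : ∀ S ⊆ P, pr S ≤ X → (12 : ℝ) ^ #S ≤ E := fun S h1 h2 => by
    have := hω (∏ p ∈ S, p) (prod_ne_zero_iff.2 fun p hp => (hP p (h1 hp)).ne_zero)
      (by rwa [stepB_pr])
    rwa [Nat.primeFactors_prod fun p hp => hP p (h1 hp)] at this
  have hHs : Hs P X ^ 2 ≤ L := by
    have h0 : 0 ≤ Hs P X := sum_nonneg fun S _ => prod_nonneg fun p _ => by positivity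
    calc Hs P X ^ 2 ≤ ((1 + Real.log X) ^ 2) ^ 2 := pow_le_pow_left₀ h0 (Hs_le P hP hX1) 2
      _ = L := by rw [hL]; ring
  obtain ⟨A, hA⟩ : ∃ A : Fin 4 → Fin 4 → GaussianInt → ℝ, A = fun a a' ν => if nrm ν = 0 then 0
    else ind (good d.G₀ W₀ ν) * χ (nrm ν) * (La P (Rx X) a (nrm ν) * La P (Rx X) a' (nrm ν)) :=
    ⟨_, rfl⟩
  have hAb : ∀ a a' ν, (nrm ν : ℝ) ≤ X → |A a a' ν| ≤ X ^ (ε / 1000) := by
    intro a a' ν hν
    rw [hA]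
    dsimp only
    split_ifs with h0
    · rw [abs_zero]
      positivity
    have h1 : ∀ a, |La P (Rx X) a (nrm ν)| ≤ 2 ^ #(nrm ν).primeFactors * Hs P X := fun a =>
      abs_lam_le P hP (fun S => ⟨(stepB_cell _ a S).1, fun h => ((stepB_cell _ a S).2 h).trans
        ((stepB_lev_one hR1 a).trans hRX1)⟩) h0
    have h2 := (abs_nonneg _).trans (h1 a)
    rw [abs_mul, abs_mul, abs_mul]
    calc _ ≤ 1 * 1 * ((2 ^ #(nrm ν).primeFactors * Hs P X) *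
          (2 ^ #(nrm ν).primeFactors * Hs P X)) :=
          mul_le_mul (mul_le_mul (stepB_abs_ind _) (hχ _) (abs_nonneg _) zero_le_one)
            (mul_le_mul (h1 a) (h1 a') (abs_nonneg _) h2) (by positivity) (by norm_num)
      _ = (2 * 2) ^ #(nrm ν).primeFactors * Hs P X ^ 2 := by rw [mul_pow]; ring
      _ ≤ E * L := mul_le_mul ((pow_le_pow_left₀ (by norm_num) (by norm_num) _).trans
          (hω _ h0 hν)) hHs (sq_nonneg _) (by linarith)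
      _ ≤ (E * L) ^ 3 := le_self_pow₀ hEL (by norm_num)
      _ ≤ _ := hXl
  have hφ : ∀ ϖ ∈ Pi₀, (Function.support (phiT Φ X (nrm ϖ))).Finite := fun ϖ h =>
    phiT_finite hΦ hX0 (by exact_mod_cast p₀ ϖ h)
  have key : ∀ (a a' : Fin 4) (α α' : Fin 3 → Fin 4), F3 a α ≠ 0 → F3 a' α' ≠ 0 →
      |∑ ϖ ∈ Pi₀, ∑' h : SL, A a a' (act h 1 0) * phiT Φ X (nrm ϖ) h *
        (sbG d W₀ (Rx X) P Pi α α' ϖ h - avT M (sbG d W₀ (Rx X) P Pi α α' ϖ) h)| ≤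
        X ^ (1 - ε / 20) := by
    intro a a' α α' hα hα'
    choose ρ hρ1 hρ2 hρ3 using fun j => lam_mul P (fun p hp => (hP p hp).two_le)
      (stepB_cell (Rx X) (α j)) (stepB_cell (Rx X) (α' j)) ((stepB_lev_one hR1 _).trans hRX1)
      ((stepB_lev_one hR1 _).trans hRX1)
    obtain ⟨Z, hZ⟩ : ∃ Z : Fin 3 → ℝ, Z = fun j => Rx X ^ ((((α j : ℕ) : ℝ) + 1) / 6) *
      Rx X ^ ((((α' j : ℕ) : ℝ) + 1) / 6) := ⟨_, rfl⟩
    have hZ0 : ∀ j, 0 ≤ Z j := fun j => by rw [hZ]; positivity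
    have hZX : ∀ j, Z j ≤ X := fun j => by
      rw [hZ]
      exact (mul_le_mul (stepB_lev_one hR1 _) (stepB_lev_one hR1 _) (by positivity)
        (by linarith)).trans hRX
    have hZp : ∏ j, Z j ≤ Rx X * Rx X := by
      rw [hZ, prod_mul_distrib]
      exact mul_le_mul (stepB_lev hR1 hα) (stepB_lev hR1 hα')
        (prod_nonneg fun _ _ => by positivity) (by linarith)
    have h2S : ∀ j, ∀ S ⊆ P, pr S ≤ Z j → (2 : ℝ) ^ #S ≤ E := fun j S h1 h2 =>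
      (pow_le_pow_left₀ (by norm_num) (by norm_num) _).trans (hωS S h1 (h2.trans (hZX j)))
    have hbig : 16 * q₀ * X ^ ε * (∏ j, (16 * q j * X ^ ε)) * (Rx X * Rx X) * X ^ (ε / 1000) ≤
        X ^ (1 / 4 - 1 / 1000 : ℝ) := by
      refine le_trans (le_of_eq ?_) hXc
      rw [hRR, prod_mul_distrib, prod_const, card_univ, Fintype.card_fin, Real.rpow_add hX0 _
        (ε / 1000), Real.rpow_add hX0 (ε + ε * 3), Real.rpow_add hX0 ε, Real.rpow_mul hX0.le,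
        Real.rpow_ofNat]
      ring
    have hmem : ∀ τ ∈ Pi₀ ×ˢ sbU P Pi Z, τ.1 ∈ Pi₀ ∧ (∀ j, τ.2.1 j ∈ Pi j) ∧
        ∀ j, ((τ.2.2 j).1 ⊆ P ∧ pr (τ.2.2 j).1 ≤ Z j) ∧ (τ.2.2 j).2 ∈ sbRoots (τ.2.2 j).1 :=
      fun τ hτ => ⟨(mem_product.1 hτ).1, (stepB_mem_U.1 (mem_product.1 hτ).2).1, fun j =>
        stepB_mem_D.1 ((stepB_mem_U.1 (mem_product.1 hτ).2).2 j)⟩
    have hdvd : ∀ τ ∈ Pi₀ ×ˢ sbU P Pi Z, ∀ j, sbQ τ j ∣ M := by
      intro τ hτ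
      obtain ⟨h1, h2, h3⟩ := hmem τ hτ
      rintro (_ | j | j)
      exacts [hM₀ _ h1, hM₁ j _ (h2 j), (prod_dvd_prod_of_subset _ _ _ (h3 j).1.1).trans hPM]
    have hpar : Par none (sbB d) X (16 * q₀ * X ^ ε) (X ^ (ε / 1000)) (Pi₀ ×ˢ sbU P Pi Z) sbQ
        (sbI r) := by
      refine ⟨fun τ hτ j => Nat.pos_of_dvd_of_pos (hdvd τ hτ j) hM, fun τ hτ => ?_,
        fun τ hτ => ?_, fun τ hτ => ?_, fun τ hτ => (a₀ _ (hmem τ hτ).1).1, fun s =>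
        (stepB_fib hP hf₀.inj (fun j => (hf j).inj) (by linarith) h2S s).trans hE3⟩
      · obtain ⟨h1, h2, h3⟩ := hmem τ hτ
        rintro (_ | j | j)
        · have := (hr _ (stepB_star_prim (hf₀.prim _ h1))).1
          rwa [stepB_nrm_star] at this
        · exact (hr _ ((hf j).prim _ (h2 j))).1
        · have := (mem_filter.1 (h3 j).2).2
          simp only [sbQ, sbI]
          exact_mod_cast this
      · obtain ⟨h1, h2, h3⟩ := hmem τ hτ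
        rintro (_ | j | j)
        · exact isCoprime_one_left
        · refine Int.isCoprime_iff_gcd_eq_one.2 (Nat.eq_one_iff_not_exists_prime_dvd.2
            fun p hp h4 => ?_)
          have h5 : p ∣ W := (hd.bad_b p hp j ((Int.natCast_dvd_natCast.2 h4).trans
            (Int.gcd_dvd_left _ _))).trans hW₀
          have h6 : p ∣ nrm (τ.2.1 j) := Int.natCast_dvd_natCast.1
            ((Int.natCast_dvd_natCast.2 h4).trans (Int.gcd_dvd_right _ _))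
          exact hp.one_lt.ne' (Nat.eq_one_of_dvd_coprimes (hF.copW j _ (h2 j)) h6 h5)
        · simp only [sbQ, sbB, Nat.cast_prod]
          refine IsCoprime.prod_right fun p hp => ?_
          exact ((Nat.prime_iff_prime_int.1 (hP p ((h3 j).1.1 hp))).coprime_iff_not_dvd.2
            (hb p ((h3 j).1.1 hp) j)).symm
      · obtain ⟨h1, h2, h3⟩ := hmem τ hτ
        rw [Fintype.prod_option, Fintype.prod_sum_type]
        simp only [sbQ, stepB_pr]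
        calc _ ≤ 16 * q₀ * X ^ ε * ((∏ j, (16 * q j * X ^ ε)) * (Rx X * Rx X)) :=
              mul_le_mul (a₀ _ h1).1 (mul_le_mul (prod_le_prod (fun _ _ => Nat.cast_nonneg _)
                fun j _ => ((a₁ j).1 _ (h2 j)).1) ((prod_le_prod (fun j _ =>
                  stepB_pr _ ▸ Nat.cast_nonneg _) fun j _ => (h3 j).1.2).trans hZp)
                (prod_nonneg fun j _ => stepB_pr _ ▸ Nat.cast_nonneg _)
                (prod_nonneg fun j _ => by positivity))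
                (mul_nonneg (prod_nonneg fun j _ => Nat.cast_nonneg _)
                  (prod_nonneg fun j _ => stepB_pr _ ▸ Nat.cast_nonneg _)) (by positivity)
          _ ≤ 16 * q₀ * X ^ ε * (∏ j, (16 * q j * X ^ ε)) * (Rx X * Rx X) * X ^ (ε / 1000) := by
              rw [← mul_assoc]
              exact le_mul_of_one_le_right (mul_nonneg (mul_nonneg (by positivity)
                (prod_nonneg fun j _ => by positivity)) (by positivity))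
                (Real.one_le_rpow hX1 (by positivity))
          _ ≤ X ^ (1 / 4 - 1 / 1000 : ℝ) := hbig
          _ ≤ X ^ (1 : ℝ) := Real.rpow_le_rpow_of_exponent_le hX1 (by norm_num)
          _ = X := Real.rpow_one X
    have hcard : (#(Pi₀ ×ˢ sbU P Pi Z) : ℝ) ≤ X ^ (1 / 4 - 1 / 1000 : ℝ) := by
      refine le_trans ?_ hbig
      rw [card_product, sbU, card_product, Fintype.card_piFinset, Fintype.card_piFinset]
      push_cast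
      have h1 : ∏ j, (#(sbD P (Z j)) : ℝ) ≤ Rx X * Rx X * X ^ (ε / 1000) := by
        refine (prod_le_prod (fun _ _ => Nat.cast_nonneg _) fun j _ =>
          stepB_card_D hP (hZ0 j) (by linarith) (h2S j)).trans ?_
        rw [prod_mul_distrib, prod_const, card_univ, Fintype.card_fin]
        exact mul_le_mul hZp hE3 (by positivity) (by positivity)
      rw [mul_assoc, mul_assoc]
      exact mul_le_mul c₀' (mul_le_mul (prod_le_prod (fun _ _ => Nat.cast_nonneg _)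
        fun j _ => (a₁ j).2) h1 (prod_nonneg fun j _ => Nat.cast_nonneg _)
        (prod_nonneg fun j _ => by positivity)) (mul_nonneg (prod_nonneg fun j _ =>
          Nat.cast_nonneg _) (prod_nonneg fun j _ => Nat.cast_nonneg _)) (by positivity)
    have hρb : ∀ τ ∈ Pi₀ ×ˢ sbU P Pi Z, |∏ j, ρ j (τ.2.2 j).1| ≤ X ^ (ε / 1000) := by
      intro τ hτ
      obtain ⟨-, -, h3⟩ := hmem τ hτ
      rw [abs_prod]
      refine le_trans ((prod_le_prod (g := fun _ => E * L) (fun _ _ => abs_nonneg _)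
        fun j _ => ?_).trans (by simp)) hXl
      exact (hρ1 j _ (mem_powerset.2 (h3 j).1.1)).trans (mul_le_mul
        (hωS _ (h3 j).1.1 ((h3 j).1.2.trans (hZX j))) hHs (sq_nonneg _) (by linarith))
    have hlev : Lev W fun h => ind (h ∈ {h : SL | ∀ j, good (d.G j) W₀
        (act h (d.a j * q₀) (d.b j))}) := by
      have := good_lev d hd q₀
      simp only [stepB_prod_ind] at this
      exact this
    refine le_trans (le_of_eq ?_) (hX (Pi₀ ×ˢ sbU P Pi Z) sbQ (sbI r)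
      (fun τ => ∏ j, ρ j (τ.2.2 j).1) (A a a') _ M hpar
      (fun τ hτ => hN₀.trans (a₀ _ (hmem τ hτ).1).2.1) hcard hρb (hAb a a') hlev hM hWM hdvd)
    rw [sum_product]
    congr 1
    refine sum_congr rfl fun ϖ hϖ => ?_
    rw [stepB_lin (sbU P Pi Z) (fun u => ∏ j, ρ j (u.2 j).1) (fun _ _ => 1) _ (fun _ _ _ => rfl)
      (φ := fun h => A a a' (act h 1 0) * phiT Φ X (nrm ϖ) h)
      ((hφ ϖ hϖ).subset fun h hh h0 => hh (by simp [h0])) M fun h =>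
      stepB_expand d hP hb (fun j => (hf j).prim) (Z := Z) (hZ ▸ hρ2)
        (fun j n => hρ3 j fun p => p ∣ n) hr (hf₀.prim ϖ hϖ) h
        (V := {h : SL | ∀ j, good (d.G j) W₀ (act h (d.a j * q₀) (d.b j))})
        (forall_congr' fun j => good_congr d hd
          (Int.natCast_modEq_iff.2 (a₀ ϖ hϖ).2.2.symm) h j)]
    simp only [one_mul]
    rfl
  rw [sum_congr rfl fun ϖ hϖ => stepB_lin
    (univ : Finset ((Fin 4 × (Fin 3 → Fin 4)) × (Fin 4 × (Fin 3 → Fin 4))))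
    (fun k => (F3 k.1.1 k.1.2 : ℝ) * F3 k.2.1 k.2.2) (fun k h => A k.1.1 k.2.1 (act h 1 0))
    (fun k => sbG d W₀ (Rx X) P Pi k.1.2 k.2.2 ϖ) (fun k h t => by rw [act_nT]; simp) (hφ ϖ hϖ) M
    fun h => by rw [hA]; exact stepB_innr d W₀ (Rx X) P Pi χ ϖ h, sum_comm]
  refine (abs_sum_le_sum_abs _ _).trans ((sum_le_sum (g := fun k =>
    (F3 k.1.1 k.1.2 : ℝ) * F3 k.2.1 k.2.2 * X ^ (1 - ε / 20)) fun k _ => ?_).trans ?_)
  · rw [← mul_sum, abs_mul, abs_of_nonneg (by positivity)]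
    by_cases h1 : F3 k.1.1 k.1.2 = 0
    · simp [h1]
    by_cases h2 : F3 k.2.1 k.2.2 = 0
    · simp [h2]
    exact mul_le_mul_of_nonneg_left (key _ _ _ _ h1 h2) (by positivity)
  · have h1 : ∑ k : Fin 4 × (Fin 3 → Fin 4), (F3 k.1 k.2 : ℝ) = 119 := by
      rw [Fintype.sum_prod_type, sum_comm]
      exact_mod_cast sum_F3
    rw [← sum_mul, Fintype.sum_prod_type' fun k k' : Fin 4 × (Fin 3 → Fin 4) =>
      (F3 k.1 k.2 : ℝ) * F3 k'.1 k'.2, ← sum_mul_sum, h1]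
    exact hXf

end Pool.Agent.P.MP_a1177c_nt.EK
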