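import Pool.Agent.P.MP_a1177c_nt.EK.StepA
import Pool.Agent.P.MP_a1177c_nt.EK.Cset
import Pool.Agent.P.MP_a1177c_nt.EK.Lattice

set_option autoImplicit false

namespace Pool.Agent.P.MP_a1177c_nt.EK

open Finset Filter
open scoped Classical

lemma stepC_cont {f : ℝ → ℝ} {L : ℝ} (hl : ∀ y y', |f y - f y'| ≤ L * |y - y'|) :
    Continuous f := by
  have : LipschitzWith (Real.toNNReal L) f := by
    refine LipschitzWith.of_dist_le' ?_
    intro x y
    simpa [Real.dist_eq] using hl x y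
  exact this.continuous

lemma stepC_riemann {f : ℝ → ℝ} {L K δ : ℝ} (hL : 0 ≤ L) (hK : 0 ≤ K) (hδ : 0 < δ)
    (hl : ∀ y y', |f y - f y'| ≤ L * |y - y'|) (hs : ∀ y, f y ≠ 0 → |y| ≤ K) (y₀ : ℝ) :
    |∑' t : ℤ, f (y₀ + t * δ) - (∫ y, f y) / δ| ≤ L * (2 * K + 3 * δ) := by
  have hc := stepC_cont hl
  set a : ℤ := ⌊(-K - y₀) / δ⌋ - 1 with ha
  set N : ℕ := ⌈2 * K / δ⌉₊ + 2 with hN
  have ha1 : (a : ℝ) * δ < -K - y₀ := by
    have h1 := Int.floor_le ((-K - y₀) / δ)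
    have h2 : (a : ℝ) < (-K - y₀) / δ := by rw [ha]; push_cast; linarith
    rwa [lt_div_iff₀ hδ] at h2
  have ha2 : K - y₀ < ((a : ℝ) + N) * δ := by
    have h1 := Int.lt_floor_add_one ((-K - y₀) / δ)
    have h2 := Nat.le_ceil (2 * K / δ)
    have h3 : (K - y₀) / δ < (a : ℝ) + N := by
      have : (K - y₀) / δ = (-K - y₀) / δ + 2 * K / δ := by ring
      rw [ha, hN, this]; push_cast; linarith
    rwa [div_lt_iff₀ hδ] at h3
  have hNle : (N : ℝ) * δ ≤ 2 * K + 3 * δ := by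
    have h2 := (Nat.ceil_lt_add_one (div_nonneg (by linarith : 0 ≤ 2 * K) hδ.le)).le
    have h3 : (N : ℝ) ≤ 2 * K / δ + 3 := by rw [hN]; push_cast; linarith
    calc (N : ℝ) * δ ≤ (2 * K / δ + 3) * δ := by gcongr
      _ = 2 * K + 3 * δ := by field_simp
  set u : ℕ → ℝ := fun k => y₀ + ((a : ℝ) + k) * δ with hu
  have h1 : ∑' t : ℤ, f (y₀ + t * δ) = ∑ k ∈ range N, f (u k) := by
    rw [tsum_eq_sum (s := (range N).image fun k : ℕ => a + (k : ℤ))]
    · rw [sum_image (by intro x _ y _ h; simpa using h)]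
      refine sum_congr rfl fun k _ => ?_
      simp [hu]
    · intro t ht
      by_contra hne
      apply ht
      have h := abs_le.1 (hs _ hne)
      have h3 : (a : ℝ) < t := by
        have : (a : ℝ) * δ < t * δ := by linarith [h.1]
        exact lt_of_mul_lt_mul_right this hδ.le
      have h4 : (t : ℝ) < a + N := by
        have : (t : ℝ) * δ < (a + N) * δ := by linarith [h.2]
        exact lt_of_mul_lt_mul_right this hδ.le
      have h5 : a < t := by exact_mod_cast h3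
      have h6 : t < a + N := by exact_mod_cast h4
      refine mem_image.2 ⟨(t - a).toNat, mem_range.2 (by omega), by omega⟩
  have h2 : ∫ y, f y = ∑ k ∈ range N, ∫ y in u k..u (k + 1), f y := by
    rw [intervalIntegral.sum_integral_adjacent_intervals fun k _ => hc.intervalIntegrable _ _]
    symm
    apply intervalIntegral.integral_eq_integral_of_support_subset
    intro y hy
    have h := abs_le.1 (hs _ hy)
    simp only [hu, Set.mem_Ioc, Nat.cast_zero, add_zero]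
    constructor <;> linarith [h.1, h.2]
  rw [h1, h2, sum_div, ← sum_sub_distrib]
  have h3 : ∀ k ∈ range N, |f (u k) - (∫ y in u k..u (k + 1), f y) / δ| ≤ L * δ := by
    intro k _
    have hd : u (k + 1) - u k = δ := by simp only [hu]; push_cast; ring
    have e1 : f (u k) - (∫ y in u k..u (k + 1), f y) / δ =
        (∫ y in u k..u (k + 1), (f (u k) - f y)) / δ := by
      rw [intervalIntegral.integral_sub (by simp) (hc.intervalIntegrable _ _)]
      simp only [intervalIntegral.integral_const, hd, smul_eq_mul]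
      field_simp
    rw [e1, abs_div, abs_of_pos hδ, div_le_iff₀ hδ]
    have := intervalIntegral.norm_integral_le_of_norm_le_const (a := u k) (b := u (k + 1))
      (C := L * δ) (f := fun y => f (u k) - f y) (by
        intro y hy
        rw [Set.uIoc_of_le (by linarith)] at hy
        refine (hl _ _).trans (mul_le_mul_of_nonneg_left ?_ hL)
        rw [abs_le]; constructor <;> linarith [hy.1, hy.2])
    rwa [hd, abs_of_pos hδ, Real.norm_eq_abs] at this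
  calc _ ≤ ∑ k ∈ range N, |f (u k) - (∫ y in u k..u (k + 1), f y) / δ| := abs_sum_le_sum_abs _ _
    _ ≤ ∑ k ∈ range N, L * δ := sum_le_sum h3
    _ = L * (N * δ) := by simp; ring
    _ ≤ _ := by gcongr

lemma stepC_int_le {f : ℝ → ℝ} {M K : ℝ} (hK : 0 ≤ K) (hb : ∀ y, |f y| ≤ M)
    (hs : ∀ y, f y ≠ 0 → |y| ≤ K) : |∫ y, f y| ≤ M * (2 * K + 2) := by
  have h1 : ∫ y, f y = ∫ y in (-K - 1)..(K + 1), f y := by
    symm
    apply intervalIntegral.integral_eq_integral_of_support_subset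
    intro y hy
    have h := abs_le.1 (hs _ hy)
    constructor <;> linarith [h.1, h.2]
  rw [h1]
  have := intervalIntegral.norm_integral_le_of_norm_le_const (a := -K - 1) (b := K + 1)
    (C := M) (f := f) (fun y _ => hb y)
  rw [Real.norm_eq_abs, abs_of_nonneg (a := K + 1 - (-K - 1)) (by linarith)] at this
  convert this using 2
  ring

lemma stepC_cs {f : ℝ → ℝ} {K : ℝ} (hs : ∀ y, f y ≠ 0 → |y| ≤ K) : HasCompactSupport f := by
  refine HasCompactSupport.of_support_subset_isCompact (K := Set.Icc (-K) K) isCompact_Icc ?_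
  intro y hy
  exact abs_le.1 (hs y hy)

/-- Clamp to a symmetric interval. -/
noncomputable def stepC_cl (K y : ℝ) : ℝ := max (-K) (min K y)

lemma stepC_cl_abs {K : ℝ} (hK : 0 ≤ K) (y : ℝ) : |stepC_cl K y| ≤ K := by
  unfold stepC_cl
  rw [abs_le]
  refine ⟨le_max_left _ _, max_le (by linarith) (min_le_left _ _)⟩

lemma stepC_cl_eq {K y : ℝ} (h : |y| ≤ K) : stepC_cl K y = y := by
  have := abs_le.1 h
  unfold stepC_cl
  rw [min_eq_right this.2, max_eq_right this.1]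

lemma stepC_cl_lip (K y y' : ℝ) : |stepC_cl K y - stepC_cl K y'| ≤ |y - y'| := by
  unfold stepC_cl
  refine (abs_max_sub_max_le_max _ _ _ _).trans (max_le (by simp) ?_)
  refine (abs_min_sub_min_le_max _ _ _ _).trans (max_le (by simp) le_rfl)

/-- The weight along the hyperboloid. -/
noncomputable def stepC_G (c₀ C₀ : ℝ) (Φ : ℝ → ℝ → ℝ → ℝ) (e x y : ℝ) : ℝ :=
  Φ x y ((stepC_cl C₀ y ^ 2 + e) / max x c₀)

section
variable {c₀ C₀ : ℝ} {Φ : ℝ → ℝ → ℝ → ℝ}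

lemma stepC_cC (hΦ : Wt3 c₀ C₀ Φ) : c₀ ≤ C₀ := by
  obtain ⟨x, y, h⟩ := hΦ.cone
  have := hΦ.supp _ _ _ h.ne'
  linarith [this.1, this.2.1]

lemma stepC_G_eq (hΦ : Wt3 c₀ C₀ Φ) (e x y : ℝ) :
    stepC_G c₀ C₀ Φ e x y = Φ x y ((y ^ 2 + e) / x) := by
  unfold stepC_G
  by_cases h : c₀ ≤ x ∧ |y| ≤ C₀
  · rw [stepC_cl_eq h.2, max_eq_left h.1]
  · have : ∀ z, Φ x y z = 0 := by
      intro z
      by_contra hne
      have := hΦ.supp _ _ _ hne
      exact h ⟨this.1, this.2.2.1⟩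
    rw [this, this]

lemma stepC_G_supp (hΦ : Wt3 c₀ C₀ Φ) (e x y : ℝ) (h : stepC_G c₀ C₀ Φ e x y ≠ 0) :
    c₀ ≤ x ∧ x ≤ C₀ ∧ |y| ≤ C₀ := by
  have := hΦ.supp _ _ _ h
  exact ⟨this.1, this.2.1, this.2.2.1⟩

lemma stepC_G_lipy (hΦ : Wt3 c₀ C₀ Φ) (e x y y' : ℝ) :
    |stepC_G c₀ C₀ Φ e x y - stepC_G c₀ C₀ Φ e x y'| ≤ C₀ * (1 + 2 * C₀ / c₀) * |y - y'| := by
  have hc := hΦ.pos
  have hC : 0 ≤ C₀ := hc.le.trans (stepC_cC hΦ)
  have hm : c₀ ≤ max x c₀ := le_max_right _ _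
  refine (hΦ.lip _ _ _ _ _ _).trans ?_
  rw [mul_assoc]
  refine mul_le_mul_of_nonneg_left ?_ hC
  have h1 : |(stepC_cl C₀ y ^ 2 + e) / max x c₀ - (stepC_cl C₀ y' ^ 2 + e) / max x c₀| ≤
      2 * C₀ / c₀ * |y - y'| := by
    have e1 : (stepC_cl C₀ y ^ 2 + e) / max x c₀ - (stepC_cl C₀ y' ^ 2 + e) / max x c₀ =
        (stepC_cl C₀ y + stepC_cl C₀ y') / max x c₀ * (stepC_cl C₀ y - stepC_cl C₀ y') := by ring
    rw [e1, abs_mul, abs_div, abs_of_pos (hc.trans_le hm)]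
    have h2 : |stepC_cl C₀ y + stepC_cl C₀ y'| ≤ 2 * C₀ :=
      (abs_add_le _ _).trans (by linarith [stepC_cl_abs hC y, stepC_cl_abs hC y'])
    have h3 := stepC_cl_lip C₀ y y'
    gcongr
  simp only [sub_self, abs_zero, zero_add]
  linarith

lemma stepC_G_lipx (hΦ : Wt3 c₀ C₀ Φ) (x x' y : ℝ) :
    |stepC_G c₀ C₀ Φ 0 x y - stepC_G c₀ C₀ Φ 0 x' y| ≤
      C₀ * (1 + C₀ ^ 2 / c₀ ^ 2) * |x - x'| := by
  have hc := hΦ.pos
  have hC : 0 ≤ C₀ := hc.le.trans (stepC_cC hΦ)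
  have hm : c₀ ≤ max x c₀ := le_max_right _ _
  have hm' : c₀ ≤ max x' c₀ := le_max_right _ _
  have hp := hc.trans_le hm
  have hp' := hc.trans_le hm'
  refine (hΦ.lip _ _ _ _ _ _).trans ?_
  rw [mul_assoc]
  refine mul_le_mul_of_nonneg_left ?_ hC
  have h1 : |(stepC_cl C₀ y ^ 2 + 0) / max x c₀ - (stepC_cl C₀ y ^ 2 + 0) / max x' c₀| ≤
      C₀ ^ 2 / c₀ ^ 2 * |x - x'| := by
    have e1 : (stepC_cl C₀ y ^ 2 + 0) / max x c₀ - (stepC_cl C₀ y ^ 2 + 0) / max x' c₀ =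
        stepC_cl C₀ y ^ 2 / (max x c₀ * max x' c₀) * (max x' c₀ - max x c₀) := by
      field_simp
      ring
    rw [e1, abs_mul, abs_div, abs_of_pos (mul_pos hp hp'), abs_pow]
    have h2 := stepC_cl_abs hC y
    have h3 : |max x' c₀ - max x c₀| ≤ |x - x'| := by
      rw [abs_sub_comm]; exact abs_max_sub_max_le_abs _ _ _
    have h4 : c₀ ^ 2 ≤ max x c₀ * max x' c₀ := by rw [sq]; gcongr
    gcongr
  simp only [sub_self, abs_zero, add_zero] at h1 ⊢
  linarith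

lemma stepC_G_lipe (hΦ : Wt3 c₀ C₀ Φ) {e : ℝ} (he : 0 ≤ e) (x y : ℝ) :
    |stepC_G c₀ C₀ Φ e x y - stepC_G c₀ C₀ Φ 0 x y| ≤ C₀ * (e / c₀) := by
  have hc := hΦ.pos
  have hC : 0 ≤ C₀ := hc.le.trans (stepC_cC hΦ)
  have hm : c₀ ≤ max x c₀ := le_max_right _ _
  have hp := hc.trans_le hm
  refine (hΦ.lip _ _ _ _ _ _).trans (mul_le_mul_of_nonneg_left ?_ hC)
  have e1 : (stepC_cl C₀ y ^ 2 + e) / max x c₀ - (stepC_cl C₀ y ^ 2 + 0) / max x c₀ =
      e / max x c₀ := by ring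
  rw [e1, abs_of_nonneg (a := e / max x c₀) (by positivity)]
  simp only [sub_self, abs_zero, zero_add]
  gcongr

lemma stepC_G_int (hΦ : Wt3 c₀ C₀ Φ) (e x : ℝ) :
    MeasureTheory.Integrable (stepC_G c₀ C₀ Φ e x) :=
  (stepC_cont (stepC_G_lipy hΦ e x)).integrable_of_hasCompactSupport
    (stepC_cs fun y hy => (stepC_G_supp hΦ e x y hy).2.2)

/-- The radial weight. -/
noncomputable def stepC_psi (c₀ C₀ : ℝ) (Φ : ℝ → ℝ → ℝ → ℝ) (x : ℝ) : ℝ :=
  (∫ y, stepC_G c₀ C₀ Φ 0 x y) / max x c₀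

lemma stepC_psi_supp (hΦ : Wt3 c₀ C₀ Φ) (x : ℝ) (h : stepC_psi c₀ C₀ Φ x ≠ 0) :
    c₀ ≤ x ∧ x ≤ C₀ := by
  by_contra hn
  apply h
  have : ∀ y, stepC_G c₀ C₀ Φ 0 x y = 0 := by
    intro y
    by_contra hne
    have := stepC_G_supp hΦ _ _ _ hne
    exact hn ⟨this.1, this.2.1⟩
  simp [stepC_psi, this]

lemma stepC_wt (hΦ : Wt3 c₀ C₀ Φ) :
    ∃ C : ℝ, ∀ C₂, C ≤ C₂ → Wt c₀ C₂ (stepC_psi c₀ C₀ Φ) := by
  have hc := hΦ.pos
  have hC : 0 ≤ C₀ := hc.le.trans (stepC_cC hΦ)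
  have hI0 : ∀ x, 0 ≤ ∫ y, stepC_G c₀ C₀ Φ 0 x y := fun x =>
    MeasureTheory.integral_nonneg fun y => hΦ.nonneg _ _ _
  have hI1 : ∀ x, |∫ y, stepC_G c₀ C₀ Φ 0 x y| ≤ 1 * (2 * C₀ + 2) := fun x =>
    stepC_int_le hC (fun y => by
      unfold stepC_G
      rw [abs_of_nonneg (hΦ.nonneg _ _ _)]; exact hΦ.le _ _ _)
      (fun y hy => (stepC_G_supp hΦ _ _ _ hy).2.2)
  have hI2 : ∀ x x', |(∫ y, stepC_G c₀ C₀ Φ 0 x y) - ∫ y, stepC_G c₀ C₀ Φ 0 x' y| ≤
      C₀ * (1 + C₀ ^ 2 / c₀ ^ 2) * |x - x'| * (2 * C₀ + 2) := by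
    intro x x'
    rw [← MeasureTheory.integral_sub (stepC_G_int hΦ _ _) (stepC_G_int hΦ _ _)]
    refine stepC_int_le hC (fun y => stepC_G_lipx hΦ x x' y) fun y hy => ?_
    by_contra hn
    apply hy
    have h1 : ∀ x, stepC_G c₀ C₀ Φ 0 x y = 0 := fun x => by
      by_contra hne
      exact hn (stepC_G_supp hΦ _ _ _ hne).2.2
    simp [h1]
  set L : ℝ := C₀ * (1 + C₀ ^ 2 / c₀ ^ 2) * (2 * C₀ + 2) / c₀ + (2 * C₀ + 2) / c₀ ^ 2 with hL
  have hL0 : 0 ≤ L := by positivity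
  have hlip : ∀ x x', |stepC_psi c₀ C₀ Φ x - stepC_psi c₀ C₀ Φ x'| ≤ L * |x - x'| := by
    intro x x'
    have hm : c₀ ≤ max x c₀ := le_max_right _ _
    have hm' : c₀ ≤ max x' c₀ := le_max_right _ _
    have hp := hc.trans_le hm
    have hp' := hc.trans_le hm'
    unfold stepC_psi
    set I := ∫ y, stepC_G c₀ C₀ Φ 0 x y with hI
    set I' := ∫ y, stepC_G c₀ C₀ Φ 0 x' y with hI'
    have e1 : I / max x c₀ - I' / max x' c₀ =
        (I - I') / max x c₀ + I' / (max x c₀ * max x' c₀) * (max x' c₀ - max x c₀) := by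
      field_simp
      ring
    have h3 : |max x' c₀ - max x c₀| ≤ |x - x'| := by
      rw [abs_sub_comm]; exact abs_max_sub_max_le_abs _ _ _
    have h4 : c₀ ^ 2 ≤ max x c₀ * max x' c₀ := by rw [sq]; gcongr
    have h5 := hI2 x x'
    have h6 := hI1 x'
    rw [← hI, ← hI'] at h5
    rw [← hI', one_mul] at h6
    rw [e1]
    calc _ ≤ |(I - I') / max x c₀| + |I' / (max x c₀ * max x' c₀) * (max x' c₀ - max x c₀)| :=
          abs_add_le _ _
      _ = |I - I'| / max x c₀ + |I'| / (max x c₀ * max x' c₀) * |max x' c₀ - max x c₀| := by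
          rw [abs_mul, abs_div, abs_div, abs_of_pos hp, abs_of_pos (mul_pos hp hp')]
      _ ≤ C₀ * (1 + C₀ ^ 2 / c₀ ^ 2) * |x - x'| * (2 * C₀ + 2) / c₀ +
          (2 * C₀ + 2) / c₀ ^ 2 * |x - x'| := by gcongr
      _ = L * |x - x'| := by rw [hL]; ring
  have hnn : ∀ x, 0 ≤ stepC_psi c₀ C₀ Φ x := fun x =>
    div_nonneg (hI0 x) (hc.le.trans (le_max_right _ _))
  refine ⟨L + (2 * C₀ + 2) / c₀ + C₀, fun C₂ h₂ => ⟨hc, hnn, fun x => ?_, fun x y => ?_,
    fun x hx => ?_, ?_⟩⟩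
  · have hm : c₀ ≤ max x c₀ := le_max_right _ _
    have h6 := (le_abs_self _).trans (hI1 x)
    rw [one_mul] at h6
    have : stepC_psi c₀ C₀ Φ x ≤ (2 * C₀ + 2) / c₀ := by
      unfold stepC_psi
      gcongr
    linarith
  · refine (hlip x y).trans (mul_le_mul_of_nonneg_right ?_ (abs_nonneg _))
    have : 0 ≤ (2 * C₀ + 2) / c₀ := by positivity
    linarith
  · have h := stepC_psi_supp hΦ x hx
    have : 0 ≤ (2 * C₀ + 2) / c₀ := by positivity
    exact ⟨h.1, by linarith [h.2]⟩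
  · obtain ⟨x₀, y₀, h₀⟩ := hΦ.cone
    refine (stepC_cont hlip).integral_pos_of_hasCompactSupport_nonneg_nonzero (x := x₀)
      (stepC_cs (K := C₀) fun x hx => ?_) hnn ?_
    · have h := stepC_psi_supp hΦ x hx
      rw [abs_le]; constructor <;> linarith [h.1, h.2]
    · refine (div_pos ?_ (hc.trans_le (le_max_right _ _))).ne'
      refine (stepC_cont (stepC_G_lipy hΦ 0 x₀)).integral_pos_of_hasCompactSupport_nonneg_nonzero
        (x := y₀) (stepC_cs fun y hy => (stepC_G_supp hΦ 0 x₀ y hy).2.2)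
        (fun y => hΦ.nonneg _ _ _) ?_
      rw [stepC_G_eq hΦ, add_zero]
      exact h₀.ne'

end

lemma stepC_ent (g : SL) (t : ℤ) : (g * nT t) 0 0 = g 0 0 ∧ (g * nT t) 1 0 = g 1 0 ∧
    (g * nT t) 0 1 = g 0 0 * t + g 0 1 ∧ (g * nT t) 1 1 = g 1 0 * t + g 1 1 := by
  have h : ((nT t : SL) : Matrix (Fin 2) (Fin 2) ℤ) = !![1, t; 0, 1] := ModularGroup.coe_T_zpow t
  simp [Matrix.SpecialLinearGroup.coe_mul, Matrix.mul_apply, Fin.sum_univ_two, h]

lemma stepC_det (g : SL) : g 0 0 * g 1 1 - g 0 1 * g 1 0 = 1 := by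
  have := g.det_coe
  rwa [Matrix.det_fin_two] at this

lemma stepC_fib {g h : SL} (e : act h 1 0 = act g 1 0) : ∃ t : ℤ, h = g * nT t := by
  have e0 : h 0 0 = g 0 0 := by simpa [act] using congrArg Zsqrtd.re e
  have e1 : h 1 0 = g 1 0 := by simpa [act] using congrArg Zsqrtd.im e
  have dg := stepC_det g
  have dh := stepC_det h
  rw [e0, e1] at dh
  refine ⟨g 1 1 * h 0 1 - g 0 1 * h 1 1, ?_⟩
  obtain ⟨a1, a2, a3, a4⟩ := stepC_ent g (g 1 1 * h 0 1 - g 0 1 * h 1 1)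
  ext i j
  fin_cases i <;> fin_cases j
  · exact e0.trans a1.symm
  · refine Eq.trans ?_ a3.symm
    show h 0 1 = _
    linear_combination (-(h 0 1)) * dg + (g 0 1) * dh
  · exact e1.trans a2.symm
  · refine Eq.trans ?_ a4.symm
    show h 1 1 = _
    linear_combination (-(h 1 1)) * dg + (g 1 1) * dh

lemma stepC_act (g : SL) (t : ℤ) : act (g * nT t) 1 0 = act g 1 0 := by
  obtain ⟨a1, a2, -, -⟩ := stepC_ent g t
  simp only [act, a1, a2, mul_zero]

lemma stepC_inj (g : SL) : Function.Injective fun t : ℤ => g * nT t := by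
  intro s t h
  obtain ⟨-, -, a3, a4⟩ := stepC_ent g s
  obtain ⟨-, -, b3, b4⟩ := stepC_ent g t
  have h' : g * nT s = g * nT t := h
  rw [h'] at a3 a4
  have dg := stepC_det g
  linear_combination (-(s - t)) * dg + (g 1 1) * (b3 - a3) - (g 0 1) * (b4 - a4)

lemma stepC_qA (g : SL) : (nrm (act g 1 0) : ℝ) = qA g := by
  have : ((act g 1 0).norm.natAbs : ℤ) = (act g 1 0).norm :=
    Int.natAbs_of_nonneg (GaussianInt.norm_nonneg _)
  have h2 : (nrm (act g 1 0) : ℝ) = (((act g 1 0).norm : ℤ) : ℝ) := by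
    rw [← this]; simp [nrm]
  rw [h2, Zsqrtd.norm_def]
  simp [act, qA]
  ring

lemma stepC_qA_ge (g : SL) : 1 ≤ qA g := by
  have dg := stepC_det g
  have : (1 : ℤ) ≤ g 0 0 ^ 2 + g 1 0 ^ 2 := by
    by_contra hn
    have h0 : g 0 0 = 0 := by nlinarith [sq_nonneg (g 0 0), sq_nonneg (g 1 0)]
    have h1 : g 1 0 = 0 := by nlinarith [sq_nonneg (g 0 0), sq_nonneg (g 1 0)]
    rw [h0, h1] at dg
    simp at dg
  unfold qA
  exact_mod_cast this

lemma stepC_q (g : SL) (t : ℤ) : qA (g * nT t) = qA g ∧ qB (g * nT t) = qB g + t * qA g := by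
  obtain ⟨a1, a2, a3, a4⟩ := stepC_ent g t
  simp only [qA, qB, a1, a2, a3, a4]
  push_cast
  exact ⟨trivial, by ring⟩

lemma stepC_qC (g : SL) : qC g = (qB g ^ 2 + 1) / qA g := by
  have h := stepC_qA_ge g
  have dg : (g 0 0 : ℝ) * g 1 1 - g 0 1 * g 1 0 = 1 := by exact_mod_cast stepC_det g
  rw [eq_div_iff (by linarith)]
  unfold qA qB qC
  linear_combination ((g 0 0 : ℝ) * g 1 1 - g 0 1 * g 1 0 + 1) * dg

lemma stepC_line {c₀ C₀ : ℝ} {Φ : ℝ → ℝ → ℝ → ℝ} (hΦ : Wt3 c₀ C₀ Φ) :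
    ∃ C : ℝ, ∀ C₂, C ≤ C₂ → ∀ X n : ℝ, 1 ≤ X → 1 ≤ n → ∀ g : SL,
      |∑' t : ℤ, phiT Φ X n (g * nT t) - n * stepC_psi c₀ C₀ Φ (n * qA g / X)| ≤
        C₂ * ind (n * qA g ≤ C₂ * X) := by
  have hc := hΦ.pos
  have hC : 0 ≤ C₀ := hc.le.trans (stepC_cC hΦ)
  set L : ℝ := C₀ * (1 + 2 * C₀ / c₀) with hL
  have hL0 : 0 ≤ L := by positivity
  have hE0 : 0 ≤ C₀ / c₀ * (2 * C₀ + 2) := by positivity
  have hL1 : 0 ≤ L * (5 * C₀) := by positivity
  refine ⟨L * (5 * C₀) + C₀ / c₀ * (2 * C₀ + 2) + C₀, fun C₂ h₂ X n hX hn g => ?_⟩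
  have hA := stepC_qA_ge g
  have hX0 : 0 < X := by linarith
  have hn0 : 0 < n := by linarith
  have hA0 : 0 < qA g := by linarith
  set x := n * qA g / X with hx
  have hx0 : 0 < x := by positivity
  have e1 : ∀ t : ℤ, phiT Φ X n (g * nT t) =
      stepC_G c₀ C₀ Φ (1 / X ^ 2) x (qB g / X + t * (qA g / X)) := by
    intro t
    rw [stepC_G_eq hΦ]
    unfold phiT
    rw [stepC_qC, (stepC_q g t).1, (stepC_q g t).2]
    congr 1
    · ring
    · rw [hx]; field_simp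
  simp only [e1]
  by_cases hs : c₀ ≤ x ∧ x ≤ C₀
  · have hi : ind (n * qA g ≤ C₂ * X) = 1 := by
      unfold ind
      rw [if_pos]
      have := hs.2
      rw [hx, div_le_iff₀ hX0] at this
      refine this.trans ?_
      gcongr
      linarith
    rw [hi, mul_one]
    have hδ : 0 < qA g / X := by positivity
    have hδ1 : qA g / X ≤ C₀ := by
      refine le_trans ?_ hs.2
      rw [hx]
      gcongr
      nlinarith
    have h1 := stepC_riemann hL0 hC hδ (stepC_G_lipy hΦ (1 / X ^ 2) x)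
      (fun y hy => (stepC_G_supp hΦ _ _ _ hy).2.2) (qB g / X)
    have h2 : |(∫ y, stepC_G c₀ C₀ Φ (1 / X ^ 2) x y) - ∫ y, stepC_G c₀ C₀ Φ 0 x y| ≤
        C₀ * (1 / X ^ 2 / c₀) * (2 * C₀ + 2) := by
      rw [← MeasureTheory.integral_sub (stepC_G_int hΦ _ _) (stepC_G_int hΦ _ _)]
      refine stepC_int_le hC (fun y => stepC_G_lipe hΦ (by positivity) x y) fun y hy => ?_
      by_contra hn
      apply hy
      have h1 : ∀ e, stepC_G c₀ C₀ Φ e x y = 0 := fun e => by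
        by_contra hne
        exact hn (stepC_G_supp hΦ _ _ _ hne).2.2
      simp [h1]
    have e2 : n * stepC_psi c₀ C₀ Φ x = (∫ y, stepC_G c₀ C₀ Φ 0 x y) / (qA g / X) := by
      unfold stepC_psi
      rw [max_eq_left hs.1]
      generalize (∫ y, stepC_G c₀ C₀ Φ 0 x y) = I
      rw [hx]
      field_simp
    rw [e2]
    set I := ∫ y, stepC_G c₀ C₀ Φ (1 / X ^ 2) x y
    set I' := ∫ y, stepC_G c₀ C₀ Φ 0 x y
    have h3 : |I / (qA g / X) - I' / (qA g / X)| ≤ C₀ / c₀ * (2 * C₀ + 2) := by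
      rw [← sub_div, abs_div, abs_of_pos hδ, div_le_iff₀ hδ]
      refine h2.trans ?_
      have : 1 / X ^ 2 ≤ qA g / X := by
        rw [div_le_div_iff₀ (by positivity) hX0]
        nlinarith [mul_le_mul_of_nonneg_right hA (sq_nonneg X)]
      calc C₀ * (1 / X ^ 2 / c₀) * (2 * C₀ + 2) = C₀ / c₀ * (2 * C₀ + 2) * (1 / X ^ 2) := by ring
        _ ≤ _ := by gcongr
    have h4 : L * (2 * C₀ + 3 * (qA g / X)) ≤ L * (5 * C₀) := by gcongr; linarith
    have h5 := abs_sub_le (∑' t : ℤ, stepC_G c₀ C₀ Φ (1 / X ^ 2) x (qB g / X + t * (qA g / X)))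
      (I / (qA g / X)) (I' / (qA g / X))
    linarith
  · have h1 : ∀ y, stepC_G c₀ C₀ Φ (1 / X ^ 2) x y = 0 := by
      intro y
      by_contra hne
      have := stepC_G_supp hΦ _ _ _ hne
      exact hs ⟨this.1, this.2.1⟩
    have h2 : stepC_psi c₀ C₀ Φ x = 0 := by
      by_contra hne
      exact hs (stepC_psi_supp hΦ x hne)
    simp only [h1, h2, tsum_zero, mul_zero, sub_zero, abs_zero]
    refine mul_nonneg (by linarith) ?_
    unfold ind
    split_ifs <;> norm_num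

theorem stepC {c₀ C₀ : ℝ} {Φ : ℝ → ℝ → ℝ → ℝ} (hΦ : Wt3 c₀ C₀ Φ) :
    ∃ (C₂ : ℝ) (ψ : ℝ → ℝ), Wt c₀ C₂ ψ ∧ ∀ X n : ℝ, 1 ≤ X → 1 ≤ n → ∀ B : SL → ℝ,
      (∀ (h : SL) (t : ℤ), B (h * nT t) = B h) →
      ∃ b : GaussianInt → ℝ, (∀ h, b (act h 1 0) = B h) ∧ (∀ ν, b ν ≠ 0 → ∃ h, act h 1 0 = ν) ∧
        |∑' h : SL, phiT Φ X n h * B h - ∑' ν, n * ψ (n * nrm ν / X) * b ν| ≤
          C₂ * ∑' ν, ind (n * nrm ν ≤ C₂ * X) * |b ν| := by
  obtain ⟨C₁, h₁⟩ := stepC_wt hΦ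
  obtain ⟨C₁', h₁'⟩ := stepC_line hΦ
  have hW := h₁ (max C₁ C₁') (le_max_left _ _)
  have hl := h₁' (max C₁ C₁') (le_max_right _ _)
  set C₂ := max C₁ C₁'
  refine ⟨C₂, stepC_psi c₀ C₀ Φ, hW, fun X n hX hn B hB => ?_⟩
  have hX0 : 0 < X := by linarith
  have hn0 : 0 < n := by linarith
  set b : GaussianInt → ℝ := fun ν => if h : ∃ g, act g 1 0 = ν then B h.choose else 0 with hb
  have hb1 : ∀ h, b (act h 1 0) = B h := by
    intro h
    have hex : ∃ g, act g 1 0 = act h 1 0 := ⟨h, rfl⟩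
    simp only [hb, dif_pos hex]
    obtain ⟨t, ht⟩ := stepC_fib hex.choose_spec
    rw [ht, hB]
  have hb2 : ∀ ν, b ν ≠ 0 → ∃ h, act h 1 0 = ν := by
    intro ν hν
    by_contra hne
    exact hν (by simp only [hb, dif_neg hne])
  refine ⟨b, hb1, hb2, ?_⟩
  have hs : Summable fun h : SL => phiT Φ X n h * B h :=
    summable_of_hasFiniteSupport ((phiT_finite hΦ hX0 hn0).subset (Function.support_mul_subset_left _ _))
  have hT := hs.hasSum.tsum_fiberwise fun h : SL => act h 1 0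
  have hfin : ∀ F : GaussianInt → ℝ, (∀ ν, F ν ≠ 0 → n * nrm ν ≤ C₂ * X) → Summable F := by
    intro F hF
    refine summable_of_hasFiniteSupport ((finite_nrm (C₂ * X)).subset fun ν hν => ?_)
    have := hF ν hν
    have h0 : (0 : ℝ) ≤ nrm ν := Nat.cast_nonneg _
    show (nrm ν : ℝ) ≤ C₂ * X
    nlinarith
  have hU : Summable fun ν : GaussianInt => n * stepC_psi c₀ C₀ Φ (n * nrm ν / X) * b ν := by
    refine hfin _ fun ν hν => ?_
    have h1 : stepC_psi c₀ C₀ Φ (n * nrm ν / X) ≠ 0 := fun h => hν (by simp [h])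
    have := (hW.supp _ h1).2
    rwa [div_le_iff₀ hX0] at this
  have hV : Summable fun ν : GaussianInt => ind (n * nrm ν ≤ C₂ * X) * |b ν| := by
    refine hfin _ fun ν hν => ?_
    by_contra hne
    exact hν (by simp [ind, hne])
  rw [← hT.tsum_eq, ← hT.summable.tsum_sub hU, ← tsum_mul_left, ← Real.norm_eq_abs]
  refine tsum_of_norm_bounded (hV.mul_left C₂).hasSum fun ν => ?_
  rw [Real.norm_eq_abs]
  by_cases hν : ∃ g, act g 1 0 = ν
  · obtain ⟨g, rfl⟩ := hν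
    let e : ℤ ≃ ((fun h : SL => act h 1 0) ⁻¹' {act g 1 0} : Set SL) :=
      Equiv.ofBijective (fun t => ⟨g * nT t, stepC_act g t⟩)
        ⟨fun s t h => stepC_inj g (congrArg Subtype.val h), fun h => by
          obtain ⟨t, ht⟩ := stepC_fib (g := g) (h := h.1) h.2
          exact ⟨t, Subtype.ext ht.symm⟩⟩
    rw [← e.tsum_eq]
    have e2 : ∀ t : ℤ, phiT Φ X n (e t : SL) * B (e t : SL) = phiT Φ X n (g * nT t) * B g := by
      intro t
      show phiT Φ X n (g * nT t) * B (g * nT t) = _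
      rw [hB]
    simp only [e2]
    rw [tsum_mul_right, hb1, stepC_qA, ← sub_mul, abs_mul, ← mul_assoc]
    exact mul_le_mul_of_nonneg_right (hl X n hX hn g) (abs_nonneg _)
  · have h0 : b ν = 0 := by
      by_contra hne
      exact hν (hb2 ν hne)
    have : IsEmpty ((fun h : SL => act h 1 0) ⁻¹' {ν} : Set SL) := ⟨fun h => hν ⟨h.1, h.2⟩⟩
    simp [h0]

end Pool.Agent.P.MP_a1177c_nt.EK
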