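import Pool.Agent.P.MP_a1177c_nt.EK.Delta
import Pool.Agent.P.MP_a1177c_nt.EK.Lattice

set_option autoImplicit false

namespace Pool.Agent.P.MP_a1177c_nt.EK

open Finset Filter
open scoped Classical

theorem view_nrm_mul (a b : GaussianInt) : nrm (a * b) = nrm a * nrm b := by
  simp [nrm, Zsqrtd.norm_mul, Int.natAbs_mul]

theorem view_nrm_cast (z : GaussianInt) : (nrm z : ℤ) = z.re ^ 2 + z.im ^ 2 := by
  rw [nrm, Int.natAbs_of_nonneg (Zsqrtd.norm_nonneg (by norm_num) z), Zsqrtd.norm_def]; ring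

theorem view_nrm_pos {z : GaussianInt} (hz : z ≠ 0) : 0 < nrm z :=
  Int.natAbs_pos.2 fun h => hz ((Zsqrtd.norm_eq_zero_iff (by norm_num) z).1 h)

theorem view_ind_nonneg (p : Prop) : 0 ≤ ind p := by unfold ind; split_ifs <;> norm_num

theorem view_ind_le (p : Prop) : ind p ≤ 1 := by unfold ind; split_ifs <;> norm_num

theorem view_summable {c C : ℝ} {ψ : ℝ → ℝ} (hψ : Wt c C ψ) {y : ℝ} (hy : 0 < y)
    (f g : GaussianInt → ℝ) : Summable fun μ => f μ * ψ (nrm μ / y) * g μ := by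
  refine summable_of_hasFiniteSupport ((finite_nrm (C * y)).subset fun μ hμ => ?_)
  have h : ψ (nrm μ / y) ≠ 0 := fun h => hμ (by simp [h])
  exact (div_le_iff₀ hy).1 (hψ.supp _ h).2

theorem view_avT_shift {M : ℕ} {F : SL → ℝ} (hF : ∀ h, F (h * nT M) = F h) (h : SL) (s : ℤ) :
    avT M F (h * nT s) = avT M F h := by
  have key : ∀ h : SL, avT M F (h * nT 1) = avT M F h := by
    intro h
    unfold avT
    congr 1
    have e1 := Finset.sum_range_succ (fun t : ℕ => F (h * nT t)) M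
    have e2 := Finset.sum_range_succ' (fun t : ℕ => F (h * nT t)) M
    have e3 : F (h * nT ((0 : ℕ) : ℤ)) = F h := by simp [nT]
    have e4 : ∑ t ∈ range M, F (h * nT 1 * nT t) = ∑ t ∈ range M, F (h * nT ((t + 1 : ℕ) : ℤ)) :=
      Finset.sum_congr rfl fun t _ => by rw [mul_assoc, ← nT_add, add_comm]; simp
    rw [e4]
    simp only [e3, hF] at e1 e2
    linarith
  induction s using Int.induction_on with
  | zero => simp [nT]
  | succ i ih => rw [nT_add, ← mul_assoc, key, ih]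
  | pred i ih =>
    rw [← key, mul_assoc, ← nT_add, sub_add_cancel, ih]

theorem view_act_add (h : SL) (x b m : ℤ) :
    act h (x + m * b) b = act h x b + (m : GaussianInt) * act h b 0 := by
  ext <;> simp [act] <;> ring

theorem view_dvd_nrm (ϖ : GaussianInt) : ϖ ∣ (nrm ϖ : GaussianInt) := by
  refine ⟨star ϖ, ?_⟩
  rw [← Zsqrtd.norm_eq_mul_conj, nrm, ← Int.cast_natCast,
    Int.natAbs_of_nonneg (Zsqrtd.norm_nonneg (by norm_num) ϖ)]

theorem view_dvd_add {ϖ : GaussianInt} {M : ℕ} (hM : nrm ϖ ∣ M) (z w : GaussianInt) :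
    ϖ ∣ z + ((M : ℤ) : GaussianInt) * w ↔ ϖ ∣ z := by
  refine dvd_add_left (Dvd.dvd.mul_right ?_ w)
  rw [Int.cast_natCast]
  exact (view_dvd_nrm ϖ).trans (Nat.cast_dvd_cast hM)

theorem view_prime_dvd {p M : ℕ} (hM : p ∣ M) (z w : GaussianInt) :
    p ∣ nrm (z + ((M : ℤ) : GaussianInt) * w) ↔ p ∣ nrm z := by
  rw [← Int.natCast_dvd_natCast, ← Int.natCast_dvd_natCast (n := nrm z), view_nrm_cast,
    view_nrm_cast]
  obtain ⟨k, rfl⟩ := hM
  have : (z + ((p * k : ℕ) : ℤ) * w : GaussianInt).re ^ 2 +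
      (z + ((p * k : ℕ) : ℤ) * w : GaussianInt).im ^ 2 = z.re ^ 2 + z.im ^ 2 +
      p * (2 * k * (z.re * w.re + z.im * w.im) + p * k ^ 2 * (w.re ^ 2 + w.im ^ 2)) := by
    simp only [Zsqrtd.re_add, Zsqrtd.im_add, Zsqrtd.re_mul, Zsqrtd.im_mul, Zsqrtd.re_intCast,
      Zsqrtd.im_intCast]
    push_cast; ring
  rw [this]
  exact dvd_add_left (dvd_mul_right _ _)

theorem view_La_congr (P : Finset ℕ) (R : ℝ) (a : Fin 4) {n n' : ℕ}
    (h : ∀ p ∈ P, p ∣ n ↔ p ∣ n') : La P R a n = La P R a n' := by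
  unfold La Lam
  refine Finset.sum_congr rfl fun S hS => ?_
  congr 1
  refine Finset.prod_congr rfl fun p hp => ?_
  have := h p (mem_powerset.1 hS hp)
  by_cases hn : p ∣ n
  · rw [if_pos hn, if_pos (this.1 hn)]
  · rw [if_neg hn, if_neg fun h' => hn (this.2 h')]

theorem view_innr_per (d : Geo) {W₀ W M : ℕ} (hd : d.Ok W₀ W) (R : ℝ) {P : Finset ℕ}
    {Pi : Fin 3 → Finset GaussianInt} (χ : ℕ → ℝ) {ϖ : GaussianInt} (hW : W ∣ M)
    (hP : ∀ p ∈ P, p ∣ M) (hϖ : nrm ϖ ∣ M) (hPi : ∀ j, ∀ ϖ ∈ Pi j, nrm ϖ ∣ M) (h : SL) :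
    innr d W₀ R P Pi χ ϖ (h * nT M) = innr d W₀ R P Pi χ ϖ h := by
  have hl := (good_lev d hd (nrm ϖ)).mono hW h (nT M) (by
    simpa [nT] using CongruenceSubgroup.ModularGroup_T_pow_mem_Gamma M M dvd_rfl)
  have e0 : act (h * nT M) 1 0 = act h 1 0 := by rw [act_nT]; simp
  have e1 : ∀ x b, act (h * nT M) x b = act h x b + ((M : ℤ) : GaussianInt) * act h b 0 :=
    fun x b => by rw [act_nT, view_act_add]
  have hs : nrm (star ϖ) = nrm ϖ := by simp [nrm]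
  unfold innr
  rw [Finset.prod_mul_distrib, Finset.prod_mul_distrib]
  simp only [] at hl
  rw [hl, e0]
  have a1 : (star ϖ ∣ act (h * nT M) 0 1) ↔ (star ϖ ∣ act h 0 1) := by
    rw [e1]; exact view_dvd_add (hs ▸ hϖ) _ _
  have a2 : ∀ j, nu (Pi j) (act (h * nT M) (d.a j * nrm ϖ) (d.b j)) =
      nu (Pi j) (act h (d.a j * nrm ϖ) (d.b j)) := fun j => by
    unfold nu
    rw [Finset.filter_congr fun ϖ' h' => by rw [e1, view_dvd_add (hPi j ϖ' h')]]
  have a3 : ∀ j a, La P R a (nrm (act (h * nT M) (d.a j * nrm ϖ) (d.b j))) =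
      La P R a (nrm (act h (d.a j * nrm ϖ) (d.b j))) := fun j a =>
    view_La_congr P R a fun p hp => by rw [e1, view_prime_dvd (hP p hp)]
  simp only [a1, a2, wq, a3]

theorem view_innr_nonneg (d : Geo) (W₀ : ℕ) (R : ℝ) (P : Finset ℕ)
    (Pi : Fin 3 → Finset GaussianInt) {χ : ℕ → ℝ} (hχ : ∀ n, 0 ≤ χ n) (ϖ : GaussianInt) (h : SL) :
    0 ≤ innr d W₀ R P Pi χ ϖ h := by
  unfold innr wq
  refine mul_nonneg (mul_nonneg (mul_nonneg (mul_nonneg (view_ind_nonneg _) (view_ind_nonneg _))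
    (hχ _)) (Finset.prod_nonneg fun j _ => mul_nonneg (view_ind_nonneg _) ?_)) (sq_nonneg _)
  unfold nu; positivity

theorem view_good_of_ne (d : Geo) (W₀ M : ℕ) (R : ℝ) (P : Finset ℕ)
    (Pi : Fin 3 → Finset GaussianInt) (χ : ℕ → ℝ) (ϖ : GaussianInt) (h : SL)
    (hne : avT M (innr d W₀ R P Pi χ ϖ) h ≠ 0) : good d.G₀ W₀ (act h 1 0) := by
  by_contra hg
  refine hne ?_
  unfold avT
  rw [Finset.sum_eq_zero, zero_div]
  intro t _
  have e0 : act (h * nT t) 1 0 = act h 1 0 := by rw [act_nT]; simp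
  unfold innr
  rw [e0]
  simp [ind, hg]

theorem view_exists_col {ν : GaussianInt} (h : IsCoprime ν.re ν.im) : ∃ g : SL, act g 1 0 = ν := by
  obtain ⟨u, v, huv⟩ := h
  refine ⟨⟨!![ν.re, -v; ν.im, u], by rw [Matrix.det_fin_two_of]; linarith⟩, ?_⟩
  ext <;> simp [act]

theorem view_col_prim (g : SL) : IsCoprime (act g 1 0).re (act g 1 0).im := by
  have := g.det_coe
  rw [Matrix.det_fin_two] at this
  exact ⟨g 1 1, -g 0 1, by simp [act]; linarith⟩

theorem view_prim_iff (ν : GaussianInt) :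
    IsCoprime ν.re ν.im ↔ ∀ r : ℕ, r.Prime → ¬ (r : GaussianInt) ∣ ν := by
  have key : ∀ r : ℕ, (r : GaussianInt) ∣ ν ↔ (r : ℤ) ∣ ν.re ∧ (r : ℤ) ∣ ν.im := fun r => by
    rw [← Zsqrtd.intCast_dvd, Int.cast_natCast]
  rw [Int.isCoprime_iff_gcd_eq_one]
  constructor
  · intro h r hr hd
    obtain ⟨h1, h2⟩ := (key r).1 hd
    have := Int.dvd_gcd h1 h2
    rw [h] at this
    exact hr.one_lt.ne' (Nat.dvd_one.1 (by exact_mod_cast this))
  · intro h
    by_contra hne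
    obtain ⟨r, hr, hd⟩ := Nat.exists_prime_and_dvd hne
    have hd' : (r : ℤ) ∣ (Int.gcd ν.re ν.im : ℤ) := by exact_mod_cast hd
    exact h r hr ((key r).2 ⟨hd'.trans (Int.gcd_dvd_left ..), hd'.trans (Int.gcd_dvd_right ..)⟩)

theorem view_dvd_of_cop {r : ℕ} {a b : GaussianInt} (hc : r.Coprime (nrm b))
    (h : (r : GaussianInt) ∣ a * b) : (r : GaussianInt) ∣ a := by
  have h1 : IsCoprime (r : GaussianInt) (nrm b : GaussianInt) := Nat.Coprime.cast hc
  exact (h1.of_isCoprime_of_dvd_right (view_dvd_nrm b)).dvd_of_dvd_mul_right h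

theorem view_prim_mul {a b : GaussianInt} (ha : IsCoprime a.re a.im) (hb : IsCoprime b.re b.im)
    (hc : (nrm a).Coprime (nrm b)) : IsCoprime (a * b).re (a * b).im := by
  rw [view_prim_iff] at ha hb ⊢
  intro r hr hd
  by_cases h : r ∣ nrm b
  · have : r.Coprime (nrm a) := (Nat.Coprime.coprime_dvd_right h hc).symm
    exact hb r hr (view_dvd_of_cop this (mul_comm a b ▸ hd))
  · exact ha r hr (view_dvd_of_cop ((Nat.Prime.coprime_iff_not_dvd hr).2 h) hd)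

theorem view_prim_of_sqfree {μ : GaussianInt} (h : Squarefree (nrm μ)) : IsCoprime μ.re μ.im := by
  rw [view_prim_iff]
  rintro r hr ⟨w, hw⟩
  have : nrm μ = r * r * nrm w := by
    rw [hw, view_nrm_mul]; simp [nrm, Int.natAbs_mul]
  exact hr.one_lt.ne' (Nat.isUnit_iff.1 (h r ⟨_, this⟩))

theorem view_E3_sqfree {R : ℝ} {n : ℕ} (h : E3 R n) : Squarefree n := by
  obtain ⟨p₁, p₂, p₃, h₁, h₂, h₃, -, -, -, -, l₁, l₂, -, rfl⟩ := h
  rw [Nat.squarefree_mul_iff, Nat.squarefree_mul_iff]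
  refine ⟨Nat.Coprime.mul_left ?_ ?_, ⟨?_, h₁.prime.squarefree, h₂.prime.squarefree⟩,
    h₃.prime.squarefree⟩ <;> exact (Nat.coprime_primes (by assumption) (by assumption)).2 (by omega)

theorem view_E3_cop {R : ℝ} {n m : ℕ} (h : E3 R n) (hm0 : 0 < m)
    (hm : (m : ℝ) ≤ R ^ (1 / 72 : ℝ)) : n.Coprime m := by
  obtain ⟨p₁, p₂, p₃, h₁, h₂, h₃, -, -, -, l₀, l₁, l₂, -, rfl⟩ := h
  have : m < p₁ := by exact_mod_cast hm.trans_lt l₀
  refine Nat.Coprime.mul_left (Nat.Coprime.mul_left ?_ ?_) ?_ <;>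
    exact (Nat.Prime.coprime_iff_not_dvd (by assumption)).2 (Nat.not_dvd_of_pos_of_lt hm0 (by omega))

end Pool.Agent.P.MP_a1177c_nt.EK
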