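import Pool.Agent.P.MP_a1177c_nt.EK.StepB
import Pool.Agent.P.MP_a1177c_nt.EK.StepC
import Pool.Agent.P.MP_a1177c_nt.EK.Bracket
import Pool.Agent.P.MP_a1177c_nt.EK.Outer
import Pool.Agent.P.MP_a1177c_nt.EK.Crude
import Pool.Agent.P.MP_a1177c_nt.EK.ViewAux

set_option autoImplicit false

namespace Pool.Agent.P.MP_a1177c_nt.EK

open Finset Filter
open scoped Classical

theorem view_fam_nrm {W q : ℕ} {N : ℝ} {Pi : Finset GaussianInt} (h : Fam W q N Pi) (hq : 0 < q)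
    {ϖ : GaussianInt} (hϖ : ϖ ∈ Pi) :
    N < nrm ϖ ∧ (nrm ϖ : ℝ) ≤ 2 * q * N ∧ nrm ϖ ≡ q [MOD W] := by
  obtain ⟨p, -, h1, h2, h3, h4⟩ := h.mem ϖ hϖ
  have hq' : (1 : ℝ) ≤ q := by exact_mod_cast hq
  rw [h4]
  refine ⟨?_, ?_, by simpa using h3.mul_left q⟩ <;> push_cast <;> nlinarith

theorem view_sI {W q : ℕ} {N X : ℝ} {Pi : Finset GaussianInt} (h : Fam W q N Pi) (hq : 0 < q)
    (hW : 0 < W) (hN : 1 < N) (hX : N ≤ X)
    (hc : N / (2 * W.totient * Real.log N) ≤ #Pi ∧ (#Pi : ℝ) ≤ 2 * N) :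
    1 / (4 * q * W.totient * Real.log X) ≤ sI Pi ∧ sI Pi ≤ 2 := by
  have hq' : (0 : ℝ) < q := by exact_mod_cast hq
  have hφ : (0 : ℝ) < W.totient := by exact_mod_cast Nat.totient_pos.2 hW
  have hl : 0 < Real.log N := Real.log_pos hN
  have hl' : Real.log N ≤ Real.log X := Real.log_le_log (by linarith) hX
  constructor
  · have h1 : ∑ _ϖ ∈ Pi, 1 / (2 * q * N) ≤ sI Pi := Finset.sum_le_sum fun ϖ hϖ => by
      obtain ⟨a, b, -⟩ := view_fam_nrm h hq hϖ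
      exact one_div_le_one_div_of_le (by linarith) b
    rw [Finset.sum_const, nsmul_eq_mul] at h1
    refine le_trans ?_ h1
    calc 1 / (4 * q * W.totient * Real.log X) ≤ 1 / (4 * q * W.totient * Real.log N) := by gcongr
      _ = N / (2 * W.totient * Real.log N) * (1 / (2 * q * N)) := by field_simp; ring
      _ ≤ _ := by gcongr; exact hc.1
  · have h1 : sI Pi ≤ ∑ _ϖ ∈ Pi, 1 / N := Finset.sum_le_sum fun ϖ hϖ =>
      one_div_le_one_div_of_le (by linarith) (view_fam_nrm h hq hϖ).1.le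
    rw [Finset.sum_const, nsmul_eq_mul] at h1
    refine h1.trans ?_
    rw [mul_one_div, div_le_iff₀ (by linarith)]
    exact hc.2

theorem view_core (d : Geo) {W₀ W q₀ M : ℕ} {q : Fin 3 → ℕ} {ε η X c₀ C₀ C₂ E : ℝ} {P : Finset ℕ}
    {Pi₀ : Finset GaussianInt} {Pi : Fin 3 → Finset GaussianInt} {Φ : ℝ → ℝ → ℝ → ℝ} {ψ : ℝ → ℝ}
    (hd : d.Ok W₀ W) (hX : 1 ≤ X) (hF : Fams W q₀ q ε η X P Pi₀ Pi) (hΦ : Wt3 c₀ C₀ Φ)
    (hC : ∀ n : ℝ, 1 ≤ n → ∀ B : SL → ℝ, (∀ (h : SL) (t : ℤ), B (h * nT t) = B h) →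
      ∃ b : GaussianInt → ℝ, (∀ h, b (act h 1 0) = B h) ∧ (∀ ν, b ν ≠ 0 → ∃ h, act h 1 0 = ν) ∧
        |∑' h : SL, phiT Φ X n h * B h - ∑' ν, n * ψ (n * nrm ν / X) * b ν| ≤
          C₂ * ∑' ν, ind (n * nrm ν ≤ C₂ * X) * |b ν|)
    (h1 : ∀ ϖ ∈ Pi₀, (1 : ℝ) ≤ nrm ϖ) (hW : W ∣ M) (hP : ∀ p ∈ P, p ∣ M)
    (hM₀ : ∀ ϖ ∈ Pi₀, nrm ϖ ∣ M) (hM : ∀ j, ∀ ϖ ∈ Pi j, nrm ϖ ∣ M) (χ : ℕ → ℝ)
    (hB : |∑ ϖ ∈ Pi₀, ∑' h : SL, phiT Φ X (nrm ϖ) h *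
        (innr d W₀ (Rx X) P Pi χ ϖ h - avT M (innr d W₀ (Rx X) P Pi χ ϖ) h)| ≤ E) :
    ∃ b : GaussianInt → GaussianInt → ℝ,
      (∀ ϖ ∈ Pi₀, (∀ h, b ϖ (act h 1 0) = avT M (innr d W₀ (Rx X) P Pi χ ϖ) h) ∧
        ∀ ν, b ϖ ν ≠ 0 → ∃ h, act h 1 0 = ν) ∧
      |Sview d W₀ Φ X P Pi₀ Pi χ -
          ∑ ϖ ∈ Pi₀, ∑' ν, nrm ϖ * ψ (nrm ϖ * nrm ν / X) * b ϖ ν| ≤
        E + ∑ ϖ ∈ Pi₀, C₂ * ∑' ν, ind ((nrm ϖ : ℝ) * nrm ν ≤ C₂ * X) * |b ϖ ν| := by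
  have key := fun ϖ (hϖ : ϖ ∈ Pi₀) => hC (nrm ϖ) (h1 ϖ hϖ) (avT M (innr d W₀ (Rx X) P Pi χ ϖ))
    (view_avT_shift (view_innr_per d hd (Rx X) χ hW hP (hM₀ ϖ hϖ) hM))
  choose! b hb1 hb2 hb3 using key
  refine ⟨b, fun ϖ hϖ => ⟨hb1 ϖ hϖ, hb2 ϖ hϖ⟩, ?_⟩
  have hs : ∀ ϖ ∈ Pi₀, ∀ f : SL → ℝ, Summable fun h => phiT Φ X (nrm ϖ) h * f h :=
    fun ϖ hϖ f => summable_of_hasFiniteSupport
      ((phiT_finite hΦ (by linarith) (by linarith [h1 ϖ hϖ])).subset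
        (Function.support_mul_subset_left _ _))
  have e : ∀ ϖ ∈ Pi₀, ∑' h : SL, phiT Φ X (nrm ϖ) h * innr d W₀ (Rx X) P Pi χ ϖ h =
      ∑' h : SL, phiT Φ X (nrm ϖ) h *
        (innr d W₀ (Rx X) P Pi χ ϖ h - avT M (innr d W₀ (Rx X) P Pi χ ϖ) h) +
      ∑' h : SL, phiT Φ X (nrm ϖ) h * avT M (innr d W₀ (Rx X) P Pi χ ϖ) h := fun ϖ hϖ => by
    rw [← (hs ϖ hϖ _).tsum_add (hs ϖ hϖ _)]
    exact tsum_congr fun h => by ring
  rw [stepA d hd hX hF hΦ, Finset.sum_congr rfl e, Finset.sum_add_distrib, add_sub_assoc,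
    ← Finset.sum_sub_distrib]
  refine (abs_add_le _ _).trans (add_le_add hB ?_)
  exact (Finset.abs_sum_le_sum_abs _ _).trans (Finset.sum_le_sum hb3)

theorem view_reindex {G : GaussianInt} (hG : G ≠ 0) {f : GaussianInt → ℝ}
    (hf : ∀ ν, f ν ≠ 0 → ∃ μ, ν = G * μ) : ∑' ν, f ν = ∑' μ, f (G * μ) :=
  ((mul_right_injective₀ hG).tsum_eq fun ν hν => by
    obtain ⟨μ, rfl⟩ := hf ν hν
    exact ⟨μ, rfl⟩).symm

theorem view_err {n X C K : ℝ} (hn : 0 < n) (hK : 0 ≤ K) (h1 : 1 ≤ (C + 1) * X / n)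
    (hX : 0 ≤ X) {b : GaussianInt → ℝ} (hb : ∀ ν, n * nrm ν ≤ C * X → n * |b ν| ≤ K) :
    ∑' ν, ind (n * nrm ν ≤ C * X) * |b ν| ≤ 9 * ((C + 1) * X / n) * (K / n) := by
  have hfin := finite_nrm ((C + 1) * X / n)
  rw [tsum_eq_sum (s := hfin.toFinset)]
  · have h2 := ncard_nrm_le h1
    rw [Set.ncard_eq_toFinset_card _ hfin] at h2
    calc _ ≤ ∑ _ν ∈ hfin.toFinset, K / n := Finset.sum_le_sum fun ν _ => by
            unfold ind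
            split_ifs with h
            · rw [one_mul, le_div_iff₀' hn]; exact hb ν h
            · rw [zero_mul]; positivity
      _ ≤ _ := by
        rw [Finset.sum_const, nsmul_eq_mul]
        exact mul_le_mul_of_nonneg_right h2 (by positivity)
  · intro ν hν
    rw [Set.Finite.mem_toFinset, Set.mem_ofPred_eq, not_le, div_lt_iff₀ hn] at hν
    rw [ind, if_neg (by nlinarith), zero_mul]

theorem view_hS_nonneg (S : Finset ℕ) : 0 ≤ hS S := Finset.prod_nonneg fun _ _ => by positivity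

theorem view_nonneg (P : Finset ℕ) (R : ℝ) {C : ℝ} (hC : 0 ≤ C) (m c : Fin 3 → ℤ) (G n k : ℕ) :
    0 ≤ Qf P R k + errW P R C m c G n k := by
  refine add_nonneg (Finset.sum_nonneg fun α _ => mul_nonneg (Finset.prod_nonneg fun j _ =>
    Finset.sum_nonneg fun S _ => mul_nonneg (view_ind_nonneg _) (view_hS_nonneg S)) (sq_nonneg _))
    (mul_nonneg (mul_nonneg (mul_nonneg hC (sub_nonneg.2 ?_))
      (Finset.sum_nonneg fun _ _ => sq_nonneg _))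
      (pow_nonneg (Finset.sum_nonneg fun S _ => view_hS_nonneg S) _))
  refine Finset.one_le_prod fun p _ => le_add_of_nonneg_right ?_
  split_ifs <;> positivity

theorem view_small (c ε C : ℝ) (hc : 0 < c) (hε : 0 < ε) :
    ∀ᶠ X : ℝ in atTop, X ^ (1 - ε / 30) + C * X ^ (1 - ε / 2) ≤ c * X := by
  have h1 := (tendsto_rpow_neg_atTop (y := ε / 30) (by positivity)).eventually_le_const
    (show (0 : ℝ) < c / (1 + |C|) by positivity)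
  filter_upwards [h1, eventually_ge_atTop (1 : ℝ)] with X h hX
  have e1 : X ^ (1 - ε / 30) = X * X ^ (-(ε / 30)) := by
    rw [sub_eq_add_neg, Real.rpow_add (by linarith), Real.rpow_one]
  have e2 : X ^ (1 - ε / 2) ≤ X ^ (1 - ε / 30) :=
    Real.rpow_le_rpow_of_exponent_le hX (by linarith)
  have e3 : C * X ^ (1 - ε / 2) ≤ |C| * X ^ (1 - ε / 30) :=
    mul_le_mul (le_abs_self C) e2 (by positivity) (abs_nonneg C)
  rw [le_div_iff₀ (by positivity)] at h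
  rw [e1] at e3 ⊢
  nlinarith

theorem view (d : Geo) {c₀ C₀ : ℝ} {Φ : ℝ → ℝ → ℝ → ℝ} (hΦ : Wt3 c₀ C₀ Φ) :
    ∃ (D : ℕ) (η₁ ε₀ : ℝ), 0 < η₁ ∧ 0 < ε₀ ∧ ∀ (W₀ W q₀ : ℕ) (q : Fin 3 → ℕ), d.Ok W₀ W →
    0 < q₀ → (∀ j, 0 < q j) → (∀ p : ℕ, p.Prime → p ≤ D → p ∣ W₀) → ∀ ε : ℝ, 0 < ε → ε ≤ ε₀ →
    ∃ c : ℝ, 0 < c ∧ ∀ᶠ X : ℝ in atTop, ∀ (η : ℝ) (P : Finset ℕ) (Pi₀ : Finset GaussianInt)
      (Pi : Fin 3 → Finset GaussianInt), η ≤ η₁ → Fams W q₀ q ε η X P Pi₀ Pi →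
      ∃ 𝓜 : ℝ, c * X ≤ 𝓜 ∧ Sview d W₀ Φ X P Pi₀ Pi 1 ≤ 1.005 * 𝓜 ∧
        0.253 * 𝓜 ≤ Sview d W₀ Φ X P Pi₀ Pi (chiE (nrm d.G₀) (Rx X)) := by
  obtain ⟨C₂, ψ, hψ, hC⟩ := stepC hΦ
  obtain ⟨C₁, hC₁, hbr⟩ := bracket
  obtain ⟨D, η₁, hη₁, hout⟩ := outer hψ C₁ hC₁
  obtain ⟨εB, hεB, hB⟩ := stepB
  refine ⟨D, η₁, min εB (1 / 2000), hη₁, lt_min hεB (by norm_num), ?_⟩
  intro W₀ W q₀ q hd hq₀ hq hD ε hε hε'
  have hε1 : ε ≤ 1 / 2000 := hε'.trans (min_le_right _ _)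
  have hW := hd.W_pos
  have hW₀ : W₀ ∣ W := (dvd_mul_right _ _).trans (hd.dvd 0)
  have hG : 0 < nrm d.G₀ := view_nrm_pos hd.G₀_ne
  have hc0 : ∀ k, d.c k ≠ 0 := fun k =>
    mul_ne_zero (mul_ne_zero two_ne_zero (hd.b_ne _)) (hd.b_ne _)
  have hC₂ : 0 ≤ C₂ := (hψ.nonneg 0).trans (hψ.le 0)
  obtain ⟨c₁, hc₁, hev⟩ := hout d.m d.c (nrm d.G₀) W q₀ hc0 hG hW hd.four hq₀
    (fun p hp h => (hD p hp h).trans hW₀)
    (fun p hp k h => by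
      have hp' := Nat.prime_iff_prime_int.1 hp
      rcases hp'.dvd_or_dvd h with h | h
      · rcases hp'.dvd_or_dvd h with h | h
        · exact (Int.natCast_dvd_natCast.1 h).trans ((by norm_num : 2 ∣ 4).trans hd.four)
        · exact (hd.bad_b p hp _ h).trans hW₀
      · exact (hd.bad_b p hp _ h).trans hW₀)
    (fun p hp h => (hd.bad_G p hp h).trans hW₀) ε hε hε1
  have hφ : (0 : ℝ) < W.totient := by exact_mod_cast Nat.totient_pos.2 hW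
  have hq' : ∀ j, (0 : ℝ) < q j := fun j => by exact_mod_cast hq j
  set c := c₁ * ∏ j, 1 / (4 * (q j : ℝ) * W.totient) with hc
  have hcpos : 0 < c := mul_pos hc₁ (Finset.prod_pos fun j _ => by have := hq' j; positivity)
  refine ⟨c, hcpos, ?_⟩
  obtain ⟨N₀, hN₀⟩ := eventually_atTop.1 (fam_card hW)
  have htend := tendsto_rpow_atTop hε
  have hgap : ∀ K : ℝ, ∀ᶠ X : ℝ in atTop, K * X ^ ε ≤ Rx X ^ (1 / 72 : ℝ) := fun K => by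
    filter_upwards [(tendsto_rpow_atTop (y := 1 / 1000) (by norm_num)).eventually_ge_atTop K,
      eventually_ge_atTop (1 : ℝ)] with X h hX
    rw [Rx, ← Real.rpow_mul (by linarith)]
    calc K * X ^ ε ≤ X ^ (1 / 1000 : ℝ) * X ^ ε := by gcongr
      _ = X ^ (1 / 1000 + ε) := (Real.rpow_add (by linarith) _ _).symm
      _ ≤ _ := Real.rpow_le_rpow_of_exponent_le hX (by linarith)
  filter_upwards [hev, hB ε hε (hε'.trans (min_le_left _ _)) d W₀ W q₀ q c₀ C₀ η₁ Φ hd hΦ,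
    crude C₁ (ε / 2) hC₁ (by positivity) d.m d.c hc0 _ hG, htend.eventually_ge_atTop N₀,
    htend.eventually_ge_atTop (C₂ + 2), hgap (16 * q₀), eventually_all.2 fun j => hgap (16 * q j),
    hgap 8, view_small (0.001 * c) ε (144 * C₂ * (C₂ + 1)) (by positivity) hε,
    eventually_gt_atTop (1 : ℝ)] with X hout hB hcr hXN hXC hg₀ hg hg8 hsm hX
  intro η P Pi₀ Pi hη hF'
  have hF : Fams W q₀ q ε η₁ X P Pi₀ Pi :=
    { hF' with good := hF'.good.imp fun Ex h => ⟨h.1.trans hη, h.2⟩ }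
  clear hF'
  have hR1 : 1 ≤ Rx X := Real.one_le_rpow hX.le (by norm_num)
  have hRX : Rx X ≤ X := Real.rpow_le_self_of_one_le hX.le (by norm_num)
  have hR72 : Rx X ^ (1 / 72 : ℝ) ≤ X := (Real.rpow_le_self_of_one_le hR1 (by norm_num)).trans hRX
  have hPp : ∀ p ∈ P, p.Prime := by
    obtain ⟨Ex, -, -, h⟩ := hF.good
    exact fun p hp => ((h p).1 hp).1
  obtain ⟨N, hN1, hN2, hfam⟩ := hF.fam₀
  have hcard := hN₀ N (hXN.trans hN1) q₀ hq₀ Pi₀ hfam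
  have hn := fun ϖ (hϖ : ϖ ∈ Pi₀) => view_fam_nrm hfam hq₀ hϖ
  have hnR : ∀ ϖ ∈ Pi₀, (nrm ϖ : ℝ) ≤ Rx X ^ (1 / 72 : ℝ) := fun ϖ hϖ =>
    (hn ϖ hϖ).2.1.trans (le_trans (by nlinarith [(Nat.cast_nonneg q₀ : (0 : ℝ) ≤ q₀)]) hg₀)
  have hsI : ∀ j, (1 / (4 * q j * W.totient * Real.log X) ≤ sI (Pi j) ∧ sI (Pi j) ≤ 2) ∧
      ∀ ϖ ∈ Pi j, 0 < nrm ϖ ∧ (nrm ϖ : ℝ) ≤ Rx X ^ (1 / 72 : ℝ) := fun j => by
    obtain ⟨N', h1, h2, h3⟩ := hF.fam j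
    refine ⟨view_sI h3 (hq j) hW (by linarith) (by linarith)
      (hN₀ N' (hXN.trans h1) _ (hq j) _ h3), fun ϖ hϖ => ?_⟩
    obtain ⟨a, b, -⟩ := view_fam_nrm h3 (hq j) hϖ
    exact ⟨by exact_mod_cast (show (0 : ℝ) < nrm ϖ by linarith),
      b.trans (le_trans (by nlinarith [hq' j]) (hg j))⟩
  have hlog : 0 < Real.log X := Real.log_pos hX
  set S := ∏ j, sI (Pi j) with hS
  have hS0 : ∀ j, 0 ≤ sI (Pi j) := fun j => le_trans (by have := hq' j; positivity) (hsI j).1.1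
  have hSn : 0 ≤ S := Finset.prod_nonneg fun j _ => hS0 j
  have hS8 : S ≤ 8 := by
    have := Finset.prod_le_prod (s := univ) (fun j _ => hS0 j) fun j _ => (hsI j).1.2
    simpa using this.trans_eq (by norm_num)
  have hSl : c * X ≤ S * (c₁ * X * Real.log X ^ 3) := by
    have := Finset.prod_le_prod (s := univ) (fun j _ => by have := hq' j; positivity)
      fun j _ => (hsI j).1.1
    refine le_trans (le_of_eq ?_) (mul_le_mul_of_nonneg_right this (by positivity))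
    have := hq' 0; have := hq' 1; have := hq' 2
    rw [hc, Fin.prod_univ_three, Fin.prod_univ_three]
    field_simp
  obtain ⟨ϖ₀, hϖ₀⟩ : Pi₀.Nonempty := by
    rw [← Finset.card_pos]
    have : 0 < Real.log N := Real.log_pos (by linarith)
    have : (0 : ℝ) < #Pi₀ := lt_of_lt_of_le (div_pos (by linarith) (by positivity)) hcard.1
    exact_mod_cast this
  obtain ⟨δ, hδ, hδ1, hδ2⟩ := delta d hd q₀ ϖ₀ (hn ϖ₀ hϖ₀).2.2 (by
    obtain ⟨p, -, -, -, -, h⟩ := hfam.mem ϖ₀ hϖ₀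
    exact Nat.Coprime.coprime_dvd_left ⟨p, h⟩ (hF.copW₀ ϖ₀ hϖ₀))
  obtain ⟨o1, o2, o3⟩ := hout P hF.good N Pi₀ hN1 hN2 hfam δ hδ hδ1
  set Mo := ∑ ϖ ∈ Pi₀, Q0 W (Rx X) * SQ ψ (X / (nrm ϖ * nrm d.G₀)) δ 1 with hMo
  set M := W * (∏ p ∈ P, p) * (∏ ϖ ∈ Pi₀, nrm ϖ) * ∏ j, ∏ ϖ ∈ Pi j, nrm ϖ with hM
  have hn1 : ∀ ϖ ∈ Pi₀, (1 : ℝ) ≤ nrm ϖ := fun ϖ hϖ => by linarith [(hn ϖ hϖ).1]
  have hM0 : 0 < M := by
    refine Nat.mul_pos (Nat.mul_pos (Nat.mul_pos hW (Finset.prod_pos fun p hp => (hPp p hp).pos))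
      (Finset.prod_pos fun ϖ hϖ => ?_))
      (Finset.prod_pos fun j _ => Finset.prod_pos fun ϖ hϖ => ((hsI j).2 ϖ hϖ).1)
    exact_mod_cast hn1 ϖ hϖ
  have hMW : W ∣ M := ((dvd_mul_right _ _).mul_right _).mul_right _
  have hMP' : (∏ p ∈ P, p) ∣ M := ((dvd_mul_left _ _).mul_right _).mul_right _
  have hMP : ∀ p ∈ P, p ∣ M := fun p hp => (Finset.dvd_prod_of_mem _ hp).trans hMP'
  have hM₀ : ∀ ϖ ∈ Pi₀, nrm ϖ ∣ M := fun ϖ hϖ =>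
    ((Finset.dvd_prod_of_mem _ hϖ).mul_left _).mul_right _
  have hMj : ∀ j, ∀ ϖ ∈ Pi j, nrm ϖ ∣ M := fun j ϖ hϖ =>
    ((Finset.dvd_prod_of_mem _ hϖ).trans (Finset.dvd_prod_of_mem
      (fun j => ∏ ϖ ∈ Pi j, nrm ϖ) (mem_univ j))).mul_left _
  have hG' : (0 : ℝ) < nrm d.G₀ := by exact_mod_cast hG
  have hy : ∀ ϖ ∈ Pi₀, 0 < X / (nrm ϖ * nrm d.G₀ : ℝ) := fun ϖ hϖ => by
    have := hn1 ϖ hϖ; positivity
  have harg : ∀ ϖ ∈ Pi₀, ∀ μ, (nrm ϖ : ℝ) * nrm (d.G₀ * μ) / X =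
      nrm μ / (X / (nrm ϖ * nrm d.G₀)) := fun ϖ hϖ μ => by
    have := hn1 ϖ hϖ
    rw [view_nrm_mul]; push_cast; field_simp
  have hW2 : ∀ μ, (nrm μ).Coprime W₀ → nrm μ ≠ 0 := fun μ h h0 => by
    rw [h0, Nat.coprime_zero_left] at h
    have := hd.rad 2 Nat.prime_two ((by norm_num : 2 ∣ 4).trans hd.four)
    omega
  have main : ∀ χ : ℕ → ℝ, (∀ n, 0 ≤ χ n) → (∀ n, χ n ≤ 1) →
      ∃ b : GaussianInt → GaussianInt → ℝ,
        (∀ ϖ ∈ Pi₀, ∀ h, b ϖ (act h 1 0) = avT M (innr d W₀ (Rx X) P Pi χ ϖ) h) ∧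
        (∀ ϖ ∈ Pi₀, ∀ ν, 0 ≤ b ϖ ν) ∧
        (∀ ϖ ∈ Pi₀, ∀ μ, b ϖ (d.G₀ * μ) ≠ 0 → nrm ϖ * b ϖ (d.G₀ * μ) ≤ δ (nrm μ) * S *
          (Qf P (Rx X) (nrm μ) + errW P (Rx X) C₁ d.m d.c (nrm d.G₀) (nrm ϖ) (nrm μ))) ∧
        |Sview d W₀ Φ X P Pi₀ Pi χ - ∑ ϖ ∈ Pi₀, ∑' μ,
          nrm ϖ * ψ (nrm μ / (X / (nrm ϖ * nrm d.G₀))) * b ϖ (d.G₀ * μ)| ≤ 0.001 * c * X := by
    intro χ hχ0 hχ1
    obtain ⟨b, hb, hb3⟩ := view_core d hd hX.le hF hΦ (fun n => hC X n hX.le) hn1 hMW hMP hM₀ hMj χ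
      (hB P Pi₀ Pi hF χ (fun n => abs_le.2 ⟨by linarith [hχ0 n], hχ1 n⟩) M hM0 hMW hMP' hM₀ hMj)
    have hb0 : ∀ ϖ ∈ Pi₀, ∀ ν, 0 ≤ b ϖ ν := fun ϖ hϖ ν => by
      by_cases h0 : b ϖ ν = 0
      · exact h0.ge
      · obtain ⟨h, rfl⟩ := (hb ϖ hϖ).2 ν h0
        rw [(hb ϖ hϖ).1]
        exact div_nonneg (Finset.sum_nonneg fun t _ => view_innr_nonneg _ _ _ _ _ hχ0 _ _)
          (Nat.cast_nonneg _)
    have hb1 : ∀ ϖ ∈ Pi₀, ∀ ν, b ϖ ν ≠ 0 → ∃ μ, ν = d.G₀ * μ ∧ (nrm μ).Coprime W₀ ∧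
        nrm ϖ * b ϖ ν ≤ δ (nrm μ) * S *
          (Qf P (Rx X) (nrm μ) + errW P (Rx X) C₁ d.m d.c (nrm d.G₀) (nrm ϖ) (nrm μ)) := by
      intro ϖ hϖ ν h0
      obtain ⟨h, rfl⟩ := (hb ϖ hϖ).2 ν h0
      have h00 := hb0 ϖ hϖ (act h 1 0)
      rw [(hb ϖ hϖ).1] at h0 h00 ⊢
      obtain ⟨μ, h1, h2⟩ := view_good_of_ne _ _ _ _ _ _ _ _ _ h0
      refine ⟨μ, h1, h2, ?_⟩
      have h3 := (hbr d W₀ W q₀ q ε η₁ X P Pi₀ Pi hd hX.le hF χ hχ0 M hM0 hMW hMP hM₀ hMj ϖ hϖ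
        h μ h1 h2).1
      rw [hδ2 h _ μ (hn ϖ hϖ).2.2 h1 h2, ← hS, mul_assoc, mul_assoc, ← mul_assoc (δ _)] at h3
      have h4 : 0 < nrm ϖ * avT M (innr d W₀ (Rx X) P Pi χ ϖ) h :=
        mul_pos (by linarith [hn1 ϖ hϖ]) (lt_of_le_of_ne h00 (Ne.symm h0))
      have h5 := (pos_iff_pos_of_mul_pos (h4.trans_le h3)).1
        (lt_of_le_of_ne (hχ0 _) fun e => by rw [← e, zero_mul] at h3; linarith)
      exact h3.trans (mul_le_of_le_one_left h5.le (hχ1 _))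
    refine ⟨b, fun ϖ hϖ => (hb ϖ hϖ).1, hb0, fun ϖ hϖ μ h0 => ?_, ?_⟩
    · obtain ⟨μ', h1, -, h2⟩ := hb1 ϖ hϖ _ h0
      rwa [← mul_left_cancel₀ hd.G₀_ne h1] at h2
    · have e : ∀ ϖ ∈ Pi₀, ∑' μ, nrm ϖ * ψ (nrm μ / (X / (nrm ϖ * nrm d.G₀))) * b ϖ (d.G₀ * μ) =
          ∑' ν, nrm ϖ * ψ (nrm ϖ * nrm ν / X) * b ϖ ν := fun ϖ hϖ => by
        rw [view_reindex hd.G₀_ne (f := fun ν => nrm ϖ * ψ (nrm ϖ * nrm ν / X) * b ϖ ν)
          fun ν hν => (hb1 ϖ hϖ ν (right_ne_zero_of_mul hν)).imp fun μ h => h.1]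
        exact tsum_congr fun μ => by rw [harg ϖ hϖ]
      rw [Finset.sum_congr rfl e]
      refine hb3.trans (le_trans (add_le_add le_rfl ?_) hsm)
      have hNpos : 0 < N := by linarith
      have e2 : ∀ ϖ ∈ Pi₀, C₂ * ∑' ν, ind ((nrm ϖ : ℝ) * nrm ν ≤ C₂ * X) * |b ϖ ν| ≤
          C₂ * (9 * ((C₂ + 1) * X / N) * (8 * X ^ (ε / 2) / N)) := fun ϖ hϖ => by
        have a1 := hn1 ϖ hϖ
        have a2 := (hn ϖ hϖ).1
        have a3 := (hnR ϖ hϖ).trans hR72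
        refine mul_le_mul_of_nonneg_left (le_trans (view_err (K := 8 * X ^ (ε / 2)) (by linarith)
          (by positivity) ?_ (by linarith) fun ν hν => ?_) (by gcongr)) hC₂
        · rw [le_div_iff₀ (by linarith)]; nlinarith
        · rw [abs_of_nonneg (hb0 ϖ hϖ ν)]
          by_cases h0 : b ϖ ν = 0
          · rw [h0, mul_zero]; positivity
          · obtain ⟨μ, h1, h2, h3⟩ := hb1 ϖ hϖ ν h0
            have h4 : (nrm μ : ℝ) ≤ X := by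
              have h5 : (nrm μ : ℝ) ≤ nrm ν := by
                rw [h1, view_nrm_mul]; exact_mod_cast Nat.le_mul_of_pos_left _ hG
              have h6 : (0 : ℝ) ≤ nrm ν := Nat.cast_nonneg _
              refine h5.trans (le_of_mul_le_mul_left (hν.trans ?_) (show 0 < (nrm ϖ : ℝ) by linarith))
              gcongr; linarith
            obtain ⟨h6, h7⟩ := hcr P hPp _ hR1 hRX _ _ a3 h4 (hW2 μ h2)
            refine h3.trans ?_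
            have h8 : δ (nrm μ) * S ≤ 8 := (mul_le_of_le_one_left hSn (hδ.le _)).trans hS8
            calc _ ≤ δ (nrm μ) * S * X ^ (ε / 2) :=
                  mul_le_mul_of_nonneg_left h7 (mul_nonneg (hδ.nonneg _) hSn)
              _ ≤ _ := by gcongr
      refine (Finset.sum_le_sum e2).trans ?_
      rw [Finset.sum_const, nsmul_eq_mul]
      have e3 : X ^ (1 - ε / 2) = X * X ^ (ε / 2) / X ^ ε := by
        rw [show 1 - ε / 2 = 1 + ε / 2 - ε by ring, Real.rpow_sub (by linarith),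
          Real.rpow_add (by linarith), Real.rpow_one]
      have e4 : 0 < X ^ ε := by positivity
      calc _ ≤ 2 * N * (C₂ * (9 * ((C₂ + 1) * X / N) * (8 * X ^ (ε / 2) / N))) :=
            mul_le_mul_of_nonneg_right hcard.2 (by positivity)
        _ = 144 * C₂ * (C₂ + 1) * (X * X ^ (ε / 2) / N) := by field_simp; ring
        _ ≤ _ := by rw [e3]; gcongr
  have hMl : c * X ≤ S * Mo := hSl.trans (mul_le_mul_of_nonneg_left o1 hSn)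
  refine ⟨S * Mo, hMl, ?_, ?_⟩
  · obtain ⟨b, -, hb0, hb1, hb2⟩ := main 1 (fun _ => zero_le_one) fun _ => le_rfl
    have h1 : ∑ ϖ ∈ Pi₀, ∑' μ, nrm ϖ * ψ (nrm μ / (X / (nrm ϖ * nrm d.G₀))) * b ϖ (d.G₀ * μ) ≤
        S * ∑ ϖ ∈ Pi₀, SQ ψ (X / (nrm ϖ * nrm d.G₀)) δ (fun k => Qf P (Rx X) k +
          errW P (Rx X) C₁ d.m d.c (nrm d.G₀) (nrm ϖ) k) := by
      rw [Finset.mul_sum]
      refine Finset.sum_le_sum fun ϖ hϖ => ?_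
      rw [SQ, ← tsum_mul_left]
      refine Summable.tsum_le_tsum (fun μ => ?_) (view_summable hψ (hy ϖ hϖ) _ _)
        ((view_summable hψ (hy ϖ hϖ) _ _).mul_left _)
      have h1 := hψ.nonneg (nrm μ / (X / (nrm ϖ * nrm d.G₀)))
      by_cases h0 : b ϖ (d.G₀ * μ) = 0
      · rw [h0, mul_zero]
        exact mul_nonneg hSn (mul_nonneg (mul_nonneg (hδ.nonneg _) h1)
          (view_nonneg _ _ hC₁ _ _ _ _ _))
      · exact le_of_eq_of_le (by ring) ((mul_le_mul_of_nonneg_left (hb1 ϖ hϖ μ h0) h1).trans_eq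
          (by ring))
    have h2 := (abs_le.1 hb2).2
    have h3 := mul_le_mul_of_nonneg_left o2 hSn
    linarith
  · obtain ⟨b, hb, hb0, -, hb2⟩ := main (chiE (nrm d.G₀) (Rx X)) (fun _ => view_ind_nonneg _)
      fun _ => view_ind_le _
    have hGp : IsCoprime d.G₀.re d.G₀.im := by
      obtain ⟨g, ⟨x, hx, -⟩, -⟩ := hd.sol
      have := view_col_prim g
      rw [view_prim_iff] at this ⊢
      exact fun r hr h => this r hr (hx ▸ h.mul_right x)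
    have h1 : S * ∑ ϖ ∈ Pi₀, SQ ψ (X / (nrm ϖ * nrm d.G₀)) δ (fun k => ind (E3 (Rx X) k) *
          (Qf P (Rx X) k - errW P (Rx X) C₁ d.m d.c (nrm d.G₀) (nrm ϖ) k)) ≤
        ∑ ϖ ∈ Pi₀, ∑' μ, nrm ϖ * ψ (nrm μ / (X / (nrm ϖ * nrm d.G₀))) * b ϖ (d.G₀ * μ) := by
      rw [Finset.mul_sum]
      refine Finset.sum_le_sum fun ϖ hϖ => ?_
      rw [SQ, ← tsum_mul_left]
      refine Summable.tsum_le_tsum (fun μ => ?_) ((view_summable hψ (hy ϖ hϖ) _ _).mul_left _)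
        (view_summable hψ (hy ϖ hϖ) _ _)
      have h1 := hψ.nonneg (nrm μ / (X / (nrm ϖ * nrm d.G₀)))
      have h2 := mul_nonneg (mul_nonneg (Nat.cast_nonneg (nrm ϖ)) h1) (hb0 ϖ hϖ (d.G₀ * μ))
      by_cases hE : E3 (Rx X) (nrm μ)
      swap
      · simpa [ind, hE] using h2
      by_cases h0 : δ (nrm μ) = 0
      · simpa [h0] using h2
      have h3 := hδ.supp _ h0
      have h4 : (nrm μ).Coprime W₀ := Nat.Coprime.coprime_dvd_right hW₀ h3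
      obtain ⟨h, hh⟩ := view_exists_col (view_prim_mul hGp
        (view_prim_of_sqfree (view_E3_sqfree hE)) (Nat.coprime_of_dvd fun p hp hp1 hp2 =>
          hp.one_lt.ne' (Nat.eq_one_of_dvd_coprimes h4 hp2 (hd.bad_G p hp hp1))))
      have h5 := (hbr d W₀ W q₀ q ε η₁ X P Pi₀ Pi hd hX.le hF (chiE (nrm d.G₀) (Rx X))
        (fun _ => view_ind_nonneg _) M hM0 hMW hMP hM₀ hMj ϖ hϖ h μ hh h4).2
        (view_E3_cop hE (by exact_mod_cast hn1 ϖ hϖ) (hnR ϖ hϖ))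
        fun j ϖ' h' => view_E3_cop hE ((hsI j).2 ϖ' h').1 ((hsI j).2 ϖ' h').2
      have h6 : chiE (nrm d.G₀) (Rx X) (nrm (act h 1 0)) = 1 :=
        if_pos ⟨nrm μ, hE, by rw [hh, view_nrm_mul]⟩
      rw [hδ2 h _ μ (hn ϖ hϖ).2.2 hh h4, ← hS, h6, ← hb ϖ hϖ, hh] at h5
      rw [show ind (E3 (Rx X) (nrm μ)) = 1 from if_pos hE]
      exact le_of_eq_of_le (by ring) ((mul_le_mul_of_nonneg_left h5 h1).trans_eq (by ring))
    have h2 := (abs_le.1 hb2).1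
    have h3 := mul_le_mul_of_nonneg_left o3 hSn
    linarith

end Pool.Agent.P.MP_a1177c_nt.EK
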